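import Mathlib

/-!
Burnside's theorem for a set of endomorphisms with trivial commutant, and base change to the
complex numbers.
-/

namespace Pool.Agent.Helper7

open Module

section burnside

variable {K M : Type*} [Field K] [AddCommGroup M] [Module K M] [FiniteDimensional K M]
  [Nontrivial M]

theorem burnside (S : Set (Module.End K M))
    (irr : ∀ U : Submodule K M, (∀ s ∈ S, ∀ v ∈ U, s v ∈ U) → U = ⊥ ∨ U = ⊤)
    (comm : ∀ t : Module.End K M, (∀ s ∈ S, s * t = t * s) → ∃ c : K, t = c • 1) :
    Algebra.adjoin K S = ⊤ := by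
  classical
  obtain ⟨𝒜, h𝒜⟩ : ∃ 𝒜 : Subalgebra K (Module.End K M), 𝒜 = Algebra.adjoin K S := ⟨_, rfl⟩
  rw [← h𝒜]
  have hS : ∀ s ∈ S, s ∈ 𝒜 := fun s hs => by rw [h𝒜]; exact Algebra.subset_adjoin hs
  -- simplicity
  have hsimple : IsSimpleModule 𝒜 M := by
    rw [isSimpleModule_iff]
    refine { exists_pair_ne := ?_, eq_bot_or_eq_top := ?_ }
    · refine ⟨⊥, ⊤, fun h => ?_⟩
      obtain ⟨x, hx⟩ := exists_ne (0 : M)
      have h1 : x ∈ (⊥ : Submodule 𝒜 M) := by rw [h]; trivial
      exact hx ((Submodule.mem_bot _).mp h1)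
    · intro N
      have h1 := irr
        { carrier := N
          add_mem' := fun ha hb => N.add_mem ha hb
          zero_mem' := N.zero_mem
          smul_mem' := fun c x hx => by
            have h2 := N.smul_mem (algebraMap K 𝒜 c) hx
            have h3 : (algebraMap K 𝒜 c) • x = c • x := by
              rw [algebraMap_smul]
            rw [h3] at h2
            exact h2 } (fun s hs v hv => N.smul_mem (⟨s, hS s hs⟩ : 𝒜) hv)
      rcases h1 with h1 | h1
      · left
        rw [eq_bot_iff]
        intro x hx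
        have h2 : x ∈ (⊥ : Submodule K M) := by rw [← h1]; exact hx
        exact (Submodule.mem_bot _).mpr ((Submodule.mem_bot _).mp h2)
      · right
        rw [eq_top_iff]
        intro x _
        have h2 : x ∈ (⊤ : Submodule K M) := Submodule.mem_top
        rw [← h1] at h2
        exact h2
  -- commutant
  have hend : ∀ φ : Module.End 𝒜 M, ∃ c : K, ∀ m, φ m = c • m := by
    intro φ
    obtain ⟨c, hc⟩ := comm
      { toFun := φ
        map_add' := fun x y => map_add φ x y
        map_smul' := fun c x => by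
          have h1 := map_smul φ (algebraMap K 𝒜 c) x
          rw [algebraMap_smul, algebraMap_smul] at h1
          exact h1 } (fun s hs => by
        ext m
        exact (map_smul φ (⟨s, hS s hs⟩ : 𝒜) m).symm)
    exact ⟨c, fun m => congrArg (fun g => g m) hc⟩
  rw [eq_top_iff]
  intro g _
  let f : Module.End (Module.End 𝒜 M) M :=
    { toFun := g
      map_add' := fun x y => map_add g x y
      map_smul' := fun φ x => by
        obtain ⟨c, hc⟩ := hend φ
        show g (φ x) = φ (g x)
        rw [hc, hc, map_smul] }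
  let b := Module.finBasis K M
  obtain ⟨r, hr⟩ := jacobson_density (R := 𝒜) (M := M) f (Finset.univ.image b)
  have h1 : g = (r : Module.End K M) := by
    apply b.ext
    intro i
    exact hr (b i) (Finset.mem_image_of_mem _ (Finset.mem_univ i))
  rw [h1]
  exact r.2

end burnside

section base

variable {K : Type*} [Field K] {r : ℕ}

/-- irreducibility after base change -/
theorem irr_base (hr : 0 < r) (S : Set (Matrix (Fin r) (Fin r) K))
    (irr : ∀ U : Submodule K (Fin r → K), (∀ m ∈ S, ∀ v ∈ U, m.mulVec v ∈ U) → U = ⊥ ∨ U = ⊤)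
    (comm : ∀ t : Matrix (Fin r) (Fin r) K, (∀ m ∈ S, m * t = t * m) → ∃ c : K, t = c • 1)
    (σ : K →+* ℂ) (W : Submodule ℂ (Fin r → ℂ))
    (hW : ∀ m ∈ S, ∀ v ∈ W, (m.map σ).mulVec v ∈ W) : W = ⊥ ∨ W = ⊤ := by
  classical
  haveI : Nonempty (Fin r) := ⟨⟨0, hr⟩⟩
  have h1 : Algebra.adjoin K ((Matrix.toLinAlgEquiv' : Matrix (Fin r) (Fin r) K ≃ₐ[K] _) '' S) =
      ⊤ := by
    apply burnside
    · intro U hU
      exact irr U (fun m hm v hv => hU _ ⟨m, hm, rfl⟩ v hv)
    · intro t ht
      obtain ⟨c, hc⟩ := comm (Matrix.toLinAlgEquiv'.symm t) (fun m hm => by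
        apply (Matrix.toLinAlgEquiv' : Matrix (Fin r) (Fin r) K ≃ₐ[K] _).injective
        rw [map_mul, map_mul, AlgEquiv.apply_symm_apply]
        exact ht _ ⟨m, hm, rfl⟩)
      refine ⟨c, ?_⟩
      have h2 := congrArg (Matrix.toLinAlgEquiv' : Matrix (Fin r) (Fin r) K ≃ₐ[K] _) hc
      rw [AlgEquiv.apply_symm_apply, map_smul, map_one] at h2
      exact h2
  have h2 : Algebra.adjoin K S = ⊤ := by
    have h3 := AlgHom.map_adjoin
      ((Matrix.toLinAlgEquiv' : Matrix (Fin r) (Fin r) K ≃ₐ[K] _).toAlgHom) S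
    have h4 : Function.Injective (Subalgebra.map
        ((Matrix.toLinAlgEquiv' : Matrix (Fin r) (Fin r) K ≃ₐ[K] _).toAlgHom)) :=
      Subalgebra.map_injective
        (Matrix.toLinAlgEquiv' : Matrix (Fin r) (Fin r) K ≃ₐ[K] _).injective
    apply h4
    rw [h3]
    refine h1.trans ?_
    rw [eq_comm, eq_top_iff]
    intro x _
    obtain ⟨y, rfl⟩ := (Matrix.toLinAlgEquiv' : Matrix (Fin r) (Fin r) K ≃ₐ[K] _).surjective x
    exact ⟨y, trivial, rfl⟩
  have h3 : ∀ m : Matrix (Fin r) (Fin r) K, ∀ v ∈ W, (m.map σ).mulVec v ∈ W := by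
    intro m
    have hm : m ∈ Algebra.adjoin K S := by rw [h2]; trivial
    induction hm using Algebra.adjoin_induction with
    | mem m hm => exact hW m hm
    | algebraMap c =>
      intro v hv
      have h4 : ((algebraMap K (Matrix (Fin r) (Fin r) K) c).map σ) = (σ c) • 1 := by
        ext a b
        rw [Matrix.map_apply, Matrix.algebraMap_matrix_apply, Matrix.smul_apply, Matrix.one_apply]
        split_ifs <;> simp
      rw [h4, Matrix.smul_mulVec, Matrix.one_mulVec]
      exact W.smul_mem _ hv
    | add x y _ _ hx hy =>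
      intro v hv
      have h4 : ((x + y).map σ) = x.map σ + y.map σ := by ext a b; simp
      rw [h4, Matrix.add_mulVec]
      exact W.add_mem (hx v hv) (hy v hv)
    | mul x y _ _ hx hy =>
      intro v hv
      have h4 : ((x * y).map σ) = x.map σ * y.map σ := by
        ext a b; simp [Matrix.mul_apply]
      rw [h4, ← Matrix.mulVec_mulVec]
      exact hx _ (hy v hv)
  by_cases hbot : W = ⊥
  · left; exact hbot
  right
  obtain ⟨w, hw, hw0⟩ := Submodule.exists_mem_ne_zero_of_ne_bot hbot
  obtain ⟨b, hb⟩ : ∃ b, w b ≠ 0 := by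
    by_contra hcon
    push Not at hcon
    exact hw0 (funext hcon)
  rw [eq_top_iff]
  intro v _
  rw [pi_eq_sum_univ v]
  refine W.sum_mem fun a _ => W.smul_mem _ ?_
  have h5 := h3 (Matrix.single a b 1) w hw
  have h6 : ((Matrix.single a b (1 : K)).map σ).mulVec w = w b • (Pi.single a 1 : Fin r → ℂ) := by
    funext i
    rw [Matrix.mulVec, dotProduct, Finset.sum_eq_single b]
    · by_cases hi : i = a
      · subst hi; simp
      · have hi' : a ≠ i := fun h => hi h.symm
        simp [Matrix.single_apply, hi, hi']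
    · intro j _ hj
      have hj' : b ≠ j := fun h => hj h.symm
      simp [Matrix.single_apply, hj']
    · intro h; exact absurd (Finset.mem_univ _) h
  rw [h6] at h5
  have h7 := W.smul_mem (w b)⁻¹ h5
  rw [smul_smul, inv_mul_cancel₀ hb, one_smul] at h7
  convert h7 using 1
  funext j
  rw [Pi.single_apply]
  by_cases h : a = j
  · subst h; simp
  · have h' : ¬ (j = a) := fun h2 => h h2.symm
    simp [h, h']

end base

end Pool.Agent.Helper7
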