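import Pool.Agent.Helper7.TX3

/-!
Invariant four-forms: the pairing is non-degenerate.
-/

namespace Pool.Agent.Helper7

open Module LieAlgebra

attribute [local instance 100] LieRing.ofAssociativeRing

section alt

variable {V : Type} [AddCommGroup V] [Module ℂ V] {m : Type} [Fintype m] [DecidableEq m]

lemma actForm_domDomCongr (X : Module.End ℂ V) (π : Equiv.Perm m)
    (Y : MultilinearMap ℂ (fun _ : m => V) ℂ) :
    actForm X (Y.domDomCongr π) = (actForm X Y).domDomCongr π := by
  apply MultilinearMap.ext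
  intro v
  rw [MultilinearMap.domDomCongr_apply, actForm_apply, actForm_apply]
  refine Fintype.sum_equiv π.symm _ _ fun r => ?_
  rw [MultilinearMap.domDomCongr_apply]
  congr 1
  funext j
  by_cases h : π j = r
  · subst h
    rw [Function.update_self, Equiv.symm_apply_apply, Function.update_self]
  · have h2 : j ≠ π.symm r := by
      intro h3; apply h; rw [h3]; simp
    rw [Function.update_of_ne h, Function.update_of_ne h2]

lemma actForm_sum_right {κ : Type} (s : Finset κ) (X : Module.End ℂ V)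
    (Y : κ → MultilinearMap ℂ (fun _ : m => V) ℂ) :
    actForm X (∑ k ∈ s, Y k) = ∑ k ∈ s, actForm X (Y k) := by
  apply MultilinearMap.ext
  intro v
  rw [actForm_apply, _root_.sum_apply]
  simp only [_root_.sum_apply, actForm_apply]
  rw [Finset.sum_comm]

lemma actForm_add_right (X : Module.End ℂ V) (Y Y' : MultilinearMap ℂ (fun _ : m => V) ℂ) :
    actForm X (Y + Y') = actForm X Y + actForm X Y' := by
  apply MultilinearMap.ext
  intro v
  rw [_root_.add_apply, actForm_apply, actForm_apply, actForm_apply, ← Finset.sum_add_distrib]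
  rfl

lemma actForm_alt (X : Module.End ℂ V) (Y : MultilinearMap ℂ (fun _ : m => V) ℂ) :
    actForm X ((MultilinearMap.alternatization Y : V [⋀^m]→ₗ[ℂ] ℂ) :
      MultilinearMap ℂ (fun _ : m => V) ℂ) =
      ((MultilinearMap.alternatization (actForm X Y) : V [⋀^m]→ₗ[ℂ] ℂ) :
      MultilinearMap ℂ (fun _ : m => V) ℂ) := by
  rw [MultilinearMap.alternatization_coe, MultilinearMap.alternatization_coe, actForm_sum_right]
  refine Finset.sum_congr rfl fun π _ => ?_
  rw [← actForm_domDomCongr]
  rcases Int.units_eq_one_or (Equiv.Perm.sign π) with h | h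
  · rw [h, one_smul, one_smul]
  · rw [h]
    have h4 : ∀ Z : MultilinearMap ℂ (fun _ : m => V) ℂ, (-1 : ℤˣ) • Z = (-1 : ℂ) • Z := by
      intro Z
      rw [Units.neg_smul, one_smul, neg_smul, one_smul]
    rw [h4, h4, actForm_smul_right]

end alt

section module

variable {V : Type} [AddCommGroup V] [Module ℂ V] (L : LieSubalgebra ℂ (Module.End ℂ V))

/-- four-forms as a Lie ring module -/
@[reducible] noncomputable def fourLRM :
    LieRingModule L (MultilinearMap ℂ (fun _ : Fin 4 => V) ℂ) where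
  bracket X Y := - actForm X.1 Y
  add_lie X Y m := by
    show - actForm (X.1 + Y.1) m = - actForm X.1 m + - actForm Y.1 m
    rw [actForm_add, neg_add]
  lie_add X m n := by
    show - actForm X.1 (m + n) = - actForm X.1 m + - actForm X.1 n
    rw [actForm_add_right, neg_add]
  leibniz_lie X Y m := by
    show - actForm X.1 (- actForm Y.1 m) = - actForm (X.1 * Y.1 - Y.1 * X.1) m +
      - actForm Y.1 (- actForm X.1 m)
    have hneg : ∀ (Z : Module.End ℂ V) (m : MultilinearMap ℂ (fun _ : Fin 4 => V) ℂ),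
        actForm Z (- m) = - actForm Z m := by
      intro Z m
      have h := actForm_smul_right (-1) Z m
      rwa [neg_smul, one_smul, neg_smul, one_smul] at h
    rw [hneg, hneg, actForm_bracket]
    abel

/-- four-forms as a Lie module -/
lemma fourLM : letI := fourLRM L
    LieModule ℂ L (MultilinearMap ℂ (fun _ : Fin 4 => V) ℂ) := by
  letI := fourLRM L
  exact
    { smul_lie := fun t X m => by
        show - actForm (t • X.1) m = t • (- actForm X.1 m)
        rw [actForm_smul, smul_neg]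
      lie_smul := fun t X m => by
        show - actForm X.1 (t • m) = t • (- actForm X.1 m)
        rw [actForm_smul_right, smul_neg] }

end module

namespace SympB

variable {V : Type} [AddCommGroup V] [Module ℂ V] {ι : Type} [Fintype ι] [DecidableEq ι]
  (S : SympB V ι)

/-- the trace form of the operators is the pairing -/
lemma trace_T_pair (x y : V [⋀^Fin 4]→ₗ[ℂ] ℂ) :
    LinearMap.trace ℂ (Module.End ℂ V) (S.T (q4 x) * S.T (q4 y)) =
      S.pair4 (x : MultilinearMap ℂ (fun _ : Fin 4 => V) ℂ)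
        (y : MultilinearMap ℂ (fun _ : Fin 4 => V) ℂ) := by
  rw [S.trace_T, S.pair4_eq]
  -- move the index `b`
  have e1 : ∑ b, ∑ c, ∑ a, ∑ d, q4 x (S.e c) (S.e' b) (S.e d) (S.e' a) *
        q4 y (S.e a) (S.e' d) (S.e b) (S.e' c) =
      - ∑ b, ∑ c, ∑ a, ∑ d, q4 x (S.e c) (S.e b) (S.e d) (S.e' a) *
        q4 y (S.e a) (S.e' d) (S.e' b) (S.e' c) := by
    let g : V →ₗ[ℂ] V →ₗ[ℂ] ℂ := LinearMap.mk₂ ℂ (fun u v => ∑ c, ∑ a, ∑ d,
      q4 x (S.e c) u (S.e d) (S.e' a) * q4 y (S.e a) (S.e' d) v (S.e' c))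
      (fun u u' v => by simp [add_mul, Finset.sum_add_distrib])
      (fun t u v => by simp [Finset.mul_sum, mul_assoc])
      (fun u v v' => by simp [mul_add, Finset.sum_add_distrib])
      (fun t u v => by simp [Finset.mul_sum, mul_left_comm])
    exact S.sum_swap g
  have e2 : ∀ b c, ∑ a, ∑ d, q4 x (S.e c) (S.e b) (S.e d) (S.e' a) *
        q4 y (S.e a) (S.e' d) (S.e' b) (S.e' c) =
      - ∑ a, ∑ d, q4 x (S.e c) (S.e b) (S.e d) (S.e a) *
        q4 y (S.e' a) (S.e' d) (S.e' b) (S.e' c) := by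
    intro b c
    let g : V →ₗ[ℂ] V →ₗ[ℂ] ℂ := LinearMap.mk₂ ℂ (fun u v => ∑ d,
      q4 x (S.e c) (S.e b) (S.e d) u * q4 y v (S.e' d) (S.e' b) (S.e' c))
      (fun u u' v => by simp [add_mul, Finset.sum_add_distrib])
      (fun t u v => by simp [Finset.mul_sum, mul_assoc])
      (fun u v v' => by simp [mul_add, Finset.sum_add_distrib])
      (fun t u v => by simp [Finset.mul_sum, mul_left_comm])
    exact S.sum_swap g
  rw [e1]
  simp only [e2, Finset.sum_neg_distrib, neg_neg]
  simp only [← q4_eq_m4]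
  -- relabel
  have e3 : ∀ a b c d : V, q4 y a d b c = q4 y c b d a := by
    intro a b c d
    rw [q4_12 y a d b c, q4_23 y d a b c, q4_34 y d b a c, q4_12 y d b c a, q4_23 y b d c a,
      q4_12 y b c d a]
    ring
  simp only [e3 (S.e' _) (S.e' _) (S.e' _) (S.e' _)]
  rw [Finset.sum_comm]
  refine Finset.sum_congr rfl fun c _ => Finset.sum_congr rfl fun b _ => ?_
  rw [Finset.sum_comm]

/-- non-degeneracy on the invariants -/
theorem exists_pair (L : LieSubalgebra ℂ (Module.End ℂ V)) [HasTrivialRadical ℂ L]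
    (hL : ∀ X ∈ L, S.IsSkew X) (x : V [⋀^Fin 4]→ₗ[ℂ] ℂ)
    (hx : ∀ X ∈ L, actForm X (x : MultilinearMap ℂ (fun _ : Fin 4 => V) ℂ) = 0) (hx0 : x ≠ 0) :
    ∃ y : V [⋀^Fin 4]→ₗ[ℂ] ℂ,
      (∀ X ∈ L, actForm X (y : MultilinearMap ℂ (fun _ : Fin 4 => V) ℂ) = 0) ∧
      LinearMap.trace ℂ (Module.End ℂ V) (S.T (q4 x) * S.T (q4 y)) ≠ 0 := by
  have : FiniteDimensional ℂ V := S.e.finiteDimensional_of_finite
  letI := fourLRM L
  haveI := fourLM L
  obtain ⟨Y, hY, hY0⟩ := weyl_lite (L := L) _ (MultilinearMap ℂ (fun _ : Fin 4 => V) ℂ) le_rfl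
    (S.pair4 (x : MultilinearMap ℂ (fun _ : Fin 4 => V) ℂ)) (fun X m => by
      show S.pair4 (x : MultilinearMap ℂ (fun _ : Fin 4 => V) ℂ) (- actForm X.1 m) = 0
      rw [map_neg, S.pair4_inv X.1 (hL X.1 X.2), hx X.1 X.2]
      have h : S.pair4 0 m = 0 := by
        rw [pair4_apply]
        exact Finset.sum_eq_zero fun s _ => by
          rw [_root_.zero_apply, zero_mul]
      rw [h, neg_zero, neg_zero]) (fun h => by
      apply hx0
      have h1 := S.pair4_nondeg _ h
      apply AlternatingMap.ext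
      intro v
      exact congrArg (fun g => g v) h1)
  refine ⟨MultilinearMap.alternatization Y, fun X hX => ?_, ?_⟩
  · rw [actForm_alt]
    have h1 : - actForm X Y = 0 := hY ⟨X, hX⟩
    rw [neg_eq_zero.mp h1, map_zero]
    rfl
  · rw [S.trace_T_pair, S.pair4_alt]
    exact mul_ne_zero (by norm_num) hY0

end SympB

end Pool.Agent.Helper7
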