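import Pool.Agent.Helper7.Core

/-!
The theorem for abstract data.
-/

namespace Pool.Agent.Helper7

open Module NumberField

variable {I : Type*} [Fintype I] [DecidableEq I] (n : I → ℕ)
  {L : I → Type*} [∀ i, Field (L i)] [∀ i, NumberField (L i)]
  {κ : I → Type*} [∀ i, Fintype (κ i)] [∀ i, DecidableEq (κ i)] {ϖ : ℂ}
  (D : ∀ i, CMData (L i) (κ i) ϖ)

/-- first homology of the product -/
abbrev HW (κ : I → Type*) (n : I → ℕ) : Type _ := (i : I) → Fin (n i) → κ i → ℂ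

/-- index set of the eigenbasis -/
abbrev BI (L : I → Type*) [∀ i, Field (L i)] (n : I → ℕ) : Type _ :=
  Σ i, Σ (_ : Fin (n i)), (L i →+* ℂ)

/-- eigenbasis -/
noncomputable def EB : Basis (BI L n) ℂ (HW κ n) :=
  Pi.basis (fun i => Pi.basis (fun _ : Fin (n i) => (D i).ch.eb))

/-- Betti basis -/
noncomputable def FB : Basis (Σ i, Σ (_ : Fin (n i)), (D i).ι) ℂ (HW κ n) :=
  Pi.basis (fun i => Pi.basis (fun _ : Fin (n i) => (D i).bB))

/-- type of an index -/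
def pT (b : BI L n) : Σ i, (L i →+* ℂ) := ⟨b.1, b.2.2⟩

/-- vector supported in one slot -/
def slot (i : I) (m : Fin (n i)) (v : κ i → ℂ) : HW κ n := Pi.single i (Pi.single m v)

omit [Fintype I] [∀ i, Fintype (κ i)] [∀ i, DecidableEq (κ i)] in
lemma slot_add (i : I) (m : Fin (n i)) (v w : κ i → ℂ) :
    slot (κ := κ) n i m (v + w) = slot n i m v + slot n i m w := by
  simp only [slot, ← Pi.single_add]

omit [Fintype I] [∀ i, Fintype (κ i)] [∀ i, DecidableEq (κ i)] in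
lemma slot_smul (i : I) (m : Fin (n i)) (c : ℂ) (v : κ i → ℂ) :
    slot (κ := κ) n i m (c • v) = c • slot n i m v := by
  simp only [slot, ← Pi.single_smul]

/-- `slot` as a linear map -/
def slotL (i : I) (m : Fin (n i)) : (κ i → ℂ) →ₗ[ℂ] HW κ n where
  toFun := slot n i m
  map_add' := slot_add n i m
  map_smul' := slot_smul n i m

lemma EB_apply (b : BI L n) : EB n D b = slot n b.1 b.2.1 ((D b.1).ch.eb b.2.2) := by
  simp [EB, slot]

lemma FB_apply (b : Σ i, Σ (_ : Fin (n i)), (D i).ι) :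
    FB n D b = slot n b.1 b.2.1 ((D b.1).bB b.2.2) := by
  simp [FB, slot]

/-- action on indices -/
def actB (τ : ℂ ≃+* ℂ) (b : BI L n) : BI L n := ⟨b.1, b.2.1, (τ : ℂ →+* ℂ).comp b.2.2⟩

lemma EB_expand (τ : ℂ ≃+* ℂ) (b : BI L n) :
    EB n D (actB n τ b) = ∑ x : Fin (finrank ℚ (L b.1)), τ (b.2.2 (dbas (L b.1) x)) •
      slot n b.1 b.2.1 ((D b.1).ρ (bas (L b.1) x) (D b.1).ch.lam) := by
  rw [EB_apply]
  show slotL n b.1 b.2.1 ((D b.1).ch.eb ((τ : ℂ →+* ℂ).comp b.2.2)) = _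
  rw [(D b.1).ch.heb, proj_apply, map_sum]
  refine Finset.sum_congr rfl (fun x _ => ?_)
  rw [map_smul]
  rfl

/-- rational vectors -/
def IsRat (v : HW κ n) : Prop := ∀ i m, v i m ∈ Submodule.span ℚ (Set.range (D i).bB)

omit [Fintype I] in
lemma slot_isRat (i : I) (m : Fin (n i)) (v : κ i → ℂ)
    (hv : v ∈ Submodule.span ℚ (Set.range (D i).bB)) : IsRat n D (slot n i m v) := by
  intro i' m'
  by_cases h : i' = i
  · subst h
    simp only [slot, Pi.single_eq_same]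
    by_cases h2 : m' = m
    · subst h2; simpa using hv
    · rw [Pi.single_eq_of_ne h2]; exact Submodule.zero_mem _
  · simp only [slot, Pi.single_eq_of_ne h]
    exact Submodule.zero_mem _

omit [Fintype I] [∀ i, Fintype (κ i)] [∀ i, DecidableEq (κ i)] in
lemma slot_isAlg (i : I) (m : Fin (n i)) (v : κ i → ℂ)
    (hv : ∀ j, IsAlgebraic ℚ (v j)) (i' : I) (m' : Fin (n i')) (j : κ i') :
    IsAlgebraic ℚ (slot (κ := κ) n i m v i' m' j) := by
  by_cases h : i' = i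
  · subst h
    simp only [slot, Pi.single_eq_same]
    by_cases h2 : m' = m
    · subst h2; simpa using hv j
    · rw [Pi.single_eq_of_ne h2]; exact isAlgebraic_zero
  · simp only [slot, Pi.single_eq_of_ne h]
    exact isAlgebraic_zero

section form

variable {M : ℕ} (α : (HW κ n) [⋀^Fin M]→ₗ[ℂ] ℂ) (κ₀ : ℂ)
  (hB : ∀ v : Fin M → HW κ n, (∀ r, IsRat n D (v r)) → ∃ q : ℚ, α v = κ₀ * q)
  (hA : ∀ v : Fin M → HW κ n, (∀ r i m j, IsAlgebraic ℚ (v r i m j)) → IsAlgebraic ℚ (α v))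

include hB in
lemma exists_coeff (s : Fin M → BI L n) : ∃ A : ℂ, IsAlgebraic ℚ A ∧
    ∀ τ : ℂ ≃+* ℂ, α (fun r => EB n D (actB n τ (s r))) = κ₀ * τ A := by
  classical
  have h1 : ∀ f : (r : Fin M) → Fin (finrank ℚ (L (s r).1)), ∃ q : ℚ,
      α (fun r => slot n (s r).1 (s r).2.1
        ((D (s r).1).ρ (bas (L (s r).1) (f r)) (D (s r).1).ch.lam)) = κ₀ * q := fun f =>
    hB _ (fun r => slot_isRat n D _ _ _ ((D (s r).1).hρQ _ _ (D (s r).1).ch.hlam))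
  choose q hq using h1
  refine ⟨∑ f : (r : Fin M) → Fin (finrank ℚ (L (s r).1)),
    (∏ r, (s r).2.2 (dbas (L (s r).1) (f r))) * (q f : ℂ), ?_, ?_⟩
  · exact isAlg_sum _ _ (fun f _ => (isAlg_prod _ _ (fun r _ => isAlg_emb _ _)).mul
      (isAlgebraic_rat ℚ _))
  · intro τ
    simp only [EB_expand]
    have h2 := (α : MultilinearMap ℂ (fun _ : Fin M => HW κ n) ℂ).map_sum
      (α := fun r => Fin (finrank ℚ (L (s r).1)))
      (fun r x => τ ((s r).2.2 (dbas (L (s r).1) x)) •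
      slot n (s r).1 (s r).2.1 ((D (s r).1).ρ (bas (L (s r).1) x) (D (s r).1).ch.lam))
    rw [AlternatingMap.coe_multilinearMap] at h2
    rw [h2, map_sum, Finset.mul_sum]
    refine Finset.sum_congr rfl (fun f _ => ?_)
    have h3 := (α : MultilinearMap ℂ (fun _ : Fin M => HW κ n) ℂ).map_smul_univ
      (fun r => τ ((s r).2.2 (dbas (L (s r).1) (f r))))
      (fun r => slot n (s r).1 (s r).2.1
        ((D (s r).1).ρ (bas (L (s r).1) (f r)) (D (s r).1).ch.lam))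
    rw [AlternatingMap.coe_multilinearMap] at h3
    rw [h3, hq, map_mul, map_prod, map_ratCast, smul_eq_mul]
    ring

/-- all periods -/
noncomputable def ΩT (t : Σ i, (L i →+* ℂ)) : ℂ := (D t.1).ch.Ω t.2

omit [Fintype I] [DecidableEq I] in
lemma ΩT_ne (t : Σ i, (L i →+* ℂ)) : ΩT D t ≠ 0 := (D t.1).ch.hΩ t.2

lemma EB_eq (b : BI L n) :
    EB n D b = ΩT D (pT n b) • slot n b.1 b.2.1 ((D b.1).ch.ε b.2.2) := by
  rw [EB_apply, (D b.1).ch.hΩε, slot_smul]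
  rfl

include hA hB in
lemma prod_periods (hκ : κ₀ ≠ 0) (s : Fin M → BI L n) (hs : α (fun r => EB n D (s r)) ≠ 0)
    (τ : ℂ ≃+* ℂ) : ∃ a : ℂ, IsAlgebraic ℚ a ∧ a ≠ 0 ∧
      ∏ r, ΩT D (actT τ (pT n (s r))) = κ₀ * a := by
  obtain ⟨A, hAalg, hAτ⟩ := exists_coeff n D α κ₀ hB s
  have hA0 : A ≠ 0 := by
    intro h
    apply hs
    have h1 := hAτ (RingEquiv.refl ℂ)
    have h2 : ∀ b : BI L n, actB n (RingEquiv.refl ℂ) b = b := by
      rintro ⟨i, m, σ⟩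
      rfl
    simp only [h2] at h1
    rw [h1, h]; simp
  have h1 := hAτ τ
  have h2 : α (fun r => EB n D (actB n τ (s r))) = (∏ r, ΩT D (actT τ (pT n (s r)))) *
      α (fun r => slot n (s r).1 (s r).2.1
        ((D (s r).1).ch.ε ((τ : ℂ →+* ℂ).comp (s r).2.2))) := by
    have h3 := (α : MultilinearMap ℂ (fun _ : Fin M => HW κ n) ℂ).map_smul_univ
      (fun r => ΩT D (actT τ (pT n (s r))))
      (fun r => slot n (s r).1 (s r).2.1
        ((D (s r).1).ch.ε ((τ : ℂ →+* ℂ).comp (s r).2.2)))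
    rw [AlternatingMap.coe_multilinearMap] at h3
    rw [← smul_eq_mul, ← h3]
    congr 1
    funext r
    rw [EB_eq]
    rfl
  have hw : IsAlgebraic ℚ (α (fun r => slot n (s r).1 (s r).2.1
        ((D (s r).1).ch.ε ((τ : ℂ →+* ℂ).comp (s r).2.2)))) :=
    hA _ (fun r i m j => slot_isAlg n _ _ _ ((D (s r).1).ch.hε _) i m j)
  have hτA : τ A ≠ 0 := by
    intro h; exact hA0 (by simpa using h)
  have hτalg : IsAlgebraic ℚ (τ A) := by
    have := hAalg.algHom (τ : ℂ →+* ℂ).toRatAlgHom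
    simpa using this
  have hw0 : α (fun r => slot n (s r).1 (s r).2.1
        ((D (s r).1).ch.ε ((τ : ℂ →+* ℂ).comp (s r).2.2))) ≠ 0 := by
    intro h
    rw [h1, h, mul_zero] at h2
    exact mul_ne_zero hκ hτA h2
  refine ⟨τ A / α (fun r => slot n (s r).1 (s r).2.1
        ((D (s r).1).ch.ε ((τ : ℂ →+* ℂ).comp (s r).2.2))), hτalg.mul hw.inv,
        div_ne_zero hτA hw0, ?_⟩
  rw [h1] at h2
  rw [← mul_div_assoc, h2, mul_div_cancel_right₀ _ hw0]

end form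

/-- the multiplicity freeness hypothesis -/
def MF (L : I → Type*) [∀ i, Field (L i)] : Prop :=
  ∀ U : Submodule ℚ ((Σ i, (L i →+* ℂ)) → ℚ), (∀ u ∈ U, ∀ t, u (conjT t) = - u t) →
    (∀ τ : ℂ ≃+* ℂ, ∀ u ∈ U, (fun t => u (actT τ t)) ∈ U) →
    ∀ i, (∃ u ∈ U, ∃ σ, u ⟨i, σ⟩ ≠ 0) →
    ∀ w : (Σ i, (L i →+* ℂ)) → ℚ, (∀ t, w (conjT t) = - w t) → (∀ t, t.1 ≠ i → w t = 0) → w ∈ U

lemma relSpace_eq_zero (hϖ : ϖ ≠ 0) (hMF : MF L) (u : (Σ i, (L i →+* ℂ)) → ℚ)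
    (hu : u ∈ relSpace (actT (L := L)) conjT (ΩT D) (ΩT_ne D)) (t : Σ i, (L i →+* ℂ)) :
    u t = 0 := by
  classical
  by_contra hne
  obtain ⟨i, σ₀⟩ := t
  have hstab : ∀ τ : ℂ ≃+* ℂ, ∀ u ∈ relSpace (actT (L := L)) conjT (ΩT D) (ΩT_ne D),
      (fun t => u (actT τ t)) ∈ relSpace (actT (L := L)) conjT (ΩT D) (ΩT_ne D) := by
    intro τ u hu
    refine relSpace_stable (actT (L := L)) conjT (ΩT D) (ΩT_ne D)
      (fun τ τ' => (τ' : ℂ ≃+* ℂ).trans τ) ?_ (actT_conjT D) τ u hu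
    rintro τ τ' ⟨i, σ⟩
    rfl
  have hmem := hMF (relSpace (actT (L := L)) conjT (ΩT D) (ΩT_ne D)) (fun u hu => hu.1) hstab i
    ⟨u, hu, σ₀, hne⟩
  refine (D i).contradiction hϖ (D i).ch.lam (D i).ch.eb (D i).ch.Ω (D i).ch.ε (D i).ch.hlam
    (D i).ch.h0 (D i).ch.heb (D i).ch.hΩ (D i).ch.hε (D i).ch.hΩε (D i).ch.hLeg ?_
  intro σ
  have hne' : conjT (⟨i, σ⟩ : Σ i, (L i →+* ℂ)) ≠ ⟨i, σ⟩ := conjT_ne D _
  have hw := hmem (fun t => (if t = ⟨i, σ⟩ then 1 else 0) -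
    (if t = conjT ⟨i, σ⟩ then 1 else 0)) ?_ ?_
  · obtain ⟨_, N, hN, m, hm, ha⟩ := hw
    have h1 := ha (RingEquiv.refl ℂ)
    have h2 : ∀ t : (Σ i, (L i →+* ℂ)), actT (RingEquiv.refl ℂ) t = t := by
      rintro ⟨i, σ⟩; rfl
    simp only [h2] at h1
    have h3 : ∀ t, m t = (if t = ⟨i, σ⟩ then (N : ℤ) else 0) -
        (if t = conjT ⟨i, σ⟩ then (N : ℤ) else 0) := by
      intro t
      have h4 := hm t
      have : ((m t : ℤ) : ℚ) = (((if t = ⟨i, σ⟩ then (N : ℤ) else 0) -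
        (if t = conjT ⟨i, σ⟩ then (N : ℤ) else 0) : ℤ) : ℚ) := by
        rw [h4]
        push_cast
        split_ifs <;> simp
      exact_mod_cast this
    have h5 : ∏ t, ΩT D t ^ (m t) =
        ((D i).ch.Ω σ / (D i).ch.Ω (ComplexEmbedding.conjugate σ)) ^ N := by
      simp only [h3, zpow_sub₀ (ΩT_ne D _)]
      rw [Finset.prod_div_distrib]
      have h6 : ∀ t₀ : (Σ i, (L i →+* ℂ)), ∏ t, ΩT D t ^ (if t = t₀ then (N : ℤ) else 0) =
          ΩT D t₀ ^ N := by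
        intro t₀
        rw [Finset.prod_eq_single t₀]
        · rw [if_pos rfl, zpow_natCast]
        · intro t _ ht; rw [if_neg ht, zpow_zero]
        · intro h; exact absurd (Finset.mem_univ _) h
      rw [h6, h6, div_pow]
      rfl
    rw [h5] at h1
    exact IsAlgebraic.of_pow (Nat.pos_of_ne_zero hN) h1
  · intro t
    have e1 : (conjT t = (⟨i, σ⟩ : Σ i, (L i →+* ℂ))) ↔ t = conjT ⟨i, σ⟩ := by
      constructor
      · intro h; rw [← h, conjT_conjT]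
      · intro h; rw [h, conjT_conjT]
    have e2 : (conjT t = conjT (⟨i, σ⟩ : Σ i, (L i →+* ℂ))) ↔ t = ⟨i, σ⟩ := by
      constructor
      · intro h; rw [← conjT_conjT t, h, conjT_conjT]
      · intro h; rw [h]
    simp only [e1, e2]
    ring
  · intro t ht
    have e1 : t ≠ ⟨i, σ⟩ := by rintro rfl; exact ht rfl
    have e2 : t ≠ conjT ⟨i, σ⟩ := by rintro rfl; exact ht rfl
    simp [e1, e2]

lemma balanced (hϖ : ϖ ≠ 0) (hMF : MF L) {k : ℕ} (α : (HW κ n) [⋀^Fin (2 * k)]→ₗ[ℂ] ℂ)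
    (hB : ∀ v : Fin (2 * k) → HW κ n, (∀ r, IsRat n D (v r)) → ∃ q : ℚ, α v = ϖ ^ k * q)
    (hA : ∀ v : Fin (2 * k) → HW κ n, (∀ r i m j, IsAlgebraic ℚ (v r i m j)) →
      IsAlgebraic ℚ (α v))
    [DecidableEq (Σ i, (L i →+* ℂ))]
    (s : Fin (2 * k) → BI L n) (hs : α (fun r => EB n D (s r)) ≠ 0)
    (t : Σ i, (L i →+* ℂ)) : Fintype.card {r // pT n (s r) = t} =
      Fintype.card {r // pT n (s r) = conjT t} := by
  have h1 := mem_relSpace (actT (L := L)) conjT (ΩT D) (ΩT_ne D) (fun τ => τ.symm)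
    (fun τ t => (actT τ).apply_symm_apply t) conjT_conjT (actT_conjT D) ϖ hϖ
    (fun t => (D t.1).ch.hLeg t.2) (fun r => pT n (s r))
    (prod_periods n D α (ϖ ^ k) hB hA (pow_ne_zero _ hϖ) s hs)
  have h2 := relSpace_eq_zero D hϖ hMF _ h1 t
  have h3 := sub_eq_zero.mp h2
  exact_mod_cast h3

end Pool.Agent.Helper7
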