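import Pool.Agent.Helper7.Generate
import Pool.Agent.Helper7.Main

/-!
Generation by pull-backs of the polarisation forms, and the final theorem for abstract data.
-/

namespace Pool.Agent.Helper7

open Module NumberField

variable {I : Type*} [Fintype I] [DecidableEq I] (n : I → ℕ)
  {L : I → Type*} [∀ i, Field (L i)] [∀ i, NumberField (L i)]
  {κ : I → Type*} [∀ i, Fintype (κ i)] [∀ i, DecidableEq (κ i)] {ϖ : ℂ}
  (D : ∀ i, CMData (L i) (κ i) ϖ)

/-- the projection to a slot -/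
def prL (i : I) (m : Fin (n i)) : HW κ n →ₗ[ℂ] (κ i → ℂ) where
  toFun v := v i m
  map_add' _ _ := rfl
  map_smul' _ _ := rfl

/-- homomorphisms given by vectors over the number field -/
noncomputable def homL (i : I) (c : Fin (n i) → L i) : HW κ n →ₗ[ℂ] (κ i → ℂ) :=
  ∑ m, ((D i).ρ (c m)).comp (prL n i m)

/-- pull-backs of polarisation forms -/
def GS : Set (HW κ n →ₗ[ℂ] HW κ n →ₗ[ℂ] ℂ) :=
  {g | ∃ (i : I) (c : Fin (n i) → L i), g = (D i).ψ.compl₁₂ (homL n D i c) (homL n D i c)}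

omit [Fintype I] [DecidableEq I] in
lemma homL_add (i : I) (c c' : Fin (n i) → L i) :
    homL n D i (c + c') = homL n D i c + homL n D i c' := by
  simp only [homL, ← Finset.sum_add_distrib]
  refine Finset.sum_congr rfl (fun m _ => ?_)
  rw [Pi.add_apply, map_add]
  rfl

omit [Fintype I] [DecidableEq I] in
lemma homL_single (i : I) (m : Fin (n i)) (x : L i) :
    homL n D i (Pi.single m x) = ((D i).ρ x).comp (prL n i m) := by
  rw [homL, Finset.sum_eq_single m]
  · rw [Pi.single_eq_same]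
  · intro m' _ hm'
    rw [Pi.single_eq_of_ne hm', map_zero]
    rfl
  · intro h; exact absurd (Finset.mem_univ _) h

/-- the mixed form -/
noncomputable def mixed (i : I) (m m' : Fin (n i)) (x : L i) : HW κ n →ₗ[ℂ] HW κ n →ₗ[ℂ] ℂ :=
  (D i).ψ.compl₁₂ (((D i).ρ x).comp (prL n i m)) (prL n i m') -
    ((D i).ψ.compl₁₂ (((D i).ρ x).comp (prL n i m)) (prL n i m')).flip

omit [Fintype I] [DecidableEq I] in
lemma mixed_mem (i : I) (m m' : Fin (n i)) (x : L i) :
    mixed n D i m m' x ∈ Submodule.span ℂ (GS n D) := by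
  have h1 : ∀ c : Fin (n i) → L i, (D i).ψ.compl₁₂ (homL n D i c) (homL n D i c) ∈
      Submodule.span ℂ (GS n D) := fun c => Submodule.subset_span ⟨i, c, rfl⟩
  have h2 := Submodule.sub_mem _ (Submodule.sub_mem _ (h1 (Pi.single m x + Pi.single m' 1))
    (h1 (Pi.single m x))) (h1 (Pi.single m' 1))
  have h3 : mixed n D i m m' x = (D i).ψ.compl₁₂ (homL n D i (Pi.single m x + Pi.single m' 1))
      (homL n D i (Pi.single m x + Pi.single m' 1)) -
      (D i).ψ.compl₁₂ (homL n D i (Pi.single m x)) (homL n D i (Pi.single m x)) -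
      (D i).ψ.compl₁₂ (homL n D i (Pi.single m' 1)) (homL n D i (Pi.single m' 1)) := by
    rw [homL_add, homL_single, homL_single, map_one]
    apply LinearMap.ext; intro u
    apply LinearMap.ext; intro v
    simp only [mixed, LinearMap.sub_apply, LinearMap.compl₁₂_apply, LinearMap.flip_apply,
      LinearMap.add_apply, LinearMap.comp_apply, map_add, Module.End.one_apply]
    rw [(D i).hψalt (((D i).ρ x) (prL n i m v)) (prL n i m' u)]
    ring
  rw [h3]; exact h2

omit [DecidableEq I] in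
lemma coord_eq (i : I) (m : Fin (n i)) (σ : L i →+* ℂ) (u : HW κ n) :
    (EB n D).coord ⟨i, m, σ⟩ u = (D i).ch.eb.repr (u i m) σ := by
  rw [Basis.coord_apply]
  simp [EB]

omit [DecidableEq I] in
lemma sum_mixed (i : I) (m m' : Fin (n i)) (σ : L i →+* ℂ) :
    ∑ b, σ (dbas (L i) b) • mixed n D i m m' (bas (L i) b) =
      ((D i).ψ ((D i).ch.eb σ) ((D i).ch.eb (ComplexEmbedding.conjugate σ))) •
      (coordTensor (EB n D) ⟨i, m, σ⟩ ⟨i, m', ComplexEmbedding.conjugate σ⟩ -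
        (coordTensor (EB n D) ⟨i, m, σ⟩ ⟨i, m', ComplexEmbedding.conjugate σ⟩).flip) := by
  have key : ∀ u v : κ i → ℂ, ∑ b, σ (dbas (L i) b) * (D i).ψ ((D i).ρ (bas (L i) b) u) v =
      ((D i).ψ ((D i).ch.eb σ) ((D i).ch.eb (ComplexEmbedding.conjugate σ))) *
      ((D i).ch.eb.repr u σ * (D i).ch.eb.repr v (ComplexEmbedding.conjugate σ)) := by
    intro u v
    have h1 : ∑ b, σ (dbas (L i) b) * (D i).ψ ((D i).ρ (bas (L i) b) u) v =
        (D i).ψ (proj (D i).ρ σ u) v := by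
      rw [proj_apply, LinearMap.map_sum₂]
      refine Finset.sum_congr rfl (fun b _ => ?_)
      rw [map_smul, LinearMap.smul_apply, smul_eq_mul]
    rw [h1, proj_apply_eb (D i).ρ (D i).ch.eb _ (D i).ch.heb, map_smul, LinearMap.smul_apply,
      smul_eq_mul]
    have h2 : (D i).ψ ((D i).ch.eb σ) v = ((D i).ψ ((D i).ch.eb σ)
        ((D i).ch.eb (ComplexEmbedding.conjugate σ))) *
        (D i).ch.eb.repr v (ComplexEmbedding.conjugate σ) := by
      conv_lhs => rw [← (D i).ch.eb.sum_repr v]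
      rw [map_sum, Finset.sum_eq_single (ComplexEmbedding.conjugate σ)]
      · rw [map_smul, smul_eq_mul]; ring
      · intro τ _ hτ
        rw [map_smul, psi_eb_eq_zero (D i).ρ (D i).ψ (D i).cc (D i).hcc (D i).hros
          (D i).ch.eb _ (D i).ch.heb σ τ hτ, smul_zero]
      · intro h; exact absurd (Finset.mem_univ _) h
    rw [h2]; ring
  apply LinearMap.ext; intro u
  apply LinearMap.ext; intro v
  rw [LinearMap.sum_apply, LinearMap.sum_apply]
  simp only [LinearMap.smul_apply, mixed, LinearMap.sub_apply, LinearMap.compl₁₂_apply,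
    LinearMap.flip_apply, LinearMap.comp_apply, smul_eq_mul, mul_sub, coordTensor_apply, coord_eq]
  rw [Finset.sum_sub_distrib, key, key]
  rfl

lemma coordTensor_mem (b b' : BI L n) (h : pT n b' = conjT (pT n b)) :
    coordTensor (EB n D) b b' - (coordTensor (EB n D) b b').flip ∈
      Submodule.span ℂ (GS n D) := by
  obtain ⟨i, m, σ⟩ := b
  obtain ⟨i', m', σ'⟩ := b'
  have h1 : i' = i := congrArg Sigma.fst h
  subst h1
  have h2 : σ' = ComplexEmbedding.conjugate σ :=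
    sigma_mk_injective (β := fun i => (L i →+* ℂ)) h
  subst h2
  have h3 : ∑ b, σ (dbas (L i') b) • mixed n D i' m m' (bas (L i') b) ∈
      Submodule.span ℂ (GS n D) :=
    Submodule.sum_mem _ (fun b _ => Submodule.smul_mem _ _ (mixed_mem n D i' m m' _))
  rw [sum_mixed] at h3
  have h4 := psi_eb_ne_zero (D i').ρ (D i').ψ (D i').hψnd (D i').cc (D i').hcc (D i').hros
          (D i').ch.eb _ (D i').ch.heb σ
  have h5 := Submodule.smul_mem _ (((D i').ψ ((D i').ch.eb σ)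
    ((D i').ch.eb (ComplexEmbedding.conjugate σ)))⁻¹) h3
  rw [smul_smul, inv_mul_cancel₀ h4, one_smul] at h5
  exact h5

omit [Fintype I] [DecidableEq I] in
lemma homL_isRat (i : I) (c : Fin (n i) → L i) (v : HW κ n) (hv : IsRat n D v) :
    homL n D i c v ∈ Submodule.span ℚ (Set.range (D i).bB) := by
  rw [homL, LinearMap.sum_apply]
  exact Submodule.sum_mem _ (fun m _ => (D i).hρQ _ _ (hv i m))

lemma FB_isRat (b : Σ i, Σ (_ : Fin (n i)), (D i).ι) : IsRat n D (FB n D b) := by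
  rw [FB_apply]
  exact slot_isRat n D _ _ _ (Submodule.subset_span ⟨_, rfl⟩)

lemma wedge_rational {k : ℕ} (γ : Fin k → (HW κ n →ₗ[ℂ] HW κ n →ₗ[ℂ] ℂ))
    (hγ : ∀ a, γ a ∈ GS n D) (v : Fin (2 * k) → HW κ n) (hv : ∀ r, IsRat n D (v r)) :
    ∃ q : ℚ, wedge γ v = ϖ ^ k * q := by
  have h1 : ∀ a (u w : HW κ n), IsRat n D u → IsRat n D w → ∃ q : ℚ, γ a u w = ϖ * q := by
    intro a u w hu hw
    obtain ⟨i, c, hc⟩ := hγ a
    rw [hc, LinearMap.compl₁₂_apply]
    exact (D i).hψQ _ (homL_isRat n D i c u hu) _ (homL_isRat n D i c w hw)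
  have h2 : ∀ π : Equiv.Perm (Fin (2 * k)), ∀ a, ∃ q : ℚ,
      γ a (v (π (lo a))) (v (π (hi a))) = ϖ * q := fun π a => h1 a _ _ (hv _) (hv _)
  choose q hq using h2
  refine ⟨∑ π : Equiv.Perm (Fin (2 * k)), ((Equiv.Perm.sign π : ℤ) : ℚ) * ∏ a, q π a, ?_⟩
  rw [wedge_apply]
  push_cast
  rw [Finset.mul_sum]
  refine Finset.sum_congr rfl (fun π _ => ?_)
  simp only [hq]
  rw [Finset.prod_mul_distrib, Finset.prod_const, Finset.card_univ, Fintype.card_fin]
  ring

/-- The main theorem for abstract data. -/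
theorem abstract_main (hϖ : ϖ ≠ 0) (hMF : MF L) {k : ℕ} (α : (HW κ n) [⋀^Fin (2 * k)]→ₗ[ℂ] ℂ)
    (hB : ∀ v : Fin (2 * k) → HW κ n, (∀ r, IsRat n D (v r)) → ∃ q : ℚ, α v = ϖ ^ k * q)
    (hA : ∀ v : Fin (2 * k) → HW κ n, (∀ r i m j, IsAlgebraic ℚ (v r i m j)) →
      IsAlgebraic ℚ (α v)) :
    α ∈ Submodule.span ℚ {ω | ∃ γ : Fin k → (HW κ n →ₗ[ℂ] HW κ n →ₗ[ℂ] ℂ),
      (∀ a, γ a ∈ GS n D) ∧ ω = wedge γ} := by
  classical
  have h1 : α ∈ Submodule.span ℂ {ω | ∃ γ : Fin k → (HW κ n →ₗ[ℂ] HW κ n →ₗ[ℂ] ℂ),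
      (∀ a, γ a ∈ GS n D) ∧ ω = wedge γ} :=
    mem_span_wedge (EB n D) (pT n) conjT conjT_conjT (conjT_ne D) (GS n D)
      (coordTensor_mem n D) α (fun s hs t => balanced n D hϖ hMF α hB hA s hs t)
  refine rational_descent (FB n D) (ϖ ^ k) (pow_ne_zero _ hϖ) _ ?_ α
    (fun s => hB _ (fun r => FB_isRat n D _)) h1
  rintro ω ⟨γ, hγ, rfl⟩ s
  exact wedge_rational n D γ hγ _ (fun r => FB_isRat n D _)

end Pool.Agent.Helper7
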