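import Pool.Agent.Helper7.Family2
import Pool.Agent.Helper7.Final

/-!
The abstract form of the theorem.
-/

namespace Pool.Agent.Helper7

open Module NumberField

section family

variable {I : Type} [Fintype I] [DecidableEq I] (n : I → ℕ)
  {κ : I → Type} [∀ i, Fintype (κ i)] [∀ i, DecidableEq (κ i)] {ϖ : ℂ}
  (P : ∀ i, PData (κ i) ϖ)

omit [∀ i, Fintype (κ i)] [∀ i, DecidableEq (κ i)] in
lemma sum_slot (v : HW κ n) : ∑ i, ∑ m, slotL n i m (v i m) = v := by
  have h1 : ∀ i, ∑ m, slotL n i m (v i m) = Pi.single i (v i) := by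
    intro i
    have h2 : ∀ m, slotL n i m (v i m) = Pi.single i (Pi.single m (v i m)) := fun m => rfl
    simp only [h2]
    have h3 : (fun m => (Pi.single i (Pi.single m (v i m)) : HW κ n)) =
        fun m => (LinearMap.single ℂ (fun i => (Fin (n i) → κ i → ℂ)) i) (Pi.single m (v i m)) :=
      rfl
    rw [h3, ← map_sum, Finset.univ_sum_single]
    rfl
  simp only [h1]
  exact Finset.univ_sum_single v

omit [Fintype I] [∀ i, Fintype (κ i)] [∀ i, DecidableEq (κ i)] in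
lemma lift_slot (N : (i : I) → Module.End ℂ (κ i → ℂ)) (i : I) (m : Fin (n i)) (v : κ i → ℂ) :
    lift n N (slotL n i m v) = slotL n i m (N i v) := by
  funext i' m'
  rw [lift_apply]
  show N i' (slot n i m v i' m') = slot n i m (N i v) i' m'
  by_cases h : i' = i
  · subst h
    simp only [slot, Pi.single_eq_same]
    by_cases h2 : m' = m
    · subst h2; simp
    · rw [Pi.single_eq_of_ne h2, Pi.single_eq_of_ne h2, map_zero]
  · simp only [slot]
    rw [Pi.single_eq_of_ne h, Pi.single_eq_of_ne h]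
    simp

omit [Fintype I] [∀ i, Fintype (κ i)] [∀ i, DecidableEq (κ i)] in
lemma prL_slotL (i : I) (m : Fin (n i)) (v : κ i → ℂ) : prL n i m (slotL n i m v) = v := by
  show slot n i m v i m = v
  simp [slot]

omit [Fintype I] [∀ i, Fintype (κ i)] [∀ i, DecidableEq (κ i)] in
lemma prL_slotL_ne (i : I) (m m' : Fin (n i)) (h : m' ≠ m) (v : κ i → ℂ) :
    prL n i m' (slotL n i m v) = 0 := by
  show slot n i m v i m' = 0
  simp only [slot, Pi.single_eq_same]
  rw [Pi.single_eq_of_ne h]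

omit [Fintype I] [∀ i, Fintype (κ i)] [∀ i, DecidableEq (κ i)] in
lemma prL_slotL_ne' (i i' : I) (m : Fin (n i)) (m' : Fin (n i')) (h : i' ≠ i) (v : κ i → ℂ) :
    prL n i' m' (slotL n i m v) = 0 := by
  show slot n i m v i' m' = 0
  simp only [slot]
  rw [Pi.single_eq_of_ne h]
  rfl

variable {K : I → Type} [∀ i, Field (K i)] [∀ i, NumberField (K i)]
  (F : ∀ i, Fac (P i) (K i))
  {k : ℕ} (α : MultilinearMap ℂ (fun _ : Fin (2 * k) => HW κ n) ℂ)
  (hϖ : ϖ ≠ 0)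
  (hB : ∀ v : Fin (2 * k) → HW κ n, (∀ r, IsRatP n P (v r)) → ∃ q : ℚ, α v = ϖ ^ k * q)
  (hA : ∀ v : Fin (2 * k) → HW κ n, (∀ r i m j, IsAlgebraic ℚ (v r i m j)) →
      IsAlgebraic ℚ (α v))

open Classical in
/-- the frames of the family -/
noncomputable def preFrames (hMF : MF K) : PreFrames (HW κ n) (Σ i, Fin (n i) × (K i →+* ℂ))
    (Σ i, (K i →+* ℂ)) (gSub n P α) where
  pl q := ⟨q.1, q.2.2⟩
  gl t := (F t.1).gl
  cj := conjT
  cj_cj := conjT_conjT
  cj_ne := by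
    rintro ⟨i, σ⟩ h h'
    exact (F i).not_real h σ (sigma_mk_injective (β := fun i => (K i →+* ℂ)) h')
  gl_cj t := Iff.rfl
  e q j := slotL n q.1 q.2.1 ((F q.1).e q.2.2 j)
  co q j := ((F q.1).lf.co q.2.2 j) ∘ₗ prL n q.1 q.2.1
  L X := lift n X.1.1
  c := (LinearMap.snd ℂ ((i : I) → Module.End ℂ (κ i → ℂ)) ℂ) ∘ₗ (gSub n P α).subtype
  A t := ((F t.1).mat t.2) ∘ₗ (LinearMap.proj t.1) ∘ₗ
      (LinearMap.fst ℂ ((i : I) → Module.End ℂ (κ i → ℂ)) ℂ) ∘ₗ (gSub n P α).subtype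
  br X Y := ⟨X.1 * Y.1 - Y.1 * X.1, IsInv.bracket n P α X.2 Y.2⟩
  hsum v := by
    conv_lhs => rw [← sum_slot n v]
    rw [Fintype.sum_sigma]
    refine Finset.sum_congr rfl fun i _ => ?_
    rw [Fintype.sum_prod_type]
    refine Finset.sum_congr rfl fun m _ => ?_
    conv_lhs => rw [(F i).hsum (v i m)]
    rw [map_sum]
    refine Finset.sum_congr rfl fun σ _ => ?_
    rw [map_sum]
    refine Finset.sum_congr rfl fun j _ => ?_
    rw [map_smul]
    rfl
  co_e := by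
    rintro ⟨i, m, σ⟩ j ⟨i', m', σ'⟩ j' h
    show (F i).lf.co σ j (prL n i m (slotL n i' m' ((F i').e σ' j'))) = _
    by_cases hi : i = i'
    · subst hi
      by_cases hm : m = m'
      · subst hm
        rw [prL_slotL, (F i).co_e _ _ _ _ h]
        have h1 : ((⟨i, m, σ⟩ : Σ i, Fin (n i) × (K i →+* ℂ)) = ⟨i, m, σ'⟩ ∧ j = j') ↔
            (σ = σ' ∧ j = j') := by
          constructor
          · rintro ⟨h1, h2⟩
            have h3 := sigma_mk_injective (β := fun i => Fin (n i) × (K i →+* ℂ)) h1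
            exact ⟨(Prod.mk.inj h3).2, h2⟩
          · rintro ⟨rfl, h2⟩; exact ⟨rfl, h2⟩
        simp only [h1]
      · rw [prL_slotL_ne n i m' m hm, map_zero, if_neg]
        rintro ⟨h1, -⟩
        have h3 := sigma_mk_injective (β := fun i => Fin (n i) × (K i →+* ℂ)) h1
        exact hm (Prod.mk.inj h3).1
    · rw [prL_slotL_ne' n i' i m' m hi, map_zero, if_neg]
      rintro ⟨h1, -⟩
      exact hi (congrArg Sigma.fst h1)
  e_one := by
    rintro ⟨i, m, σ⟩ h
    show slotL n i m ((F i).e σ 1) = 0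
    rw [(F i).e_one h, map_zero]
  act := by
    rintro X ⟨i, m, σ⟩ j
    show lift n X.1.1 (slotL n i m ((F i).e σ j)) =
      ∑ a, (F i).mat σ (X.1.1 i) a j • slotL n i m ((F i).e σ a)
    rw [lift_slot, (IsInv.Comm n P F α X.2 i).act, map_sum]
    exact Finset.sum_congr rfl fun a _ => map_smul _ _ _
  co_act := by
    rintro X ⟨i, m, σ⟩ j v h
    exact (IsInv.Comm n P F α X.2 i).co_act σ j (v i m) h
  tr := by
    rintro ⟨i, σ⟩ X h
    exact (F i).trace_eq h _ (IsInv.Comm n P F α X.2 i) _ (IsInv.pol X.2 i) σ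
  cm := by
    rintro ⟨i, σ⟩ X h
    exact ⟨(F i).mat_neg h _ σ, (F i).char_eq h _ (IsInv.Comm n P F α X.2 i) _
      (IsInv.pol X.2 i) σ⟩
  hbr := by
    rintro ⟨i, σ⟩ h X Y
    show (F i).mat σ (X.1.1 i * Y.1.1 i - Y.1.1 i * X.1.1 i) = _
    rw [map_sub, (IsInv.Comm n P F α X.2 i).mat_mul (IsInv.Comm n P F α Y.2 i) h,
      (IsInv.Comm n P F α Y.2 i).mat_mul (IsInv.Comm n P F α X.2 i) h]
    rfl
  hlam := by
    rintro ⟨i, σ⟩ h X Y
    show (F i).mat σ (X.1.1 i * Y.1.1 i - Y.1.1 i * X.1.1 i) 0 0 = 0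
    rw [map_sub, Matrix.sub_apply,
      (IsInv.Comm n P F α X.2 i).mat_mul0 (IsInv.Comm n P F α Y.2 i) h,
      (IsInv.Comm n P F α Y.2 i).mat_mul0 (IsInv.Comm n P F α X.2 i) h, mul_comm, sub_self]
  hsurj := by
    rintro ⟨i, σ⟩ h Z hZ
    obtain ⟨X, hX, hXZ⟩ := sl_surj n P F α hϖ hB hA i h σ Z hZ
    exact ⟨⟨X, hX⟩, hXZ⟩
  bal := by
    intro k' p h t ht
    convert balance n P F α hϖ hB hA hMF k' p (fun X hX => h ⟨X, hX⟩) t ht

/-- invariant bilinear forms on the product -/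
def invB : Set (HW κ n →ₗ[ℂ] HW κ n →ₗ[ℂ] ℂ) :=
  {β | ∀ X, IsInv n P α X → ∀ u v, β (lift n X.1 u) v + β u (lift n X.1 v) = X.2 * β u v}

include F hϖ hB hA in
theorem family_fft (hMF : MF K) : α ∈ Submodule.span ℂ
    {M | ∃ (π : Equiv.Perm (Fin (2 * k))) (β : Fin k → (HW κ n →ₗ[ℂ] HW κ n →ₗ[ℂ] ℂ)),
      (∀ a, β a ∈ invB n P α) ∧ M = (prodBilin β).domDomCongr π} := by
  classical
  have h1 := (preFrames n P F α hϖ hB hA hMF).toFrames.main_fft α (fun X v => by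
    have h2 := X.2.form
    have h3 := congrArg (fun g => g v) h2
    simp only [actForm_apply, _root_.smul_apply, smul_eq_mul] at h3
    exact h3)
  refine Submodule.span_mono ?_ h1
  rintro M ⟨π, β, hβ, hM⟩
  exact ⟨π, β, fun a X hX u v => hβ a ⟨X, hX⟩ u v, hM⟩

/-- linear maps from the product to a factor respecting both rational structures -/
def drbW (i : I) : Set (HW κ n →ₗ[ℂ] (κ i → ℂ)) :=
  {h | ∀ j m, IsDRB (P j) (P i) (h ∘ₗ slotL n j m)}

/-- pull-backs of the polarisation forms -/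
def GW : Set (HW κ n →ₗ[ℂ] HW κ n →ₗ[ℂ] ℂ) :=
  {g | ∃ (i : I) (h : HW κ n →ₗ[ℂ] (κ i → ℂ)), h ∈ drbW n P i ∧ g = (P i).ψ.compl₁₂ h h}

omit [Fintype I] [DecidableEq I] in
lemma IsDRB.zero (i j : I) : IsDRB (P i) (P j) 0 where
  rat v _ := by rw [LinearMap.zero_apply]; exact Submodule.zero_mem _
  alg i j := by simpa using isAlgebraic_zero

omit [Fintype I] [DecidableEq I] in
lemma IsDRB.id (i : I) : IsDRB (P i) (P i) LinearMap.id where
  rat v hv := hv
  alg i j := by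
    show IsAlgebraic ℚ ((Pi.single i 1 : _ → ℂ) j)
    by_cases h : j = i
    · subst h; rw [Pi.single_eq_same]; exact isAlgebraic_one
    · rw [Pi.single_eq_of_ne h]; exact isAlgebraic_zero

omit [Fintype I] [DecidableEq I] in
lemma IsDRB.add {i j : I} {f g : (κ i → ℂ) →ₗ[ℂ] (κ j → ℂ)} (hf : IsDRB (P i) (P j) f)
    (hg : IsDRB (P i) (P j) g) : IsDRB (P i) (P j) (f + g) where
  rat v hv := Submodule.add_mem _ (hf.rat v hv) (hg.rat v hv)
  alg a b := (hf.alg a b).add (hg.alg a b)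

omit [Fintype I] in
lemma drbW_add {i : I} {h h' : HW κ n →ₗ[ℂ] (κ i → ℂ)} (hh : h ∈ drbW n P i)
    (hh' : h' ∈ drbW n P i) : h + h' ∈ drbW n P i := fun j m => (hh j m).add P (hh' j m)

omit [Fintype I] in
lemma drbW_comp (i j : I) (m : Fin (n i)) (f : (κ i → ℂ) →ₗ[ℂ] (κ j → ℂ))
    (hf : IsDRB (P i) (P j) f) : f ∘ₗ prL n i m ∈ drbW n P j := by
  intro i' m'
  by_cases hi : i = i'
  · subst hi
    by_cases hm : m = m'
    · subst hm
      have h1 : (f ∘ₗ prL n i m) ∘ₗ slotL n i m = f := by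
        ext v : 1
        apply LinearMap.ext
        intro x
        simp only [LinearMap.comp_apply, prL_slotL]
      rw [h1]; exact hf
    · have h1 : (f ∘ₗ prL n i m) ∘ₗ slotL n i m' = 0 := by
        apply LinearMap.ext
        intro x
        simp only [LinearMap.comp_apply, prL_slotL_ne n i m' m hm, map_zero,
          LinearMap.zero_apply]
      rw [h1]; exact IsDRB.zero P i j
  · have h1 : (f ∘ₗ prL n i m) ∘ₗ slotL n i' m' = 0 := by
      apply LinearMap.ext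
      intro x
      simp only [LinearMap.comp_apply, prL_slotL_ne' n i' i m' m hi, map_zero,
        LinearMap.zero_apply]
    rw [h1]; exact IsDRB.zero P i' j

omit [Fintype I] in
lemma mixed_mem_GW (i j : I) (m : Fin (n i)) (m' : Fin (n j)) (f : (κ i → ℂ) →ₗ[ℂ] (κ j → ℂ))
    (hf : IsDRB (P i) (P j) f) :
    (P j).ψ.compl₁₂ (f ∘ₗ prL n i m) (prL n j m') -
      ((P j).ψ.compl₁₂ (f ∘ₗ prL n i m) (prL n j m')).flip ∈ Submodule.span ℂ (GW n P) := by
  have h1 := drbW_comp n P i j m f hf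
  have h2 := drbW_comp n P j j m' LinearMap.id (IsDRB.id P j)
  rw [LinearMap.id_comp] at h2
  have h3 := drbW_add n P h1 h2
  have h4 : ∀ h ∈ drbW n P j, (P j).ψ.compl₁₂ h h ∈ Submodule.span ℂ (GW n P) :=
    fun h hh => Submodule.subset_span ⟨j, h, hh, rfl⟩
  have h5 := Submodule.sub_mem _ (Submodule.sub_mem _ (h4 _ h3) (h4 _ h1)) (h4 _ h2)
  have h6 : (P j).ψ.compl₁₂ (f ∘ₗ prL n i m) (prL n j m') -
      ((P j).ψ.compl₁₂ (f ∘ₗ prL n i m) (prL n j m')).flip =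
      (P j).ψ.compl₁₂ (f ∘ₗ prL n i m + prL n j m') (f ∘ₗ prL n i m + prL n j m') -
      (P j).ψ.compl₁₂ (f ∘ₗ prL n i m) (f ∘ₗ prL n i m) -
      (P j).ψ.compl₁₂ (prL n j m') (prL n j m') := by
    apply LinearMap.ext; intro u
    apply LinearMap.ext; intro v
    simp only [LinearMap.sub_apply, LinearMap.compl₁₂_apply, LinearMap.flip_apply,
      LinearMap.add_apply, LinearMap.comp_apply, map_add]
    rw [(P j).hψalt (f (prL n i m v)) (prL n j m' u)]
    ring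
  rw [h6]; exact h5

include hϖ hB hA in
lemma inv_mem_GW (β : HW κ n →ₗ[ℂ] HW κ n →ₗ[ℂ] ℂ) (hβ : β ∈ invB n P α) :
    β - β.flip ∈ Submodule.span ℂ (GW n P) := by
  classical
  have hdec : β = ∑ i, ∑ m, ∑ j, ∑ m', ((β.compl₁₂ (slotL n i m) (slotL n j m')).compl₁₂
      (prL n i m) (prL n j m')) := by
    apply LinearMap.ext; intro u
    apply LinearMap.ext; intro v
    simp only [LinearMap.sum_apply, LinearMap.compl₁₂_apply]
    have e1 : β u v = ∑ i, ∑ m, β (slotL n i m (u i m)) v := by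
      conv_lhs => rw [← sum_slot n u]
      simp only [map_sum, LinearMap.sum_apply]
    rw [e1]
    refine Finset.sum_congr rfl fun i _ => Finset.sum_congr rfl fun m _ => ?_
    conv_lhs => rw [← sum_slot n v]
    simp only [map_sum]
    rfl
  have hflip : β - β.flip = ∑ i, ∑ m, ∑ j, ∑ m',
      (((β.compl₁₂ (slotL n i m) (slotL n j m')).compl₁₂ (prL n i m) (prL n j m')) -
      ((β.compl₁₂ (slotL n i m) (slotL n j m')).compl₁₂ (prL n i m) (prL n j m')).flip) := by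
    simp only [Finset.sum_sub_distrib]
    congr 1
    · conv_lhs => rw [hdec]
      apply LinearMap.ext; intro u
      apply LinearMap.ext; intro v
      simp only [LinearMap.sum_apply, LinearMap.flip_apply]
  rw [hflip]
  refine Submodule.sum_mem _ fun i _ => Submodule.sum_mem _ fun m _ =>
    Submodule.sum_mem _ fun j _ => Submodule.sum_mem _ fun m' _ => ?_
  obtain ⟨N, c, f, hf, hsum⟩ := bilin_of_inv n P α hϖ hB hA i j
    (β.compl₁₂ (slotL n i m) (slotL n j m')) (fun X hX u v => by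
      simp only [LinearMap.compl₁₂_apply]
      rw [← lift_slot, ← lift_slot]
      exact hβ X hX _ _)
  have h1 : (β.compl₁₂ (slotL n i m) (slotL n j m')).compl₁₂ (prL n i m) (prL n j m') =
      ∑ l, c l • (P j).ψ.compl₁₂ (f l ∘ₗ prL n i m) (prL n j m') := by
    apply LinearMap.ext; intro u
    apply LinearMap.ext; intro v
    rw [LinearMap.compl₁₂_apply, hsum, LinearMap.sum_apply, LinearMap.sum_apply]
    rfl
  rw [h1]
  have h2 : (∑ l, c l • (P j).ψ.compl₁₂ (f l ∘ₗ prL n i m) (prL n j m')) -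
      (∑ l, c l • (P j).ψ.compl₁₂ (f l ∘ₗ prL n i m) (prL n j m')).flip =
      ∑ l, c l • ((P j).ψ.compl₁₂ (f l ∘ₗ prL n i m) (prL n j m') -
        ((P j).ψ.compl₁₂ (f l ∘ₗ prL n i m) (prL n j m')).flip) := by
    apply LinearMap.ext; intro u
    apply LinearMap.ext; intro v
    simp only [LinearMap.sub_apply, LinearMap.sum_apply, LinearMap.flip_apply,
      LinearMap.smul_apply, smul_sub, Finset.sum_sub_distrib]
  rw [h2]
  exact Submodule.sum_mem _ fun l _ => Submodule.smul_mem _ _ (mixed_mem_GW n P i j m m' _ (hf l))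

end family

section final

variable {I : Type} [Fintype I] [DecidableEq I] (n : I → ℕ)
  {κ : I → Type} [∀ i, Fintype (κ i)] [∀ i, DecidableEq (κ i)] {ϖ : ℂ}
  (P : ∀ i, PData (κ i) ϖ)
  {K : I → Type} [∀ i, Field (K i)] [∀ i, NumberField (K i)]
  (F : ∀ i, Fac (P i) (K i))

lemma drbW_rat (i : I) (h : HW κ n →ₗ[ℂ] (κ i → ℂ)) (hh : h ∈ drbW n P i) (v : HW κ n)
    (hv : IsRatP n P v) : h v ∈ (P i).Q := by
  rw [← sum_slot n v, map_sum]
  refine Submodule.sum_mem _ fun j _ => ?_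
  rw [map_sum]
  exact Submodule.sum_mem _ fun m _ => (hh j m).rat _ (hv j m)

lemma wedge_rational' {k : ℕ} (γ : Fin k → (HW κ n →ₗ[ℂ] HW κ n →ₗ[ℂ] ℂ))
    (hγ : ∀ a, γ a ∈ GW n P) (v : Fin (2 * k) → HW κ n) (hv : ∀ r, IsRatP n P (v r)) :
    ∃ q : ℚ, wedge γ v = ϖ ^ k * q := by
  have h1 : ∀ a (u w : HW κ n), IsRatP n P u → IsRatP n P w → ∃ q : ℚ, γ a u w = ϖ * q := by
    intro a u w hu hw
    obtain ⟨i, h, hh, hc⟩ := hγ a
    rw [hc, LinearMap.compl₁₂_apply]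
    exact (P i).hψQ _ (drbW_rat n P i h hh u hu) _ (drbW_rat n P i h hh w hw)
  have h2 : ∀ π : Equiv.Perm (Fin (2 * k)), ∀ a, ∃ q : ℚ,
      γ a (v (π (lo a))) (v (π (hi a))) = ϖ * q := fun π a => h1 a _ _ (hv _) (hv _)
  choose q hq using h2
  refine ⟨∑ π : Equiv.Perm (Fin (2 * k)), ((Equiv.Perm.sign π : ℤ) : ℚ) * ∏ a, q π a, ?_⟩
  rw [wedge_apply]
  push_cast
  rw [Finset.mul_sum]
  refine Finset.sum_congr rfl (fun π _ => ?_)
  simp only [hq]
  rw [Finset.prod_mul_distrib, Finset.prod_const, Finset.card_univ, Fintype.card_fin]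
  ring

include F in
/-- The theorem for abstract data. -/
theorem abstract_G (hϖ : ϖ ≠ 0) (hMF : MF K) {k : ℕ} (α : (HW κ n) [⋀^Fin (2 * k)]→ₗ[ℂ] ℂ)
    (hB : ∀ v : Fin (2 * k) → HW κ n, (∀ r, IsRatP n P (v r)) → ∃ q : ℚ, α v = ϖ ^ k * q)
    (hA : ∀ v : Fin (2 * k) → HW κ n, (∀ r i m j, IsAlgebraic ℚ (v r i m j)) →
      IsAlgebraic ℚ (α v)) :
    α ∈ Submodule.span ℚ {ω | ∃ γ : Fin k → (HW κ n →ₗ[ℂ] HW κ n →ₗ[ℂ] ℂ),
      (∀ a, γ a ∈ GW n P) ∧ ω = wedge γ} := by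
  classical
  have h0 := family_fft n P F (α : MultilinearMap ℂ (fun _ : Fin (2 * k) => HW κ n) ℂ)
    hϖ hB hA hMF
  -- alternatisation of the generators
  have hgen : ∀ M ∈ Submodule.span ℂ
      {M | ∃ (π : Equiv.Perm (Fin (2 * k))) (β : Fin k → (HW κ n →ₗ[ℂ] HW κ n →ₗ[ℂ] ℂ)),
      (∀ a, β a ∈ invB n P (α : MultilinearMap ℂ (fun _ : Fin (2 * k) => HW κ n) ℂ)) ∧
        M = (prodBilin β).domDomCongr π},
      MultilinearMap.alternatization M ∈ Submodule.span ℂ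
        {ω | ∃ γ : Fin k → (HW κ n →ₗ[ℂ] HW κ n →ₗ[ℂ] ℂ),
        (∀ a, γ a ∈ GW n P) ∧ ω = wedge γ} := by
    intro M hM
    induction hM using Submodule.span_induction with
    | mem M hM =>
      obtain ⟨π, β, hβ, rfl⟩ := hM
      rw [alternatization_domDomCongr]
      have h4 : wedge β ∈ Submodule.span ℂ
        {ω | ∃ γ : Fin k → (HW κ n →ₗ[ℂ] HW κ n →ₗ[ℂ] ℂ),
        (∀ a, γ a ∈ GW n P) ∧ ω = wedge γ} :=
        wedge_mem_span (GW n P) β (fun a => inv_mem_GW n P _ hϖ hB hA _ (hβ a))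
      rcases Int.units_eq_one_or (Equiv.Perm.sign π) with h | h
      · rw [h, one_smul]; exact h4
      · rw [h, Units.neg_smul, one_smul]; exact Submodule.neg_mem _ h4
    | zero => rw [map_zero]; exact Submodule.zero_mem _
    | add x y _ _ hx hy => rw [map_add]; exact Submodule.add_mem _ hx hy
    | smul c x _ hx => rw [alternatization_smul]; exact Submodule.smul_mem _ _ hx
  have h1 : α ∈ Submodule.span ℂ {ω | ∃ γ : Fin k → (HW κ n →ₗ[ℂ] HW κ n →ₗ[ℂ] ℂ),
      (∀ a, γ a ∈ GW n P) ∧ ω = wedge γ} := by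
    have h2 := hgen _ h0
    rw [AlternatingMap.coe_alternatization, ← Nat.cast_smul_eq_nsmul ℂ] at h2
    have h3 := Submodule.smul_mem _
      (((Nat.factorial (Fintype.card (Fin (2 * k)))) : ℂ)⁻¹) h2
    rw [smul_smul, inv_mul_cancel₀ (Nat.cast_ne_zero.mpr (Nat.factorial_ne_zero _)),
      one_smul] at h3
    exact h3
  refine rational_descent (FBP n P) (ϖ ^ k) (pow_ne_zero _ hϖ) _ ?_ α
    (fun s => hB _ (fun r => FBP_isRatP n P _)) h1
  rintro ω ⟨γ, hγ, rfl⟩ s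
  exact wedge_rational' n P γ hγ _ (fun r => FBP_isRatP n P _)

end final

end Pool.Agent.Helper7
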