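import Pool.Agent.Helper7.Cohomology

/-!
The two types of factors: complex multiplication, and `GL_2`-type without complex multiplication.
-/

namespace Pool.Agent.GPC

/-- Real multiplication of `A` by the number field `K`: an action of `K` on `H_1(A)` through
endomorphisms of `A` (tensor `ℚ`), with `[K : ℚ] = dim A`, by self-adjoint operators for the
polarisation, such that only the elements of `K` commute with `K` among the endomorphisms of `A`
(tensor `ℚ`). -/
structure RM (A : AbVar) (K : Type) [Field K] [NumberField K] where
  ρ : K → A.H1 → A.H1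
  one : ∀ v, ρ 1 v = v
  mul : ∀ x y v, ρ (x * y) v = ρ x (ρ y v)
  add : ∀ x y v, ρ (x + y) v = ρ x v + ρ y v
  degree : Module.finrank ℚ K = A.g
  endo : ∀ x, A.IsEnd (ρ x)
  rosati : ∀ x, A.IsAdjoint (ρ x) (ρ x)
  centralizer : ∀ f, A.IsEnd f → (∀ x v, f (ρ x v) = ρ x (f v)) → ∃ x, ∀ v, f v = ρ x v

/-- `A` has complex multiplication by the CM field `K`. -/
def IsCMType (A : AbVar) (K : Type) [Field K] [NumberField K] : Prop :=
  ∃ _ : NumberField.IsCMField K, Nonempty (CM A K)

/-- `A` has real multiplication by the totally real field `K` (and is of `GL_2`-type without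
complex multiplication). -/
def IsRMType (A : AbVar) (K : Type) [Field K] [NumberField K] : Prop :=
  NumberField.IsTotallyReal K ∧ Nonempty (RM A K)

end Pool.Agent.GPC
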