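import Pool.Agent.Helper7.Pack

/-!
Core linear algebra argument.
-/

namespace Pool.Agent.Helper7

open Module NumberField

/-- abstract first homology of a polarised abelian variety with complex multiplication -/
structure CMData (L : Type*) [Field L] [NumberField L] (κ : Type*) [Fintype κ] [DecidableEq κ]
    (ϖ : ℂ) where
  ι : Type
  fι : Fintype ι
  bB : Basis ι ℂ (κ → ℂ)
  ρ : L →+* Module.End ℂ (κ → ℂ)
  hρQ : ∀ x, ∀ v ∈ Submodule.span ℚ (Set.range bB), ρ x v ∈ Submodule.span ℚ (Set.range bB)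
  hdeg : finrank ℚ L = Fintype.card κ
  hρalg : ∀ x i j, IsAlgebraic ℚ (ρ x (Pi.single i 1) j)
  ψ : (κ → ℂ) →ₗ[ℂ] (κ → ℂ) →ₗ[ℂ] ℂ
  hψalg : ∀ i j, IsAlgebraic ℚ (ψ (Pi.single i 1) (Pi.single j 1))
  hψQ : ∀ u ∈ Submodule.span ℚ (Set.range bB), ∀ v ∈ Submodule.span ℚ (Set.range bB),
    ∃ q : ℚ, ψ u v = ϖ * q
  hψnd : ∀ u, (∀ v, ψ u v = 0) → u = 0
  hψalt : ∀ u v, ψ u v = - ψ v u
  cc : L → L
  hcc : ∀ (σ : L →+* ℂ) x, σ (cc x) = starRingEnd ℂ (σ x)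
  hros : ∀ x u v, ψ (ρ x u) v = ψ u (ρ (cc x) v)
  hreal : ∀ σ : L →+* ℂ, ComplexEmbedding.conjugate σ ≠ σ
  hT : ∀ v ∈ Submodule.span ℚ (Set.range bB), v ≠ 0 →
    ¬ ∃ (w : ℂ) (u : κ → ℂ), (∀ j, IsAlgebraic ℚ (u j)) ∧ v = w • u

attribute [instance] CMData.fι

section exists_data

variable {L : Type*} [Field L] [NumberField L] {κ : Type*} [Fintype κ] [DecidableEq κ] {ϖ : ℂ}

/-- all the data attached to a choice of a rational generator -/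
lemma CMData.exists_all (D : CMData L κ ϖ) :
    ∃ (lam : κ → ℂ) (eb : Basis (L →+* ℂ) ℂ (κ → ℂ)) (Ω : (L →+* ℂ) → ℂ)
      (ε : (L →+* ℂ) → (κ → ℂ)),
      lam ∈ Submodule.span ℚ (Set.range D.bB) ∧ lam ≠ 0 ∧
      (∀ σ, eb σ = proj D.ρ σ lam) ∧
      (∀ σ, Ω σ ≠ 0) ∧ (∀ σ j, IsAlgebraic ℚ (ε σ j)) ∧ (∀ σ, eb σ = Ω σ • ε σ) ∧
      (∀ σ, ∃ a : ℂ, IsAlgebraic ℚ a ∧ a ≠ 0 ∧ Ω σ * Ω (ComplexEmbedding.conjugate σ) = ϖ * a) := by
  have hne : Nonempty D.ι := by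
    have h1 : Fintype.card D.ι = Fintype.card κ := by
      have h1 := Module.finrank_eq_card_basis D.bB
      rw [Module.finrank_fintype_fun_eq_card] at h1
      exact h1.symm
    have h2 : 0 < Fintype.card D.ι := by
      rw [h1, ← D.hdeg]; exact Module.finrank_pos
    exact Fintype.card_pos_iff.mp h2
  obtain ⟨i⟩ := hne
  have hlam : D.bB i ∈ Submodule.span ℚ (Set.range D.bB) := Submodule.subset_span ⟨i, rfl⟩
  have h0 : D.bB i ≠ 0 := D.bB.ne_zero i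
  obtain ⟨eb, heb⟩ := exists_eigenbasis D.bB D.ρ D.hρQ D.hdeg _ hlam h0
  obtain ⟨Ω, ε, hΩ, hε, hΩε⟩ := exists_periods D.ρ D.hρalg eb _ heb
  exact ⟨_, eb, Ω, ε, hlam, h0, heb, hΩ, hε, hΩε,
    legendre D.bB D.ρ D.hρQ D.ψ D.hψalg ϖ D.hψQ D.hψnd D.cc D.hcc D.hros eb _ hlam heb Ω ε hε hΩε⟩

/-- If all ratios `Ω σ / Ω (conj σ)` are algebraic then we contradict transcendence. -/
lemma CMData.contradiction (D : CMData L κ ϖ) (hϖ : ϖ ≠ 0) (lam : κ → ℂ)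
    (eb : Basis (L →+* ℂ) ℂ (κ → ℂ))
    (Ω : (L →+* ℂ) → ℂ) (ε : (L →+* ℂ) → (κ → ℂ))
    (hlam : lam ∈ Submodule.span ℚ (Set.range D.bB)) (h0 : lam ≠ 0)
    (heb : ∀ σ, eb σ = proj D.ρ σ lam)
    (hΩ : ∀ σ, Ω σ ≠ 0) (hε : ∀ σ j, IsAlgebraic ℚ (ε σ j)) (hΩε : ∀ σ, eb σ = Ω σ • ε σ)
    (hLeg : ∀ σ, ∃ a : ℂ, IsAlgebraic ℚ a ∧ a ≠ 0 ∧
      Ω σ * Ω (ComplexEmbedding.conjugate σ) = ϖ * a)
    (hall : ∀ σ, IsAlgebraic ℚ (Ω σ / Ω (ComplexEmbedding.conjugate σ))) : False := by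
  have σ₀ : L →+* ℂ := Classical.choice (inferInstance : Nonempty (L →+* ℂ))
  have h1 : ∀ σ, ∃ b : ℂ, IsAlgebraic ℚ b ∧ b ≠ 0 ∧ Ω σ ^ 2 = ϖ * b := by
    intro σ
    obtain ⟨a, ha, ha0, hae⟩ := hLeg σ
    refine ⟨a * (Ω σ / Ω (ComplexEmbedding.conjugate σ)), ha.mul (hall σ),
      mul_ne_zero ha0 (div_ne_zero (hΩ _) (hΩ _)), ?_⟩
    have h2 := hΩ (ComplexEmbedding.conjugate σ)
    have h3 : ϖ * (a * (Ω σ / Ω (ComplexEmbedding.conjugate σ))) =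
        (ϖ * a) * Ω σ / Ω (ComplexEmbedding.conjugate σ) := by ring
    rw [h3, ← hae]
    field_simp
  have h2 : ∀ σ, IsAlgebraic ℚ (Ω σ / Ω σ₀) := by
    intro σ
    obtain ⟨b, hb, hb0, hbe⟩ := h1 σ
    obtain ⟨b', hb', hb0', hbe'⟩ := h1 σ₀
    apply IsAlgebraic.of_pow (n := 2) (by norm_num)
    rw [div_pow, hbe, hbe', mul_div_mul_left _ _ hϖ]
    exact hb.mul hb'.inv
  apply D.hT lam hlam h0
  refine ⟨Ω σ₀, ∑ σ, (Ω σ / Ω σ₀) • ε σ, ?_, ?_⟩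
  · intro j
    rw [Finset.sum_apply]
    exact isAlg_sum _ _ (fun σ _ => (h2 σ).mul (hε σ j))
  · rw [Finset.smul_sum]
    have h3 : lam = ∑ σ, eb σ := by
      simp only [heb]
      rw [← LinearMap.sum_apply, sum_proj]; rfl
    rw [h3]
    refine Finset.sum_congr rfl (fun σ _ => ?_)
    rw [hΩε, smul_smul, mul_div_cancel₀ _ (hΩ σ₀)]

end exists_data

section product

variable {I : Type*} [Fintype I] [DecidableEq I] (n : I → ℕ)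
  {L : I → Type*} [∀ i, Field (L i)] [∀ i, NumberField (L i)]
  {κ : I → Type*} [∀ i, Fintype (κ i)] [∀ i, DecidableEq (κ i)] {ϖ : ℂ}
  (D : ∀ i, CMData (L i) (κ i) ϖ)

/-- action of field automorphisms on embeddings -/
def actT (τ : ℂ ≃+* ℂ) : (Σ i, (L i →+* ℂ)) ≃ (Σ i, (L i →+* ℂ)) where
  toFun t := ⟨t.1, (τ : ℂ →+* ℂ).comp t.2⟩
  invFun t := ⟨t.1, (τ.symm : ℂ →+* ℂ).comp t.2⟩
  left_inv := by
    rintro ⟨i, σ⟩
    simp only [Sigma.mk.injEq, heq_eq_eq, true_and]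
    ext x; simp
  right_inv := by
    rintro ⟨i, σ⟩
    simp only [Sigma.mk.injEq, heq_eq_eq, true_and]
    ext x; simp

/-- complex conjugation on embeddings -/
def conjT (t : Σ i, (L i →+* ℂ)) : Σ i, (L i →+* ℂ) := ⟨t.1, ComplexEmbedding.conjugate t.2⟩

omit [Fintype I] [DecidableEq I] [∀ i, NumberField (L i)] in
lemma conjT_conjT (t : Σ i, (L i →+* ℂ)) : conjT (conjT t) = t := by
  obtain ⟨i, σ⟩ := t
  have h : ComplexEmbedding.conjugate (ComplexEmbedding.conjugate σ) = σ :=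
    RingHom.ext fun x => by
      rw [ComplexEmbedding.conjugate_coe_eq, ComplexEmbedding.conjugate_coe_eq, Complex.conj_conj]
  show (⟨i, ComplexEmbedding.conjugate (ComplexEmbedding.conjugate σ)⟩ :
    Σ i, (L i →+* ℂ)) = ⟨i, σ⟩
  rw [h]

include D in
omit [Fintype I] [DecidableEq I] in
lemma conjT_ne (t : Σ i, (L i →+* ℂ)) : conjT t ≠ t := by
  obtain ⟨i, σ⟩ := t
  intro h
  simp only [conjT, Sigma.mk.injEq, heq_eq_eq, true_and] at h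
  exact (D i).hreal σ h

include D in
omit [Fintype I] [DecidableEq I] in
lemma actT_conjT (τ : ℂ ≃+* ℂ) (t : Σ i, (L i →+* ℂ)) : actT τ (conjT t) = conjT (actT τ t) := by
  obtain ⟨i, σ⟩ := t
  have h : (τ : ℂ →+* ℂ).comp (ComplexEmbedding.conjugate σ) =
      ComplexEmbedding.conjugate ((τ : ℂ →+* ℂ).comp σ) := by
    refine RingHom.ext fun x => ?_
    have h1 := (D i).hcc σ x
    have h2 := (D i).hcc ((τ : ℂ →+* ℂ).comp σ) x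
    rw [ComplexEmbedding.conjugate_coe_eq, ← h2, RingHom.comp_apply, RingHom.comp_apply, h1,
      ComplexEmbedding.conjugate_coe_eq]
  show (⟨i, (τ : ℂ →+* ℂ).comp (ComplexEmbedding.conjugate σ)⟩ : Σ i, (L i →+* ℂ)) =
    ⟨i, ComplexEmbedding.conjugate ((τ : ℂ →+* ℂ).comp σ)⟩
  rw [h]

end product

section chosen

variable {L : Type*} [Field L] [NumberField L] {κ : Type*} [Fintype κ] [DecidableEq κ] {ϖ : ℂ}

/-- chosen data -/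
structure Chosen (D : CMData L κ ϖ) where
  lam : κ → ℂ
  eb : Basis (L →+* ℂ) ℂ (κ → ℂ)
  Ω : (L →+* ℂ) → ℂ
  ε : (L →+* ℂ) → (κ → ℂ)
  hlam : lam ∈ Submodule.span ℚ (Set.range D.bB)
  h0 : lam ≠ 0
  heb : ∀ σ, eb σ = proj D.ρ σ lam
  hΩ : ∀ σ, Ω σ ≠ 0
  hε : ∀ σ j, IsAlgebraic ℚ (ε σ j)
  hΩε : ∀ σ, eb σ = Ω σ • ε σ
  hLeg : ∀ σ, ∃ a : ℂ, IsAlgebraic ℚ a ∧ a ≠ 0 ∧ Ω σ * Ω (ComplexEmbedding.conjugate σ) = ϖ * a

lemma CMData.nonempty_chosen (D : CMData L κ ϖ) : Nonempty (Chosen D) := by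
  obtain ⟨lam, eb, Ω, ε, h1, h2, h3, h4, h5, h6, h7⟩ := D.exists_all
  exact ⟨⟨lam, eb, Ω, ε, h1, h2, h3, h4, h5, h6, h7⟩⟩

/-- chosen data -/
noncomputable def CMData.ch (D : CMData L κ ϖ) : Chosen D := Classical.choice D.nonempty_chosen

end chosen

end Pool.Agent.Helper7
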