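import Pool.Agent.Helper7.Cohomology
import Pool.Agent.Helper7.Core
import Pool.Agent.Helper8.ModelLemmas

/-!
The period vectors of a basis of the period lattice form a basis of `H_1(A, ℂ)`.
-/

open scoped ComplexConjugate

namespace Pool.Agent.Helper7

open Module Pool.Agent.GPC

section herm

variable {g : ℕ}

lemma hermForm_add_left (H : Matrix (Fin g) (Fin g) ℂ) (z z' w : Fin g → ℂ) :
    hermForm H (z + z') w = hermForm H z w + hermForm H z' w := by
  simp only [hermForm, Pi.add_apply, ← Finset.sum_add_distrib]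
  exact Finset.sum_congr rfl fun a _ => Finset.sum_congr rfl fun b _ => by ring

lemma hermForm_smul_left (H : Matrix (Fin g) (Fin g) ℂ) (c : ℂ) (z w : Fin g → ℂ) :
    hermForm H (c • z) w = c * hermForm H z w := by
  simp only [hermForm, Pi.smul_apply, smul_eq_mul, Finset.mul_sum]
  exact Finset.sum_congr rfl fun a _ => Finset.sum_congr rfl fun b _ => by ring

lemma hermForm_add_right (H : Matrix (Fin g) (Fin g) ℂ) (z w w' : Fin g → ℂ) :
    hermForm H z (w + w') = hermForm H z w + hermForm H z w' := by
  simp only [hermForm, Pi.add_apply, ← Finset.sum_add_distrib, map_add]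
  exact Finset.sum_congr rfl fun a _ => Finset.sum_congr rfl fun b _ => by ring

lemma hermForm_smul_right (H : Matrix (Fin g) (Fin g) ℂ) (c : ℂ) (z w : Fin g → ℂ) :
    hermForm H z (c • w) = conj c * hermForm H z w := by
  simp only [hermForm, Pi.smul_apply, smul_eq_mul, Finset.mul_sum, map_mul]
  exact Finset.sum_congr rfl fun a _ => Finset.sum_congr rfl fun b _ => by ring

lemma hermForm_symm (H : Matrix (Fin g) (Fin g) ℂ) (hH : H.IsHermitian) (z w : Fin g → ℂ) :
    hermForm H w z = conj (hermForm H z w) := by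
  simp only [hermForm, map_sum, map_mul, Complex.conj_conj]
  rw [Finset.sum_comm]
  refine Finset.sum_congr rfl fun a _ => Finset.sum_congr rfl fun b _ => ?_
  have h1 : H b a = conj (H a b) := by
    have := hH.apply b a
    rw [← this]; rfl
  rw [h1]; ring

lemma hermForm_single (H : Matrix (Fin g) (Fin g) ℂ) (a : Fin g) (w : Fin g → ℂ) :
    hermForm H (Pi.single a 1) w = ∑ b, H a b * conj (w b) := by
  simp only [hermForm]
  rw [Finset.sum_eq_single a (fun c _ hc => Finset.sum_eq_zero fun b _ => by
    rw [Pi.single_eq_of_ne hc]; ring) (by simp)]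
  exact Finset.sum_congr rfl fun b _ => by rw [Pi.single_eq_same]; ring

lemma hermForm_eq_sum (H : Matrix (Fin g) (Fin g) ℂ) (z w : Fin g → ℂ) :
    hermForm H z w = ∑ a, z a * hermForm H (Pi.single a 1) w := by
  simp only [hermForm_single]
  unfold hermForm
  refine Finset.sum_congr rfl fun a _ => ?_
  rw [Finset.mul_sum]
  exact Finset.sum_congr rfl fun b _ => by ring

lemma bilForm_add_right (H : Matrix (Fin g) (Fin g) ℂ) (z w w' : Fin g → ℂ) :
    bilForm H z (w + w') = bilForm H z w + bilForm H z w' := by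
  simp only [bilForm, Pi.add_apply, ← Finset.sum_add_distrib]
  exact Finset.sum_congr rfl fun a _ => Finset.sum_congr rfl fun b _ => by ring

lemma bilForm_symm (H : Matrix (Fin g) (Fin g) ℂ) (hH : H.IsSymm) (z w : Fin g → ℂ) :
    bilForm H w z = bilForm H z w := by
  simp only [bilForm]
  rw [Finset.sum_comm]
  refine Finset.sum_congr rfl fun a _ => Finset.sum_congr rfl fun b _ => ?_
  rw [hH.apply a b]; ring

lemma bilForm_single (H : Matrix (Fin g) (Fin g) ℂ) (a : Fin g) (w : Fin g → ℂ) :
    bilForm H (Pi.single a 1) w = ∑ b, H a b * w b := by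
  simp only [bilForm]
  rw [Finset.sum_eq_single a (fun c _ hc => Finset.sum_eq_zero fun b _ => by
    rw [Pi.single_eq_of_ne hc]; ring) (by simp)]
  exact Finset.sum_congr rfl fun b _ => by rw [Pi.single_eq_same]; ring

lemma bilForm_eq_sum (H : Matrix (Fin g) (Fin g) ℂ) (z w : Fin g → ℂ) :
    bilForm H z w = ∑ a, z a * bilForm H (Pi.single a 1) w := by
  simp only [bilForm_single]
  unfold bilForm
  refine Finset.sum_congr rfl fun a _ => ?_
  rw [Finset.mul_sum]
  exact Finset.sum_congr rfl fun b _ => by ring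

end herm

variable (A : AbVar)

/-- The Betti structure as rational subspace. -/
noncomputable def _root_.Pool.Agent.GPC.AbVar.betti : Submodule ℚ A.H1 :=
  Submodule.span ℚ (A.period '' A.Λ)

/-- The polarisation form as bilinear map. -/
noncomputable def _root_.Pool.Agent.GPC.AbVar.polForm : A.H1 →ₗ[ℂ] A.H1 →ₗ[ℂ] ℂ :=
  LinearMap.mk₂ ℂ (fun u v => ∑ a, (u (.inl a) * v (.inr a) - v (.inl a) * u (.inr a)))
    (fun u u' v => by
      rw [← Finset.sum_add_distrib]
      exact Finset.sum_congr rfl fun a _ => by simp only [Pi.add_apply]; ring)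
    (fun c u v => by
      rw [smul_eq_mul, Finset.mul_sum]
      exact Finset.sum_congr rfl fun a _ => by simp only [Pi.smul_apply, smul_eq_mul]; ring)
    (fun u v v' => by
      rw [← Finset.sum_add_distrib]
      exact Finset.sum_congr rfl fun a _ => by simp only [Pi.add_apply]; ring)
    (fun c u v => by
      rw [smul_eq_mul, Finset.mul_sum]
      exact Finset.sum_congr rfl fun a _ => by simp only [Pi.smul_apply, smul_eq_mul]; ring)

lemma _root_.Pool.Agent.GPC.AbVar.polForm_apply (u v : A.H1) :
    A.polForm u v = ∑ a, (u (.inl a) * v (.inr a) - v (.inl a) * u (.inr a)) := rfl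

lemma pol_eq (u v : A.H1) : A.pol u v = A.polForm u v := rfl

lemma period_add (l m : Fin A.g → ℂ) : A.period (l + m) = A.period l + A.period m := by
  funext j
  rcases j with a | a
  · rfl
  · show A.eta (l + m) a = A.eta l a + A.eta m a
    simp only [AbVar.eta, hermForm_add_right, bilForm_add_right]
    ring

/-- `period` as additive map -/
noncomputable def periodHom : (Fin A.g → ℂ) →+ A.H1 :=
  AddMonoidHom.mk' A.period (period_add A)

lemma polForm_period (l m : Fin A.g → ℂ) :
    A.polForm (A.period l) (A.period m) =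
      2 * Real.pi * Complex.I * ((hermForm A.H l m).im : ℂ) := by
  rw [AbVar.polForm_apply]
  have h1 : ∀ l m : Fin A.g → ℂ, ∑ a, l a * A.eta m a =
      Real.pi * hermForm A.H l m + bilForm A.q l m := by
    intro l m
    rw [hermForm_eq_sum A.H l m, bilForm_eq_sum A.q l m, Finset.mul_sum,
      ← Finset.sum_add_distrib]
    refine Finset.sum_congr rfl fun a _ => ?_
    simp only [AbVar.eta]; ring
  have h2 : ∑ a, (A.period l (.inl a) * A.period m (.inr a) -
      A.period m (.inl a) * A.period l (.inr a)) =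
      (∑ a, l a * A.eta m a) - ∑ a, m a * A.eta l a := by
    rw [← Finset.sum_sub_distrib]
    rfl
  rw [h2, h1, h1, hermForm_symm A.H A.H_herm l m, bilForm_symm A.q A.q_symm l m]
  have h3 := Complex.sub_conj (hermForm A.H l m)
  have h4 : hermForm A.H l m - conj (hermForm A.H l m) =
    (2 * (hermForm A.H l m).im : ℝ) * Complex.I := h3
  have h5 : ((Real.pi : ℂ) * hermForm A.H l m + bilForm A.q l m) -
    (Real.pi * conj (hermForm A.H l m) + bilForm A.q l m) =
    Real.pi * (hermForm A.H l m - conj (hermForm A.H l m)) := by ring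
  rw [h5, h4]
  push_cast; ring

lemma polForm_antisymm (u v : A.H1) : A.polForm u v = - A.polForm v u := by
  rw [AbVar.polForm_apply, AbVar.polForm_apply, ← Finset.sum_neg_distrib]
  exact Finset.sum_congr rfl fun a _ => by ring

lemma polForm_nondeg (u : A.H1) (h : ∀ v, A.polForm u v = 0) : u = 0 := by
  funext j
  rcases j with a | a
  · have h1 := h (Pi.single (.inr a) 1)
    rw [AbVar.polForm_apply, Finset.sum_eq_single a (fun b _ hb => by
      rw [Pi.single_eq_of_ne (fun h => hb (Sum.inr.inj h)), Pi.single_eq_of_ne (by simp)]; ring)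
      (by simp)] at h1
    simpa using h1
  · have h1 := h (Pi.single (.inl a) 1)
    rw [AbVar.polForm_apply, Finset.sum_eq_single a (fun b _ hb => by
      rw [Pi.single_eq_of_ne (by simp), Pi.single_eq_of_ne (fun h => hb (Sum.inl.inj h))]; ring)
      (by simp)] at h1
    simpa using h1

lemma polForm_alg (u v : A.H1) (hu : ∀ j, IsAlgebraic ℚ (u j)) (hv : ∀ j, IsAlgebraic ℚ (v j)) :
    IsAlgebraic ℚ (A.polForm u v) := by
  rw [AbVar.polForm_apply]
  exact isAlg_sum _ _ fun a _ => ((hu _).mul (hv _)).sub ((hv _).mul (hu _))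

lemma polForm_rat (u v : A.H1) (hu : u ∈ A.betti) (hv : v ∈ A.betti) :
    ∃ q : ℚ, A.polForm u v = 2 * Real.pi * Complex.I * q := by
  unfold AbVar.betti at hu hv
  induction hu using Submodule.span_induction with
  | mem u hu =>
    obtain ⟨l, hl, rfl⟩ := hu
    induction hv using Submodule.span_induction with
    | mem v hv =>
      obtain ⟨m, hm, rfl⟩ := hv
      obtain ⟨n, hn⟩ := A.integral l hl m hm
      refine ⟨n, ?_⟩
      rw [polForm_period, hn]
      push_cast; ring
    | zero => exact ⟨0, by simp⟩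
    | add x y _ _ hx hy =>
      obtain ⟨p, hp⟩ := hx
      obtain ⟨q, hq⟩ := hy
      refine ⟨p + q, ?_⟩
      rw [map_add, hp, hq]; push_cast; ring
    | smul a x _ hx =>
      obtain ⟨p, hp⟩ := hx
      refine ⟨a * p, ?_⟩
      have h1 : a • x = (a : ℂ) • x := by
        funext j; simp [Algebra.smul_def]
      rw [h1, map_smul, hp, smul_eq_mul]; push_cast; ring
  | zero => exact ⟨0, by simp⟩
  | add x y _ _ hx hy =>
    obtain ⟨p, hp⟩ := hx
    obtain ⟨q, hq⟩ := hy
    refine ⟨p + q, ?_⟩
    rw [map_add, LinearMap.add_apply, hp, hq]; push_cast; ring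
  | smul a x _ hx =>
    obtain ⟨p, hp⟩ := hx
    refine ⟨a * p, ?_⟩
    have h1 : a • x = (a : ℂ) • x := by
      funext j; simp [Algebra.smul_def]
    rw [h1, map_smul, LinearMap.smul_apply, hp, smul_eq_mul]; push_cast; ring

/-- the period vectors of a basis of the lattice are linearly independent -/
lemma exists_bettiBasis : ∃ (ι : Type) (_ : Fintype ι) (b : Basis ι ℂ A.H1),
    Submodule.span ℚ (Set.range b) = A.betti := by
  classical
  have := A.discrete
  have : IsZLattice ℝ A.Λ := ⟨A.spans⟩
  let b₀ := Module.Free.chooseBasis ℤ A.Λ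
  let bR : Basis _ ℝ (Fin A.g → ℂ) := b₀.ofZLatticeBasis ℝ A.Λ
  have hbR : ∀ i, bR i = b₀ i := fun i => b₀.ofZLatticeBasis_apply ℝ A.Λ i
  have hcard : Fintype.card (Module.Free.ChooseBasisIndex ℤ A.Λ) =
      finrank ℂ A.H1 := by
    have h1 := Module.finrank_eq_card_basis bR
    rw [← h1]
    have h2 : finrank ℝ (Fin A.g → ℂ) = 2 * A.g := by
      rw [Module.finrank_pi_fintype]
      simp [Complex.finrank_real_complex, mul_comm]
    rw [h2, Module.finrank_fintype_fun_eq_card]
    simp [two_mul]
  -- real combination of lattice vectors with vanishing pairing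
  have key : ∀ r : Module.Free.ChooseBasisIndex ℤ A.Λ → ℝ,
      (∀ m ∈ A.Λ, ∑ i, r i * (hermForm A.H (b₀ i : Fin A.g → ℂ) m).im = 0) → r = 0 := by
    intro r hr
    set x : Fin A.g → ℂ := ∑ i, (r i : ℂ) • (b₀ i : Fin A.g → ℂ) with hx
    have h1 : ∀ m : Fin A.g → ℂ, (hermForm A.H x m).im =
        ∑ i, r i * (hermForm A.H (b₀ i : Fin A.g → ℂ) m).im := by
      intro m
      have h2 : ∀ s : Finset (Module.Free.ChooseBasisIndex ℤ A.Λ),
          hermForm A.H (∑ i ∈ s, (r i : ℂ) • (b₀ i : Fin A.g → ℂ)) m =
          ∑ i ∈ s, (r i : ℂ) * hermForm A.H (b₀ i : Fin A.g → ℂ) m := by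
        intro s
        induction s using Finset.induction_on with
        | empty => simp [hermForm]
        | insert a s ha ih =>
          rw [Finset.sum_insert ha, Finset.sum_insert ha, hermForm_add_left, ih,
            hermForm_smul_left]
      rw [hx, h2, Complex.im_sum]
      exact Finset.sum_congr rfl fun i _ => by rw [Complex.im_ofReal_mul]
    have h2 : ∀ m : Fin A.g → ℂ, (hermForm A.H x m).im = 0 := by
      intro m
      have hm : m ∈ Submodule.span ℝ (A.Λ : Set (Fin A.g → ℂ)) := by
        rw [A.spans]; trivial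
      induction hm using Submodule.span_induction with
      | mem m hm => rw [h1, hr m hm]
      | zero => simp [hermForm]
      | add u v _ _ hu hv => rw [hermForm_add_right, Complex.add_im, hu, hv, add_zero]
      | smul a u _ hu =>
        have h3 : a • u = (a : ℂ) • u := by
          funext j; simp
        rw [h3, hermForm_smul_right, Complex.conj_ofReal, Complex.im_ofReal_mul, hu, mul_zero]
    have h3 := h2 (Complex.I • x)
    rw [hermForm_smul_right, Complex.conj_I] at h3
    have h4 : (hermForm A.H x x).re = 0 := by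
      have h5 : (-Complex.I * hermForm A.H x x).im = - (hermForm A.H x x).re := by
        simp [Complex.mul_im]
      rw [h5] at h3
      linarith
    have hx0 : x = 0 := by
      by_contra hne
      have := A.H_pos x hne
      linarith
    have h6 : ∑ i, r i • bR i = 0 := by
      rw [← hx0, hx]
      refine Finset.sum_congr rfl fun i _ => ?_
      rw [hbR]
      funext j; simp
    funext i
    exact (Fintype.linearIndependent_iff.mp bR.linearIndependent) r h6 i
  have hli : LinearIndependent ℂ (fun i : Module.Free.ChooseBasisIndex ℤ A.Λ =>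
      A.period (b₀ i : Fin A.g → ℂ)) := by
    rw [Fintype.linearIndependent_iff]
    intro c hc
    have h1 : ∀ m ∈ A.Λ, ∑ i, c i * ((hermForm A.H (b₀ i : Fin A.g → ℂ) m).im : ℂ) = 0 := by
      intro m hm
      have h2 : A.polForm (∑ i, c i • A.period (b₀ i : Fin A.g → ℂ)) (A.period m) = 0 := by
        rw [hc]; simp
      rw [map_sum, LinearMap.sum_apply] at h2
      simp only [map_smul, LinearMap.smul_apply, smul_eq_mul, polForm_period] at h2
      have h3 : (2 * Real.pi * Complex.I) *
          ∑ i, c i * ((hermForm A.H (b₀ i : Fin A.g → ℂ) m).im : ℂ) = 0 := by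
        rw [Finset.mul_sum, ← h2]
        exact Finset.sum_congr rfl fun i _ => by ring
      exact (mul_eq_zero.mp h3).resolve_left Complex.two_pi_I_ne_zero
    have hre : (fun i => (c i).re) = 0 := by
      apply key
      intro m hm
      have := congrArg Complex.re (h1 m hm)
      rw [Complex.re_sum] at this
      simpa [Complex.mul_re] using this
    have him : (fun i => (c i).im) = 0 := by
      apply key
      intro m hm
      have := congrArg Complex.im (h1 m hm)
      rw [Complex.im_sum] at this
      simpa [Complex.mul_im, mul_comm] using this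
    intro i
    exact Complex.ext (congrFun hre i) (congrFun him i)
  refine ⟨_, inferInstance, Basis.mk hli (hli.span_eq_top_of_card_eq_finrank' hcard).ge, ?_⟩
  rw [Basis.coe_mk]
  apply le_antisymm
  · apply Submodule.span_mono
    rintro _ ⟨i, rfl⟩
    exact ⟨_, (b₀ i).2, rfl⟩
  · rw [AbVar.betti, Submodule.span_le]
    rintro _ ⟨l, hl, rfl⟩
    have h1 : (⟨l, hl⟩ : A.Λ) = ∑ i, b₀.repr ⟨l, hl⟩ i • b₀ i := (b₀.sum_repr ⟨l, hl⟩).symm
    have h2 : l = ∑ i, b₀.repr ⟨l, hl⟩ i • (b₀ i : Fin A.g → ℂ) := by
      have h5 := congrArg (A.Λ.subtype) h1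
      rw [map_sum] at h5
      simp only [map_zsmul] at h5
      exact h5
    have h3 : A.period l = ∑ i, b₀.repr ⟨l, hl⟩ i • A.period (b₀ i : Fin A.g → ℂ) := by
      have h4 : periodHom A l = ∑ i, b₀.repr ⟨l, hl⟩ i • periodHom A (b₀ i : Fin A.g → ℂ) := by
        conv_lhs => rw [h2]
        rw [map_sum]
        exact Finset.sum_congr rfl fun i _ => map_zsmul _ _ _
      exact h4
    rw [SetLike.mem_coe, h3]
    refine Submodule.sum_mem _ fun i _ => zsmul_mem ?_ _
    exact Submodule.subset_span ⟨i, rfl⟩

/-- a non-zero rational class is a rational multiple of a non-zero period -/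
lemma betti_eq_period (v : A.H1) (hv : v ∈ A.betti) :
    ∃ (N : ℕ) (l : Fin A.g → ℂ), N ≠ 0 ∧ l ∈ A.Λ ∧ (N : ℂ) • v = A.period l := by
  unfold AbVar.betti at hv
  induction hv using Submodule.span_induction with
  | mem v hv =>
    obtain ⟨l, hl, rfl⟩ := hv
    exact ⟨1, l, one_ne_zero, hl, by simp⟩
  | zero => exact ⟨1, 0, one_ne_zero, A.Λ.zero_mem, by
      rw [smul_zero]; exact (map_zero (periodHom A)).symm⟩
  | add x y _ _ hx hy =>
    obtain ⟨N, l, hN, hl, h1⟩ := hx
    obtain ⟨M, m, hM, hm, h2⟩ := hy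
    refine ⟨N * M, (M : ℤ) • l + (N : ℤ) • m, mul_ne_zero hN hM,
      A.Λ.add_mem (A.Λ.smul_mem _ hl) (A.Λ.smul_mem _ hm), ?_⟩
    have h3 : A.period ((M : ℤ) • l + (N : ℤ) • m) =
        (M : ℤ) • A.period l + (N : ℤ) • A.period m := by
      have h4 : periodHom A ((M : ℤ) • l + (N : ℤ) • m) =
        (M : ℤ) • periodHom A l + (N : ℤ) • periodHom A m := by
        rw [map_add, map_zsmul, map_zsmul]
      exact h4
    rw [h3, ← h1, ← h2]
    funext j
    simp
    ring
  | smul a x _ hx =>
    obtain ⟨N, l, hN, hl, h1⟩ := hx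
    refine ⟨N * a.den, a.num • l, mul_ne_zero hN a.den_ne_zero, A.Λ.smul_mem _ hl, ?_⟩
    have h3 : A.period (a.num • l) = a.num • A.period l := by
      have h4 : periodHom A (a.num • l) = a.num • periodHom A l := map_zsmul _ _ _
      exact h4
    rw [h3, ← h1]
    funext j
    have h5 : (a : ℂ) * a.den = a.num := by
      exact_mod_cast Rat.mul_den_eq_num a
    have h6 : (a.num • ((N : ℂ) • x)) j = (a.num : ℂ) * ((N : ℂ) * x j) := by
      rw [Pi.smul_apply, zsmul_eq_mul, Pi.smul_apply, smul_eq_mul]
    have h7 : (((N * a.den : ℕ) : ℂ) • (a • x)) j = (N : ℂ) * (a.den : ℂ) * ((a : ℂ) * x j) := by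
      rw [Pi.smul_apply, smul_eq_mul, Pi.smul_apply, Algebra.smul_def, eq_ratCast, Nat.cast_mul]
    rw [h6, h7, ← h5]
    ring

lemma isBetti_iff (v : A.H1) : A.IsBetti v ↔ v ∈ A.betti := by
  constructor
  · rintro ⟨N, hN, l, hl, h⟩
    have hNC : (N : ℂ) ≠ 0 := Nat.cast_ne_zero.mpr hN
    have h1 : v = ((N : ℚ)⁻¹) • A.period l := by
      rw [← h]
      funext j
      rw [Pi.smul_apply, Pi.smul_apply, Algebra.smul_def, smul_eq_mul, eq_ratCast]
      push_cast
      rw [inv_mul_cancel_left₀ hNC]
    rw [h1]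
    exact Submodule.smul_mem _ _ (Submodule.subset_span ⟨l, hl, rfl⟩)
  · intro h
    obtain ⟨N, l, hN, hl, h1⟩ := betti_eq_period A v h
    exact ⟨N, hN, l, hl, h1⟩

end Pool.Agent.Helper7
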