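import Pool.Agent.Helper8.Model

/-!
Cohomology classes of products of abelian varieties: de Rham and Betti rational structures,
Grothendieck classes, homomorphisms, complex multiplication.
-/

open scoped ComplexConjugate

namespace Pool.Agent.GPC

namespace AbVar

variable (A : AbVar)

/-- `H_1(A(ℂ), ℂ)`, in the coordinates given by the basis `dz_a, d(∂ log θ_0/∂z_a)` of
`H^1_dR(A)` over the algebraic numbers. -/
abbrev H1 : Type := Fin A.g ⊕ Fin A.g → ℂ

/-- `v` lies in the Betti structure `H_1(A(ℂ), ℚ)`: a multiple `N v`, `N ≥ 1`, is the period vector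
of an element of `Λ = H_1(A(ℂ), ℤ)`. -/
def IsBetti (v : A.H1) : Prop := ∃ N : ℕ, N ≠ 0 ∧ ∃ l ∈ A.Λ, (N : ℂ) • v = A.period l

/-- `v` lies in the de Rham structure `H_1^dR(A)`: its coordinates are algebraic numbers. -/
def IsDeRham (v : A.H1) : Prop := ∀ j, IsAlgebraic ℚ (v j)

/-- `v` lies in the step `F^0` of the Hodge filtration, the kernel of `H_1(A(ℂ), ℂ) → Lie A`. -/
def IsFil (v : A.H1) : Prop := ∀ a, v (.inl a) = 0

/-- The class in `H^2(A)` of the hyperplane sections of `A`, as alternating form on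
`H_1(A(ℂ), ℂ)`; on the periods of `l, m ∈ Λ` its value is `2πi Im H(l,m)`. -/
def pol (u v : A.H1) : ℂ := ∑ a, (u (.inl a) * v (.inr a) - v (.inl a) * u (.inr a))

end AbVar

/-- `H_1(X, ℂ)` for the product `X = ∏_i A_i^{n_i}`. -/
abbrev H1 {I : Type} (A : I → AbVar) (n : I → ℕ) : Type := (i : I) → Fin (n i) → (A i).H1

section product

variable {I : Type} (A : I → AbVar) (n : I → ℕ)

/-- the Betti structure `H_1(X, ℚ)` -/
def IsBetti (v : H1 A n) : Prop := ∀ i m, (A i).IsBetti (v i m)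

/-- the de Rham structure `H_1^dR(X)` -/
def IsDeRham (v : H1 A n) : Prop := ∀ i m, (A i).IsDeRham (v i m)

/-- the Hodge filtration on `H_1(X, ℂ)` -/
def IsFil (v : H1 A n) : Prop := ∀ i m, (A i).IsFil (v i m)

/-- `H^m(X, ℂ)`, the space of alternating forms of degree `m` on `H_1(X, ℂ)` -/
abbrev Form (m : ℕ) : Type := H1 A n [⋀^Fin m]→ₗ[ℂ] ℂ

/-- `α` is a Grothendieck class in `H^{2k}_Gr(X, ℚ(k)) = H^{2k}_dR(X) ∩ (2πi)^k H^{2k}(X, ℚ)`. -/
def IsGrothendieck (k : ℕ) (α : Form A n (2 * k)) : Prop :=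
  (∀ v : Fin (2 * k) → H1 A n, (∀ r, IsDeRham A n (v r)) → IsAlgebraic ℚ (α v)) ∧
  (∀ v : Fin (2 * k) → H1 A n, (∀ r, IsBetti A n (v r)) →
    ∃ c : ℚ, α v = (2 * Real.pi * Complex.I) ^ k * c)

/-- `h : H_1(X) → H_1(A_i)` comes from a homomorphism `X → A_i` (tensor `ℚ`): it is linear and
respects the Betti and de Rham structures and the Hodge filtrations. -/
structure IsHom (i : I) (h : H1 A n → (A i).H1) : Prop where
  linear : IsLinearMap ℂ h
  betti : ∀ v, IsBetti A n v → (A i).IsBetti (h v)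
  deRham : ∀ v, IsDeRham A n v → (A i).IsDeRham (h v)
  hodge : ∀ v, IsFil A n v → (A i).IsFil (h v)

/-- `ω` is (up to normalisation) the product of the `2`-forms `γ_0, ..., γ_(k-1)` on `W`: the
antisymmetrisation of `γ_0(v_0, v_1) γ_1(v_2, v_3) ...`. -/
def IsProduct {W : Type} {k : ℕ} (γ : Fin k → W → W → ℂ) (ω : (Fin (2 * k) → W) → ℂ) : Prop :=
  ∀ v, ω v = ∑ π : Equiv.Perm (Fin (2 * k)), ((Equiv.Perm.sign π : ℤ) : ℂ) *
    ∏ a : Fin k, γ a (v (π ⟨2 * a.1, by omega⟩)) (v (π ⟨2 * a.1 + 1, by omega⟩))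

/-- `ω` is a `k`-fold product of classes of divisors `h^{-1}(D)`, `D` a hyperplane section of
`A_i` and `h : X → A_i` a homomorphism. -/
def IsDivisorProduct (k : ℕ) (ω : (Fin (2 * k) → H1 A n) → ℂ) : Prop :=
  ∃ (i : Fin k → I) (h : (a : Fin k) → H1 A n → (A (i a)).H1),
    (∀ a, IsHom A n (i a) (h a)) ∧ IsProduct (fun a u v => (A (i a)).pol (h a u) (h a v)) ω

/-- `α` is a linear combination, with rational coefficients, of `k`-fold products of classes of
divisors `h^{-1}(D)`, `D` a hyperplane section of `A_i` and `h : X → A_i` a homomorphism. -/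
def IsDivisorial (k : ℕ) (α : Form A n (2 * k)) : Prop :=
  ∃ (m : ℕ) (c : Fin m → ℚ) (ω : Fin m → (Fin (2 * k) → H1 A n) → ℂ),
    (∀ j, IsDivisorProduct A n k (ω j)) ∧ ∀ v, α v = ∑ j, (c j : ℂ) * ω j v

end product

/-- `f` is the action on `H_1(A(ℂ), ℂ)` of an endomorphism of `A` (tensor `ℚ`): it is linear and
respects the Betti and de Rham structures and the Hodge filtration. -/
structure AbVar.IsEnd (A : AbVar) (f : A.H1 → A.H1) : Prop where
  linear : IsLinearMap ℂ f
  betti : ∀ v, A.IsBetti v → A.IsBetti (f v)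
  deRham : ∀ v, A.IsDeRham v → A.IsDeRham (f v)
  hodge : ∀ v, A.IsFil v → A.IsFil (f v)

/-- `f` and `f'` are adjoint for the polarisation. -/
def AbVar.IsAdjoint (A : AbVar) (f f' : A.H1 → A.H1) : Prop := ∀ u v, A.pol (f u) v = A.pol u (f' v)

/-- complex conjugation on a CM field -/
noncomputable def cmConj (L : Type) [Field L] [NumberField L] [NumberField.IsCMField L] (x : L) :
    L := NumberField.IsCMField.complexConj L x

/-- Complex multiplication of `A` by the CM field `L`: an action of `L` on `H_1(A)` through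
endomorphisms of `A` (tensor `ℚ`), with `[L : ℚ] = 2 dim A`, such that the Rosati involution is
complex conjugation on `L`. -/
structure CM (A : AbVar) (L : Type) [Field L] [NumberField L] [NumberField.IsCMField L] where
  ρ : L → A.H1 → A.H1
  one : ∀ v, ρ 1 v = v
  mul : ∀ x y v, ρ (x * y) v = ρ x (ρ y v)
  add : ∀ x y v, ρ (x + y) v = ρ x v + ρ y v
  degree : Module.finrank ℚ L = 2 * A.g
  endo : ∀ x, A.IsEnd (ρ x)
  rosati : ∀ x, A.IsAdjoint (ρ x) (ρ (cmConj L x))

section odd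

variable {I : Type} (L : I → Type) [∀ i, Field (L i)]

/-- the disjoint union of the sets `Hom(L_i, ℂ)` -/
abbrev Emb : Type := Σ i, (L i →+* ℂ)

/-- `u` is an odd function on the disjoint union of the sets `Hom(L_i, ℂ)`:
`u(conj σ) = -u(σ)`. -/
def IsOdd (u : Emb L → ℚ) : Prop :=
  ∀ i σ, u ⟨i, NumberField.ComplexEmbedding.conjugate σ⟩ = - u ⟨i, σ⟩

/-- the action of `τ ∈ Aut(ℂ)` on functions on the disjoint union of the sets `Hom(L_i, ℂ)` -/
def translate (τ : ℂ ≃+* ℂ) (u : Emb L → ℚ) : Emb L → ℚ :=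
  fun t => u ⟨t.1, (τ : ℂ →+* ℂ).comp t.2⟩

/-- `U` consists of odd functions and is stable under `Aut(ℂ)`. -/
def IsOddModule (U : Submodule ℚ (Emb L → ℚ)) : Prop :=
  ∀ u ∈ U, IsOdd L u ∧ ∀ τ, translate L τ u ∈ U

/-- Every subspace, stable under `Aut(ℂ)`, of the space of odd functions on the disjoint union of
the sets `Hom(L_i, ℂ)` is the direct sum of some of the spaces of odd functions on the
`Hom(L_i, ℂ)`: if it contains a function which is not zero on `Hom(L_i, ℂ)`, then it contains all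
odd functions supported on `Hom(L_i, ℂ)`. In other words: the Galois modules of odd functions on
the `Hom(L_i, ℂ)` are irreducible and pairwise not isomorphic. -/
def OddMultiplicityFree : Prop :=
  ∀ U, IsOddModule L U → ∀ i, (∃ u ∈ U, ∃ σ, u ⟨i, σ⟩ ≠ 0) →
    ∀ w, IsOdd L w → (∀ j σ, j ≠ i → w ⟨j, σ⟩ = 0) → w ∈ U

end odd

end Pool.Agent.GPC
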