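import Pool.Agent.Helper7.Bridge
import Pool.Agent.Helper7.Family3
import Pool.Agent.Helper7.Types
import Pool.Agent.Helper8.HomFil

/-!
From abelian varieties to the abstract data of the theorem on products.
-/

open scoped ComplexConjugate

namespace Pool.Agent.Helper7

open Module NumberField Pool.Agent.GPC

/-- the abstract data of an abelian variety -/
noncomputable def pData (A : AbVar) : PData (Fin A.g ⊕ Fin A.g) (2 * Real.pi * Complex.I) where
  ι := (exists_bettiBasis A).choose
  fι := (exists_bettiBasis A).choose_spec.choose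
  bB := (exists_bettiBasis A).choose_spec.choose_spec.choose
  ψ := A.polForm
  hψalg i j := by
    have h1 : ∀ i j : Fin A.g ⊕ Fin A.g, IsAlgebraic ℚ ((Pi.single i 1 : A.H1) j) := by
      intro i j
      by_cases h : j = i
      · subst h; rw [Pi.single_eq_same]; exact isAlgebraic_one
      · rw [Pi.single_eq_of_ne h]; exact isAlgebraic_zero
    exact polForm_alg A _ _ (h1 i) (h1 j)
  hψQ := by
    rw [(exists_bettiBasis A).choose_spec.choose_spec.choose_spec]
    exact fun u hu v hv => polForm_rat A u v hu hv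
  hψnd := polForm_nondeg A
  hψalt := polForm_antisymm A

lemma pData_Q (A : AbVar) : (pData A).Q = A.betti :=
  (exists_bettiBasis A).choose_spec.choose_spec.choose_spec

lemma mem_pData_Q (A : AbVar) (v : A.H1) : v ∈ (pData A).Q ↔ A.IsBetti v := by
  rw [pData_Q, isBetti_iff]

lemma pData_ψ (A : AbVar) (u v : A.H1) : (pData A).ψ u v = A.pol u v := rfl

lemma single_deRham (A : AbVar) (i : Fin A.g ⊕ Fin A.g) :
    A.IsDeRham (Pi.single i (1 : ℂ) : A.H1) := by
  intro j
  by_cases h : j = i
  · subst h; rw [Pi.single_eq_same]; exact isAlgebraic_one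
  · rw [Pi.single_eq_of_ne h]; exact isAlgebraic_zero

/-- de Rham-Betti morphisms of abelian varieties -/
lemma isDRB_iff (A B : AbVar) (f : A.H1 →ₗ[ℂ] B.H1) : IsDRB (pData A) (pData B) f ↔
    (∀ v, A.IsBetti v → B.IsBetti (f v)) ∧ (∀ v, A.IsDeRham v → B.IsDeRham (f v)) := by
  constructor
  · intro h
    refine ⟨fun v hv => ?_, fun v hv j => ?_⟩
    · rw [← mem_pData_Q] at hv ⊢
      exact h.rat v hv
    · have h1 : v = ∑ i, v i • (Pi.single i (1 : ℂ) : A.H1) := by
        funext j; simp [Finset.sum_apply, Pi.single_apply]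
      rw [h1, map_sum, Finset.sum_apply]
      refine isAlg_sum _ _ fun i _ => ?_
      rw [map_smul, Pi.smul_apply, smul_eq_mul]
      exact (hv i).mul (h.alg i j)
  · rintro ⟨h1, h2⟩
    refine ⟨fun v hv => ?_, fun i j => h2 _ (single_deRham A i) j⟩
    rw [mem_pData_Q] at hv ⊢
    exact h1 v hv

lemma isEnd_of_isDRB (A : AbVar) (f : A.H1 →ₗ[ℂ] A.H1) (h : IsDRB (pData A) (pData A) f) :
    A.IsEnd f where
  linear := f.isLinear
  betti := ((isDRB_iff A A f).mp h).1
  deRham := ((isDRB_iff A A f).mp h).2
  hodge := hom_fil A A f f.isLinear ((isDRB_iff A A f).mp h).1 ((isDRB_iff A A f).mp h).2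

lemma isDRB_of_isEnd (A : AbVar) (f : A.H1 →ₗ[ℂ] A.H1) (h : A.IsEnd f) :
    IsDRB (pData A) (pData A) f := (isDRB_iff A A f).mpr ⟨h.betti, h.deRham⟩

/-- the action as ring homomorphism -/
noncomputable def rmRho {A : AbVar} {K : Type} [Field K] [NumberField K] (C : RM A K) :
    K →+* Module.End ℂ A.H1 where
  toFun x := IsLinearMap.mk' _ (C.endo x).linear
  map_one' := LinearMap.ext C.one
  map_mul' x y := LinearMap.ext (C.mul x y)
  map_add' x y := LinearMap.ext (C.add x y)
  map_zero' := LinearMap.ext fun v => by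
    have h := C.add 0 0 v
    rw [add_zero] at h
    have h2 : C.ρ 0 v = 0 := by
      have h3 := congrArg (fun w => w - C.ρ 0 v) h
      simp only [sub_self, add_sub_cancel_right] at h3
      exact h3.symm
    exact h2

lemma rmRho_apply {A : AbVar} {K : Type} [Field K] [NumberField K] (C : RM A K) (x : K)
    (v : A.H1) : rmRho C x v = C.ρ x v := rfl

lemma card_index (A : AbVar) : Fintype.card (Fin A.g ⊕ Fin A.g) = 2 * A.g := by
  simp [two_mul]

/-- transcendence input for real multiplication -/
def NoStableLine (A : AbVar) (K : Type) [Field K] [NumberField K] : Prop :=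
  ∀ (ρ : K →+* Module.End ℂ A.H1), (∀ x, A.IsEnd (ρ x)) → ∀ w, A.IsBetti w → w ≠ 0 →
    ¬ (Submodule.span ℂ (Set.range fun x => ρ x w) ≤
      Submodule.span ℂ {v | A.IsDeRham v ∧ v ∈ Submodule.span ℂ (Set.range fun x => ρ x w)})

/-- a factor with complex multiplication -/
noncomputable def cmFac (A : AbVar) (K : Type) [Field K] [NumberField K] [IsCMField K]
    (C : CM A K) (hT : NotProportional A) : Fac (pData A) K where
  ρ := cmRho C
  hρ x := isDRB_of_isEnd A _ (C.endo x)
  cc := cmConj K
  hcc σ x := IsCMField.complexEmbedding_complexConj K σ x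
  hros x u v := C.rosati x u v
  gl := False
  lf := Classical.choice (nonempty_LF_false (pData A) (cmRho C)
    (fun x v hv => (isDRB_of_isEnd A _ (C.endo x)).rat v hv) (by rw [C.degree, card_index]))
  real_of_gl h := h.elim
  not_real _ σ h := IsTotallyComplex.complexEmbedding_not_isReal σ h
  hsub h := h.elim
  hcen h := h.elim
  hT := by
    rintro - v hv hv0 ⟨w, u, hu, hvu⟩
    rw [pData_Q] at hv
    obtain ⟨N, l, hN, hl, hNl⟩ := betti_eq_period A v hv
    have hNC : (N : ℂ) ≠ 0 := Nat.cast_ne_zero.mpr hN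
    refine hT l hl ?_ ⟨N * w, u, hu, ?_⟩
    · rintro rfl
      apply hv0
      have h1 : A.period 0 = 0 := map_zero (periodHom A)
      rw [h1, smul_eq_zero] at hNl
      exact hNl.resolve_left hNC
    · rw [← hNl, hvu, smul_smul]

/-- a factor with real multiplication -/
noncomputable def rmFac (A : AbVar) (K : Type) [Field K] [NumberField K] [IsTotallyReal K]
    (C : RM A K) (hNS : NoStableLine A K) : Fac (pData A) K where
  ρ := rmRho C
  hρ x := isDRB_of_isEnd A _ (C.endo x)
  cc x := x
  hcc σ x := by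
    have h := ComplexEmbedding.isReal_iff.mp (IsTotallyReal.complexEmbedding_isReal σ)
    have h2 := congrArg (fun τ => τ x) h
    simp only [ComplexEmbedding.conjugate_coe_eq] at h2
    exact h2.symm
  hros x u v := C.rosati x u v
  gl := True
  lf := Classical.choice (nonempty_LF_true (pData A) (rmRho C)
    (fun x v hv => (isDRB_of_isEnd A _ (C.endo x)).rat v hv)
    (by rw [C.degree, card_index, mul_comm]))
  real_of_gl _ σ := ComplexEmbedding.isReal_iff.mp (IsTotallyReal.complexEmbedding_isReal σ)
  not_real h := (h trivial).elim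
  hsub _ w hw hw0 := hNS (rmRho C) C.endo w ((mem_pData_Q A w).mp hw) hw0
  hcen _ f hf hc := C.centralizer f (isEnd_of_isDRB A f hf) hc
  hT h := (h trivial).elim

variable {I : Type} [Fintype I] (A : I → AbVar) (n : I → ℕ) (K : I → Type)
  [∀ i, Field (K i)] [∀ i, NumberField (K i)]

theorem main_G (hT : ∀ i, NotProportional (A i))
    (hNS : ∀ i, IsTotallyReal (K i) → NoStableLine (A i) (K i))
    (hK : ∀ i, IsCMType (A i) (K i) ∨ IsRMType (A i) (K i)) (h : OddMultiplicityFree K)
    (k : ℕ) (α : Form A n (2 * k)) : IsGrothendieck A n k α ↔ IsDivisorial A n k α := by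
  classical
  refine ⟨?_, isGrothendieck_of_isDivisorial A n k α⟩
  rintro ⟨hα1, hα2⟩
  have hF : ∀ i, Nonempty (Fac (pData (A i)) (K i)) := by
    intro i
    rcases hK i with ⟨h1, ⟨C⟩⟩ | ⟨h1, ⟨C⟩⟩
    · exact ⟨cmFac (A i) (K i) C (hT i)⟩
    · exact ⟨rmFac (A i) (K i) C (hNS i h1)⟩
  have h1 := abstract_G n (fun i => pData (A i)) (fun i => Classical.choice (hF i))
    Complex.two_pi_I_ne_zero (mf_of_oddMultiplicityFree K h) α
    (fun v hv => by
      apply hα2
      intro r i m
      exact (mem_pData_Q _ _).mp (hv r i m)) hα1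
  rw [Submodule.mem_span_set'] at h1
  obtain ⟨m, c, ω, hω⟩ := h1
  refine ⟨m, c, fun j => (ω j : Form A n (2 * k)), fun j => ?_, fun v => ?_⟩
  · obtain ⟨γ, hγ, hω⟩ := (ω j).2
    choose i h hh hic using hγ
    refine ⟨i, fun a => h a, fun a => ?_, fun v => ?_⟩
    · have hcomp : ∀ (v : H1 A n), h a v = ∑ j, ∑ m, (h a ∘ₗ slotL n j m) (v j m) := by
        intro v
        conv_lhs => rw [← sum_slot n v]
        simp only [map_sum]
        rfl
      refine ⟨(h a).isLinear, fun v hv => ?_, fun v hv => ?_, fun v hv b => ?_⟩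
      · change (A (i a)).IsBetti (h a v)
        rw [isBetti_iff, hcomp]
        refine Submodule.sum_mem _ fun j _ => Submodule.sum_mem _ fun m _ => ?_
        rw [← isBetti_iff]
        exact ((isDRB_iff _ _ _).mp (hh a j m)).1 _ (hv j m)
      · change (A (i a)).IsDeRham (h a v)
        rw [hcomp]
        intro b
        rw [Finset.sum_apply]
        refine isAlg_sum _ _ fun j _ => ?_
        rw [Finset.sum_apply]
        refine isAlg_sum _ _ fun m _ => ?_
        exact ((isDRB_iff _ _ _).mp (hh a j m)).2 _ (hv j m) b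
      · change (h a v) (.inl b) = 0
        rw [hcomp, Finset.sum_apply]
        refine Finset.sum_eq_zero fun j _ => ?_
        rw [Finset.sum_apply]
        refine Finset.sum_eq_zero fun m _ => ?_
        exact hom_fil (A j) (A (i a)) (h a ∘ₗ slotL n j m) (LinearMap.isLinear _)
          ((isDRB_iff _ _ _).mp (hh a j m)).1 ((isDRB_iff _ _ _).mp (hh a j m)).2 _ (hv j m) b
    · change (ω j : Form A n (2 * k)) v = _
      have h5 : (ω j : Form A n (2 * k)) v = wedge γ v := by rw [hω]
      rw [h5, wedge_apply]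
      refine Finset.sum_congr rfl fun π _ => ?_
      congr 1
      refine Finset.prod_congr rfl fun a _ => ?_
      rw [hic a]
      rfl
  · rw [← hω, alt_sum_apply]
    refine Finset.sum_congr rfl fun j _ => ?_
    rw [AlternatingMap.smul_apply, Algebra.smul_def, eq_ratCast]

end Pool.Agent.Helper7
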