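import Mathlib

/-!
Eigenspace decomposition for an action of a number field.
-/

namespace Pool.Agent.Helper7

open Module

section emb

variable {L : Type*} [Field L] [NumberField L]

lemma sum_emb (x : L) : ∑ σ : L →+* ℂ, σ x = ((Algebra.trace ℚ L x : ℚ) : ℂ) := by
  have h := trace_eq_sum_embeddings (K := ℚ) (L := L) ℂ (x := x)
  rw [eq_ratCast] at h
  rw [h]
  exact Fintype.sum_equiv (RingHom.equivRatAlgHom L ℂ) _ _ (fun σ => rfl)

variable (L) in
/-- a basis of the number field -/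
noncomputable def bas : Basis (Fin (finrank ℚ L)) ℚ L := Module.finBasis ℚ L

variable (L) in
/-- the dual basis for the trace form -/
noncomputable def dbas : Basis (Fin (finrank ℚ L)) ℚ L := (bas L).traceDual

lemma card_emb : Fintype.card (L →+* ℂ) = finrank ℚ L :=
  NumberField.Embeddings.card L ℂ

lemma sum_dbas_bas [DecidableEq (L →+* ℂ)] (σ τ : L →+* ℂ) :
    ∑ b, σ (dbas L b) * τ (bas L b) = if σ = τ then 1 else 0 := by
  let M : Matrix (L →+* ℂ) (Fin (finrank ℚ L)) ℂ := fun τ b => τ (bas L b)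
  let N : Matrix (Fin (finrank ℚ L)) (L →+* ℂ) ℂ := fun b σ => σ (dbas L b)
  have hNM : N * M = 1 := by
    ext b c
    rw [Matrix.mul_apply]
    simp only [N, M, ← map_mul]
    rw [sum_emb, dbas, Basis.trace_traceDual_mul]
    by_cases h : b = c
    · subst h; simp
    · rw [if_neg (fun h' => h h'.symm), Matrix.one_apply_ne h]; simp
  have hMN : M * N = 1 := by
    have e : (L →+* ℂ) ≃ Fin (finrank ℚ L) := Fintype.equivFinOfCardEq card_emb
    exact (Matrix.mul_eq_one_comm_of_equiv e.symm).mp hNM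
  have h := congrFun (congrFun hMN τ) σ
  rw [Matrix.mul_apply] at h
  simp only [N, M] at h
  have h2 : ∑ b, σ (dbas L b) * τ (bas L b) = ∑ b, τ (bas L b) * σ (dbas L b) :=
    Finset.sum_congr rfl (fun b _ => mul_comm _ _)
  rw [h2, h, Matrix.one_apply]
  by_cases h3 : σ = τ
  · subst h3; simp
  · rw [if_neg h3, if_neg (fun h' => h3 h'.symm)]

lemma sum_trace_dbas (x : L) : ∑ b, (Algebra.trace ℚ L (x * dbas L b)) • bas L b = x := by
  have h := (bas L).sum_repr x
  conv_rhs => rw [← h]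
  refine Finset.sum_congr rfl (fun b _ => ?_)
  congr 1
  have h2 := Module.Basis.traceDual_repr_apply (K := ℚ) (L := L) (bas L).traceDual x b
  rw [Module.Basis.traceDual_traceDual] at h2
  rw [h2]
  rfl

end emb

section proj

variable {L : Type*} [Field L] [NumberField L]
variable {V : Type*} [AddCommGroup V] [Module ℂ V]
variable (ρ : L →+* Module.End ℂ V)

/-- the projector on the eigenspace of the embedding `σ` -/
noncomputable def proj (σ : L →+* ℂ) : Module.End ℂ V := ∑ b, σ (dbas L b) • ρ (bas L b)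

lemma rho_ratsmul (q : ℚ) (x : L) : ρ (q • x) = (q : ℂ) • ρ x := by
  rw [Algebra.smul_def, map_mul]
  have h : ρ (algebraMap ℚ L q) = (q : ℂ) • (1 : Module.End ℂ V) := by
    have h1 : (ρ.comp (algebraMap ℚ L)) = (algebraMap ℂ (Module.End ℂ V)).comp (algebraMap ℚ ℂ) :=
      Subsingleton.elim _ _
    have h2 := congrArg (fun f => f q) h1
    simp only [RingHom.comp_apply] at h2
    rw [h2, Algebra.algebraMap_eq_smul_one, eq_ratCast]
  rw [h, smul_mul_assoc, one_mul]

lemma rho_eq_sum (x : L) : ρ x = ∑ σ : L →+* ℂ, σ x • proj ρ σ := by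
  have h1 : ∀ σ : L →+* ℂ, σ x • proj ρ σ = ∑ b, σ (x * dbas L b) • ρ (bas L b) := by
    intro σ
    rw [proj, Finset.smul_sum]
    refine Finset.sum_congr rfl (fun b _ => ?_)
    rw [smul_smul, map_mul]
  simp only [h1]
  rw [Finset.sum_comm]
  simp only [← Finset.sum_smul, sum_emb]
  conv_lhs => rw [← sum_trace_dbas x]
  rw [map_sum]
  refine Finset.sum_congr rfl (fun b _ => ?_)
  rw [rho_ratsmul]

lemma sum_proj : ∑ σ : L →+* ℂ, proj ρ σ = 1 := by
  have h := rho_eq_sum ρ (1 : L)
  simp only [map_one, one_smul] at h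
  exact h.symm

lemma rho_mul_proj (x : L) (σ : L →+* ℂ) : ρ x * proj ρ σ = σ x • proj ρ σ := by
  classical
  have h1 : ρ x * proj ρ σ = ∑ b, σ (dbas L b) • ρ (x * bas L b) := by
    rw [proj, Finset.mul_sum]
    refine Finset.sum_congr rfl (fun b _ => ?_)
    rw [mul_smul_comm, map_mul]
  rw [h1]
  have h2 : ∀ b, σ (dbas L b) • ρ (x * bas L b) =
      ∑ τ : L →+* ℂ, (τ x * (σ (dbas L b) * τ (bas L b))) • proj ρ τ := by
    intro b
    rw [rho_eq_sum ρ (x * bas L b), Finset.smul_sum]
    refine Finset.sum_congr rfl (fun τ _ => ?_)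
    rw [smul_smul, map_mul]
    congr 1
    ring
  simp only [h2]
  rw [Finset.sum_comm]
  simp only [← Finset.sum_smul, ← Finset.mul_sum, sum_dbas_bas]
  simp

lemma proj_mul_proj [DecidableEq (L →+* ℂ)] (σ τ : L →+* ℂ) :
    proj ρ σ * proj ρ τ = if σ = τ then proj ρ τ else 0 := by
  have h2 : proj ρ σ * proj ρ τ = ∑ b, (σ (dbas L b) • ρ (bas L b)) * proj ρ τ := by
    rw [← Finset.sum_mul]; rfl
  have h : ∀ b, (σ (dbas L b) • ρ (bas L b)) * proj ρ τ =
      (σ (dbas L b) * τ (bas L b)) • proj ρ τ := by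
    intro b
    rw [smul_mul_assoc, rho_mul_proj, smul_smul]
  rw [h2, Finset.sum_congr rfl (fun b _ => h b), ← Finset.sum_smul, sum_dbas_bas]
  split_ifs <;> simp

end proj

end Pool.Agent.Helper7
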