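import Pool.Agent.Helper7.Irred
import Pool.Agent.Helper7.Bridge2
import Pool.Agent.Helper8.GL2

/-!
Bridge: real multiplication of any degree.
-/

open scoped ComplexConjugate

namespace Pool.Agent.Helper7

open Module NumberField Pool.Agent.GPC

/-- positivity of the polarisation -/
lemma hnd_pData (A : AbVar) : HNd (pData A) := by
  intro S hS hspan u hu h
  have hbetti : ∀ u ∈ S, A.IsBetti u := fun u hu => (mem_pData_Q A u).mp (hS hu)
  obtain ⟨u', hu', hI⟩ := sub_complex A S hbetti
    (fun v hv => hspan (Submodule.subset_span hv)) u (Submodule.subset_span hu)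
  have hmono : Submodule.span ℝ (S : Set A.H1) ≤ Submodule.span ℝ {u | A.IsBetti u} :=
    Submodule.span_mono (fun v hv => hbetti v hv)
  have h1 : u = A.period (A.zz u) := real_span_betti A (hmono (Submodule.subset_span hu))
  have h2 : u' = A.period (A.zz u') := real_span_betti A (hmono hu')
  have h3 : (pData A).ψ u u' = 0 := by
    refine Submodule.span_induction (p := fun x _ => (pData A).ψ u x = 0)
      (fun x hx => h x hx) (map_zero _) (fun x y _ _ hx hy => ?_) (fun r x _ hx => ?_) hu'
    · rw [map_add, hx, hy, add_zero]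
    · have h4 : r • x = (r : ℂ) • x := by
        funext j; simp
      rw [h4, map_smul, hx, smul_zero]
  have h5 : A.zz u' = Complex.I • A.zz u := by
    funext a
    exact hI a
  rw [h1, h2, h5] at h3
  have h6 : (pData A).ψ (A.period (A.zz u)) (A.period (Complex.I • A.zz u)) =
      2 * Real.pi * Complex.I * ((hermForm A.H (A.zz u) (Complex.I • A.zz u)).im : ℂ) :=
    polForm_period A _ _
  rw [h6, hermForm_smul_right] at h3
  have h7 : ((conj Complex.I * hermForm A.H (A.zz u) (A.zz u)).im : ℝ) =
      - (hermForm A.H (A.zz u) (A.zz u)).re := by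
    rw [Complex.conj_I]
    simp
  rw [h7] at h3
  have h8 : (hermForm A.H (A.zz u) (A.zz u)).re = 0 := by
    have h9 := mul_eq_zero.mp h3
    rcases h9 with h9 | h9
    · exact absurd h9 Complex.two_pi_I_ne_zero
    · have h10 : (-(hermForm A.H (A.zz u) (A.zz u)).re : ℝ) = 0 := by exact_mod_cast h9
      linarith
  by_contra hne
  have h9 : A.zz u ≠ 0 := by
    intro h0
    apply hne
    rw [h1, h0, period_zero]
  have h10 := A.appellHumbert.pos _ h9
  rw [h8] at h10
  exact lt_irrefl _ h10

section rank

variable {κ : Type} [Fintype κ] [DecidableEq κ] {ϖ : ℂ} (P : PData κ ϖ) {K : Type} [Field K]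
    [NumberField K] (ρ : K →+* Module.End ℂ (κ → ℂ)) (hρQ : ∀ x, ∀ v ∈ P.Q, ρ x v ∈ P.Q)

include hρQ in
/-- the degree divides the dimension -/
lemma exists_rank : ∃ r, finrank ℚ K * r = Fintype.card κ := by
  classical
  letI : Module K P.Q := kmod P ρ hρQ
  have hsmul : ∀ (x : K) (v : P.Q), ((x • v : P.Q) : κ → ℂ) = ρ x v := fun _ _ => rfl
  have : IsScalarTower ℚ K P.Q := ⟨fun q x v => Subtype.ext (by
    rw [hsmul, SetLike.val_smul, hsmul, rho_ratsmul, LinearMap.smul_apply]
    funext j; simp [Algebra.smul_def])⟩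
  have hcardι : Fintype.card P.ι = Fintype.card κ := by
    have h1 := Module.finrank_eq_card_basis P.bB
    rw [Module.finrank_fintype_fun_eq_card] at h1
    exact h1.symm
  have hfin : finrank ℚ P.Q = Fintype.card κ := by
    rw [← hcardι]
    apply finrank_span_eq_card
    exact P.bB.linearIndependent.restrict_scalars (by
      intro a b h
      simpa using h)
  have hQfin : Module.Finite ℚ P.Q := Module.Finite.span_of_finite ℚ (Set.finite_range P.bB)
  have : Module.Finite K P.Q := Module.Finite.of_restrictScalars_finite ℚ K P.Q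
  refine ⟨finrank K P.Q, ?_⟩
  rw [Module.finrank_mul_finrank ℚ K P.Q, hfin]

end rank

end Pool.Agent.Helper7
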