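import Mathlib

/-!
Exterior products of bilinear forms.
-/

namespace Pool.Agent.Helper7

open Module Equiv

section defs

variable {W : Type*} [AddCommGroup W] [Module ℂ W]

/-- the even index `2a` -/
def lo {k : ℕ} (a : Fin k) : Fin (2 * k) := ⟨2 * a.1, by omega⟩

/-- the odd index `2a+1` -/
def hi {k : ℕ} (a : Fin k) : Fin (2 * k) := ⟨2 * a.1 + 1, by omega⟩

lemma lo_ne_hi {k : ℕ} (a b : Fin k) : lo a ≠ hi b := by
  intro h
  have := congrArg Fin.val h
  simp only [lo, hi] at this
  omega

lemma lo_inj {k : ℕ} {a b : Fin k} (h : lo a = lo b) : a = b := by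
  have := congrArg Fin.val h
  simp only [lo] at this
  exact Fin.ext (by omega)

lemma hi_inj {k : ℕ} {a b : Fin k} (h : hi a = hi b) : a = b := by
  have := congrArg Fin.val h
  simp only [hi] at this
  exact Fin.ext (by omega)

lemma eq_lo_or_hi {k : ℕ} (r : Fin (2 * k)) : ∃ a : Fin k, r = lo a ∨ r = hi a := by
  refine ⟨⟨r.1 / 2, by omega⟩, ?_⟩
  rcases Nat.even_or_odd' r.1 with ⟨m, hm | hm⟩
  · left; apply Fin.ext; simp only [lo]; omega
  · right; apply Fin.ext; simp only [hi]; omega

lemma update_lo_lo {k : ℕ} {α : Type*} (v : Fin (2 * k) → α) (a b : Fin k) (x : α) :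
    Function.update v (lo a) x (lo b) = if b = a then x else v (lo b) := by
  by_cases h : b = a
  · subst h; simp
  · rw [if_neg h, Function.update_of_ne]
    intro h'; exact h (lo_inj h')

lemma update_hi_hi {k : ℕ} {α : Type*} (v : Fin (2 * k) → α) (a b : Fin k) (x : α) :
    Function.update v (hi a) x (hi b) = if b = a then x else v (hi b) := by
  by_cases h : b = a
  · subst h; simp
  · rw [if_neg h, Function.update_of_ne]
    intro h'; exact h (hi_inj h')

lemma update_lo_hi {k : ℕ} {α : Type*} (v : Fin (2 * k) → α) (a b : Fin k) (x : α) :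
    Function.update v (lo a) x (hi b) = v (hi b) :=
  Function.update_of_ne (fun h => lo_ne_hi a b h.symm) _ _

lemma update_hi_lo {k : ℕ} {α : Type*} (v : Fin (2 * k) → α) (a b : Fin k) (x : α) :
    Function.update v (hi a) x (lo b) = v (lo b) :=
  Function.update_of_ne (lo_ne_hi b a) _ _

/-- the multilinear form `v ↦ ∏_{a<k} β_a (v_{2a}) (v_{2a+1})` -/
noncomputable def prodBilin {k : ℕ} (β : Fin k → (W →ₗ[ℂ] W →ₗ[ℂ] ℂ)) :
    MultilinearMap ℂ (fun _ : Fin (2 * k) => W) ℂ where
  toFun v := ∏ a, β a (v (lo a)) (v (hi a))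
  map_update_add' := by
    intro inst v r x y
    have hinst : inst = instDecidableEqFin (2 * k) := Subsingleton.elim _ _
    subst hinst
    obtain ⟨a, rfl | rfl⟩ := eq_lo_or_hi r
    · simp only [update_lo_lo, update_lo_hi]
      rw [Fintype.prod_eq_mul_prod_compl a, Fintype.prod_eq_mul_prod_compl a,
        Fintype.prod_eq_mul_prod_compl a]
      have h : ∀ z : W, ∏ b ∈ ({a} : Finset (Fin k))ᶜ,
          β b (if b = a then z else v (lo b)) (v (hi b)) =
          ∏ b ∈ ({a} : Finset (Fin k))ᶜ, β b (v (lo b)) (v (hi b)) := by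
        intro z
        refine Finset.prod_congr rfl (fun b hb => ?_)
        rw [Finset.mem_compl, Finset.mem_singleton] at hb
        rw [if_neg hb]
      rw [h, h, h]
      simp only [if_true, map_add, LinearMap.add_apply]
      ring
    · simp only [update_hi_lo, update_hi_hi]
      rw [Fintype.prod_eq_mul_prod_compl a, Fintype.prod_eq_mul_prod_compl a,
        Fintype.prod_eq_mul_prod_compl a]
      have h : ∀ z : W, ∏ b ∈ ({a} : Finset (Fin k))ᶜ,
          β b (v (lo b)) (if b = a then z else v (hi b)) =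
          ∏ b ∈ ({a} : Finset (Fin k))ᶜ, β b (v (lo b)) (v (hi b)) := by
        intro z
        refine Finset.prod_congr rfl (fun b hb => ?_)
        rw [Finset.mem_compl, Finset.mem_singleton] at hb
        rw [if_neg hb]
      rw [h, h, h]
      simp only [if_true, map_add]
      ring
  map_update_smul' := by
    intro inst v r c x
    have hinst : inst = instDecidableEqFin (2 * k) := Subsingleton.elim _ _
    subst hinst
    obtain ⟨a, rfl | rfl⟩ := eq_lo_or_hi r
    · simp only [update_lo_lo, update_lo_hi]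
      rw [Fintype.prod_eq_mul_prod_compl a, Fintype.prod_eq_mul_prod_compl a]
      have h : ∀ z : W, ∏ b ∈ ({a} : Finset (Fin k))ᶜ,
          β b (if b = a then z else v (lo b)) (v (hi b)) =
          ∏ b ∈ ({a} : Finset (Fin k))ᶜ, β b (v (lo b)) (v (hi b)) := by
        intro z
        refine Finset.prod_congr rfl (fun b hb => ?_)
        rw [Finset.mem_compl, Finset.mem_singleton] at hb
        rw [if_neg hb]
      rw [h, h]
      simp only [if_true, map_smul, LinearMap.smul_apply, smul_eq_mul]
      ring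
    · simp only [update_hi_lo, update_hi_hi]
      rw [Fintype.prod_eq_mul_prod_compl a, Fintype.prod_eq_mul_prod_compl a]
      have h : ∀ z : W, ∏ b ∈ ({a} : Finset (Fin k))ᶜ,
          β b (v (lo b)) (if b = a then z else v (hi b)) =
          ∏ b ∈ ({a} : Finset (Fin k))ᶜ, β b (v (lo b)) (v (hi b)) := by
        intro z
        refine Finset.prod_congr rfl (fun b hb => ?_)
        rw [Finset.mem_compl, Finset.mem_singleton] at hb
        rw [if_neg hb]
      rw [h, h]
      simp only [if_true, map_smul, smul_eq_mul]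
      ring

/-- the exterior product of `k` bilinear forms -/
noncomputable def wedge {k : ℕ} (β : Fin k → (W →ₗ[ℂ] W →ₗ[ℂ] ℂ)) :
    W [⋀^Fin (2 * k)]→ₗ[ℂ] ℂ :=
  MultilinearMap.alternatization (prodBilin β)

lemma wedge_apply {k : ℕ} (β : Fin k → (W →ₗ[ℂ] W →ₗ[ℂ] ℂ)) (v : Fin (2 * k) → W) :
    wedge β v = ∑ π : Perm (Fin (2 * k)), ((Equiv.Perm.sign π : ℤ) : ℂ) *
      ∏ a, β a (v (π (lo a))) (v (π (hi a))) := by
  rw [wedge, MultilinearMap.alternatization_apply]
  refine Finset.sum_congr rfl (fun π _ => ?_)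
  rw [Units.smul_def, zsmul_eq_mul]
  rfl

end defs

section lemmas

variable {W : Type*} [AddCommGroup W] [Module ℂ W]

lemma prodBilin_add {k : ℕ} (β : Fin k → (W →ₗ[ℂ] W →ₗ[ℂ] ℂ)) (a : Fin k)
    (x y : W →ₗ[ℂ] W →ₗ[ℂ] ℂ) :
    prodBilin (Function.update β a (x + y)) =
      prodBilin (Function.update β a x) + prodBilin (Function.update β a y) := by
  ext v
  simp only [prodBilin, MultilinearMap.add_apply, MultilinearMap.coe_mk]
  rw [Fintype.prod_eq_mul_prod_compl a, Fintype.prod_eq_mul_prod_compl a,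
    Fintype.prod_eq_mul_prod_compl a]
  have h : ∀ z : W →ₗ[ℂ] W →ₗ[ℂ] ℂ, ∏ b ∈ ({a} : Finset (Fin k))ᶜ,
      (Function.update β a z b) (v (lo b)) (v (hi b)) =
      ∏ b ∈ ({a} : Finset (Fin k))ᶜ, β b (v (lo b)) (v (hi b)) := by
    intro z
    refine Finset.prod_congr rfl (fun b hb => ?_)
    rw [Finset.mem_compl, Finset.mem_singleton] at hb
    rw [Function.update_of_ne hb]
  rw [h, h, h]
  simp only [Function.update_self, LinearMap.add_apply]
  ring

lemma prodBilin_smul {k : ℕ} (β : Fin k → (W →ₗ[ℂ] W →ₗ[ℂ] ℂ)) (a : Fin k) (c : ℂ)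
    (x : W →ₗ[ℂ] W →ₗ[ℂ] ℂ) :
    prodBilin (Function.update β a (c • x)) = c • prodBilin (Function.update β a x) := by
  ext v
  simp only [prodBilin, MultilinearMap.smul_apply, MultilinearMap.coe_mk]
  rw [Fintype.prod_eq_mul_prod_compl a, Fintype.prod_eq_mul_prod_compl a]
  have h : ∀ z : W →ₗ[ℂ] W →ₗ[ℂ] ℂ, ∏ b ∈ ({a} : Finset (Fin k))ᶜ,
      (Function.update β a z b) (v (lo b)) (v (hi b)) =
      ∏ b ∈ ({a} : Finset (Fin k))ᶜ, β b (v (lo b)) (v (hi b)) := by
    intro z
    refine Finset.prod_congr rfl (fun b hb => ?_)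
    rw [Finset.mem_compl, Finset.mem_singleton] at hb
    rw [Function.update_of_ne hb]
  rw [h, h]
  simp only [Function.update_self, LinearMap.smul_apply, smul_eq_mul]
  ring

lemma alternatization_smul {m : ℕ} (c : ℂ) (f : MultilinearMap ℂ (fun _ : Fin m => W) ℂ) :
    MultilinearMap.alternatization (c • f) = c • MultilinearMap.alternatization f := by
  ext v
  rw [AlternatingMap.smul_apply, MultilinearMap.alternatization_apply,
    MultilinearMap.alternatization_apply, Finset.smul_sum]
  refine Finset.sum_congr rfl (fun π _ => ?_)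
  rw [smul_comm]
  rfl

lemma alternatization_domDomCongr {m : ℕ} (f : MultilinearMap ℂ (fun _ : Fin m => W) ℂ)
    (π : Perm (Fin m)) :
    MultilinearMap.alternatization (f.domDomCongr π) =
      Equiv.Perm.sign π • MultilinearMap.alternatization f := by
  ext v
  rw [AlternatingMap.smul_apply, MultilinearMap.alternatization_apply,
    MultilinearMap.alternatization_apply, Finset.smul_sum]
  refine Fintype.sum_equiv (Equiv.mulRight π) _ _ (fun σ => ?_)
  simp only [MultilinearMap.domDomCongr_apply, Equiv.coe_mulRight, smul_smul]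
  congr 1
  rw [Equiv.Perm.sign_mul]
  have : Equiv.Perm.sign π * (Equiv.Perm.sign σ * Equiv.Perm.sign π) = Equiv.Perm.sign σ := by
    rw [mul_comm (Equiv.Perm.sign σ), ← mul_assoc, Int.units_mul_self, one_mul]
  rw [this]

lemma wedge_add {k : ℕ} (β : Fin k → (W →ₗ[ℂ] W →ₗ[ℂ] ℂ)) (a : Fin k)
    (x y : W →ₗ[ℂ] W →ₗ[ℂ] ℂ) :
    wedge (Function.update β a (x + y)) =
      wedge (Function.update β a x) + wedge (Function.update β a y) := by
  rw [wedge, prodBilin_add, map_add]; rfl

lemma wedge_smul {k : ℕ} (β : Fin k → (W →ₗ[ℂ] W →ₗ[ℂ] ℂ)) (a : Fin k) (c : ℂ)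
    (x : W →ₗ[ℂ] W →ₗ[ℂ] ℂ) :
    wedge (Function.update β a (c • x)) = c • wedge (Function.update β a x) := by
  rw [wedge, prodBilin_smul, alternatization_smul]; rfl

lemma wedge_flip {k : ℕ} (β : Fin k → (W →ₗ[ℂ] W →ₗ[ℂ] ℂ)) (a : Fin k) :
    wedge (Function.update β a (β a).flip) = - wedge β := by
  have h : prodBilin (Function.update β a (β a).flip) =
      (prodBilin β).domDomCongr (Equiv.swap (lo a) (hi a)) := by
    ext v
    simp only [prodBilin, MultilinearMap.domDomCongr_apply, MultilinearMap.coe_mk]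
    refine Finset.prod_congr rfl (fun b _ => ?_)
    by_cases hb : b = a
    · subst hb
      rw [Function.update_self, LinearMap.flip_apply, Equiv.swap_apply_left,
        Equiv.swap_apply_right]
    · rw [Function.update_of_ne hb, Equiv.swap_apply_of_ne_of_ne (fun h => hb (lo_inj h))
        (lo_ne_hi _ _), Equiv.swap_apply_of_ne_of_ne (fun h => lo_ne_hi _ _ h.symm)
        (fun h => hb (hi_inj h))]
  rw [wedge, h, alternatization_domDomCongr, Equiv.Perm.sign_swap (lo_ne_hi a a)]
  simp [wedge]

/-- `wedge` takes values in the span of wedges if all arguments lie in the span. -/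
lemma wedge_mem_span {k : ℕ} (G : Set (W →ₗ[ℂ] W →ₗ[ℂ] ℂ))
    (β : Fin k → (W →ₗ[ℂ] W →ₗ[ℂ] ℂ))
    (hβ : ∀ a, β a - (β a).flip ∈ Submodule.span ℂ G) :
    wedge β ∈ Submodule.span ℂ {ω | ∃ γ : Fin k → (W →ₗ[ℂ] W →ₗ[ℂ] ℂ),
      (∀ a, γ a ∈ G) ∧ ω = wedge γ} := by
  classical
  -- replace the entries one after the other
  suffices H : ∀ s : Finset (Fin k), ∀ β : Fin k → (W →ₗ[ℂ] W →ₗ[ℂ] ℂ),
      (∀ a ∈ s, β a - (β a).flip ∈ Submodule.span ℂ G) → (∀ a, a ∉ s → β a ∈ G) →
      wedge β ∈ Submodule.span ℂ {ω | ∃ γ : Fin k → (W →ₗ[ℂ] W →ₗ[ℂ] ℂ),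
        (∀ a, γ a ∈ G) ∧ ω = wedge γ} from
    H Finset.univ β (fun a _ => hβ a) (fun a ha => absurd (Finset.mem_univ a) ha)
  intro s
  induction s using Finset.induction_on with
  | empty =>
    intro β _ h2
    exact Submodule.subset_span ⟨β, fun a => h2 a (Finset.notMem_empty a), rfl⟩
  | insert a s ha ih =>
    intro β h1 h2
    have h3 : (2 : ℂ) • wedge β = wedge (Function.update β a (β a - (β a).flip)) := by
      rw [sub_eq_add_neg, wedge_add, ← neg_one_smul ℂ (β a).flip, wedge_smul, wedge_flip,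
        Function.update_eq_self, neg_one_smul, neg_neg, two_smul]
    have h4 : wedge (Function.update β a (β a - (β a).flip)) ∈
        Submodule.span ℂ {ω | ∃ γ : Fin k → (W →ₗ[ℂ] W →ₗ[ℂ] ℂ),
        (∀ a, γ a ∈ G) ∧ ω = wedge γ} := by
      refine Submodule.span_induction (p := fun x _ => wedge (Function.update β a x) ∈
        Submodule.span ℂ {ω | ∃ γ : Fin k → (W →ₗ[ℂ] W →ₗ[ℂ] ℂ),
        (∀ a, γ a ∈ G) ∧ ω = wedge γ}) ?_ ?_ ?_ ?_ (h1 a (Finset.mem_insert_self a s))
      · intro x hx
        apply ih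
        · intro b hb
          have hba : b ≠ a := fun h => ha (h ▸ hb)
          rw [Function.update_of_ne hba]
          exact h1 b (Finset.mem_insert_of_mem hb)
        · intro b hb
          by_cases hba : b = a
          · subst hba; rw [Function.update_self]; exact hx
          · rw [Function.update_of_ne hba]
            exact h2 b (fun h => (Finset.mem_insert.mp h).elim hba hb)
      · have : wedge (Function.update β a 0) = 0 := by
          have := wedge_smul β a 0 0
          rw [zero_smul, zero_smul] at this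
          exact this
        rw [this]; exact Submodule.zero_mem _
      · intro x y _ _ hx hy
        rw [wedge_add]; exact Submodule.add_mem _ hx hy
      · intro c x _ hx
        rw [wedge_smul]; exact Submodule.smul_mem _ _ hx
    rw [← h3] at h4
    have h5 := Submodule.smul_mem _ ((2 : ℂ)⁻¹) h4
    rw [smul_smul, inv_mul_cancel₀ two_ne_zero, one_smul] at h5
    exact h5

end lemmas

end Pool.Agent.Helper7
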