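import Mathlib

/-!
Existence of derivations of the complex numbers; constants of all derivations are algebraic.
-/

namespace Pool.Agent.Helper7

open MvPolynomial TensorProduct

open scoped IntermediateField.algebraAdjoinAdjoin in
theorem exists_derivation (c : ℂ) (hc : Transcendental ℚ c) :
    ∃ D : Derivation ℚ ℂ ℂ, D c = 1 := by
  classical
  -- a transcendence basis containing `c`
  have h1 : AlgebraicIndepOn ℚ id ({c} : Set ℂ) := by
    have : AlgebraicIndependent ℚ (fun i : ({c} : Set ℂ) => id (i : ℂ)) := by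
      rw [algebraicIndependent_unique_type_iff]
      exact hc
    exact this
  obtain ⟨t, hct, ht⟩ := exists_isTranscendenceBasis_superset h1
  have hcm : c ∈ t := hct rfl
  set v : t → ℂ := Subtype.val with hv
  have hind : AlgebraicIndependent ℚ v := ht.1
  set S := Algebra.adjoin ℚ (Set.range v) with hS
  set F := IntermediateField.adjoin ℚ (Set.range v) with hF
  have hFalg : Algebra.IsAlgebraic F ℂ := ht.isAlgebraic_field
  have hsep : Algebra.IsSeparable F ℂ := inferInstance
  have e1 : Algebra.FormallyEtale F ℂ := Algebra.FormallyEtale.of_isSeparable _ _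
  have e2 : Algebra.FormallyEtale S F := Algebra.FormallyEtale.of_isLocalization (nonZeroDivisors S)
  have e3 : Algebra.FormallyEtale S ℂ := Algebra.FormallyEtale.comp S F ℂ
  -- the derivation on `S`
  set i₀ : t := ⟨c, hcm⟩ with hi₀
  let e : MvPolynomial t ℚ ≃ₐ[ℚ] S := hind.aevalEquiv
  have he : ∀ s : S, (s : ℂ) = aeval v (e.symm s) := by
    intro s
    have h2 := hind.algebraMap_aevalEquiv (e.symm s)
    rw [← h2]
    have h3 : hind.aevalEquiv (e.symm s) = s := e.apply_symm_apply s
    rw [h3]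
    rfl
  let D₀ : Derivation ℚ S ℂ := Derivation.mk'
    ((aeval v).toLinearMap ∘ₗ (pderiv i₀).toLinearMap ∘ₗ e.symm.toLinearMap) (by
      intro a b
      simp only [LinearMap.comp_apply, AlgEquiv.toLinearMap_apply, map_mul,
        AlgHom.toLinearMap_apply]
      rw [show (pderiv i₀).toLinearMap (e.symm a * e.symm b) =
        pderiv i₀ (e.symm a * e.symm b) from rfl, Derivation.leibniz, map_add, smul_eq_mul,
        smul_eq_mul, map_mul, map_mul, ← he, ← he]
      rfl)
  let f : Ω[ℂ⁄ℚ] →ₗ[ℂ] ℂ := (D₀.liftKaehlerDifferential.liftBaseChange ℂ) ∘ₗ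
    (KaehlerDifferential.tensorKaehlerEquivOfFormallyEtale ℚ S ℂ).symm.toLinearMap
  refine ⟨f.compDer (KaehlerDifferential.D ℚ ℂ), ?_⟩
  have hcS : c ∈ S := Algebra.subset_adjoin ⟨i₀, rfl⟩
  have h4 : (algebraMap S ℂ ⟨c, hcS⟩) = c := rfl
  have h5 : (f.compDer (KaehlerDifferential.D ℚ ℂ)) (algebraMap S ℂ ⟨c, hcS⟩) = D₀ ⟨c, hcS⟩ := by
    show (D₀.liftKaehlerDifferential.liftBaseChange ℂ)
      ((KaehlerDifferential.tensorKaehlerEquivOfFormallyEtale ℚ S ℂ).symm
        (KaehlerDifferential.D ℚ ℂ (algebraMap S ℂ ⟨c, hcS⟩))) = _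
    rw [KaehlerDifferential.tensorKaehlerEquivOfFormallyEtale_symm_D_algebraMap,
      LinearMap.liftBaseChange_tmul, one_smul, Derivation.liftKaehlerDifferential_comp_D]
  rw [← h4, h5]
  have h6 : e.symm ⟨c, hcS⟩ = X i₀ := by
    rw [AlgEquiv.symm_apply_eq]
    apply Subtype.ext
    have h2 := hind.algebraMap_aevalEquiv (X i₀)
    rw [aeval_X] at h2
    exact h2.symm
  show aeval v (pderiv i₀ (e.symm ⟨c, hcS⟩)) = 1
  rw [h6, pderiv_X_self, map_one]

/-- constants for all derivations are algebraic -/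
theorem isAlgebraic_of_derivation (c : ℂ) (h : ∀ D : Derivation ℚ ℂ ℂ, D c = 0) :
    IsAlgebraic ℚ c := by
  by_contra hc
  obtain ⟨D, hD⟩ := exists_derivation c hc
  rw [h D] at hD
  exact zero_ne_one hD

/-- derivations kill algebraic numbers -/
theorem derivation_eq_zero (D : Derivation ℚ ℂ ℂ) (c : ℂ) (hc : IsAlgebraic ℚ c) : D c = 0 := by
  have h1 : IsIntegral ℚ c := hc.isIntegral
  set p := minpoly ℚ c with hp
  have h2 : Polynomial.aeval c p = 0 := minpoly.aeval ℚ c
  have h3 : Polynomial.aeval c (Polynomial.derivative p) ≠ 0 := by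
    have := (minpoly.irreducible h1).separable
    exact this.aeval_derivative_ne_zero h2
  have h4 : D (Polynomial.aeval c p) = Polynomial.aeval c (Polynomial.derivative p) • D c := by
    exact Derivation.map_aeval D p c
  rw [h2, map_zero, smul_eq_mul] at h4
  exact (mul_eq_zero.mp h4.symm).resolve_left h3

end Pool.Agent.Helper7
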