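import Pool.Agent.Helper7.GQ

/-!
Adapted coordinates on the first homology of an abelian variety with an action of a number field.
-/

namespace Pool.Agent.Helper7

open Module

section basis

variable {κ : Type*} [Fintype κ] [DecidableEq κ] {ϖ : ℂ} (P : PData κ ϖ)
  {K : Type*} [Field K] [NumberField K] (ρ : K →+* Module.End ℂ (κ → ℂ))
  (hρQ : ∀ x, ∀ v ∈ P.Q, ρ x v ∈ P.Q)

/-- the rational structure as a vector space over the number field -/
@[reducible] noncomputable def kmod : Module K P.Q where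
  smul x v := ⟨ρ x v, hρQ x v v.2⟩
  one_smul v := Subtype.ext (by show ρ 1 (v : κ → ℂ) = v; rw [map_one]; rfl)
  mul_smul x y v := Subtype.ext (by
    show ρ (x * y) (v : κ → ℂ) = ρ x (ρ y (v : κ → ℂ)); rw [map_mul]; rfl)
  smul_zero x := Subtype.ext (map_zero _)
  smul_add x v w := Subtype.ext (map_add _ _ _)
  add_smul x y v := Subtype.ext (by
    show ρ (x + y) (v : κ → ℂ) = ρ x (v : κ → ℂ) + ρ y (v : κ → ℂ); rw [map_add]; rfl)
  zero_smul v := Subtype.ext (by show ρ 0 (v : κ → ℂ) = 0; rw [map_zero]; rfl)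

include hρQ in
lemma exists_Kbasis (r : ℕ) (hdeg : finrank ℚ K * r = Fintype.card κ) :
    ∃ lam : Fin r → (κ → ℂ), (∀ j, lam j ∈ P.Q) ∧
      (∀ u ∈ P.Q, ∃ x : Fin r → K, u = ∑ j, ρ (x j) (lam j)) ∧
      ∃ eb : Basis ((K →+* ℂ) × Fin r) ℂ (κ → ℂ), ∀ σ j, eb (σ, j) = proj ρ σ (lam j) := by
  classical
  letI : Module K P.Q := kmod P ρ hρQ
  have hsmul : ∀ (x : K) (v : P.Q), ((x • v : P.Q) : κ → ℂ) = ρ x v := fun _ _ => rfl
  haveI : IsScalarTower ℚ K P.Q := ⟨fun q x v => Subtype.ext (by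
    rw [hsmul, SetLike.val_smul, hsmul, rho_ratsmul, LinearMap.smul_apply]
    funext j; simp [Algebra.smul_def])⟩
  have hcardι : Fintype.card P.ι = Fintype.card κ := by
    have h1 := Module.finrank_eq_card_basis P.bB
    rw [Module.finrank_fintype_fun_eq_card] at h1
    exact h1.symm
  have hfin : finrank ℚ P.Q = Fintype.card κ := by
    rw [← hcardι]
    apply finrank_span_eq_card
    exact P.bB.linearIndependent.restrict_scalars (by
      intro a b h
      simpa using h)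
  haveI hQfin : Module.Finite ℚ P.Q := Module.Finite.span_of_finite ℚ (Set.finite_range P.bB)
  haveI : Module.Finite K P.Q := Module.Finite.of_restrictScalars_finite ℚ K P.Q
  have hK : finrank K P.Q = r := by
    have h1 := Module.finrank_mul_finrank ℚ K P.Q
    rw [hfin, ← hdeg] at h1
    exact Nat.eq_of_mul_eq_mul_left Module.finrank_pos h1
  let b : Basis (Fin r) K P.Q := Module.finBasisOfFinrankEq K P.Q hK
  have hgen : ∀ u ∈ P.Q, ∃ x : Fin r → K, u = ∑ j, ρ (x j) (b j : κ → ℂ) := by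
    intro u hu
    refine ⟨fun j => b.repr ⟨u, hu⟩ j, ?_⟩
    have h1 := congrArg Subtype.val (b.sum_repr ⟨u, hu⟩)
    rw [AddSubmonoidClass.coe_finset_sum] at h1
    exact h1.symm
  refine ⟨fun j => b j, fun j => (b j).2, hgen, ?_⟩
  have h1 : ⊤ ≤ Submodule.span ℂ (Set.range (fun t : (K →+* ℂ) × Fin r =>
      proj ρ t.1 (b t.2 : κ → ℂ))) := by
    rw [← P.bB.span_eq, Submodule.span_le]
    rintro _ ⟨i, rfl⟩
    obtain ⟨x, hx⟩ := hgen _ (P.basis_mem i)
    rw [SetLike.mem_coe, hx]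
    refine Submodule.sum_mem _ fun j _ => ?_
    rw [rho_eq_sum, LinearMap.sum_apply]
    refine Submodule.sum_mem _ fun σ _ => ?_
    rw [LinearMap.smul_apply]
    exact Submodule.smul_mem _ _ (Submodule.subset_span ⟨(σ, j), rfl⟩)
  have h2 : Fintype.card ((K →+* ℂ) × Fin r) = finrank ℂ (κ → ℂ) := by
    rw [Fintype.card_prod, card_emb, Fintype.card_fin, hdeg, Module.finrank_fintype_fun_eq_card]
  refine ⟨basisOfTopLeSpanOfCardEqFinrank _ h1 h2, fun σ j => ?_⟩
  rw [coe_basisOfTopLeSpanOfCardEqFinrank]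

/-- adapted coordinates -/
structure LF (gl : Prop) where
  lam : Fin 2 → (κ → ℂ)
  lam_rat : ∀ j, lam j ∈ P.Q
  gen : ∀ u ∈ P.Q, ∃ x : Fin 2 → K, u = ∑ j, ρ (x j) (lam j)
  lam_one : ¬ gl → lam 1 = 0
  co : (K →+* ℂ) → Fin 2 → ((κ → ℂ) →ₗ[ℂ] ℂ)
  hsum : ∀ v, v = ∑ σ, ∑ j, co σ j v • proj ρ σ (lam j)
  co_e : ∀ σ j σ' j', (gl ∨ j = 0) → co σ j (proj ρ σ' (lam j')) =
    open Classical in if σ = σ' ∧ j = j' then 1 else 0
  co_one : ¬ gl → ∀ σ, co σ 1 = 0

include hρQ in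
lemma nonempty_LF_true (hdeg : finrank ℚ K * 2 = Fintype.card κ) : Nonempty (LF P ρ True) := by
  classical
  obtain ⟨lam, h1, h2, eb, heb⟩ := exists_Kbasis P ρ hρQ 2 hdeg
  refine ⟨⟨lam, h1, h2, fun h => absurd trivial h, fun σ j => eb.coord (σ, j), fun v => ?_,
    fun σ j σ' j' _ => ?_, fun h => absurd trivial h⟩⟩
  · conv_lhs => rw [← eb.sum_repr v]
    rw [Fintype.sum_prod_type]
    simp only [heb, Basis.coord_apply]
  · rw [← heb, Basis.coord_apply, Basis.repr_self, Finsupp.single_apply]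
    have h3 : ((σ', j') = (σ, j)) ↔ (σ = σ' ∧ j = j') := by
      rw [Prod.mk.injEq]
      exact ⟨fun h => ⟨h.1.symm, h.2.symm⟩, fun h => ⟨h.1.symm, h.2.symm⟩⟩
    simp only [h3]

include hρQ in
lemma nonempty_LF_false (hdeg : finrank ℚ K = Fintype.card κ) : Nonempty (LF P ρ False) := by
  classical
  obtain ⟨lam, h1, h2, eb, heb⟩ := exists_Kbasis P ρ hρQ 1 (by rw [mul_one, hdeg])
  refine ⟨⟨fun j => if j = 0 then lam 0 else 0, fun j => ?_, fun u hu => ?_, fun _ => by simp,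
    fun σ j => if j = 0 then eb.coord (σ, 0) else 0, fun v => ?_,
    fun σ j σ' j' hj => ?_, fun _ σ => by simp⟩⟩
  · show (if j = 0 then lam 0 else 0) ∈ P.Q
    split_ifs
    · exact h1 0
    · exact Submodule.zero_mem _
  · obtain ⟨x, hx⟩ := h2 u hu
    refine ⟨fun _ => x 0, ?_⟩
    rw [hx, Fin.sum_univ_two, Fin.sum_univ_one]
    simp
  · conv_lhs => rw [← eb.sum_repr v]
    rw [Fintype.sum_prod_type]
    refine Finset.sum_congr rfl fun σ _ => ?_
    rw [Fin.sum_univ_two, Fin.sum_univ_one]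
    simp [heb]
  · have hj0 : j = 0 := hj.resolve_left id
    subst hj0
    rw [if_pos rfl]
    have hfin : ∀ j : Fin 2, j = 0 ∨ j = 1 := by
      intro j; fin_cases j <;> simp
    rcases hfin j' with h | h
    · subst h
      rw [if_pos rfl, ← heb, Basis.coord_apply, Basis.repr_self, Finsupp.single_apply]
      have h3 : ((σ', (0 : Fin 1)) = (σ, 0)) ↔ (σ = σ' ∧ (0 : Fin 2) = 0) := by
        rw [Prod.mk.injEq]
        exact ⟨fun h => ⟨h.1.symm, rfl⟩, fun h => ⟨h.1.symm, rfl⟩⟩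
      simp only [h3]
    · subst h
      rw [if_neg (by simp), map_zero, map_zero, if_neg (by simp)]

end basis

end Pool.Agent.Helper7
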