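import Pool.Agent.Helper7.Types

/-!
Abelian varieties of real type.
-/

namespace Pool.Agent.GPC

/-- An action of the number field `K` on `H_1(A)` through endomorphisms of `A` (tensor `ℚ`), by
self-adjoint operators for the polarisation, such that only the elements of `K` commute with `K`
among the endomorphisms of `A` (tensor `ℚ`). -/
structure RealMult (A : AbVar) (K : Type) [Field K] [NumberField K] where
  ρ : K → A.H1 → A.H1
  one : ∀ v, ρ 1 v = v
  mul : ∀ x y v, ρ (x * y) v = ρ x (ρ y v)
  add : ∀ x y v, ρ (x + y) v = ρ x v + ρ y v
  endo : ∀ x, A.IsEnd (ρ x)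
  rosati : ∀ x, A.IsAdjoint (ρ x) (ρ x)
  centralizer : ∀ f, A.IsEnd f → (∀ x v, f (ρ x v) = ρ x (f v)) → ∃ x, ∀ v, f v = ρ x v

/-- `A` is of real type: a totally real field acts on `A` (up to isogeny) by Rosati-symmetric
endomorphisms and is its own centraliser. For instance `K = ℚ` if `End(A) = ℤ`. Every simple
abelian variety of type I or II in Albert's classification is of real type. -/
def IsRealType (A : AbVar) (K : Type) [Field K] [NumberField K] : Prop :=
  NumberField.IsTotallyReal K ∧ Nonempty (RealMult A K)

end Pool.Agent.GPC
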