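import Pool.Agent.Helper7.J8
import Pool.Agent.Helper7.Bridge2
import Pool.Agent.Helper7.Bridge3
import Pool.Agent.Helper7.RealTypes

/-!
From abelian varieties to the abstract theorem on four-forms.
-/

namespace Pool.Agent.GPC

/-- The factors `A_i`, `i ∉ S`, (with complex multiplication by `K_i`) are elliptic curves and
surfaces; the fields `K_i` of degree four do not contain an imaginary quadratic field (i.e. the
surfaces are simple), the fields `K_i` of degree two are pairwise not isomorphic (i.e. the elliptic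
curves are pairwise not isogenous). -/
def SmallCM {I : Type} (K : I → Type) [∀ i, Field (K i)] [∀ i, NumberField (K i)]
    (S : Finset I) : Prop :=
  (∀ i ∉ S, Module.finrank ℚ (K i) ≤ 4) ∧
  (∀ i ∉ S, Module.finrank ℚ (K i) = 4 → ∀ (x : K i) (q : ℚ), q < 0 → x ^ 2 ≠ (q : K i)) ∧
  (∀ i ∉ S, ∀ j ∉ S, i ≠ j → Module.finrank ℚ (K i) = 2 → Module.finrank ℚ (K j) = 2 →
    IsEmpty (K i ≃+* K j))

end Pool.Agent.GPC

namespace Pool.Agent.Helper7

open Module NumberField LieAlgebra

attribute [local instance 100] LieRing.ofAssociativeRing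

open Pool.Agent.GPC
open Pool.Agent.Helper84 (xi cm_match omf_match)

set_option linter.unusedSectionVars false

/-- the action as ring homomorphism -/
noncomputable def reRho {A : AbVar} {K : Type} [Field K] [NumberField K] (C : RealMult A K) :
    K →+* Module.End ℂ A.H1 where
  toFun x := IsLinearMap.mk' _ (C.endo x).linear
  map_one' := LinearMap.ext C.one
  map_mul' x y := LinearMap.ext (C.mul x y)
  map_add' x y := LinearMap.ext (C.add x y)
  map_zero' := LinearMap.ext fun v => by
    have h := C.add 0 0 v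
    rw [add_zero] at h
    have h2 : C.ρ 0 v = 0 := by
      have h3 := congrArg (fun w => w - C.ρ 0 v) h
      simp only [sub_self, add_sub_cancel_right] at h3
      exact h3.symm
    exact h2

theorem nonempty_RF (A : AbVar) (K : Type) [Field K] [NumberField K] (C : RealMult A K) :
    ∃ F : RF (pData A) K, finrank ℚ K * F.r = 2 * A.g := by
  have hQ : ∀ x, ∀ v ∈ (pData A).Q, reRho C x v ∈ (pData A).Q :=
    fun x v hv => (isDRB_of_isEnd A _ (C.endo x)).rat v hv
  obtain ⟨r, hr⟩ := exists_rank (pData A) (reRho C) hQ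
  obtain ⟨lam, h1, h2, eb, h3⟩ := exists_Kbasis (pData A) (reRho C) hQ r hr
  refine ⟨{ ρ := reRho C
            hρ := fun x => isDRB_of_isEnd A _ (C.endo x)
            hros := fun x u v => C.rosati x u v
            hcen := fun f hf hc => C.centralizer f (isEnd_of_isDRB A f hf) hc
            hnd := hnd_pData A
            r := r
            lam := lam
            lam_rat := h1
            gen := h2
            eb := eb
            heb := h3 }, ?_⟩
  rw [card_index] at hr
  exact hr

section dims

variable {I : Type} [Fintype I] [DecidableEq I] {n : I → ℕ}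
  {κ : I → Type} [∀ i, Fintype (κ i)] [∀ i, DecidableEq (κ i)] {ϖ : ℂ}
  {P : ∀ i, PData (κ i) ϖ}
  {K : I → Type} [∀ i, Field (K i)] [∀ i, NumberField (K i)]
  {F : ∀ i, FS (P i) (K i)}
  {α : (HW κ n) [⋀^Fin 4]→ₗ[ℂ] ℂ}

/-- the rank, zero for CM type -/
def FS.rk {κ : Type} [Fintype κ] [DecidableEq κ] {ϖ : ℂ} {P : PData κ ϖ} {K : Type} [Field K]
    [NumberField K] : FS P K → ℕ
  | .inl F => F.r
  | .inr _ => 0

lemma dimA_le (a : At n K) (ha : (F a.1).isLeft) : dimA α F a ≤ (F a.1).rk := by
  obtain ⟨F', hF'⟩ := Sum.isLeft_iff.mp ha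
  have hρ : (F a.1).ρ = F'.ρ := by rw [hF']; rfl
  have hrk : (F a.1).rk = F'.r := by rw [hF']; rfl
  rw [hrk]
  have h1 : (Set.range (F'.e a.2.2)).finrank ℂ ≤ Fintype.card (Fin F'.r) := finrank_range_le_card _
  rw [Fintype.card_fin] at h1
  refine le_trans ?_ h1
  let g : Vs n P F (toM n α) (pl n a) →ₗ[ℂ] Submodule.span ℂ (Set.range (F'.e a.2.2)) :=
    LinearMap.codRestrict _ ((LinearMap.proj a.1 : MM κ →ₗ[ℂ] (κ a.1 → ℂ)) ∘ₗ
      (Vs n P F (toM n α) (pl n a)).toSubmodule.subtype) (fun x => by
        rw [F'.span_e, ← hρ]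
        exact ⟨(x : MM κ) a.1, Vs_proj n P F (toM n α) (pl n a) x⟩)
  refine LinearMap.finrank_le_finrank_of_injective (f := g) ?_
  intro x y hxy
  exact Vs_ext n P F (toM n α) (pl n a) x y (congrArg Subtype.val hxy)

/-- the total dimension of the atoms of real type -/
lemma sum_dimA_le (S : Finset (At n K)) (hS : ∀ a ∈ S, (F a.1).isLeft) :
    ∑ a ∈ S, dimA α F a ≤ ∑ i, n i * (finrank ℚ (K i) * (F i).rk) := by
  classical
  calc ∑ a ∈ S, dimA α F a ≤ ∑ a ∈ S, (F a.1).rk :=
        Finset.sum_le_sum fun a ha => dimA_le a (hS a ha)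
    _ ≤ ∑ a : At n K, (F a.1).rk :=
        Finset.sum_le_sum_of_subset (Finset.subset_univ S)
    _ = ∑ i, n i * (finrank ℚ (K i) * (F i).rk) := by
        rw [Fintype.sum_sigma]
        refine Finset.sum_congr rfl fun i _ => ?_
        show ∑ _y : Fin (n i) × (K i →+* ℂ), (F i).rk = _
        rw [Finset.sum_const, Finset.card_univ, Fintype.card_prod, Fintype.card_fin, card_emb,
          smul_eq_mul, mul_assoc]

end dims

section final

variable {I : Type} [Fintype I] (A : I → AbVar) (n : I → ℕ) (K : I → Type)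
  [∀ i, Field (K i)] [∀ i, NumberField (K i)]

/-- from the abstract span to sums of products of pull-backs of polarisations -/
lemma isDivisorial_of_span [DecidableEq I] (k : ℕ) (α : Form A n (2 * k))
    (h1 : α ∈ Submodule.span ℚ {ω | ∃ γ : Fin k → (H1 A n →ₗ[ℂ] H1 A n →ₗ[ℂ] ℂ),
      (∀ a, γ a ∈ GW n (fun i => pData (A i))) ∧ ω = wedge γ}) : IsDivisorial A n k α := by
  rw [Submodule.mem_span_set'] at h1
  obtain ⟨m, c, ω, hω⟩ := h1
  refine ⟨m, c, fun j => (ω j : Form A n (2 * k)), fun j => ?_, fun v => ?_⟩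
  · obtain ⟨γ, hγ, hω⟩ := (ω j).2
    choose i h hh hic using hγ
    refine ⟨i, fun a => h a, fun a => ?_, fun v => ?_⟩
    · have hcomp : ∀ (v : H1 A n), h a v = ∑ j, ∑ m, (h a ∘ₗ slotL n j m) (v j m) := by
        intro v
        conv_lhs => rw [← sum_slot n v]
        simp only [map_sum]
        rfl
      refine ⟨(h a).isLinear, fun v hv => ?_, fun v hv => ?_, fun v hv b => ?_⟩
      · change (A (i a)).IsBetti (h a v)
        rw [isBetti_iff, hcomp]
        refine Submodule.sum_mem _ fun j _ => Submodule.sum_mem _ fun m _ => ?_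
        rw [← isBetti_iff]
        exact ((isDRB_iff _ _ _).mp (hh a j m)).1 _ (hv j m)
      · change (A (i a)).IsDeRham (h a v)
        rw [hcomp]
        intro b
        rw [Finset.sum_apply]
        refine isAlg_sum _ _ fun j _ => ?_
        rw [Finset.sum_apply]
        refine isAlg_sum _ _ fun m _ => ?_
        exact ((isDRB_iff _ _ _).mp (hh a j m)).2 _ (hv j m) b
      · change (h a v) (.inl b) = 0
        rw [hcomp, Finset.sum_apply]
        refine Finset.sum_eq_zero fun j _ => ?_
        rw [Finset.sum_apply]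
        refine Finset.sum_eq_zero fun m _ => ?_
        exact hom_fil (A j) (A (i a)) (h a ∘ₗ slotL n j m) (LinearMap.isLinear _)
          ((isDRB_iff _ _ _).mp (hh a j m)).1 ((isDRB_iff _ _ _).mp (hh a j m)).2 _ (hv j m) b
    · change (ω j : Form A n (2 * k)) v = _
      have h5 : (ω j : Form A n (2 * k)) v = wedge γ v := by rw [hω]
      rw [h5, wedge_apply]
      refine Finset.sum_congr rfl fun π _ => ?_
      congr 1
      refine Finset.prod_congr rfl fun a _ => ?_
      rw [hic a]
      rfl
  · rw [← hω, alt_sum_apply]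
    refine Finset.sum_congr rfl fun j _ => ?_
    rw [AlternatingMap.smul_apply, Algebra.smul_def, eq_ratCast]

theorem main_J (hT : ∀ i, NotProportional (A i)) (S : Finset I)
    (hR : ∀ i ∈ S, IsRealType (A i) (K i)) (hC : ∀ i ∉ S, IsCMType (A i) (K i))
    (hdim : ∑ i ∈ S, n i * (A i).g ≤ 4)
    (h : OddMultiplicityFree K ∨ (SmallCM K S ∧ ∑ i, n i * (A i).g ≤ 4))
    (α : Form A n (2 * 2)) : IsGrothendieck A n 2 α ↔ IsDivisorial A n 2 α := by
  classical
  refine ⟨?_, isGrothendieck_of_isDivisorial A n 2 α⟩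
  rintro ⟨hα1, hα2⟩
  have hF : ∀ i, ∃ F : FS (pData (A i)) (K i), (F.isLeft ↔ i ∈ S) ∧
      (i ∈ S → finrank ℚ (K i) * F.rk = 2 * (A i).g) ∧ (i ∉ S → F.rk = 0) := by
    intro i
    by_cases hi : i ∈ S
    · obtain ⟨F, hF⟩ := nonempty_RF (A i) (K i) (Classical.choice (hR i hi).2)
      exact ⟨.inl F, ⟨fun _ => hi, fun _ => rfl⟩, fun _ => hF, fun h => absurd hi h⟩
    · obtain ⟨h1, ⟨C⟩⟩ := hC i hi
      exact ⟨.inr ⟨cmFac (A i) (K i) C (hT i), fun h => h⟩,
        ⟨fun h => by simp at h, fun h => absurd h hi⟩, fun h => absurd h hi, fun _ => rfl⟩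
  choose F hFl hFr hF0 using hF
  have hB : ∀ v : Fin (2 * 2) → HW (fun i => Fin (A i).g ⊕ Fin (A i).g) n,
      (∀ r, IsRatP n (fun i => pData (A i)) (v r)) →
      ∃ q : ℚ, α v = (2 * Real.pi * Complex.I) ^ 2 * q := by
    intro v hv
    apply hα2
    intro r i m
    exact (mem_pData_Q _ _).mp (hv r i m)
  have hcmf : ∀ i, i ∉ S → finrank ℚ (K i) = 2 * (A i).g := by
    intro i hi
    obtain ⟨h1, ⟨C⟩⟩ := hC i hi
    exact C.degree
  have hsum : ∀ T : Finset (At n K), (∀ a ∈ T, (F a.1).isLeft) → ∑ a ∈ T, dimA α F a ≤ 8 := by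
    intro T hTl
    refine (sum_dimA_le T hTl).trans ?_
    have h1 : ∑ i, n i * (finrank ℚ (K i) * (F i).rk) = ∑ i ∈ S, n i * (2 * (A i).g) := by
      rw [← Finset.sum_subset (Finset.subset_univ S) (fun i _ hi => by
        rw [hF0 i hi, mul_zero, mul_zero])]
      exact Finset.sum_congr rfl fun i hi => by rw [hFr i hi]
    rw [h1]
    have h2 : ∑ i ∈ S, n i * (2 * (A i).g) = 2 * ∑ i ∈ S, n i * (A i).g := by
      rw [Finset.mul_sum]
      exact Finset.sum_congr rfl fun i _ => by ring
    omega
  -- matching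
  have hU := relS_odd n (fun i => pData (A i)) F (toM n α) (fun i hi σ => by
    have := (hR i ((hFl i).mp hi)).1
    exact ComplexEmbedding.isReal_iff.mp (IsTotallyReal.complexEmbedding_isReal σ))
  have hW : ∀ i, i ∉ S → ∃ w : Emb K → ℚ, IsOdd K w ∧ (∀ j σ, j ≠ i → w ⟨j, σ⟩ = 0) ∧
      w ∉ relS n (fun i => pData (A i)) F (toM n α) := fun i hi =>
    relS_ne n (fun i => pData (A i)) F (toM n α) Complex.two_pi_I_ne_zero hB hα1 i
      (fun h => hi ((hFl i).mp h))
  have hm : Match α F := by
    intro t ht hinj hrel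
    have ht' : ∀ r, (t r).1 ∉ S := fun r h => ht r ((hFl _).mpr h)
    rcases h with hfree | ⟨⟨hs1, hs2, hs3⟩, hs4⟩
    · obtain ⟨π, h1, h2⟩ := omf_match hfree hU (fun r => pl n (t r))
        (fun r => (hC _ (ht' r)).choose) (fun r => hW _ (ht' r)) hrel
      refine ⟨π, ?_, ?_⟩
      · have h3 : (fun s => xi (pl n (t (π 0))) s + xi (pl n (t (π 1))) s) = 0 := funext h1
        rw [h3]
        exact Submodule.zero_mem _
      · have h3 : (fun s => xi (pl n (t (π 2))) s + xi (pl n (t (π 3))) s) = 0 := funext h2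
        rw [h3]
        exact Submodule.zero_mem _
    · have hn' : ∀ i, (if i ∈ S then 0 else n i) ≠ 0 → i ∉ S := by
        intro i h1 h2
        rw [if_pos h2] at h1
        exact h1 rfl
      refine cm_match K (fun i => if i ∈ S then 0 else n i)
        (fun i hi => (hC i (hn' i hi)).choose) (fun i hi => ?_)
        (fun i hi h4 => hs2 i (hn' i hi) h4)
        (fun i j hij hi hj h2 h2' => hs3 i (hn' i hi) j (hn' j hj) hij h2 h2') ?_ _ hU
        (fun i hi => hW i (hn' i hi)) (fun r => pl n (t r)) (fun s => ?_) hrel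
      · have h1 := hs1 i (hn' i hi)
        have h2 := hcmf i (hn' i hi)
        have h3 : 0 < finrank ℚ (K i) := finrank_pos
        omega
      · have h1 : ∀ i, (if i ∈ S then 0 else n i) * finrank ℚ (K i) ≤ 2 * (n i * (A i).g) := by
          intro i
          by_cases hi : i ∈ S
          · rw [if_pos hi, zero_mul]; exact Nat.zero_le _
          · rw [if_neg hi, hcmf i hi]
            exact le_of_eq (by ring)
        refine (Finset.sum_le_sum fun i _ => h1 i).trans ?_
        rw [← Finset.mul_sum]
        omega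
      · by_cases hs : s.1 ∈ S
        · have h1 : (Finset.univ.filter fun r => pl n (t r) = s) = ∅ := by
            apply Finset.filter_eq_empty_iff.mpr
            intro r _ hr
            apply ht' r
            have h2 : (pl n (t r)).1 = s.1 := by rw [hr]
            exact h2 ▸ hs
          rw [h1]
          exact Nat.zero_le _
        · rw [if_neg hs]
          have hsub : (Finset.univ.filter (fun r => pl n (t r) = s)).image t ⊆
              Finset.univ.image (fun m : Fin (n s.1) => (⟨s.1, m, s.2⟩ : At n K)) := by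
            intro a ha
            obtain ⟨r, hr, rfl⟩ := Finset.mem_image.mp ha
            have h2 := (Finset.mem_filter.mp hr).2
            generalize t r = a at h2
            obtain ⟨i, m, σ⟩ := a
            subst h2
            exact Finset.mem_image.mpr ⟨m, Finset.mem_univ _, rfl⟩
          calc (Finset.univ.filter (fun r => pl n (t r) = s)).card
              = ((Finset.univ.filter (fun r => pl n (t r) = s)).image t).card :=
                (Finset.card_image_of_injective _ hinj).symm
            _ ≤ _ := Finset.card_le_card hsub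
            _ ≤ _ := Finset.card_image_le
            _ = n s.1 := by rw [Finset.card_univ, Fintype.card_fin]
  have h1 := abstract_of_span n (fun i => pData (A i)) Complex.two_pi_I_ne_zero α hB hα1
    (family_J Complex.two_pi_I_ne_zero hB hα1 hm hsum)
  exact isDivisorial_of_span A n 2 α h1

end final

end Pool.Agent.Helper7
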