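import Mathlib

/-!
A Goursat lemma for Lie algebras mapping onto copies of `sl_2`.
-/

namespace Pool.Agent.Helper7

open Matrix

/-- the matrix unit `E` -/
def mE : Matrix (Fin 2) (Fin 2) ℂ := !![0, 1; 0, 0]

/-- the matrix unit `F` -/
def mF : Matrix (Fin 2) (Fin 2) ℂ := !![0, 0; 1, 0]

/-- the diagonal matrix `H` -/
def mH : Matrix (Fin 2) (Fin 2) ℂ := !![1, 0; 0, -1]

lemma mE00 : mE 0 0 = 0 := rfl
lemma mE01 : mE 0 1 = 1 := rfl
lemma mE10 : mE 1 0 = 0 := rfl
lemma mE11 : mE 1 1 = 0 := rfl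
lemma mF00 : mF 0 0 = 0 := rfl
lemma mF01 : mF 0 1 = 0 := rfl
lemma mF10 : mF 1 0 = 1 := rfl
lemma mF11 : mF 1 1 = 0 := rfl
lemma mH00 : mH 0 0 = 1 := rfl
lemma mH01 : mH 0 1 = 0 := rfl
lemma mH10 : mH 1 0 = 0 := rfl
lemma mH11 : mH 1 1 = -1 := rfl

lemma brEF : mE * mF - mF * mE = mH := by
  ext i j; fin_cases i <;> fin_cases j <;> simp [mE, mF, mH, Matrix.mul_apply, Fin.sum_univ_two]

lemma brHE : mH * mE - mE * mH = (2 : ℂ) • mE := by
  ext i j; fin_cases i <;> fin_cases j <;> simp [mE, mH, Matrix.mul_apply, Fin.sum_univ_two] <;>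
    norm_num

lemma brHF : mH * mF - mF * mH = (-2 : ℂ) • mF := by
  ext i j; fin_cases i <;> fin_cases j <;> simp [mF, mH, Matrix.mul_apply, Fin.sum_univ_two] <;>
    norm_num

lemma tr_mE : mE.trace = 0 := by simp [mE, trace_fin_two]
lemma tr_mF : mF.trace = 0 := by simp [mF, trace_fin_two]
lemma tr_mH : mH.trace = 0 := by simp [mH, trace_fin_two]

lemma expand_mat (z : Matrix (Fin 2) (Fin 2) ℂ) :
    z = z 0 1 • mE + z 1 0 • mF + ((z 0 0 - z 1 1) / 2) • mH + (z.trace / 2) • 1 := by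
  ext i j
  fin_cases i <;> fin_cases j <;> simp [mE, mF, mH, trace_fin_two] <;> ring

lemma mem_of_EFH (K : Submodule ℂ (Matrix (Fin 2) (Fin 2) ℂ)) (hE : mE ∈ K) (hF : mF ∈ K)
    (hH : mH ∈ K) (z : Matrix (Fin 2) (Fin 2) ℂ) (hz : z.trace = 0) : z ∈ K := by
  rw [expand_mat z, hz, zero_div, zero_smul, add_zero]
  exact K.add_mem (K.add_mem (K.smul_mem _ hE) (K.smul_mem _ hF)) (K.smul_mem _ hH)

/-- an ideal-like subspace is everything -/
lemma ideal_top (K : Submodule ℂ (Matrix (Fin 2) (Fin 2) ℂ))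
    (h : ∀ x : Matrix (Fin 2) (Fin 2) ℂ, x.trace = 0 → ∀ y ∈ K, x * y - y * x ∈ K)
    (z₀ : Matrix (Fin 2) (Fin 2) ℂ) (hz₀ : z₀ ∈ K) (ht : z₀.trace = 0) (hne : z₀ ≠ 0)
    (z : Matrix (Fin 2) (Fin 2) ℂ) (hz : z.trace = 0) : z ∈ K := by
  have hEH : mE ∈ K → mH ∈ K := by
    intro hE
    have h1 := h mF tr_mF mE hE
    have h2 : mF * mE - mE * mF = (-1 : ℂ) • mH := by rw [← brEF]; simp
    rw [h2] at h1
    have h3 := K.smul_mem (-1 : ℂ) h1
    rwa [smul_smul, neg_one_mul, neg_neg, one_smul] at h3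
  have hFH : mF ∈ K → mH ∈ K := by
    intro hF
    have h1 := h mE tr_mE mF hF
    rwa [brEF] at h1
  have hHE : mH ∈ K → mE ∈ K := by
    intro hH
    have h1 := h mE tr_mE mH hH
    have h2 : mE * mH - mH * mE = (-2 : ℂ) • mE := by
      have := brHE
      rw [← neg_sub, this, neg_smul]
    rw [h2] at h1
    have h3 := K.smul_mem (-2 : ℂ)⁻¹ h1
    rwa [smul_smul, inv_mul_cancel₀ (by norm_num), one_smul] at h3
  have hHF : mH ∈ K → mF ∈ K := by
    intro hH
    have h1 := h mF tr_mF mH hH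
    have h2 : mF * mH - mH * mF = (2 : ℂ) • mF := by
      have := brHF
      rw [← neg_sub, this, neg_smul, neg_neg]
    rw [h2] at h1
    have h3 := K.smul_mem (2 : ℂ)⁻¹ h1
    rwa [smul_smul, inv_mul_cancel₀ two_ne_zero, one_smul] at h3
  have hH : mH ∈ K := by
    by_cases hc : z₀ 1 0 = 0
    · by_cases hb : z₀ 0 1 = 0
      · -- diagonal
        have h1 : z₀ = z₀ 0 0 • mH := by
          rw [trace_fin_two] at ht
          have ht' : z₀ 1 1 = - z₀ 0 0 := by linear_combination ht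
          ext i j
          fin_cases i <;> fin_cases j <;> simp [mH, hc, hb, ht']
        have h2 : z₀ 0 0 ≠ 0 := by
          intro h3
          rw [h3, zero_smul] at h1
          exact hne h1
        have h3 := K.smul_mem (z₀ 0 0)⁻¹ hz₀
        rwa [h1, smul_smul, Matrix.smul_apply, show (mH 0 0 : ℂ) = 1 by simp [mH], smul_eq_mul,
          mul_one, inv_mul_cancel₀ h2, one_smul] at h3
      · apply hFH
        have h1 := h mF tr_mF _ (h mF tr_mF z₀ hz₀)
        have h2 : mF * (mF * z₀ - z₀ * mF) - (mF * z₀ - z₀ * mF) * mF =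
            (-2 * z₀ 0 1) • mF := by
          ext i j
          fin_cases i <;> fin_cases j <;>
            simp only [Matrix.mul_apply, Matrix.sub_apply, Matrix.smul_apply, Fin.sum_univ_two,
              smul_eq_mul, Fin.zero_eta, Fin.mk_one, mF00, mF01, mF10, mF11] <;> ring
        rw [h2] at h1
        have h3 := K.smul_mem (-2 * z₀ 0 1)⁻¹ h1
        rwa [smul_smul, inv_mul_cancel₀ (mul_ne_zero (by norm_num) hb), one_smul] at h3
    · apply hEH
      have h1 := h mE tr_mE _ (h mE tr_mE z₀ hz₀)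
      have h2 : mE * (mE * z₀ - z₀ * mE) - (mE * z₀ - z₀ * mE) * mE =
          (-2 * z₀ 1 0) • mE := by
        ext i j
        fin_cases i <;> fin_cases j <;>
          simp only [Matrix.mul_apply, Matrix.sub_apply, Matrix.smul_apply, Fin.sum_univ_two,
            smul_eq_mul, Fin.zero_eta, Fin.mk_one, mE00, mE01, mE10, mE11] <;> ring
      rw [h2] at h1
      have h3 := K.smul_mem (-2 * z₀ 1 0)⁻¹ h1
      rwa [smul_smul, inv_mul_cancel₀ (mul_ne_zero (by norm_num) hc), one_smul] at h3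
  exact mem_of_EFH K (hHE hH) (hHF hH) hH z hz

/-- a pair of matrices satisfying the relations of `sl_2` is conjugate to the standard one -/
lemma exists_conj (e f : Matrix (Fin 2) (Fin 2) ℂ) (he : e.trace = 0) (hf : f.trace = 0)
    (he0 : e ≠ 0)
    (h1 : (e * f - f * e) * e - e * (e * f - f * e) = (2 : ℂ) • e)
    (h2 : (e * f - f * e) * f - f * (e * f - f * e) = (-2 : ℂ) • f) :
    ∃ Q : Matrix (Fin 2) (Fin 2) ℂ, Q.det ≠ 0 ∧ e * Q = Q * mE ∧ f * Q = Q * mF := by
  have sq : ∀ a b : Matrix (Fin 2) (Fin 2) ℂ, a.trace = 0 → ∀ c : ℂ, c ≠ 0 →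
      b * a - a * b = c • a → a * a = 0 := by
    intro a b ha c hc hab
    have h3 : (a * a).trace = 0 := by
      have h4 : ((b * a - a * b) * a).trace = 0 := by
        rw [sub_mul, trace_sub, mul_assoc, mul_assoc, trace_mul_comm b, ← mul_assoc,
          mul_assoc a a b, trace_mul_comm a (a * b), sub_eq_zero, mul_assoc]
      rw [hab, smul_mul_assoc, trace_smul, smul_eq_mul] at h4
      exact (mul_eq_zero.mp h4).resolve_left hc
    rw [trace_fin_two] at ha
    have ha' : a 1 1 = - a 0 0 := by linear_combination ha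
    simp only [trace_fin_two, Matrix.mul_apply, Fin.sum_univ_two, ha'] at h3
    ext i j
    fin_cases i <;> fin_cases j <;>
      simp only [Matrix.mul_apply, Fin.sum_univ_two, ha', Fin.zero_eta, Fin.mk_one,
        Matrix.zero_apply]
    · linear_combination h3 / 2
    · ring
    · ring
    · linear_combination h3 / 2
  have hee : e * e = 0 := sq e _ he 2 two_ne_zero h1
  have hff : f * f = 0 := sq f _ hf (-2) (by norm_num) h2
  have hefe : e * f * e = e := by
    have h3 : (e * f - f * e) * e - e * (e * f - f * e) = (2 : ℂ) • (e * f * e) := by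
      have h4 : (e * f - f * e) * e - e * (e * f - f * e) =
        e * f * e - f * (e * e) - (e * e) * f + e * f * e := by noncomm_ring
      rw [h4, hee, mul_zero, zero_mul, two_smul]; abel
    rw [h3] at h1
    have h5 := congrArg (fun m => (2 : ℂ)⁻¹ • m) h1
    simpa [smul_smul] using h5
  obtain ⟨j, hj⟩ : ∃ j, e *ᵥ (Pi.single j 1) ≠ 0 := by
    by_contra hcon
    push Not at hcon
    apply he0
    ext i j
    have := congrFun (hcon j) i
    rw [Matrix.mulVec_single_one] at this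
    exact this
  obtain ⟨v0, hv0⟩ : ∃ v0, v0 = e *ᵥ (Pi.single j (1 : ℂ)) := ⟨_, rfl⟩
  rw [← hv0] at hj
  have ev0 : e *ᵥ v0 = 0 := by rw [hv0, mulVec_mulVec, hee, zero_mulVec]
  have ev1 : e *ᵥ (f *ᵥ v0) = v0 := by
    rw [hv0, mulVec_mulVec, mulVec_mulVec, hefe]
  have fv1 : f *ᵥ (f *ᵥ v0) = 0 := by rw [mulVec_mulVec, hff, zero_mulVec]
  obtain ⟨Q, hQ⟩ : ∃ Q : Matrix (Fin 2) (Fin 2) ℂ, Q = fun i j => ![v0, f *ᵥ v0] j i := ⟨_, rfl⟩
  have hQ0 : ∀ i, Q i 0 = v0 i := fun i => by rw [hQ]; rfl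
  have hQ1 : ∀ i, Q i 1 = (f *ᵥ v0) i := fun i => by rw [hQ]; rfl
  refine ⟨Q, ?_, ?_, ?_⟩
  · intro hdet
    obtain ⟨w, hw, hQw⟩ := Matrix.exists_mulVec_eq_zero_iff.mpr hdet
    have h3 : w 0 • v0 + w 1 • (f *ᵥ v0) = 0 := by
      ext i
      have := congrFun hQw i
      simp only [Matrix.mulVec, dotProduct, Fin.sum_univ_two, hQ0, hQ1, Pi.zero_apply] at this
      simp only [Pi.add_apply, Pi.smul_apply, smul_eq_mul, Pi.zero_apply]
      rw [← this]
      simp only [Matrix.mulVec, dotProduct, Fin.sum_univ_two]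
      ring
    have h4 := congrArg (fun x => e *ᵥ x) h3
    simp only [mulVec_add, mulVec_smul, ev0, ev1, smul_zero, zero_add, mulVec_zero] at h4
    have h5 : w 1 = 0 := (smul_eq_zero.mp h4).resolve_right hj
    rw [h5, zero_smul, add_zero] at h3
    have h6 : w 0 = 0 := (smul_eq_zero.mp h3).resolve_right hj
    apply hw
    ext i
    fin_cases i
    · exact h6
    · exact h5
  · ext i j
    fin_cases j
    · have := congrFun ev0 i
      simp only [Matrix.mulVec, dotProduct, Fin.sum_univ_two, Pi.zero_apply] at this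
      simp [Matrix.mul_apply, Fin.sum_univ_two, mE, hQ0, this]
    · have := congrFun ev1 i
      rw [Matrix.mulVec, dotProduct, Fin.sum_univ_two] at this
      simp only [Matrix.mul_apply, Fin.sum_univ_two, Fin.mk_one, mE01, mE11, hQ0, hQ1, this]
      ring
  · ext i j
    fin_cases j
    · simp [Matrix.mul_apply, Fin.sum_univ_two, mF, hQ0, hQ1, Matrix.mulVec, dotProduct]
    · have := congrFun fv1 i
      rw [Matrix.mulVec, dotProduct, Fin.sum_univ_two] at this
      simp only [Pi.zero_apply] at this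
      simp only [Matrix.mul_apply, Fin.sum_univ_two, Fin.mk_one, mF01, mF11, hQ0, hQ1, this]
      ring

section goursat

variable {G : Type*} [AddCommGroup G] [Module ℂ G] (br : G → G → G) {T S : Type*}
  (A : T → G →ₗ[ℂ] Matrix (Fin 2) (Fin 2) ℂ) (c : G →ₗ[ℂ] ℂ) (lam : S → G →ₗ[ℂ] ℂ)
  (hbr : ∀ t X Y, A t (br X Y) = A t X * A t Y - A t Y * A t X)
  (htr : ∀ t X, (A t X).trace = c X)
  (hsurj : ∀ t (Z : Matrix (Fin 2) (Fin 2) ℂ), Z.trace = 0 → ∃ X, A t X = Z)
  (hlam : ∀ s X Y, lam s (br X Y) = 0)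

/-- conjugacy of the representations `t`, `t'` -/
def ConjRep (t t' : T) : Prop :=
  ∃ Q : Matrix (Fin 2) (Fin 2) ℂ, Q.det ≠ 0 ∧ ∀ X, A t X * Q = Q * A t' X

include hbr htr hsurj in
lemma goursat_pair (t t' : T) (h : ¬ ConjRep A t t') (Z : Matrix (Fin 2) (Fin 2) ℂ)
    (hZ : Z.trace = 0) : ∃ X, A t X = Z ∧ A t' X = 0 := by
  let K : Submodule ℂ (Matrix (Fin 2) (Fin 2) ℂ) := (LinearMap.ker (A t')).map (A t)
  suffices hK : Z ∈ K by
    obtain ⟨X, hX, hXZ⟩ := hK
    exact ⟨X, hXZ, hX⟩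
  by_cases hex : ∃ z₀ ∈ K, z₀ ≠ 0
  · obtain ⟨z₀, hz₀, hne⟩ := hex
    obtain ⟨X₀, hX₀, rfl⟩ := id hz₀
    refine ideal_top K ?_ _ hz₀ ?_ hne Z hZ
    · rintro x hx y ⟨Y, hY, rfl⟩
      obtain ⟨X, rfl⟩ := hsurj t x hx
      refine ⟨br X Y, ?_, hbr t X Y⟩
      rw [SetLike.mem_coe, LinearMap.mem_ker] at hY ⊢
      rw [hbr, hY, mul_zero, zero_mul, sub_zero]
    · rw [SetLike.mem_coe, LinearMap.mem_ker] at hX₀
      rw [htr, ← htr t', hX₀, trace_zero]
  · exfalso
    push Not at hex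
    have hker : ∀ X, A t' X = 0 → A t X = 0 := fun X hX => hex _ ⟨X, hX, rfl⟩
    apply h
    obtain ⟨XE, hXE⟩ := hsurj t' mE tr_mE
    obtain ⟨XF, hXF⟩ := hsurj t' mF tr_mF
    have hXH : A t' (br XE XF) = mH := by rw [hbr, hXE, hXF, brEF]
    have hte : (A t XE).trace = 0 := by rw [htr, ← htr t', hXE, tr_mE]
    have htf : (A t XF).trace = 0 := by rw [htr, ← htr t', hXF, tr_mF]
    have hh : A t (br XE XF) = A t XE * A t XF - A t XF * A t XE := hbr t XE XF
    have r1 : (A t XE * A t XF - A t XF * A t XE) * A t XE -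
        A t XE * (A t XE * A t XF - A t XF * A t XE) = (2 : ℂ) • A t XE := by
      have h1 := hker (br (br XE XF) XE - (2 : ℂ) • XE) (by
        rw [map_sub, map_smul, hbr, hXH, hXE, brHE, sub_self])
      rw [map_sub, map_smul, hbr, hh, sub_eq_zero] at h1
      exact h1
    have r2 : (A t XE * A t XF - A t XF * A t XE) * A t XF -
        A t XF * (A t XE * A t XF - A t XF * A t XE) = (-2 : ℂ) • A t XF := by
      have h1 := hker (br (br XE XF) XF - (-2 : ℂ) • XF) (by
        rw [map_sub, map_smul, hbr, hXH, hXF, brHF, sub_self])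
      rw [map_sub, map_smul, hbr, hh, sub_eq_zero] at h1
      exact h1
    have he0 : A t XE ≠ 0 := by
      intro he0
      have hh0 : A t XE * A t XF - A t XF * A t XE = 0 := by
        rw [he0, zero_mul, mul_zero, sub_zero]
      have hf0 : A t XF = 0 := by
        rw [hh0, zero_mul, mul_zero, sub_zero] at r2
        have := smul_eq_zero.mp r2.symm
        exact this.resolve_left (by norm_num)
      obtain ⟨Y, hY⟩ := hsurj t mE tr_mE
      have hcY : c Y = 0 := by rw [← htr t, hY, tr_mE]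
      have h3 := expand_mat (A t' Y)
      rw [htr, hcY, zero_div, zero_smul, add_zero] at h3
      have h4 := hker (Y - (A t' Y 0 1 • XE + A t' Y 1 0 • XF +
        ((A t' Y 0 0 - A t' Y 1 1) / 2) • br XE XF)) (by
          rw [map_sub, map_add, map_add, map_smul, map_smul, map_smul, hXE, hXF, hXH, ← h3,
            sub_self])
      rw [map_sub, map_add, map_add, map_smul, map_smul, map_smul, hh, hh0, he0, hf0, smul_zero,
        smul_zero, smul_zero, add_zero, add_zero, sub_zero, hY] at h4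
      have h5 := congrFun (congrFun h4 0) 1
      simp [mE] at h5
    obtain ⟨Q, hQ, hQE, hQF⟩ := exists_conj _ _ hte htf he0 r1 r2
    refine ⟨Q, hQ, fun X => ?_⟩
    -- general element
    obtain ⟨X', hX'⟩ : ∃ X', X' = X - (A t' X 0 1 • XE + A t' X 1 0 • XF +
        ((A t' X 0 0 - A t' X 1 1) / 2) • br XE XF) := ⟨_, rfl⟩
    have hQu : IsUnit Q.det := isUnit_iff_ne_zero.mpr hQ
    have h3 := expand_mat (A t' X)
    have h4 : A t' X' = ((A t' X).trace / 2) • 1 := by
      rw [hX', map_sub, map_add, map_add, map_smul, map_smul, map_smul, hXE, hXF, hXH]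
      nth_rewrite 1 [h3]
      abel
    have hcX' : c X' = (A t' X).trace := by
      rw [← htr t', h4, trace_smul, trace_one, Fintype.card_fin, smul_eq_mul]
      push_cast; ring
    have hcomE : A t X' * A t XE = A t XE * A t X' := by
      have h5 := hker (br X' XE) (by rw [hbr, h4]; simp)
      rw [hbr, sub_eq_zero] at h5
      exact h5
    have hcomF : A t X' * A t XF = A t XF * A t X' := by
      have h5 := hker (br X' XF) (by rw [hbr, h4]; simp)
      rw [hbr, sub_eq_zero] at h5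
      exact h5
    obtain ⟨M, hM⟩ : ∃ M, M = Q⁻¹ * A t X' * Q := ⟨_, rfl⟩
    have hQM : Q * M = A t X' * Q := by
      rw [hM, ← mul_assoc, ← mul_assoc, Matrix.mul_nonsing_inv _ hQu, one_mul]
    have hME : M * mE = mE * M := by
      have h6 : Q * (M * mE) = Q * (mE * M) := by
        rw [← mul_assoc, hQM, mul_assoc, ← hQE, ← mul_assoc, hcomE, mul_assoc, ← hQM,
          ← mul_assoc, hQE, mul_assoc]
      have h7 := congrArg (fun m => Q⁻¹ * m) h6
      simpa only [← mul_assoc, Matrix.nonsing_inv_mul _ hQu, one_mul] using h7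
    have hMF : M * mF = mF * M := by
      have h6 : Q * (M * mF) = Q * (mF * M) := by
        rw [← mul_assoc, hQM, mul_assoc, ← hQF, ← mul_assoc, hcomF, mul_assoc, ← hQM,
          ← mul_assoc, hQF, mul_assoc]
      have h7 := congrArg (fun m => Q⁻¹ * m) h6
      simpa only [← mul_assoc, Matrix.nonsing_inv_mul _ hQu, one_mul] using h7
    have m1 : M 1 0 = 0 := by
      have := congrFun (congrFun hME 0) 0
      simp only [Matrix.mul_apply, Fin.sum_univ_two, mE00, mE01, mE10] at this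
      linear_combination -this
    have m2 : M 0 0 = M 1 1 := by
      have := congrFun (congrFun hME 0) 1
      simp only [Matrix.mul_apply, Fin.sum_univ_two, mE00, mE01, mE11] at this
      linear_combination this
    have m3 : M 0 1 = 0 := by
      have := congrFun (congrFun hMF 0) 0
      simp only [Matrix.mul_apply, Fin.sum_univ_two, mF00, mF10, mF01] at this
      linear_combination this
    have hMs : M = M 0 0 • 1 := by
      ext i j
      fin_cases i <;> fin_cases j <;> simp [m1, m2, m3]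
    have hAX' : A t X' = M 0 0 • 1 := by
      have h8 : A t X' = Q * M * Q⁻¹ := by
        rw [hQM, mul_assoc, Matrix.mul_nonsing_inv _ hQu, mul_one]
      rw [h8, hMs, mul_smul_comm, mul_one, smul_mul_assoc, Matrix.mul_nonsing_inv _ hQu,
        Matrix.smul_apply, one_apply_eq, smul_eq_mul, mul_one]
    have hm : M 0 0 = (A t' X).trace / 2 := by
      have h9 : (A t X').trace = (A t' X).trace := by rw [htr, hcX']
      rw [hAX', trace_smul, trace_one, Fintype.card_fin, smul_eq_mul] at h9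
      push_cast at h9
      linear_combination h9 / 2
    have hX2 : A t X = A t' X 0 1 • A t XE + A t' X 1 0 • A t XF +
        ((A t' X 0 0 - A t' X 1 1) / 2) • (A t XE * A t XF - A t XF * A t XE) +
        ((A t' X).trace / 2) • 1 := by
      have h10 : X = X' + (A t' X 0 1 • XE + A t' X 1 0 • XF +
        ((A t' X 0 0 - A t' X 1 1) / 2) • br XE XF) := by rw [hX']; abel
      conv_lhs => rw [h10]
      rw [map_add, map_add, map_add, map_smul, map_smul, map_smul, hh, hAX', hm]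
      abel
    have hQH : (A t XE * A t XF - A t XF * A t XE) * Q = Q * mH := by
      rw [sub_mul, mul_assoc, mul_assoc, hQE, hQF, ← mul_assoc, ← mul_assoc, hQE, hQF, mul_assoc,
        mul_assoc, ← mul_sub, brEF]
    conv_rhs => rw [h3]
    rw [hX2, add_mul, add_mul, add_mul, mul_add, mul_add, mul_add, smul_mul_assoc,
      smul_mul_assoc, smul_mul_assoc, smul_mul_assoc, hQE, hQF, hQH, one_mul, mul_smul_comm,
      mul_smul_comm, mul_smul_comm, mul_smul_comm, mul_one]

include hbr htr hsurj in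
lemma goursat_finset (t : T) (s : Finset T) (hs : ∀ t' ∈ s, ¬ ConjRep A t t')
    (Z : Matrix (Fin 2) (Fin 2) ℂ) (hZ : Z.trace = 0) :
    ∃ X, A t X = Z ∧ ∀ t' ∈ s, A t' X = 0 := by
  classical
  induction s using Finset.induction_on generalizing Z with
  | empty =>
    obtain ⟨X, hX⟩ := hsurj t Z hZ
    exact ⟨X, hX, fun t' h => absurd h (Finset.notMem_empty t')⟩
  | insert a s ha ih =>
    have key : ∀ Z1 Z2 : Matrix (Fin 2) (Fin 2) ℂ, Z1.trace = 0 → Z2.trace = 0 →
        ∃ X, A t X = Z1 * Z2 - Z2 * Z1 ∧ ∀ t' ∈ insert a s, A t' X = 0 := by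
      intro Z1 Z2 h1 h2
      obtain ⟨X1, hX1, hX1'⟩ := ih (fun t' ht' => hs t' (Finset.mem_insert_of_mem ht')) Z1 h1
      obtain ⟨X2, hX2, hX2'⟩ := goursat_pair br A c hbr htr hsurj t a
        (hs a (Finset.mem_insert_self a s)) Z2 h2
      refine ⟨br X1 X2, by rw [hbr, hX1, hX2], fun t' ht' => ?_⟩
      rw [hbr]
      rcases Finset.mem_insert.mp ht' with h | h
      · rw [h, hX2', mul_zero, zero_mul, sub_zero]
      · rw [hX1' t' h, mul_zero, zero_mul, sub_zero]
    let K : Submodule ℂ (Matrix (Fin 2) (Fin 2) ℂ) :=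
      (⨅ t' : {t' // t' ∈ insert a s}, LinearMap.ker (A t')).map (A t)
    have hK : ∀ Z, Z ∈ K ↔ ∃ X, A t X = Z ∧ ∀ t' ∈ insert a s, A t' X = 0 := by
      intro Z
      constructor
      · rintro ⟨X, hX, hXZ⟩
        refine ⟨X, hXZ, fun t' ht' => ?_⟩
        rw [SetLike.mem_coe, Submodule.mem_iInf] at hX
        exact hX ⟨t', ht'⟩
      · rintro ⟨X, hXZ, hX⟩
        refine ⟨X, ?_, hXZ⟩
        rw [SetLike.mem_coe, Submodule.mem_iInf]
        exact fun t' => hX t' t'.2
    rw [← hK]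
    refine mem_of_EFH K ?_ ?_ ?_ Z hZ
    · have h1 := (hK _).mpr (key mH mE tr_mH tr_mE)
      rw [brHE] at h1
      have h2 := K.smul_mem (2 : ℂ)⁻¹ h1
      rwa [smul_smul, inv_mul_cancel₀ two_ne_zero, one_smul] at h2
    · have h1 := (hK _).mpr (key mH mF tr_mH tr_mF)
      rw [brHF] at h1
      have h2 := K.smul_mem (-2 : ℂ)⁻¹ h1
      rwa [smul_smul, inv_mul_cancel₀ (by norm_num), one_smul] at h2
    · have h1 := (hK _).mpr (key mE mF tr_mE tr_mF)
      rwa [brEF] at h1

include hbr htr hsurj hlam in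
/-- The Lie algebra contains the product of one copy of `sl_2` for every conjugacy class. -/
theorem goursat [Fintype T] (t : T) (Z : Matrix (Fin 2) (Fin 2) ℂ) (hZ : Z.trace = 0) :
    ∃ X, A t X = Z ∧ (∀ t', ¬ ConjRep A t t' → A t' X = 0) ∧ ∀ s, lam s X = 0 := by
  classical
  have key : ∀ Z1 Z2 : Matrix (Fin 2) (Fin 2) ℂ, Z1.trace = 0 → Z2.trace = 0 →
      ∃ X, A t X = Z1 * Z2 - Z2 * Z1 ∧ (∀ t', ¬ ConjRep A t t' → A t' X = 0) ∧
        ∀ s, lam s X = 0 := by
    intro Z1 Z2 h1 h2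
    obtain ⟨X1, hX1, hX1'⟩ := goursat_finset br A c hbr htr hsurj t
      (Finset.univ.filter fun t' => ¬ ConjRep A t t')
      (fun t' ht' => (Finset.mem_filter.mp ht').2) Z1 h1
    obtain ⟨X2, hX2⟩ := hsurj t Z2 h2
    refine ⟨br X1 X2, by rw [hbr, hX1, hX2], fun t' ht' => ?_, fun s => hlam s X1 X2⟩
    rw [hbr, hX1' t' (Finset.mem_filter.mpr ⟨Finset.mem_univ _, ht'⟩), mul_zero, zero_mul,
      sub_zero]
  let K : Submodule ℂ (Matrix (Fin 2) (Fin 2) ℂ) :=
    ((⨅ t' : {t' // ¬ ConjRep A t t'}, LinearMap.ker (A t')) ⊓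
      (⨅ s, LinearMap.ker (lam s))).map (A t)
  have hK : ∀ Z, Z ∈ K ↔ ∃ X, A t X = Z ∧ (∀ t', ¬ ConjRep A t t' → A t' X = 0) ∧
        ∀ s, lam s X = 0 := by
    intro Z
    constructor
    · rintro ⟨X, hX, hXZ⟩
      rw [SetLike.mem_coe, Submodule.mem_inf, Submodule.mem_iInf, Submodule.mem_iInf] at hX
      exact ⟨X, hXZ, fun t' ht' => hX.1 ⟨t', ht'⟩, hX.2⟩
    · rintro ⟨X, hXZ, hX1, hX2⟩
      refine ⟨X, ?_, hXZ⟩
      rw [SetLike.mem_coe, Submodule.mem_inf, Submodule.mem_iInf, Submodule.mem_iInf]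
      exact ⟨fun t' => hX1 t' t'.2, hX2⟩
  rw [← hK]
  refine mem_of_EFH K ?_ ?_ ?_ Z hZ
  · have h1 := (hK _).mpr (key mH mE tr_mH tr_mE)
    rw [brHE] at h1
    have h2 := K.smul_mem (2 : ℂ)⁻¹ h1
    rwa [smul_smul, inv_mul_cancel₀ two_ne_zero, one_smul] at h2
  · have h1 := (hK _).mpr (key mH mF tr_mH tr_mF)
    rw [brHF] at h1
    have h2 := K.smul_mem (-2 : ℂ)⁻¹ h1
    rwa [smul_smul, inv_mul_cancel₀ (by norm_num), one_smul] at h2
  · have h1 := (hK _).mpr (key mE mF tr_mE tr_mF)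
    rwa [brEF] at h1

end goursat

end Pool.Agent.Helper7
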