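import Mathlib

/-!
Irreducible Lie algebras of 2 by 2 matrices.
-/

namespace Pool.Agent.Helper7

open Matrix

section

variable {F : Type*} [Field F]

/-- Cramer's rule for trace zero matrices -/
lemma cramer_sl2 (a b c z : Matrix (Fin 2) (Fin 2) F) (ha : a.trace = 0) (hb : b.trace = 0)
    (hc : c.trace = 0) (hz : z.trace = 0) :
    (a * (b * c - c * b)).trace • z = (z * (b * c - c * b)).trace • a +
      (z * (c * a - a * c)).trace • b + (z * (a * b - b * a)).trace • c := by
  rw [trace_fin_two] at ha hb hc hz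
  have ha' : a 1 1 = - a 0 0 := by linear_combination ha
  have hb' : b 1 1 = - b 0 0 := by linear_combination hb
  have hc' : c 1 1 = - c 0 0 := by linear_combination hc
  have hz' : z 1 1 = - z 0 0 := by linear_combination hz
  ext i j
  fin_cases i <;> fin_cases j <;>
  simp only [trace_fin_two, Matrix.mul_apply, Matrix.sub_apply, Matrix.add_apply,
    Matrix.smul_apply, Fin.sum_univ_two, smul_eq_mul, Fin.zero_eta, Fin.mk_one,
    ha', hb', hc', hz'] <;> ring

lemma trace_bracket (x y : Matrix (Fin 2) (Fin 2) F) : (x * y - y * x).trace = 0 := by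
  rw [trace_sub, trace_mul_comm, sub_self]

lemma det_bracket (x y w : Matrix (Fin 2) (Fin 2) F) (hw : w = x * y - y * x) :
    (w * ((x * w - w * x) * (y * w - w * y) - (y * w - w * y) * (x * w - w * x))).trace =
      -2 * ((w * w).trace * (w * w).trace) := by
  subst hw
  simp only [trace_fin_two, Matrix.mul_apply, Matrix.sub_apply, Fin.sum_univ_two]
  ring

/-- An irreducible Lie algebra of 2 by 2 matrices with scalar commutant contains `sl_2`. -/
theorem sl2_mem [CharZero F] (S : Submodule F (Matrix (Fin 2) (Fin 2) F))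
    (hS : ∀ x ∈ S, ∀ y ∈ S, x * y - y * x ∈ S)
    (irr : ∀ v : Fin 2 → F, v ≠ 0 → ∃ x ∈ S, ∀ c : F, x *ᵥ v ≠ c • v)
    (comm : ∀ t : Matrix (Fin 2) (Fin 2) F, (∀ x ∈ S, x * t = t * x) → ∃ c : F, t = c • 1)
    (z : Matrix (Fin 2) (Fin 2) F) (hz : z.trace = 0) : z ∈ S := by
  by_cases h : ∃ x ∈ S, ∃ y ∈ S,
      ((x * y - y * x) * (x * y - y * x)).trace ≠ 0
  · obtain ⟨x, hx, y, hy, hw0⟩ := h
    obtain ⟨w, hw⟩ : ∃ w, w = x * y - y * x := ⟨_, rfl⟩
    rw [← hw] at hw0
    have hwS : w ∈ S := by rw [hw]; exact hS x hx y hy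
    have h1 := cramer_sl2 w (x * w - w * x) (y * w - w * y) z
      (by rw [hw]; exact trace_bracket x y) (trace_bracket x w) (trace_bracket y w) hz
    rw [det_bracket x y w hw] at h1
    have h2 : -2 * ((w * w).trace * (w * w).trace) ≠ 0 :=
      mul_ne_zero (neg_ne_zero.mpr two_ne_zero) (mul_ne_zero hw0 hw0)
    have h3 : z = (-2 * ((w * w).trace * (w * w).trace))⁻¹ •
        ((-2 * ((w * w).trace * (w * w).trace)) • z) := by
      rw [smul_smul, inv_mul_cancel₀ h2, one_smul]
    rw [h3, h1]
    apply S.smul_mem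
    exact S.add_mem (S.add_mem (S.smul_mem _ hwS) (S.smul_mem _ (hS x hx w hwS)))
      (S.smul_mem _ (hS y hy w hwS))
  · exfalso
    push Not at h
    -- a nonzero bracket
    obtain ⟨x, hx, y, hy, hxy⟩ : ∃ x ∈ S, ∃ y ∈ S, x * y - y * x ≠ 0 := by
      by_contra hcon
      push Not at hcon
      have h1 : ∀ x ∈ S, ∃ c : F, x = c • (1 : Matrix (Fin 2) (Fin 2) F) := fun x hx =>
        comm x (fun y hy => sub_eq_zero.mp (hcon y hy x hx))
      obtain ⟨c, hc⟩ := comm !![0, 1; 0, 0] (fun x hx => by
        obtain ⟨c, rfl⟩ := h1 x hx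
        simp)
      have h2 := congrFun (congrFun hc 0) 1
      simp at h2
    obtain ⟨w, hw⟩ : ∃ w, w = x * y - y * x := ⟨_, rfl⟩
    rw [← hw] at hxy
    have hwS : w ∈ S := by rw [hw]; exact hS x hx y hy
    have hwt : w.trace = 0 := by rw [hw]; exact trace_bracket x y
    have hww : (w * w).trace = 0 := by rw [hw]; exact h x hx y hy
    rw [trace_fin_two] at hwt
    have hw11 : w 1 1 = - w 0 0 := by linear_combination hwt
    have hdet : w 0 0 * w 0 0 + w 0 1 * w 1 0 = 0 := by
      have h1 : (w * w).trace = 2 * (w 0 0 * w 0 0 + w 0 1 * w 1 0) := by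
        simp only [trace_fin_two, Matrix.mul_apply, Fin.sum_univ_two, hw11]
        ring
      rw [h1] at hww
      exact (mul_eq_zero.mp hww).resolve_left two_ne_zero
    have hbr : ∀ u ∈ S, ((u * w - w * u) * (u * w - w * u)).trace = 0 := fun u hu => h u hu w hwS
    by_cases hr : w 1 0 = 0
    · have hp : w 0 0 = 0 := by
        rw [hr, mul_zero, add_zero] at hdet
        exact mul_self_eq_zero.mp hdet
      have hq : w 0 1 ≠ 0 := by
        intro hq
        apply hxy
        ext i j
        fin_cases i <;> fin_cases j <;> simp [hr, hp, hq, hw11]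
      obtain ⟨u, hu, hu2⟩ := irr ![1, 0] (by
        intro h0
        have := congrFun h0 0
        simp at this)
      apply hu2 (u 0 0)
      have h1 := hbr u hu
      have h2 : ((u * w - w * u) * (u * w - w * u)).trace =
          2 * (w 0 1 * u 1 0) * (w 0 1 * u 1 0) := by
        simp only [trace_fin_two, Matrix.mul_apply, Matrix.sub_apply, Fin.sum_univ_two, hw11, hr,
          hp]
        ring
      rw [h2] at h1
      have h3 : w 0 1 * u 1 0 = 0 := by
        by_contra hne
        exact mul_ne_zero (mul_ne_zero two_ne_zero hne) hne h1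
      have h4 : u 1 0 = 0 := (mul_eq_zero.mp h3).resolve_left hq
      ext i
      fin_cases i
      · simp [Matrix.mulVec, dotProduct, Fin.sum_univ_two]
      · simp [Matrix.mulVec, dotProduct, Fin.sum_univ_two, h4]
    · obtain ⟨u, hu, hu2⟩ := irr ![w 0 0, w 1 0] (by
        intro h0
        have := congrFun h0 1
        simp only [Matrix.cons_val_one, Matrix.cons_val_fin_one, Pi.zero_apply] at this
        exact hr this)
      have hq : w 0 1 = - (w 0 0 * w 0 0) / w 1 0 := by
        field_simp
        linear_combination hdet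
      have h1 := hbr u hu
      have h2 : ((u * w - w * u) * (u * w - w * u)).trace * (w 1 0 * w 1 0) =
          2 * ((w 0 0 * (u 1 0 * w 0 0 + u 1 1 * w 1 0) -
            w 1 0 * (u 0 0 * w 0 0 + u 0 1 * w 1 0)) *
          (w 0 0 * (u 1 0 * w 0 0 + u 1 1 * w 1 0) -
            w 1 0 * (u 0 0 * w 0 0 + u 0 1 * w 1 0))) := by
        simp only [trace_fin_two, Matrix.mul_apply, Matrix.sub_apply, Fin.sum_univ_two, hw11, hq]
        field_simp
        ring
      rw [h1, zero_mul] at h2
      have h3 : w 0 0 * (u 1 0 * w 0 0 + u 1 1 * w 1 0) -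
            w 1 0 * (u 0 0 * w 0 0 + u 0 1 * w 1 0) = 0 :=
        mul_self_eq_zero.mp ((mul_eq_zero.mp h2.symm).resolve_left two_ne_zero)
      apply hu2 ((u 1 0 * w 0 0 + u 1 1 * w 1 0) / w 1 0)
      ext i
      fin_cases i
      · simp only [Matrix.mulVec, dotProduct, Fin.sum_univ_two, Pi.smul_apply, smul_eq_mul]
        simp
        field_simp
        linear_combination (-1 : F) * h3
      · simp only [Matrix.mulVec, dotProduct, Fin.sum_univ_two, Pi.smul_apply, smul_eq_mul]
        simp
        field_simp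

end

end Pool.Agent.Helper7
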