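import Pool.Agent.Helper7.J7

/-!
The theorem on four-forms for abstract data.
-/

namespace Pool.Agent.Helper7

open Module NumberField LieAlgebra

attribute [local instance 100] LieRing.ofAssociativeRing

open Pool.Agent.GPC (Emb IsOdd IsOddModule translate)
open Pool.Agent.Helper8 (Symp perfect_of_killing ML2 ML4 Inv2 Inv4 exists_linear Principal
  exists_principal)
open Pool.Agent.Helper84 (xi odd1 odd3 symp_even pattern4 sort4 vec4_eq)

set_option linter.unusedSectionVars false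

section family

variable {I : Type} [Fintype I] [DecidableEq I] {n : I → ℕ}
  {κ : I → Type} [∀ i, Fintype (κ i)] [∀ i, DecidableEq (κ i)] {ϖ : ℂ}
  {P : ∀ i, PData (κ i) ϖ}
  {K : I → Type} [∀ i, Field (K i)] [∀ i, NumberField (K i)]
  {F : ∀ i, FS (P i) (K i)}
  {α : (HW κ n) [⋀^Fin 4]→ₗ[ℂ] ℂ}

lemma GA.dims {a : At n K} (ha : GA α F a) : Even (dimA α F a) ∧ 0 < dimA α F a := by
  have := ha.irr
  have h1 : Nontrivial (Vs n P F (toM n α) (pl n a)) :=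
    LieModule.nontrivial_of_isIrreducible ℂ (LL n P F (toM n α)) _
  exact ⟨symp_even (omV_symp n P F (toM n α) (pl n a) ha.real), finrank_pos⟩

/-- four slots of real type -/
lemma real_4 (p : Principal (LL n P F (toM n α)))
    (hdim : ∀ S : Finset (At n K), (∀ a ∈ S, (F a.1).isLeft) → ∑ a ∈ S, dimA α F a ≤ 8)
    (t : Fin 4 → At n K) (ht : ∀ r, GA α F (t r)) : Good n P α (comp n P F α t) := by
  classical
  obtain ⟨π, h⟩ := pattern4 t
  apply comp_perm n P F α t π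
  have ht' : ∀ r, GA α F ((t ∘ π) r) := fun r => ht _
  have h' : ((t ∘ π) 0 = (t ∘ π) 1 ∧ (t ∘ π) 1 = (t ∘ π) 2 ∧ (t ∘ π) 2 = (t ∘ π) 3) ∨
      ((t ∘ π) 0 = (t ∘ π) 1 ∧ (t ∘ π) 1 = (t ∘ π) 2 ∧ (t ∘ π) 3 ≠ (t ∘ π) 0) ∨
      ((t ∘ π) 0 = (t ∘ π) 1 ∧ (t ∘ π) 2 = (t ∘ π) 3 ∧ (t ∘ π) 2 ≠ (t ∘ π) 0) ∨
      ((t ∘ π) 0 = (t ∘ π) 1 ∧ (t ∘ π) 2 ≠ (t ∘ π) 0 ∧ (t ∘ π) 3 ≠ (t ∘ π) 0 ∧
        (t ∘ π) 2 ≠ (t ∘ π) 3) ∨
      Function.Injective (t ∘ π) := h
  clear h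
  generalize t ∘ π = s at ht' h'
  have d : ∀ r, Even (dimA α F (s r)) ∧ 0 < dimA α F (s r) := fun r => (ht' r).dims
  rw [← vec4_eq s]
  have a0 := ht' 0
  have a1 := ht' 1
  have a2 := ht' 2
  have a3 := ht' 3
  have d0 := d 0
  have d1 := d 1
  have d2 := d 2
  have d3 := d 3
  clear d ht'
  rcases h' with ⟨e1, e2, e3⟩ | ⟨e1, e2, e3⟩ | ⟨e1, e2, e3⟩ | ⟨e1, e2, e3, e4⟩ | hinj
  · rw [← e3, ← e2, ← e1]
    apply pat_4 p _ a0
    have h1 := hdim {s 0} (fun a ha => by rw [Finset.mem_singleton.mp ha]; exact a0.real)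
    rw [Finset.sum_singleton] at h1
    obtain ⟨⟨c, hc⟩, h2⟩ := d0
    omega
  · rw [← e2, ← e1]
    apply pat_31 p _ _ a0 a3
    have h1 := hdim {s 0, s 3} (fun a ha => by
      rw [Finset.mem_insert, Finset.mem_singleton] at ha
      rcases ha with rfl | rfl
      · exact a0.real
      · exact a3.real)
    rw [Finset.sum_pair (Ne.symm e3)] at h1
    obtain ⟨⟨c, hc⟩, h2⟩ := d0
    obtain ⟨⟨c', hc'⟩, h2'⟩ := d3
    omega
  · rw [← e2, ← e1]
    apply pat_22 p _ _ a0 a2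
    have h1 := hdim {s 0, s 2} (fun a ha => by
      rw [Finset.mem_insert, Finset.mem_singleton] at ha
      rcases ha with rfl | rfl
      · exact a0.real
      · exact a2.real)
    rw [Finset.sum_pair (Ne.symm e3)] at h1
    obtain ⟨⟨c, hc⟩, h2⟩ := d0
    obtain ⟨⟨c', hc'⟩, h2'⟩ := d2
    omega
  · rw [← e1]
    apply pat_211 p _ _ _ a0 a2 a3
    have h1 := hdim {s 0, s 2, s 3} (fun a ha => by
      rw [Finset.mem_insert, Finset.mem_insert, Finset.mem_singleton] at ha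
      rcases ha with rfl | rfl | rfl
      · exact a0.real
      · exact a2.real
      · exact a3.real)
    rw [Finset.sum_insert (by
      rw [Finset.mem_insert, Finset.mem_singleton, not_or]
      exact ⟨Ne.symm e2, Ne.symm e3⟩), Finset.sum_pair e4] at h1
    obtain ⟨⟨c, hc⟩, h2⟩ := d0
    obtain ⟨⟨c', hc'⟩, h2'⟩ := d2
    obtain ⟨⟨c'', hc''⟩, h2''⟩ := d3
    omega
  · have h1 := hdim {s 0, s 1, s 2, s 3} (fun a ha => by
      rw [Finset.mem_insert, Finset.mem_insert, Finset.mem_insert, Finset.mem_singleton] at ha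
      rcases ha with rfl | rfl | rfl | rfl
      · exact a0.real
      · exact a1.real
      · exact a2.real
      · exact a3.real)
    have n01 : s 0 ≠ s 1 := fun h => absurd (hinj h) (by decide)
    have n02 : s 0 ≠ s 2 := fun h => absurd (hinj h) (by decide)
    have n03 : s 0 ≠ s 3 := fun h => absurd (hinj h) (by decide)
    have n12 : s 1 ≠ s 2 := fun h => absurd (hinj h) (by decide)
    have n13 : s 1 ≠ s 3 := fun h => absurd (hinj h) (by decide)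
    have n23 : s 2 ≠ s 3 := fun h => absurd (hinj h) (by decide)
    rw [Finset.sum_insert (by
      rw [Finset.mem_insert, Finset.mem_insert, Finset.mem_singleton, not_or, not_or]
      exact ⟨n01, n02, n03⟩), Finset.sum_insert (by
      rw [Finset.mem_insert, Finset.mem_singleton, not_or]
      exact ⟨n12, n13⟩), Finset.sum_pair n23] at h1
    obtain ⟨⟨c, hc⟩, h2⟩ := d0
    obtain ⟨⟨c1, hc1⟩, h21⟩ := d1
    obtain ⟨⟨c', hc'⟩, h2'⟩ := d2
    obtain ⟨⟨c'', hc''⟩, h2''⟩ := d3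
    exact pat_1111 p _ _ _ _ a0 a1 a2 a3 (by omega) (by omega) (by omega) (by omega)

variable (hϖ : ϖ ≠ 0)
  (hB : ∀ v : Fin (2 * 2) → HW κ n, (∀ r, IsRatP n P (v r)) →
    ∃ q : ℚ, toM n α v = ϖ ^ 2 * q)
  (hA : ∀ v : Fin (2 * 2) → HW κ n, (∀ r i m j, IsAlgebraic ℚ (v r i m j)) →
      IsAlgebraic ℚ (toM n α v))

include hϖ hB hA in
/-- every component is in the span -/
theorem all_good (hm : Match α F)
    (hdim : ∀ S : Finset (At n K), (∀ a ∈ S, (F a.1).isLeft) → ∑ a ∈ S, dimA α F a ≤ 8)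
    (t : Fin 4 → At n K) : Good n P α (comp n P F α t) := by
  classical
  have hrad : HasTrivialRadical ℂ (LL n P F (toM n α)) := LL_trivialRadical n P F _ hϖ hB hA
  have hk : IsKilling ℂ (LL n P F (toM n α)) := inferInstance
  obtain ⟨p⟩ := exists_principal (LL n P F (toM n α))
  by_cases hn : ∀ r, (F (t r).1).isLeft → Nontrivial (Vs n P F (toM n α) (pl n (t r)))
  · have hGA : ∀ r, (F (t r).1).isLeft → GA α F (t r) := fun r hr =>
      ⟨hr, Vs_irr n P F (toM n α) hϖ hB hA (pl n (t r)) hr (hn r hr)⟩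
    obtain ⟨π, h⟩ := sort4 (fun r => ((F (t r).1).isLeft : Prop))
    apply comp_perm n P F α t π
    have hGA' : ∀ r, (F ((t ∘ π) r).1).isLeft → GA α F ((t ∘ π) r) := fun r hr => hGA _ hr
    have h' : ((F ((t ∘ π) 0).1).isLeft ∧ (F ((t ∘ π) 1).1).isLeft ∧
        (F ((t ∘ π) 2).1).isLeft ∧ (F ((t ∘ π) 3).1).isLeft) ∨
        ((F ((t ∘ π) 0).1).isLeft ∧ (F ((t ∘ π) 1).1).isLeft ∧
        (F ((t ∘ π) 2).1).isLeft ∧ ¬ (F ((t ∘ π) 3).1).isLeft) ∨
        ((F ((t ∘ π) 0).1).isLeft ∧ (F ((t ∘ π) 1).1).isLeft ∧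
        ¬ (F ((t ∘ π) 2).1).isLeft ∧ ¬ (F ((t ∘ π) 3).1).isLeft) ∨
        ((F ((t ∘ π) 0).1).isLeft ∧ ¬ (F ((t ∘ π) 1).1).isLeft ∧
        ¬ (F ((t ∘ π) 2).1).isLeft ∧ ¬ (F ((t ∘ π) 3).1).isLeft) ∨
        (¬ (F ((t ∘ π) 0).1).isLeft ∧ ¬ (F ((t ∘ π) 1).1).isLeft ∧
        ¬ (F ((t ∘ π) 2).1).isLeft ∧ ¬ (F ((t ∘ π) 3).1).isLeft) := h
    clear h
    generalize t ∘ π = s at hGA' h'
    rcases h' with ⟨h0, h1, h2, h3⟩ | ⟨h0, h1, h2, h3⟩ | ⟨h0, h1, h2, h3⟩ | ⟨h0, h1, h2, h3⟩ |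
      ⟨h0, h1, h2, h3⟩
    · refine real_4 p hdim s (fun r => hGA' r ?_)
      fin_cases r
      · exact h0
      · exact h1
      · exact h2
      · exact h3
    · rw [← vec4_eq s]
      exact mixed_3 hk p _ _ _ _ (hGA' 0 h0) (hGA' 1 h1) (hGA' 2 h2) h3
    · rw [← vec4_eq s]
      exact mixed_2 hk _ _ _ _ h0 h1 h2 h3
    · rw [← vec4_eq s]
      exact mixed_1 hk p _ _ _ _ (hGA' 0 h0) h1 h2 h3
    · refine cm_4 hϖ hB hm s (fun r => ?_)
      fin_cases r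
      · exact h0
      · exact h1
      · exact h2
      · exact h3
  · push Not at hn
    obtain ⟨r, hr, hr'⟩ := hn
    refine Good.zero.congr fun v => ?_
    symm
    refine (α : MultilinearMap ℂ (fun _ : Fin 4 => HW κ n) ℂ).map_coord_zero r ?_
    rw [EE_eq n P F (toM n α)]
    have h1 : outS n P F (toM n α) (t r) (v r) = 0 := by
      have := hr'
      exact Subsingleton.elim _ _
    rw [h1, map_zero]

include hϖ hB hA in
theorem family_J (hm : Match α F)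
    (hdim : ∀ S : Finset (At n K), (∀ a ∈ S, (F a.1).isLeft) → ∑ a ∈ S, dimA α F a ≤ 8) :
    toM n α ∈ Submodule.span ℂ {M | ∃ (π : Equiv.Perm (Fin (2 * 2)))
    (β : Fin 2 → (HW κ n →ₗ[ℂ] HW κ n →ₗ[ℂ] ℂ)),
      (∀ a, β a ∈ invB n P (toM n α)) ∧ M = (prodBilin β).domDomCongr π} :=
  mem_of_comp n P F α (all_good hϖ hB hA hm hdim)

end family

section final

variable {I : Type} [Fintype I] [DecidableEq I] (n : I → ℕ)
  {κ : I → Type} [∀ i, Fintype (κ i)] [∀ i, DecidableEq (κ i)] {ϖ : ℂ}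
  (P : ∀ i, PData (κ i) ϖ)

/-- a form in the complex span of products of invariant bilinear forms is a rational combination
of products of pull-backs of polarisations -/
theorem abstract_of_span (hϖ : ϖ ≠ 0) {k : ℕ} (α : (HW κ n) [⋀^Fin (2 * k)]→ₗ[ℂ] ℂ)
    (hB : ∀ v : Fin (2 * k) → HW κ n, (∀ r, IsRatP n P (v r)) → ∃ q : ℚ, α v = ϖ ^ k * q)
    (hA : ∀ v : Fin (2 * k) → HW κ n, (∀ r i m j, IsAlgebraic ℚ (v r i m j)) →
      IsAlgebraic ℚ (α v))
    (h0 : (α : MultilinearMap ℂ (fun _ : Fin (2 * k) => HW κ n) ℂ) ∈ Submodule.span ℂ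
      {M | ∃ (π : Equiv.Perm (Fin (2 * k))) (β : Fin k → (HW κ n →ₗ[ℂ] HW κ n →ₗ[ℂ] ℂ)),
      (∀ a, β a ∈ invB n P (α : MultilinearMap ℂ (fun _ : Fin (2 * k) => HW κ n) ℂ)) ∧
        M = (prodBilin β).domDomCongr π}) :
    α ∈ Submodule.span ℚ {ω | ∃ γ : Fin k → (HW κ n →ₗ[ℂ] HW κ n →ₗ[ℂ] ℂ),
      (∀ a, γ a ∈ GW n P) ∧ ω = wedge γ} := by
  classical
  -- alternatisation of the generators
  have hgen : ∀ M ∈ Submodule.span ℂ
      {M | ∃ (π : Equiv.Perm (Fin (2 * k))) (β : Fin k → (HW κ n →ₗ[ℂ] HW κ n →ₗ[ℂ] ℂ)),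
      (∀ a, β a ∈ invB n P (α : MultilinearMap ℂ (fun _ : Fin (2 * k) => HW κ n) ℂ)) ∧
        M = (prodBilin β).domDomCongr π},
      MultilinearMap.alternatization M ∈ Submodule.span ℂ
        {ω | ∃ γ : Fin k → (HW κ n →ₗ[ℂ] HW κ n →ₗ[ℂ] ℂ),
        (∀ a, γ a ∈ GW n P) ∧ ω = wedge γ} := by
    intro M hM
    induction hM using Submodule.span_induction with
    | mem M hM =>
      obtain ⟨π, β, hβ, rfl⟩ := hM
      rw [alternatization_domDomCongr]
      have h4 : wedge β ∈ Submodule.span ℂ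
        {ω | ∃ γ : Fin k → (HW κ n →ₗ[ℂ] HW κ n →ₗ[ℂ] ℂ),
        (∀ a, γ a ∈ GW n P) ∧ ω = wedge γ} :=
        wedge_mem_span (GW n P) β (fun a => inv_mem_GW n P _ hϖ hB hA _ (hβ a))
      rcases Int.units_eq_one_or (Equiv.Perm.sign π) with h | h
      · rw [h, one_smul]; exact h4
      · rw [h, Units.neg_smul, one_smul]; exact Submodule.neg_mem _ h4
    | zero => rw [map_zero]; exact Submodule.zero_mem _
    | add x y _ _ hx hy => rw [map_add]; exact Submodule.add_mem _ hx hy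
    | smul c x _ hx => rw [alternatization_smul]; exact Submodule.smul_mem _ _ hx
  have h1 : α ∈ Submodule.span ℂ {ω | ∃ γ : Fin k → (HW κ n →ₗ[ℂ] HW κ n →ₗ[ℂ] ℂ),
      (∀ a, γ a ∈ GW n P) ∧ ω = wedge γ} := by
    have h2 := hgen _ h0
    rw [AlternatingMap.coe_alternatization, ← Nat.cast_smul_eq_nsmul ℂ] at h2
    have h3 := Submodule.smul_mem _
      (((Nat.factorial (Fintype.card (Fin (2 * k)))) : ℂ)⁻¹) h2
    rw [smul_smul, inv_mul_cancel₀ (Nat.cast_ne_zero.mpr (Nat.factorial_ne_zero _)),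
      one_smul] at h3
    exact h3
  refine rational_descent (FBP n P) (ϖ ^ k) (pow_ne_zero _ hϖ) _ ?_ α
    (fun s => hB _ (fun r => FBP_isRatP n P _)) h1
  rintro ω ⟨γ, hγ, rfl⟩ s
  exact wedge_rational' n P γ hγ _ (fun r => FBP_isRatP n P _)

end final

end Pool.Agent.Helper7
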