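import Pool.Agent.Helper7.RealTypes

/-!
Simple abelian varieties, and the condition on the factors with complex multiplication.
-/

namespace Pool.Agent.GPC

/-- `f` is the action on the first homology of a homomorphism `A → B` (tensor `ℚ`): it is linear and
respects the Betti and de Rham structures and the Hodge filtrations. -/
structure AbVar.IsMor (A B : AbVar) (f : A.H1 → B.H1) : Prop where
  linear : IsLinearMap ℂ f
  betti : ∀ v, A.IsBetti v → B.IsBetti (f v)
  deRham : ∀ v, A.IsDeRham v → B.IsDeRham (f v)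
  hodge : ∀ v, A.IsFil v → B.IsFil (f v)

/-- `A` is simple: every non-zero endomorphism of `A` (tensor `ℚ`) is an isogeny. -/
def AbVar.IsSimple (A : AbVar) : Prop :=
  ∀ f, A.IsEnd f → (∃ v, f v ≠ 0) → Function.Injective f

/-- The factors `A_i`, `i ∈ T`, with complex multiplication by `K_i`, are simple and pairwise not
isogenous, the dimension of `∏_(i ∈ T) A_i^{n_i}` is at most four, and if it is four then there is
no imaginary quadratic field contained in all the fields `K_i`, `i ∈ T`, `n_i ≠ 0`. -/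
structure LowDimCM {I : Type} (A : I → AbVar) (n : I → ℕ) (K : I → Type) [∀ i, Field (K i)]
    (T : Finset I) : Prop where
  simple : ∀ i ∈ T, (A i).IsSimple
  hom_zero : ∀ i ∈ T, ∀ j ∈ T, i ≠ j → ∀ f, (A i).IsMor (A j) f → ∀ v, f v = 0
  dim_le : ∑ i ∈ T, n i * (A i).g ≤ 4
  not_weil : ∑ i ∈ T, n i * (A i).g = 4 →
    ¬ ∃ q : ℚ, q < 0 ∧ ∀ i ∈ T, n i ≠ 0 → ∃ x : K i, x ^ 2 = (q : K i)

end Pool.Agent.GPC
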