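import Pool.Agent.Helper7.LowZero

/-!
No exceptional relations between the weights of a CM field of degree twice an odd prime.
-/

namespace Pool.Agent.Helper7.WM

open NumberField Pool.Agent.GPC Polynomial
open Pool.Agent.Helper84 (xi conjT conjT_conjT xi_odd xi_conj_left xi_conj_right act cc_ne act_cc
  cc_cc act_star exists_aut act_injective)

section perm

variable {K : Type} [Field K] [NumberField K]

/-- the action of `Aut(ℂ)` on the embeddings -/
def phi : (ℂ ≃+* ℂ) →* Equiv.Perm (K →+* ℂ) where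
  toFun τ :=
    { toFun := fun σ => act τ σ
      invFun := fun σ => act τ.symm σ
      left_inv := fun σ => RingHom.ext fun x => τ.symm_apply_apply (σ x)
      right_inv := fun σ => RingHom.ext fun x => τ.apply_symm_apply (σ x) }
  map_one' := rfl
  map_mul' _ _ := rfl

omit [NumberField K] in
lemma phi_apply (τ : ℂ ≃+* ℂ) (σ : K →+* ℂ) : phi τ σ = act τ σ := rfl

/-- an element of prime order -/
lemma exists_order (p : ℕ) (hp : p.Prime) (hdeg : Module.finrank ℚ K = 2 * p) :
    ∃ τ : ℂ ≃+* ℂ, orderOf (phi (K := K) τ) = p := by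
  classical
  have : Fact p.Prime := ⟨hp⟩
  let G : Subgroup (Equiv.Perm (K →+* ℂ)) := (phi (K := K)).range
  have σ₀ : K →+* ℂ := Classical.choice inferInstance
  have horb : MulAction.orbit G σ₀ = Set.univ := by
    rw [Set.eq_univ_iff_forall]
    intro σ
    obtain ⟨τ, hτ⟩ := exists_aut σ₀ σ
    exact ⟨⟨phi τ, τ, rfl⟩, hτ⟩
  have hcard : Nat.card (MulAction.orbit G σ₀) = 2 * p := by
    rw [horb, Nat.card_coe_set_eq, Set.ncard_univ, Nat.card_eq_fintype_card,
      NumberField.Embeddings.card, hdeg]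
  have h1 : Nat.card (MulAction.orbit G σ₀) * Nat.card (MulAction.stabilizer G σ₀) = Nat.card G := by
    rw [← Nat.card_prod]
    exact Nat.card_congr (MulAction.orbitProdStabilizerEquivGroup G σ₀)
  have h2 : p ∣ Nat.card G := by
    rw [← h1, hcard]
    exact ⟨2 * Nat.card (MulAction.stabilizer G σ₀), by ring⟩
  obtain ⟨g, hg⟩ := exists_prime_orderOf_dvd_card' p h2
  obtain ⟨τ, hτ⟩ := g.2
  refine ⟨τ, ?_⟩
  have h3 : phi (K := K) τ = (g : Equiv.Perm (K →+* ℂ)) := hτ
  rw [h3, Subgroup.orderOf_coe, hg]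

lemma phi_conj [IsCMField K] (τ : ℂ ≃+* ℂ) (σ : K →+* ℂ) (j : ℕ) :
    ((phi (K := K) τ) ^ j) (ComplexEmbedding.conjugate σ) =
      ComplexEmbedding.conjugate (((phi (K := K) τ) ^ j) σ) := by
  induction j with
  | zero => rfl
  | succ j ih =>
    rw [pow_succ', Equiv.Perm.mul_apply, ih, Equiv.Perm.mul_apply, phi_apply, phi_apply, act_cc]

/-- the orbits -/
lemma exists_orbit [IsCMField K] (p : ℕ) (hp : p.Prime) (hp2 : p ≠ 2)
    (hdeg : Module.finrank ℚ K = 2 * p) : ∃ (τ : ℂ ≃+* ℂ) (σ₀ : K →+* ℂ),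
      act τ σ₀ ≠ σ₀ ∧ (phi (K := K) τ) ^ p = 1 ∧
      (∀ i < p, ∀ j < p, ((phi (K := K) τ) ^ i) σ₀ = ((phi (K := K) τ) ^ j) σ₀ → i = j) ∧
      (∀ i < p, ∀ j < p, ((phi (K := K) τ) ^ i) σ₀ ≠
        ComplexEmbedding.conjugate (((phi (K := K) τ) ^ j) σ₀)) ∧
      ∀ σ : K →+* ℂ, ∃ j < p, σ = ((phi (K := K) τ) ^ j) σ₀ ∨
        σ = ComplexEmbedding.conjugate (((phi (K := K) τ) ^ j) σ₀) := by
  classical
  obtain ⟨τ, hτ⟩ := exists_order p hp hdeg
  have hne : phi (K := K) τ ≠ 1 := by
    intro h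
    rw [h, orderOf_one] at hτ
    exact hp.one_lt.ne hτ
  obtain ⟨σ₀, hσ₀⟩ : ∃ σ₀, phi (K := K) τ σ₀ ≠ σ₀ := by
    by_contra hcon
    push Not at hcon
    exact hne (Equiv.ext hcon)
  have hpow : (phi (K := K) τ) ^ p = 1 := by rw [← hτ]; exact pow_orderOf_eq_one _
  -- the period is `p`
  have hfix : ∀ j : ℕ, ((phi (K := K) τ) ^ j) σ₀ = σ₀ → p ∣ j := by
    intro j hj
    by_contra hndvd
    have hcop : Nat.Coprime j p := ((Nat.Prime.coprime_iff_not_dvd hp).mpr hndvd).symm
    apply hσ₀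
    -- Bezout
    obtain ⟨m, hm⟩ := Nat.exists_mul_mod_eq_one_of_coprime hcop hp.one_lt
    have h1 : ((phi (K := K) τ) ^ (j * m)) σ₀ = σ₀ := by
      rw [pow_mul]
      have : ∀ m : ℕ, (((phi (K := K) τ) ^ j) ^ m) σ₀ = σ₀ := by
        intro m
        induction m with
        | zero => rfl
        | succ m ih => rw [pow_succ, Equiv.Perm.mul_apply, hj, ih]
      exact this m
    have h2 : (phi (K := K) τ) ^ (j * m) = phi τ := by
      have h3 : j * m = p * (j * m / p) + 1 := by
        have := Nat.div_add_mod (j * m) p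
        omega
      rw [h3, pow_add, pow_mul, hpow, one_pow, one_mul, pow_one]
    rw [h2] at h1
    exact h1
  have hinj : ∀ i < p, ∀ j < p, i ≤ j → ((phi (K := K) τ) ^ i) σ₀ = ((phi (K := K) τ) ^ j) σ₀ →
      i = j := by
    intro i hi j hj hij h
    have h1 : ((phi (K := K) τ) ^ (j - i)) σ₀ = σ₀ := by
      have h2 : (phi (K := K) τ) ^ j = (phi (K := K) τ) ^ i * (phi (K := K) τ) ^ (j - i) := by
        rw [← pow_add]; congr 1; omega
      rw [h2, Equiv.Perm.mul_apply] at h
      exact (Equiv.injective _ h).symm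
    have h2 := hfix _ h1
    have h3 := Nat.eq_zero_of_dvd_of_lt h2 (by omega)
    omega
  have hconj : ∀ i < p, ∀ j < p, ((phi (K := K) τ) ^ i) σ₀ ≠
      ComplexEmbedding.conjugate (((phi (K := K) τ) ^ j) σ₀) := by
    intro i hi j hj h
    -- then conj σ₀ = g^m σ₀
    have h1 : ((phi (K := K) τ) ^ (i + (p - j))) σ₀ = ComplexEmbedding.conjugate σ₀ := by
      have h2 : ((phi (K := K) τ) ^ (p - j)) (ComplexEmbedding.conjugate
          (((phi (K := K) τ) ^ j) σ₀)) = ComplexEmbedding.conjugate σ₀ := by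
        rw [phi_conj]
        congr 1
        rw [← Equiv.Perm.mul_apply, ← pow_add]
        have h3 : p - j + j = p := by omega
        rw [h3, hpow]; rfl
      rw [← h2, ← h, ← Equiv.Perm.mul_apply, ← pow_add]
      congr 2
      omega
    have h2 : ((phi (K := K) τ) ^ ((i + (p - j)) + (i + (p - j)))) σ₀ = σ₀ := by
      rw [pow_add, Equiv.Perm.mul_apply, h1, phi_conj, h1, cc_cc]
    have h3 := hfix _ h2
    have h4 : p ∣ 2 * (i + (p - j)) := by rw [two_mul]; exact h3
    have h5 : p ∣ i + (p - j) := by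
      rcases (Nat.Prime.dvd_mul hp).mp h4 with h | h
      · exact absurd ((Nat.prime_dvd_prime_iff_eq hp Nat.prime_two).mp h) hp2
      · exact h
    obtain ⟨m, hm⟩ := h5
    rw [hm, pow_mul, hpow, one_pow] at h1
    exact cc_ne σ₀ h1.symm
  refine ⟨τ, σ₀, hσ₀, hpow, fun i hi j hj h => ?_, hconj, ?_⟩
  · rcases le_total i j with h1 | h1
    · exact hinj i hi j hj h1 h
    · exact (hinj j hj i hi h1 h.symm).symm
  -- counting
  let f : Fin p ⊕ Fin p → (K →+* ℂ) := Sum.elim (fun j => ((phi (K := K) τ) ^ j.1) σ₀)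
    (fun j => ComplexEmbedding.conjugate (((phi (K := K) τ) ^ j.1) σ₀))
  have hfinj : Function.Injective f := by
    have hA : ∀ i j : Fin p, ((phi (K := K) τ) ^ i.1) σ₀ = ((phi (K := K) τ) ^ j.1) σ₀ → i = j := by
      intro i j h
      rcases le_total i.1 j.1 with h1 | h1
      · exact Fin.ext (hinj _ i.2 _ j.2 h1 h)
      · exact Fin.ext (hinj _ j.2 _ i.2 h1 h.symm).symm
    rintro (i | i) (j | j) h
    · rw [hA i j h]
    · exact absurd h (hconj _ i.2 _ j.2)
    · exact absurd h.symm (hconj _ j.2 _ i.2)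
    · have h1 := congrArg ComplexEmbedding.conjugate h
      simp only [f, Sum.elim_inr] at h1
      rw [cc_cc, cc_cc] at h1
      rw [hA i j h1]
  have hfsurj : Function.Surjective f := by
    have h1 : Fintype.card (Fin p ⊕ Fin p) = Fintype.card (K →+* ℂ) := by
      rw [Fintype.card_sum, Fintype.card_fin, NumberField.Embeddings.card, hdeg]; ring
    exact ((Fintype.bijective_iff_injective_and_card f).mpr ⟨hfinj, h1⟩).2
  intro σ
  obtain ⟨j | j, hj⟩ := hfsurj σ
  · exact ⟨j.1, j.2, Or.inl hj.symm⟩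
  · exact ⟨j.1, j.2, Or.inr hj.symm⟩

end perm

variable {I : Type} {L : I → Type} [∀ i, Field (L i)]

/-- translation as linear map -/
def trL (τ : ℂ ≃+* ℂ) : Module.End ℚ (Emb L → ℚ) where
  toFun u := translate L τ u
  map_add' _ _ := rfl
  map_smul' _ _ := rfl

lemma trL_apply (τ : ℂ ≃+* ℂ) (u : Emb L → ℚ) (t : Emb L) :
    trL τ u t = u ⟨t.1, act τ t.2⟩ := rfl

lemma aeval_mem {U : Submodule ℚ (Emb L → ℚ)} (hU : IsOddModule L U) (τ : ℂ ≃+* ℂ)
    (q : Polynomial ℚ) (u : Emb L → ℚ) (hu : u ∈ U) : (aeval (trL (L := L) τ) q) u ∈ U := by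
  induction q using Polynomial.induction_on' with
  | add p q hp hq => rw [map_add, LinearMap.add_apply]; exact U.add_mem hp hq
  | monomial j a =>
    rw [aeval_monomial, Module.End.mul_apply, Module.algebraMap_end_apply]
    refine U.smul_mem _ ?_
    induction j with
    | zero => exact hu
    | succ j ih => rw [pow_succ', Module.End.mul_apply]; exact (hU _ ih).2 τ

variable [Fintype I] [∀ i, NumberField (L i)]

/-- An integral relation with values in `{-1, 0, 1}` on the embeddings of a CM field of degree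
twice an odd prime, whose weight is divisible by `4`, vanishes. -/
theorem prime_zero {U : Submodule ℚ (Emb L → ℚ)} (i₀ : I) [IsCMField (L i₀)] (p : ℕ)
    (hp : p.Prime) (hp2 : p ≠ 2) (hdeg : Module.finrank ℚ (L i₀) = 2 * p) (hU : IsOddModule L U)
    (h2 : ∀ s t : Emb L, s.1 = i₀ → t.1 = i₀ → (fun u => xi s u + xi t u) ∈ U → t = conjT s)
    (z : Emb L → ℤ) (hzU : (fun s => (z s : ℚ)) ∈ U) (hsupp : ∀ s, s.1 ≠ i₀ → z s = 0)
    (hz1 : ∀ s, |z s| ≤ 1) (h4 : ∃ m : ℤ, ∑ s, |z s| = 4 * m) : ∀ s, z s = 0 := by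
  classical
  obtain ⟨τ, σ₀, hσ₀, hpow, hinj, hconj, horb⟩ := exists_orbit (K := L i₀) p hp hp2 hdeg
  have : Fact p.Prime := ⟨hp⟩
  have hzodd : ∀ s, z (conjT s) = - z s := by
    intro s
    have h1 := (hU _ hzU).1 s.1 s.2
    simp only at h1
    exact_mod_cast h1
  let T : Module.End ℚ (Emb L → ℚ) := trL τ.symm
  let sg : ℕ → Emb L := fun j => ⟨i₀, ((phi (K := L i₀) τ) ^ j) σ₀⟩
  have hinv : ∀ (t : Emb L), (⟨t.1, act τ (act τ.symm t.2)⟩ : Emb L) = t := by
    rintro ⟨i, σ⟩
    have : act τ (act τ.symm σ) = σ := RingHom.ext fun x => τ.apply_symm_apply (σ x)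
    show (⟨i, act τ (act τ.symm σ)⟩ : Emb L) = ⟨i, σ⟩
    rw [this]
  have hinv' : ∀ (t : Emb L), (⟨t.1, act τ.symm (act τ t.2)⟩ : Emb L) = t := by
    rintro ⟨i, σ⟩
    have : act τ.symm (act τ σ) = σ := RingHom.ext fun x => τ.symm_apply_apply (σ x)
    show (⟨i, act τ.symm (act τ σ)⟩ : Emb L) = ⟨i, σ⟩
    rw [this]
  -- the action on the functions `xi`
  have hTxi : ∀ s : Emb L, s.1 = i₀ → T (xi s) = xi ⟨s.1, act τ s.2⟩ := by
    rintro ⟨i, σ⟩ hi
    simp only at hi
    subst hi
    funext t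
    rw [trL_apply]
    unfold xi
    have e1 : ((⟨i, σ⟩ : Emb L) = ⟨t.1, act τ.symm t.2⟩) = ((⟨i, act τ σ⟩ : Emb L) = t) := by
      apply propext
      constructor
      · intro h
        rw [← hinv t]
        have h1 := congrArg (fun s : Emb L => (⟨s.1, act τ s.2⟩ : Emb L)) h
        exact h1
      · intro h
        rw [← h]
        exact (hinv' ⟨i, σ⟩).symm
    have e2 : (conjT (⟨i, σ⟩ : Emb L) = ⟨t.1, act τ.symm t.2⟩) =
        (conjT (⟨i, act τ σ⟩ : Emb L) = t) := by
      have h0 : conjT (⟨i, act τ σ⟩ : Emb L) = ⟨i, act τ (ComplexEmbedding.conjugate σ)⟩ := by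
        rw [act_cc]; rfl
      apply propext
      rw [h0]
      constructor
      · intro h
        rw [← hinv t]
        have h1 := congrArg (fun s : Emb L => (⟨s.1, act τ s.2⟩ : Emb L)) h
        exact h1
      · intro h
        rw [← h]
        exact (hinv' ⟨i, ComplexEmbedding.conjugate σ⟩).symm
    simp only [e1, e2]
  have hTj : ∀ j : ℕ, (T ^ j) (xi (sg 0)) = xi (sg j) := by
    intro j
    induction j with
    | zero => rfl
    | succ j ih =>
      rw [pow_succ', Module.End.mul_apply, ih, hTxi _ rfl]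
      congr 1
      show (⟨i₀, act τ (((phi (K := L i₀) τ) ^ j) σ₀)⟩ : Emb L) = ⟨i₀, _⟩
      rw [pow_succ', Equiv.Perm.mul_apply, phi_apply]
  have hsgp : sg p = sg 0 := by
    show (⟨i₀, ((phi (K := L i₀) τ) ^ p) σ₀⟩ : Emb L) = ⟨i₀, ((phi (K := L i₀) τ) ^ 0) σ₀⟩
    rw [hpow, pow_zero]
  have hsginj : ∀ i < p, ∀ j < p, sg i = sg j → i = j := fun i hi j hj h =>
    hinj i hi j hj (sigma_mk_injective (β := fun i => (L i →+* ℂ)) h)
  have hsgconj : ∀ i < p, ∀ j < p, conjT (sg i) ≠ sg j := fun i hi j hj h =>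
    hconj j hj i hi (sigma_mk_injective (β := fun i => (L i →+* ℂ)) h).symm
  -- the polynomial
  let P : Polynomial ℚ := ∑ j ∈ Finset.range p, C ((z (sg j) : ℤ) : ℚ) * X ^ j
  have hP : (aeval T P) (xi (sg 0)) = fun s => (z s : ℚ) := by
    have h1 : (aeval T P) (xi (sg 0)) = ∑ j ∈ Finset.range p, ((z (sg j) : ℤ) : ℚ) • xi (sg j) := by
      simp only [P, map_sum, map_mul, aeval_C, map_pow, aeval_X, LinearMap.sum_apply,
        Module.End.mul_apply, Module.algebraMap_end_apply, hTj]
    rw [h1]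
    have hval : ∀ j < p, (∑ i ∈ Finset.range p, ((z (sg i) : ℤ) : ℚ) • xi (sg i)) (sg j) =
        z (sg j) := by
      intro j hj
      rw [Finset.sum_apply, Finset.sum_eq_single j]
      · rw [Pi.smul_apply, smul_eq_mul, Helper84.xi_self (hsgconj j hj j hj), mul_one]
      · intro i hi hij
        rw [Finset.mem_range] at hi
        rw [Pi.smul_apply, Helper84.xi_eq_zero (fun h => hij (hsginj i hi j hj h))
          (hsgconj i hi j hj), smul_zero]
      · intro h; exact absurd (Finset.mem_range.mpr hj) h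
    have hodd : ∀ s, (∑ i ∈ Finset.range p, ((z (sg i) : ℤ) : ℚ) • xi (sg i)) (conjT s) =
        - (∑ i ∈ Finset.range p, ((z (sg i) : ℤ) : ℚ) • xi (sg i)) s := by
      intro s
      rw [Finset.sum_apply, Finset.sum_apply, ← Finset.sum_neg_distrib]
      refine Finset.sum_congr rfl fun i _ => ?_
      rw [Pi.smul_apply, Pi.smul_apply, xi_conj_right, smul_neg]
    funext s
    by_cases hs : s.1 = i₀
    · obtain ⟨i, σ⟩ := s
      simp only at hs
      subst hs
      obtain ⟨j, hj, h | h⟩ := horb σ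
      · subst h
        exact hval j hj
      · subst h
        have h3 : (⟨i, ComplexEmbedding.conjugate (((phi (K := L i) τ) ^ j) σ₀)⟩ : Emb L) =
            conjT (sg j) := rfl
        rw [h3, hodd, hval j hj, hzodd]
        push_cast; ring
    · rw [hsupp s hs, Finset.sum_apply, Finset.sum_eq_zero]
      · simp
      · intro i _
        obtain ⟨i', σ⟩ := s
        rw [Pi.smul_apply, Helper84.xi_off (fun h => hs h.symm), smul_zero]
  have hTp : (T ^ p) (xi (sg 0)) = xi (sg 0) := by rw [hTj, hsgp]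
  have hcyc := Polynomial.cyclotomic_prime_mul_X_sub_one ℚ p
  have hirr : Irreducible (cyclotomic p ℚ) := Polynomial.cyclotomic.irreducible_rat hp.pos
  have hXp : (aeval T (X ^ p - 1 : Polynomial ℚ)) (xi (sg 0)) = 0 := by
    rw [map_sub, map_pow, aeval_X, map_one, LinearMap.sub_apply, hTp, Module.End.one_apply, sub_self]
  by_cases hdvd : cyclotomic p ℚ ∣ P
  · -- constant on the orbit
    obtain ⟨Q, hQ⟩ := hdvd
    have h1 : (aeval T (X - 1 : Polynomial ℚ)) (fun s => (z s : ℚ)) = 0 := by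
      rw [← hP, ← Module.End.mul_apply, ← map_mul]
      have h3 : (X - 1) * P = Q * (X ^ p - 1) := by rw [hQ, ← hcyc]; ring
      rw [h3, map_mul, Module.End.mul_apply, hXp, map_zero]
    have h3 : ∀ s : Emb L, z ⟨s.1, act τ.symm s.2⟩ = z s := by
      intro s
      have h5 := congrArg (fun f => f s) h1
      rw [map_sub, aeval_X, map_one] at h5
      simp only [LinearMap.sub_apply, Module.End.one_apply, Pi.sub_apply, Pi.zero_apply] at h5
      have h6 : T (fun s => (z s : ℚ)) s = z ⟨s.1, act τ.symm s.2⟩ := rfl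
      rw [h6] at h5
      have h7 := sub_eq_zero.mp h5
      exact_mod_cast h7
    have h5 : ∀ j, z (sg j) = z (sg 0) := by
      intro j
      induction j with
      | zero => rfl
      | succ j ih =>
        rw [← h3 (sg (j + 1)), ← ih]
        congr 1
        show (⟨i₀, act τ.symm (((phi (K := L i₀) τ) ^ (j + 1)) σ₀)⟩ : Emb L) = sg j
        rw [pow_succ', Equiv.Perm.mul_apply, phi_apply]
        exact hinv' (sg j)
    have h6 : ∀ σ : L i₀ →+* ℂ, |z ⟨i₀, σ⟩| = |z (sg 0)| := by
      intro σ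
      obtain ⟨j, hj, h | h⟩ := horb σ
      · subst h
        rw [← h5 j]
      · subst h
        have h7 : (⟨i₀, ComplexEmbedding.conjugate (((phi (K := L i₀) τ) ^ j) σ₀)⟩ : Emb L) =
            conjT (sg j) := rfl
        rw [h7, hzodd, abs_neg, h5 j]
    have h7 : ∑ s, |z s| = 2 * p * |z (sg 0)| := by
      rw [Fintype.sum_sigma, Finset.sum_eq_single i₀]
      · rw [Finset.sum_congr rfl fun σ _ => h6 σ, Finset.sum_const, Finset.card_univ,
          NumberField.Embeddings.card, hdeg, nsmul_eq_mul]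
        push_cast; ring
      · intro i _ hi
        exact Finset.sum_eq_zero fun σ _ => by rw [hsupp _ hi, abs_zero]
      · intro h; exact absurd (Finset.mem_univ _) h
    have h8 : z (sg 0) = 0 := by
      by_contra hne
      have h9 := hz1 (sg 0)
      have h10 : |z (sg 0)| = 1 := le_antisymm h9 (Int.one_le_abs hne)
      rw [h10] at h7
      obtain ⟨m, hm⟩ := h4
      have h11 : (p : ℤ) = 2 * m := by omega
      have h12 : 2 ∣ p := by
        have : (2 : ℤ) ∣ p := ⟨m, h11⟩
        exact_mod_cast this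
      exact hp2 ((Nat.prime_dvd_prime_iff_eq Nat.prime_two hp).mp h12).symm
    intro s
    by_cases hs : s.1 = i₀
    · obtain ⟨i, σ⟩ := s
      simp only at hs
      subst hs
      have h9 := h6 σ
      rw [h8, abs_zero, abs_eq_zero] at h9
      exact h9
    · exact hsupp s hs
  · -- then `xi (sg 1) - xi (sg 0)` is a relation
    exfalso
    obtain ⟨a, b, hab⟩ := (hirr.coprime_iff_not_dvd).mpr hdvd
    have h1 : (X - 1 : Polynomial ℚ) = a * (X ^ p - 1) + b * (X - 1) * P := by
      calc (X - 1 : Polynomial ℚ) = (a * cyclotomic p ℚ + b * P) * (X - 1) := by rw [hab, one_mul]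
        _ = a * (cyclotomic p ℚ * (X - 1)) + b * (X - 1) * P := by ring
        _ = _ := by rw [hcyc]
    have h3 : (aeval T (X - 1 : Polynomial ℚ)) (xi (sg 0)) ∈ U := by
      rw [h1, map_add, LinearMap.add_apply, map_mul, Module.End.mul_apply, hXp, map_zero, zero_add,
        map_mul, Module.End.mul_apply, hP]
      exact aeval_mem hU _ _ _ hzU
    have h5 : (fun u => xi (sg 1) u + xi (conjT (sg 0)) u) ∈ U := by
      have h6 : (fun u => xi (sg 1) u + xi (conjT (sg 0)) u) =
          (aeval T (X - 1 : Polynomial ℚ)) (xi (sg 0)) := by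
        rw [map_sub, aeval_X, map_one, LinearMap.sub_apply, Module.End.one_apply]
        have h7 : T (xi (sg 0)) = xi (sg 1) := by
          have := hTj 1
          rwa [pow_one] at this
        rw [h7]
        funext u
        rw [xi_conj_left, Pi.sub_apply]
        ring
      rw [h6]; exact h3
    have h6 := h2 (sg 1) (conjT (sg 0)) rfl rfl h5
    have h7 := congrArg conjT h6
    rw [conjT_conjT, conjT_conjT] at h7
    have h8 := sigma_mk_injective (β := fun i => (L i →+* ℂ)) h7
    apply hσ₀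
    rw [pow_one, pow_zero] at h8
    exact h8.symm

end Pool.Agent.Helper7.WM
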