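import Pool.Agent.Helper7.Descent

/-!
Consequences of the descent: stable subspaces, commuting maps, invariant bilinear forms.
-/

namespace Pool.Agent.Helper7

open Module

variable {I : Type*} [Fintype I] [DecidableEq I] (n : I → ℕ)
  {κ : I → Type*} [∀ i, Fintype (κ i)] [∀ i, DecidableEq (κ i)] {ϖ : ℂ}
  (P : ∀ i, PData (κ i) ϖ)
  {k : ℕ} (α : MultilinearMap ℂ (fun _ : Fin (2 * k) => HW κ n) ℂ)

section

variable (hϖ : ϖ ≠ 0)
  (hB : ∀ v : Fin (2 * k) → HW κ n, (∀ r, IsRatP n P (v r)) → ∃ q : ℚ, α v = ϖ ^ k * q)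

include hϖ hB in
lemma stable_of_rat (i : I) (U : Submodule ℂ (κ i → ℂ))
    (h : ∀ Y, IsInv n P α Y → IsRatl P Y → ∀ v ∈ U, Y.1 i v ∈ U) (X : GG κ)
    (hX : IsInv n P α X) (v : κ i → ℂ) (hv : v ∈ U) : X.1 i v ∈ U := by
  have h1 := mem_span_of_isInv n P α hϖ hB X hX
  induction h1 using Submodule.span_induction with
  | mem Y hY => exact h Y hY.1 hY.2 v hv
  | zero => exact U.zero_mem
  | add Y Z hY hZ h2 h3 =>
    have h4 : (Y + Z).1 i v = Y.1 i v + Z.1 i v := rfl
    rw [h4]
    refine U.add_mem (h2 ?_) (h3 ?_)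
    · exact (Submodule.span_induction (p := fun Y _ => IsInv n P α Y)
        (fun Y hY => hY.1) (IsInv.zero n P α) (fun _ _ _ _ => IsInv.add n P α)
        (fun c _ _ => IsInv.smul n P α c) hY)
    · exact (Submodule.span_induction (p := fun Y _ => IsInv n P α Y)
        (fun Y hY => hY.1) (IsInv.zero n P α) (fun _ _ _ _ => IsInv.add n P α)
        (fun c _ _ => IsInv.smul n P α c) hZ)
  | smul c Y hY h2 =>
    have h4 : (c • Y).1 i v = c • Y.1 i v := rfl
    rw [h4]
    refine U.smul_mem _ (h2 ?_)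
    exact (Submodule.span_induction (p := fun Y _ => IsInv n P α Y)
        (fun Y hY => hY.1) (IsInv.zero n P α) (fun _ _ _ _ => IsInv.add n P α)
        (fun c _ _ => IsInv.smul n P α c) hY)

include hϖ hB in
lemma comm_of_rat (i j : I) (f : (κ i → ℂ) →ₗ[ℂ] (κ j → ℂ))
    (h : ∀ Y, IsInv n P α Y → IsRatl P Y → ∀ v, Y.1 j (f v) = f (Y.1 i v)) (X : GG κ)
    (hX : IsInv n P α X) (v : κ i → ℂ) : X.1 j (f v) = f (X.1 i v) := by
  have h1 := mem_span_of_isInv n P α hϖ hB X hX
  refine Submodule.span_induction (p := fun X _ => X.1 j (f v) = f (X.1 i v)) ?_ ?_ ?_ ?_ h1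
  · intro Y hY; exact h Y hY.1 hY.2 v
  · exact (map_zero f).symm
  · intro Y Z _ _ hY hZ
    show Y.1 j (f v) + Z.1 j (f v) = f (Y.1 i v + Z.1 i v)
    rw [hY, hZ, map_add]
  · intro c Y _ hY
    show c • Y.1 j (f v) = f (c • Y.1 i v)
    rw [hY, map_smul]

variable (hA : ∀ v : Fin (2 * k) → HW κ n, (∀ r i m j, IsAlgebraic ℚ (v r i m j)) →
      IsAlgebraic ℚ (α v))

include hϖ hB hA in
lemma isDRB_of_rat_comm (i j : I) (f : (κ i → ℂ) →ₗ[ℂ] (κ j → ℂ))
    (hr : ∀ v ∈ (P i).Q, f v ∈ (P j).Q)
    (h : ∀ Y, IsInv n P α Y → IsRatl P Y → ∀ v, Y.1 j (f v) = f (Y.1 i v)) :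
    IsDRB (P i) (P j) f :=
  isDRB_of_comm (P i) (P j) f hr (fun D v =>
    comm_of_rat n P α hϖ hB i j f h _ (isInv_N n P α hϖ hB hA D) v)

omit [Fintype I] [DecidableEq I] in
lemma PData.nabla_rat (i : I) (D : Derivation ℚ ℂ ℂ) (v : κ i → ℂ) (hv : v ∈ (P i).Q) :
    nabla (P i).bB D v = 0 := by
  apply nabla_eq_zero
  intro q
  obtain ⟨a, ha⟩ := (P i).repr_rat v hv q
  rw [ha]; exact isAlgebraic_ratCast ℚ a

include hϖ hB hA in
/-- subspaces spanned by rational vectors and stable under symmetries are spanned by algebraic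
vectors -/
lemma algebraic_of_stable (i : I) (S : Set (κ i → ℂ)) (hS : ∀ v ∈ S, v ∈ (P i).Q)
    (h : ∀ Y, IsInv n P α Y → IsRatl P Y → ∀ v ∈ S, Y.1 i v ∈ Submodule.span ℂ S) :
    Submodule.span ℂ S ≤ Submodule.span ℂ
      {v | (∀ j, IsAlgebraic ℚ (v j)) ∧ v ∈ Submodule.span ℂ S} := by
  have h0 := le_span_algebraic (Pi.basisFun ℂ (κ i)) (Submodule.span ℂ S) (by
    intro D v hv
    have h1 : (P i).N D v ∈ Submodule.span ℂ S := by
      refine stable_of_rat n P α hϖ hB i (Submodule.span ℂ S) ?_ _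
        (isInv_N n P α hϖ hB hA D) v hv
      intro Y hY hYr w hw
      induction hw using Submodule.span_induction with
      | mem x hx => exact h Y hY hYr x hx
      | zero => rw [map_zero]; exact Submodule.zero_mem _
      | add x y _ _ hx hy => rw [map_add]; exact Submodule.add_mem _ hx hy
      | smul c x _ hx => rw [map_smul]; exact Submodule.smul_mem _ _ hx
    have h2 : nabla (P i).bB D v ∈ Submodule.span ℂ S := by
      induction hv using Submodule.span_induction with
      | mem x hx => rw [PData.nabla_rat P i D x (hS x hx)]; exact Submodule.zero_mem _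
      | zero => rw [nabla_zero]; exact Submodule.zero_mem _
      | add x y _ _ hx hy =>
        rw [nabla_add]
        refine Submodule.add_mem _ (hx ?_) (hy ?_)
        · exact stable_of_rat n P α hϖ hB i (Submodule.span ℂ S) (fun Y hY hYr w hw => by
            induction hw using Submodule.span_induction with
            | mem x hx => exact h Y hY hYr x hx
            | zero => rw [map_zero]; exact Submodule.zero_mem _
            | add x y _ _ hx hy => rw [map_add]; exact Submodule.add_mem _ hx hy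
            | smul c x _ hx => rw [map_smul]; exact Submodule.smul_mem _ _ hx) _
            (isInv_N n P α hϖ hB hA D) x ‹_›
        · exact stable_of_rat n P α hϖ hB i (Submodule.span ℂ S) (fun Y hY hYr w hw => by
            induction hw using Submodule.span_induction with
            | mem x hx => exact h Y hY hYr x hx
            | zero => rw [map_zero]; exact Submodule.zero_mem _
            | add x y _ _ hx hy => rw [map_add]; exact Submodule.add_mem _ hx hy
            | smul c x _ hx => rw [map_smul]; exact Submodule.smul_mem _ _ hx) _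
            (isInv_N n P α hϖ hB hA D) y ‹_›
      | smul c x hx' hx =>
        rw [nabla_smul]
        refine Submodule.add_mem _ (Submodule.smul_mem _ _ hx') (Submodule.smul_mem _ _ (hx ?_))
        exact stable_of_rat n P α hϖ hB i (Submodule.span ℂ S) (fun Y hY hYr w hw => by
            induction hw using Submodule.span_induction with
            | mem x hx => exact h Y hY hYr x hx
            | zero => rw [map_zero]; exact Submodule.zero_mem _
            | add x y _ _ hx hy => rw [map_add]; exact Submodule.add_mem _ hx hy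
            | smul c x _ hx => rw [map_smul]; exact Submodule.smul_mem _ _ hx) _
            (isInv_N n P α hϖ hB hA D) x ‹_›
    have h3 : nabla (Pi.basisFun ℂ (κ i)) D v = (P i).N D v + nabla (P i).bB D v := by
      rw [PData.N, opN_apply]; abel
    rw [h3]
    exact Submodule.add_mem _ h1 h2)
  simpa only [Pi.basisFun_repr] using h0

include hϖ hB hA in
/-- invariant bilinear forms come from de Rham-Betti morphisms -/
lemma bilin_of_inv (i j : I) (β : (κ i → ℂ) →ₗ[ℂ] (κ j → ℂ) →ₗ[ℂ] ℂ)
    (hβ : ∀ X, IsInv n P α X → ∀ u v, β (X.1 i u) v + β u (X.1 j v) = X.2 * β u v) :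
    ∃ (m : ℕ) (c : Fin m → ℂ) (f : Fin m → ((κ i → ℂ) →ₗ[ℂ] (κ j → ℂ))),
      (∀ l, IsDRB (P i) (P j) (f l)) ∧ ∀ u v, β u v = ∑ l, c l * (P j).ψ (f l u) v := by
  -- the linear map representing `β`
  have hinj : Function.Injective (P j).ψ := by
    intro u u' huu
    have h1 : u - u' = 0 := (P j).hψnd _ (fun v => by
      rw [map_sub, LinearMap.sub_apply, huu, sub_self])
    exact sub_eq_zero.mp h1
  let E : (κ j → ℂ) ≃ₗ[ℂ] Module.Dual ℂ (κ j → ℂ) :=
    LinearMap.linearEquivOfInjective (P j).ψ hinj (Subspace.dual_finrank_eq).symm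
  have hE : ∀ u, E u = (P j).ψ u := fun u => LinearMap.linearEquivOfInjective_apply _ _ _
  let F : (κ i → ℂ) →ₗ[ℂ] (κ j → ℂ) := E.symm.toLinearMap ∘ₗ β
  have hF : ∀ u v, (P j).ψ (F u) v = β u v := by
    intro u v
    rw [← hE]
    show E (E.symm (β u)) v = _
    rw [LinearEquiv.apply_symm_apply]
  have hcomm : ∀ X, IsInv n P α X → ∀ u, X.1 j (F u) = F (X.1 i u) := by
    intro X hX u
    rw [← sub_eq_zero]
    apply (P j).hψnd
    intro v
    rw [map_sub, LinearMap.sub_apply, hF]
    have h1 := hX.pol j (F u) v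
    have h2 := hβ X hX u v
    rw [hF, hF] at h1
    linear_combination h1 - h2
  -- decompose into rational maps
  obtain ⟨m, c, y, hc, hy⟩ := exists_rat_decomp (X := (P j).ι × (P i).ι)
    (fun t => (P j).bB.repr (F ((P i).bB t.2)) t.1)
  let f : Fin m → ((κ i → ℂ) →ₗ[ℂ] (κ j → ℂ)) := fun l =>
    (P i).bB.constr ℂ (fun q => ∑ p, (y l (p, q) : ℂ) • (P j).bB p)
  have hfb : ∀ l q, f l ((P i).bB q) = ∑ p, (y l (p, q) : ℂ) • (P j).bB p :=
    fun l q => Basis.constr_basis _ _ _ _
  have hfr : ∀ l, ∀ v ∈ (P i).Q, f l v ∈ (P j).Q := by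
    intro l v hv
    unfold PData.Q at hv
    induction hv using Submodule.span_induction with
    | mem x hx =>
      obtain ⟨q, rfl⟩ := hx
      rw [hfb]
      exact Submodule.sum_mem _ fun p _ => (P j).rat_smul_mem _ _ ((P j).basis_mem p)
    | zero => rw [map_zero]; exact Submodule.zero_mem _
    | add x y _ _ hx hy => rw [map_add]; exact Submodule.add_mem _ hx hy
    | smul a x _ hx =>
      have h1 : a • x = (a : ℂ) • x := by
        rw [← algebraMap_smul ℂ a x]; rfl
      rw [h1, map_smul]
      exact (P j).rat_smul_mem _ _ hx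
  have hsum : F = ∑ l, c l • f l := by
    apply (P i).bB.ext
    intro q
    rw [LinearMap.sum_apply]
    simp only [LinearMap.smul_apply, hfb, Finset.smul_sum, smul_smul]
    rw [Finset.sum_comm]
    conv_lhs => rw [← (P j).bB.sum_repr (F ((P i).bB q))]
    refine Finset.sum_congr rfl fun p _ => ?_
    rw [← Finset.sum_smul]
    congr 1
    exact hy (p, q)
  have hsum' : ∀ u, F u = ∑ l, c l • f l u := by
    intro u
    rw [hsum, LinearMap.sum_apply]; rfl
  refine ⟨m, c, f, fun l => ?_, fun u v => ?_⟩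
  · refine isDRB_of_rat_comm n P α hϖ hB hA i j (f l) (hfr l) ?_
    intro Y hY hYr
    have h1 : (Y.1 j) ∘ₗ f l = f l ∘ₗ (Y.1 i) := by
      apply (P i).bB.ext
      intro q
      have h2 := vec_eq_zero_of_indep (P j).bB c hc
        (fun l => Y.1 j (f l ((P i).bB q)) - f l (Y.1 i ((P i).bB q))) (fun l =>
          Submodule.sub_mem _ (hYr.1 j _ (hfr l _ ((P i).basis_mem q)))
            (hfr l _ (hYr.1 i _ ((P i).basis_mem q)))) (by
          have h3 := hcomm Y hY ((P i).bB q)
          rw [hsum', hsum', map_sum] at h3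
          simp only [map_smul] at h3
          simp only [smul_sub, Finset.sum_sub_distrib]
          rw [h3, sub_self]) l
      exact sub_eq_zero.mp h2
    exact fun v => congrArg (fun g => g v) h1
  · rw [← hF, hsum', map_sum, LinearMap.sum_apply]
    refine Finset.sum_congr rfl fun l _ => ?_
    rw [map_smul, LinearMap.smul_apply, smul_eq_mul]

end

end Pool.Agent.Helper7
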