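import Pool.Agent.Helper7.CMTypes

/-!
Simple abelian varieties of prime dimension with complex multiplication.
-/

namespace Pool.Agent.GPC

/-- There is only one factor `A_i`, `i ∈ T`, it is simple, its dimension is a prime number and
`n_i = 1`. -/
def PrimeDimCM {I : Type} (A : I → AbVar) (n : I → ℕ) (T : Finset I) : Prop :=
  ∃ i, T = {i} ∧ (A i).IsSimple ∧ (A i).g.Prime ∧ n i = 1

end Pool.Agent.GPC
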