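import Pool.Agent.Helper7.MainC
import Pool.Agent.Helper7.CMTypes2

/-!
The theorem in all degrees under any of the conditions on the factors of CM type.
-/

namespace Pool.Agent.Helper7

open Module NumberField

open Pool.Agent.GPC

variable {I : Type} [Fintype I] (A : I → AbVar) (n : I → ℕ) (K : I → Type)
  [∀ i, Field (K i)] [∀ i, NumberField (K i)]

theorem main_D (hT : ∀ i, NotProportional (A i))
    (hNS : ∀ i, IsTotallyReal (K i) → NoStableLine (A i) (K i)) (S T : Finset I)
    (hST : ∀ i, i ∈ S ∨ i ∈ T) (hS : ∀ i ∈ S, IsRMType (A i) (K i))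
    (hC : ∀ i ∈ T, IsCMType (A i) (K i))
    (h : OddMultiplicityFree K ∨ LowDimCM A n K T ∨ PrimeDimCM A n T)
    (k : ℕ) (α : Form A n (2 * k)) : IsGrothendieck A n k α ↔ IsDivisorial A n k α := by
  rcases h with h | h | ⟨i₀, hi, hs, hp, hn⟩
  · exact main_low A n K hT hNS S T hST hS hC (Or.inl h) k α
  · exact main_low A n K hT hNS S T hST hS hC (Or.inr h) k α
  · refine main_prime A n K hT hNS i₀ (fun i hne => ?_) (hC i₀ ?_) hs hp hn k α
    · refine hS i ((hST i).resolve_right fun h2 => hne ?_)
      rw [hi, Finset.mem_singleton] at h2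
      exact h2
    · rw [hi]; exact Finset.mem_singleton_self _

end Pool.Agent.Helper7
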