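import Pool.Agent.Helper7.SmallF
import Pool.Agent.Helper7.MainD

/-!
The hypotheses of the theorem on slot functions with small labels.
-/

namespace Pool.Agent.Helper7

open Module NumberField LieAlgebra

attribute [local instance 100] LieRing.ofAssociativeRing

open Pool.Agent.GPC
open Pool.Agent.Helper84 (xi)
open Pool.Agent.Helper8 (Symp Principal SF SF0 PS symG perfect_of_killing)

set_option linter.unusedSectionVars false

section family

variable {I : Type} [Fintype I] [DecidableEq I] (n : I → ℕ)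
  {κ : I → Type} [∀ i, Fintype (κ i)] [∀ i, DecidableEq (κ i)] {ϖ : ℂ}
  (P : ∀ i, PData (κ i) ϖ)
  {K : I → Type} [∀ i, Field (K i)] [∀ i, NumberField (K i)]
  (F : ∀ i, FS (P i) (K i))
  {k : ℕ} (α : MultilinearMap ℂ (fun _ : Fin (2 * k) => HW κ n) ℂ)
  (ok : I → Prop)
  (hϖ : ϖ ≠ 0)
  (hB : ∀ v : Fin (2 * k) → HW κ n, (∀ r, IsRatP n P (v r)) → ∃ q : ℚ, α v = ϖ ^ k * q)
  (hA : ∀ v : Fin (2 * k) → HW κ n, (∀ r i m j, IsAlgebraic ℚ (v r i m j)) →
      IsAlgebraic ℚ (α v))

include hϖ hB hA in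
/-- slot functions all of whose labels have spaces of dimension at most two -/
theorem small_fft (hk : IsKilling ℂ (LL n P F α)) (p : Principal (LL n P F α))
    (h2 : ∀ s : Emb K, ok s.1 → (F s.1).isLeft → finrank ℂ (Vs n P F α s) = 2)
    (hre : ∀ i, (F i).isLeft → ∀ σ : K i →+* ℂ, ComplexEmbedding.conjugate σ = σ)
    (hNE : ∀ z : Emb K → ℤ, (fun t => (z t : ℚ)) ∈ relS n P F α → (∀ t, |z t| ≤ n t.1) →
      (∃ m : ℤ, ∑ t, |z t| = 4 * m) → ∀ t, ¬ (F t.1).isLeft → z t = 0)
    {R : Type*} [DecidableEq R] {T : Finset R} {q : R → At n K} {Φ : (R → HW κ n) → ℂ}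
    (hev : Even T.card) (hΦ : SF (symG n P α) (EE n P F) q T Φ) (hq : ∀ r ∈ T, ok (q r).1) :
    Φ ∈ PS (invB n P α) T := by
  classical
  have hskew : ∀ s : Emb K, (F s.1).isLeft → ∀ X hX,
      LinearMap.trace ℂ (Vs n P F α s)
        (LieModule.toEnd ℂ (LL n P F α) (Vs n P F α s) (elL n P F α X hX)) = 0 := by
    intro s hs X hX
    exact trace_skew (omV n P F α s) (omV_symp n P F α s hs).nd _
      (fun a b => (omV_symp n P F α s hs).inv _ a b)
  refine small_core n P F α ok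
    (fun s hs hl => Module.finBasisOfFinrankEq ℂ (Vs n P F α s) (h2 s hs hl)) ?_ ?_ hre hNE hev hΦ
    hq
  · intro s hs hl Y hY
    have hn : Nontrivial (Vs n P F α s) := by
      apply Module.finrank_pos_iff (R := ℂ).mp
      rw [h2 s hs hl]; norm_num
    have hirr := Vs_irr n P F α hϖ hB hA s hl hn
    obtain ⟨a, ha⟩ := surj_dim2 p (omV_symp n P F α s hl) (h2 s hs hl) Y hY
    obtain ⟨X, hX, rfl, hX2, -⟩ := perfect_lift n P F α hk a
    refine ⟨X, hX, ?_⟩
    apply LinearMap.ext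
    intro x
    rw [actV_real n P F α s hl X hX, hX2, zero_div, zero_smul, add_zero, ha]
  · intro s hs hl X hX
    have h3 : actV n P F α s (X.1 s.1) =
        LieModule.toEnd ℂ (LL n P F α) (Vs n P F α s) (elL n P F α X hX) +
          (X.2 / 2) • (1 : Module.End ℂ (Vs n P F α s)) := by
      apply LinearMap.ext
      intro x
      rw [actV_real n P F α s hl X hX]
      rfl
    rw [h3, map_add, hskew s hl X hX, map_smul, LinearMap.trace_one, h2 s hs hl, smul_eq_mul]
    push_cast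
    ring

include hϖ hB in
/-- a relation between two weights -/
lemma pair_of_relS (s s' : Emb K) (h : (fun t => xi s t + xi s' t) ∈ relS n P F α) (X : GG κ)
    (hX : IsInv n P α X) : chiC P F s X + chiC P F s' X = X.2 := by
  have hr : ∀ X, IsInv n P α X → IsRatl P X → chiC P F s X + chiC P F s' X = X.2 := by
    intro X hX hXr
    have h1 := h.2 X hX hXr
    have h2 : ∑ t, (((xi s t + xi s' t : ℚ)) : ℂ) * chiC P F t X =
        ∑ t, ((xi s t : ℚ) : ℂ) * chiC P F t X + ∑ t, ((xi s' t : ℚ) : ℂ) * chiC P F t X := by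
      rw [← Finset.sum_add_distrib]
      refine Finset.sum_congr rfl fun t _ => ?_
      push_cast; ring
    rw [h2, sum_xi, sum_xi] at h1
    have e1 := chiC_conj n P F α s X hX
    have e2 := chiC_conj n P F α s' X hX
    linear_combination h1 / 2 + e1 / 2 + e2 / 2
  have h3 := mem_span_of_isInv n P α hϖ hB X hX
  refine Submodule.span_induction (p := fun X _ => chiC P F s X + chiC P F s' X = X.2)
    ?_ ?_ ?_ ?_ h3
  · rintro Y ⟨hY, hYr⟩
    exact hr Y hY hYr
  · exact hr 0 (IsInv.zero n P _) ⟨fun i v hv => by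
      show (0 : κ i → ℂ) ∈ (P i).Q
      exact Submodule.zero_mem _, 0, by simp⟩
  · intro Y Z _ _ hY hZ
    have e1 := (F s.1).chi_add s.2 (Y.1 s.1) (Z.1 s.1) Y.2 Z.2
    have e2 := (F s'.1).chi_add s'.2 (Y.1 s'.1) (Z.1 s'.1) Y.2 Z.2
    show (F s.1).chi s.2 (Y.1 s.1 + Z.1 s.1) (Y.2 + Z.2) +
      (F s'.1).chi s'.2 (Y.1 s'.1 + Z.1 s'.1) (Y.2 + Z.2) = Y.2 + Z.2
    rw [e1, e2]
    unfold chiC at hY hZ
    linear_combination hY + hZ
  · intro c Y _ hY
    have e1 := (F s.1).chi_smul s.2 (Y.1 s.1) c Y.2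
    have e2 := (F s'.1).chi_smul s'.2 (Y.1 s'.1) c Y.2
    show (F s.1).chi s.2 (c • Y.1 s.1) (c * Y.2) +
      (F s'.1).chi s'.2 (c • Y.1 s'.1) (c * Y.2) = c * Y.2
    rw [e1, e2]
    unfold chiC at hY
    linear_combination c * hY

include hϖ hB hA in
/-- two places with the same weight are equal -/
lemma eq_of_relS (s s' : Emb K) (hs : ¬ (F s.1).isLeft) (hs' : ¬ (F s'.1).isLeft)
    (hsimple : ∀ f, IsDRB (P s.1) (P s.1) f → ∃ x, ∀ v, f v = (F s.1).ρ x v)
    (hiso : s.1 ≠ s'.1 → ∀ f, IsDRB (P s.1) (P s'.1) f → ∀ v, f v = 0)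
    (h : (fun t => xi s t + xi s' t) ∈ relS n P F α) : s' = conjT s := by
  have hχ := pair_of_relS n P F α hϖ hB s s' h
  obtain ⟨i, σ⟩ := s
  obtain ⟨j, τ⟩ := s'
  simp only at hs hs' hsimple hiso
  obtain ⟨m, c, f, hf, hβ⟩ := bilin_of_inv n P α hϖ hB hA i j
    ((LinearMap.mul ℂ ℂ).compl₁₂ ((F i).cv σ) ((F j).cv τ)) (by
      intro X hX u v
      simp only [LinearMap.compl₁₂_apply, LinearMap.mul_apply']
      rw [(F i).cv_act hs σ (X.1 i) X.2 (fun x v => IsInv.commK n P F _ hX i x v),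
        (F j).cv_act hs' τ (X.1 j) X.2 (fun x v => IsInv.commK n P F _ hX j x v)]
      have e : (F i).chi σ (X.1 i) X.2 + (F j).chi τ (X.1 j) X.2 = X.2 := hχ X hX
      linear_combination (F i).cv σ u * (F j).cv τ v * e)
  simp only [LinearMap.compl₁₂_apply, LinearMap.mul_apply'] at hβ
  have h1 := hβ ((F i).ev σ) ((F j).ev τ)
  rw [(F i).cv_ev' hs, (F j).cv_ev' hs', mul_one] at h1
  by_cases hij : i = j
  · subst hij
    choose x hx using fun l => hsimple (f l) (hf l)
    have hcomm : ∀ l y v, f l ((F i).ρ y v) = (F i).ρ y (f l v) := by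
      intro l y v
      rw [hx, hx, ← Module.End.mul_apply, ← Module.End.mul_apply, ← map_mul, ← map_mul, mul_comm]
    obtain ⟨cc, hcc, hros⟩ := (F i).exists_cc hs
    have h2 : ∀ y, (F i).cv σ ((F i).ρ y ((F i).ev σ)) * (F i).cv τ ((F i).ev τ) =
        (F i).cv σ ((F i).ev σ) * (F i).cv τ ((F i).ρ (cc y) ((F i).ev τ)) := by
      intro y
      rw [hβ, hβ]
      refine Finset.sum_congr rfl fun l _ => ?_
      rw [hcomm, hros]
    have h3 : τ = ComplexEmbedding.conjugate σ := by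
      refine RingHom.ext fun y => ?_
      have h4 := h2 y
      rw [(F i).rho_ev hs, (F i).rho_ev hs, map_smul, map_smul, (F i).cv_ev' hs, (F i).cv_ev' hs,
        smul_eq_mul, smul_eq_mul, hcc] at h4
      simp only [mul_one, one_mul] at h4
      rw [ComplexEmbedding.conjugate_coe_eq, h4, Complex.conj_conj]
    rw [h3]
    rfl
  · exfalso
    have h2 : ∀ l v, f l v = 0 := fun l v => hiso hij (f l) (hf l) v
    rw [Finset.sum_eq_zero (fun l _ => by rw [h2, map_zero, LinearMap.zero_apply, mul_zero])] at h1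
    exact one_ne_zero h1

end family

section conditions

variable {I : Type} [Fintype I] [DecidableEq I] (A : I → AbVar) (n : I → ℕ) (K : I → Type)
  [∀ i, Field (K i)] [∀ i, NumberField (K i)]

/-- the conditions on the factors of CM type imply the absence of exceptional relations -/
theorem noExotic_of (S T : Finset I) (hST : ∀ i, i ∈ S ∨ i ∈ T)
    (hS : ∀ i ∈ S, IsTotallyReal (K i)) (hC : ∀ i ∈ T, IsCMType (A i) (K i))
    (h : OddMultiplicityFree K ∨ LowDimCM A n K T ∨ PrimeDimCM A n T) :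
    OddMultiplicityFree K ∨ ((∀ i ∈ T, (A i).IsSimple) ∧
      (∀ i ∈ T, ∀ j ∈ T, i ≠ j → ∀ f, (A i).IsMor (A j) f → ∀ v, f v = 0) ∧ NoExotic n K T) := by
  rcases h with h | h | ⟨i₀, rfl, hs, hp, hn⟩
  · exact Or.inl h
  · refine Or.inr ⟨h.simple, h.hom_zero, ?_⟩
    have hd : ∑ i ∈ T, n i * finrank ℚ (K i) = 2 * ∑ i ∈ T, n i * (A i).g := by
      rw [Finset.mul_sum]
      refine Finset.sum_congr rfl fun i hi => ?_
      obtain ⟨h1, ⟨C⟩⟩ := hC i hi
      rw [C.degree]; ring
    refine noExotic_low (fun i hi => hS i ((hST i).resolve_right hi))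
      (fun i hi => (hC i hi).choose) ?_ (fun h8 => ?_)
    · rw [hd]
      have := h.dim_le
      omega
    · rw [hd] at h8
      exact h.not_weil (by omega)
  · obtain ⟨hcm, ⟨C⟩⟩ := hC i₀ (Finset.mem_singleton_self _)
    have hdeg := C.degree
    have hR : ∀ i, i ≠ i₀ → IsTotallyReal (K i) := fun i hne =>
      hS i ((hST i).resolve_right (fun h2 => hne (Finset.mem_singleton.mp h2)))
    refine Or.inr ⟨fun i hi => ?_, fun i hi j hj hij => ?_, ?_⟩
    · rw [Finset.mem_singleton] at hi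
      subst hi
      exact hs
    · rw [Finset.mem_singleton] at hi hj
      exact absurd (hi.trans hj.symm) hij
    · by_cases h2 : (A i₀).g = 2
      · refine noExotic_low (fun i hi => hR i (fun h => hi (Finset.mem_singleton.mpr h)))
          (fun i hi => ?_) ?_ (fun h8 => ?_)
        · rw [Finset.mem_singleton] at hi
          subst hi
          exact hcm
        · rw [Finset.sum_singleton, hn, hdeg, h2]
          norm_num
        · rw [Finset.sum_singleton, hn, hdeg, h2] at h8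
          norm_num at h8
      · exact noExotic_prime i₀ hR (A i₀).g hp h2 hdeg hn

variable {n K}

/-- no exceptional relations for the weights of a family -/
theorem relS_noExotic {k : ℕ} (F : ∀ i, FS (pData (A i)) (K i))
    (α : MultilinearMap ℂ (fun _ : Fin (2 * k) => HW (fun i => Fin (A i).g ⊕ Fin (A i).g) n) ℂ)
    (hB : ∀ v : Fin (2 * k) → HW (fun i => Fin (A i).g ⊕ Fin (A i).g) n,
      (∀ r, IsRatP n (fun i => pData (A i)) (v r)) →
      ∃ q : ℚ, α v = (2 * Real.pi * Complex.I) ^ k * q)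
    (hA : ∀ v : Fin (2 * k) → HW (fun i => Fin (A i).g ⊕ Fin (A i).g) n,
      (∀ r i m j, IsAlgebraic ℚ (v r i m j)) → IsAlgebraic ℚ (α v))
    (S T : Finset I) (hST : ∀ i, i ∈ S ∨ i ∈ T) (hFl : ∀ i, (F i).isLeft ↔ i ∈ S)
    (hS : ∀ i ∈ S, IsTotallyReal (K i)) (hC : ∀ i ∈ T, IsCMType (A i) (K i))
    (h : OddMultiplicityFree K ∨ LowDimCM A n K T ∨ PrimeDimCM A n T)
    (z : Emb K → ℤ) (hzU : (fun t => (z t : ℚ)) ∈ relS n (fun i => pData (A i)) F α)
    (hzn : ∀ t, |z t| ≤ n t.1) (h4 : ∃ m : ℤ, ∑ t, |z t| = 4 * m) (t : Emb K)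
    (ht : ¬ (F t.1).isLeft) : z t = 0 := by
  have hre : ∀ i, (F i).isLeft → ∀ σ : K i →+* ℂ, ComplexEmbedding.conjugate σ = σ := by
    intro i hi σ
    have := hS i ((hFl i).mp hi)
    exact ComplexEmbedding.isReal_iff.mp (IsTotallyReal.complexEmbedding_isReal σ)
  have hodd := relS_odd n (fun i => pData (A i)) F α hre
  have hNT : ∀ i, i ∉ S → i ∈ T := fun i hi => (hST i).resolve_left hi
  have htT : ∀ t : Emb K, t.1 ∈ T → t.1 ∉ S := by
    intro t h1 h2
    have h3 := hS _ h2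
    have h5 := (hC _ h1).choose
    have σ : K t.1 →+* ℂ := Classical.choice inferInstance
    exact IsTotallyComplex.complexEmbedding_not_isReal σ
      (IsTotallyReal.complexEmbedding_isReal σ)
  rcases noExotic_of A n K S T hST hS hC h with hfree | ⟨hsimple, hiso, hne⟩
  · by_contra hz0
    obtain ⟨w, hw1, hw2, hw3⟩ := relS_ne n (fun i => pData (A i)) F α
      Complex.two_pi_I_ne_zero hB hA t.1 ht
    refine hw3 (hfree _ hodd t.1 ⟨_, hzU, t.2, ?_⟩ w hw1 hw2)
    exact_mod_cast hz0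
  · refine hne _ hodd ?_ z hzU hzn h4 t (hNT _ fun h => ht ((hFl _).mpr h))
    intro s s' hs hs' hrel
    have hsg : ¬ (F s.1).isLeft := fun h => htT s hs ((hFl _).mp h)
    have hsg' : ¬ (F s'.1).isLeft := fun h => htT s' hs' ((hFl _).mp h)
    refine eq_of_relS n (fun i => pData (A i)) F _ Complex.two_pi_I_ne_zero hB hA s s' hsg hsg'
      ?_ ?_ hrel
    · intro f hf
      refine (F s.1).simple_rho hsg ?_ f hf
      intro g hg hg0
      exact hsimple s.1 hs g (isEnd_of_isDRB (A s.1) g hg) hg0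
    · intro hne f hf v
      have h1 := (isDRB_iff (A s.1) (A s'.1) f).mp hf
      exact hiso s.1 hs s'.1 hs' hne f
        ⟨f.isLinear, h1.1, h1.2, hom_fil (A s.1) (A s'.1) f f.isLinear h1.1 h1.2⟩ v

end conditions

end Pool.Agent.Helper7
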