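import Pool.Agent.Helper7.Burnside
import Pool.Agent.Helper7.Local

/-!
A factor with a totally real field of self-adjoint endomorphisms which is its own centraliser:
adapted coordinates.
-/

namespace Pool.Agent.Helper7

open Module NumberField

/-- rational subspaces spanned by algebraic vectors are non-degenerate -/
def HNd {κ : Type} [Fintype κ] [DecidableEq κ] {ϖ : ℂ} (P : PData κ ϖ) : Prop :=
  ∀ S : Submodule ℚ (κ → ℂ), S ≤ P.Q →
    (Submodule.span ℂ (S : Set (κ → ℂ)) ≤ Submodule.span ℂ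
      {v | (∀ j, IsAlgebraic ℚ (v j)) ∧ v ∈ Submodule.span ℂ (S : Set (κ → ℂ))}) →
    ∀ u ∈ S, (∀ v ∈ S, P.ψ u v = 0) → u = 0

/-- A factor with an action of a number field by self-adjoint endomorphisms, which is its own
centraliser. -/
structure RF {κ : Type} [Fintype κ] [DecidableEq κ] {ϖ : ℂ} (P : PData κ ϖ) (K : Type) [Field K]
    [NumberField K] where
  ρ : K →+* Module.End ℂ (κ → ℂ)
  hρ : ∀ x, IsDRB P P (ρ x)
  hros : ∀ x u v, P.ψ (ρ x u) v = P.ψ u (ρ x v)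
  hcen : ∀ f, IsDRB P P f → (∀ x v, f (ρ x v) = ρ x (f v)) → ∃ x, ∀ v, f v = ρ x v
  hnd : HNd P
  r : ℕ
  lam : Fin r → (κ → ℂ)
  lam_rat : ∀ j, lam j ∈ P.Q
  gen : ∀ u ∈ P.Q, ∃ x : Fin r → K, u = ∑ j, ρ (x j) (lam j)
  eb : Basis ((K →+* ℂ) × Fin r) ℂ (κ → ℂ)
  heb : ∀ σ j, eb (σ, j) = proj ρ σ (lam j)

namespace RF

variable {κ : Type} [Fintype κ] [DecidableEq κ] {ϖ : ℂ} {P : PData κ ϖ} {K : Type} [Field K]
    [NumberField K] (F : RF P K)

/-- adapted vectors -/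
noncomputable def e (σ : K →+* ℂ) (j : Fin F.r) : κ → ℂ := F.eb (σ, j)

lemma e_eq (σ : K →+* ℂ) (j : Fin F.r) : F.e σ j = proj F.ρ σ (F.lam j) := F.heb σ j

/-- adapted coordinates -/
noncomputable def co (σ : K →+* ℂ) (j : Fin F.r) : (κ → ℂ) →ₗ[ℂ] ℂ := F.eb.coord (σ, j)

lemma hsum (v : κ → ℂ) : v = ∑ σ, ∑ j, F.co σ j v • F.e σ j := by
  conv_lhs => rw [← F.eb.sum_repr v]
  rw [Fintype.sum_prod_type]
  rfl

lemma co_e (σ : K →+* ℂ) (j : Fin F.r) (σ' : K →+* ℂ) (j' : Fin F.r) :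
    F.co σ j (F.e σ' j') = open Classical in if σ = σ' ∧ j = j' then 1 else 0 := by
  classical
  rw [co, e, Basis.coord_apply, Basis.repr_self, Finsupp.single_apply]
  have h3 : ((σ', j') = (σ, j)) ↔ (σ = σ' ∧ j = j') := by
    rw [Prod.mk.injEq]
    exact ⟨fun h => ⟨h.1.symm, h.2.symm⟩, fun h => ⟨h.1.symm, h.2.symm⟩⟩
  simp only [h3]

lemma rho_e (x : K) (σ : K →+* ℂ) (j : Fin F.r) : F.ρ x (F.e σ j) = σ x • F.e σ j := by
  rw [e_eq, ← Module.End.mul_apply, rho_mul_proj, LinearMap.smul_apply]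

lemma proj_e (σ σ' : K →+* ℂ) (j : Fin F.r) :
    proj F.ρ σ (F.e σ' j) = open Classical in if σ = σ' then F.e σ' j else 0 := by
  classical
  rw [e_eq, ← Module.End.mul_apply, proj_mul_proj]
  split_ifs
  · rfl
  · rfl

lemma proj_eq (σ : K →+* ℂ) (v : κ → ℂ) : proj F.ρ σ v = ∑ j, F.co σ j v • F.e σ j := by
  classical
  conv_lhs => rw [F.hsum v]
  rw [map_sum, Finset.sum_eq_single σ]
  · rw [map_sum]
    refine Finset.sum_congr rfl fun j _ => ?_
    rw [map_smul, F.proj_e, if_pos rfl]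
  · intro τ _ hτ
    rw [map_sum]
    refine Finset.sum_eq_zero fun j _ => ?_
    rw [map_smul, F.proj_e, if_neg (Ne.symm hτ), smul_zero]
  · intro h; exact absurd (Finset.mem_univ _) h

lemma ext_e {V : Type*} [AddCommGroup V] [Module ℂ V] (f g : (κ → ℂ) →ₗ[ℂ] V)
    (h : ∀ σ j, f (F.e σ j) = g (F.e σ j)) (v : κ → ℂ) : f v = g v := by
  rw [F.hsum v, map_sum, map_sum]
  refine Finset.sum_congr rfl fun σ _ => ?_
  rw [map_sum, map_sum]
  refine Finset.sum_congr rfl fun j _ => ?_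
  rw [map_smul, map_smul, h]

/-- endomorphisms commuting with the number field -/
def Comm (X : Module.End ℂ (κ → ℂ)) : Prop := ∀ x v, X (F.ρ x v) = F.ρ x (X v)

variable {F} in
lemma Comm.proj {X : Module.End ℂ (κ → ℂ)} (hX : F.Comm X) (σ : K →+* ℂ)
    (v : κ → ℂ) : X (Helper7.proj F.ρ σ v) = Helper7.proj F.ρ σ (X v) := by
  have h : ∀ w, Helper7.proj F.ρ σ w = ∑ b, σ (dbas K b) • F.ρ (bas K b) w := by
    intro w
    rw [Helper7.proj, LinearMap.sum_apply]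
    rfl
  rw [h, h, map_sum]
  refine Finset.sum_congr rfl fun b _ => ?_
  rw [map_smul, hX]

variable {F} in
lemma Comm.act {X : Module.End ℂ (κ → ℂ)} (hX : F.Comm X) (σ : K →+* ℂ) (j : Fin F.r) :
    X (F.e σ j) = ∑ a, F.co σ a (X (F.e σ j)) • F.e σ a := by
  have h1 : X (F.e σ j) = Helper7.proj F.ρ σ (X (F.e σ j)) := by
    rw [← hX.proj, F.proj_e, if_pos rfl]
  conv_lhs => rw [h1, F.proj_eq]

lemma sum_e (j : Fin F.r) : F.lam j = ∑ σ, F.e σ j := by
  simp only [e_eq]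
  rw [← LinearMap.sum_apply, sum_proj]; rfl

lemma rho_lam (x : K) (j : Fin F.r) : F.ρ x (F.lam j) = ∑ σ, σ x • F.e σ j := by
  conv_lhs => rw [F.sum_e j]
  rw [map_sum]
  exact Finset.sum_congr rfl fun σ _ => F.rho_e x σ j

/-- the matrix over the number field of a rational endomorphism -/
lemma exists_matK (M : Module.End ℂ (κ → ℂ)) (hr : ∀ v ∈ P.Q, M v ∈ P.Q) :
    ∃ m : Matrix (Fin F.r) (Fin F.r) K, ∀ b, M (F.lam b) = ∑ a, F.ρ (m a b) (F.lam a) := by
  have h1 : ∀ b, ∃ x : Fin F.r → K, M (F.lam b) = ∑ a, F.ρ (x a) (F.lam a) :=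
    fun b => F.gen _ (hr _ (F.lam_rat b))
  choose x hx using h1
  exact ⟨fun a b => x b a, hx⟩

lemma proj_rho (σ : K →+* ℂ) (x : K) (v : κ → ℂ) :
    proj F.ρ σ (F.ρ x v) = σ x • proj F.ρ σ v := by
  have h1 : F.Comm (F.ρ x) := fun y v => by
    rw [← Module.End.mul_apply, ← Module.End.mul_apply, ← map_mul, ← map_mul, mul_comm]
  rw [← h1.proj, ← Module.End.mul_apply, rho_mul_proj, LinearMap.smul_apply]

lemma act_e (M : Module.End ℂ (κ → ℂ)) (hM : F.Comm M) (m : Matrix (Fin F.r) (Fin F.r) K)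
    (hm : ∀ b, M (F.lam b) = ∑ a, F.ρ (m a b) (F.lam a)) (σ : K →+* ℂ) (b : Fin F.r) :
    M (F.e σ b) = ∑ a, σ (m a b) • F.e σ a := by
  rw [e_eq, hM.proj, hm, map_sum]
  refine Finset.sum_congr rfl fun a _ => ?_
  rw [F.proj_rho, ← e_eq]

/-- coordinates over the number field are unique -/
lemma coK (σ : K →+* ℂ) (x : Fin F.r → K) (a : Fin F.r) :
    F.co σ a (∑ j, F.ρ (x j) (F.lam j)) = σ (x a) := by
  classical
  have h1 : ∑ j, F.ρ (x j) (F.lam j) = ∑ τ, ∑ j, τ (x j) • F.e τ j := by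
    simp only [F.rho_lam]
    rw [Finset.sum_comm]
  rw [h1, map_sum, Finset.sum_eq_single σ, map_sum, Finset.sum_eq_single a]
  · rw [map_smul, F.co_e, if_pos ⟨rfl, rfl⟩, smul_eq_mul, mul_one]
  · intro j _ hj
    rw [map_smul, F.co_e, if_neg (fun h => hj h.2.symm), smul_zero]
  · intro h; exact absurd (Finset.mem_univ _) h
  · intro τ _ hτ
    rw [map_sum]
    refine Finset.sum_eq_zero fun j _ => ?_
    rw [map_smul, F.co_e, if_neg (fun h => hτ h.1.symm), smul_zero]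
  · intro h; exact absurd (Finset.mem_univ _) h

/-- vectors over the number field -/
noncomputable def vec (x : Fin F.r → K) : κ → ℂ := ∑ j, F.ρ (x j) (F.lam j)

lemma vec_rat (x : Fin F.r → K) : F.vec x ∈ P.Q :=
  Submodule.sum_mem _ fun a _ => (F.hρ _).rat _ (F.lam_rat a)

lemma vec_add (x y : Fin F.r → K) : F.vec (x + y) = F.vec x + F.vec y := by
  simp only [vec, ← Finset.sum_add_distrib]
  refine Finset.sum_congr rfl fun j _ => ?_
  rw [Pi.add_apply, map_add, LinearMap.add_apply]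

lemma vec_smul (c : K) (x : Fin F.r → K) : F.vec (c • x) = F.ρ c (F.vec x) := by
  simp only [vec, map_sum]
  refine Finset.sum_congr rfl fun j _ => ?_
  rw [Pi.smul_apply, smul_eq_mul, map_mul, Module.End.mul_apply]

lemma vec_injective : Function.Injective F.vec := by
  intro x y hxy
  have σ : K →+* ℂ := Classical.choice (inferInstance : Nonempty (K →+* ℂ))
  funext a
  apply σ.injective
  rw [← F.coK σ x a, ← F.coK σ y a]
  exact congrArg _ hxy

lemma exists_vec (u : κ → ℂ) (hu : u ∈ P.Q) : ∃ x, F.vec x = u := by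
  obtain ⟨x, hx⟩ := F.gen u hu
  exact ⟨x, hx.symm⟩

lemma vec_act (M : Module.End ℂ (κ → ℂ)) (hM : F.Comm M) (m : Matrix (Fin F.r) (Fin F.r) K)
    (hm : ∀ b, M (F.lam b) = ∑ a, F.ρ (m a b) (F.lam a)) (x : Fin F.r → K) :
    M (F.vec x) = F.vec (m.mulVec x) := by
  rw [vec, map_sum, vec]
  have h2 : ∀ b, M (F.ρ (x b) (F.lam b)) = ∑ a, F.ρ (m a b * x b) (F.lam a) := by
    intro b
    rw [hM, hm, map_sum]
    refine Finset.sum_congr rfl fun a _ => ?_
    rw [← Module.End.mul_apply, ← map_mul, mul_comm]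
  rw [Finset.sum_congr rfl fun b _ => h2 b, Finset.sum_comm]
  refine Finset.sum_congr rfl fun a _ => ?_
  rw [← LinearMap.sum_apply, ← map_sum]
  rfl

/-- the endomorphism with a given matrix over the number field -/
noncomputable def ofMat (t : Matrix (Fin F.r) (Fin F.r) K) : Module.End ℂ (κ → ℂ) :=
  F.eb.constr ℂ (fun s => ∑ a, s.1 (t a s.2) • F.e s.1 a)

lemma ofMat_e (t : Matrix (Fin F.r) (Fin F.r) K) (σ : K →+* ℂ) (b : Fin F.r) :
    F.ofMat t (F.e σ b) = ∑ a, σ (t a b) • F.e σ a := by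
  rw [ofMat, e, Basis.constr_basis]

lemma ofMat_comm (t : Matrix (Fin F.r) (Fin F.r) K) : F.Comm (F.ofMat t) := by
  intro x v
  refine F.ext_e ((F.ofMat t) ∘ₗ (F.ρ x)) ((F.ρ x) ∘ₗ (F.ofMat t)) (fun σ j => ?_) v
  rw [LinearMap.comp_apply, LinearMap.comp_apply, F.rho_e, map_smul, F.ofMat_e, map_sum,
    Finset.smul_sum]
  refine Finset.sum_congr rfl fun a _ => ?_
  rw [map_smul, F.rho_e, smul_comm]

lemma ofMat_lam (t : Matrix (Fin F.r) (Fin F.r) K) (b : Fin F.r) :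
    F.ofMat t (F.lam b) = ∑ a, F.ρ (t a b) (F.lam a) := by
  conv_lhs => rw [F.sum_e b]
  rw [map_sum]
  simp only [F.ofMat_e, F.rho_lam]
  rw [Finset.sum_comm]

lemma ofMat_rat (t : Matrix (Fin F.r) (Fin F.r) K) (v : κ → ℂ) (hv : v ∈ P.Q) :
    F.ofMat t v ∈ P.Q := by
  obtain ⟨x, rfl⟩ := F.exists_vec v hv
  rw [F.vec_act _ (F.ofMat_comm t) t (F.ofMat_lam t)]
  exact F.vec_rat _

lemma psi_e (σ τ : K →+* ℂ) (a b : Fin F.r) (h : σ ≠ τ) : P.ψ (F.e σ a) (F.e τ b) = 0 := by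
  by_contra h0
  apply h
  ext x
  have h1 := F.hros x (F.e σ a) (F.e τ b)
  rw [F.rho_e, F.rho_e, map_smul, map_smul, LinearMap.smul_apply, smul_eq_mul, smul_eq_mul] at h1
  exact mul_right_cancel₀ h0 h1

end RF

end Pool.Agent.Helper7
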