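import Pool.Agent.Helper7.Family
import Pool.Agent.Helper7.RF

/-!
The semisimple Lie algebra attached to a family of factors of real type and of CM type.
-/

namespace Pool.Agent.Helper7

open Module NumberField LieAlgebra

attribute [local instance 100] LieRing.ofAssociativeRing

/-- a factor of real type or of CM type -/
abbrev FS {κ : Type} [Fintype κ] [DecidableEq κ] {ϖ : ℂ} (P : PData κ ϖ) (K : Type) [Field K]
    [NumberField K] : Type := RF P K ⊕ {F : Fac P K // ¬ F.gl}

namespace FS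

variable {κ : Type} [Fintype κ] [DecidableEq κ] {ϖ : ℂ} {P : PData κ ϖ} {K : Type} [Field K]
    [NumberField K]

/-- the action of the field -/
def ρ : FS P K → (K →+* Module.End ℂ (κ → ℂ))
  | .inl F => F.ρ
  | .inr F => F.1.ρ

lemma hρ (F : FS P K) (x : K) : IsDRB P P (F.ρ x) := by
  cases F with
  | inl F => exact F.hρ x
  | inr F => exact F.1.hρ x

end FS

lemma proj_apply' {κ : Type} {K : Type} [Field K] [NumberField K]
    (ρ : K →+* Module.End ℂ (κ → ℂ)) (σ : K →+* ℂ) (v : κ → ℂ) :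
    proj ρ σ v = ∑ b, σ (dbas K b) • ρ (bas K b) v := by
  rw [proj, LinearMap.sum_apply]
  rfl

lemma comm_proj {κ : Type} {K : Type} [Field K] [NumberField K]
    (ρ : K →+* Module.End ℂ (κ → ℂ)) (X : Module.End ℂ (κ → ℂ))
    (hX : ∀ x v, X (ρ x v) = ρ x (X v)) (σ : K →+* ℂ) (v : κ → ℂ) :
    X (proj ρ σ v) = proj ρ σ (X v) := by
  rw [proj_apply', proj_apply', map_sum]
  refine Finset.sum_congr rfl fun b _ => ?_
  rw [map_smul, hX]

set_option linter.unusedSectionVars false

section family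

variable {I : Type} [Fintype I] [DecidableEq I] (n : I → ℕ)
  {κ : I → Type} [∀ i, Fintype (κ i)] [∀ i, DecidableEq (κ i)] {ϖ : ℂ}
  (P : ∀ i, PData (κ i) ϖ)
  {K : I → Type} [∀ i, Field (K i)] [∀ i, NumberField (K i)]
  (F : ∀ i, FS (P i) (K i))
  {k : ℕ} (α : MultilinearMap ℂ (fun _ : Fin (2 * k) => HW κ n) ℂ)

/-- the sum of all first homologies -/
abbrev MM (κ : I → Type) : Type := (i : I) → (κ i → ℂ)

lemma IsInv.commK {X : GG κ} (hX : IsInv n P α X) (i : I) (x : K i) (v : κ i → ℂ) :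
    X.1 i ((F i).ρ x v) = (F i).ρ x (X.1 i v) := hX.comm i i _ ((F i).hρ x) v

lemma IsInv.commP {X : GG κ} (hX : IsInv n P α X) (i : I) (σ : K i →+* ℂ) (v : κ i → ℂ) :
    X.1 i (proj (F i).ρ σ v) = proj (F i).ρ σ (X.1 i v) :=
  comm_proj _ _ (fun x v => IsInv.commK n P F α hX i x v) σ v

/-- the normalised action on the factors of real type -/
noncomputable def phi : GG κ →ₗ[ℂ] Module.End ℂ (MM κ) where
  toFun X := LinearMap.pi fun i =>
    (if (F i).isLeft then X.1 i - (X.2 / 2) • (1 : Module.End ℂ (κ i → ℂ)) else 0) ∘ₗ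
      LinearMap.proj i
  map_add' X Y := by
    apply LinearMap.ext; intro v
    funext i
    by_cases h : (F i).isLeft
    · simp only [h, LinearMap.pi_apply, LinearMap.comp_apply, LinearMap.add_apply, if_true,
        LinearMap.sub_apply, LinearMap.smul_apply, Prod.fst_add, Prod.snd_add, Pi.add_apply,
        LinearMap.proj_apply, Module.End.one_apply]
      module
    · simp [h]
  map_smul' c X := by
    apply LinearMap.ext; intro v
    funext i
    by_cases h : (F i).isLeft
    · simp only [h, LinearMap.pi_apply, LinearMap.comp_apply, if_true,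
        LinearMap.sub_apply, LinearMap.smul_apply, Prod.smul_fst, Prod.smul_snd, Pi.smul_apply,
        LinearMap.proj_apply, Module.End.one_apply, RingHom.id_apply, smul_eq_mul]
      module
    · simp [h]

lemma phi_real (X : GG κ) (v : MM κ) (i : I) (h : (F i).isLeft) :
    phi P F X v i = X.1 i (v i) - (X.2 / 2) • v i := by
  show ((if (F i).isLeft then X.1 i - (X.2 / 2) • (1 : Module.End ℂ (κ i → ℂ)) else 0) ∘ₗ
      LinearMap.proj i) v = _
  rw [if_pos h]
  rfl

lemma phi_cm (X : GG κ) (v : MM κ) (i : I) (h : ¬ (F i).isLeft) :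
    phi P F X v i = 0 := by
  show ((if (F i).isLeft then X.1 i - (X.2 / 2) • (1 : Module.End ℂ (κ i → ℂ)) else 0) ∘ₗ
      LinearMap.proj i) v = _
  rw [if_neg h]
  rfl

lemma phi_bracket (X Y : GG κ) : phi P F (X * Y - Y * X) =
    phi P F X * phi P F Y - phi P F Y * phi P F X := by
  apply LinearMap.ext; intro v
  funext i
  rw [LinearMap.sub_apply, Pi.sub_apply, Module.End.mul_apply, Module.End.mul_apply]
  by_cases h : (F i).isLeft
  · rw [phi_real P F _ _ i h, phi_real P F _ _ i h, phi_real P F _ _ i h, phi_real P F _ _ i h,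
      phi_real P F _ _ i h]
    have h1 : (X * Y - Y * X).1 i (v i) = X.1 i (Y.1 i (v i)) - Y.1 i (X.1 i (v i)) := rfl
    have h2 : (X * Y - Y * X).2 = X.2 * Y.2 - Y.2 * X.2 := rfl
    rw [h1, h2]
    simp only [map_sub, map_smul]
    module
  · rw [phi_cm P F _ _ i h, phi_cm P F _ _ i h, phi_cm P F _ _ i h, sub_zero]

/-- the Lie algebra -/
noncomputable def LL : LieSubalgebra ℂ (Module.End ℂ (MM κ)) where
  toSubmodule := (gSub n P α).map (phi P F)
  lie_mem' := by
    rintro _ _ ⟨X, hX, rfl⟩ ⟨Y, hY, rfl⟩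
    exact ⟨X * Y - Y * X, IsInv.bracket n P α hX hY, phi_bracket P F X Y⟩

lemma mem_LL (a : Module.End ℂ (MM κ)) : a ∈ LL n P F α ↔ ∃ X, IsInv n P α X ∧ phi P F X = a :=
  Iff.rfl

/-- the eigenspaces -/
noncomputable def Vs (s : Σ i, (K i →+* ℂ)) : LieSubmodule ℂ (LL n P F α) (MM κ) where
  toSubmodule := LinearMap.range ((LinearMap.single ℂ (fun i => (κ i → ℂ)) s.1) ∘ₗ
    proj (F s.1).ρ s.2)
  lie_mem := by
    rintro ⟨_, X, hX, rfl⟩ _ ⟨w, rfl⟩
    show phi P F X ((Pi.single s.1 (proj (F s.1).ρ s.2 w) : MM κ)) ∈ _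
    by_cases h : (F s.1).isLeft
    · refine ⟨X.1 s.1 w - (X.2 / 2) • w, ?_⟩
      show (Pi.single s.1 (proj (F s.1).ρ s.2 (X.1 s.1 w - (X.2 / 2) • w)) : MM κ) = _
      funext i
      by_cases hi : i = s.1
      · subst hi
        rw [phi_real P F _ _ _ h, Pi.single_eq_same, Pi.single_eq_same, map_sub, map_smul,
          IsInv.commP n P F α hX]
      · rw [Pi.single_eq_of_ne hi]
        by_cases h2 : (F i).isLeft
        · rw [phi_real P F _ _ _ h2, Pi.single_eq_of_ne hi]; simp
        · rw [phi_cm P F _ _ _ h2]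
    · refine ⟨0, ?_⟩
      rw [map_zero]
      funext i
      by_cases h2 : (F i).isLeft
      · have hi : i ≠ s.1 := fun h3 => h (by rw [← h3]; exact h2)
        rw [phi_real P F _ _ _ h2, Pi.single_eq_of_ne hi]; simp
      · rw [phi_cm P F _ _ _ h2]; rfl

lemma mem_Vs (s : Σ i, (K i →+* ℂ)) (v : MM κ) : v ∈ Vs n P F α s ↔
    ∃ w, (Pi.single s.1 (proj (F s.1).ρ s.2 w) : MM κ) = v := Iff.rfl

end family

end Pool.Agent.Helper7
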