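import Pool.Agent.Helper7.Irred
import Pool.Agent.Helper7.J1
import Pool.Agent.Helper8.Lie.IrrFrames
import Pool.Agent.Helper8.Lie.Semisimple

/-!
Irreducibility and semisimplicity.
-/

namespace Pool.Agent.Helper7

open Module NumberField LieAlgebra

attribute [local instance 100] LieRing.ofAssociativeRing

open Pool.Agent.Helper8 (Symp trivialRadical_of_family perfect_of_killing)

lemma RF.span_e {κ : Type} [Fintype κ] [DecidableEq κ] {ϖ : ℂ} {P : PData κ ϖ} {K : Type}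
    [Field K] [NumberField K] (F : RF P K) (σ : K →+* ℂ) :
    Submodule.span ℂ (Set.range (F.e σ)) = LinearMap.range (proj F.ρ σ) := by
  apply le_antisymm
  · rw [Submodule.span_le]
    rintro _ ⟨j, rfl⟩
    exact ⟨F.e σ j, by rw [F.proj_e, if_pos rfl]⟩
  · rintro _ ⟨v, rfl⟩
    rw [F.proj_eq]
    exact Submodule.sum_mem _ fun j _ => Submodule.smul_mem _ _ (Submodule.subset_span ⟨j, rfl⟩)

set_option linter.unusedSectionVars false

section family

variable {I : Type} [Fintype I] [DecidableEq I] (n : I → ℕ)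
  {κ : I → Type} [∀ i, Fintype (κ i)] [∀ i, DecidableEq (κ i)] {ϖ : ℂ}
  (P : ∀ i, PData (κ i) ϖ)
  {K : I → Type} [∀ i, Field (K i)] [∀ i, NumberField (K i)]
  (F : ∀ i, FS (P i) (K i))
  {k : ℕ} (α : MultilinearMap ℂ (fun _ : Fin (2 * k) => HW κ n) ℂ)

/-- the element of the Lie algebra given by a symmetry -/
noncomputable def elL (X : GG κ) (hX : IsInv n P α X) : LL n P F α := ⟨phi P F X, X, hX, rfl⟩

lemma exists_elL (a : LL n P F α) : ∃ X hX, a = elL n P F α X hX := by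
  obtain ⟨_, X, hX, rfl⟩ := a
  exact ⟨X, hX, rfl⟩

lemma elL_lie (X : GG κ) (hX : IsInv n P α X) (s : Σ i, (K i →+* ℂ)) (x : Vs n P F α s) :
    ((⁅elL n P F α X hX, x⁆ : Vs n P F α s) : MM κ) = phi P F X x := rfl

lemma elL_bracket (X Y : GG κ) (hX : IsInv n P α X) (hY : IsInv n P α Y) :
    ⁅elL n P F α X hX, elL n P F α Y hY⁆ = elL n P F α (X * Y - Y * X) (hX.bracket n P α hY) := by
  apply Subtype.ext
  show phi P F X * phi P F Y - phi P F Y * phi P F X = phi P F (X * Y - Y * X)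
  rw [phi_bracket]

lemma Vs_single (s : Σ i, (K i →+* ℂ)) (x : Vs n P F α s) :
    (x : MM κ) = Pi.single s.1 ((x : MM κ) s.1) := by
  obtain ⟨_, w, rfl⟩ := x
  show (Pi.single s.1 (proj (F s.1).ρ s.2 w) : MM κ) =
    Pi.single s.1 ((Pi.single s.1 (proj (F s.1).ρ s.2 w) : MM κ) s.1)
  rw [Pi.single_eq_same]

lemma Vs_proj (s : Σ i, (K i →+* ℂ)) (x : Vs n P F α s) :
    proj (F s.1).ρ s.2 ((x : MM κ) s.1) = (x : MM κ) s.1 := by
  classical
  obtain ⟨_, w, rfl⟩ := x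
  show proj (F s.1).ρ s.2 ((Pi.single s.1 (proj (F s.1).ρ s.2 w) : MM κ) s.1) =
    ((Pi.single s.1 (proj (F s.1).ρ s.2 w) : MM κ) s.1)
  rw [Pi.single_eq_same, ← Module.End.mul_apply, proj_mul_proj, if_pos rfl]

lemma Vs_ext (s : Σ i, (K i →+* ℂ)) (x y : Vs n P F α s) (h : (x : MM κ) s.1 = (y : MM κ) s.1) :
    x = y := by
  apply Subtype.ext
  rw [Vs_single n P F α s x, Vs_single n P F α s y, h]

lemma elL_real (X : GG κ) (hX : IsInv n P α X) (s : Σ i, (K i →+* ℂ)) (hs : (F s.1).isLeft)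
    (x : Vs n P F α s) : ((⁅elL n P F α X hX, x⁆ : Vs n P F α s) : MM κ) s.1 =
      X.1 s.1 ((x : MM κ) s.1) - (X.2 / 2) • (x : MM κ) s.1 := by
  rw [elL_lie, phi_real P F X _ _ hs]

/-- projection of a factor to an eigenspace -/
noncomputable def toVs (s : Σ i, (K i →+* ℂ)) : (κ s.1 → ℂ) →ₗ[ℂ] Vs n P F α s where
  toFun w := ⟨Pi.single s.1 (proj (F s.1).ρ s.2 w), w, rfl⟩
  map_add' a b := by
    apply Vs_ext n P F α s
    show (Pi.single s.1 (proj (F s.1).ρ s.2 (a + b)) : MM κ) s.1 =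
      (Pi.single s.1 (proj (F s.1).ρ s.2 a) : MM κ) s.1 +
      (Pi.single s.1 (proj (F s.1).ρ s.2 b) : MM κ) s.1
    simp only [Pi.single_eq_same, map_add]
  map_smul' c a := by
    apply Vs_ext n P F α s
    show (Pi.single s.1 (proj (F s.1).ρ s.2 (c • a)) : MM κ) s.1 =
      c • (Pi.single s.1 (proj (F s.1).ρ s.2 a) : MM κ) s.1
    simp only [Pi.single_eq_same, map_smul]

lemma toVs_apply (s : Σ i, (K i →+* ℂ)) (w : κ s.1 → ℂ) :
    ((toVs n P F α s w : Vs n P F α s) : MM κ) s.1 = proj (F s.1).ρ s.2 w := by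
  show (Pi.single s.1 (proj (F s.1).ρ s.2 w) : MM κ) s.1 = _
  rw [Pi.single_eq_same]

variable (hϖ : ϖ ≠ 0)
  (hB : ∀ v : Fin (2 * k) → HW κ n, (∀ r, IsRatP n P (v r)) → ∃ q : ℚ, α v = ϖ ^ k * q)
  (hA : ∀ v : Fin (2 * k) → HW κ n, (∀ r i m j, IsAlgebraic ℚ (v r i m j)) →
      IsAlgebraic ℚ (α v))

include hϖ hB hA in
theorem Vs_irr (s : Σ i, (K i →+* ℂ)) (hs : (F s.1).isLeft) (hn : Nontrivial (Vs n P F α s)) :
    LieModule.IsIrreducible ℂ (LL n P F α) (Vs n P F α s) := by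
  classical
  obtain ⟨F', hF'⟩ := Sum.isLeft_iff.mp hs
  have hρ : (F s.1).ρ = F'.ρ := by rw [hF']; rfl
  refine LieModule.IsIrreducible.mk fun N hN => ?_
  let g : Vs n P F α s →ₗ[ℂ] (κ s.1 → ℂ) :=
    (LinearMap.proj s.1 : MM κ →ₗ[ℂ] (κ s.1 → ℂ)) ∘ₗ (Vs n P F α s).toSubmodule.subtype
  have hg : ∀ x, g x = (x : MM κ) s.1 := fun x => rfl
  have hW := F'.irred_place n P α s.1 hϖ hB hA s.2 (N.toSubmodule.map g) (by
      rintro _ ⟨x, -, rfl⟩
      rw [F'.span_e, hg, ← Vs_proj n P F α s x, ← hρ]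
      exact ⟨_, rfl⟩) (by
      rintro X hX _ ⟨x, hx, rfl⟩
      have h1 : ⁅elL n P F α X hX, x⁆ ∈ N := N.lie_mem hx
      have h2 : X.1 s.1 (g x) = g (⁅elL n P F α X hX, x⁆ + (X.2 / 2) • x) := by
        rw [map_add, map_smul, hg, hg, elL_real n P F α X hX s hs, sub_add_cancel]
      rw [h2]
      exact ⟨_, N.toSubmodule.add_mem h1 (N.toSubmodule.smul_mem _ hx), rfl⟩)
  rcases hW with hW | hW
  · exfalso
    apply hN
    rw [LieSubmodule.eq_bot_iff]
    intro x hx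
    apply Vs_ext n P F α s
    have h1 : g x ∈ N.toSubmodule.map g := ⟨x, hx, rfl⟩
    rw [hW, Submodule.mem_bot, hg] at h1
    rw [h1]; rfl
  · rw [eq_top_iff]
    intro y _
    have h1 : g y ∈ N.toSubmodule.map g := by
      rw [hW, F'.span_e, hg, ← Vs_proj n P F α s y, ← hρ]
      exact ⟨_, rfl⟩
    obtain ⟨x, hx, hxy⟩ := h1
    have h2 : x = y := Vs_ext n P F α s x y hxy
    rw [← h2]
    exact hx

/-- the form on an eigenspace -/
noncomputable def omV (s : Σ i, (K i →+* ℂ)) : Vs n P F α s →ₗ[ℂ] Vs n P F α s →ₗ[ℂ] ℂ :=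
  (P s.1).ψ.compl₁₂
    ((LinearMap.proj s.1 : MM κ →ₗ[ℂ] (κ s.1 → ℂ)) ∘ₗ (Vs n P F α s).toSubmodule.subtype)
    ((LinearMap.proj s.1 : MM κ →ₗ[ℂ] (κ s.1 → ℂ)) ∘ₗ (Vs n P F α s).toSubmodule.subtype)

lemma omV_apply (s : Σ i, (K i →+* ℂ)) (x y : Vs n P F α s) :
    omV n P F α s x y = (P s.1).ψ ((x : MM κ) s.1) ((y : MM κ) s.1) := rfl

lemma omV_symp (s : Σ i, (K i →+* ℂ)) (hs : (F s.1).isLeft) :
    Symp (LL n P F α) (omV n P F α s) where
  alt x y := by rw [omV_apply, omV_apply, (P s.1).hψalt]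
  nd x h := by
    obtain ⟨F', hF'⟩ := Sum.isLeft_iff.mp hs
    have hρ : (F s.1).ρ = F'.ρ := by rw [hF']; rfl
    apply Vs_ext n P F α s
    show (x : MM κ) s.1 = 0
    apply (P s.1).hψnd
    intro v
    have h1 := h (toVs n P F α s v)
    rw [omV_apply, toVs_apply] at h1
    have h2 : (P s.1).ψ ((x : MM κ) s.1) (proj (F s.1).ρ s.2 v) =
        (P s.1).ψ (proj (F s.1).ρ s.2 ((x : MM κ) s.1)) v := by
      rw [hρ, proj_apply', proj_apply', map_sum, map_sum, LinearMap.sum_apply]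
      refine Finset.sum_congr rfl fun b _ => ?_
      rw [map_smul, map_smul, LinearMap.smul_apply, F'.hros]
    rw [h2, Vs_proj] at h1
    exact h1
  inv a x y := by
    obtain ⟨X, hX, rfl⟩ := exists_elL n P F α a
    rw [omV_apply, omV_apply, elL_real n P F α X hX s hs, elL_real n P F α X hX s hs, map_sub,
      map_sub, LinearMap.sub_apply, map_smul, map_smul, LinearMap.smul_apply]
    have h1 := hX.pol s.1 ((x : MM κ) s.1) ((y : MM κ) s.1)
    simp only [smul_eq_mul]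
    linear_combination h1

/-- operators skew for a non-degenerate form have trace zero -/
lemma trace_skew {V : Type} [AddCommGroup V] [Module ℂ V] [FiniteDimensional ℂ V]
    (ω : V →ₗ[ℂ] V →ₗ[ℂ] ℂ) (nd : ∀ x, (∀ y, ω x y = 0) → x = 0) (X : Module.End ℂ V)
    (hX : ∀ x y, ω (X x) y = - ω x (X y)) : LinearMap.trace ℂ V X = 0 := by
  have hinj : Function.Injective ω := by
    rw [← LinearMap.ker_eq_bot, Submodule.eq_bot_iff]
    intro x hx
    exact nd x fun y => by rw [LinearMap.mem_ker.mp hx]; rfl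
  let Φ : V ≃ₗ[ℂ] Module.Dual ℂ V :=
    LinearEquiv.ofInjectiveOfFinrankEq ω hinj (Subspace.dual_finrank_eq).symm
  have h1 : Φ.conj X = - Module.Dual.transpose (R := ℂ) X := by
    apply LinearMap.ext
    intro φ
    obtain ⟨x, rfl⟩ := Φ.surjective φ
    rw [LinearEquiv.conj_apply_apply, LinearEquiv.symm_apply_apply]
    apply LinearMap.ext
    intro y
    exact hX x y
  have h2 := LinearMap.trace_conj' X Φ
  rw [h1, map_neg] at h2
  have h3 := LinearMap.trace_transpose' (R := ℂ) X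
  rw [h3] at h2
  have h4 : (2 : ℂ) * LinearMap.trace ℂ V X = 0 := by linear_combination - h2
  exact (mul_eq_zero.mp h4).resolve_left two_ne_zero

/-- the places of real type with non-zero eigenspace -/
abbrev SR : Type := {s : Σ i, (K i →+* ℂ) // (F s.1).isLeft ∧ Nontrivial (Vs n P F α s)}

include hϖ hB hA in
theorem LL_trivialRadical : HasTrivialRadical ℂ (LL n P F α) := by
  have h1 : ∀ s : SR n P F α, LieModule.IsIrreducible ℂ (LL n P F α) (Vs n P F α s.1) :=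
    fun s => Vs_irr n P F α hϖ hB hA s.1 s.2.1 s.2.2
  refine trivialRadical_of_family (fun s : SR n P F α => Vs n P F α s.1) ?_ ?_
  · intro s x
    exact trace_skew (omV n P F α s.1) (omV_symp n P F α s.1 s.2.1).nd _
      (fun a b => (omV_symp n P F α s.1 s.2.1).inv x a b)
  · intro a ha
    obtain ⟨X, hX, rfl⟩ := exists_elL n P F α a
    apply Subtype.ext
    show phi P F X = 0
    apply LinearMap.ext
    intro v
    funext i
    by_cases hi : (F i).isLeft
    · rw [phi_real P F X v i hi]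
      have h2 : ∀ σ : K i →+* ℂ, X.1 i (proj (F i).ρ σ (v i)) -
          (X.2 / 2) • proj (F i).ρ σ (v i) = 0 := by
        intro σ
        let x : Vs n P F α ⟨i, σ⟩ := toVs n P F α ⟨i, σ⟩ (v i)
        have hx : (x : MM κ) i = proj (F i).ρ σ (v i) := toVs_apply n P F α ⟨i, σ⟩ (v i)
        rw [← hx, ← elL_real n P F α X hX ⟨i, σ⟩ hi x]
        by_cases hn : Nontrivial (Vs n P F α ⟨i, σ⟩)
        · rw [ha ⟨⟨i, σ⟩, hi, hn⟩ x]; rfl
        · rw [not_nontrivial_iff_subsingleton] at hn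
          have h3 : ⁅elL n P F α X hX, x⁆ = 0 := Subsingleton.elim _ _
          rw [h3]; rfl
      have h3 : v i = ∑ σ, proj (F i).ρ σ (v i) := by
        rw [← LinearMap.sum_apply, sum_proj]; rfl
      rw [h3, map_sum, Finset.smul_sum, ← Finset.sum_sub_distrib]
      exact Finset.sum_eq_zero fun σ _ => h2 σ
    · rw [phi_cm P F X v i hi]; rfl

end family

end Pool.Agent.Helper7
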