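import Pool.Agent.Helper7.Cohomology
import Pool.Agent.Helper7.J1

/-!
Weights on the factors of CM type and their relations.
-/

namespace Pool.Agent.Helper7

open Module NumberField LieAlgebra

attribute [local instance 100] LieRing.ofAssociativeRing

open Pool.Agent.GPC (Emb IsOdd IsOddModule translate)

namespace FS

variable {κ : Type} [Fintype κ] [DecidableEq κ] {ϖ : ℂ} {P : PData κ ϖ} {K : Type} [Field K]
    [NumberField K]

/-- the weight at an embedding -/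
noncomputable def chi (F : FS P K) (σ : K →+* ℂ) (X : Module.End ℂ (κ → ℂ)) (c : ℂ) : ℂ :=
  match F with
  | .inl _ => c / 2
  | .inr F' => F'.1.mat σ X 0 0

/-- the eigenvector at an embedding, for CM type -/
noncomputable def ev (F : FS P K) (σ : K →+* ℂ) : κ → ℂ :=
  match F with
  | .inl _ => 0
  | .inr F' => F'.1.e σ 0

/-- the coordinate at an embedding, for CM type -/
noncomputable def cv (F : FS P K) (σ : K →+* ℂ) : (κ → ℂ) →ₗ[ℂ] ℂ :=
  match F with
  | .inl _ => 0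
  | .inr F' => F'.1.lf.co σ 0

lemma chi_conj (F : FS P K) (X : Module.End ℂ (κ → ℂ)) (c : ℂ)
    (hX : ∀ x v, X (F.ρ x v) = F.ρ x (X v))
    (hpol : ∀ u v, P.ψ (X u) v + P.ψ u (X v) = c * P.ψ u v) (σ : K →+* ℂ) :
    F.chi σ X c + F.chi (ComplexEmbedding.conjugate σ) X c = c := by
  cases F with
  | inl F => show c / 2 + c / 2 = c; ring
  | inr F => exact F.1.char_eq F.2 X hX c hpol σ

lemma chi_rat (F : FS P K) (X : Module.End ℂ (κ → ℂ)) (c : ℂ)
    (hX : ∀ x v, X (F.ρ x v) = F.ρ x (X v)) (hr : ∀ v ∈ P.Q, X v ∈ P.Q) (q : ℚ) (hq : c = q) :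
    ∃ x : K, ∀ σ : K →+* ℂ, F.chi σ X c = σ x := by
  cases F with
  | inl F =>
    refine ⟨(q : K) / 2, fun σ => ?_⟩
    show c / 2 = _
    rw [hq, map_div₀, map_ratCast, map_ofNat]
  | inr F =>
    obtain ⟨m, hm⟩ := F.1.exists_matK X hX hr
    exact ⟨m 0 0, fun σ => F.1.mat_eq X hX m hm σ 0 0 (Or.inr rfl)⟩

lemma proj_cm (F : FS P K) (hF : ¬ F.isLeft) (σ : K →+* ℂ) (v : κ → ℂ) :
    proj F.ρ σ v = F.cv σ v • F.ev σ := by
  cases F with
  | inl F => exact absurd rfl hF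
  | inr F =>
    show proj F.1.ρ σ v = F.1.lf.co σ 0 v • F.1.e σ 0
    rw [F.1.proj_eq, Fin.sum_univ_two, F.1.e_one F.2, smul_zero, add_zero]

lemma cv_act (F : FS P K) (hF : ¬ F.isLeft) (σ : K →+* ℂ) (X : Module.End ℂ (κ → ℂ)) (c : ℂ)
    (hX : ∀ x v, X (F.ρ x v) = F.ρ x (X v)) (v : κ → ℂ) :
    F.cv σ (X v) = F.chi σ X c * F.cv σ v := by
  cases F with
  | inl F => exact absurd rfl hF
  | inr F =>
    have h1 := Fac.Comm.co_act (F := F.1) hX σ 0 v (Or.inr rfl)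
    rw [Fin.sum_univ_two, F.1.mat_neg F.2, zero_mul, add_zero] at h1
    exact h1

lemma ev_act (F : FS P K) (hF : ¬ F.isLeft) (σ : K →+* ℂ) (X : Module.End ℂ (κ → ℂ)) (c : ℂ)
    (hX : ∀ x v, X (F.ρ x v) = F.ρ x (X v)) :
    X (F.ev σ) = F.chi σ X c • F.ev σ := by
  cases F with
  | inl F => exact absurd rfl hF
  | inr F =>
    have h1 := Fac.Comm.act (F := F.1) hX σ 0
    rw [Fin.sum_univ_two, F.1.e_one F.2, smul_zero, add_zero] at h1
    exact h1

lemma chi_mul (F : FS P K) (hF : ¬ F.isLeft) (σ : K →+* ℂ) (X Y : Module.End ℂ (κ → ℂ)) (c d : ℂ)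
    (hX : ∀ x v, X (F.ρ x v) = F.ρ x (X v)) (hY : ∀ x v, Y (F.ρ x v) = F.ρ x (Y v)) (e : ℂ) :
    F.chi σ (X * Y - Y * X) e = 0 := by
  cases F with
  | inl F => exact absurd rfl hF
  | inr F =>
    show F.1.mat σ (X * Y - Y * X) 0 0 = 0
    rw [map_sub, Matrix.sub_apply, Fac.Comm.mat_mul0 (F := F.1) hX hY F.2,
      Fac.Comm.mat_mul0 (F := F.1) hY hX F.2, mul_comm, sub_self]

end FS

set_option linter.unusedSectionVars false

section family

variable {I : Type} [Fintype I] [DecidableEq I] (n : I → ℕ)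
  {κ : I → Type} [∀ i, Fintype (κ i)] [∀ i, DecidableEq (κ i)] {ϖ : ℂ}
  (P : ∀ i, PData (κ i) ϖ)
  {K : I → Type} [∀ i, Field (K i)] [∀ i, NumberField (K i)]
  (F : ∀ i, FS (P i) (K i))
  {k : ℕ} (α : MultilinearMap ℂ (fun _ : Fin (2 * k) => HW κ n) ℂ)

/-- the weights of the family -/
noncomputable def chiC (s : Emb K) (X : GG κ) : ℂ := (F s.1).chi s.2 (X.1 s.1) X.2

lemma chiC_conj (s : Emb K) (X : GG κ) (hX : IsInv n P α X) :
    chiC P F s X + chiC P F (conjT s) X = X.2 :=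
  (F s.1).chi_conj _ _ (fun x v => IsInv.commK n P F α hX s.1 x v) (hX.pol s.1) s.2

lemma chiC_rat (i : I) (X : GG κ) (hX : IsInv n P α X) (hr : IsRatl P X) :
    ∃ x : K i, ∀ σ : K i →+* ℂ, chiC P F ⟨i, σ⟩ X = σ x := by
  obtain ⟨q, hq⟩ := hr.2
  exact (F i).chi_rat _ _ (fun x v => IsInv.commK n P F α hX i x v) (hr.1 i) q hq

/-- relations between the weights -/
def relS : Submodule ℚ (Emb K → ℚ) where
  carrier := {u | IsOdd K u ∧
    ∀ X, IsInv n P α X → IsRatl P X → ∑ t, (u t : ℂ) * chiC P F t X = 0}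
  zero_mem' := ⟨fun i σ => by simp, fun X _ _ => by simp⟩
  add_mem' := by
    rintro u v ⟨hu1, hu2⟩ ⟨hv1, hv2⟩
    refine ⟨fun i σ => by rw [Pi.add_apply, Pi.add_apply, hu1, hv1]; ring, fun X hX hr => ?_⟩
    simp only [Pi.add_apply, Rat.cast_add, add_mul, Finset.sum_add_distrib]
    rw [hu2 X hX hr, hv2 X hX hr, add_zero]
  smul_mem' := by
    rintro c u ⟨hu1, hu2⟩
    refine ⟨fun i σ => by rw [Pi.smul_apply, Pi.smul_apply, hu1]; simp, fun X hX hr => ?_⟩
    simp only [Pi.smul_apply, smul_eq_mul, Rat.cast_mul, mul_assoc, ← Finset.mul_sum]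
    rw [hu2 X hX hr, mul_zero]

lemma mem_relS (u : Emb K → ℚ) : u ∈ relS n P F α ↔ IsOdd K u ∧
    ∀ X, IsInv n P α X → IsRatl P X → ∑ t, (u t : ℂ) * chiC P F t X = 0 := Iff.rfl

lemma relS_odd (hre : ∀ i, (F i).isLeft → ∀ σ : K i →+* ℂ, ComplexEmbedding.conjugate σ = σ) :
    IsOddModule K (relS n P F α) := by
  intro u hu
  refine ⟨hu.1, fun τ => ?_⟩
  rw [mem_relS] at hu ⊢
  refine ⟨fun i σ => ?_, fun X hX hr => ?_⟩
  · show u ⟨i, (τ : ℂ →+* ℂ).comp (ComplexEmbedding.conjugate σ)⟩ =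
      - u ⟨i, (τ : ℂ →+* ℂ).comp σ⟩
    have h : (τ : ℂ →+* ℂ).comp (ComplexEmbedding.conjugate σ) =
        ComplexEmbedding.conjugate ((τ : ℂ →+* ℂ).comp σ) := by
      rcases hF : F i with F' | F'
      · have hl : (F i).isLeft := by rw [hF]; rfl
        rw [hre i hl, hre i hl]
      · refine RingHom.ext fun x => ?_
        have h1 := F'.1.hcc σ x
        have h2 := F'.1.hcc ((τ : ℂ →+* ℂ).comp σ) x
        rw [ComplexEmbedding.conjugate_coe_eq, ← h2, RingHom.comp_apply, RingHom.comp_apply, h1,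
          ComplexEmbedding.conjugate_coe_eq]
    rw [h]
    exact hu.1 i _
  · have h1 : ∀ t : Emb K, τ (chiC P F t X) = chiC P F (actT τ t) X := by
      rintro ⟨i, σ⟩
      obtain ⟨x, hx⟩ := chiC_rat n P F α i X hX hr
      show τ (chiC P F ⟨i, σ⟩ X) = chiC P F ⟨i, (τ : ℂ →+* ℂ).comp σ⟩ X
      rw [hx, hx]
      rfl
    have h2 := hu.2 X hX hr
    rw [← Fintype.sum_equiv (actT τ) (fun t => (u (actT τ t) : ℂ) * chiC P F (actT τ t) X) _
      (fun _ => rfl)] at h2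
    simp only [← h1] at h2
    have h3 : τ (∑ t, (u (actT τ t) : ℂ) * chiC P F t X) = 0 := by
      rw [map_sum, ← h2]
      refine Finset.sum_congr rfl fun t _ => ?_
      rw [map_mul, map_ratCast]
    exact (map_eq_zero τ).mp h3

variable (hϖ : ϖ ≠ 0)
  (hB : ∀ v : Fin (2 * k) → HW κ n, (∀ r, IsRatP n P (v r)) → ∃ q : ℚ, α v = ϖ ^ k * q)
  (hA : ∀ v : Fin (2 * k) → HW κ n, (∀ r i m j, IsAlgebraic ℚ (v r i m j)) →
      IsAlgebraic ℚ (α v))

include hϖ hB hA in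
/-- the relations do not contain all odd functions at a factor of CM type -/
lemma relS_ne (i : I) (hi : ¬ (F i).isLeft) : ∃ w : Emb K → ℚ, IsOdd K w ∧
    (∀ j σ, j ≠ i → w ⟨j, σ⟩ = 0) ∧ w ∉ relS n P F α := by
  classical
  by_contra hcon
  push Not at hcon
  rcases hF : F i with F' | F'
  · exact hi (by rw [hF]; rfl)
  -- all weights at `i` are equal
  have hwt : ∀ σ : K i →+* ℂ, ∀ X, IsInv n P α X → IsRatl P X → chiC P F ⟨i, σ⟩ X = X.2 / 2 := by
    intro σ X hX hr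
    let w : Emb K → ℚ := fun t =>
      (if t = ⟨i, σ⟩ then 1 else 0) - (if conjT t = ⟨i, σ⟩ then 1 else 0)
    have hw := hcon w (fun j σ' => by
      have h5 : conjT (⟨j, ComplexEmbedding.conjugate σ'⟩ : Emb K) = ⟨j, σ'⟩ :=
        conjT_conjT (⟨j, σ'⟩ : Emb K)
      have h6 : (⟨j, ComplexEmbedding.conjugate σ'⟩ : Emb K) = conjT (⟨j, σ'⟩ : Emb K) := rfl
      simp only [w]
      rw [h5, h6]; ring) (fun j σ' htne => by
      have h1 : (⟨j, σ'⟩ : Emb K) ≠ ⟨i, σ⟩ := fun h => htne (congrArg Sigma.fst h)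
      have h2 : conjT (⟨j, σ'⟩ : Emb K) ≠ ⟨i, σ⟩ := fun h => htne (by
        have h3 : (conjT (⟨j, σ'⟩ : Emb K)).1 = i := by rw [h]
        exact h3)
      simp only [w, if_neg h1, if_neg h2, sub_zero])
    have h1 := hw.2 X hX hr
    have h2 : ∑ t, ((w t : ℚ) : ℂ) * chiC P F t X =
        chiC P F ⟨i, σ⟩ X - chiC P F (conjT ⟨i, σ⟩) X := by
      have h3 : ∀ t, ((w t : ℚ) : ℂ) * chiC P F t X = (if t = ⟨i, σ⟩ then chiC P F t X else 0) -
          (if t = conjT ⟨i, σ⟩ then chiC P F t X else 0) := by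
        intro t
        have h4 : (conjT t = ⟨i, σ⟩) ↔ (t = conjT ⟨i, σ⟩) :=
          ⟨fun h => by rw [← h, conjT_conjT], fun h => by rw [h, conjT_conjT]⟩
        simp only [w, h4]
        split_ifs <;> simp
      simp only [h3]
      rw [Finset.sum_sub_distrib, Finset.sum_ite_eq' Finset.univ, Finset.sum_ite_eq' Finset.univ]
      simp
    rw [h2] at h1
    have h3 := chiC_conj n P F α ⟨i, σ⟩ X hX
    linear_combination h1 / 2 + h3 / 2
  -- hence all rational symmetries are scalar at `i`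
  have hscal : ∀ X, IsInv n P α X → IsRatl P X → ∀ v, X.1 i v = (X.2 / 2) • v := by
    intro X hX hr v
    have hcomm : F'.1.Comm (X.1 i) := fun x v => hX.comm i i _ (F'.1.hρ x) v
    have h1 := F'.1.ext_e (X.1 i) ((X.2 / 2) • (LinearMap.id : Module.End ℂ (κ i → ℂ)))
      (fun σ j => ?_) v
    · rw [h1]; rfl
    · have hfin : ∀ j : Fin 2, j = 0 ∨ j = 1 := by
        intro j; fin_cases j <;> simp
      rcases hfin j with hj | hj
      · subst hj
        rw [hcomm.act, Fin.sum_univ_two, F'.1.e_one F'.2, smul_zero, add_zero]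
        have h2 := hwt σ X hX hr
        have h3 : chiC P F ⟨i, σ⟩ X = F'.1.mat σ (X.1 i) 0 0 := by
          show (F i).chi σ (X.1 i) X.2 = _
          rw [hF]; rfl
        rw [← h3, h2]; rfl
      · subst hj
        rw [F'.1.e_one F'.2, map_zero, map_zero]
  -- a rational line is spanned by an algebraic vector
  have h1 := algebraic_of_stable n P α hϖ hB hA i {F'.1.lf.lam 0}
    (fun v hv => by rw [Set.mem_singleton_iff.mp hv]; exact F'.1.lf.lam_rat 0)
    (fun Y hY hYr v hv => by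
      rw [hscal Y hY hYr]
      exact Submodule.smul_mem _ _ (Submodule.subset_span hv))
  have h2 : F'.1.lf.lam 0 ∈ Submodule.span ℂ
      {v | (∀ j, IsAlgebraic ℚ (v j)) ∧ v ∈ Submodule.span ℂ {F'.1.lf.lam 0}} :=
    h1 (Submodule.subset_span rfl)
  obtain ⟨v, ⟨hv1, hv2⟩, hv0⟩ : ∃ v ∈ {v | (∀ j, IsAlgebraic ℚ (v j)) ∧
      v ∈ Submodule.span ℂ {F'.1.lf.lam 0}}, v ≠ 0 := by
    by_contra hcon
    push Not at hcon
    have h3 : Submodule.span ℂ {v | (∀ j, IsAlgebraic ℚ (v j)) ∧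
        v ∈ Submodule.span ℂ {F'.1.lf.lam 0}} ≤ ⊥ := by
      rw [Submodule.span_le]
      intro v hv
      rw [SetLike.mem_coe, Submodule.mem_bot]
      exact hcon v hv
    exact F'.1.lam_ne ((Submodule.mem_bot ℂ).mp (h3 h2))
  obtain ⟨c, hc⟩ := Submodule.mem_span_singleton.mp hv2
  have hc0 : c ≠ 0 := by
    rintro rfl
    rw [zero_smul] at hc
    exact hv0 hc.symm
  refine F'.1.hT F'.2 _ (F'.1.lf.lam_rat 0) F'.1.lam_ne ⟨c⁻¹, v, hv1, ?_⟩
  rw [← hc, smul_smul, inv_mul_cancel₀ hc0, one_smul]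

end family

end Pool.Agent.Helper7
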