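import Mathlib

/-!
A weak form of Weyl's theorem: over a semisimple Lie algebra, a non-zero invariant linear form on a
finite-dimensional module is non-zero on some invariant vector.
-/

namespace Pool.Agent.Helper7

open LieAlgebra LieModule Module

attribute [local instance 100] LieRing.ofAssociativeRing

section perfect

variable {L : Type*} [LieRing L] [LieAlgebra ℂ L] [FiniteDimensional ℂ L] [HasTrivialRadical ℂ L]

lemma ideal_perfect (I : LieIdeal ℂ L) : ⁅I, I⁆ = I := by
  have : IsKilling ℂ L := inferInstance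
  have : IsSemisimple ℂ L := inferInstance
  obtain ⟨C, hC⟩ := exists_isCompl (⁅I, I⁆ : LieIdeal ℂ L)
  have hle : ⁅I, I⁆ ≤ I := LieSubmodule.lie_le_right I I
  have h1 : ⁅(I ⊓ C : LieIdeal ℂ L), (I ⊓ C : LieIdeal ℂ L)⁆ = ⊥ := by
    rw [eq_bot_iff, ← hC.inf_eq_bot, le_inf_iff]
    exact ⟨LieSubmodule.mono_lie inf_le_left inf_le_left,
      (LieSubmodule.lie_le_right _ _).trans inf_le_right⟩
  have h2 : (I ⊓ C : LieIdeal ℂ L) = ⊥ := by
    have : IsLieAbelian (I ⊓ C : LieIdeal ℂ L) :=
      (LieSubmodule.lie_abelian_iff_lie_self_eq_bot _).mpr h1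
    exact HasTrivialRadical.eq_bot_of_isSolvable _
  have h3 : I = ⁅I, I⁆ ⊔ (I ⊓ C) := by
    rw [inf_comm, ← sup_inf_assoc_of_le C hle, hC.sup_eq_top, top_inf_eq]
  rw [h2, sup_bot_eq] at h3
  exact h3.symm

end perfect

section tf

variable {L : Type*} [LieRing L] [LieAlgebra ℂ L] [FiniteDimensional ℂ L] [HasTrivialRadical ℂ L]
  {M : Type*} [AddCommGroup M] [Module ℂ M] [LieRingModule L M] [LieModule ℂ L M]
  [FiniteDimensional ℂ M]

omit [FiniteDimensional ℂ L] [HasTrivialRadical ℂ L] [FiniteDimensional ℂ M] in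
lemma hspan (I : LieIdeal ℂ L) (N : LieSubmodule ℂ L M) (y : M)
    (hy : y ∈ (⁅I, N⁆ : LieSubmodule ℂ L M)) :
    y ∈ Submodule.span ℂ {m : M | ∃ x ∈ I, ∃ n ∈ N, ⁅x, n⁆ = m} := by
  rw [← LieSubmodule.mem_toSubmodule, LieSubmodule.lieIdeal_oper_eq_linear_span'] at hy
  exact hy

/-- an ideal on which the trace form vanishes acts trivially -/
lemma ideal_acts_trivially (I : LieIdeal ℂ L)
    (h : ∀ x ∈ I, ∀ y ∈ I, traceForm ℂ L M x y = 0) (x : L) (hx : x ∈ I) (m : M) :
    ⁅x, m⁆ = 0 := by
  have h1 : traceForm ℂ I M = 0 := by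
    ext x y
    exact h x x.2 y y.2
  have h2 := isNilpotent_derivedSeries_of_traceForm_eq_zero h1
  have hD : ∀ y : I, y ∈ derivedSeries ℂ I 1 := by
    intro y
    rw [LieIdeal.derivedSeries_eq_derivedSeriesOfIdeal_comap, LieIdeal.mem_comap,
      derivedSeriesOfIdeal_succ, derivedSeriesOfIdeal_zero, ideal_perfect]
    exact y.2
  obtain ⟨k, hk⟩ := (LieModule.isNilpotent_iff ℂ (derivedSeries ℂ I 1) M).mp h2
  have h3 : (⁅I, (⊤ : LieSubmodule ℂ L M)⁆ : LieSubmodule ℂ L M) ≤
      ⁅I, (⁅I, (⊤ : LieSubmodule ℂ L M)⁆ : LieSubmodule ℂ L M)⁆ := by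
    conv_lhs => rw [← ideal_perfect I]
    rw [LieSubmodule.lieIdeal_oper_eq_span, LieSubmodule.lieSpan_le]
    rintro _ ⟨⟨y, hy⟩, ⟨m, -⟩, rfl⟩
    have hy' := hspan I I y hy
    show ⁅y, m⁆ ∈ (⁅I, (⁅I, (⊤ : LieSubmodule ℂ L M)⁆ : LieSubmodule ℂ L M)⁆ : LieSubmodule ℂ L M)
    clear hy
    induction hy' using Submodule.span_induction with
    | mem y hy =>
      obtain ⟨a, ha, b, hb, rfl⟩ := hy
      rw [lie_lie]
      refine sub_mem ?_ ?_
      · exact LieSubmodule.lie_mem_lie ha (LieSubmodule.lie_mem_lie hb (LieSubmodule.mem_top m))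
      · exact LieSubmodule.lie_mem_lie hb (LieSubmodule.lie_mem_lie ha (LieSubmodule.mem_top m))
    | zero => rw [zero_lie]; exact zero_mem _
    | add a b _ _ ha hb => rw [add_lie]; exact add_mem ha hb
    | smul c a _ ha => rw [smul_lie]; exact SMulMemClass.smul_mem c ha
  have h4 : ∀ k, ∀ n ∈ (⁅I, (⊤ : LieSubmodule ℂ L M)⁆ : LieSubmodule ℂ L M),
      n ∈ LieModule.lowerCentralSeries ℂ (derivedSeries ℂ I 1) M k := by
    intro k
    induction k with
    | zero => intro n _; simp
    | succ k ih =>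
      intro n hn
      have hn' := hspan I _ n (h3 hn)
      rw [LieModule.lowerCentralSeries_succ]
      refine (Submodule.span_le (p := (⁅(⊤ : LieIdeal ℂ (derivedSeries ℂ I 1)),
        LieModule.lowerCentralSeries ℂ (derivedSeries ℂ I 1) M k⁆ :
          LieSubmodule ℂ (derivedSeries ℂ I 1) M).toSubmodule)).mpr ?_ hn'
      rintro _ ⟨a, ha, b, hb, rfl⟩
      exact LieSubmodule.lie_mem_lie
          (LieSubmodule.mem_top (⟨⟨a, ha⟩, hD ⟨a, ha⟩⟩ : derivedSeries ℂ I 1)) (ih b hb)
  have h5 := h4 k ⁅x, m⁆ (LieSubmodule.lie_mem_lie hx (LieSubmodule.mem_top m))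
  rw [hk] at h5
  exact (LieSubmodule.mem_bot _).mp h5

/-- elements orthogonal to everything for the trace form act trivially -/
lemma acts_trivially (x : L) (h : ∀ y, traceForm ℂ L M x y = 0) (m : M) : ⁅x, m⁆ = 0 := by
  let I : LieIdeal ℂ L := InvariantForm.orthogonal (traceForm ℂ L M)
    (traceForm_lieInvariant ℂ L M) ⊤
  have hI : ∀ x, x ∈ I ↔ ∀ y, traceForm ℂ L M x y = 0 := by
    intro x
    rw [InvariantForm.mem_orthogonal]
    constructor
    · intro h y; rw [traceForm_comm]; exact h y (LieSubmodule.mem_top y)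
    · intro h y _; rw [traceForm_comm]; exact h y
  exact ideal_acts_trivially I (fun x hx y _ => (hI x).mp hx y) x ((hI x).mpr h) m

/-- a Casimir operator -/
lemma exists_casimir (hne : ∃ (x : L) (m : M), ⁅x, m⁆ ≠ 0) :
    ∃ (N : ℕ) (X Y : Fin N → L),
      (∀ z : L, (toEnd ℂ L M z) * (∑ i, toEnd ℂ L M (X i) * toEnd ℂ L M (Y i)) =
        (∑ i, toEnd ℂ L M (X i) * toEnd ℂ L M (Y i)) * (toEnd ℂ L M z)) ∧
      LinearMap.trace ℂ M (∑ i, toEnd ℂ L M (X i) * toEnd ℂ L M (Y i)) ≠ 0 := by
  classical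
  letI : Invertible (2 : ℂ) := invertibleOfNonzero two_ne_zero
  obtain ⟨v, hv⟩ := LinearMap.BilinForm.exists_orthogonal_basis
    (B := traceForm ℂ L M) (traceForm_isSymm ℂ L M)
  have hv' : ∀ i j, i ≠ j → traceForm ℂ L M (v i) (v j) = 0 := fun i j hij => hv hij
  let B := traceForm ℂ L M
  have hexp : ∀ z : L, toEnd ℂ L M z =
      ∑ i, (B z (v i) * (B (v i) (v i))⁻¹) • toEnd ℂ L M (v i) := by
    intro z
    have h1 : z = ∑ i, v.repr z i • v i := (v.sum_repr z).symm
    have h2 : ∀ i, B z (v i) = v.repr z i * B (v i) (v i) := by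
      intro i
      have h3 : B z (v i) = ∑ j, v.repr z j * B (v j) (v i) := by
        conv_lhs => rw [h1]
        rw [map_sum, LinearMap.sum_apply]
        refine Finset.sum_congr rfl fun j _ => ?_
        rw [map_smul, LinearMap.smul_apply, smul_eq_mul]
      rw [h3, Finset.sum_eq_single i]
      · intro j _ hj; rw [show B (v j) (v i) = 0 from hv' j i hj, mul_zero]
      · intro h; exact absurd (Finset.mem_univ _) h
    conv_lhs => rw [h1, map_sum]
    refine Finset.sum_congr rfl fun i _ => ?_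
    rw [map_smul, h2]
    by_cases h0 : B (v i) (v i) = 0
    · have h4 : toEnd ℂ L M (v i) = 0 := by
        apply LinearMap.ext
        intro m
        refine acts_trivially (v i) (fun y => ?_) m
        have h5 : y = ∑ j, v.repr y j • v j := (v.sum_repr y).symm
        rw [h5, map_sum]
        refine Finset.sum_eq_zero fun j _ => ?_
        rw [map_smul]
        by_cases hij : i = j
        · subst hij; rw [show traceForm ℂ L M (v i) (v i) = 0 from h0, smul_zero]
        · rw [hv' i j hij, smul_zero]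
      rw [h4, smul_zero, smul_zero]
    · rw [mul_assoc, mul_inv_cancel₀ h0, mul_one]
  refine ⟨finrank ℂ L, v, fun i => (B (v i) (v i))⁻¹ • v i, ?_, ?_⟩
  · intro z
    have e1 : ∀ i, toEnd ℂ L M z * (toEnd ℂ L M (v i) * toEnd ℂ L M ((B (v i) (v i))⁻¹ • v i)) -
        (toEnd ℂ L M (v i) * toEnd ℂ L M ((B (v i) (v i))⁻¹ • v i)) * toEnd ℂ L M z =
        ∑ j, ((B ⁅z, v i⁆ (v j) * (B (v j) (v j))⁻¹ * (B (v i) (v i))⁻¹) •
          (toEnd ℂ L M (v j) * toEnd ℂ L M (v i)) +
        (B ⁅z, v i⁆ (v j) * (B (v j) (v j))⁻¹ * (B (v i) (v i))⁻¹) •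
          (toEnd ℂ L M (v i) * toEnd ℂ L M (v j))) := by
      intro i
      rw [Finset.sum_add_distrib]
      have h1 := hexp ⁅z, v i⁆
      rw [LieHom.map_lie, Ring.lie_def] at h1
      have h2 : ∑ j, (B ⁅z, v i⁆ (v j) * (B (v j) (v j))⁻¹ * (B (v i) (v i))⁻¹) •
          (toEnd ℂ L M (v j) * toEnd ℂ L M (v i)) =
          (B (v i) (v i))⁻¹ • ((toEnd ℂ L M z * toEnd ℂ L M (v i) -
            toEnd ℂ L M (v i) * toEnd ℂ L M z) * toEnd ℂ L M (v i)) := by
        rw [h1, Finset.sum_mul, Finset.smul_sum]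
        refine Finset.sum_congr rfl fun j _ => ?_
        rw [smul_mul_assoc, smul_smul, mul_comm (B (v i) (v i))⁻¹]
      have h3 : ∑ j, (B ⁅z, v i⁆ (v j) * (B (v j) (v j))⁻¹ * (B (v i) (v i))⁻¹) •
          (toEnd ℂ L M (v i) * toEnd ℂ L M (v j)) =
          (B (v i) (v i))⁻¹ • (toEnd ℂ L M (v i) * (toEnd ℂ L M z * toEnd ℂ L M (v i) -
            toEnd ℂ L M (v i) * toEnd ℂ L M z)) := by
        rw [h1, Finset.mul_sum, Finset.smul_sum]
        refine Finset.sum_congr rfl fun j _ => ?_
        rw [mul_smul_comm, smul_smul, mul_comm (B (v i) (v i))⁻¹]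
      rw [h2, h3, map_smul, ← smul_add, mul_smul_comm, mul_smul_comm, smul_mul_assoc, ← smul_sub]
      congr 1
      noncomm_ring
    rw [← sub_eq_zero, Finset.mul_sum, Finset.sum_mul, ← Finset.sum_sub_distrib,
      Finset.sum_congr rfl fun i _ => e1 i]
    simp only [Finset.sum_add_distrib]
    rw [Finset.sum_comm, ← Finset.sum_add_distrib]
    refine Finset.sum_eq_zero fun i _ => ?_
    rw [← Finset.sum_add_distrib]
    refine Finset.sum_eq_zero fun j _ => ?_
    rw [← add_smul]
    have h4 : B ⁅z, v j⁆ (v i) + B ⁅z, v i⁆ (v j) = 0 := by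
      have h5 := traceForm_lieInvariant ℂ L M z (v j) (v i)
      change B ⁅z, v j⁆ (v i) = - B (v j) ⁅z, v i⁆ at h5
      have h6 : B (v j) ⁅z, v i⁆ = B ⁅z, v i⁆ (v j) := traceForm_comm ℂ L M _ _
      rw [h5, h6]; ring
    have h7 : B ⁅z, v j⁆ (v i) * (B (v i) (v i))⁻¹ * (B (v j) (v j))⁻¹ +
        B ⁅z, v i⁆ (v j) * (B (v j) (v j))⁻¹ * (B (v i) (v i))⁻¹ = 0 := by
      linear_combination (B (v i) (v i))⁻¹ * (B (v j) (v j))⁻¹ * h4
    rw [h7, zero_smul]
  · rw [map_sum]
    have h1 : ∀ i, LinearMap.trace ℂ M (toEnd ℂ L M (v i) *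
        toEnd ℂ L M ((B (v i) (v i))⁻¹ • v i)) = if B (v i) (v i) = 0 then 0 else 1 := by
      intro i
      rw [map_smul, mul_smul_comm, map_smul, smul_eq_mul]
      have h2 : LinearMap.trace ℂ M (toEnd ℂ L M (v i) * toEnd ℂ L M (v i)) = B (v i) (v i) := rfl
      rw [h2]
      split_ifs with h
      · rw [h, mul_zero]
      · exact inv_mul_cancel₀ h
    simp only [h1]
    rw [Finset.sum_ite, Finset.sum_const_zero, zero_add, Finset.sum_const, nsmul_eq_mul, mul_one]
    rw [Nat.cast_ne_zero, Finset.card_ne_zero]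
    by_contra hemp
    rw [Finset.not_nonempty_iff_eq_empty, Finset.filter_eq_empty_iff] at hemp
    obtain ⟨x, m, hxm⟩ := hne
    apply hxm
    have h3 := hexp x
    have h4 : toEnd ℂ L M x = 0 := by
      rw [h3]
      refine Finset.sum_eq_zero fun i _ => ?_
      have h5 : B (v i) (v i) = 0 := by
        by_contra hh; exact hemp (Finset.mem_univ i) hh
      rw [h5, inv_zero, mul_zero, zero_smul]
    have h6 := congrArg (fun g => g m) h4
    exact h6

end tf

/-- weak form of Weyl's theorem -/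
theorem weyl_lite {L : Type*} [LieRing L] [LieAlgebra ℂ L] [FiniteDimensional ℂ L]
    [HasTrivialRadical ℂ L] : ∀ (d : ℕ) (M : Type) [AddCommGroup M] [Module ℂ M]
    [LieRingModule L M] [LieModule ℂ L M] [FiniteDimensional ℂ M], finrank ℂ M ≤ d →
    ∀ (f : M →ₗ[ℂ] ℂ), (∀ (x : L) (m : M), f ⁅x, m⁆ = 0) → f ≠ 0 →
    ∃ m : M, (∀ x : L, ⁅x, m⁆ = 0) ∧ f m ≠ 0 := by
  intro d
  induction d with
  | zero =>
    intro M _ _ _ _ _ hd f _ hf
    exfalso
    apply hf
    have : Subsingleton M := finrank_zero_iff.mp (Nat.le_zero.mp hd)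
    exact Subsingleton.elim _ _
  | succ d ih =>
    intro M _ _ _ _ _ hd f hinv hf
    by_cases hne : ∃ (x : L) (m : M), ⁅x, m⁆ ≠ 0
    · obtain ⟨N, X, Y, hcomm, htr⟩ := exists_casimir hne
      obtain ⟨Ω, hΩ⟩ : ∃ Ω : Module.End ℂ M,
        Ω = ∑ i, toEnd ℂ L M (X i) * toEnd ℂ L M (Y i) := ⟨_, rfl⟩
      rw [← hΩ] at hcomm htr
      have hfΩ : ∀ m, f (Ω m) = 0 := by
        intro m
        rw [hΩ, LinearMap.sum_apply, map_sum]
        refine Finset.sum_eq_zero fun i _ => ?_
        exact hinv _ _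
      have hc := LinearMap.isCompl_iSup_ker_pow_iInf_range_pow Ω
      -- the null component
      have hcomm' : ∀ (k : ℕ) (z : L), (toEnd ℂ L M z) * Ω ^ k = Ω ^ k * (toEnd ℂ L M z) := by
        intro k z
        exact (show Commute (toEnd ℂ L M z) Ω from hcomm z).pow_right k
      let M0 : LieSubmodule ℂ L M :=
        { (⨆ n, LinearMap.ker (Ω ^ n) : Submodule ℂ M) with
          lie_mem := by
            intro x m hm
            have hmono : Monotone (fun n => LinearMap.ker (Ω ^ n)) := by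
              intro a b hab
              obtain ⟨c, rfl⟩ := Nat.exists_eq_add_of_le hab
              intro v hv
              rw [LinearMap.mem_ker] at hv ⊢
              rw [add_comm, pow_add, Module.End.mul_apply, hv, map_zero]
            change m ∈ (⨆ n, LinearMap.ker (Ω ^ n) : Submodule ℂ M) at hm
            change ⁅x, m⁆ ∈ (⨆ n, LinearMap.ker (Ω ^ n) : Submodule ℂ M)
            rw [Submodule.mem_iSup_of_directed _ hmono.directed_le] at hm ⊢
            obtain ⟨n, hn⟩ := hm
            refine ⟨n, ?_⟩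
            rw [LinearMap.mem_ker] at hn ⊢
            have h1 := congrArg (fun g => g m) (hcomm' n x)
            simp only [Module.End.mul_apply, toEnd_apply_apply] at h1
            rw [← h1, hn, lie_zero] }
      have hM0 : ∀ m, m ∈ M0 ↔ m ∈ (⨆ n, LinearMap.ker (Ω ^ n) : Submodule ℂ M) :=
        fun m => Iff.rfl
      -- `f` is non-zero on the null component
      have hf0 : ∃ m ∈ M0, f m ≠ 0 := by
        by_contra hcon
        push Not at hcon
        apply hf
        apply LinearMap.ext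
        intro m
        have hm : m ∈ (⨆ n, LinearMap.ker (Ω ^ n) : Submodule ℂ M) ⊔
            (⨅ n, LinearMap.range (Ω ^ n) : Submodule ℂ M) := by
          rw [hc.sup_eq_top]; exact Submodule.mem_top
        rw [Submodule.mem_sup] at hm
        obtain ⟨a, ha, b, hb, rfl⟩ := hm
        rw [map_add, hcon a ha, zero_add]
        rw [Submodule.mem_iInf] at hb
        obtain ⟨c, rfl⟩ := hb 1
        rw [pow_one]
        exact hfΩ c
      have hlt : finrank ℂ M0 < finrank ℂ M := by
        apply Submodule.finrank_lt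
        intro htop
        apply htr
        have hnil : IsNilpotent Ω := by
          obtain ⟨n, hn⟩ : ∃ n, ∀ m, m ∈ LinearMap.ker (Ω ^ n) := by
            have hmono : Monotone (fun n => LinearMap.ker (Ω ^ n)) := by
              intro a b hab
              obtain ⟨c, rfl⟩ := Nat.exists_eq_add_of_le hab
              intro v hv
              rw [LinearMap.mem_ker] at hv ⊢
              rw [add_comm, pow_add, Module.End.mul_apply, hv, map_zero]
            let b := Module.finBasis ℂ M
            have h1 : ∀ i, ∃ n, b i ∈ LinearMap.ker (Ω ^ n) := by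
              intro i
              have h2 : b i ∈ (⨆ n, LinearMap.ker (Ω ^ n) : Submodule ℂ M) := by
                have h3 : b i ∈ M0.toSubmodule := by
                  rw [htop]; exact Submodule.mem_top
                exact h3
              rwa [Submodule.mem_iSup_of_directed _ hmono.directed_le] at h2
            choose n hn using h1
            refine ⟨Finset.univ.sup n, fun m => ?_⟩
            have h4 : ∀ i, b i ∈ LinearMap.ker (Ω ^ (Finset.univ.sup n)) :=
              fun i => hmono (Finset.le_sup (Finset.mem_univ i)) (hn i)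
            rw [← b.sum_repr m]
            exact Submodule.sum_mem _ fun i _ => Submodule.smul_mem _ _ (h4 i)
          exact ⟨n, LinearMap.ext fun m => hn m⟩
        exact (LinearMap.isNilpotent_trace_of_isNilpotent hnil).eq_zero
      obtain ⟨m, hm, hm'⟩ := ih M0 (by omega) (f ∘ₗ (M0 : Submodule ℂ M).subtype) (by
          intro x m; exact hinv x m) (by
          obtain ⟨m, hm, hfm⟩ := hf0
          intro h0
          apply hfm
          have h1 := congrArg (fun g => g ⟨m, hm⟩) h0
          exact h1)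
      exact ⟨m, fun x => by
        have h1 := congrArg Subtype.val (hm x)
        exact h1, hm'⟩
    · push Not at hne
      by_contra hcon
      push Not at hcon
      apply hf
      apply LinearMap.ext
      intro m
      exact hcon m (fun x => hne x m)

end Pool.Agent.Helper7
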