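import Pool.Agent.Helper7.TX2
import Pool.Agent.Helper7.WeylLite

/-!
Existence of a second invariant four-form pairing non-trivially with a given one.
-/

namespace Pool.Agent.Helper7

open Module

section multi

variable {V : Type} [AddCommGroup V] [Module ℂ V]

/-- one-forms as linear maps -/
def m1 (x : MultilinearMap ℂ (fun _ : Fin 1 => V) ℂ) : V →ₗ[ℂ] ℂ where
  toFun a := x.curryLeft a ![]
  map_add' a b := by rw [map_add]; rfl
  map_smul' c a := by rw [map_smul]; rfl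

/-- two-forms as bilinear maps -/
def m2 (x : MultilinearMap ℂ (fun _ : Fin 2 => V) ℂ) : V →ₗ[ℂ] V →ₗ[ℂ] ℂ where
  toFun a := m1 (x.curryLeft a)
  map_add' a b := by rw [map_add]; rfl
  map_smul' c a := by rw [map_smul]; rfl

/-- three-forms as trilinear maps -/
def m3 (x : MultilinearMap ℂ (fun _ : Fin 3 => V) ℂ) : V →ₗ[ℂ] V →ₗ[ℂ] V →ₗ[ℂ] ℂ where
  toFun a := m2 (x.curryLeft a)
  map_add' a b := by rw [map_add]; rfl
  map_smul' c a := by rw [map_smul]; rfl

/-- four-forms as quadrilinear maps -/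
def m4 (x : MultilinearMap ℂ (fun _ : Fin 4 => V) ℂ) :
    V →ₗ[ℂ] V →ₗ[ℂ] V →ₗ[ℂ] V →ₗ[ℂ] ℂ where
  toFun a := m3 (x.curryLeft a)
  map_add' a b := by rw [map_add]; rfl
  map_smul' c a := by rw [map_smul]; rfl

lemma m4_apply (x : MultilinearMap ℂ (fun _ : Fin 4 => V) ℂ) (a b c d : V) :
    m4 x a b c d = x ![a, b, c, d] := by
  show x (Fin.cons a (Fin.cons b (Fin.cons c (Fin.cons d ![])))) = _
  congr 1

lemma q4_eq_m4 (x : V [⋀^Fin 4]→ₗ[ℂ] ℂ) (a b c d : V) :
    q4 x a b c d = m4 (x : MultilinearMap ℂ (fun _ : Fin 4 => V) ℂ) a b c d := by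
  rw [m4_apply, q4_apply]; rfl

lemma act_four (X : Module.End ℂ V) (x : MultilinearMap ℂ (fun _ : Fin 4 => V) ℂ) (a b c d : V) :
    actForm X x ![a, b, c, d] = SympB.act4 X (m4 x) a b c d := by
  rw [actForm_apply, Fin.sum_univ_four, SympB.act4, m4_apply, m4_apply, m4_apply, m4_apply]
  congr 1
  · congr 1
    · congr 1
      · congr 1
        funext i; fin_cases i <;> rfl
      · congr 1
        funext i; fin_cases i <;> rfl
    · congr 1
      funext i; fin_cases i <;> rfl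
  · congr 1
    funext i; fin_cases i <;> rfl

end multi

lemma sum_fin4 {ι : Type} [Fintype ι] (g : (Fin 4 → ι) → ℂ) :
    ∑ s, g s = ∑ a, ∑ b, ∑ c, ∑ d, g ![a, b, c, d] := by
  let E : (Fin 4 → ι) ≃ ι × ι × ι × ι :=
    { toFun := fun s => (s 0, s 1, s 2, s 3)
      invFun := fun p => ![p.1, p.2.1, p.2.2.1, p.2.2.2]
      left_inv := fun s => by funext i; fin_cases i <;> rfl
      right_inv := fun p => rfl }
  rw [← Equiv.sum_comp E.symm g, Fintype.sum_prod_type]
  refine Finset.sum_congr rfl fun a _ => ?_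
  rw [Fintype.sum_prod_type]
  refine Finset.sum_congr rfl fun b _ => ?_
  rw [Fintype.sum_prod_type]
  rfl

namespace SympB

variable {V : Type} [AddCommGroup V] [Module ℂ V] {ι : Type} [Fintype ι] [DecidableEq ι]
  (S : SympB V ι)

/-- the pairing of four-forms -/
noncomputable def pair4 (x : MultilinearMap ℂ (fun _ : Fin 4 => V) ℂ) :
    MultilinearMap ℂ (fun _ : Fin 4 => V) ℂ →ₗ[ℂ] ℂ where
  toFun Y := ∑ s : Fin 4 → ι, x (fun r => S.e (s r)) * Y (fun r => S.e' (s r))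
  map_add' Y Y' := by
    rw [← Finset.sum_add_distrib]
    exact Finset.sum_congr rfl fun s _ => by rw [_root_.add_apply, mul_add]
  map_smul' c Y := by
    rw [RingHom.id_apply, Finset.smul_sum]
    exact Finset.sum_congr rfl fun s _ => by
      rw [_root_.smul_apply, smul_eq_mul, smul_eq_mul]; ring

lemma pair4_apply (x Y : MultilinearMap ℂ (fun _ : Fin 4 => V) ℂ) :
    S.pair4 x Y = ∑ s : Fin 4 → ι, x (fun r => S.e (s r)) * Y (fun r => S.e' (s r)) := rfl

lemma pair4_eq (x Y : MultilinearMap ℂ (fun _ : Fin 4 => V) ℂ) :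
    S.pair4 x Y = ∑ a, ∑ b, ∑ c, ∑ d, m4 x (S.e a) (S.e b) (S.e c) (S.e d) *
      m4 Y (S.e' a) (S.e' b) (S.e' c) (S.e' d) := by
  rw [pair4_apply, sum_fin4]
  refine Finset.sum_congr rfl fun a _ => Finset.sum_congr rfl fun b _ =>
    Finset.sum_congr rfl fun c _ => Finset.sum_congr rfl fun d _ => ?_
  rw [m4_apply, m4_apply]
  congr 2
  · funext i; fin_cases i <;> rfl
  · funext i; fin_cases i <;> rfl

/-- invariance of the pairing -/
lemma pair4_inv (X : Module.End ℂ V) (hX : S.IsSkew X)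
    (x Y : MultilinearMap ℂ (fun _ : Fin 4 => V) ℂ) :
    S.pair4 x (actForm X Y) = - S.pair4 (actForm X x) Y := by
  have hadj : ∀ g : V →ₗ[ℂ] V →ₗ[ℂ] ℂ, ∑ b, g (S.e b) (X (S.e' b)) =
      - ∑ b, g (X (S.e b)) (S.e' b) := by
    intro g
    have h := S.sum_adj g (-X) X (fun u v => by
      rw [LinearMap.neg_apply, map_neg, LinearMap.neg_apply, hX, neg_neg])
    rw [← h, ← Finset.sum_neg_distrib]
    exact Finset.sum_congr rfl fun b _ => by
      rw [LinearMap.neg_apply, map_neg, LinearMap.neg_apply]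
  have hx : ∀ a b c d, m4 (actForm X x) a b c d = act4 X (m4 x) a b c d := by
    intro a b c d; rw [m4_apply, act_four]
  have hY : ∀ a b c d, m4 (actForm X Y) a b c d = act4 X (m4 Y) a b c d := by
    intro a b c d; rw [m4_apply, act_four]
  rw [S.pair4_eq, S.pair4_eq]
  simp only [hx, hY, act4, mul_add, add_mul, Finset.sum_add_distrib, neg_add]
  -- the four slots
  have e1 : ∑ a, ∑ b, ∑ c, ∑ d, m4 x (S.e a) (S.e b) (S.e c) (S.e d) *
      m4 Y (X (S.e' a)) (S.e' b) (S.e' c) (S.e' d) = - ∑ a, ∑ b, ∑ c, ∑ d,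
      m4 x (X (S.e a)) (S.e b) (S.e c) (S.e d) * m4 Y (S.e' a) (S.e' b) (S.e' c) (S.e' d) := by
    let g : V →ₗ[ℂ] V →ₗ[ℂ] ℂ := LinearMap.mk₂ ℂ (fun u v => ∑ b, ∑ c, ∑ d,
      m4 x u (S.e b) (S.e c) (S.e d) * m4 Y v (S.e' b) (S.e' c) (S.e' d))
      (fun u u' v => by simp [add_mul, Finset.sum_add_distrib])
      (fun t u v => by simp [Finset.mul_sum, mul_assoc])
      (fun u v v' => by simp [mul_add, Finset.sum_add_distrib])
      (fun t u v => by simp [Finset.mul_sum, mul_left_comm])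
    exact hadj g
  have e2 : ∑ a, ∑ b, ∑ c, ∑ d, m4 x (S.e a) (S.e b) (S.e c) (S.e d) *
      m4 Y (S.e' a) (X (S.e' b)) (S.e' c) (S.e' d) = - ∑ a, ∑ b, ∑ c, ∑ d,
      m4 x (S.e a) (X (S.e b)) (S.e c) (S.e d) * m4 Y (S.e' a) (S.e' b) (S.e' c) (S.e' d) := by
    rw [← Finset.sum_neg_distrib]
    refine Finset.sum_congr rfl fun a _ => ?_
    let g : V →ₗ[ℂ] V →ₗ[ℂ] ℂ := LinearMap.mk₂ ℂ (fun u v => ∑ c, ∑ d,
      m4 x (S.e a) u (S.e c) (S.e d) * m4 Y (S.e' a) v (S.e' c) (S.e' d))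
      (fun u u' v => by simp [add_mul, Finset.sum_add_distrib])
      (fun t u v => by simp [Finset.mul_sum, mul_assoc])
      (fun u v v' => by simp [mul_add, Finset.sum_add_distrib])
      (fun t u v => by simp [Finset.mul_sum, mul_left_comm])
    exact hadj g
  have e3 : ∑ a, ∑ b, ∑ c, ∑ d, m4 x (S.e a) (S.e b) (S.e c) (S.e d) *
      m4 Y (S.e' a) (S.e' b) (X (S.e' c)) (S.e' d) = - ∑ a, ∑ b, ∑ c, ∑ d,
      m4 x (S.e a) (S.e b) (X (S.e c)) (S.e d) * m4 Y (S.e' a) (S.e' b) (S.e' c) (S.e' d) := by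
    rw [← Finset.sum_neg_distrib]
    refine Finset.sum_congr rfl fun a _ => ?_
    rw [← Finset.sum_neg_distrib]
    refine Finset.sum_congr rfl fun b _ => ?_
    let g : V →ₗ[ℂ] V →ₗ[ℂ] ℂ := LinearMap.mk₂ ℂ (fun u v => ∑ d,
      m4 x (S.e a) (S.e b) u (S.e d) * m4 Y (S.e' a) (S.e' b) v (S.e' d))
      (fun u u' v => by simp [add_mul, Finset.sum_add_distrib])
      (fun t u v => by simp [Finset.mul_sum, mul_assoc])
      (fun u v v' => by simp [mul_add, Finset.sum_add_distrib])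
      (fun t u v => by simp [Finset.mul_sum, mul_left_comm])
    exact hadj g
  have e4 : ∑ a, ∑ b, ∑ c, ∑ d, m4 x (S.e a) (S.e b) (S.e c) (S.e d) *
      m4 Y (S.e' a) (S.e' b) (S.e' c) (X (S.e' d)) = - ∑ a, ∑ b, ∑ c, ∑ d,
      m4 x (S.e a) (S.e b) (S.e c) (X (S.e d)) * m4 Y (S.e' a) (S.e' b) (S.e' c) (S.e' d) := by
    rw [← Finset.sum_neg_distrib]
    refine Finset.sum_congr rfl fun a _ => ?_
    rw [← Finset.sum_neg_distrib]
    refine Finset.sum_congr rfl fun b _ => ?_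
    rw [← Finset.sum_neg_distrib]
    refine Finset.sum_congr rfl fun c _ => ?_
    let g : V →ₗ[ℂ] V →ₗ[ℂ] ℂ := LinearMap.mk₂ ℂ (fun u v =>
      m4 x (S.e a) (S.e b) (S.e c) u * m4 Y (S.e' a) (S.e' b) (S.e' c) v)
      (fun u u' v => by simp [add_mul])
      (fun t u v => by simp [mul_assoc])
      (fun u v v' => by simp [mul_add])
      (fun t u v => by simp [mul_left_comm])
    exact hadj g
  rw [e1, e2, e3, e4]

/-- the pairing is non-degenerate on the left -/
lemma pair4_nondeg (x : MultilinearMap ℂ (fun _ : Fin 4 => V) ℂ) (h : S.pair4 x = 0) : x = 0 := by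
  apply Basis.ext_multilinear (fun _ => S.e)
  intro s
  have h1 := congrArg (fun g => g ((MultilinearMap.mkPiAlgebra ℂ (Fin 4) ℂ).compLinearMap
    (fun r => S.ω (S.e (s r))))) h
  simp only [pair4_apply, LinearMap.zero_apply, MultilinearMap.compLinearMap_apply,
    MultilinearMap.mkPiAlgebra_apply, S.dual] at h1
  rw [Finset.sum_eq_single s] at h1
  · simpa using h1
  · intro s' _ hs'
    obtain ⟨r, hr⟩ := Function.ne_iff.mp hs'
    rw [Finset.prod_eq_zero (Finset.mem_univ r) (if_neg (fun h => hr h.symm)), mul_zero]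
  · intro h; exact absurd (Finset.mem_univ _) h

/-- pairing with an alternatisation -/
lemma pair4_alt (x : V [⋀^Fin 4]→ₗ[ℂ] ℂ) (Y : MultilinearMap ℂ (fun _ : Fin 4 => V) ℂ) :
    S.pair4 (x : MultilinearMap ℂ (fun _ : Fin 4 => V) ℂ)
      (MultilinearMap.alternatization Y : V [⋀^Fin 4]→ₗ[ℂ] ℂ) = 24 *
      S.pair4 (x : MultilinearMap ℂ (fun _ : Fin 4 => V) ℂ) Y := by
  rw [MultilinearMap.alternatization_coe, map_sum]
  have h1 : ∀ π : Equiv.Perm (Fin 4), S.pair4 (x : MultilinearMap ℂ (fun _ : Fin 4 => V) ℂ)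
      (Equiv.Perm.sign π • Y.domDomCongr π) =
      S.pair4 (x : MultilinearMap ℂ (fun _ : Fin 4 => V) ℂ) Y := by
    intro π
    have h2 : S.pair4 (x : MultilinearMap ℂ (fun _ : Fin 4 => V) ℂ) (Y.domDomCongr π) =
        Equiv.Perm.sign π • S.pair4 (x : MultilinearMap ℂ (fun _ : Fin 4 => V) ℂ) Y := by
      rw [pair4_apply, pair4_apply, Finset.smul_sum]
      refine Fintype.sum_equiv (Equiv.arrowCongr π.symm (Equiv.refl ι)) _ _ fun s => ?_
      have h3 : (x : MultilinearMap ℂ (fun _ : Fin 4 => V) ℂ) (fun r => S.e (s r)) =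
          Equiv.Perm.sign π • x (fun r => S.e (s (π r))) := by
        have h4 := x.map_perm (fun r => S.e (s r)) π
        have h5 : ((fun r => S.e (s r)) ∘ ⇑π) = fun r => S.e (s (π r)) := rfl
        rw [h5] at h4
        rw [h4, smul_smul, Int.units_mul_self, one_smul]
        rfl
      rw [h3, MultilinearMap.domDomCongr_apply, smul_mul_assoc]
      rfl
    rcases Int.units_eq_one_or (Equiv.Perm.sign π) with h | h
    · rw [h] at h2 ⊢
      rw [one_smul, h2, one_smul]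
    · rw [h] at h2 ⊢
      have h4 : (-1 : ℤˣ) • Y.domDomCongr π = - Y.domDomCongr π := by
        rw [Units.neg_smul, one_smul]
      rw [h4, map_neg, h2, Units.neg_smul, one_smul, neg_neg]
  rw [Finset.sum_congr rfl fun π _ => h1 π, Finset.sum_const, Finset.card_univ,
    Fintype.card_perm, Fintype.card_fin, nsmul_eq_mul]
  norm_num [Nat.factorial]

end SympB

end Pool.Agent.Helper7
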