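import Pool.Agent.Helper7.Family3
import Pool.Agent.Helper7.J2
import Pool.Agent.Helper7.J3
import Pool.Agent.Helper7.TX3
import Pool.Agent.Helper8.Lie.ModLemmas

/-!
Slots, the perfect lift, and products of invariant pairings.
-/

namespace Pool.Agent.Helper7

open Module NumberField LieAlgebra

attribute [local instance 100] LieRing.ofAssociativeRing

open Pool.Agent.GPC (Emb IsOdd IsOddModule translate)
open Pool.Agent.Helper8 (Symp perfect_of_killing ML2 ML4 Inv2 Inv4 exists_linear)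

set_option linter.unusedSectionVars false

section family

variable {I : Type} [Fintype I] [DecidableEq I] (n : I → ℕ)
  {κ : I → Type} [∀ i, Fintype (κ i)] [∀ i, DecidableEq (κ i)] {ϖ : ℂ}
  (P : ∀ i, PData (κ i) ϖ)
  {K : I → Type} [∀ i, Field (K i)] [∀ i, NumberField (K i)]
  (F : ∀ i, FS (P i) (K i))

section general

variable {k : ℕ} (α : MultilinearMap ℂ (fun _ : Fin (2 * k) => HW κ n) ℂ)

lemma FS.chi_add {κ : Type} [Fintype κ] [DecidableEq κ] {ϖ : ℂ} {P : PData κ ϖ} {K : Type}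
    [Field K] [NumberField K] (F : FS P K) (σ : K →+* ℂ) (X Y : Module.End ℂ (κ → ℂ)) (c d : ℂ) :
    F.chi σ (X + Y) (c + d) = F.chi σ X c + F.chi σ Y d := by
  cases F with
  | inl F => show (c + d) / 2 = c / 2 + d / 2; ring
  | inr F =>
    show F.1.mat σ (X + Y) 0 0 = F.1.mat σ X 0 0 + F.1.mat σ Y 0 0
    rw [map_add]; rfl

lemma FS.chi_smul {κ : Type} [Fintype κ] [DecidableEq κ] {ϖ : ℂ} {P : PData κ ϖ} {K : Type}
    [Field K] [NumberField K] (F : FS P K) (σ : K →+* ℂ) (X : Module.End ℂ (κ → ℂ)) (a c : ℂ) :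
    F.chi σ (a • X) (a * c) = a * F.chi σ X c := by
  cases F with
  | inl F => show (a * c) / 2 = a * (c / 2); ring
  | inr F =>
    show F.1.mat σ (a • X) 0 0 = a * F.1.mat σ X 0 0
    rw [map_smul]; rfl

/-- every element of the Lie algebra comes from a symmetry without multiplier and weights -/
lemma perfect_lift (hk : IsKilling ℂ (LL n P F α)) (a : LL n P F α) :
    ∃ X hX, a = elL n P F α X hX ∧ X.2 = 0 ∧ ∀ s, ¬ (F s.1).isLeft → chiC P F s X = 0 := by
  have h1 := perfect_of_killing a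
  refine Submodule.span_induction (p := fun a _ => ∃ X hX, a = elL n P F α X hX ∧ X.2 = 0 ∧
    ∀ s, ¬ (F s.1).isLeft → chiC P F s X = 0) ?_ ?_ ?_ ?_ h1
  · rintro _ ⟨b, c, rfl⟩
    obtain ⟨X, hX, rfl⟩ := exists_elL n P F α b
    obtain ⟨Y, hY, rfl⟩ := exists_elL n P F α c
    refine ⟨X * Y - Y * X, hX.bracket n P α hY, elL_bracket n P F α X Y hX hY, ?_, ?_⟩
    · show X.2 * Y.2 - Y.2 * X.2 = 0
      ring
    · intro s hs
      exact (F s.1).chi_mul hs s.2 (X.1 s.1) (Y.1 s.1) 0 0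
        (fun x v => IsInv.commK n P F α hX s.1 x v) (fun x v => IsInv.commK n P F α hY s.1 x v) _
  · refine ⟨0, IsInv.zero n P α, ?_, rfl, ?_⟩
    · apply Subtype.ext
      show (0 : Module.End ℂ (MM κ)) = phi P F 0
      rw [map_zero]
    · intro s _
      have h2 := (F s.1).chi_smul s.2 0 0 0
      rw [zero_mul] at h2
      show (F s.1).chi s.2 0 0 = 0
      simpa using h2
  · rintro a b _ _ ⟨X, hX, rfl, h2, h3⟩ ⟨Y, hY, rfl, h4, h5⟩
    refine ⟨X + Y, hX.add n P α hY, ?_, ?_, ?_⟩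
    · apply Subtype.ext
      show phi P F X + phi P F Y = phi P F (X + Y)
      rw [map_add]
    · show X.2 + Y.2 = 0
      rw [h2, h4, add_zero]
    · intro s hs
      have h6 := (F s.1).chi_add s.2 (X.1 s.1) (Y.1 s.1) X.2 Y.2
      have h7 := h3 s hs
      have h8 := h5 s hs
      show (F s.1).chi s.2 (X.1 s.1 + Y.1 s.1) (X.2 + Y.2) = 0
      rw [h6]
      show chiC P F s X + chiC P F s Y = 0
      rw [h7, h8, add_zero]
  · rintro c a _ ⟨X, hX, rfl, h2, h3⟩
    refine ⟨c • X, hX.smul n P α c, ?_, ?_, ?_⟩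
    · apply Subtype.ext
      show c • phi P F X = phi P F (c • X)
      rw [map_smul]
    · show c * X.2 = 0
      rw [h2, mul_zero]
    · intro s hs
      have h6 := (F s.1).chi_smul s.2 (X.1 s.1) c X.2
      show (F s.1).chi s.2 (c • X.1 s.1) (c * X.2) = 0
      rw [h6]
      show c * chiC P F s X = 0
      rw [h3 s hs, mul_zero]

/-- atoms -/
abbrev At (n : I → ℕ) (K : I → Type) [∀ i, Field (K i)] : Type :=
  Σ i, Fin (n i) × (K i →+* ℂ)

/-- the place of an atom -/
abbrev pl (t : At n K) : Emb K := ⟨t.1, t.2.2⟩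

/-- inclusion of a slot -/
noncomputable def inS (t : At n K) : Vs n P F α (pl n t) →ₗ[ℂ] HW κ n :=
  (slotL n t.1 t.2.1) ∘ₗ (LinearMap.proj t.1 : MM κ →ₗ[ℂ] (κ t.1 → ℂ)) ∘ₗ
    (Vs n P F α (pl n t)).toSubmodule.subtype

lemma inS_apply (t : At n K) (x : Vs n P F α (pl n t)) :
    inS n P F α t x = slotL n t.1 t.2.1 ((x : MM κ) t.1) := rfl

/-- projection to a slot -/
noncomputable def outS (t : At n K) : HW κ n →ₗ[ℂ] Vs n P F α (pl n t) :=
  (toVs n P F α (pl n t)) ∘ₗ prL n t.1 t.2.1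

lemma outS_apply (t : At n K) (u : HW κ n) :
    ((outS n P F α t u : Vs n P F α (pl n t)) : MM κ) t.1 =
      proj (F t.1).ρ t.2.2 (u t.1 t.2.1) := toVs_apply n P F α (pl n t) _

/-- the projector to an atom -/
noncomputable def EE (t : At n K) : Module.End ℂ (HW κ n) :=
  (slotL n t.1 t.2.1) ∘ₗ (proj (F t.1).ρ t.2.2) ∘ₗ prL n t.1 t.2.1

lemma EE_apply (t : At n K) (u : HW κ n) :
    EE n P F t u = slotL n t.1 t.2.1 (proj (F t.1).ρ t.2.2 (u t.1 t.2.1)) := rfl

lemma EE_eq (t : At n K) (u : HW κ n) : EE n P F t u = inS n P F α t (outS n P F α t u) := by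
  rw [EE_apply, inS_apply, outS_apply]

lemma sum_EE (u : HW κ n) : ∑ t, EE n P F t u = u := by
  conv_rhs => rw [← sum_slot n u]
  rw [Fintype.sum_sigma]
  refine Finset.sum_congr rfl fun i _ => ?_
  rw [Fintype.sum_prod_type]
  refine Finset.sum_congr rfl fun m _ => ?_
  have h1 : u i m = ∑ σ, proj (F i).ρ σ (u i m) := by
    rw [← LinearMap.sum_apply, sum_proj]; rfl
  conv_rhs => rw [h1, map_sum]
  rfl

lemma lift_in (X : GG κ) (hX : IsInv n P α X) (t : At n K) (ht : (F t.1).isLeft)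
    (x : Vs n P F α (pl n t)) : lift n X.1 (inS n P F α t x) =
      inS n P F α t ⁅elL n P F α X hX, x⁆ + (X.2 / 2) • inS n P F α t x := by
  rw [inS_apply, inS_apply, lift_slot, elL_real n P F α X hX (pl n t) ht, map_sub, map_smul,
    sub_add_cancel]

lemma out_lift (X : GG κ) (hX : IsInv n P α X) (t : At n K) (ht : (F t.1).isLeft) (u : HW κ n) :
    outS n P F α t (lift n X.1 u) =
      ⁅elL n P F α X hX, outS n P F α t u⁆ + (X.2 / 2) • outS n P F α t u := by
  apply Vs_ext n P F α (pl n t)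
  have h1 : ((⁅elL n P F α X hX, outS n P F α t u⁆ + (X.2 / 2) • outS n P F α t u :
      Vs n P F α (pl n t)) : MM κ) t.1 =
      ((⁅elL n P F α X hX, outS n P F α t u⁆ : Vs n P F α (pl n t)) : MM κ) t.1 +
      (X.2 / 2) • ((outS n P F α t u : Vs n P F α (pl n t)) : MM κ) t.1 := rfl
  show ((outS n P F α t (lift n X.1 u) : Vs n P F α (pl n t)) : MM κ) t.1 = _
  rw [h1, elL_real n P F α X hX (pl n t) ht, outS_apply, outS_apply, lift_apply,
    sub_add_cancel, IsInv.commP n P F α hX]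

/-- the eigenvector of an atom of CM type -/
noncomputable def evS (t : At n K) : HW κ n := slotL n t.1 t.2.1 ((F t.1).ev t.2.2)

/-- the coordinate at an atom of CM type -/
noncomputable def cvS (t : At n K) : HW κ n →ₗ[ℂ] ℂ := ((F t.1).cv t.2.2) ∘ₗ prL n t.1 t.2.1

lemma EE_cm (t : At n K) (ht : ¬ (F t.1).isLeft) (u : HW κ n) :
    EE n P F t u = cvS n P F t u • evS n P F t := by
  rw [EE_apply, (F t.1).proj_cm ht, map_smul]; rfl

lemma lift_evS (X : GG κ) (hX : IsInv n P α X) (t : At n K) (ht : ¬ (F t.1).isLeft) :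
    lift n X.1 (evS n P F t) = chiC P F (pl n t) X • evS n P F t := by
  rw [evS, lift_slot, (F t.1).ev_act ht t.2.2 (X.1 t.1) X.2
    (fun x v => IsInv.commK n P F α hX t.1 x v), map_smul]
  rfl

lemma cvS_lift (X : GG κ) (hX : IsInv n P α X) (t : At n K) (ht : ¬ (F t.1).isLeft)
    (u : HW κ n) : cvS n P F t (lift n X.1 u) = chiC P F (pl n t) X * cvS n P F t u :=
  (F t.1).cv_act ht t.2.2 (X.1 t.1) X.2 (fun x v => IsInv.commK n P F α hX t.1 x v) _

/-- invariant pairings of two slots of real type -/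
lemma real_pair (t t' : At n K) (ht : (F t.1).isLeft) (ht' : (F t'.1).isLeft)
    {f : Vs n P F α (pl n t) → Vs n P F α (pl n t') → ℂ} (hf : ML2 f)
    (hI : Inv2 (LL n P F α) f) :
    ∃ β ∈ invB n P α, ∀ u v, β u v = f (outS n P F α t u) (outS n P F α t' v) := by
  obtain ⟨β, hβ⟩ := exists_linear hf
  refine ⟨β.compl₁₂ (outS n P F α t) (outS n P F α t'), ?_, fun u v => hβ _ _⟩
  intro X hX u v
  rw [LinearMap.compl₁₂_apply, LinearMap.compl₁₂_apply, LinearMap.compl₁₂_apply,
    out_lift n P F α X hX t ht, out_lift n P F α X hX t' ht']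
  have h1 := hI (elL n P F α X hX) (outS n P F α t u) (outS n P F α t' v)
  rw [← hβ, ← hβ] at h1
  simp only [map_add, map_smul, LinearMap.add_apply, LinearMap.smul_apply, smul_eq_mul]
  linear_combination h1

/-- invariant pairings of two slots of CM type -/
lemma cm_pair (t t' : At n K) (ht : ¬ (F t.1).isLeft) (ht' : ¬ (F t'.1).isLeft)
    (h : ∀ X, IsInv n P α X → chiC P F (pl n t) X + chiC P F (pl n t') X = X.2) :
    ∃ β ∈ invB n P α, ∀ u v, β u v = cvS n P F t u * cvS n P F t' v := by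
  refine ⟨(LinearMap.mul ℂ ℂ).compl₁₂ (cvS n P F t) (cvS n P F t'), ?_, fun u v => rfl⟩
  intro X hX u v
  simp only [LinearMap.compl₁₂_apply, LinearMap.mul_apply']
  rw [cvS_lift n P F α X hX t ht, cvS_lift n P F α X hX t' ht', ← h X hX]
  ring

end general

end family

end Pool.Agent.Helper7
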