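import Pool.Agent.Helper7.L7
import Pool.Agent.Helper7.SmallG
import Pool.Agent.Helper8.H.Labels

/-!
The theorem in all degrees for abstract data: real part of dimension at most eight.
-/

set_option linter.unusedSectionVars false

namespace Pool.Agent.Helper7

open Module NumberField LieAlgebra

attribute [local instance 100] LieRing.ofAssociativeRing

open Pool.Agent.GPC (Emb)
open Pool.Agent.Helper8 (Symp Principal PS SF symG mem_of_PS)

section generic

lemma extend_update' {R W : Type*} [DecidableEq R] {m : ℕ} (x : Fin m → R)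
    (hx : Function.Injective x) (w0 : R → W) (v : Fin m → W)
    (a : Fin m) (w : W) : Function.extend x (Function.update v a w) w0 =
      Function.update (Function.extend x v w0) (x a) w := by
  funext r
  by_cases hr : r = x a
  · subst hr
    rw [Function.update_self, hx.extend_apply, Function.update_self]
  · rw [Function.update_of_ne hr]
    by_cases h : ∃ b, x b = r
    · obtain ⟨b, rfl⟩ := h
      rw [hx.extend_apply, hx.extend_apply, Function.update_of_ne]
      rintro rfl; exact hr rfl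
    · rw [Function.extend_apply' _ _ _ h, Function.extend_apply' _ _ _ h]

variable {W : Type*} [AddCommGroup W] [Module ℂ W] {N : ℕ}

/-- the restriction of an alternating form to some slots and a subspace, the other slots being
filled with fixed vectors -/
noncomputable def resA (α : W [⋀^Fin N]→ₗ[ℂ] ℂ) (W' : Submodule ℂ W) {m : ℕ} (x : Fin m → Fin N)
    (hx : Function.Injective x) (w0 : Fin N → W) : W' [⋀^Fin m]→ₗ[ℂ] ℂ where
  toFun v := α (Function.extend x (fun a => (v a : W)) w0)
  map_update_add' := by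
    intro inst v a y z
    have hinst : inst = instDecidableEqFin m := Subsingleton.elim _ _
    subst hinst
    rw [coe_update, coe_update, coe_update, extend_update' x hx, extend_update' x hx,
      extend_update' x hx]
    exact α.map_update_add _ _ _ _
  map_update_smul' := by
    intro inst v a c y
    have hinst : inst = instDecidableEqFin m := Subsingleton.elim _ _
    subst hinst
    rw [coe_update, coe_update, extend_update' x hx, extend_update' x hx]
    exact α.map_update_smul _ _ _ _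
  map_eq_zero_of_eq' := by
    intro v i j h hij
    refine α.map_eq_zero_of_eq _ (i := x i) (j := x j) ?_ (hx.ne hij)
    rw [hx.extend_apply, hx.extend_apply, h]

lemma resA_apply (α : W [⋀^Fin N]→ₗ[ℂ] ℂ) (W' : Submodule ℂ W) {m : ℕ} (x : Fin m → Fin N)
    (hx : Function.Injective x) (w0 : Fin N → W) (v : Fin m → W') :
    resA α W' x hx w0 v = α (Function.extend x (fun a => (v a : W)) w0) := rfl

end generic

section family

variable {I : Type} [Fintype I] [DecidableEq I] (n : I → ℕ)
  {κ : I → Type} [∀ i, Fintype (κ i)] [∀ i, DecidableEq (κ i)] {ϖ : ℂ}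
  (P : ∀ i, PData (κ i) ϖ)
  {K : I → Type} [∀ i, Field (K i)] [∀ i, NumberField (K i)]
  (F : ∀ i, FS (P i) (K i))
  {k : ℕ} (α' : MultilinearMap ℂ (fun _ : Fin (2 * k) => HW κ n) ℂ)

/-- products of coordinates of atoms of CM type are slot functions -/
lemma sf_cv {R : Type*} [DecidableEq R] (a : R → At n K) (T : Finset R)
    (hcm : ∀ r ∈ T, ¬ (F (a r).1).isLeft)
    (hinj : ∀ r ∈ T, ∀ s ∈ T, a r = a s → r = s)
    (hw : ∀ X, IsInv n P α' X → 2 * ∑ r ∈ T, chiC P F (pl n (a r)) X = T.card * X.2) :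
    SF (symG n P α') (EE n P F) a T (fun v => ∏ r ∈ T, cvS n P F (a r) (v r)) := by
  have hup : ∀ (v : R → HW κ n) r, r ∈ T → ∀ z,
      ∏ s ∈ T, cvS n P F (a s) (Function.update v r z s) =
        cvS n P F (a r) z * ∏ s ∈ T.erase r, cvS n P F (a s) (v s) := by
    intro v r hr z
    rw [← Finset.mul_prod_erase T _ hr, Function.update_self]
    congr 1
    refine Finset.prod_congr rfl fun s hs => ?_
    rw [Function.update_of_ne (Finset.ne_of_mem_erase hs)]
  refine ⟨?_, ?_, ?_, ?_, ?_, ?_⟩
  · intro v v' h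
    exact Finset.prod_congr rfl fun r hr => by rw [h r hr]
  · intro v r hr y z
    beta_reduce
    rw [hup v r hr, hup v r hr, hup v r hr, map_add, add_mul]
  · intro v r hr c y
    beta_reduce
    rw [hup v r hr, hup v r hr, map_smul, smul_eq_mul, mul_assoc]
  · rintro _ ⟨X, hX, rfl⟩ v
    have h1 : ∀ t ∈ T, ∏ s ∈ T, cvS n P F (a s) (Function.update v t (lift n X.1 (v t)) s) =
        chiC P F (pl n (a t)) X * ∏ s ∈ T, cvS n P F (a s) (v s) := by
      intro t ht
      rw [hup v t ht, cvS_lift n P F α' X hX (a t) (hcm t ht), mul_assoc,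
        Finset.mul_prod_erase T (fun s => cvS n P F (a s) (v s)) ht]
    beta_reduce
    rw [Finset.sum_congr rfl h1, ← Finset.sum_mul, ← mul_assoc, hw X hX]
  · intro r hr v
    beta_reduce
    rw [hup v r hr, cvS_EE n P F (a r) (hcm r hr),
      Finset.mul_prod_erase T (fun s => cvS n P F (a s) (v s)) hr]
  · intro r hr s hs hne h
    exact absurd (hinj r hr s hs h) hne

variable (hϖ : ϖ ≠ 0)
  (hB : ∀ v : Fin (2 * k) → HW κ n, (∀ r, IsRatP n P (v r)) → ∃ q : ℚ, α' v = ϖ ^ k * q)
  (hA : ∀ v : Fin (2 * k) → HW κ n, (∀ r i m j, IsAlgebraic ℚ (v r i m j)) →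
      IsAlgebraic ℚ (α' v))

/-- composition with the label projectors -/
lemma inv_EE (β : HW κ n →ₗ[ℂ] HW κ n →ₗ[ℂ] ℂ) (hβ : β ∈ invB n P α') (t t' : At n K) :
    β.compl₁₂ (EE n P F t) (EE n P F t') ∈ invB n P α' := by
  intro X hX u v
  rw [LinearMap.compl₁₂_apply, LinearMap.compl₁₂_apply, LinearMap.compl₁₂_apply,
    EE_lift n P F α' X hX, EE_lift n P F α' X hX]
  exact hβ X hX _ _

end family

section main

variable {I : Type} [Fintype I] [DecidableEq I] (n : I → ℕ)
  {κ : I → Type} [∀ i, Fintype (κ i)] [∀ i, DecidableEq (κ i)] {ϖ : ℂ}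
  (P : ∀ i, PData (κ i) ϖ)
  {K : I → Type} [∀ i, Field (K i)] [∀ i, NumberField (K i)]
  (F : ∀ i, FS (P i) (K i))
  {k : ℕ} (α : (HW κ n) [⋀^Fin (2 * k)]→ₗ[ℂ] ℂ)

/-- the underlying multilinear form -/
abbrev toM' : MultilinearMap ℂ (fun _ : Fin (2 * k) => HW κ n) ℂ :=
  (α : MultilinearMap ℂ (fun _ : Fin (2 * k) => HW κ n) ℂ)

variable (a : Fin (2 * k) → At n K) {m : ℕ} (x : Fin m → Fin (2 * k))
  (hx : Function.Injective x)

/-- the sum over all slots, at a vector with real slots in `x` and CM slots elsewhere -/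
lemma sum_slots (hxc : ∀ r, (∀ j, x j ≠ r) → ¬ (F (a r).1).isLeft) (hx : Function.Injective x)
    (X : GG κ) (hX : IsInv n P (toM' n α) X) (v : Fin m → VR n P F) :
    ∑ j, α (Function.update (Function.extend x (fun b => (v b : HW κ n))
        (fun r => evS n P F (a r))) (x j) (lift n X.1 (v j))) +
      (∑ r ∈ (Finset.univ.image x)ᶜ, chiC P F (pl n (a r)) X) *
        α (Function.extend x (fun b => (v b : HW κ n)) (fun r => evS n P F (a r))) =
      k * X.2 * α (Function.extend x (fun b => (v b : HW κ n)) (fun r => evS n P F (a r))) := by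
  obtain ⟨w, hw⟩ : ∃ w, w = Function.extend x (fun b => (v b : HW κ n))
    (fun r => evS n P F (a r)) := ⟨_, rfl⟩
  rw [← hw]
  have h1 := congrArg (fun g => g w) hX.form
  simp only [actForm_apply, _root_.smul_apply, smul_eq_mul] at h1
  have h2 : ∑ j, α (Function.update w (x j) (lift n X.1 (v j))) =
      ∑ r ∈ Finset.univ.image x, α (Function.update w r (lift n X.1 (w r))) := by
    rw [Finset.sum_image (fun a _ c _ h => hx h)]
    refine Finset.sum_congr rfl fun j _ => ?_
    have h3 : w (x j) = (v j : HW κ n) := by rw [hw, hx.extend_apply]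
    rw [h3]
  have h4 : (∑ r ∈ (Finset.univ.image x)ᶜ, chiC P F (pl n (a r)) X) * α w =
      ∑ r ∈ (Finset.univ.image x)ᶜ, α (Function.update w r (lift n X.1 (w r))) := by
    rw [Finset.sum_mul]
    refine Finset.sum_congr rfl fun r hr => ?_
    rw [Finset.mem_compl, Finset.mem_image] at hr
    push Not at hr
    have h5 : ∀ j, x j ≠ r := fun j => hr j (Finset.mem_univ j)
    have h6 : w r = evS n P F (a r) := by
      rw [hw, Function.extend_apply' _ _ _ (by rintro ⟨j, hj⟩; exact h5 j hj)]
    rw [h6, lift_evS n P F (toM' n α) X hX (a r) (hxc r h5), AlternatingMap.map_update_smul,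
      ← h6, Function.update_eq_self, smul_eq_mul]
  rw [h2, h4, Finset.sum_add_sum_compl]
  exact h1

lemma resA_inv (hxc : ∀ r, (∀ j, x j ≠ r) → ¬ (F (a r).1).isLeft) :
    InvR n P F (toM' n α) (resA α (VR n P F) x hx (fun r => evS n P F (a r))) := by
  rintro Y ⟨X, hX, h2, h3, h4⟩ v
  have h5 := sum_slots n P F α a x hxc hx X hX v
  have h6 : ∑ r ∈ (Finset.univ.image x)ᶜ, chiC P F (pl n (a r)) X = 0 := by
    refine Finset.sum_eq_zero fun r hr => ?_
    rw [Finset.mem_compl, Finset.mem_image] at hr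
    push Not at hr
    exact h3 _ (hxc r fun j => hr j (Finset.mem_univ j))
  rw [h2, mul_zero, zero_mul, h6, zero_mul, add_zero] at h5
  rw [← h5]
  refine Finset.sum_congr rfl fun j _ => ?_
  rw [resA_apply, coe_update, extend_update' x hx, h4]

/-- the weights of the CM slots -/
lemma cm_weight (hk : IsKilling ℂ (LL n P F (toM' n α)))
    (hxc : ∀ r, (∀ j, x j ≠ r) → ¬ (F (a r).1).isLeft)
    (v : Fin m → VR n P F) (hv : resA α (VR n P F) x hx (fun r => evS n P F (a r)) v ≠ 0)
    (X : GG κ) (hX : IsInv n P (toM' n α) X) :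
    2 * ∑ r ∈ (Finset.univ.image x)ᶜ, chiC P F (pl n (a r)) X =
      ((Finset.univ.image x)ᶜ : Finset (Fin (2 * k))).card * X.2 := by
  obtain ⟨X0, hX0, h1, h2, h3⟩ := perfect_lift n P F _ hk (elL n P F _ X hX)
  have h5 := sum_slots n P F α a x hxc hx X hX v
  have h6 := resA_inv n P F α a x hx hxc _ (resR_mem n P F _ X0 hX0 h2 h3) v
  obtain ⟨w, hw⟩ : ∃ w, w = Function.extend x (fun b => (v b : HW κ n))
    (fun r => evS n P F (a r)) := ⟨_, rfl⟩
  rw [resA_apply, ← hw] at hv
  rw [← hw] at h5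
  have h7 : ∀ j, α (Function.update w (x j) (lift n X.1 (v j))) =
      resA α (VR n P F) x hx (fun r => evS n P F (a r)) (Function.update v j
        (resR n P F (toM' n α) X0 hX0 (v j))) + (X.2 / 2) * α w := by
    intro j
    rw [resA_apply, coe_update, extend_update' x hx, ← hw, resR_coe,
      lift_eq_of_elL n P F _ X X0 hX hX0 h1 h2 (v j), AlternatingMap.map_update_add,
      AlternatingMap.map_update_smul, smul_eq_mul]
    congr 2
    have h8 : (v j : HW κ n) = w (x j) := by rw [hw, hx.extend_apply]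
    rw [h8, Function.update_eq_self]
  rw [Finset.sum_congr rfl fun j _ => h7 j, Finset.sum_add_distrib, h6, zero_add,
    Finset.sum_const, Finset.card_univ, Fintype.card_fin, nsmul_eq_mul] at h5
  have hcard : (((Finset.univ.image x)ᶜ : Finset (Fin (2 * k))).card : ℂ) = 2 * k - m := by
    rw [Finset.card_compl, Finset.card_image_of_injective _ hx, Finset.card_univ, Fintype.card_fin,
      Fintype.card_fin, Nat.cast_sub]
    · push_cast; rfl
    · have := Fintype.card_le_of_injective x hx
      rwa [Fintype.card_fin, Fintype.card_fin] at this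
  rw [hcard]
  have h9 : (2 * ∑ r ∈ (Finset.univ.image x)ᶜ, chiC P F (pl n (a r)) X) * α w =
      ((2 * k - m) * X.2) * α w := by linear_combination 2 * h5
  exact mul_right_cancel₀ hv h9

variable (hϖ : ϖ ≠ 0)
  (hB : ∀ v : Fin (2 * k) → HW κ n, (∀ r, IsRatP n P (v r)) → ∃ q : ℚ, α v = ϖ ^ k * q)
  (hA : ∀ v : Fin (2 * k) → HW κ n, (∀ r i m j, IsAlgebraic ℚ (v r i m j)) →
      IsAlgebraic ℚ (α v))

include hϖ hB hA in
/-- the component at a label -/
theorem label_mem (hk : IsKilling ℂ (LL n P F (toM' n α))) (p : Principal (LL n P F (toM' n α)))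
    (hdim : ∀ S : Finset (At n K), (∀ a ∈ S, (F a.1).isLeft) →
      ∑ a ∈ S, R4.dimA (toM' n α) F a ≤ 8)
    (hre : ∀ i, (F i).isLeft → ∀ σ : K i →+* ℂ, ComplexEmbedding.conjugate σ = σ)
    (hNE : ∀ z : Emb K → ℤ, (fun t => (z t : ℚ)) ∈ relS n P F (toM' n α) →
      (∀ t, |z t| ≤ n t.1) → (∃ m : ℤ, ∑ t, |z t| = 4 * m) → ∀ t, ¬ (F t.1).isLeft → z t = 0)
    (a : Fin (2 * k) → At n K) :
    (fun v : Fin (2 * k) → HW κ n => α (fun r => EE n P F (a r) (v r))) ∈
      PS (invB n P (toM' n α)) (Finset.univ : Finset (Fin (2 * k))) := by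
  classical
  obtain ⟨Tr, hTr⟩ : ∃ Tr : Finset (Fin (2 * k)),
    Tr = Finset.univ.filter (fun r => (F (a r).1).isLeft) := ⟨_, rfl⟩
  obtain ⟨m, x, hx, himg⟩ : ∃ (m : ℕ) (x : Fin m → Fin (2 * k)), Function.Injective x ∧
      Finset.univ.image x = Tr := by
    refine ⟨Tr.card, fun j => (Tr.equivFin.symm j : Fin (2 * k)),
      fun a c h => Tr.equivFin.symm.injective (Subtype.ext h), ?_⟩
    ext r
    rw [Finset.mem_image]
    constructor
    · rintro ⟨j, -, rfl⟩; exact (Tr.equivFin.symm j).2
    · intro hr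
      exact ⟨Tr.equivFin ⟨r, hr⟩, Finset.mem_univ _, by rw [Equiv.symm_apply_apply]⟩
  have hxl : ∀ j, (F (a (x j)).1).isLeft := by
    intro j
    have h1 : x j ∈ Tr := by rw [← himg]; exact Finset.mem_image_of_mem x (Finset.mem_univ j)
    rw [hTr] at h1
    exact (Finset.mem_filter.mp h1).2
  have hxc : ∀ r, (∀ j, x j ≠ r) → ¬ (F (a r).1).isLeft := by
    intro r hr h
    have h1 : r ∈ Tr := by rw [hTr]; exact Finset.mem_filter.mpr ⟨Finset.mem_univ _, h⟩
    rw [← himg, Finset.mem_image] at h1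
    obtain ⟨j, -, hj⟩ := h1
    exact hr j hj
  have hTc : ∀ r ∈ (Finset.univ.image x)ᶜ, ¬ (F (a r).1).isLeft := by
    intro r hr
    rw [Finset.mem_compl, Finset.mem_image] at hr
    push Not at hr
    exact hxc r fun j => hr j (Finset.mem_univ j)
  obtain ⟨B, hBdef⟩ : ∃ B, B = resA α (VR n P F) x hx (fun r => evS n P F (a r)) := ⟨_, rfl⟩
  have hBi : InvR n P F (toM' n α) B := by rw [hBdef]; exact resA_inv n P F α a x hx hxc
  have hval : ∀ v : Fin (2 * k) → HW κ n, α (fun r => EE n P F (a r) (v r)) =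
      (∏ r ∈ (Finset.univ.image x)ᶜ, cvS n P F (a r) (v r)) *
        B (fun j => PR n P F (EE n P F (a (x j)) (v (x j)))) := by
    intro v
    obtain ⟨w, hw⟩ : ∃ w, w = Function.extend x (fun j => EE n P F (a (x j)) (v (x j)))
      (fun r => evS n P F (a r)) := ⟨_, rfl⟩
    let c : Fin (2 * k) → ℂ := fun r =>
      if r ∈ Finset.univ.image x then 1 else cvS n P F (a r) (v r)
    have h1 : (fun r => EE n P F (a r) (v r)) = fun r => c r • w r := by
      funext r
      by_cases hr : r ∈ Finset.univ.image x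
      · obtain ⟨j, -, rfl⟩ := Finset.mem_image.mp hr
        simp only [c]
        rw [if_pos hr, one_smul, hw, hx.extend_apply]
      · have hr' : ∀ j, x j ≠ r := fun j h => hr (Finset.mem_image.mpr ⟨j, Finset.mem_univ _, h⟩)
        simp only [c]
        rw [if_neg hr, hw, Function.extend_apply' _ _ _ (by rintro ⟨j, hj⟩; exact hr' j hj)]
        exact EE_cm n P F (a r) (hxc r hr') (v r)
    have h2 : α (fun r => c r • w r) = (∏ r, c r) * α w :=
      (α : MultilinearMap ℂ (fun _ : Fin (2 * k) => HW κ n) ℂ).map_smul_univ c w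
    rw [h1, h2]
    congr 1
    · rw [← Finset.prod_mul_prod_compl (Finset.univ.image x) c,
        Finset.prod_eq_one (fun r hr => if_pos hr), one_mul]
      refine Finset.prod_congr rfl fun r hr => ?_
      rw [Finset.mem_compl] at hr
      exact if_neg hr
    · rw [hBdef, resA_apply, hw]
      congr 2
      funext j
      exact (P2_of_mem n P F _ _ (EE_mem_W2 n P F _ (a (x j)) (hxl j) (v (x j)))).symm
  by_cases h0 : ∀ u, B u = 0
  · have h1 : (fun v : Fin (2 * k) → HW κ n => α (fun r => EE n P F (a r) (v r))) = 0 := by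
      funext v
      rw [hval, h0, mul_zero]; rfl
    rw [h1]
    exact Submodule.zero_mem _
  push Not at h0
  obtain ⟨u, hu⟩ := h0
  have hmev : Even m := by
    by_contra hodd
    rw [Nat.not_even_iff_odd] at hodd
    exact hu (real_odd n P F (toM' n α) hϖ hB hA hk p hodd B hBi u)
  have hinj : ∀ r ∈ (Finset.univ.image x)ᶜ, ∀ s ∈ (Finset.univ.image x)ᶜ, a r = a s → r = s := by
    intro r hr s hs h
    by_contra hne
    apply hu
    rw [hBdef, resA_apply]
    rw [Finset.mem_compl, Finset.mem_image] at hr hs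
    push Not at hr hs
    refine α.map_eq_zero_of_eq _ (i := r) (j := s) ?_ hne
    rw [Function.extend_apply' _ _ _ (by rintro ⟨j, hj⟩; exact hr j (Finset.mem_univ j) hj),
      Function.extend_apply' _ _ _ (by rintro ⟨j, hj⟩; exact hs j (Finset.mem_univ j) hj), h]
  have hg : (fun v : Fin (2 * k) → HW κ n => ∏ r ∈ (Finset.univ.image x)ᶜ, cvS n P F (a r) (v r)) ∈
      PS (invB n P (toM' n α)) ((Finset.univ.image x)ᶜ : Finset (Fin (2 * k))) := by
    refine small_core n P F (toM' n α) (fun i => ¬ (F i).isLeft)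
      (fun s hs hl => absurd hl hs) (fun s hs hl => absurd hl hs) (fun s hs hl => absurd hl hs)
      hre hNE ?_ (sf_cv n P F (toM' n α) a _ hTc hinj (fun X hX =>
        cm_weight n P F α a x hx hk hxc u (by rw [← hBdef]; exact hu) X hX)) hTc
    rw [Finset.card_compl, Finset.card_image_of_injective _ hx, Finset.card_univ, Fintype.card_fin,
      Fintype.card_fin]
    obtain ⟨c, hc⟩ := hmev
    exact ⟨k - c, by omega⟩
  have hh : (fun v : Fin (2 * k) → HW κ n => B (fun j => PR n P F (EE n P F (a (x j)) (v (x j)))))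
      ∈ PS (invB n P (toM' n α)) (Finset.univ.image x) :=
    R4.PS_sub (real_all n P F (toM' n α) hϖ hB hA hk p hdim B hBi x hx)
      (fun r => EE n P F (a r)) (fun β hβ r _ s _ => inv_EE n P F (toM' n α) β hβ (a r) (a s))
  have h1 := PS.mul hg hh disjoint_compl_left
  have h2 : (Finset.univ.image x)ᶜ ∪ Finset.univ.image x = Finset.univ := by
    rw [Finset.union_comm]; exact Finset.union_compl _
  rw [h2] at h1
  have h3 : (fun v : Fin (2 * k) → HW κ n => α (fun r => EE n P F (a r) (v r))) = _ :=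
    funext hval
  rw [h3]
  exact h1

include hϖ hB hA in
theorem family_L
    (hdim : ∀ S : Finset (At n K), (∀ a ∈ S, (F a.1).isLeft) →
      ∑ a ∈ S, R4.dimA (toM' n α) F a ≤ 8)
    (hre : ∀ i, (F i).isLeft → ∀ σ : K i →+* ℂ, ComplexEmbedding.conjugate σ = σ)
    (hNE : ∀ z : Emb K → ℤ, (fun t => (z t : ℚ)) ∈ relS n P F (toM' n α) →
      (∀ t, |z t| ≤ n t.1) → (∃ m : ℤ, ∑ t, |z t| = 4 * m) → ∀ t, ¬ (F t.1).isLeft → z t = 0) :
    (α : MultilinearMap ℂ (fun _ : Fin (2 * k) => HW κ n) ℂ) ∈ Submodule.span ℂ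
      {M | ∃ (π : Equiv.Perm (Fin (2 * k))) (β : Fin k → (HW κ n →ₗ[ℂ] HW κ n →ₗ[ℂ] ℂ)),
      (∀ a, β a ∈ invB n P (α : MultilinearMap ℂ (fun _ : Fin (2 * k) => HW κ n) ℂ)) ∧
        M = (prodBilin β).domDomCongr π} := by
  classical
  have hrad : HasTrivialRadical ℂ (LL n P F (toM' n α)) := LL_trivialRadical n P F _ hϖ hB hA
  have hk : IsKilling ℂ (LL n P F (toM' n α)) := inferInstance
  obtain ⟨p⟩ := Pool.Agent.Helper8.exists_principal (LL n P F (toM' n α))
  apply mem_of_PS
  have h1 : (fun v => (α : MultilinearMap ℂ (fun _ : Fin (2 * k) => HW κ n) ℂ) v) =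
      ∑ a : Fin (2 * k) → At n K,
        (fun v : Fin (2 * k) → HW κ n => α (fun r => EE n P F (a r) (v r))) := by
    funext v
    rw [Finset.sum_apply]
    exact Pool.Agent.Helper8.sum_labels α v
  rw [h1]
  exact Submodule.sum_mem _ fun a _ =>
    label_mem n P F α hϖ hB hA hk p hdim hre hNE a

end main

end Pool.Agent.Helper7
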