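import Pool.Agent.Helper7.L2

/-!
Invariant alternating forms of degree six and eight in dimensions six and eight.
-/

set_option linter.unusedSectionVars false

namespace Pool.Agent.Helper7

open Module
open Pool.Agent.Helper8 (PS)

section func

variable {V : Type} [AddCommGroup V] [Module ℂ V]

/-- the functional on the exterior algebra given by an alternating form -/
noncomputable def fnB {m : ℕ} (B : V [⋀^Fin m]→ₗ[ℂ] ℂ) : ExteriorAlgebra ℂ V →ₗ[ℂ] ℂ :=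
  ExteriorAlgebra.liftAlternating (R := ℂ) (M := V) (N := ℂ) (Pi.single m B)

lemma fnB_ιMulti {m : ℕ} (B : V [⋀^Fin m]→ₗ[ℂ] ℂ) (v : Fin m → V) :
    fnB B (ExteriorAlgebra.ιMulti ℂ m v) = B v := by
  rw [fnB, ExteriorAlgebra.liftAlternating_apply_ιMulti, Pi.single_eq_same]

lemma XL_ofFn {R : Type*} {m : ℕ} (x : Fin m → R) (v : R → V) :
    XL v (List.ofFn x) = ExteriorAlgebra.ιMulti ℂ m (v ∘ x) := by
  rw [XL, List.map_ofFn, ExteriorAlgebra.ιMulti_apply]; rfl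

variable {R : Type*} [DecidableEq R]

lemma XL_congr (v v' : R → V) (l : List R) (h : ∀ r ∈ l, v r = v' r) : XL v l = XL v' l := by
  rw [XL, XL]
  congr 1
  exact List.map_congr_left fun r hr => by rw [h r hr]

variable {ι : Type} [Fintype ι] [DecidableEq ι] (S : SympB V ι)

lemma DA_XL (A : Module.End ℂ V) (v : R → V) (l : List R) (hl : l.Nodup) :
    S.DA crE anE A (XL v l) = ∑ t ∈ l.toFinset, XL (Function.update v t (A (v t))) l := by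
  induction l with
  | nil => rw [XL_nil, DA_one]; rfl
  | cons r l ih =>
    rw [List.nodup_cons] at hl
    rw [XL_cons, DA_cons, ih hl.2, List.toFinset_cons,
      Finset.sum_insert (fun h => hl.1 (List.mem_toFinset.mp h)), add_comm]
    congr 1
    · rw [XL_cons, Function.update_self]
      congr 1
      refine XL_congr _ _ l fun s hs => ?_
      rw [Function.update_of_ne]
      rintro rfl; exact hl.1 hs
    · rw [Finset.mul_sum]
      refine Finset.sum_congr rfl fun t ht => ?_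
      rw [XL_cons, Function.update_of_ne]
      rintro rfl; exact hl.1 (List.mem_toFinset.mp ht)

lemma fnB_DA {m : ℕ} (B : V [⋀^Fin m]→ₗ[ℂ] ℂ) (A : Module.End ℂ V)
    (hB : ∀ v : Fin m → V, ∑ t, B (Function.update v t (A (v t))) = 0)
    (ξ : ExteriorAlgebra ℂ V) (hξ : ξ ∈ (MI V) ^ m) : fnB B (S.DA crE anE A ξ) = 0 := by
  have h1 : ξ ∈ Submodule.span ℂ (Set.range (ExteriorAlgebra.ιMulti ℂ m (M := V))) := by
    rw [ExteriorAlgebra.ιMulti_span_fixedDegree]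
    exact hξ
  refine Submodule.span_induction (p := fun ξ _ => fnB B (S.DA crE anE A ξ) = 0) ?_ ?_ ?_ ?_ h1
  · rintro _ ⟨v, rfl⟩
    have h2 : ExteriorAlgebra.ιMulti ℂ m v = XL v (List.ofFn (id : Fin m → Fin m)) := by
      rw [XL_ofFn]; rfl
    have hnd : (List.ofFn (id : Fin m → Fin m)).Nodup :=
      List.nodup_ofFn.mpr Function.injective_id
    rw [h2, DA_XL S A v _ hnd, map_sum]
    have h3 : (List.ofFn (id : Fin m → Fin m)).toFinset = Finset.univ := by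
      ext t; simp
    rw [h3, ← hB v]
    refine Finset.sum_congr rfl fun t _ => ?_
    rw [XL_ofFn, fnB_ιMulti]; rfl
  · rw [map_zero, map_zero]
  · intro x y _ _ hx hy
    rw [map_add, map_add, hx, hy, add_zero]
  · intro c x _ hx
    rw [map_smul, map_smul, hx, smul_zero]

end func

section forms

variable {V : Type} [AddCommGroup V] [Module ℂ V] {R : Type*} [DecidableEq R]
  {𝓑 : Set (V →ₗ[ℂ] V →ₗ[ℂ] ℂ)} {ι : Type} [Fintype ι] [DecidableEq ι] (S : SympB V ι)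

/-- the bilinear form obtained from a functional by wedge with the square of the bivector -/
noncomputable def gam (F : ExteriorAlgebra ℂ V →ₗ[ℂ] ℂ) : V →ₗ[ℂ] V →ₗ[ℂ] ℂ :=
  LinearMap.mk₂ ℂ (fun x y => F (S.LE 1 (S.LE 1 (ExteriorAlgebra.ι ℂ x *
      (ExteriorAlgebra.ι ℂ y * 1)))))
    (fun x x' y => by simp only [map_add, add_mul])
    (fun c x y => by simp only [map_smul, smul_mul_assoc])
    (fun x y y' => by simp only [map_add, add_mul, mul_add])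
    (fun c x y => by simp only [map_smul, smul_mul_assoc, mul_smul_comm])

lemma gam_apply (F : ExteriorAlgebra ℂ V →ₗ[ℂ] ℂ) (x y : V) :
    gam S F x y = F (S.LE 1 (S.LE 1 (ExteriorAlgebra.ι ℂ x * (ExteriorAlgebra.ι ℂ y * 1)))) := rfl

lemma gam_inv (B : V [⋀^Fin 6]→ₗ[ℂ] ℂ) (A : Module.End ℂ V)
    (hA : ∀ u v, S.ω (A u) v = - S.ω u (A v))
    (hB : ∀ v : Fin 6 → V, ∑ t, B (Function.update v t (A (v t))) = 0) (x y : V) :
    gam S (fnB B) (A x) y + gam S (fnB B) x (A y) = 0 := by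
  rw [gam_apply, gam_apply, ← map_add, ← map_add, ← map_add]
  have h1 : ExteriorAlgebra.ι ℂ (A x) * (ExteriorAlgebra.ι ℂ y * 1) +
      ExteriorAlgebra.ι ℂ x * (ExteriorAlgebra.ι ℂ (A y) * 1) =
      S.DA crE anE A (ExteriorAlgebra.ι ℂ x * (ExteriorAlgebra.ι ℂ y * 1)) := by
    rw [DA_cons, DA_cons, DA_one, mul_zero, zero_add, add_comm]
  have hcomm : ∀ z, S.LE 1 (S.DA crE anE A z) = S.DA crE anE A (S.LE 1 z) := by
    intro z
    have h := congrArg (fun g => g z) (DA_L S A hA)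
    simp only [Module.End.mul_apply] at h
    exact h.symm
  rw [h1, hcomm, hcomm]
  refine fnB_DA S B A hB _ ?_
  have h1 : (1 : ExteriorAlgebra ℂ V) ∈ (MI V) ^ 0 := by
    rw [pow_zero]; exact Submodule.one_le.mp le_rfl
  refine S.LE_mem 1 4 _ (S.LE_mem 1 2 _ ?_)
  have h2 : (MI V) ^ 2 = (MI V) * ((MI V) * (MI V) ^ 0) := by
    rw [pow_zero, mul_one, pow_two]
  rw [h2]
  exact Submodule.mul_mem_mul ⟨_, rfl⟩ (Submodule.mul_mem_mul ⟨_, rfl⟩ h1)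

lemma PS_pair (β : V →ₗ[ℂ] V →ₗ[ℂ] ℂ) (hβ : β ∈ 𝓑) (r s : R) (hne : r ≠ s) :
    (fun v : R → V => β (v r) (v s)) ∈ PS 𝓑 {r, s} := by
  have h1 := PS_cons (𝓑 := 𝓑) (Submodule.subset_span PP.nil) r s β hβ (Finset.notMem_empty r)
    (Finset.notMem_empty s) hne
  simp only [mul_one] at h1
  exact h1

lemma QQ_gam (F : ExteriorAlgebra ℂ V →ₗ[ℂ] ℂ) (h : gam S F ∈ 𝓑) :
    QQ R 𝓑 (F ∘ₗ S.LE 1 ∘ₗ S.LE 1) 2 := by
  intro l hnd hlen
  obtain ⟨r, s, rfl⟩ := List.length_eq_two.mp hlen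
  have hne : r ≠ s := by
    rintro rfl
    simp at hnd
  have h1 := PS_pair (𝓑 := 𝓑) _ h r s hne
  have h2 : [r, s].toFinset = {r, s} := by ext; simp
  rw [h2]
  exact h1

lemma PS_of_QQ {m : ℕ} (B : V [⋀^Fin m]→ₗ[ℂ] ℂ) (h : QQ R 𝓑 (fnB B) m) (x : Fin m → R)
    (hx : Function.Injective x) :
    (fun v : R → V => B (v ∘ x)) ∈ PS 𝓑 (Finset.univ.image x) := by
  have h1 := h (List.ofFn x) (List.nodup_ofFn.mpr hx) (List.length_ofFn)
  have h2 : (List.ofFn x).toFinset = Finset.univ.image x := by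
    ext t; simp [List.mem_ofFn]
  rw [h2] at h1
  have h3 : (fun v : R → V => B (v ∘ x)) = fun v => fnB B (XL v (List.ofFn x)) := by
    funext v
    rw [XL_ofFn, fnB_ιMulti]
  rw [h3]
  exact h1

lemma rels : S.DA crE anE 1 * S.LE 1 = S.LE 1 * S.DA crE anE 1 + (2 : ℂ) • S.LE (V := V) 1 := by
  rw [S.DA_LA isCAR 1 1 (fun u v => rfl), one_mul, two_smul]
  congr 1
  exact S.LE_add 1 1

lemma relr (c : ℂ) (hc : 2 * (Fintype.card ι : ℂ) = c) :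
    S.Lam anE * S.LE 1 = S.LE 1 * S.Lam anE + c • 1 - (4 : ℂ) • S.DA crE anE 1 := by
  rw [SympB.LE, S.Lam_LA isCAR 1 (fun u v => rfl), S.tr_one, hc]

lemma QQ_63 (hdim : Fintype.card ι = 6) (hω : S.ω ∈ 𝓑) (F : ExteriorAlgebra ℂ V →ₗ[ℂ] ℂ) :
    QQ R 𝓑 F 6 := by
  have : FiniteDimensional ℂ V := S.e.finiteDimensional_of_finite
  have hfr : finrank ℂ V = 6 := by rw [Module.finrank_eq_card_basis S.e, hdim]
  have h1 : QQ R 𝓑 ((((F ∘ₗ S.LE 1 ∘ₗ S.LE 1 ∘ₗ S.LE 1) ∘ₗ S.Lam anE) ∘ₗ S.Lam anE) ∘ₗ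
      S.Lam anE) 6 := Lam_step S hω (Lam_step S hω (Lam_step S hω (QQ_zero _)))
  have h2 := h1.smul (2304 : ℂ)⁻¹
  intro l hnd hlen
  have h3 := h2 l hnd hlen
  convert h3 using 1
  funext v
  have hmem := XL_mem v l
  rw [hlen] at hmem
  have hN : S.DA crE anE 1 (XL v l) = (6 : ℂ) • XL v l := by
    rw [N_XL, hlen]; norm_num
  have e := lef_63 (S.Lam anE) (S.LE 1) (S.DA crE anE 1) 12
    (relr S 12 (by rw [hdim]; norm_num)) (S.N_Lam isCAR) (rels S) rfl (XL v l) hN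
    (deg_vanish 8 (by rw [hfr]; norm_num) _ (S.LE_mem 1 6 _ hmem))
    (deg_vanish 8 (by rw [hfr]; norm_num) _ (S.LE_mem 1 6 _ (S.LE_mem 1 4 _ (Lam_mem S 4 _ hmem))))
    (deg_vanish 8 (by rw [hfr]; norm_num) _ (S.LE_mem 1 6 _ (S.LE_mem 1 4 _ (S.LE_mem 1 2 _
      (Lam_mem S 2 _ (Lam_mem S 4 _ hmem))))))
  have e2 := congrArg F e
  rw [map_smul, smul_eq_mul] at e2
  show F (XL v l) = (2304 : ℂ)⁻¹ * F _
  have e3 : F (XL v l) = (2304 : ℂ)⁻¹ * (2304 * F (XL v l)) := by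
    rw [← mul_assoc, inv_mul_cancel₀ (by norm_num), one_mul]
  rw [e3, e2]
  rfl

lemma QQ_84 (hdim : Fintype.card ι = 8) (hω : S.ω ∈ 𝓑) (F : ExteriorAlgebra ℂ V →ₗ[ℂ] ℂ) :
    QQ R 𝓑 F 8 := by
  have : FiniteDimensional ℂ V := S.e.finiteDimensional_of_finite
  have hfr : finrank ℂ V = 8 := by rw [Module.finrank_eq_card_basis S.e, hdim]
  have h1 : QQ R 𝓑 (((((F ∘ₗ S.LE 1 ∘ₗ S.LE 1 ∘ₗ S.LE 1 ∘ₗ S.LE 1) ∘ₗ S.Lam anE) ∘ₗ
      S.Lam anE) ∘ₗ S.Lam anE) ∘ₗ S.Lam anE) 8 :=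
    Lam_step S hω (Lam_step S hω (Lam_step S hω (Lam_step S hω (QQ_zero _))))
  have h2 := h1.smul (147456 : ℂ)⁻¹
  intro l hnd hlen
  have h3 := h2 l hnd hlen
  convert h3 using 1
  funext v
  have hmem := XL_mem v l
  rw [hlen] at hmem
  have hN : S.DA crE anE 1 (XL v l) = (8 : ℂ) • XL v l := by
    rw [N_XL, hlen]; norm_num
  have e := lef_84 (S.Lam anE) (S.LE 1) (S.DA crE anE 1) 16
    (relr S 16 (by rw [hdim]; norm_num)) (S.N_Lam isCAR) (rels S) rfl (XL v l) hN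
    (deg_vanish 10 (by rw [hfr]; norm_num) _ (S.LE_mem 1 8 _ hmem))
    (deg_vanish 10 (by rw [hfr]; norm_num) _ (S.LE_mem 1 8 _ (S.LE_mem 1 6 _ (Lam_mem S 6 _ hmem))))
    (deg_vanish 10 (by rw [hfr]; norm_num) _ (S.LE_mem 1 8 _ (S.LE_mem 1 6 _ (S.LE_mem 1 4 _
      (Lam_mem S 4 _ (Lam_mem S 6 _ hmem))))))
    (deg_vanish 10 (by rw [hfr]; norm_num) _ (S.LE_mem 1 8 _ (S.LE_mem 1 6 _ (S.LE_mem 1 4 _
      (S.LE_mem 1 2 _ (Lam_mem S 2 _ (Lam_mem S 4 _ (Lam_mem S 6 _ hmem))))))))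
  have e2 := congrArg F e
  rw [map_smul, smul_eq_mul] at e2
  show F (XL v l) = (147456 : ℂ)⁻¹ * F _
  have e3 : F (XL v l) = (147456 : ℂ)⁻¹ * (147456 * F (XL v l)) := by
    rw [← mul_assoc, inv_mul_cancel₀ (by norm_num), one_mul]
  rw [e3, e2]
  rfl

lemma QQ_64 (hdim : Fintype.card ι = 8) (hω : S.ω ∈ 𝓑) (F : ExteriorAlgebra ℂ V →ₗ[ℂ] ℂ)
    (hγ : gam S F ∈ 𝓑) : QQ R 𝓑 F 6 := by
  have : FiniteDimensional ℂ V := S.e.finiteDimensional_of_finite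
  have hfr : finrank ℂ V = 8 := by rw [Module.finrank_eq_card_basis S.e, hdim]
  have h1 : QQ R 𝓑 ((((F ∘ₗ S.LE 1 ∘ₗ S.LE 1 ∘ₗ S.LE 1) ∘ₗ S.Lam anE) ∘ₗ S.Lam anE) ∘ₗ
      S.Lam anE) 6 := Lam_step S hω (Lam_step S hω (Lam_step S hω (QQ_zero _)))
  have h1' : QQ R 𝓑 (((F ∘ₗ S.LE 1 ∘ₗ S.LE 1) ∘ₗ S.Lam anE) ∘ₗ S.Lam anE) 6 :=
    Lam_step S hω (Lam_step S hω (QQ_gam S F hγ))
  have h2 := (h1'.smul ((1152 : ℂ)⁻¹ * 18)).add (h1.smul (-(1152 : ℂ)⁻¹))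
  intro l hnd hlen
  have h3 := h2 l hnd hlen
  convert h3 using 1
  funext v
  have hmem := XL_mem v l
  rw [hlen] at hmem
  have hN : S.DA crE anE 1 (XL v l) = (6 : ℂ) • XL v l := by
    rw [N_XL, hlen]; norm_num
  have e := lef_64 (S.Lam anE) (S.LE 1) (S.DA crE anE 1) 16
    (relr S 16 (by rw [hdim]; norm_num)) (S.N_Lam isCAR) (rels S) rfl (XL v l) hN
    (deg_vanish 10 (by rw [hfr]; norm_num) _ (S.LE_mem 1 8 _ (S.LE_mem 1 6 _ hmem)))
    (deg_vanish 10 (by rw [hfr]; norm_num) _ (S.LE_mem 1 8 _ (S.LE_mem 1 6 _ (S.LE_mem 1 4 _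
      (Lam_mem S 4 _ hmem)))))
  have e2 := congrArg F e
  rw [map_smul, map_sub, map_smul, smul_eq_mul, smul_eq_mul] at e2
  show F (XL v l) = ((1152 : ℂ)⁻¹ * 18) * F _ + (-(1152 : ℂ)⁻¹) * F _
  have e3 : F (XL v l) = (1152 : ℂ)⁻¹ * (1152 * F (XL v l)) := by
    rw [← mul_assoc, inv_mul_cancel₀ (by norm_num), one_mul]
  rw [e3, e2, mul_sub, ← mul_assoc, neg_mul, ← sub_eq_add_neg]
  rfl

end forms

end Pool.Agent.Helper7
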