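import Pool.Agent.Helper7.J7

/-!
The weights of simple, pairwise not isogenous factors of CM type are pairwise different.
-/

namespace Pool.Agent.Helper7

open Module NumberField LieAlgebra

attribute [local instance 100] LieRing.ofAssociativeRing

open Pool.Agent.GPC (Emb IsOdd IsOddModule translate)
open Pool.Agent.Helper84 (xi)

namespace FS

variable {κ : Type} [Fintype κ] [DecidableEq κ] {ϖ : ℂ} {P : PData κ ϖ} {K : Type} [Field K]
    [NumberField K]

lemma cv_ev (F : FS P K) (hF : ¬ F.isLeft) (σ : K →+* ℂ) : F.cv σ (F.ev σ) = 1 := by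
  cases F with
  | inl F => exact absurd rfl hF
  | inr F =>
    have h1 := F.1.co_e σ 0 σ 0 (Or.inr rfl)
    rw [if_pos ⟨rfl, rfl⟩] at h1
    exact h1

lemma rho_ev (F : FS P K) (hF : ¬ F.isLeft) (σ : K →+* ℂ) (x : K) :
    F.ρ x (F.ev σ) = σ x • F.ev σ := by
  cases F with
  | inl F => exact absurd rfl hF
  | inr F => exact F.1.rho_e x σ 0

/-- the adjoint, for CM type -/
lemma exists_cc (F : FS P K) (hF : ¬ F.isLeft) : ∃ cc : K → K,
    (∀ (σ : K →+* ℂ) x, σ (cc x) = starRingEnd ℂ (σ x)) ∧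
      ∀ x u v, P.ψ (F.ρ x u) v = P.ψ u (F.ρ (cc x) v) := by
  cases F with
  | inl F => exact absurd rfl hF
  | inr F => exact ⟨F.1.cc, F.1.hcc, F.1.hros⟩

end FS

set_option linter.unusedSectionVars false

section family

variable {I : Type} [Fintype I] [DecidableEq I] {n : I → ℕ}
  {κ : I → Type} [∀ i, Fintype (κ i)] [∀ i, DecidableEq (κ i)] {ϖ : ℂ}
  {P : ∀ i, PData (κ i) ϖ}
  {K : I → Type} [∀ i, Field (K i)] [∀ i, NumberField (K i)]
  {F : ∀ i, FS (P i) (K i)}
  {α : (HW κ n) [⋀^Fin 4]→ₗ[ℂ] ℂ}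

variable (hϖ : ϖ ≠ 0)
  (hB : ∀ v : Fin (2 * 2) → HW κ n, (∀ r, IsRatP n P (v r)) →
    ∃ q : ℚ, toM n α v = ϖ ^ 2 * q)
  (hA : ∀ v : Fin (2 * 2) → HW κ n, (∀ r i m j, IsAlgebraic ℚ (v r i m j)) →
      IsAlgebraic ℚ (toM n α v))

include hϖ hB hA in
/-- two places with the same weight are equal -/
lemma eq_of_rel (s s' : Emb K) (hs : ¬ (F s.1).isLeft) (hs' : ¬ (F s'.1).isLeft)
    (hsimple : ∀ f, IsDRB (P s.1) (P s.1) f → ∃ x, ∀ v, f v = (F s.1).ρ x v)
    (hiso : s.1 ≠ s'.1 → ∀ f, IsDRB (P s.1) (P s'.1) f → ∀ v, f v = 0)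
    (h : (fun t => xi s t + xi s' t) ∈ relS n P F (toM n α)) : s' = conjT s := by
  have hχ := pair_of_rel hϖ hB s s' h
  obtain ⟨i, σ⟩ := s
  obtain ⟨j, τ⟩ := s'
  simp only at hs hs' hsimple hiso
  obtain ⟨m, c, f, hf, hβ⟩ := bilin_of_inv n P (toM n α) hϖ hB hA i j
    ((LinearMap.mul ℂ ℂ).compl₁₂ ((F i).cv σ) ((F j).cv τ)) (by
      intro X hX u v
      simp only [LinearMap.compl₁₂_apply, LinearMap.mul_apply']
      rw [(F i).cv_act hs σ (X.1 i) X.2 (fun x v => IsInv.commK n P F _ hX i x v),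
        (F j).cv_act hs' τ (X.1 j) X.2 (fun x v => IsInv.commK n P F _ hX j x v)]
      have e : (F i).chi σ (X.1 i) X.2 + (F j).chi τ (X.1 j) X.2 = X.2 := hχ X hX
      linear_combination (F i).cv σ u * (F j).cv τ v * e)
  simp only [LinearMap.compl₁₂_apply, LinearMap.mul_apply'] at hβ
  have h1 := hβ ((F i).ev σ) ((F j).ev τ)
  rw [(F i).cv_ev hs, (F j).cv_ev hs', mul_one] at h1
  by_cases hij : i = j
  · subst hij
    choose x hx using fun l => hsimple (f l) (hf l)
    have hcomm : ∀ l y v, f l ((F i).ρ y v) = (F i).ρ y (f l v) := by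
      intro l y v
      rw [hx, hx, ← Module.End.mul_apply, ← Module.End.mul_apply, ← map_mul, ← map_mul, mul_comm]
    obtain ⟨cc, hcc, hros⟩ := (F i).exists_cc hs
    have h2 : ∀ y, (F i).cv σ ((F i).ρ y ((F i).ev σ)) * (F i).cv τ ((F i).ev τ) =
        (F i).cv σ ((F i).ev σ) * (F i).cv τ ((F i).ρ (cc y) ((F i).ev τ)) := by
      intro y
      rw [hβ, hβ]
      refine Finset.sum_congr rfl fun l _ => ?_
      rw [hcomm, hros]
    have h3 : τ = ComplexEmbedding.conjugate σ := by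
      refine RingHom.ext fun y => ?_
      have h4 := h2 y
      rw [(F i).rho_ev hs, (F i).rho_ev hs, map_smul, map_smul, (F i).cv_ev hs, (F i).cv_ev hs,
        smul_eq_mul, smul_eq_mul, hcc] at h4
      simp only [mul_one, one_mul] at h4
      rw [ComplexEmbedding.conjugate_coe_eq, h4, Complex.conj_conj]
    rw [h3]
    rfl
  · exfalso
    have h2 : ∀ l v, f l v = 0 := fun l v => hiso hij (f l) (hf l) v
    rw [Finset.sum_eq_zero (fun l _ => by rw [h2, map_zero, LinearMap.zero_apply, mul_zero])] at h1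
    exact one_ne_zero h1

end family

end Pool.Agent.Helper7
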