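import Pool.Agent.Helper84.CMMatch
import Pool.Agent.Helper84.AutC

/-!
Pairing of the slots of a four-form on a product of simple, pairwise not isogenous CM abelian
varieties of total dimension at most `4`, not of Weil type.
-/

namespace Pool.Agent.Helper7.WM

open NumberField Pool.Agent.GPC
open Pool.Agent.Helper84 (xi conjT conjT_conjT xi_odd xi_conj_left xi_conj_right act cc_ne act_cc
  cc_cc act_star mem_range_of_fixed rational_of_fixed isAlgebraic_emb exists_perm_pair sum_perm)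

variable {I : Type} {L : I → Type} [∀ i, Field (L i)]

open Classical in
/-- integral version of `xi` -/
noncomputable def xiZ (s t : Emb L) : ℤ :=
  (if s = t then 1 else 0) - (if conjT s = t then 1 else 0)

lemma xi_cast (s t : Emb L) : xi s t = (xiZ s t : ℤ) := by
  classical
  unfold xi xiZ
  split_ifs <;> simp

lemma conjT_eq_iff (s t : Emb L) : conjT s = t ↔ s = conjT t :=
  ⟨fun h => by rw [← h, conjT_conjT], fun h => by rw [h, conjT_conjT]⟩

variable [Fintype I] [∀ i, NumberField (L i)]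

/-- conjugation as an equivalence -/
def conjE : Emb L ≃ Emb L := ⟨conjT, conjT, conjT_conjT, conjT_conjT⟩

/-- peeling off -/
lemma peel (z : Emb L → ℤ) (hz : ∀ s, z (conjT s) = - z s) (hcc : ∀ s, z s ≠ 0 → conjT s ≠ s)
    (h0 : ∃ s, z s ≠ 0) : ∃ s, z s ≠ 0 ∧ (∑ t, |z t - xiZ s t| = ∑ t, |z t| - 2) ∧
      ∀ t, z t = 0 → xiZ s t = 0 := by
  classical
  obtain ⟨s, hs⟩ : ∃ s, 0 < z s := by
    obtain ⟨s, hs⟩ := h0
    rcases lt_or_gt_of_ne hs with h | h
    · exact ⟨conjT s, by rw [hz]; omega⟩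
    · exact ⟨s, h⟩
  have hne := hcc s (by omega)
  refine ⟨s, by omega, ?_, ?_⟩
  · have h1 : ∀ t, |z t - xiZ s t| = |z t| - ((if s = t then 1 else 0) +
        (if conjT s = t then 1 else 0)) := by
      intro t
      unfold xiZ
      by_cases h1 : s = t
      · subst h1
        simp only [if_true, if_neg hne]
        rw [abs_of_nonneg (by omega), abs_of_nonneg (by omega)]
        ring
      · by_cases h2 : conjT s = t
        · subst h2
          simp only [if_true, if_neg h1]
          rw [hz, abs_of_nonpos (by omega), abs_of_nonpos (by omega)]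
          ring
        · simp only [if_neg h1, if_neg h2]
          simp
    rw [Finset.sum_congr rfl fun t _ => h1 t, Finset.sum_sub_distrib, Finset.sum_add_distrib,
      Finset.sum_ite_eq, Finset.sum_ite_eq, if_pos (Finset.mem_univ _), if_pos (Finset.mem_univ _)]
    norm_num
  · intro t ht
    unfold xiZ
    rw [if_neg (by rintro rfl; omega), if_neg (by rintro rfl; rw [hz] at ht; omega), sub_zero]

section small

variable (n : I → ℕ) {U : Submodule ℚ (Emb L → ℚ)}
  (h2 : ∀ s t : Emb L, n s.1 ≠ 0 → n t.1 ≠ 0 → (fun u => xi s u + xi t u) ∈ U → t = conjT s)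
  (hcc : ∀ s : Emb L, n s.1 ≠ 0 → conjT s ≠ s)

include h2 hcc in
lemma small_zero (z : Emb L → ℤ) (hU : (fun s => (z s : ℚ)) ∈ U) (hz : ∀ s, z (conjT s) = - z s)
    (hn : ∀ s, n s.1 = 0 → z s = 0) (hsum : ∑ s, |z s| ≤ 4) : ∀ s, z s = 0 := by
  classical
  by_contra hcon
  push Not at hcon
  have hz0 : ∀ s, z s ≠ 0 → n s.1 ≠ 0 := fun s h h' => h (hn s h')
  obtain ⟨s, hs, hs1, hs2⟩ := peel z hz (fun s h => hcc s (hz0 s h)) hcon
  set z' : Emb L → ℤ := fun t => z t - xiZ s t with hz'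
  have hodd' : ∀ t, z' (conjT t) = - z' t := by
    intro t
    have h1 : (xiZ s (conjT t) : ℚ) = - (xiZ s t : ℤ) := by
      rw [← xi_cast, ← xi_cast, xi_conj_right]
    have h2 : xiZ s (conjT t) = - xiZ s t := by exact_mod_cast h1
    simp only [hz', hz, h2]
    ring
  have hz0' : ∀ t, z' t ≠ 0 → n t.1 ≠ 0 := by
    intro t ht h0
    apply ht
    have h1 := hn t h0
    simp only [hz', h1, hs2 t h1, sub_zero]
  by_cases hcon' : ∃ t, z' t ≠ 0
  · obtain ⟨t, ht, ht1, ht2⟩ := peel z' hodd' (fun t h => hcc t (hz0' t h)) hcon'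
    have h3 : ∑ u, |z' u - xiZ t u| ≤ 0 := by
      rw [ht1]
      have : ∑ u, |z' u| = ∑ u, |z u| - 2 := hs1
      omega
    have h4 : ∀ u, z' u - xiZ t u = 0 := by
      intro u
      have h5 := (Finset.sum_eq_zero_iff_of_nonneg (fun u _ => abs_nonneg (z' u - xiZ t u))).mp
        (le_antisymm h3 (Finset.sum_nonneg fun u _ => abs_nonneg _)) u (Finset.mem_univ _)
      exact abs_eq_zero.mp h5
    have h5 : (fun u => xi s u + xi t u) ∈ U := by
      have h6 : (fun u => xi s u + xi t u) = fun s => (z s : ℚ) := by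
        funext u
        have h7 := h4 u
        rw [xi_cast, xi_cast]
        have h8 : z u = xiZ s u + xiZ t u := by
          simp only [hz'] at h7
          omega
        rw [h8]
        push_cast
        ring
      rw [h6]; exact hU
    have h6 := h2 s t (hz0 s hs) (hz0' t ht) h5
    subst h6
    have h7 := h4 s
    have h8 : (xiZ (conjT s) s : ℚ) = - (xiZ s s : ℤ) := by
      rw [← xi_cast, ← xi_cast, xi_conj_left]
    have h9 : xiZ (conjT s) s = - xiZ s s := by exact_mod_cast h8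
    simp only [hz', h9] at h7
    omega
  · push Not at hcon'
    have h5 : (fun u => xi s u + xi s u) ∈ U := by
      have h6 : (fun u => xi s u + xi s u) = (2 : ℚ) • fun s => (z s : ℚ) := by
        funext u
        have h7 := hcon' u
        rw [xi_cast]
        have h8 : z u = xiZ s u := by
          simp only [hz'] at h7
          omega
        rw [Pi.smul_apply, h8, smul_eq_mul]
        ring
      rw [h6]; exact U.smul_mem _ hU
    exact hcc s (hz0 s hs) (h2 s s (hz0 s hs) (hz0 s hs) h5).symm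

end small

section counts

variable (p : Fin 4 → Emb L)

open Classical in
/-- the multiplicity of a place among the slots -/
noncomputable def cnt (s : Emb L) : ℕ := (Finset.univ.filter fun r => p r = s).card

omit [Fintype I] [∀ i, NumberField (L i)] in
lemma cnt_eq_sum (s : Emb L) : (cnt p s : ℤ) = ∑ r, (open Classical in if p r = s then 1 else 0) := by
  classical
  rw [cnt, Finset.card_filter]
  push_cast
  exact Finset.sum_congr rfl fun r _ => by split_ifs <;> rfl

omit [Fintype I] [∀ i, NumberField (L i)] in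
lemma sum_xiZ (s : Emb L) : ∑ r, xiZ (p r) s = (cnt p s : ℤ) - cnt p (conjT s) := by
  classical
  rw [cnt_eq_sum, cnt_eq_sum, ← Finset.sum_sub_distrib]
  refine Finset.sum_congr rfl fun r _ => ?_
  unfold xiZ
  have h : (conjT (p r) = s) = (p r = conjT s) := propext (conjT_eq_iff _ _)
  simp only [h]

lemma sum_cnt : ∑ s, cnt p s = 4 := by
  classical
  have h1 : ∀ s, cnt p s = ∑ r, if p r = s then 1 else 0 := fun s => by
    rw [cnt, Finset.card_filter]
  rw [Finset.sum_congr rfl fun s _ => h1 s, Finset.sum_comm]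
  simp

lemma sum_n (n : I → ℕ) : ∑ s : Emb L, n s.1 = ∑ i, n i * Module.finrank ℚ (L i) := by
  rw [Fintype.sum_sigma]
  refine Finset.sum_congr rfl fun i _ => ?_
  show ∑ _y : (L i →+* ℂ), n i = _
  rw [Finset.sum_const, Finset.card_univ, NumberField.Embeddings.card, smul_eq_mul, mul_comm]

end counts

section main

variable (n : I → ℕ) {U : Submodule ℚ (Emb L → ℚ)}

omit [Fintype I] [∀ i, NumberField (L i)] in
lemma translate_cast (τ : ℂ ≃+* ℂ) (z : Emb L → ℤ) :
    translate L τ (fun s => (z s : ℚ)) = fun s => ((z ⟨s.1, act τ s.2⟩ : ℤ) : ℚ) := rfl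

lemma isAlgS {X : Type*} (t : Finset X) (f : X → ℂ) (h : ∀ x ∈ t, IsAlgebraic ℚ (f x)) :
    IsAlgebraic ℚ (∑ x ∈ t, f x) := by
  classical
  induction t using Finset.induction_on with
  | empty => rw [Finset.sum_empty]; exact isAlgebraic_zero
  | insert a t ha ih =>
    rw [Finset.sum_insert ha]
    exact (h a (Finset.mem_insert_self a t)).add (ih fun x hx => h x (Finset.mem_insert_of_mem hx))

omit [Fintype I] in
/-- the quadratic field -/
lemma exists_sqrt (hcm : ∀ i, n i ≠ 0 → IsCMField (L i)) (z : Emb L → ℤ)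
    (hz : ∀ s, n s.1 ≠ 0 → z s ≠ 0) (i₀ : I) (hi₀ : n i₀ ≠ 0)
    (hτ : ∀ τ : ℂ ≃+* ℂ, (∀ s : Emb L, z ⟨s.1, act τ s.2⟩ = z s) ∨
      (∀ s : Emb L, z ⟨s.1, act τ s.2⟩ = - z s))
    (hodd : ∀ s, z (conjT s) = - z s) :
    ∃ q : ℚ, q < 0 ∧ ∀ i, n i ≠ 0 → ∃ x : L i, x ^ 2 = (q : L i) := by
  classical
  have hcm₀ := hcm i₀ hi₀
  let Z : L i₀ → ℂ := fun y => ∑ σ : L i₀ →+* ℂ, (z ⟨i₀, σ⟩ : ℂ) * σ y
  have hact : ∀ (τ : ℂ ≃+* ℂ) (y : L i₀), τ (Z y) = ∑ σ : L i₀ →+* ℂ, (z ⟨i₀, σ⟩ : ℂ) *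
      (act τ σ) y := by
    intro τ y
    simp only [Z]
    rw [map_sum]
    refine Finset.sum_congr rfl fun σ _ => ?_
    rw [map_mul, map_intCast]
    rfl
  -- reindexing
  have hre : ∀ (τ : ℂ ≃+* ℂ) (f : (L i₀ →+* ℂ) → ℂ), ∑ σ, f σ = ∑ σ : L i₀ →+* ℂ, f (act τ σ) := by
    intro τ f
    have hb : Function.Bijective (fun σ : L i₀ →+* ℂ => act τ σ) :=
      (Finite.injective_iff_bijective).mp fun σ σ' h => Helper84.act_injective τ h
    exact (hb.sum_comp f).symm
  have hτZ : ∀ (τ : ℂ ≃+* ℂ) (y : L i₀), ((∀ s : Emb L, z ⟨s.1, act τ s.2⟩ = z s) → τ (Z y) = Z y) ∧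
      ((∀ s : Emb L, z ⟨s.1, act τ s.2⟩ = - z s) → τ (Z y) = - Z y) := by
    intro τ y
    have h1 : Z y = ∑ σ : L i₀ →+* ℂ, (z ⟨i₀, act τ σ⟩ : ℂ) * (act τ σ) y :=
      hre τ (fun σ => (z ⟨i₀, σ⟩ : ℂ) * σ y)
    refine ⟨fun h => ?_, fun h => ?_⟩
    · rw [hact, h1]
      refine Finset.sum_congr rfl fun σ _ => ?_
      rw [h ⟨i₀, σ⟩]
    · rw [hact, h1, ← Finset.sum_neg_distrib]
      refine Finset.sum_congr rfl fun σ _ => ?_
      rw [h ⟨i₀, σ⟩]
      push_cast; ring
  have hτ2 : ∀ (τ : ℂ ≃+* ℂ) (y : L i₀), τ (Z y) = Z y ∨ τ (Z y) = - Z y := by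
    intro τ y
    rcases hτ τ with h | h
    · exact Or.inl ((hτZ τ y).1 h)
    · exact Or.inr ((hτZ τ y).2 h)
  have halg : ∀ y, IsAlgebraic ℚ (Z y) := fun y => by
    refine isAlgS _ _ fun σ _ => ?_
    have h1 : IsAlgebraic ℚ (z ⟨i₀, σ⟩ : ℂ) := by
      have h2 := isAlgebraic_algebraMap (A := ℂ) ((z ⟨i₀, σ⟩ : ℤ) : ℚ)
      rwa [map_intCast] at h2
    exact h1.mul (isAlgebraic_emb σ y)
  obtain ⟨y, hy⟩ : ∃ y, Z y ≠ 0 := by
    by_contra hall
    push Not at hall
    have hli := linearIndependent_monoidHom (L i₀) ℂ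
    have hf : Function.Injective (fun σ : L i₀ →+* ℂ => (σ : L i₀ →* ℂ)) := by
      intro a b hab
      exact RingHom.ext fun x => DFunLike.congr_fun hab x
    have σ₀ : L i₀ →+* ℂ := Classical.choice inferInstance
    have h5 := (Fintype.linearIndependent_iff.1 (hli.comp _ hf)) (fun σ => (z ⟨i₀, σ⟩ : ℂ)) (by
      funext y
      have := hall y
      simp only [Z] at this
      rw [Finset.sum_apply]
      simpa using this) σ₀
    exact hz ⟨i₀, σ₀⟩ hi₀ (by exact_mod_cast h5)
  obtain ⟨q, hq1⟩ := rational_of_fixed (Z y ^ 2) ((halg y).pow 2) (fun τ => by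
    rw [map_pow]
    rcases hτ2 τ y with h | h <;> rw [h]
    ring)
  have hconj : starRingEnd ℂ (Z y) = - Z y := by
    have h1 := (hτZ starRingAut y).2 (fun s => by
      rw [act_star]; exact hodd s)
    exact h1
  have hre0 : (Z y).re = 0 := by
    have h1 := congrArg Complex.re hconj
    rw [Complex.conj_re, Complex.neg_re] at h1
    linarith
  have hq2 : (q : ℝ) = - (Z y).im ^ 2 := by
    have h1 := congrArg Complex.re hq1
    rw [pow_two, Complex.mul_re, hre0] at h1
    simp only [Complex.ratCast_re] at h1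
    rw [h1]; ring
  have him : (Z y).im ≠ 0 := by
    intro h
    exact hy (Complex.ext hre0 h)
  have hq3 : (q : ℝ) < 0 := by
    rw [hq2]
    have := sq_pos_of_ne_zero him
    linarith
  refine ⟨q, by exact_mod_cast hq3, fun i hi => ?_⟩
  have hcmi := hcm i hi
  have σ : L i →+* ℂ := Classical.choice inferInstance
  obtain ⟨x, hx⟩ := mem_range_of_fixed σ (Z y) (halg y) (fun τ h => by
    rcases hτ τ with h1 | h1
    · exact (hτZ τ y).1 h1
    · exfalso
      have h2 := h1 ⟨i, σ⟩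
      have h3 : act τ σ = σ := h
      simp only [h3] at h2
      exact hz ⟨i, σ⟩ hi (by omega))
  refine ⟨x, σ.injective ?_⟩
  rw [map_pow, hx, ← hq1]
  simp

/-- pairing of four slots -/
theorem weil_match (hcm : ∀ i, n i ≠ 0 → IsCMField (L i))
    (hdim : ∑ i, n i * Module.finrank ℚ (L i) ≤ 8) (hU : IsOddModule L U)
    (h2 : ∀ s t : Emb L, n s.1 ≠ 0 → n t.1 ≠ 0 → (fun u => xi s u + xi t u) ∈ U → t = conjT s)
    (hW : (∑ i, n i * Module.finrank ℚ (L i) < 8) ∨
      ¬ ∃ q : ℚ, q < 0 ∧ ∀ i, n i ≠ 0 → ∃ x : L i, x ^ 2 = (q : L i))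
    (p : Fin 4 → Emb L) (hp : ∀ s, cnt p s ≤ n s.1)
    (hpU : (fun t => ∑ r, xi (p r) t) ∈ U) :
    ∃ π : Equiv.Perm (Fin 4), (fun s => xi (p (π 0)) s + xi (p (π 1)) s) ∈ U ∧
      (fun s => xi (p (π 2)) s + xi (p (π 3)) s) ∈ U := by
  classical
  have hn : ∀ r, n (p r).1 ≠ 0 := by
    intro r h0
    have h1 := hp (p r)
    rw [h0, Nat.le_zero, cnt, Finset.card_eq_zero, Finset.filter_eq_empty_iff] at h1
    exact h1 (Finset.mem_univ r) rfl
  have hcc : ∀ s : Emb L, n s.1 ≠ 0 → conjT s ≠ s := by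
    rintro ⟨i, σ⟩ hi h
    have := hcm i hi
    have h1 : (⟨i, ComplexEmbedding.conjugate σ⟩ : Emb L) = ⟨i, σ⟩ := h
    rw [Sigma.mk.injEq] at h1
    exact cc_ne σ (eq_of_heq h1.2)
  by_cases hc : ∃ r r', p r' = conjT (p r)
  · obtain ⟨r, r', hrr⟩ := hc
    have hne : r ≠ r' := by
      rintro rfl
      exact hcc _ (hn r) hrr.symm
    obtain ⟨π, h0, h1⟩ := exists_perm_pair r r' hne
    have h3 : ∀ s, xi (p (π 0)) s + xi (p (π 1)) s = 0 := by
      intro s
      rw [h0, h1, hrr, xi_conj_left]; ring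
    refine ⟨π, ?_, ?_⟩
    · have h4 : (fun s => xi (p (π 0)) s + xi (p (π 1)) s) = 0 := funext h3
      rw [h4]
      exact U.zero_mem
    · have h4 : (fun s => xi (p (π 2)) s + xi (p (π 3)) s) = fun t => ∑ r, xi (p r) t := by
        funext s
        rw [sum_perm p π s, h3, zero_add]
      rw [h4]
      exact hpU
  exfalso
  push Not at hc
  -- multiplicities
  have hle : ∀ s, cnt p s + cnt p (conjT s) ≤ n s.1 := by
    intro s
    have h1 := hp s
    have h2' : cnt p (conjT s) ≤ n s.1 := hp (conjT s)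
    by_cases h3 : cnt p s = 0
    · omega
    · obtain ⟨r, hr⟩ := Finset.card_ne_zero.mp h3
      have hr' := (Finset.mem_filter.mp hr).2
      have h4 : cnt p (conjT s) = 0 := by
        rw [cnt, Finset.card_eq_zero, Finset.filter_eq_empty_iff]
        intro r' _ h5
        exact hc r r' (by rw [h5, hr'])
      omega
  have hsum1 : ∑ s : Emb L, (cnt p s + cnt p (conjT s)) = 8 := by
    rw [Finset.sum_add_distrib, sum_cnt]
    have h1 : ∑ s : Emb L, cnt p (conjT s) = ∑ s, cnt p s := Equiv.sum_comp (conjE (L := L)) _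
    rw [h1, sum_cnt]
  have hsum2 := sum_n (L := L) n
  have hsum3 : ∑ s : Emb L, (cnt p s + cnt p (conjT s)) ≤ ∑ s : Emb L, n s.1 :=
    Finset.sum_le_sum fun s _ => hle s
  have h8 : ∑ i, n i * Module.finrank ℚ (L i) = 8 := by omega
  have heq : ∀ s : Emb L, cnt p s + cnt p (conjT s) = n s.1 := by
    intro s
    exact (Finset.sum_eq_sum_iff_of_le fun s _ => hle s).mp (by omega) s (Finset.mem_univ s)
  -- the relation
  obtain ⟨z, hz⟩ : ∃ z : Emb L → ℤ, ∀ s, z s = (cnt p s : ℤ) - cnt p (conjT s) :=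
    ⟨fun s => (cnt p s : ℤ) - cnt p (conjT s), fun _ => rfl⟩
  have hzU : (fun s => (z s : ℚ)) ∈ U := by
    have h1 : (fun s => (z s : ℚ)) = fun t => ∑ r, xi (p r) t := by
      funext s
      rw [hz, ← sum_xiZ, Int.cast_sum]
      exact Finset.sum_congr rfl fun r _ => (xi_cast _ _).symm
    rw [h1]; exact hpU
  have hzodd : ∀ s, z (conjT s) = - z s := by
    intro s
    rw [hz, hz, conjT_conjT]; ring
  have hzabs : ∀ s, z s = n s.1 ∨ z s = - (n s.1 : ℤ) := by
    intro s
    have h1 := heq s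
    rw [hz]
    by_cases h3 : cnt p s = 0
    · right; rw [h3] at h1 ⊢; push_cast; omega
    · obtain ⟨r, hr⟩ := Finset.card_ne_zero.mp h3
      have hr' := (Finset.mem_filter.mp hr).2
      have h4 : cnt p (conjT s) = 0 := by
        rw [cnt, Finset.card_eq_zero, Finset.filter_eq_empty_iff]
        intro r' _ h5
        exact hc r r' (by rw [h5, hr'])
      left; rw [h4] at h1 ⊢; push_cast; omega
  have hsign : ∀ τ : ℂ ≃+* ℂ, (∀ s : Emb L, z ⟨s.1, act τ s.2⟩ = z s) ∨
      (∀ s : Emb L, z ⟨s.1, act τ s.2⟩ = - z s) := by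
    intro τ
    have hwU := (hU _ hzU).2 τ
    rw [translate_cast] at hwU
    have hoddw : ∀ s, z ⟨(conjT s).1, act τ (conjT s).2⟩ = - z ⟨s.1, act τ s.2⟩ := by
      intro s
      have h1 := (hU _ hwU).1 s.1 s.2
      simp only at h1
      exact_mod_cast h1
    obtain ⟨A, hA⟩ : ∃ A : Emb L → ℤ, ∀ s, A s = if z ⟨s.1, act τ s.2⟩ = z s then z s else 0 :=
      ⟨_, fun _ => rfl⟩
    obtain ⟨B, hB⟩ : ∃ B : Emb L → ℤ, ∀ s, B s = if z ⟨s.1, act τ s.2⟩ = z s then 0 else z s :=
      ⟨_, fun _ => rfl⟩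
    have hw : ∀ s, z ⟨s.1, act τ s.2⟩ = z s ∨ z ⟨s.1, act τ s.2⟩ = - z s := by
      intro s
      have h1 := hzabs s
      have h2 := hzabs ⟨s.1, act τ s.2⟩
      simp only at h2
      omega
    have hA2 : ∀ s, z s + z ⟨s.1, act τ s.2⟩ = 2 * A s := by
      intro s
      rw [hA]
      rcases hw s with h | h
      · rw [if_pos h, h]; ring
      · split_ifs with h'
        · rw [h']; ring
        · rw [h]; ring
    have hB2 : ∀ s, z s - z ⟨s.1, act τ s.2⟩ = 2 * B s := by
      intro s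
      rw [hB]
      rcases hw s with h | h
      · rw [if_pos h, h]; ring
      · split_ifs with h'
        · rw [h']; ring
        · rw [h]; ring
    have hAU : (fun s => (A s : ℚ)) ∈ U := by
      have h1 : (fun s => (A s : ℚ)) = (1 / 2 : ℚ) • ((fun s => (z s : ℚ)) +
          fun s : Emb L => ((z ⟨s.1, act τ s.2⟩ : ℤ) : ℚ)) := by
        funext s
        have h3 : ((z s : ℤ) : ℚ) + (z ⟨s.1, act τ s.2⟩ : ℤ) = 2 * (A s : ℤ) := by
          exact_mod_cast hA2 s
        rw [Pi.smul_apply, Pi.add_apply, smul_eq_mul, h3]; ring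
      rw [h1]
      exact U.smul_mem _ (U.add_mem hzU hwU)
    have hBU : (fun s => (B s : ℚ)) ∈ U := by
      have h1 : (fun s => (B s : ℚ)) = (1 / 2 : ℚ) • ((fun s => (z s : ℚ)) -
          fun s : Emb L => ((z ⟨s.1, act τ s.2⟩ : ℤ) : ℚ)) := by
        funext s
        have h3 : ((z s : ℤ) : ℚ) - (z ⟨s.1, act τ s.2⟩ : ℤ) = 2 * (B s : ℤ) := by
          exact_mod_cast hB2 s
        rw [Pi.smul_apply, Pi.sub_apply, smul_eq_mul, h3]; ring
      rw [h1]
      exact U.smul_mem _ (U.sub_mem hzU hwU)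
    have hAodd : ∀ s, A (conjT s) = - A s := by
      intro s
      have h1 := hA2 s
      have h2 := hA2 (conjT s)
      rw [hoddw s, hzodd s] at h2
      omega
    have hBodd : ∀ s, B (conjT s) = - B s := by
      intro s
      have h1 := hB2 s
      have h2 := hB2 (conjT s)
      rw [hoddw s, hzodd s] at h2
      omega
    have habs : ∀ s, |A s| + |B s| = n s.1 := by
      intro s
      have h1 : |z s| = n s.1 := by
        rcases hzabs s with h | h
        · rw [h]; simp
        · rw [h]; simp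
      rw [hA, hB]
      split_ifs
      · rw [abs_zero, add_zero, h1]
      · rw [abs_zero, zero_add, h1]
    have hsumAB : ∑ s, |A s| + ∑ s, |B s| = 8 := by
      rw [← Finset.sum_add_distrib, Finset.sum_congr rfl fun s _ => habs s]
      have h1 : ((∑ s : Emb L, n s.1 : ℕ) : ℤ) = 8 := by rw [hsum2, h8]; rfl
      rw [← h1]; push_cast; rfl
    have hz0 : ∀ s : Emb L, n s.1 = 0 → z s = 0 := by
      intro s hs
      have h1 := hzabs s
      rw [hs] at h1
      simpa using h1
    have hA0 : ∀ s : Emb L, n s.1 = 0 → A s = 0 := by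
      intro s hs
      rw [hA, hz0 s hs]; simp
    have hB0 : ∀ s : Emb L, n s.1 = 0 → B s = 0 := by
      intro s hs
      rw [hB, hz0 s hs]; simp
    rcases (show ∑ s, |A s| ≤ 4 ∨ ∑ s, |B s| ≤ 4 by omega) with h | h
    · right
      have h1 := small_zero n h2 hcc A hAU hAodd hA0 h
      intro s
      have h3 := hA2 s
      rw [h1 s] at h3
      omega
    · left
      have h1 := small_zero n h2 hcc B hBU hBodd hB0 h
      intro s
      have h3 := hB2 s
      rw [h1 s] at h3
      omega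
  rcases hW with hW | hW
  · omega
  · apply hW
    refine exists_sqrt n hcm z (fun s hs h0 => ?_) (p 0).1 (hn 0) hsign hzodd
    rcases hzabs s with h | h
    · rw [h] at h0; exact hs (by exact_mod_cast h0)
    · rw [h] at h0; exact hs (by omega)

end main

end Pool.Agent.Helper7.WM
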