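import Pool.Agent.Helper7.J9
import Pool.Agent.Helper7.J10
import Pool.Agent.Helper7.WeilMatch
import Pool.Agent.Helper7.CMTypes

/-!
The theorem on four-forms for products of abelian varieties of real type and of simple abelian
varieties with complex multiplication.
-/

namespace Pool.Agent.Helper7

open Module NumberField LieAlgebra

attribute [local instance 100] LieRing.ofAssociativeRing

open Pool.Agent.GPC
open Pool.Agent.Helper84 (xi cm_match omf_match)

set_option linter.unusedSectionVars false

lemma FS.simple_rho {κ : Type} [Fintype κ] [DecidableEq κ] {ϖ : ℂ} {P : PData κ ϖ} {K : Type}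
    [Field K] [NumberField K] (F : FS P K) (hF : ¬ F.isLeft)
    (hs : ∀ f, IsDRB P P f → (∃ v, f v ≠ 0) → Function.Injective f) (f : Module.End ℂ (κ → ℂ))
    (hf : IsDRB P P f) : ∃ x, ∀ v, f v = F.ρ x v := by
  cases F with
  | inl F => exact absurd rfl hF
  | inr F =>
    obtain ⟨x, hx⟩ := F.1.lf.gen _ (hf.rat _ (F.1.lf.lam_rat 0))
    rw [Fin.sum_univ_two, F.1.lf.lam_one F.2, map_zero, add_zero] at hx
    refine ⟨x 0, ?_⟩
    by_contra hcon
    push Not at hcon
    obtain ⟨v, hv⟩ := hcon
    have h1 : IsDRB P P (f - F.1.ρ (x 0)) := by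
      refine ⟨fun v hv => Submodule.sub_mem _ (hf.rat v hv) ((F.1.hρ (x 0)).rat v hv),
        fun i j => ?_⟩
      exact (hf.alg i j).sub ((F.1.hρ (x 0)).alg i j)
    have h2 := hs _ h1 ⟨v, by
      rw [LinearMap.sub_apply]
      exact sub_ne_zero.mpr hv⟩
    apply F.1.lam_ne
    apply h2
    rw [LinearMap.sub_apply, map_zero, hx, sub_self]

variable {I : Type} [Fintype I] (A : I → AbVar) (n : I → ℕ) (K : I → Type)
  [∀ i, Field (K i)] [∀ i, NumberField (K i)]

theorem main_J' (hT : ∀ i, NotProportional (A i)) (S T : Finset I) (hST : ∀ i, i ∈ S ∨ i ∈ T)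
    (hR : ∀ i ∈ S, IsRealType (A i) (K i)) (hC : ∀ i ∈ T, IsCMType (A i) (K i))
    (hdim : ∑ i ∈ S, n i * (A i).g ≤ 4)
    (h : OddMultiplicityFree K ∨ LowDimCM A n K T)
    (α : Form A n (2 * 2)) : IsGrothendieck A n 2 α ↔ IsDivisorial A n 2 α := by
  classical
  refine ⟨?_, isGrothendieck_of_isDivisorial A n 2 α⟩
  rintro ⟨hα1, hα2⟩
  have hNT : ∀ i, i ∉ S → i ∈ T := fun i hi => (hST i).resolve_left hi
  have hdisj : ∀ i, i ∈ S → i ∉ T := by
    intro i hi hi'
    have h1 := (hR i hi).1
    have h2 := (hC i hi').choose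
    have σ : K i →+* ℂ := Classical.choice inferInstance
    exact IsTotallyComplex.complexEmbedding_not_isReal σ
      (IsTotallyReal.complexEmbedding_isReal σ)
  have hF : ∀ i, ∃ F : FS (pData (A i)) (K i), (F.isLeft ↔ i ∈ S) ∧
      (i ∈ S → finrank ℚ (K i) * F.rk = 2 * (A i).g) ∧ (i ∉ S → F.rk = 0) := by
    intro i
    by_cases hi : i ∈ S
    · obtain ⟨F, hF⟩ := nonempty_RF (A i) (K i) (Classical.choice (hR i hi).2)
      exact ⟨.inl F, ⟨fun _ => hi, fun _ => rfl⟩, fun _ => hF, fun h => absurd hi h⟩
    · obtain ⟨h1, ⟨C⟩⟩ := hC i (hNT i hi)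
      exact ⟨.inr ⟨cmFac (A i) (K i) C (hT i), fun h => h⟩,
        ⟨fun h => by simp at h, fun h => absurd h hi⟩, fun h => absurd h hi, fun _ => rfl⟩
  choose F hFl hFr hF0 using hF
  have hB : ∀ v : Fin (2 * 2) → HW (fun i => Fin (A i).g ⊕ Fin (A i).g) n,
      (∀ r, IsRatP n (fun i => pData (A i)) (v r)) →
      ∃ q : ℚ, α v = (2 * Real.pi * Complex.I) ^ 2 * q := by
    intro v hv
    apply hα2
    intro r i m
    exact (mem_pData_Q _ _).mp (hv r i m)
  have hcmf : ∀ i, i ∉ S → finrank ℚ (K i) = 2 * (A i).g := by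
    intro i hi
    obtain ⟨h1, ⟨C⟩⟩ := hC i (hNT i hi)
    exact C.degree
  have hsum : ∀ T : Finset (At n K), (∀ a ∈ T, (F a.1).isLeft) → ∑ a ∈ T, dimA α F a ≤ 8 := by
    intro T hTl
    refine (sum_dimA_le T hTl).trans ?_
    have h1 : ∑ i, n i * (finrank ℚ (K i) * (F i).rk) = ∑ i ∈ S, n i * (2 * (A i).g) := by
      rw [← Finset.sum_subset (Finset.subset_univ S) (fun i _ hi => by
        rw [hF0 i hi, mul_zero, mul_zero])]
      exact Finset.sum_congr rfl fun i hi => by rw [hFr i hi]
    rw [h1]
    have h2 : ∑ i ∈ S, n i * (2 * (A i).g) = 2 * ∑ i ∈ S, n i * (A i).g := by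
      rw [Finset.mul_sum]
      exact Finset.sum_congr rfl fun i _ => by ring
    omega
  -- matching
  have hU := relS_odd n (fun i => pData (A i)) F (toM n α) (fun i hi σ => by
    have := (hR i ((hFl i).mp hi)).1
    exact ComplexEmbedding.isReal_iff.mp (IsTotallyReal.complexEmbedding_isReal σ))
  have hW : ∀ i, i ∉ S → ∃ w : Emb K → ℚ, IsOdd K w ∧ (∀ j σ, j ≠ i → w ⟨j, σ⟩ = 0) ∧
      w ∉ relS n (fun i => pData (A i)) F (toM n α) := fun i hi =>
    relS_ne n (fun i => pData (A i)) F (toM n α) Complex.two_pi_I_ne_zero hB hα1 i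
      (fun h => hi ((hFl i).mp h))
  have hm : Match α F := by
    intro t ht hinj hrel
    have ht' : ∀ r, (t r).1 ∉ S := fun r h => ht r ((hFl _).mpr h)
    rcases h with hfree | hlow
    · obtain ⟨π, h1, h2⟩ := omf_match hfree hU (fun r => pl n (t r))
        (fun r => (hC _ (hNT _ (ht' r))).choose) (fun r => hW _ (ht' r)) hrel
      refine ⟨π, ?_, ?_⟩
      · have h3 : (fun s => xi (pl n (t (π 0))) s + xi (pl n (t (π 1))) s) = 0 := funext h1
        rw [h3]
        exact Submodule.zero_mem _
      · have h3 : (fun s => xi (pl n (t (π 2))) s + xi (pl n (t (π 3))) s) = 0 := funext h2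
        rw [h3]
        exact Submodule.zero_mem _
    · have hn' : ∀ i, (if i ∈ S then 0 else n i) ≠ 0 → i ∉ S := by
        intro i h1 h2
        rw [if_pos h2] at h1
        exact h1 rfl
      have hn'' : ∀ i, i ∉ S → (if i ∈ S then 0 else n i) = n i := fun i hi => if_neg hi
      have hdimT : ∑ i, (if i ∈ S then 0 else n i) * finrank ℚ (K i) =
          2 * ∑ i ∈ T, n i * (A i).g := by
        rw [Finset.mul_sum]
        rw [← Finset.sum_subset (Finset.subset_univ T) (fun i _ hi => by
          have h1 : i ∈ S := (hST i).resolve_right hi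
          rw [if_pos h1, zero_mul])]
        refine Finset.sum_congr rfl fun i hi => ?_
        have h1 : i ∉ S := fun h => hdisj i h hi
        rw [if_neg h1, hcmf i h1]
        ring
      refine WM.weil_match (fun i => if i ∈ S then 0 else n i)
        (fun i hi => (hC i (hNT _ (hn' i hi))).choose) ?_ hU ?_ ?_ (fun r => pl n (t r)) ?_ hrel
      · rw [hdimT]
        have := hlow.dim_le
        omega
      · intro s s' hs hs' hrel'
        have hsS := hn' _ hs
        have hsS' := hn' _ hs'
        refine eq_of_rel Complex.two_pi_I_ne_zero hB hα1 s s' (fun h => hsS ((hFl _).mp h))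
          (fun h => hsS' ((hFl _).mp h)) ?_ ?_ hrel'
        · intro f hf
          refine (F s.1).simple_rho (fun h => hsS ((hFl _).mp h)) ?_ f hf
          intro g hg hg0
          exact hlow.simple s.1 (hNT _ hsS) g (isEnd_of_isDRB (A s.1) g hg) hg0
        · intro hne f hf v
          have h1 := (isDRB_iff (A s.1) (A s'.1) f).mp hf
          exact hlow.hom_zero s.1 (hNT _ hsS) s'.1 (hNT _ hsS') hne f
            ⟨f.isLinear, h1.1, h1.2, hom_fil (A s.1) (A s'.1) f f.isLinear h1.1 h1.2⟩ v
      · rw [hdimT]
        by_cases h4 : ∑ i ∈ T, n i * (A i).g = 4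
        · right
          rintro ⟨q, hq, hq'⟩
          refine hlow.not_weil h4 ⟨q, hq, fun i hi hni => hq' i ?_⟩
          rw [hn'' i (fun h => hdisj i h hi)]
          exact hni
        · left
          have := hlow.dim_le
          omega
      · intro s
        have hcnt : WM.cnt (fun r => pl n (t r)) s =
            (Finset.univ.filter fun r => pl n (t r) = s).card := by
          unfold WM.cnt
          congr 1
        rw [hcnt]
        by_cases hs : s.1 ∈ S
        · have h1 : (Finset.univ.filter fun r => pl n (t r) = s) = ∅ := by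
            apply Finset.filter_eq_empty_iff.mpr
            intro r _ hr
            apply ht' r
            have h2 : (pl n (t r)).1 = s.1 := by rw [hr]
            exact h2 ▸ hs
          rw [h1]
          exact Nat.zero_le _
        · rw [if_neg hs]
          have hsub : (Finset.univ.filter (fun r => pl n (t r) = s)).image t ⊆
              Finset.univ.image (fun m : Fin (n s.1) => (⟨s.1, m, s.2⟩ : At n K)) := by
            intro a ha
            obtain ⟨r, hr, rfl⟩ := Finset.mem_image.mp ha
            have h2 := (Finset.mem_filter.mp hr).2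
            generalize t r = a at h2
            obtain ⟨i, m, σ⟩ := a
            subst h2
            exact Finset.mem_image.mpr ⟨m, Finset.mem_univ _, rfl⟩
          calc (Finset.univ.filter (fun r => pl n (t r) = s)).card
              = ((Finset.univ.filter (fun r => pl n (t r) = s)).image t).card :=
                (Finset.card_image_of_injective _ hinj).symm
            _ ≤ _ := Finset.card_le_card hsub
            _ ≤ _ := Finset.card_image_le
            _ = n s.1 := by rw [Finset.card_univ, Fintype.card_fin]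
  have h1 := abstract_of_span n (fun i => pData (A i)) Complex.two_pi_I_ne_zero α hB hα1
    (family_J Complex.two_pi_I_ne_zero hB hα1 hm hsum)
  exact isDivisorial_of_span A n 2 α h1

end Pool.Agent.Helper7
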