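import Pool.Agent.Helper7.L8
import Pool.Agent.Helper7.J11

/-!
The theorem in all degrees for products of abelian varieties of real type, of total dimension at
most four, and abelian varieties with complex multiplication.
-/

set_option linter.unusedSectionVars false

namespace Pool.Agent.Helper7

open Module NumberField LieAlgebra

attribute [local instance 100] LieRing.ofAssociativeRing

open Pool.Agent.GPC

section dims

variable {I : Type} [Fintype I] [DecidableEq I] {n : I → ℕ}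
  {κ : I → Type} [∀ i, Fintype (κ i)] [∀ i, DecidableEq (κ i)] {ϖ : ℂ}
  {P : ∀ i, PData (κ i) ϖ}
  {K : I → Type} [∀ i, Field (K i)] [∀ i, NumberField (K i)]
  {F : ∀ i, FS (P i) (K i)}
  {k : ℕ} (α' : MultilinearMap ℂ (fun _ : Fin (2 * k) => HW κ n) ℂ)

lemma R4.dimA_le (a : At n K) (ha : (F a.1).isLeft) : R4.dimA α' F a ≤ (F a.1).rk := by
  obtain ⟨F', hF'⟩ := Sum.isLeft_iff.mp ha
  have hρ : (F a.1).ρ = F'.ρ := by rw [hF']; rfl
  have hrk : (F a.1).rk = F'.r := by rw [hF']; rfl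
  rw [hrk]
  have h1 : (Set.range (F'.e a.2.2)).finrank ℂ ≤ Fintype.card (Fin F'.r) := finrank_range_le_card _
  rw [Fintype.card_fin] at h1
  refine le_trans ?_ h1
  let g : Vs n P F α' (pl n a) →ₗ[ℂ] Submodule.span ℂ (Set.range (F'.e a.2.2)) :=
    LinearMap.codRestrict _ ((LinearMap.proj a.1 : MM κ →ₗ[ℂ] (κ a.1 → ℂ)) ∘ₗ
      (Vs n P F α' (pl n a)).toSubmodule.subtype) (fun x => by
        rw [F'.span_e, ← hρ]
        exact ⟨(x : MM κ) a.1, Vs_proj n P F α' (pl n a) x⟩)
  refine LinearMap.finrank_le_finrank_of_injective (f := g) ?_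
  intro x y hxy
  exact Vs_ext n P F α' (pl n a) x y (congrArg Subtype.val hxy)

/-- the total dimension of the atoms of real type -/
lemma R4.sum_dimA_le (S : Finset (At n K)) (hS : ∀ a ∈ S, (F a.1).isLeft) :
    ∑ a ∈ S, R4.dimA α' F a ≤ ∑ i, n i * (finrank ℚ (K i) * (F i).rk) := by
  classical
  calc ∑ a ∈ S, R4.dimA α' F a ≤ ∑ a ∈ S, (F a.1).rk :=
        Finset.sum_le_sum fun a ha => R4.dimA_le α' a (hS a ha)
    _ ≤ ∑ a : At n K, (F a.1).rk :=
        Finset.sum_le_sum_of_subset (Finset.subset_univ S)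
    _ = ∑ i, n i * (finrank ℚ (K i) * (F i).rk) := by
        rw [Fintype.sum_sigma]
        refine Finset.sum_congr rfl fun i _ => ?_
        show ∑ _y : Fin (n i) × (K i →+* ℂ), (F i).rk = _
        rw [Finset.sum_const, Finset.card_univ, Fintype.card_prod, Fintype.card_fin, card_emb,
          smul_eq_mul, mul_assoc]

end dims

variable {I : Type} [Fintype I] (A : I → AbVar) (n : I → ℕ) (K : I → Type)
  [∀ i, Field (K i)] [∀ i, NumberField (K i)]

theorem main_L (hT : ∀ i, NotProportional (A i)) (S T : Finset I) (hST : ∀ i, i ∈ S ∨ i ∈ T)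
    (hR : ∀ i ∈ S, IsRealType (A i) (K i)) (hC : ∀ i ∈ T, IsCMType (A i) (K i))
    (hdim : ∑ i ∈ S, n i * (A i).g ≤ 4)
    (h : OddMultiplicityFree K ∨ LowDimCM A n K T ∨ PrimeDimCM A n T)
    (k : ℕ) (α : Form A n (2 * k)) : IsGrothendieck A n k α ↔ IsDivisorial A n k α := by
  classical
  refine ⟨?_, isGrothendieck_of_isDivisorial A n k α⟩
  rintro ⟨hα1, hα2⟩
  have hNT : ∀ i, i ∉ S → i ∈ T := fun i hi => (hST i).resolve_left hi
  have hF : ∀ i, ∃ F : FS (pData (A i)) (K i), (F.isLeft ↔ i ∈ S) ∧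
      (i ∈ S → finrank ℚ (K i) * F.rk = 2 * (A i).g) ∧ (i ∉ S → F.rk = 0) := by
    intro i
    by_cases hi : i ∈ S
    · obtain ⟨F, hF⟩ := nonempty_RF (A i) (K i) (Classical.choice (hR i hi).2)
      exact ⟨.inl F, ⟨fun _ => hi, fun _ => rfl⟩, fun _ => hF, fun h => absurd hi h⟩
    · obtain ⟨h1, ⟨C⟩⟩ := hC i (hNT i hi)
      exact ⟨.inr ⟨cmFac (A i) (K i) C (hT i), fun h => h⟩,
        ⟨fun h => by simp at h, fun h => absurd h hi⟩, fun h => absurd h hi, fun _ => rfl⟩
  choose F hFl hFr hF0 using hF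
  have hB : ∀ v : Fin (2 * k) → HW (fun i => Fin (A i).g ⊕ Fin (A i).g) n,
      (∀ r, IsRatP n (fun i => pData (A i)) (v r)) →
      ∃ q : ℚ, α v = (2 * Real.pi * Complex.I) ^ k * q := by
    intro v hv
    apply hα2
    intro r i m
    exact (mem_pData_Q _ _).mp (hv r i m)
  have hsum : ∀ T : Finset (At n K), (∀ a ∈ T, (F a.1).isLeft) →
      ∑ a ∈ T, R4.dimA (toM' n α) F a ≤ 8 := by
    intro T hTl
    refine (R4.sum_dimA_le (toM' n α) T hTl).trans ?_
    have h1 : ∑ i, n i * (finrank ℚ (K i) * (F i).rk) = ∑ i ∈ S, n i * (2 * (A i).g) := by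
      rw [← Finset.sum_subset (Finset.subset_univ S) (fun i _ hi => by
        rw [hF0 i hi, mul_zero, mul_zero])]
      exact Finset.sum_congr rfl fun i hi => by rw [hFr i hi]
    rw [h1]
    have h2 : ∑ i ∈ S, n i * (2 * (A i).g) = 2 * ∑ i ∈ S, n i * (A i).g := by
      rw [Finset.mul_sum]
      exact Finset.sum_congr rfl fun i _ => by ring
    omega
  have hre : ∀ i, (F i).isLeft → ∀ σ : K i →+* ℂ, ComplexEmbedding.conjugate σ = σ := by
    intro i hi σ
    have := (hR i ((hFl i).mp hi)).1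
    exact ComplexEmbedding.isReal_iff.mp (IsTotallyReal.complexEmbedding_isReal σ)
  have hNE := relS_noExotic A F (toM' n α) hB hα1 S T hST hFl (fun i hi => (hR i hi).1) hC h
  have h1 := abstract_of_span n (fun i => pData (A i)) Complex.two_pi_I_ne_zero α hB hα1
    (family_L n (fun i => pData (A i)) F α Complex.two_pi_I_ne_zero hB hα1 hsum hre hNE)
  exact isDivisorial_of_span A n k α h1

end Pool.Agent.Helper7
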