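import Pool.Agent.Helper7.Pairing

/-!
Alternating forms with balanced coordinates are generated by 2-forms.
-/

namespace Pool.Agent.Helper7

open Module Equiv

variable {W : Type*} [AddCommGroup W] [Module ℂ W]

lemma alt_sum_apply {m : ℕ} {X : Type*} (t : Finset X) (f : X → W [⋀^Fin m]→ₗ[ℂ] ℂ)
    (v : Fin m → W) : (∑ x ∈ t, f x) v = ∑ x ∈ t, f x v := by
  let ev : (W [⋀^Fin m]→ₗ[ℂ] ℂ) →+ ℂ :=
    { toFun := fun ω => ω v, map_zero' := rfl, map_add' := fun _ _ => rfl }
  exact map_sum ev f t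

/-- product of coordinate functions -/
noncomputable def dualprod {B : Type*} (E : Basis B ℂ W) {m : ℕ} (s : Fin m → B) :
    MultilinearMap ℂ (fun _ : Fin m => W) ℂ :=
  (MultilinearMap.mkPiAlgebra ℂ (Fin m) ℂ).compLinearMap (fun r => E.coord (s r))

lemma dualprod_apply {B : Type*} (E : Basis B ℂ W) {m : ℕ} (s : Fin m → B) (v : Fin m → W) :
    dualprod E s v = ∏ r, E.coord (s r) (v r) := by
  simp [dualprod]

/-- tensor product of two coordinate functions -/
noncomputable def coordTensor {B : Type*} (E : Basis B ℂ W) (b b' : B) : W →ₗ[ℂ] W →ₗ[ℂ] ℂ :=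
  (LinearMap.mul ℂ ℂ).compl₁₂ (E.coord b) (E.coord b')

lemma coordTensor_apply {B : Type*} (E : Basis B ℂ W) (b b' : B) (x y : W) :
    coordTensor E b b' x y = E.coord b x * E.coord b' y := rfl

lemma dualprod_eq_prodBilin {B : Type*} (E : Basis B ℂ W) {k : ℕ} (s : Fin (2 * k) → B) :
    dualprod E s = prodBilin (fun a => coordTensor E (s (lo a)) (s (hi a))) := by
  ext v
  rw [dualprod_apply]
  simp only [prodBilin, MultilinearMap.coe_mk, coordTensor_apply]
  rw [Finset.prod_mul_distrib]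
  let e : Fin k ⊕ Fin k ≃ Fin (2 * k) := Equiv.ofBijective (Sum.elim lo hi) (by
    constructor
    · rintro (a | a) (b | b) h
      · exact congrArg _ (lo_inj h)
      · exact absurd h (lo_ne_hi _ _)
      · exact absurd h.symm (lo_ne_hi _ _)
      · exact congrArg _ (hi_inj h)
    · intro r
      obtain ⟨a, ha | ha⟩ := eq_lo_or_hi r
      · exact ⟨Sum.inl a, ha.symm⟩
      · exact ⟨Sum.inr a, ha.symm⟩)
  rw [← Fintype.prod_equiv e (fun x => E.coord (s (e x)) (v (e x))) _ (fun x => rfl),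
    Fintype.prod_sum_type]
  rfl

lemma alternating_expand {B : Type*} [Fintype B] (E : Basis B ℂ W) {m : ℕ}
    (α : W [⋀^Fin m]→ₗ[ℂ] ℂ) :
    (α : MultilinearMap ℂ (fun _ : Fin m => W) ℂ) =
      ∑ s : Fin m → B, α (fun r => E (s r)) • dualprod E s := by
  classical
  apply Basis.ext_multilinear (fun _ => E)
  intro t
  rw [MultilinearMap.sum_apply]
  rw [Finset.sum_eq_single t]
  · rw [MultilinearMap.smul_apply, dualprod_apply]
    simp
  · intro s _ hs
    rw [MultilinearMap.smul_apply, dualprod_apply]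
    obtain ⟨r, hr⟩ := Function.ne_iff.mp hs
    rw [Finset.prod_eq_zero (Finset.mem_univ r), smul_zero]
    rw [Basis.coord_apply, Basis.repr_self, Finsupp.single_eq_of_ne]
    exact hr
  · intro h; exact absurd (Finset.mem_univ _) h

lemma mem_span_wedge {B T : Type*} [Fintype B] [Fintype T] [DecidableEq T] (E : Basis B ℂ W)
    (p : B → T) (c : T → T) (hc : ∀ t, c (c t) = t) (hc' : ∀ t, c t ≠ t)
    (G : Set (W →ₗ[ℂ] W →ₗ[ℂ] ℂ))
    (hG : ∀ b b', p b' = c (p b) →
      coordTensor E b b' - (coordTensor E b b').flip ∈ Submodule.span ℂ G)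
    {k : ℕ} (α : W [⋀^Fin (2 * k)]→ₗ[ℂ] ℂ)
    (hα : ∀ s : Fin (2 * k) → B, α (fun r => E (s r)) ≠ 0 →
      ∀ t, Fintype.card {r // p (s r) = t} = Fintype.card {r // p (s r) = c t}) :
    α ∈ Submodule.span ℂ {ω | ∃ γ : Fin k → (W →ₗ[ℂ] W →ₗ[ℂ] ℂ),
      (∀ a, γ a ∈ G) ∧ ω = wedge γ} := by
  classical
  have h1 := congrArg MultilinearMap.alternatization (alternating_expand E α)
  rw [AlternatingMap.coe_alternatization, map_sum] at h1
  have h2 : (Nat.factorial (Fintype.card (Fin (2 * k)))) • α ∈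
      Submodule.span ℂ {ω | ∃ γ : Fin k → (W →ₗ[ℂ] W →ₗ[ℂ] ℂ),
      (∀ a, γ a ∈ G) ∧ ω = wedge γ} := by
    rw [h1]
    apply Submodule.sum_mem
    intro s _
    rw [alternatization_smul]
    by_cases hs : α (fun r => E (s r)) = 0
    · rw [hs, zero_smul]; exact Submodule.zero_mem _
    apply Submodule.smul_mem
    obtain ⟨π, hπ⟩ := exists_pairing c hc hc' (fun r => p (s r)) (hα s hs)
    have h3 : dualprod E s = (dualprod E (fun r => s (π r))).domDomCongr π := by
      ext v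
      rw [MultilinearMap.domDomCongr_apply, dualprod_apply, dualprod_apply]
      exact (Fintype.prod_equiv π _ _ (fun r => rfl)).symm
    rw [h3, alternatization_domDomCongr]
    have h4 : MultilinearMap.alternatization (dualprod E (fun r => s (π r))) ∈
        Submodule.span ℂ {ω | ∃ γ : Fin k → (W →ₗ[ℂ] W →ₗ[ℂ] ℂ),
        (∀ a, γ a ∈ G) ∧ ω = wedge γ} := by
      rw [dualprod_eq_prodBilin]
      exact wedge_mem_span G _ (fun a => hG _ _ (hπ a))
    rcases Int.units_eq_one_or (Equiv.Perm.sign π) with h | h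
    · rw [h, one_smul]; exact h4
    · rw [h, Units.neg_smul, one_smul]; exact Submodule.neg_mem _ h4
  rw [← Nat.cast_smul_eq_nsmul ℂ] at h2
  have h3 := Submodule.smul_mem _ (((Nat.factorial (Fintype.card (Fin (2 * k)))) : ℂ)⁻¹) h2
  rw [smul_smul, inv_mul_cancel₀ (Nat.cast_ne_zero.mpr (Nat.factorial_ne_zero _)), one_smul] at h3
  exact h3

/-- rational descent -/
lemma rational_descent {B : Type*} [Fintype B] (F : Basis B ℂ W) {m : ℕ} (κ : ℂ) (hκ : κ ≠ 0)
    (D : Set (W [⋀^Fin m]→ₗ[ℂ] ℂ))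
    (hD : ∀ ω ∈ D, ∀ s : Fin m → B, ∃ q : ℚ, ω (fun r => F (s r)) = κ * q)
    (α : W [⋀^Fin m]→ₗ[ℂ] ℂ) (hα : ∀ s : Fin m → B, ∃ q : ℚ, α (fun r => F (s r)) = κ * q)
    (h : α ∈ Submodule.span ℂ D) : α ∈ Submodule.span ℚ D := by
  -- a ℚ-linear retraction of `ℚ → ℂ`
  obtain ⟨p, hp⟩ : ∃ p : ℂ →ₗ[ℚ] ℚ, ∀ q : ℚ, p (q : ℂ) = q := by
    have hinj : LinearMap.ker (Algebra.linearMap ℚ ℂ) = ⊥ := by
      rw [LinearMap.ker_eq_bot]
      exact (algebraMap ℚ ℂ).injective
    obtain ⟨p, hp⟩ := LinearMap.exists_leftInverse_of_injective (Algebra.linearMap ℚ ℂ) hinj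
    refine ⟨p, fun q => ?_⟩
    have := congrArg (fun f => f q) hp
    simpa using this
  obtain ⟨c, t, htD, _, hsum⟩ := Submodule.mem_span_iff_exists_finset_subset.mp h
  have key : α = ∑ ω ∈ t, (p (c ω) : ℚ) • ω := by
    apply AlternatingMap.coe_multilinearMap_injective
    apply Basis.ext_multilinear (fun _ => F)
    intro s
    obtain ⟨q, hq⟩ := hα s
    have h1 : ∀ ω ∈ t, ∃ r : ℚ, ω (fun r => F (s r)) = κ * r := fun ω hω => hD ω (htD hω) s
    choose! r hr using h1
    have h2 : (q : ℂ) = ∑ ω ∈ t, c ω * (r ω : ℂ) := by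
      have h3 : α (fun r => F (s r)) = ∑ ω ∈ t, c ω * (κ * (r ω : ℂ)) := by
        rw [← hsum, alt_sum_apply]
        refine Finset.sum_congr rfl (fun ω hω => ?_)
        rw [AlternatingMap.smul_apply, hr ω hω, smul_eq_mul]
      rw [hq] at h3
      have h4 : κ * (q : ℂ) = κ * ∑ ω ∈ t, c ω * (r ω : ℂ) := by
        rw [h3, Finset.mul_sum]
        refine Finset.sum_congr rfl (fun ω _ => by ring)
      exact mul_left_cancel₀ hκ h4
    have h3 : q = ∑ ω ∈ t, p (c ω) * r ω := by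
      rw [← hp q, h2, map_sum]
      refine Finset.sum_congr rfl (fun ω _ => ?_)
      have : c ω * (r ω : ℂ) = (r ω) • c ω := by
        rw [mul_comm, Algebra.smul_def]; rfl
      rw [this, map_smul, smul_eq_mul, mul_comm]
    show α (fun r => F (s r)) = (∑ ω ∈ t, (p (c ω) : ℚ) • ω) (fun r => F (s r))
    rw [hq, h3, alt_sum_apply, Rat.cast_sum, Finset.mul_sum]
    refine Finset.sum_congr rfl (fun ω hω => ?_)
    rw [AlternatingMap.smul_apply, hr ω hω, Algebra.smul_def, Rat.cast_mul]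
    have : (algebraMap ℚ ℂ) (p (c ω)) = ((p (c ω) : ℚ) : ℂ) := rfl
    rw [this]; ring
  rw [key]
  exact Submodule.sum_mem _ (fun ω hω => Submodule.smul_mem _ _ (Submodule.subset_span (htD hω)))

end Pool.Agent.Helper7
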