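import Pool.Agent.Helper7.Nabla

/-!
Action of endomorphisms on multilinear forms; decomposition of complex vectors into rational ones.
-/

namespace Pool.Agent.Helper7

open Module

section act

variable {W : Type*} [AddCommGroup W] [Module ℂ W] {m : Type*} [Fintype m] [hm : DecidableEq m]

/-- infinitesimal action of an endomorphism on a multilinear form -/
noncomputable def actForm (L : Module.End ℂ W) (α : MultilinearMap ℂ (fun _ : m => W) ℂ) :
    MultilinearMap ℂ (fun _ : m => W) ℂ :=
  ∑ r, α.compLinearMap (fun r' => if r' = r then L else LinearMap.id)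

lemma actForm_apply (L : Module.End ℂ W) (α : MultilinearMap ℂ (fun _ : m => W) ℂ) (v : m → W) :
    actForm L α v = ∑ r, α (Function.update v r (L (v r))) := by
  rw [actForm, _root_.sum_apply]
  refine Finset.sum_congr rfl fun r _ => ?_
  rw [MultilinearMap.compLinearMap_apply]
  congr 1
  funext r'
  by_cases h : r' = r
  · subst h; rw [if_pos rfl, Function.update_self]
  · rw [if_neg h, Function.update_of_ne h]; rfl

lemma actForm_add (L M : Module.End ℂ W) (α : MultilinearMap ℂ (fun _ : m => W) ℂ) :
    actForm (L + M) α = actForm L α + actForm M α := by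
  ext v
  rw [_root_.add_apply, actForm_apply, actForm_apply, actForm_apply,
    ← Finset.sum_add_distrib]
  refine Finset.sum_congr rfl fun r _ => ?_
  rw [LinearMap.add_apply, MultilinearMap.map_update_add]

lemma actForm_smul (c : ℂ) (L : Module.End ℂ W) (α : MultilinearMap ℂ (fun _ : m => W) ℂ) :
    actForm (c • L) α = c • actForm L α := by
  ext v
  rw [_root_.smul_apply, actForm_apply, actForm_apply, Finset.smul_sum]
  refine Finset.sum_congr rfl fun r _ => ?_
  rw [LinearMap.smul_apply, MultilinearMap.map_update_smul]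

lemma actForm_smul_right (c : ℂ) (L : Module.End ℂ W) (α : MultilinearMap ℂ (fun _ : m => W) ℂ) :
    actForm L (c • α) = c • actForm L α := by
  ext v
  rw [_root_.smul_apply, actForm_apply, actForm_apply, Finset.smul_sum]
  refine Finset.sum_congr rfl fun r _ => ?_
  rw [_root_.smul_apply]

lemma actForm_zero (α : MultilinearMap ℂ (fun _ : m => W) ℂ) : actForm 0 α = 0 := by
  have := actForm_smul 0 0 α
  rwa [zero_smul, zero_smul] at this

lemma actForm_bracket (L M : Module.End ℂ W) (α : MultilinearMap ℂ (fun _ : m => W) ℂ) :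
    actForm (M * L - L * M) α = actForm L (actForm M α) - actForm M (actForm L α) := by
  ext v
  rw [_root_.sub_apply, actForm_apply, actForm_apply, actForm_apply]
  have h1 : ∀ (L M : Module.End ℂ W) (r : m), actForm M α (Function.update v r (L (v r))) =
      α (Function.update v r (M (L (v r)))) +
      ∑ r' ∈ Finset.univ.erase r,
        α (Function.update (Function.update v r (L (v r))) r' (M (v r'))) := by
    intro L M r
    rw [actForm_apply, ← Finset.add_sum_erase _ _ (Finset.mem_univ r)]
    congr 1
    · rw [Function.update_self, Function.update_idem]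
    · refine Finset.sum_congr rfl fun r' hr' => ?_
      rw [Function.update_of_ne (Finset.ne_of_mem_erase hr')]
  rw [Finset.sum_congr rfl (fun r _ => h1 L M r), Finset.sum_congr rfl (fun r _ => h1 M L r),
    Finset.sum_add_distrib, Finset.sum_add_distrib]
  have h2 : ∑ r, ∑ r' ∈ Finset.univ.erase r,
      α (Function.update (Function.update v r (L (v r))) r' (M (v r'))) =
      ∑ r, ∑ r' ∈ Finset.univ.erase r,
      α (Function.update (Function.update v r (M (v r))) r' (L (v r'))) := by
    rw [Finset.sum_sigma', Finset.sum_sigma']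
    refine Finset.sum_bij' (fun x _ => ⟨x.2, x.1⟩) (fun x _ => ⟨x.2, x.1⟩) ?_ ?_ ?_ ?_ ?_
    · rintro ⟨a, b⟩ h
      simp only [Finset.mem_sigma, Finset.mem_univ, Finset.mem_erase, true_and, and_true] at h ⊢
      exact Ne.symm h
    · rintro ⟨a, b⟩ h
      simp only [Finset.mem_sigma, Finset.mem_univ, Finset.mem_erase, true_and, and_true] at h ⊢
      exact Ne.symm h
    · rintro ⟨a, b⟩ _; rfl
    · rintro ⟨a, b⟩ _; rfl
    · rintro ⟨a, b⟩ h
      simp only [Finset.mem_sigma, Finset.mem_univ, Finset.mem_erase, true_and, and_true] at h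
      rw [Function.update_comm h]
  rw [h2]
  have h3 : ∑ r, α (Function.update v r ((M * L - L * M) (v r))) =
      ∑ r, α (Function.update v r (M (L (v r)))) - ∑ r, α (Function.update v r (L (M (v r)))) := by
    rw [← Finset.sum_sub_distrib]
    refine Finset.sum_congr rfl fun r _ => ?_
    rw [LinearMap.sub_apply, MultilinearMap.map_update_sub]
    rfl
  rw [h3]
  ring

end act

section rat

/-- finitely many complex numbers as combinations of rational ones, with independent
coefficients -/
lemma exists_rat_decomp {X : Type*} [Finite X] (x : X → ℂ) :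
    ∃ (m : ℕ) (c : Fin m → ℂ) (y : Fin m → X → ℚ), LinearIndependent ℚ c ∧
      ∀ j, x j = ∑ l, c l * (y l j : ℂ) := by
  classical
  have hfin : Module.Finite ℚ (Submodule.span ℚ (Set.range x)) :=
    Module.Finite.span_of_finite ℚ (Set.finite_range x)
  let bb := Module.finBasis ℚ (Submodule.span ℚ (Set.range x))
  refine ⟨_, fun l => (bb l : ℂ), fun l j => bb.repr ⟨x j, Submodule.subset_span ⟨j, rfl⟩⟩ l,
    ?_, ?_⟩
  · have h1 := bb.linearIndependent
    exact h1.map' (Submodule.subtype _) (Submodule.ker_subtype _)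
  · intro j
    have h1 := bb.sum_repr ⟨x j, Submodule.subset_span ⟨j, rfl⟩⟩
    have h2 := congrArg (Submodule.subtype _) h1
    rw [map_sum] at h2
    have h3 : (Submodule.subtype (Submodule.span ℚ (Set.range x)))
      ⟨x j, Submodule.subset_span ⟨j, rfl⟩⟩ = x j := rfl
    rw [h3] at h2
    rw [← h2]
    refine Finset.sum_congr rfl fun l _ => ?_
    rw [map_smul, Submodule.subtype_apply, Algebra.smul_def, mul_comm]
    rfl

lemma eq_zero_of_indep {m : ℕ} (c : Fin m → ℂ) (hc : LinearIndependent ℚ c) (t : ℂ) (ht : t ≠ 0)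
    (z : Fin m → ℂ) (hz : ∀ l, ∃ q : ℚ, z l = t * q) (h : ∑ l, c l * z l = 0) (l : Fin m) :
    z l = 0 := by
  choose q hq using hz
  have h1 : t * ∑ l, q l • c l = 0 := by
    rw [Finset.mul_sum, ← h]
    refine Finset.sum_congr rfl fun l _ => ?_
    rw [hq, Algebra.smul_def, eq_ratCast]
    ring
  have h2 : ∑ l, q l • c l = 0 := (mul_eq_zero.mp h1).resolve_left ht
  have h3 := (Fintype.linearIndependent_iff.mp hc) q h2 l
  rw [hq, h3]
  simp

lemma vec_eq_zero_of_indep {W : Type*} [AddCommGroup W] [Module ℂ W] [Module ℚ W]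
    [IsScalarTower ℚ ℂ W] {ι : Type*} [Fintype ι]
    (b : Basis ι ℂ W) {m : ℕ} (c : Fin m → ℂ) (hc : LinearIndependent ℚ c)
    (w : Fin m → W) (hw : ∀ l, w l ∈ Submodule.span ℚ (Set.range b)) (h : ∑ l, c l • w l = 0)
    (l : Fin m) : w l = 0 := by
  have h0 : ∀ v ∈ Submodule.span ℚ (Set.range b), ∀ i, ∃ q : ℚ, b.repr v i = 1 * q := by
    classical
    intro v hv i
    induction hv using Submodule.span_induction with
    | mem x hx =>
      obtain ⟨j, rfl⟩ := hx
      rw [Basis.repr_self]
      by_cases h : j = i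
      · subst h; exact ⟨1, by simp⟩
      · rw [Finsupp.single_eq_of_ne (Ne.symm h)]; exact ⟨0, by simp⟩
    | zero => exact ⟨0, by simp⟩
    | add x y _ _ hx hy =>
      obtain ⟨p, hp⟩ := hx
      obtain ⟨q, hq⟩ := hy
      refine ⟨p + q, ?_⟩
      rw [map_add, Finsupp.add_apply, hp, hq]; push_cast; ring
    | smul a x _ hx =>
      obtain ⟨p, hp⟩ := hx
      refine ⟨a * p, ?_⟩
      have h1 : a • x = (a : ℂ) • x := by
        rw [← algebraMap_smul ℂ a x]; rfl
      rw [h1, map_smul, Finsupp.smul_apply, hp, smul_eq_mul]; push_cast; ring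
  rw [← b.repr.map_eq_zero_iff]
  ext i
  refine eq_zero_of_indep c hc 1 one_ne_zero (fun l => b.repr (w l) i) (fun l => h0 _ (hw l) i)
    ?_ l
  have h1 := congrArg (fun v => b.repr v i) h
  simp only [map_sum, map_smul, map_zero, Finsupp.zero_apply, Finsupp.finsetSum_apply,
    Finsupp.smul_apply, smul_eq_mul] at h1
  exact h1

end rat

end Pool.Agent.Helper7
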