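import Pool.Agent.Helper7.FramesB
import Pool.Agent.Helper7.PreFrames

/-!
Adapting the coordinates to the conjugacy classes (version without the balance condition).
-/

namespace Pool.Agent.Helper7

open Matrix

/-- A Lie algebra acting through representations of dimension at most two. -/
structure PreFramesB (W : Type) [AddCommGroup W] [Module ℂ W] (Qs T G : Type) [Fintype Qs]
    [DecidableEq Qs] [AddCommGroup G] [Module ℂ G] where
  pl : Qs → T
  gl : T → Prop
  cj : T → T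
  cj_cj : ∀ t, cj (cj t) = t
  cj_ne : ∀ t, ¬ gl t → cj t ≠ t
  gl_cj : ∀ t, gl (cj t) ↔ gl t
  e : Qs → Fin 2 → W
  co : Qs → Fin 2 → (W →ₗ[ℂ] ℂ)
  L : G → Module.End ℂ W
  c : G →ₗ[ℂ] ℂ
  A : T → G →ₗ[ℂ] Matrix (Fin 2) (Fin 2) ℂ
  br : G → G → G
  hsum : ∀ v, v = ∑ q, ∑ j, co q j v • e q j
  co_e : ∀ q j q' j', (gl (pl q) ∨ j = 0) → co q j (e q' j') = if q = q' ∧ j = j' then 1 else 0
  e_one : ∀ q, ¬ gl (pl q) → e q 1 = 0
  act : ∀ X q j, L X (e q j) = ∑ j', A (pl q) X j' j • e q j'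
  co_act : ∀ X q j v, (gl (pl q) ∨ j = 0) → co q j (L X v) = ∑ j', A (pl q) X j j' * co q j' v
  tr : ∀ t X, gl t → (A t X).trace = c X
  cm : ∀ t X, ¬ gl t → A t X 0 1 = 0 ∧ A t X 0 0 + A (cj t) X 0 0 = c X
  hbr : ∀ t, gl t → ∀ X Y, A t (br X Y) = A t X * A t Y - A t Y * A t X
  hlam : ∀ t, ¬ gl t → ∀ X Y, A t (br X Y) 0 0 = 0
  hsurj : ∀ t, gl t → ∀ Z : Matrix (Fin 2) (Fin 2) ℂ, Z.trace = 0 → ∃ X, A t X = Z

namespace PreFramesB

variable {W : Type} [AddCommGroup W] [Module ℂ W] {Qs T G : Type} [Fintype Qs]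
    [DecidableEq Qs] [AddCommGroup G] [Module ℂ G] (S : PreFramesB W Qs T G)

/-- the places of the first kind -/
abbrev TG : Type := {t : T // S.gl t}

/-- the representations of dimension two -/
def AG (t : S.TG) : G →ₗ[ℂ] Matrix (Fin 2) (Fin 2) ℂ := S.A t.1

/-- the characters -/
def lamG (t : {t : T // ¬ S.gl t}) : G →ₗ[ℂ] ℂ :=
  (Matrix.entryLinearMap ℂ ℂ (0 : Fin 2) (0 : Fin 2)) ∘ₗ S.A t.1

lemma lamG_apply (t : {t : T // ¬ S.gl t}) (X : G) : S.lamG t X = S.A t.1 X 0 0 := rfl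

/-- classes -/
abbrev CG : Type := Quotient (conjSetoid S.AG)

/-- representatives -/
noncomputable def rp (t : S.TG) : S.TG := (Quotient.mk (conjSetoid S.AG) t).out

lemma rp_conj (t : S.TG) : ConjRep S.AG (S.rp t) t := by
  have h : (conjSetoid S.AG).r (Quotient.mk (conjSetoid S.AG) t).out t :=
    Quotient.exact (Quotient.out_eq _)
  exact h

/-- the conjugating matrices -/
noncomputable def cQ (t : S.TG) : Matrix (Fin 2) (Fin 2) ℂ := (S.rp_conj t).choose

lemma cQ_det (t : S.TG) : (S.cQ t).det ≠ 0 := (S.rp_conj t).choose_spec.1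

lemma cQ_spec (t : S.TG) (X : G) : S.A (S.rp t).1 X * S.cQ t = S.cQ t * S.A t.1 X :=
  (S.rp_conj t).choose_spec.2 X

open Classical in
/-- the conjugating matrices, extended -/
noncomputable def Qm (t : T) : Matrix (Fin 2) (Fin 2) ℂ := if h : S.gl t then S.cQ ⟨t, h⟩ else 1

open Classical in
/-- the matrices in adapted coordinates -/
noncomputable def A' (t : T) (X : G) : Matrix (Fin 2) (Fin 2) ℂ :=
  if h : S.gl t then S.A (S.rp ⟨t, h⟩).1 X else S.A t X

open Classical in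
/-- the class of a place -/
noncomputable def cls (t : T) : Option S.CG :=
  if h : S.gl t then some (Quotient.mk (conjSetoid S.AG) ⟨t, h⟩) else none

lemma Qm_det (t : T) : IsUnit (S.Qm t).det := by
  rw [isUnit_iff_ne_zero, Qm]
  split_ifs with h
  · exact S.cQ_det _
  · simp

lemma Qm_inv_mul (t : T) : (S.Qm t)⁻¹ * S.Qm t = 1 := Matrix.nonsing_inv_mul _ (S.Qm_det t)

lemma Qm_mul_inv (t : T) : S.Qm t * (S.Qm t)⁻¹ = 1 := Matrix.mul_nonsing_inv _ (S.Qm_det t)

lemma Qm_neg (t : T) (h : ¬ S.gl t) : S.Qm t = 1 := by rw [Qm, dif_neg h]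

lemma A'_neg (t : T) (h : ¬ S.gl t) (X : G) : S.A' t X = S.A t X := by rw [A', dif_neg h]

lemma A'_pos (t : T) (h : S.gl t) (X : G) : S.A' t X = S.A (S.rp ⟨t, h⟩).1 X := by
  rw [A', dif_pos h]

lemma Qm_spec (t : T) (X : G) : S.A' t X * S.Qm t = S.Qm t * S.A t X := by
  rw [A', Qm]
  split_ifs with h
  · exact S.cQ_spec ⟨t, h⟩ X
  · rw [mul_one, one_mul]

lemma Qm_spec' (t : T) (X : G) : S.A t X * (S.Qm t)⁻¹ = (S.Qm t)⁻¹ * S.A' t X := by
  have h1 : S.A t X = (S.Qm t)⁻¹ * S.A' t X * S.Qm t := by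
    rw [mul_assoc, Qm_spec, ← mul_assoc, Qm_inv_mul, one_mul]
  rw [h1, mul_assoc, Qm_mul_inv, mul_one]

/-- adapted vectors -/
noncomputable def e' (q : Qs) (j : Fin 2) : W := ∑ a, (S.Qm (S.pl q))⁻¹ a j • S.e q a

/-- adapted coordinates -/
noncomputable def co' (q : Qs) (j : Fin 2) : W →ₗ[ℂ] ℂ := ∑ a, S.Qm (S.pl q) j a • S.co q a

lemma co'_apply (q : Qs) (j : Fin 2) (v : W) :
    S.co' q j v = ∑ a, S.Qm (S.pl q) j a * S.co q a v := by
  rw [co', LinearMap.sum_apply]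
  rfl

lemma hsum' (v : W) : v = ∑ q, ∑ j, S.co' q j v • S.e' q j := by
  conv_lhs => rw [S.hsum v]
  refine Finset.sum_congr rfl fun q _ => ?_
  have h1 : ∀ a b, ∑ j, (S.Qm (S.pl q))⁻¹ b j * S.Qm (S.pl q) j a = if b = a then 1 else 0 := by
    intro a b
    rw [← Matrix.mul_apply, Qm_inv_mul, Matrix.one_apply]
  have h2 : ∑ j, S.co' q j v • S.e' q j = ∑ b, ∑ a,
      (∑ j, (S.Qm (S.pl q))⁻¹ b j * S.Qm (S.pl q) j a) • (S.co q a v • S.e q b) := by
    simp only [co'_apply, e', Fin.sum_univ_two]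
    module
  rw [h2]
  simp only [h1, ite_smul, one_smul, zero_smul, Finset.sum_ite_eq, Finset.mem_univ, if_true]

lemma co_e' (q : Qs) (j : Fin 2) (q' : Qs) (j' : Fin 2) (h : S.gl (S.pl q) ∨ j = 0) :
    S.co' q j (S.e' q' j') = if q = q' ∧ j = j' then 1 else 0 := by
  have hfin : ∀ j : Fin 2, j = 0 ∨ j = 1 := by
    intro j; fin_cases j <;> simp
  -- evaluation on the original vectors
  have h1 : ∀ b, S.co' q j (S.e q' b) = if q = q' then S.Qm (S.pl q) j b else 0 := by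
    intro b
    rw [co'_apply]
    by_cases hgl : S.gl (S.pl q)
    · have h2 : ∀ a, S.co q a (S.e q' b) = if q = q' ∧ a = b then 1 else 0 :=
        fun a => S.co_e _ _ _ _ (Or.inl hgl)
      simp only [h2]
      by_cases hq : q = q'
      · simp [hq]
      · simp [hq]
    · have hj : j = 0 := h.resolve_left hgl
      subst hj
      rw [Fin.sum_univ_two, S.Qm_neg _ hgl, S.co_e _ _ _ _ (Or.inr rfl)]
      by_cases hq : q = q'
      · rcases hfin b with hb | hb <;> subst hb <;> simp [hq]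
      · simp [hq]
  rw [e', map_sum]
  simp only [map_smul, smul_eq_mul, h1]
  by_cases hq : q = q'
  · subst hq
    simp only [if_true, true_and]
    have h2 : ∑ a, (S.Qm (S.pl q))⁻¹ a j' * S.Qm (S.pl q) j a =
        (S.Qm (S.pl q) * (S.Qm (S.pl q))⁻¹) j j' := by
      rw [Matrix.mul_apply]
      exact Finset.sum_congr rfl fun a _ => mul_comm _ _
    rw [h2, Qm_mul_inv, Matrix.one_apply]
  · simp [hq]

lemma act' (X : G) (q : Qs) (j : Fin 2) :
    S.L X (S.e' q j) = ∑ j', S.A' (S.pl q) X j' j • S.e' q j' := by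
  have h1 : S.L X (S.e' q j) = ∑ b, (S.A (S.pl q) X * (S.Qm (S.pl q))⁻¹) b j • S.e q b := by
    rw [e', map_sum]
    simp only [map_smul, S.act, Finset.smul_sum, smul_smul, Matrix.mul_apply, Finset.sum_smul]
    rw [Finset.sum_comm]
    refine Finset.sum_congr rfl fun b _ => Finset.sum_congr rfl fun a _ => ?_
    congr 1; ring
  rw [h1, Qm_spec']
  simp only [e', Finset.smul_sum, smul_smul, Matrix.mul_apply, Finset.sum_smul]
  rw [Finset.sum_comm]
  refine Finset.sum_congr rfl fun b _ => Finset.sum_congr rfl fun a _ => ?_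
  congr 1; ring

lemma co_act' (X : G) (q : Qs) (j : Fin 2) (v : W) (h : S.gl (S.pl q) ∨ j = 0) :
    S.co' q j (S.L X v) = ∑ j', S.A' (S.pl q) X j j' * S.co' q j' v := by
  have h1 : S.co' q j (S.L X v) = ∑ a, (S.Qm (S.pl q) * S.A (S.pl q) X) j a * S.co q a v := by
    rw [co'_apply]
    by_cases hgl : S.gl (S.pl q)
    · have h2 : ∀ a, S.co q a (S.L X v) = ∑ j', S.A (S.pl q) X a j' * S.co q j' v :=
        fun a => S.co_act _ _ _ _ (Or.inl hgl)
      simp only [h2, Finset.mul_sum, Matrix.mul_apply, Finset.sum_mul]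
      rw [Finset.sum_comm]
      refine Finset.sum_congr rfl fun b _ => Finset.sum_congr rfl fun a _ => by ring
    · have hj : j = 0 := h.resolve_left hgl
      subst hj
      rw [S.Qm_neg _ hgl, one_mul, Fin.sum_univ_two, S.co_act _ _ _ _ (Or.inr rfl)]
      simp
  rw [h1, ← Qm_spec]
  simp only [co'_apply, Finset.mul_sum, Matrix.mul_apply, Finset.sum_mul]
  rw [Finset.sum_comm]
  refine Finset.sum_congr rfl fun b _ => Finset.sum_congr rfl fun a _ => by ring

lemma central_aux [Fintype T] (X : G) (s : Finset S.TG) : ∃ X', S.c X' = S.c X ∧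
    (∀ t ∈ s, S.A t.1 X' = (S.c X / 2) • 1) ∧ ∀ t, ¬ S.gl t → S.A t X' 0 0 = S.A t X 0 0 := by
  classical
  induction s using Finset.induction_on with
  | empty => exact ⟨X, rfl, fun t ht => absurd ht (Finset.notMem_empty t), fun _ _ => rfl⟩
  | insert t s ht ih =>
    obtain ⟨X', h1, h2, h3⟩ := ih
    have hbr : ∀ (t : S.TG) X Y, S.AG t (S.br X Y) = S.AG t X * S.AG t Y - S.AG t Y * S.AG t X :=
      fun t X Y => S.hbr t.1 t.2 X Y
    have htr : ∀ (t : S.TG) X, (S.AG t X).trace = S.c X := fun t X => S.tr t.1 X t.2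
    have hsurj : ∀ (t : S.TG) (Z : Matrix (Fin 2) (Fin 2) ℂ), Z.trace = 0 → ∃ X, S.AG t X = Z :=
      fun t Z hZ => S.hsurj t.1 t.2 Z hZ
    have hlam : ∀ s X Y, S.lamG s (S.br X Y) = 0 := fun s X Y => S.hlam s.1 s.2 X Y
    obtain ⟨Y, hY1, hY2, hY3⟩ := goursat S.br S.AG S.c S.lamG hbr htr hsurj hlam t
      (S.AG t X' - (S.c X / 2) • 1) (by
        rw [trace_sub, htr, trace_smul, trace_one, Fintype.card_fin, h1, smul_eq_mul]
        push_cast; ring)
    have hcY : S.c Y = 0 := by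
      rw [← htr t, hY1, trace_sub, htr, trace_smul, trace_one, Fintype.card_fin, h1, smul_eq_mul]
      push_cast; ring
    have hkey : ∀ t', ConjRep S.AG t t' → S.AG t' (X' - Y) = (S.c X / 2) • 1 := by
      rintro t' ⟨Q, hQ, h⟩
      have h4 := h (X' - Y)
      rw [map_sub, hY1, sub_sub_cancel, smul_mul_assoc, one_mul] at h4
      have hu : IsUnit Q.det := isUnit_iff_ne_zero.mpr hQ
      have h5 : S.AG t' (X' - Y) = Q⁻¹ * (Q * S.AG t' (X' - Y)) := by
        rw [← mul_assoc, Matrix.nonsing_inv_mul _ hu, one_mul]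
      rw [h5, ← h4, mul_smul_comm, Matrix.nonsing_inv_mul _ hu]
    refine ⟨X' - Y, by rw [map_sub, hcY, h1, sub_zero], fun t' ht' => ?_, fun t' ht' => ?_⟩
    · by_cases hc : ConjRep S.AG t t'
      · exact hkey t' hc
      · rcases Finset.mem_insert.mp ht' with h | h
        · subst h
          exact absurd (ConjRep.refl _ _) hc
        · have h4 := hY2 t' hc
          have h5 : S.A t'.1 Y = 0 := h4
          rw [map_sub, h5, sub_zero]
          exact h2 t' h
    · have h4 := hY3 ⟨t', ht'⟩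
      rw [lamG_apply] at h4
      rw [map_sub, Matrix.sub_apply, h4, sub_zero, h3 t' ht']

/-- the adapted frames -/
noncomputable def toFrames [Fintype T] [DecidableEq T] : FramesB W Qs T (Option S.CG) G where
  pl := S.pl
  gl := S.gl
  cls := S.cls
  cj := S.cj
  cj_cj := S.cj_cj
  cj_ne := S.cj_ne
  gl_cj := S.gl_cj
  e := S.e'
  co := S.co'
  L := S.L
  c := S.c
  A := S.A'
  hsum := S.hsum'
  co_e := S.co_e'
  e_one q h := by
    rw [e', Fin.sum_univ_two, S.Qm_neg _ h, S.e_one q h]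
    simp
  act := S.act'
  co_act := S.co_act'
  tr t X h := by rw [S.A'_pos t h]; exact S.tr _ X (S.rp ⟨t, h⟩).2
  cm t X h := by
    rw [S.A'_neg t h, S.A'_neg (S.cj t) (fun h' => h ((S.gl_cj t).mp h'))]
    exact S.cm t X h
  same t t' X h h' hc := by
    rw [cls, cls, dif_pos h, dif_pos h', Option.some.injEq] at hc
    rw [S.A'_pos t h, S.A'_pos t' h', rp, rp, hc]
  sl := by
    classical
    intro t Z h hZ
    have hbr : ∀ (t : S.TG) X Y, S.AG t (S.br X Y) = S.AG t X * S.AG t Y - S.AG t Y * S.AG t X :=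
      fun t X Y => S.hbr t.1 t.2 X Y
    have htr : ∀ (t : S.TG) X, (S.AG t X).trace = S.c X := fun t X => S.tr t.1 X t.2
    have hsurj : ∀ (t : S.TG) (Z : Matrix (Fin 2) (Fin 2) ℂ), Z.trace = 0 → ∃ X, S.AG t X = Z :=
      fun t Z hZ => S.hsurj t.1 t.2 Z hZ
    have hlam : ∀ s X Y, S.lamG s (S.br X Y) = 0 := fun s X Y => S.hlam s.1 s.2 X Y
    obtain ⟨X, h1, h2, h3⟩ := goursat S.br S.AG S.c S.lamG hbr htr hsurj hlam (S.rp ⟨t, h⟩) Z hZ
    refine ⟨X, by rw [← htr (S.rp ⟨t, h⟩), h1, hZ], ?_, fun t' ht' hc => ?_, fun t' ht' => ?_⟩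
    · rw [S.A'_pos t h]; exact h1
    · rw [S.A'_pos t' ht']
      refine h2 (S.rp ⟨t', ht'⟩) fun hcon => hc ?_
      rw [cls, cls, dif_pos h, dif_pos ht', Option.some.injEq]
      apply Quotient.sound (s := conjSetoid S.AG)
      exact ConjRep.trans _ (ConjRep.symm _ (S.rp_conj ⟨t', ht'⟩))
        (ConjRep.trans _ (ConjRep.symm _ hcon) (S.rp_conj ⟨t, h⟩))
    · rw [S.A'_neg t' ht']
      exact h3 ⟨t', ht'⟩
  central := by
    classical
    intro X
    obtain ⟨X', h1, h2, h3⟩ := S.central_aux X Finset.univ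
    refine ⟨X', h1, fun t ht => ?_, fun t ht => ?_⟩
    · rw [S.A'_pos t ht]; exact h2 _ (Finset.mem_univ _)
    · rw [S.A'_neg t ht, S.A'_neg t ht]; exact h3 t ht

end PreFramesB

end Pool.Agent.Helper7
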