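import Pool.Agent.Helper7.Family3
import Pool.Agent.Helper7.PreFramesB

/-!
The theorem on invariants of a family of factors of the first kind (`GL_2`-type) and of CM type,
under a condition which only concerns the relations between weights which can occur.
-/

namespace Pool.Agent.Helper7

open Module NumberField

section family

variable {I : Type} [Fintype I] [DecidableEq I] (n : I → ℕ)
  {κ : I → Type} [∀ i, Fintype (κ i)] [∀ i, DecidableEq (κ i)] {ϖ : ℂ}
  (P : ∀ i, PData (κ i) ϖ)

section mult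

variable {K : I → Type} [∀ i, Field (K i)] [∀ i, NumberField (K i)]
  (F : ∀ i, Fac (P i) (K i))
  {k : ℕ} (α : MultilinearMap ℂ (fun _ : Fin (2 * k) => HW κ n) ℂ)
  (hϖ : ϖ ≠ 0)
  (hB : ∀ v : Fin (2 * k) → HW κ n, (∀ r, IsRatP n P (v r)) → ∃ q : ℚ, α v = ϖ ^ k * q)
  (hA : ∀ v : Fin (2 * k) → HW κ n, (∀ r i m j, IsAlgebraic ℚ (v r i m j)) →
      IsAlgebraic ℚ (α v))

open Classical in
/-- the frames of the family, without the balance condition -/
noncomputable def preFramesB : PreFramesB (HW κ n) (Σ i, Fin (n i) × (K i →+* ℂ))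
    (Σ i, (K i →+* ℂ)) (gSub n P α) where
  pl q := ⟨q.1, q.2.2⟩
  gl t := (F t.1).gl
  cj := conjT
  cj_cj := conjT_conjT
  cj_ne := by
    rintro ⟨i, σ⟩ h h'
    exact (F i).not_real h σ (sigma_mk_injective (β := fun i => (K i →+* ℂ)) h')
  gl_cj t := Iff.rfl
  e q j := slotL n q.1 q.2.1 ((F q.1).e q.2.2 j)
  co q j := ((F q.1).lf.co q.2.2 j) ∘ₗ prL n q.1 q.2.1
  L X := lift n X.1.1
  c := (LinearMap.snd ℂ ((i : I) → Module.End ℂ (κ i → ℂ)) ℂ) ∘ₗ (gSub n P α).subtype
  A t := ((F t.1).mat t.2) ∘ₗ (LinearMap.proj t.1) ∘ₗ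
      (LinearMap.fst ℂ ((i : I) → Module.End ℂ (κ i → ℂ)) ℂ) ∘ₗ (gSub n P α).subtype
  br X Y := ⟨X.1 * Y.1 - Y.1 * X.1, IsInv.bracket n P α X.2 Y.2⟩
  hsum v := by
    conv_lhs => rw [← sum_slot n v]
    rw [Fintype.sum_sigma]
    refine Finset.sum_congr rfl fun i _ => ?_
    rw [Fintype.sum_prod_type]
    refine Finset.sum_congr rfl fun m _ => ?_
    conv_lhs => rw [(F i).hsum (v i m)]
    rw [map_sum]
    refine Finset.sum_congr rfl fun σ _ => ?_
    rw [map_sum]
    refine Finset.sum_congr rfl fun j _ => ?_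
    rw [map_smul]
    rfl
  co_e := by
    rintro ⟨i, m, σ⟩ j ⟨i', m', σ'⟩ j' h
    show (F i).lf.co σ j (prL n i m (slotL n i' m' ((F i').e σ' j'))) = _
    by_cases hi : i = i'
    · subst hi
      by_cases hm : m = m'
      · subst hm
        rw [prL_slotL, (F i).co_e _ _ _ _ h]
        have h1 : ((⟨i, m, σ⟩ : Σ i, Fin (n i) × (K i →+* ℂ)) = ⟨i, m, σ'⟩ ∧ j = j') ↔
            (σ = σ' ∧ j = j') := by
          constructor
          · rintro ⟨h1, h2⟩
            have h3 := sigma_mk_injective (β := fun i => Fin (n i) × (K i →+* ℂ)) h1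
            exact ⟨(Prod.mk.inj h3).2, h2⟩
          · rintro ⟨rfl, h2⟩; exact ⟨rfl, h2⟩
        simp only [h1]
      · rw [prL_slotL_ne n i m' m hm, map_zero, if_neg]
        rintro ⟨h1, -⟩
        have h3 := sigma_mk_injective (β := fun i => Fin (n i) × (K i →+* ℂ)) h1
        exact hm (Prod.mk.inj h3).1
    · rw [prL_slotL_ne' n i' i m' m hi, map_zero, if_neg]
      rintro ⟨h1, -⟩
      exact hi (congrArg Sigma.fst h1)
  e_one := by
    rintro ⟨i, m, σ⟩ h
    show slotL n i m ((F i).e σ 1) = 0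
    rw [(F i).e_one h, map_zero]
  act := by
    rintro X ⟨i, m, σ⟩ j
    show lift n X.1.1 (slotL n i m ((F i).e σ j)) =
      ∑ a, (F i).mat σ (X.1.1 i) a j • slotL n i m ((F i).e σ a)
    rw [lift_slot, (IsInv.Comm n P F α X.2 i).act, map_sum]
    exact Finset.sum_congr rfl fun a _ => map_smul _ _ _
  co_act := by
    rintro X ⟨i, m, σ⟩ j v h
    exact (IsInv.Comm n P F α X.2 i).co_act σ j (v i m) h
  tr := by
    rintro ⟨i, σ⟩ X h
    exact (F i).trace_eq h _ (IsInv.Comm n P F α X.2 i) _ (IsInv.pol X.2 i) σ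
  cm := by
    rintro ⟨i, σ⟩ X h
    exact ⟨(F i).mat_neg h _ σ, (F i).char_eq h _ (IsInv.Comm n P F α X.2 i) _
      (IsInv.pol X.2 i) σ⟩
  hbr := by
    rintro ⟨i, σ⟩ h X Y
    show (F i).mat σ (X.1.1 i * Y.1.1 i - Y.1.1 i * X.1.1 i) = _
    rw [map_sub, (IsInv.Comm n P F α X.2 i).mat_mul (IsInv.Comm n P F α Y.2 i) h,
      (IsInv.Comm n P F α Y.2 i).mat_mul (IsInv.Comm n P F α X.2 i) h]
    rfl
  hlam := by
    rintro ⟨i, σ⟩ h X Y
    show (F i).mat σ (X.1.1 i * Y.1.1 i - Y.1.1 i * X.1.1 i) 0 0 = 0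
    rw [map_sub, Matrix.sub_apply,
      (IsInv.Comm n P F α X.2 i).mat_mul0 (IsInv.Comm n P F α Y.2 i) h,
      (IsInv.Comm n P F α Y.2 i).mat_mul0 (IsInv.Comm n P F α X.2 i) h, mul_comm, sub_self]
  hsurj := by
    rintro ⟨i, σ⟩ h Z hZ
    obtain ⟨X, hX, hXZ⟩ := sl_surj n P F α hϖ hB hA i h σ Z hZ
    exact ⟨⟨X, hX⟩, hXZ⟩

/-- the counting function of the slots is a relation between the weights -/
lemma count_mem_relSub (k' : ℕ) (p : Fin (2 * k') → (Σ i, (K i →+* ℂ)))
    (hp : ∀ X, IsInv n P α X → ∑ r, wt P F (p r) X = k' * X.2) :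
    (open Classical in (fun t => ((Finset.univ.filter (fun r => p r = t)).card : ℚ) -
      (Finset.univ.filter (fun r => p r = conjT t)).card) ∈ relSub n P F α) := by
  classical
  let u : (Σ i, (K i →+* ℂ)) → ℚ := fun t =>
    ((Finset.univ.filter (fun r => p r = t)).card : ℚ) -
      (Finset.univ.filter (fun r => p r = conjT t)).card
  have hu : u ∈ relSub n P F α := by
    rw [mem_relSub]
    refine ⟨fun t => ?_, fun X hX _ => ?_⟩
    · simp only [u, conjT_conjT]; ring
    · have h1 : ∀ (g : (Σ i, (K i →+* ℂ)) → ℂ),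
          ∑ t, ((Finset.univ.filter (fun r => p r = t)).card : ℂ) * g t = ∑ r, g (p r) := by
        intro g
        have h2 : ∀ t, ((Finset.univ.filter (fun r => p r = t)).card : ℂ) * g t =
            ∑ r, (if p r = t then g t else 0) := by
          intro t
          rw [Finset.card_filter]
          push_cast
          rw [Finset.sum_mul]
          exact Finset.sum_congr rfl fun r _ => by split_ifs <;> simp
        simp only [h2]
        rw [Finset.sum_comm]
        refine Finset.sum_congr rfl fun r _ => ?_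
        rw [Finset.sum_ite_eq Finset.univ]
        simp
      let cE : (Σ i, (K i →+* ℂ)) ≃ (Σ i, (K i →+* ℂ)) :=
        ⟨conjT, conjT, conjT_conjT, conjT_conjT⟩
      have h3 : ∑ t, ((Finset.univ.filter (fun r => p r = conjT t)).card : ℂ) * wt P F t X =
          ∑ r, wt P F (conjT (p r)) X := by
        rw [← h1 (fun t => wt P F (conjT t) X)]
        refine Fintype.sum_equiv cE _ _ fun t => ?_
        show _ = ((Finset.univ.filter (fun r => p r = conjT t)).card : ℂ) *
          wt P F (conjT (conjT t)) X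
        rw [conjT_conjT]
      have h4 : ∑ r, wt P F (conjT (p r)) X = k' * X.2 := by
        have h5 : ∑ r, (wt P F (p r) X + wt P F (conjT (p r)) X) = ∑ _r : Fin (2 * k'), X.2 :=
          Finset.sum_congr rfl fun r _ => wt_conj n P F α (p r) X hX
        rw [Finset.sum_add_distrib, hp X hX, Finset.sum_const, Finset.card_univ,
          Fintype.card_fin, nsmul_eq_mul] at h5
        push_cast at h5
        linear_combination h5
      simp only [u, Rat.cast_sub, Rat.cast_natCast, sub_mul, Finset.sum_sub_distrib]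
      rw [h1 (fun t => wt P F t X), h3, h4, hp X hX, sub_self]
  exact hu

end mult

/-- the number of values of an even symmetric function -/
lemma even_sum_of_symm {T : Type*} [DecidableEq T] (N : Finset T) (c : T → T) (hc : ∀ t, c (c t) = t)
    (hN : ∀ t ∈ N, c t ∈ N) (hne : ∀ t ∈ N, c t ≠ t) (f : T → ℤ) (hf : ∀ t ∈ N, f (c t) = f t) :
    ∃ m : ℤ, ∑ t ∈ N, f t = 2 * m := by
  have h1 : ∑ t ∈ N, (f t : ZMod 2) = 0 := by
    refine Finset.sum_involution (fun t _ => c t) (fun t ht => ?_) (fun t ht _ => hne t ht)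
      (fun t ht => hN t ht) (fun t ht => hc t)
    show (f t : ZMod 2) + (f (c t) : ZMod 2) = 0
    rw [hf t ht]
    exact CharTwo.add_self_eq_zero _
  have h2 : ((∑ t ∈ N, f t : ℤ) : ZMod 2) = 0 := by
    rw [Int.cast_sum]; exact h1
  obtain ⟨m, hm⟩ := (ZMod.intCast_zmod_eq_zero_iff_dvd _ 2).mp h2
  exact ⟨m, hm⟩

section alt

variable {K : I → Type} [∀ i, Field (K i)] [∀ i, NumberField (K i)]
  (F : ∀ i, Fac (P i) (K i))
  {k : ℕ} (α : (HW κ n) [⋀^Fin (2 * k)]→ₗ[ℂ] ℂ)
  (hϖ : ϖ ≠ 0)
  (hB : ∀ v : Fin (2 * k) → HW κ n, (∀ r, IsRatP n P (v r)) → ∃ q : ℚ, α v = ϖ ^ k * q)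
  (hA : ∀ v : Fin (2 * k) → HW κ n, (∀ r i m j, IsAlgebraic ℚ (v r i m j)) →
      IsAlgebraic ℚ (α v))

include F hϖ hB hA in
theorem family_fft_B (hNE : ∀ z : (Σ i, (K i →+* ℂ)) → ℤ,
      (fun t => (z t : ℚ)) ∈ relSub n P F (α : MultilinearMap ℂ (fun _ : Fin (2 * k) => HW κ n) ℂ) →
      (∀ t, |z t| ≤ n t.1) → (∃ m : ℤ, ∑ t, |z t| = 4 * m) → ∀ t, ¬ (F t.1).gl → z t = 0) :
    (α : MultilinearMap ℂ (fun _ : Fin (2 * k) => HW κ n) ℂ) ∈ Submodule.span ℂ
    {M | ∃ (π : Equiv.Perm (Fin (2 * k))) (β : Fin k → (HW κ n →ₗ[ℂ] HW κ n →ₗ[ℂ] ℂ)),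
      (∀ a, β a ∈ invB n P (α : MultilinearMap ℂ (fun _ : Fin (2 * k) => HW κ n) ℂ)) ∧
        M = (prodBilin β).domDomCongr π} := by
  classical
  let α' : MultilinearMap ℂ (fun _ : Fin (2 * k) => HW κ n) ℂ := α.toMultilinearMap
  set S' := preFramesB n P F α' hϖ hB hA with hS'
  set S := S'.toFrames with hS
  have h1 := S.main_fft α' (fun X v => by
    have h2 := X.2.form
    have h3 := congrArg (fun g => g v) h2
    simp only [actForm_apply, _root_.smul_apply, smul_eq_mul] at h3
    exact h3) (by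
    rintro p ⟨j, hj⟩ heven hw t ht
    have hfin : ∀ j : Fin 2, j = 0 ∨ j = 1 := by
      intro j; fin_cases j <;> simp
    -- the places
    let q : Fin (2 * k) → (Σ i, (K i →+* ℂ)) := fun r => ⟨(p r).1, (p r).2.2⟩
    have hpl : ∀ r, S.pl (p r) = q r := fun r => rfl
    have hglq : ∀ t : (Σ i, (K i →+* ℂ)), S.gl t ↔ (F t.1).gl := fun t => Iff.rfl
    have hj0 : ∀ r, ¬ (F (q r).1).gl → j r = 0 := by
      intro r hr
      rcases hfin (j r) with h | h
      · exact h
      · exfalso
        apply hj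
        apply α'.map_coord_zero r
        show S.e (p r) (j r) = 0
        rw [h]
        exact S.e_one _ hr
    have hinj : ∀ r r', ¬ (F (q r).1).gl → p r = p r' → r = r' := by
      intro r r' hr h
      by_contra hne
      have hr' : ¬ (F (q r').1).gl := by
        have h2 : q r' = q r := congrArg
          (fun a : (Σ i, Fin (n i) × (K i →+* ℂ)) => (⟨a.1, a.2.2⟩ : Σ i, (K i →+* ℂ))) h.symm
        rw [h2]; exact hr
      apply hj
      refine α.map_eq_zero_of_eq _ ?_ hne
      show S.e (p r) (j r) = S.e (p r') (j r')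
      rw [hj0 r hr, hj0 r' hr', h]
    have hwt : ∀ X, IsInv n P α' X → ∑ r, wt P F (q r) X = k * X.2 := by
      intro X hX
      have h2 := hw ⟨X, hX⟩
      have h3 : S.c ⟨X, hX⟩ = X.2 := rfl
      rw [h3] at h2
      rw [← h2]
      refine Finset.sum_congr rfl fun r _ => ?_
      rw [wt]
      by_cases h4 : (F (q r).1).gl
      · rw [if_pos h4]
        have h5 : S.gl (S.pl (p r)) := h4
        rw [if_pos h5]
      · rw [if_neg h4]
        have h5 : ¬ S.gl (S.pl (p r)) := h4
        rw [if_neg h5]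
        have h6 : S.A (S.pl (p r)) ⟨X, hX⟩ = S'.A (S.pl (p r)) ⟨X, hX⟩ := S'.A'_neg _ h5 _
        rw [h6]
        rfl
    obtain ⟨c, hc⟩ : ∃ c : (Σ i, (K i →+* ℂ)) → ℕ, ∀ t, c t =
        (Finset.univ.filter (fun r => q r = t)).card := ⟨_, fun _ => rfl⟩
    let z : (Σ i, (K i →+* ℂ)) → ℤ := fun t => (c t : ℤ) - c (conjT t)
    have hz0 : ∀ t, (F t.1).gl → z t = 0 := by
      rintro ⟨i, σ⟩ h
      have h2 : conjT (⟨i, σ⟩ : Σ i, (K i →+* ℂ)) = ⟨i, σ⟩ := by
        show (⟨i, ComplexEmbedding.conjugate σ⟩ : Σ i, (K i →+* ℂ)) = ⟨i, σ⟩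
        rw [(F i).real_of_gl h σ]
      simp only [z, h2, sub_self]
    have hcn : ∀ t, ¬ (F t.1).gl → c t ≤ n t.1 := by
      intro t ht
      rw [hc]
      have hsub : (Finset.univ.filter (fun r => q r = t)).image p ⊆
          Finset.univ.image (fun m : Fin (n t.1) =>
            (⟨t.1, m, t.2⟩ : Σ i, Fin (n i) × (K i →+* ℂ))) := by
        intro a ha
        obtain ⟨r, hr, rfl⟩ := Finset.mem_image.mp ha
        have h2 := (Finset.mem_filter.mp hr).2
        simp only [q] at h2
        generalize p r = a at h2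
        obtain ⟨i, m, σ⟩ := a
        subst h2
        exact Finset.mem_image.mpr ⟨m, Finset.mem_univ _, rfl⟩
      calc (Finset.univ.filter (fun r => q r = t)).card
          = ((Finset.univ.filter (fun r => q r = t)).image p).card := by
            refine (Finset.card_image_of_injOn ?_).symm
            intro r hr r' _ h
            have h2 := (Finset.mem_filter.mp (Finset.mem_coe.mp hr)).2
            exact hinj r r' (by rw [h2]; exact ht) h
        _ ≤ _ := Finset.card_le_card hsub
        _ ≤ _ := Finset.card_image_le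
        _ = n t.1 := by rw [Finset.card_univ, Fintype.card_fin]
    have hzn : ∀ t, |z t| ≤ n t.1 := by
      intro t
      by_cases h : (F t.1).gl
      · rw [hz0 t h]; simp
      · have h2 := hcn t h
        have h3 : c (conjT t) ≤ n t.1 := hcn (conjT t) h
        simp only [z]
        rw [abs_le]
        constructor <;> omega
    have hzU : (fun t => (z t : ℚ)) ∈ relSub n P F α' := by
      have h2 := count_mem_relSub n P F α' k q hwt
      have h3 : (fun t => (z t : ℚ)) = fun t => ((Finset.univ.filter (fun r => q r = t)).card : ℚ) -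
          (Finset.univ.filter (fun r => q r = conjT t)).card := by
        funext t
        simp only [z, hc]
        push_cast
        rfl
      rw [h3]
      exact h2
    -- parity
    have hpar : ∃ m : ℤ, ∑ t, |z t| = 4 * m := by
      let N : Finset (Σ i, (K i →+* ℂ)) := Finset.univ.filter (fun t => ¬ (F t.1).gl)
      have hNc : ∀ t ∈ N, conjT t ∈ N := by
        intro t ht
        rw [Finset.mem_filter] at ht ⊢
        exact ⟨Finset.mem_univ _, ht.2⟩
      have hNne : ∀ t ∈ N, conjT t ≠ t := by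
        rintro ⟨i, σ⟩ ht h
        exact (F i).not_real (Finset.mem_filter.mp ht).2 σ
          (sigma_mk_injective (β := fun i => (K i →+* ℂ)) h)
      have e1 : ∑ t, |z t| = ∑ t ∈ N, |z t| := by
        symm
        refine Finset.sum_subset (Finset.subset_univ _) fun t _ ht => ?_
        rw [Finset.mem_filter, not_and, not_not] at ht
        rw [hz0 t (ht (Finset.mem_univ _)), abs_zero]
      have e2 : ∀ t, |z t| = (c t : ℤ) + c (conjT t) - 2 * ((min (c t) (c (conjT t)) : ℕ) : ℤ) := by
        intro t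
        simp only [z]
        rcases le_total (c t) (c (conjT t)) with h | h
        · rw [min_eq_left h, abs_of_nonpos (by omega)]; ring
        · rw [min_eq_right h, abs_of_nonneg (by omega)]; ring
      obtain ⟨m1, hm1⟩ := even_sum_of_symm N conjT conjT_conjT hNc hNne
        (fun t => ((min (c t) (c (conjT t)) : ℕ) : ℤ)) (fun t _ => by
          show ((min (c (conjT t)) (c (conjT (conjT t))) : ℕ) : ℤ) = _
          rw [conjT_conjT, min_comm])
      -- the number of slots of the second kind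
      have e3 : ∑ t ∈ N, (c (conjT t) : ℤ) = ∑ t ∈ N, (c t : ℤ) := by
        refine Finset.sum_nbij' conjT conjT hNc hNc (fun t _ => conjT_conjT t)
          (fun t _ => conjT_conjT t) (fun t _ => rfl)
      have e4 : ∑ t ∈ N, (c t : ℤ) = 2 * k - (S.glSlots p).card := by
        have h2 : ∑ t ∈ N, c t = (Finset.univ.filter (fun r => ¬ (F (q r).1).gl)).card := by
          rw [Finset.card_eq_sum_card_fiberwise (f := q) (t := N) (fun r hr => by
            rw [Finset.mem_coe, Finset.mem_filter] at hr ⊢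
            exact ⟨Finset.mem_univ _, hr.2⟩)]
          refine Finset.sum_congr rfl fun t ht => ?_
          rw [hc]
          congr 1
          ext r
          simp only [Finset.mem_filter, Finset.mem_univ, true_and]
          constructor
          · intro h
            exact ⟨by rw [h]; exact (Finset.mem_filter.mp ht).2, h⟩
          · intro h; exact h.2
        have h3 : (S.glSlots p).card +
            (Finset.univ.filter (fun r => ¬ (F (q r).1).gl)).card = 2 * k := by
          have h4 : S.glSlots p = Finset.univ.filter (fun r => (F (q r).1).gl) := by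
            ext r
            rw [S.mem_glSlots, Finset.mem_filter]
            exact ⟨fun h => ⟨Finset.mem_univ _, h⟩, fun h => h.2⟩
          rw [h4, Finset.card_filter_add_card_filter_not, Finset.card_univ, Fintype.card_fin]
        have h5 : ((∑ t ∈ N, c t : ℕ) : ℤ) = ∑ t ∈ N, (c t : ℤ) := by push_cast; rfl
        rw [← h5, h2]
        omega
      obtain ⟨m2, hm2⟩ := heven
      refine ⟨k - m2 - m1, ?_⟩
      rw [e1, Finset.sum_congr rfl fun t _ => e2 t, Finset.sum_sub_distrib,
        Finset.sum_add_distrib, ← Finset.mul_sum, e3, e4, hm1, hm2]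
      push_cast
      ring
    have h2 := hNE z hzU hzn hpar t ht
    have h3 : c t = c (conjT t) := by
      simp only [z] at h2
      omega
    rw [hc, hc] at h3
    exact h3)
  refine Submodule.span_mono ?_ h1
  rintro M ⟨π, β, hβ, hM⟩
  exact ⟨π, β, fun a X hX u v => hβ a ⟨X, hX⟩ u v, hM⟩

end alt

end family

end Pool.Agent.Helper7
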