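import Pool.Agent.Helper7.Periods
import Pool.Agent.Helper7.Wedge
import Pool.Agent.Helper7.Final

/-!
From abelian varieties with complex multiplication to the abstract data.
-/

open scoped ComplexConjugate

namespace Pool.Agent.Helper7

open Module NumberField Pool.Agent.GPC

/-- the transcendence input -/
def NotProportional (A : AbVar) : Prop :=
  ∀ l ∈ A.Λ, l ≠ 0 → ¬ ∃ (w : ℂ) (v : Fin A.g ⊕ Fin A.g → ℂ),
    (∀ i, IsAlgebraic ℚ (v i)) ∧ A.period l = w • v

/-- the action as ring homomorphism -/
noncomputable def cmRho {A : AbVar} {L : Type} [Field L] [NumberField L] [IsCMField L]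
    (C : CM A L) : L →+* Module.End ℂ A.H1 where
  toFun x := IsLinearMap.mk' _ (C.endo x).linear
  map_one' := LinearMap.ext C.one
  map_mul' x y := LinearMap.ext (C.mul x y)
  map_add' x y := LinearMap.ext (C.add x y)
  map_zero' := LinearMap.ext fun v => by
    have h := C.add 0 0 v
    rw [add_zero] at h
    have h2 : C.ρ 0 v = 0 := by
      have h3 := congrArg (fun w => w - C.ρ 0 v) h
      simp only [sub_self, add_sub_cancel_right] at h3
      exact h3.symm
    exact h2

lemma cmRho_apply {A : AbVar} {L : Type} [Field L] [NumberField L] [IsCMField L]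
    (C : CM A L) (x : L) (v : A.H1) : cmRho C x v = C.ρ x v := rfl

/-- the abstract data of an abelian variety with complex multiplication -/
noncomputable def cmData (A : AbVar) (L : Type) [Field L] [NumberField L] [IsCMField L]
    (C : CM A L) (hT : NotProportional A) :
    CMData L (Fin A.g ⊕ Fin A.g) (2 * Real.pi * Complex.I) where
  ι := (exists_bettiBasis A).choose
  fι := (exists_bettiBasis A).choose_spec.choose
  bB := (exists_bettiBasis A).choose_spec.choose_spec.choose
  ρ := cmRho C
  hρQ := by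
    rw [(exists_bettiBasis A).choose_spec.choose_spec.choose_spec]
    intro x v hv
    rw [← isBetti_iff] at hv ⊢
    exact (C.endo x).betti v hv
  hdeg := by
    rw [C.degree]
    simp [two_mul]
  hρalg x i j := (C.endo x).deRham _ (fun j => by
    by_cases h : j = i
    · subst h; rw [Pi.single_eq_same]; exact isAlgebraic_one
    · rw [Pi.single_eq_of_ne h]; exact isAlgebraic_zero) j
  ψ := A.polForm
  hψalg i j := by
    have h1 : ∀ i j : Fin A.g ⊕ Fin A.g, IsAlgebraic ℚ ((Pi.single i 1 : A.H1) j) := by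
      intro i j
      by_cases h : j = i
      · subst h; rw [Pi.single_eq_same]; exact isAlgebraic_one
      · rw [Pi.single_eq_of_ne h]; exact isAlgebraic_zero
    exact polForm_alg A _ _ (h1 i) (h1 j)
  hψQ := by
    rw [(exists_bettiBasis A).choose_spec.choose_spec.choose_spec]
    exact fun u hu v hv => polForm_rat A u v hu hv
  hψnd := polForm_nondeg A
  hψalt := polForm_antisymm A
  cc := cmConj L
  hcc σ x := IsCMField.complexEmbedding_complexConj L σ x
  hros x u v := C.rosati x u v
  hreal σ h := IsTotallyComplex.complexEmbedding_not_isReal σ h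
  hT := by
    rw [(exists_bettiBasis A).choose_spec.choose_spec.choose_spec]
    rintro v hv hv0 ⟨w, u, hu, hvu⟩
    obtain ⟨N, l, hN, hl, hNl⟩ := betti_eq_period A v hv
    have hNC : (N : ℂ) ≠ 0 := Nat.cast_ne_zero.mpr hN
    refine hT l hl ?_ ⟨N * w, u, hu, ?_⟩
    · rintro rfl
      apply hv0
      have h1 : A.period 0 = 0 := map_zero (periodHom A)
      rw [h1, smul_eq_zero] at hNl
      exact hNl.resolve_left hNC
    · rw [← hNl, hvu, smul_smul]

lemma cmData_span (A : AbVar) (L : Type) [Field L] [NumberField L] [IsCMField L]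
    (C : CM A L) (hT : NotProportional A) :
    Submodule.span ℚ (Set.range (cmData A L C hT).bB) = A.betti :=
  (exists_bettiBasis A).choose_spec.choose_spec.choose_spec

variable {I : Type} [Fintype I] (A : I → AbVar) (n : I → ℕ) (L : I → Type)
  [∀ i, Field (L i)] [∀ i, NumberField (L i)] [∀ i, IsCMField (L i)]
  (C : ∀ i, CM (A i) (L i))

omit [Fintype I] [∀ i, NumberField (L i)] [∀ i, IsCMField (L i)] in
lemma mf_of_oddMultiplicityFree (h : OddMultiplicityFree L) : MF L := by
  intro U hU1 hU2 i hi w hw1 hw2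
  exact h U (fun u hu => ⟨fun i σ => hU1 u hu ⟨i, σ⟩, fun τ => hU2 τ u hu⟩) i hi w
    (fun j σ => hw1 ⟨j, σ⟩) (fun j σ hj => hw2 ⟨j, σ⟩ hj)

omit [Fintype I] in
/-- products of divisor classes take algebraic values on algebraic vectors -/
lemma divisorProduct_alg (k : ℕ) (ω : (Fin (2 * k) → H1 A n) → ℂ)
    (hω : IsDivisorProduct A n k ω) (v : Fin (2 * k) → H1 A n)
    (hv : ∀ r, IsDeRham A n (v r)) : IsAlgebraic ℚ (ω v) := by
  obtain ⟨i, h, hh, hω⟩ := hω
  rw [hω v]
  refine isAlg_sum _ _ fun π _ => ?_
  refine IsAlgebraic.mul ?_ (isAlg_prod _ _ fun a _ => ?_)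
  · exact isAlgebraic_intCast _
  · exact polForm_alg _ _ _ ((hh a).deRham _ (hv _)) ((hh a).deRham _ (hv _))

omit [Fintype I] in
/-- products of divisor classes take rational values, up to powers of `2πi`, on rational vectors -/
lemma divisorProduct_rat (k : ℕ) (ω : (Fin (2 * k) → H1 A n) → ℂ)
    (hω : IsDivisorProduct A n k ω) (v : Fin (2 * k) → H1 A n)
    (hv : ∀ r, IsBetti A n (v r)) : ∃ c : ℚ, ω v = (2 * Real.pi * Complex.I) ^ k * c := by
  obtain ⟨i, h, hh, hω⟩ := hω
  have h2 : ∀ π : Equiv.Perm (Fin (2 * k)), ∀ a, ∃ q : ℚ,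
      (A (i a)).pol (h a (v (π ⟨2 * a.1, by omega⟩)))
        (h a (v (π ⟨2 * a.1 + 1, by omega⟩))) = 2 * Real.pi * Complex.I * q := by
    intro π a
    exact polForm_rat _ _ _ ((isBetti_iff _ _).mp ((hh a).betti _ (hv _)))
      ((isBetti_iff _ _).mp ((hh a).betti _ (hv _)))
  choose q hq using h2
  refine ⟨∑ π : Equiv.Perm (Fin (2 * k)), ((Equiv.Perm.sign π : ℤ) : ℚ) * ∏ a, q π a, ?_⟩
  rw [hω v]
  push_cast
  rw [Finset.mul_sum]
  refine Finset.sum_congr rfl (fun π _ => ?_)
  rw [Finset.prod_congr rfl (fun a _ => hq π a)]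
  rw [Finset.prod_mul_distrib, Finset.prod_const, Finset.card_univ, Fintype.card_fin]
  ring

omit [Fintype I] in
/-- products of divisor classes are Grothendieck classes -/
lemma isGrothendieck_of_isDivisorial (k : ℕ) (α : Form A n (2 * k)) (h : IsDivisorial A n k α) :
    IsGrothendieck A n k α := by
  obtain ⟨m, c, ω, hω, hα⟩ := h
  refine ⟨fun v hv => ?_, fun v hv => ?_⟩
  · rw [hα]
    exact isAlg_sum _ _ fun j _ => (isAlgebraic_ratCast ℚ _).mul (divisorProduct_alg A n k _ (hω j) v hv)
  · rw [hα]
    have h1 := fun j => divisorProduct_rat A n k _ (hω j) v hv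
    choose q hq using h1
    refine ⟨∑ j, c j * q j, ?_⟩
    push_cast
    rw [Finset.mul_sum]
    refine Finset.sum_congr rfl fun j _ => ?_
    rw [hq j]
    ring

omit [Fintype I] in
lemma isHom_homL (hT : ∀ i, NotProportional (A i)) (i : I) (c : Fin (n i) → L i) :
    IsHom A n i (homL n (fun i => cmData (A i) (L i) (C i) (hT i)) i c) where
  linear := (homL n (fun i => cmData (A i) (L i) (C i) (hT i)) i c).isLinear
  betti v hv := by
    rw [isBetti_iff, homL, LinearMap.sum_apply]
    refine Submodule.sum_mem _ (fun m _ => ?_)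
    rw [← isBetti_iff]
    exact ((C i).endo _).betti _ (hv i m)
  deRham v hv j := by
    rw [homL, LinearMap.sum_apply, Finset.sum_apply]
    exact isAlg_sum _ _ fun m _ => ((C i).endo _).deRham _ (hv i m) j
  hodge v hv a := by
    rw [homL, LinearMap.sum_apply, Finset.sum_apply]
    exact Finset.sum_eq_zero fun m _ => ((C i).endo _).hodge _ (hv i m) a

include C in
theorem main_of_notProportional (hT : ∀ i, NotProportional (A i)) (h : OddMultiplicityFree L)
    (k : ℕ) (α : Form A n (2 * k)) : IsGrothendieck A n k α ↔ IsDivisorial A n k α := by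
  classical
  refine ⟨?_, isGrothendieck_of_isDivisorial A n k α⟩
  rintro ⟨hα1, hα2⟩
  have h1 := abstract_main n (fun i => cmData (A i) (L i) (C i) (hT i))
    Complex.two_pi_I_ne_zero (mf_of_oddMultiplicityFree L h) α
    (fun v hv => by
      apply hα2
      intro r i m
      have := hv r i m
      rwa [cmData_span, ← isBetti_iff] at this) hα1
  rw [Submodule.mem_span_set'] at h1
  obtain ⟨m, c, ω, hω⟩ := h1
  refine ⟨m, c, fun j => (ω j : Form A n (2 * k)), fun j => ?_, fun v => ?_⟩
  · obtain ⟨γ, hγ, hω⟩ := (ω j).2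
    choose i c hic using hγ
    refine ⟨i, fun a => homL n (fun i => cmData (A i) (L i) (C i) (hT i)) (i a) (c a),
      fun a => isHom_homL A n L C hT (i a) (c a), fun v => ?_⟩
    change (ω j : Form A n (2 * k)) v = _
    have h5 : (ω j : Form A n (2 * k)) v = wedge γ v := by rw [hω]
    rw [h5, wedge_apply]
    refine Finset.sum_congr rfl fun π _ => ?_
    congr 1
    refine Finset.prod_congr rfl fun a _ => ?_
    rw [hic a]
    rfl
  · rw [← hω, alt_sum_apply]
    refine Finset.sum_congr rfl fun j _ => ?_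
    rw [AlternatingMap.smul_apply, Algebra.smul_def, eq_ratCast]

end Pool.Agent.Helper7
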