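import Mathlib

/-!
Creation and annihilation operators on an exterior algebra, and the Lefschetz operators of a
symplectic form.
-/

namespace Pool.Agent.Helper7

open Module

/-- symplectic data: a form with a basis and its dual basis -/
structure SympB (V : Type) [AddCommGroup V] [Module ℂ V] (ι : Type) [Fintype ι] [DecidableEq ι]
    where
  ω : V →ₗ[ℂ] V →ₗ[ℂ] ℂ
  alt : ∀ u v, ω u v = - ω v u
  e : Basis ι ℂ V
  e' : ι → V
  dual : ∀ a b, ω (e a) (e' b) = if a = b then 1 else 0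

namespace SympB

variable {V : Type} [AddCommGroup V] [Module ℂ V] {ι : Type} [Fintype ι] [DecidableEq ι]
  (S : SympB V ι)

lemma exp_e (v : V) : v = ∑ a, S.ω v (S.e' a) • S.e a := by
  conv_lhs => rw [← S.e.sum_repr v]
  refine Finset.sum_congr rfl fun a _ => ?_
  congr 1
  have h : S.ω v (S.e' a) = ∑ b, S.e.repr v b * S.ω (S.e b) (S.e' a) := by
    conv_lhs => rw [← S.e.sum_repr v]
    rw [map_sum, LinearMap.sum_apply]
    refine Finset.sum_congr rfl fun b _ => ?_
    rw [map_smul, LinearMap.smul_apply, smul_eq_mul]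
  rw [h]
  simp [S.dual]

lemma nondeg (v : V) (h : ∀ a, S.ω v (S.e' a) = 0) : v = 0 := by
  rw [S.exp_e v]
  exact Finset.sum_eq_zero fun a _ => by rw [h, zero_smul]

lemma nondeg' (v : V) (h : ∀ a, S.ω (S.e a) v = 0) : v = 0 := by
  apply S.nondeg
  intro a
  rw [S.alt]
  have h1 : S.ω (S.e' a) v = 0 := by
    have h2 := S.exp_e (S.e' a)
    rw [h2, map_sum, LinearMap.sum_apply]
    refine Finset.sum_eq_zero fun b _ => ?_
    rw [map_smul, LinearMap.smul_apply, h, smul_zero]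
  rw [h1, neg_zero]

lemma exp_e' (v : V) : v = ∑ a, S.ω (S.e a) v • S.e' a := by
  rw [← sub_eq_zero]
  apply S.nondeg'
  intro b
  rw [map_sub, map_sum]
  simp [S.dual]

variable {R : Type} [Ring R] [Algebra ℂ R]

/-- canonical anticommutation relations -/
structure IsCAR (cr : V →ₗ[ℂ] R) (an : Module.Dual ℂ V →ₗ[ℂ] R) : Prop where
  an_cr : ∀ φ v, an φ * cr v = φ v • (1 : R) - cr v * an φ
  cr_cr : ∀ u v, cr u * cr v = - (cr v * cr u)
  an_an : ∀ φ φ', an φ * an φ' = - (an φ' * an φ)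

section car

/-- coefficient functionals -/
def Φ (a : ι) : Module.Dual ℂ V := S.ω.flip (S.e' a)

lemma Φ_apply (a : ι) (v : V) : S.Φ a v = S.ω v (S.e' a) := rfl

lemma Φ_e (a b : ι) : S.Φ a (S.e b) = if b = a then 1 else 0 := S.dual b a

lemma exp_dual (φ : Module.Dual ℂ V) : φ = ∑ a, φ (S.e a) • S.Φ a := by
  apply S.e.ext
  intro b
  rw [LinearMap.sum_apply]
  simp [Φ_e]

lemma sum_Φ' (u : V) : ∑ a, S.ω u (S.e' a) • S.ω (S.e a) = S.ω u := by
  conv_rhs => rw [S.exp_e u, map_sum]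
  exact Finset.sum_congr rfl fun a _ => (map_smul _ _ _).symm

lemma sum_Φ (u : V) : ∑ a, S.ω (S.e a) u • S.Φ a = - S.ω u := by
  apply LinearMap.ext
  intro v
  rw [LinearMap.sum_apply, LinearMap.neg_apply, ← S.alt]
  conv_rhs => rw [S.exp_e' u, map_sum]
  exact Finset.sum_congr rfl fun a _ => by rw [map_smul]; rfl

lemma Φ_eq (a : ι) : S.ω (S.e' a) = - S.Φ a := by
  apply LinearMap.ext
  intro v
  rw [LinearMap.neg_apply, Φ_apply, ← S.alt]

variable (cr : V →ₗ[ℂ] R) (an : Module.Dual ℂ V →ₗ[ℂ] R)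

/-- contraction with the form (twice) -/
noncomputable def Lam : R := ∑ a, an (S.ω (S.e a)) * an (S.Φ a)

/-- wedge with the bivector of an endomorphism -/
noncomputable def LA (A : Module.End ℂ V) : R := ∑ a, cr (A (S.e a)) * cr (S.e' a)

/-- derivation extending an endomorphism -/
noncomputable def DA (A : Module.End ℂ V) : R := ∑ a, cr (A (S.e a)) * an (S.Φ a)

variable {cr an} (h : IsCAR cr an)

include h in
lemma Lam_cr (u : V) : S.Lam an * cr u = cr u * S.Lam an + (2 : ℂ) • an (S.ω u) := by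
  have h1 : ∀ a, an (S.ω (S.e a)) * an (S.Φ a) * cr u =
      cr u * (an (S.ω (S.e a)) * an (S.Φ a)) +
      (S.ω u (S.e' a) • an (S.ω (S.e a)) - S.ω (S.e a) u • an (S.Φ a)) := by
    intro a
    have e1 := h.an_cr (S.Φ a) u
    have e2 := h.an_cr (S.ω (S.e a)) u
    rw [mul_assoc, e1, mul_sub, ← mul_assoc, e2, sub_mul, S.Φ_apply, mul_smul_comm, mul_one,
      smul_mul_assoc, one_mul, mul_assoc]
    abel
  rw [Lam, Finset.sum_mul, Finset.mul_sum, Finset.sum_congr rfl fun a _ => h1 a,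
    Finset.sum_add_distrib, Finset.sum_sub_distrib]
  congr 1
  have e3 : ∑ a, S.ω u (S.e' a) • an (S.ω (S.e a)) = an (S.ω u) := by
    conv_rhs => rw [← S.sum_Φ' u, map_sum]
    simp only [map_smul]
  have e4 : ∑ a, S.ω (S.e a) u • an (S.Φ a) = - an (S.ω u) := by
    conv_rhs => rw [← map_neg, ← S.sum_Φ u, map_sum]
    simp only [map_smul]
  rw [e3, e4, two_smul]
  abel

include h in
lemma DA_cr (A : Module.End ℂ V) (v : V) :
    S.DA cr an A * cr v = cr v * S.DA cr an A + cr (A v) := by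
  have h1 : ∀ a, cr (A (S.e a)) * an (S.Φ a) * cr v =
      cr v * (cr (A (S.e a)) * an (S.Φ a)) + S.ω v (S.e' a) • cr (A (S.e a)) := by
    intro a
    rw [mul_assoc, h.an_cr, mul_sub, ← mul_assoc, h.cr_cr (A (S.e a)) v, S.Φ_apply,
      mul_smul_comm, mul_one, neg_mul, mul_assoc]
    abel
  rw [DA, Finset.sum_mul, Finset.mul_sum, Finset.sum_congr rfl fun a _ => h1 a,
    Finset.sum_add_distrib]
  congr 1
  conv_rhs => rw [S.exp_e v, map_sum, map_sum]
  simp only [map_smul]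

/-- symmetric endomorphisms -/
def IsSym (A : Module.End ℂ V) : Prop := ∀ u v, S.ω (A u) v = S.ω u (A v)

/-- trace -/
noncomputable def tr (A : Module.End ℂ V) : ℂ := ∑ a, S.ω (A (S.e a)) (S.e' a)

lemma sum_sym (A : Module.End ℂ V) (hA : S.IsSym A) :
    ∑ a, cr (S.e' a) * an (S.ω (A (S.e a))) = S.DA cr an A := by
  have h1 : ∀ a, an (S.ω (A (S.e a))) = ∑ b, S.ω (S.e a) (A (S.e b)) • an (S.Φ b) := by
    intro a
    conv_lhs => rw [S.exp_dual (S.ω (A (S.e a))), map_sum]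
    refine Finset.sum_congr rfl fun b _ => ?_
    rw [map_smul, hA]
  simp only [h1, Finset.mul_sum, mul_smul_comm]
  rw [Finset.sum_comm, DA]
  refine Finset.sum_congr rfl fun b _ => ?_
  have h2 : cr (A (S.e b)) = ∑ a, S.ω (S.e a) (A (S.e b)) • cr (S.e' a) := by
    conv_lhs => rw [S.exp_e' (A (S.e b)), map_sum]
    simp only [map_smul]
  rw [h2, Finset.sum_mul]
  simp only [smul_mul_assoc]

include h in
lemma Lam_LA (A : Module.End ℂ V) (hA : S.IsSym A) :
    S.Lam an * S.LA cr A = S.LA cr A * S.Lam an + (2 * S.tr A) • (1 : R) -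
      (4 : ℂ) • S.DA cr an A := by
  have h1 : ∀ a, S.Lam an * (cr (A (S.e a)) * cr (S.e' a)) =
      (cr (A (S.e a)) * cr (S.e' a)) * S.Lam an + ((2 * S.ω (A (S.e a)) (S.e' a)) • (1 : R) -
      (2 : ℂ) • (cr (S.e' a) * an (S.ω (A (S.e a)))) -
      (2 : ℂ) • (cr (A (S.e a)) * an (S.Φ a))) := by
    intro a
    rw [← mul_assoc, S.Lam_cr h, add_mul, mul_assoc, S.Lam_cr h, mul_add, S.Φ_eq, map_neg,
      smul_mul_assoc, h.an_cr, smul_sub, smul_smul, smul_neg, mul_neg, mul_smul_comm, mul_assoc]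
    abel
  rw [LA, Finset.mul_sum, Finset.sum_mul, Finset.sum_congr rfl fun a _ => h1 a,
    Finset.sum_add_distrib, Finset.sum_sub_distrib, Finset.sum_sub_distrib, ← Finset.smul_sum,
    ← Finset.smul_sum, S.sum_sym A hA, ← Finset.sum_smul, ← Finset.mul_sum]
  have h2 : ∑ a, cr (A (S.e a)) * an (S.Φ a) = S.DA cr an A := rfl
  have h3 : ∑ a, S.ω (A (S.e a)) (S.e' a) = S.tr A := rfl
  rw [h2, h3]
  have h4 : (4 : ℂ) • S.DA cr an A = (2 : ℂ) • S.DA cr an A + (2 : ℂ) • S.DA cr an A := by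
    rw [← add_smul]; norm_num
  rw [h4]
  abel

lemma sum_sym' (A B : Module.End ℂ V) (hA : S.IsSym A) :
    ∑ b, cr (B (S.e b)) * cr (A (S.e' b)) = S.LA cr (B * A) := by
  have h1 : ∀ b, cr (A (S.e' b)) = ∑ a, S.ω (A (S.e a)) (S.e' b) • cr (S.e' a) := by
    intro b
    conv_lhs => rw [S.exp_e' (A (S.e' b)), map_sum]
    refine Finset.sum_congr rfl fun a _ => ?_
    rw [map_smul, hA]
  simp only [h1, Finset.mul_sum, mul_smul_comm]
  rw [Finset.sum_comm, LA]
  refine Finset.sum_congr rfl fun a _ => ?_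
  have h2 : cr ((B * A) (S.e a)) = ∑ b, S.ω (A (S.e a)) (S.e' b) • cr (B (S.e b)) := by
    rw [Module.End.mul_apply]
    conv_lhs => rw [S.exp_e (A (S.e a)), map_sum, map_sum]
    simp only [map_smul]
  rw [h2, Finset.sum_mul]
  simp only [smul_mul_assoc]

include h in
lemma DA_LA (A B : Module.End ℂ V) (hA : S.IsSym A) :
    S.DA cr an A * S.LA cr B = S.LA cr B * S.DA cr an A + S.LA cr (A * B + B * A) := by
  have h1 : ∀ b, S.DA cr an A * (cr (B (S.e b)) * cr (S.e' b)) =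
      (cr (B (S.e b)) * cr (S.e' b)) * S.DA cr an A + (cr (A (B (S.e b))) * cr (S.e' b) +
      cr (B (S.e b)) * cr (A (S.e' b))) := by
    intro b
    rw [← mul_assoc, S.DA_cr h, add_mul, mul_assoc, S.DA_cr h, mul_add, mul_assoc]
    abel
  rw [LA, Finset.mul_sum, Finset.sum_mul, Finset.sum_congr rfl fun a _ => h1 a,
    Finset.sum_add_distrib, Finset.sum_add_distrib, S.sum_sym' A B hA]
  congr 1
  rw [LA, LA, ← Finset.sum_add_distrib]
  refine Finset.sum_congr rfl fun b _ => ?_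
  rw [LinearMap.add_apply, map_add, add_mul]
  rfl

include h in
lemma LA_comm (A B : Module.End ℂ V) : S.LA cr A * S.LA cr B = S.LA cr B * S.LA cr A := by
  simp only [LA, Finset.sum_mul_sum]
  rw [Finset.sum_comm]
  refine Finset.sum_congr rfl fun a _ => Finset.sum_congr rfl fun b _ => ?_
  have e1 := h.cr_cr (S.e' b) (B (S.e a))
  have e2 := h.cr_cr (A (S.e b)) (B (S.e a))
  have e3 := h.cr_cr (S.e' b) (S.e' a)
  have e4 := h.cr_cr (A (S.e b)) (S.e' a)
  calc cr (A (S.e b)) * cr (S.e' b) * (cr (B (S.e a)) * cr (S.e' a))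
      = cr (A (S.e b)) * (cr (S.e' b) * cr (B (S.e a))) * cr (S.e' a) := by noncomm_ring
    _ = - ((cr (A (S.e b)) * cr (B (S.e a))) * (cr (S.e' b) * cr (S.e' a))) := by
        rw [e1]; noncomm_ring
    _ = - (cr (B (S.e a)) * (cr (A (S.e b)) * cr (S.e' a)) * cr (S.e' b)) := by
        rw [e2, e3]; noncomm_ring
    _ = cr (B (S.e a)) * cr (S.e' a) * (cr (A (S.e b)) * cr (S.e' b)) := by
        rw [e4]; noncomm_ring

include h in
lemma N_an (φ : Module.Dual ℂ V) :
    S.DA cr an 1 * an φ = an φ * S.DA cr an 1 - an φ := by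
  have h1 : ∀ a, cr (S.e a) * an (S.Φ a) * an φ =
      an φ * (cr (S.e a) * an (S.Φ a)) - φ (S.e a) • an (S.Φ a) := by
    intro a
    have e1 := h.an_an (S.Φ a) φ
    have e2 := h.an_cr φ (S.e a)
    have e3 : an φ * (cr (S.e a) * an (S.Φ a)) = φ (S.e a) • an (S.Φ a) -
        cr (S.e a) * (an φ * an (S.Φ a)) := by
      rw [← mul_assoc, e2, sub_mul, smul_mul_assoc, one_mul, mul_assoc]
    rw [mul_assoc, e1, e3]
    noncomm_ring
  rw [DA, Finset.sum_mul, Finset.mul_sum]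
  simp only [Module.End.one_apply]
  rw [Finset.sum_congr rfl fun a _ => h1 a, Finset.sum_sub_distrib]
  congr 1
  conv_rhs => rw [S.exp_dual φ, map_sum]
  simp only [map_smul]

include h in
lemma N_Lam : S.DA cr an 1 * S.Lam an = S.Lam an * S.DA cr an 1 - (2 : ℂ) • S.Lam an := by
  have h1 : ∀ a, S.DA cr an 1 * (an (S.ω (S.e a)) * an (S.Φ a)) =
      (an (S.ω (S.e a)) * an (S.Φ a)) * S.DA cr an 1 -
      (2 : ℂ) • (an (S.ω (S.e a)) * an (S.Φ a)) := by
    intro a
    rw [← mul_assoc, S.N_an h, sub_mul, mul_assoc, S.N_an h, mul_sub, mul_assoc, two_smul]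
    abel
  rw [Lam, Finset.mul_sum, Finset.sum_mul, Finset.smul_sum, ← Finset.sum_sub_distrib]
  exact Finset.sum_congr rfl fun a _ => h1 a

end car

end SympB

end Pool.Agent.Helper7
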