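import Pool.Agent.Helper7.Eig

/-!
Anticommuting involutions.
-/

namespace Pool.Agent.Helper7

open Module

section cliff

variable {R : Type} [Ring R] [Algebra ℂ R]

/-- anticommuting involutions -/
structure IsCl (m : ℕ) (B : ℕ → R) : Prop where
  sq : ∀ k < m, B k * B k = 1
  anti : ∀ j < m, ∀ k < m, j ≠ k → B j * B k = -(B k * B j)

/-- the product of the first `n` -/
def clP (B : ℕ → R) : ℕ → R
  | 0 => 1
  | n + 1 => clP B n * B n

/-- signs -/
def sg : ℕ → ℂ
  | 0 => 1
  | n + 1 => (-1) ^ n * sg n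

lemma sg_sq (n : ℕ) : sg n * sg n = 1 := by
  induction n with
  | zero => simp [sg]
  | succ n ih =>
    rw [sg]
    have h : ((-1 : ℂ) ^ n) * (-1) ^ n = 1 := by rw [← mul_pow]; simp
    linear_combination (sg n * sg n) * h + ih

lemma neg_one_sq' (n : ℕ) : ((-1 : ℂ) ^ n) * (-1) ^ n = 1 := by rw [← mul_pow]; simp

variable {m : ℕ} {B : ℕ → R} (h : IsCl m B)
include h

lemma IsCl.P_ge (n : ℕ) (hn : n ≤ m) : ∀ k, n ≤ k → k < m →
    B k * clP B n = ((-1 : ℂ) ^ n) • (clP B n * B k) := by
  induction n with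
  | zero => intro k _ _; simp [clP]
  | succ n ih =>
    intro k hk hkm
    rw [clP, ← mul_assoc, ih (by omega) k (by omega) hkm, smul_mul_assoc, mul_assoc,
      h.anti k hkm n (by omega) (by omega), mul_neg, smul_neg, pow_succ, mul_assoc]
    simp

lemma IsCl.P_lt (n : ℕ) (hn : n ≤ m) : ∀ k < n,
    B k * clP B n = ((-1 : ℂ) ^ (n + 1)) • (clP B n * B k) := by
  induction n with
  | zero => intro k hk; omega
  | succ n ih =>
    intro k hk
    rcases Nat.lt_or_ge k n with h1 | h1
    · rw [clP, ← mul_assoc, ih (by omega) k h1, smul_mul_assoc, mul_assoc, mul_assoc,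
        h.anti k (by omega) n (by omega) (by omega), mul_neg, smul_neg, pow_succ _ (n + 1)]
      simp
    · have h2 : k = n := by omega
      subst h2
      rw [clP, ← mul_assoc, h.P_ge k (by omega) k le_rfl (by omega), smul_mul_assoc, pow_succ,
        pow_succ]
      simp

lemma IsCl.P_sq (n : ℕ) (hn : n ≤ m) : clP B n * clP B n = sg n • (1 : R) := by
  induction n with
  | zero => simp [clP, sg]
  | succ n ih =>
    have h1 : clP B (n + 1) * clP B (n + 1) = clP B n * (B n * clP B n) * B n := by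
      rw [clP]; simp only [mul_assoc]
    rw [h1, h.P_ge n (by omega) n le_rfl (by omega), mul_smul_comm, smul_mul_assoc,
      ← mul_assoc, ih (by omega), smul_mul_assoc, smul_mul_assoc, one_mul, h.sq n (by omega), sg,
      mul_smul]

lemma IsCl.anticomm (j k : ℕ) (hj : j < m) (hk : k < m) :
    B j * B k + B k * B j = if j = k then (2 : ℂ) • (1 : R) else 0 := by
  split_ifs with h1
  · subst h1
    rw [h.sq j hj, two_smul]
  · rw [h.anti j hj k hk h1, neg_add_cancel]

omit h in
/-- the element inducing a rotation -/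
noncomputable def clY (m : ℕ) (B : ℕ → R) (ξ : ℕ → ℕ → ℂ) : R :=
  (1 / 4 : ℂ) • ∑ a ∈ Finset.range m, ∑ b ∈ Finset.range m, ξ a b • (B a * B b)

lemma IsCl.Y_comm (ξ : ℕ → ℕ → ℂ) (hξ : ∀ a < m, ∀ b < m, ξ a b = - ξ b a) (k : ℕ) (hk : k < m) :
    clY m B ξ * B k - B k * clY m B ξ = ∑ a ∈ Finset.range m, ξ a k • B a := by
  have h1 : ∀ a ∈ Finset.range m, ∀ b ∈ Finset.range m,
      ξ a b • (B a * B b) * B k - B k * (ξ a b • (B a * B b)) =
        (if b = k then (2 * ξ a b) • B a else 0) - (if a = k then (2 * ξ a b) • B b else 0) := by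
    intro a ha b hb
    rw [Finset.mem_range] at ha hb
    have h2 : ξ a b • (B a * B b) * B k - B k * (ξ a b • (B a * B b)) =
        ξ a b • (B a * (B b * B k + B k * B b) - (B a * B k + B k * B a) * B b) := by
      rw [smul_mul_assoc, mul_smul_comm, ← smul_sub]
      congr 1
      simp only [mul_add, add_mul, mul_assoc]
      abel
    rw [h2, h.anticomm b k hb hk, h.anticomm a k ha hk]
    split_ifs with h3 h4 h5 <;>
      simp [smul_sub, mul_smul, smul_comm (ξ a b) (2 : ℂ)]
  rw [clY, smul_mul_assoc, mul_smul_comm, ← smul_sub, Finset.sum_mul, Finset.mul_sum,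
    ← Finset.sum_sub_distrib]
  have h5 : ∀ a ∈ Finset.range m, (∑ b ∈ Finset.range m, ξ a b • (B a * B b)) * B k -
      B k * ∑ b ∈ Finset.range m, ξ a b • (B a * B b) =
      (2 * ξ a k) • B a - (if a = k then ∑ b ∈ Finset.range m, (2 * ξ a b) • B b else 0) := by
    intro a ha
    rw [Finset.sum_mul, Finset.mul_sum, ← Finset.sum_sub_distrib,
      Finset.sum_congr rfl (fun b hb => h1 a ha b hb), Finset.sum_sub_distrib,
      Finset.sum_ite_eq' (Finset.range m) k, if_pos (Finset.mem_range.mpr hk)]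
    congr 1
    split_ifs with h6
    · rfl
    · simp
  rw [Finset.sum_congr rfl h5, Finset.sum_sub_distrib,
    Finset.sum_ite_eq' (Finset.range m) k, if_pos (Finset.mem_range.mpr hk),
    ← Finset.sum_sub_distrib, Finset.smul_sum]
  refine Finset.sum_congr rfl fun a ha => ?_
  rw [Finset.mem_range] at ha
  rw [hξ k hk a ha, ← sub_smul, smul_smul]
  congr 1
  ring

lemma IsCl.Y_P (ξ : ℕ → ℕ → ℂ) : clY m B ξ * clP B m = clP B m * clY m B ξ := by
  rw [clY, smul_mul_assoc, mul_smul_comm, Finset.sum_mul, Finset.mul_sum]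
  congr 1
  refine Finset.sum_congr rfl fun a ha => ?_
  rw [Finset.sum_mul, Finset.mul_sum]
  refine Finset.sum_congr rfl fun b hb => ?_
  rw [Finset.mem_range] at ha hb
  rw [smul_mul_assoc, mul_smul_comm, mul_assoc, h.P_lt m le_rfl b hb, mul_smul_comm,
    ← mul_assoc, h.P_lt m le_rfl a ha, smul_mul_assoc, smul_smul, smul_smul, mul_assoc (ξ a b),
    neg_one_sq', mul_one, mul_assoc]

omit h [Algebra ℂ R] in
lemma commute_P (Z : R) (n : ℕ) (hZ : ∀ k < n, Z * B k = B k * Z) : Z * clP B n = clP B n * Z := by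
  induction n with
  | zero => simp [clP]
  | succ n ih =>
    rw [clP, ← mul_assoc, ih (fun k hk => hZ k (by omega)), mul_assoc, hZ n (by omega), mul_assoc]

omit h in
/-- commuting involutions -/
noncomputable def clJ (B : ℕ → R) (n : ℕ) : R := Complex.I • (B (2 * n) * B (2 * n + 1))

lemma IsCl.J_sq (n : ℕ) (hn : 2 * n + 1 < m) : clJ B n * clJ B n = 1 := by
  have h1 : B (2 * n) * B (2 * n + 1) * (B (2 * n) * B (2 * n + 1)) = -1 := by
    have h2 : B (2 * n) * B (2 * n + 1) * (B (2 * n) * B (2 * n + 1)) =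
        B (2 * n) * (B (2 * n + 1) * B (2 * n)) * B (2 * n + 1) := by simp only [mul_assoc]
    rw [h2, h.anti (2 * n + 1) hn (2 * n) (by omega) (by omega), mul_neg, neg_mul, ← mul_assoc,
      h.sq _ (by omega), one_mul, h.sq _ hn]
  rw [clJ, smul_mul_assoc, mul_smul_comm, smul_smul, h1, Complex.I_mul_I]
  simp

lemma IsCl.J_comm (n k : ℕ) (hn : 2 * n + 1 < m) (hk : k < m) (h1 : k ≠ 2 * n)
    (h2 : k ≠ 2 * n + 1) : B k * clJ B n = clJ B n * B k := by
  rw [clJ, mul_smul_comm, smul_mul_assoc, ← mul_assoc, h.anti k hk (2 * n) (by omega) h1, neg_mul,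
    mul_assoc, h.anti k hk (2 * n + 1) hn h2, mul_neg, neg_neg, mul_assoc]

lemma IsCl.J_anti (n : ℕ) (hn : 2 * n + 1 < m) :
    B (2 * n) * clJ B n = - (clJ B n * B (2 * n)) := by
  rw [clJ, mul_smul_comm, smul_mul_assoc, mul_assoc,
    h.anti (2 * n + 1) hn (2 * n) (by omega) (by omega), mul_neg, smul_neg, neg_neg]

omit h in
/-- projectors -/
noncomputable def clE (B : ℕ → R) : ℕ → R
  | 0 => 1
  | n + 1 => clE B n * ((1 / 2 : ℂ) • (1 + clJ B n))

lemma IsCl.E_comm (n : ℕ) (hn : 2 * n ≤ m) : ∀ k, 2 * n ≤ k → k < m →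
    B k * clE B n = clE B n * B k := by
  induction n with
  | zero => intro k _ _; simp [clE]
  | succ n ih =>
    intro k hk hkm
    rw [clE, ← mul_assoc, ih (by omega) k (by omega) hkm, mul_assoc, mul_assoc]
    congr 1
    rw [mul_smul_comm, smul_mul_assoc, mul_add, add_mul, mul_one, one_mul,
      h.J_comm n k (by omega) hkm (by omega) (by omega)]

lemma IsCl.E_J (n : ℕ) (hn : 2 * n ≤ m) : ∀ k, n ≤ k → 2 * k + 1 < m →
    clJ B k * clE B n = clE B n * clJ B k := by
  intro k hk hkm
  rw [clJ, smul_mul_assoc, mul_smul_comm, mul_assoc, h.E_comm n hn (2 * k + 1) (by omega) hkm,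
    ← mul_assoc, h.E_comm n hn (2 * k) (by omega) (by omega), mul_assoc]

lemma IsCl.E_idem (n : ℕ) (hn : 2 * n ≤ m) : clE B n * clE B n = clE B n := by
  induction n with
  | zero => simp [clE]
  | succ n ih =>
    have h1 : (1 + clJ B n) * clE B n = clE B n * (1 + clJ B n) := by
      rw [add_mul, mul_add, one_mul, mul_one, h.E_J n (by omega) n le_rfl (by omega)]
    have h2 : (1 + clJ B n) * (1 + clJ B n) = (2 : ℂ) • (1 + clJ B n) := by
      rw [add_mul, mul_add, mul_add, one_mul, mul_one, one_mul, h.J_sq n (by omega), two_smul]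
      abel
    have h3 : clE B (n + 1) * clE B (n + 1) =
        (1 / 4 : ℂ) • (clE B n * ((1 + clJ B n) * clE B n) * (1 + clJ B n)) := by
      rw [clE, mul_smul_comm, smul_mul_assoc, mul_smul_comm, smul_smul]
      norm_num
      simp only [mul_assoc]
    rw [h3, h1, ← mul_assoc, ih (by omega), mul_assoc, h2, clE, mul_smul_comm, smul_smul,
      mul_smul_comm]
    norm_num

end cliff

section cliffV

variable {V : Type} [AddCommGroup V] [Module ℂ V] [FiniteDimensional ℂ V] {m : ℕ}
  {B : ℕ → Module.End ℂ V} (h : IsCl m B)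
include h

lemma IsCl.tr_E (n : ℕ) (hn : 2 * n ≤ m) :
    LinearMap.trace ℂ V (clE B n) * 2 ^ n = finrank ℂ V := by
  induction n with
  | zero => simp [clE]
  | succ n ih =>
    have h1 : LinearMap.trace ℂ V (clE B n * clJ B n) = 0 := by
      have h2 : LinearMap.trace ℂ V (clE B n * clJ B n) =
          - LinearMap.trace ℂ V (clE B n * clJ B n) := by
        calc LinearMap.trace ℂ V (clE B n * clJ B n)
            = LinearMap.trace ℂ V ((clE B n * clJ B n * B (2 * n)) * B (2 * n)) := by
              rw [mul_assoc _ (B (2 * n)), h.sq _ (by omega), mul_one]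
          _ = LinearMap.trace ℂ V (B (2 * n) * (clE B n * clJ B n * B (2 * n))) := by
              rw [LinearMap.trace_mul_comm]
          _ = LinearMap.trace ℂ V (- (clE B n * clJ B n)) := by
              congr 1
              rw [← mul_assoc, ← mul_assoc, h.E_comm n (by omega) _ le_rfl (by omega),
                mul_assoc (clE B n), h.J_anti n (by omega), mul_neg, neg_mul, mul_assoc,
                mul_assoc (clJ B n), h.sq _ (by omega), mul_one]
          _ = _ := by rw [map_neg]
      have h3 : (2 : ℂ) * LinearMap.trace ℂ V (clE B n * clJ B n) = 0 := by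
        linear_combination h2
      simpa using h3
    rw [clE, mul_smul_comm, mul_add, mul_one, map_smul, map_add, h1, ← ih (by omega), smul_eq_mul,
      pow_succ]
    ring

lemma IsCl.finrank_E (n : ℕ) (hn : 2 * n ≤ m) :
    finrank ℂ (LinearMap.range (clE B n)) * 2 ^ n = finrank ℂ V := by
  have h1 : IsIdempotentElem (clE B n) := h.E_idem n hn
  have h2 := (LinearMap.IsIdempotentElem.isProj_range _ h1).trace
  have h3 := h.tr_E n hn
  rw [h2] at h3
  exact_mod_cast h3

lemma IsCl.le_seven (hV : finrank ℂ V = 8) : m ≤ 7 := by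
  by_contra hcon
  have h1 := h.finrank_E 4 (by omega)
  rw [hV] at h1
  omega

end cliffV

end Pool.Agent.Helper7
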