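import Pool.Agent.Helper7.Clif

/-!
Clifford structures on an eight-dimensional symplectic space.
-/

namespace Pool.Agent.Helper7

open Module

namespace SympB

variable {V : Type} [AddCommGroup V] [Module ℂ V] {ι : Type} [Fintype ι] [DecidableEq ι]
  (S : SympB V ι)

/-- orthonormal basis of the Clifford subspace -/
lemma exists_orthonormal (U : Submodule ℂ (Module.End ℂ V))
    (hcl : ∀ A ∈ U, ∀ B ∈ U, A * B + B * A = (S.tr (A * B) / 4) • 1)
    (hnd : ∀ A ∈ U, (∀ B ∈ U, S.tr (A * B) = 0) → A = 0) :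
    ∃ (m : ℕ) (B : ℕ → Module.End ℂ V), IsCl m B ∧ (∀ k < m, B k ∈ U) ∧
      ∀ A ∈ U, A = ∑ k ∈ Finset.range m, (S.tr (A * B k) / 8) • B k := by
  classical
  have := S.finite_dim
  let β : LinearMap.BilinForm ℂ U := LinearMap.mk₂ ℂ
    (fun A B => LinearMap.trace ℂ V ((A : Module.End ℂ V) * B))
    (fun A A' B => by simp [add_mul])
    (fun c A B => by simp)
    (fun A B B' => by simp [mul_add])
    (fun c A B => by simp)
  have hβ : ∀ A B : U, β A B = S.tr ((A : Module.End ℂ V) * B) := by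
    intro A B; rw [S.tr_eq]; rfl
  have hsymm : LinearMap.IsSymm β := by
    constructor
    intro A B
    show β A B = β B A
    rw [hβ, hβ, S.tr_mul_comm]
  have h2 : Invertible (2 : ℂ) := invertibleOfNonzero (by norm_num)
  obtain ⟨m, v, hv⟩ : ∃ m, ∃ v : Basis (Fin m) ℂ U, LinearMap.IsOrthoᵢ β v :=
    ⟨_, LinearMap.BilinForm.exists_orthogonal_basis hsymm⟩
  have hv' : ∀ i j, i ≠ j → β (v i) (v j) = 0 := fun i j hij => hv hij
  have hvi : ∀ i, β (v i) (v i) ≠ 0 := by
    intro i h0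
    have h1 : ∀ A : U, β (v i) A = 0 := by
      intro A
      rw [← v.sum_repr A, map_sum]
      refine Finset.sum_eq_zero fun j _ => ?_
      rw [map_smul]
      by_cases hij : i = j
      · rw [← hij, h0, smul_zero]
      · rw [hv' i j hij, smul_zero]
    have h3 : ((v i : U) : Module.End ℂ V) = 0 := by
      apply hnd _ (v i).2
      intro B hB
      have h4 := h1 ⟨B, hB⟩
      rw [hβ] at h4
      exact h4
    exact v.ne_zero i (Subtype.ext h3)
  have hc : ∀ i, ∃ c : ℂ, c ^ 2 = 8 / β (v i) (v i) := fun i =>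
    IsAlgClosed.exists_pow_nat_eq _ (by norm_num)
  choose c hc using hc
  have hc0 : ∀ i, c i ≠ 0 := by
    intro i h0
    have h1 := hc i
    rw [h0, zero_pow (by norm_num)] at h1
    exact div_ne_zero (by norm_num) (hvi i) h1.symm
  let B : ℕ → Module.End ℂ V := fun k =>
    if hk : k < m then c ⟨k, hk⟩ • ((v ⟨k, hk⟩ : U) : Module.End ℂ V) else 0
  have hB : ∀ i : Fin m, B i = c i • ((v i : U) : Module.End ℂ V) := by
    intro i
    show (if hk : (i : ℕ) < m then c ⟨i, hk⟩ • ((v ⟨i, hk⟩ : U) : Module.End ℂ V) else 0) = _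
    rw [dif_pos i.2]
  have hBU : ∀ k < m, B k ∈ U := by
    intro k hk
    rw [hB ⟨k, hk⟩]
    exact U.smul_mem _ (v ⟨k, hk⟩).2
  have hBB : ∀ i j : Fin m, S.tr (B i * B j) = if i = j then 8 else 0 := by
    intro i j
    rw [hB, hB, smul_mul_assoc, mul_smul_comm, S.tr_smul, S.tr_smul, ← hβ]
    split_ifs with h1
    · subst h1
      have h3 := hc i
      field_simp [hvi i] at h3
      linear_combination h3
    · rw [hv' i j h1]; ring
  refine ⟨m, B, ⟨?_, ?_⟩, hBU, ?_⟩
  · intro k hk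
    have h1 := hcl _ (hBU k hk) _ (hBU k hk)
    have h3 := hBB ⟨k, hk⟩ ⟨k, hk⟩
    rw [if_pos rfl] at h3
    rw [h3, ← two_smul ℂ] at h1
    have h4 : (2 : ℂ) • (B k * B k) = (2 : ℂ) • (1 : Module.End ℂ V) := by
      rw [h1]; norm_num
    exact smul_right_injective _ (two_ne_zero (α := ℂ)) h4
  · intro j hj k hk hjk
    have h1 := hcl _ (hBU j hj) _ (hBU k hk)
    have h3 := hBB ⟨j, hj⟩ ⟨k, hk⟩
    rw [if_neg (fun h => hjk (Fin.mk.inj_iff.mp h))] at h3
    rw [h3, zero_div, zero_smul] at h1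
    exact eq_neg_of_add_eq_zero_left h1
  · intro A hA
    have hsumU : ∑ k ∈ Finset.range m, (S.tr (A * B k) / 8) • B k ∈ U :=
      U.sum_mem fun k hk => U.smul_mem _ (hBU k (Finset.mem_range.mp hk))
    rw [← sub_eq_zero]
    apply hnd _ (U.sub_mem hA hsumU)
    intro C hC
    -- reduce to `C = B j`
    have hred : ∀ j : Fin m, S.tr ((A - ∑ k ∈ Finset.range m, (S.tr (A * B k) / 8) • B k) * B j) =
        0 := by
      intro j
      rw [sub_mul, S.tr_sub, Finset.sum_mul, S.tr_eq (∑ k ∈ Finset.range m, _), map_sum,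
        Finset.sum_eq_single (j : ℕ)]
      · rw [smul_mul_assoc, map_smul, ← S.tr_eq, hBB j j, if_pos rfl, smul_eq_mul]
        ring
      · intro k hk hkj
        have hkm := Finset.mem_range.mp hk
        rw [smul_mul_assoc, map_smul, ← S.tr_eq]
        have h5 := hBB ⟨k, hkm⟩ j
        rw [if_neg (fun h => hkj (by rw [← h]))] at h5
        show _ • S.tr (B k * B j) = 0
        rw [h5, smul_zero]
      · intro hj; exact absurd (Finset.mem_range.mpr j.2) hj
    have h6 : C = ∑ j : Fin m, (v.repr ⟨C, hC⟩ j / c j) • B j := by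
      have h7 : C = ((∑ i, v.repr ⟨C, hC⟩ i • v i : U) : Module.End ℂ V) := by
        rw [v.sum_repr]
      conv_lhs => rw [h7, Submodule.coe_sum]
      refine Finset.sum_congr rfl fun j _ => ?_
      rw [hB, smul_smul, div_mul_cancel₀ _ (hc0 j)]
      rfl
    rw [h6, Finset.mul_sum, S.tr_eq, map_sum]
    refine Finset.sum_eq_zero fun j _ => ?_
    rw [mul_smul_comm, map_smul, ← S.tr_eq, hred, smul_zero]

/-- the standing data -/
structure CD (m : ℕ) (B : ℕ → Module.End ℂ V) (G : Set (Module.End ℂ V)) : Prop where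
  cl : IsCl m B
  sym : ∀ k < m, S.IsSym (B k)
  skew : ∀ X ∈ G, S.IsSkew X
  exp : ∀ X ∈ G, ∃ ξ : ℕ → ℕ → ℂ, (∀ a < m, ∀ b < m, ξ a b = - ξ b a) ∧
    ∀ k < m, X * B k - B k * X = ∑ a ∈ Finset.range m, ξ a k • B a

variable {S}

lemma mkCD (U : Submodule ℂ (Module.End ℂ V)) (G : Set (Module.End ℂ V))
    (hsym : ∀ A ∈ U, S.IsSym A) (hG : ∀ X ∈ G, S.IsSkew X)
    (hst : ∀ X ∈ G, ∀ A ∈ U, X * A - A * X ∈ U) {m : ℕ} {B : ℕ → Module.End ℂ V}
    (h : IsCl m B) (hB : ∀ k < m, B k ∈ U)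
    (hexp : ∀ A ∈ U, A = ∑ k ∈ Finset.range m, (S.tr (A * B k) / 8) • B k) : S.CD m B G where
  cl := h
  sym k hk := hsym _ (hB k hk)
  skew := hG
  exp := by
    intro X hX
    refine ⟨fun a k => S.tr ((X * B k - B k * X) * B a) / 8, ?_, ?_⟩
    · intro a _ b _
      have e1 := S.tr_cyc (B b) X (B a)
      have e2 := S.tr_cyc (B a) X (B b)
      simp only [sub_mul, S.tr_sub]
      rw [e1, e2]
      ring
    · intro k hk
      exact hexp _ (hst X hX _ (hB k hk))

variable {m : ℕ} {B : ℕ → Module.End ℂ V} {G : Set (Module.End ℂ V)} (D : S.CD m B G)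
include D

lemma CD.sym_P (n : ℕ) (hn : n ≤ m) (u v : V) :
    S.ω (clP B n u) v = sg n * S.ω u (clP B n v) := by
  induction n generalizing u v with
  | zero => simp [clP, sg]
  | succ n ih =>
    rw [clP, Module.End.mul_apply, ih (by omega), D.sym n (by omega), ← Module.End.mul_apply,
      D.cl.P_ge n (by omega) n le_rfl (by omega), LinearMap.smul_apply, map_smul, smul_eq_mul, sg]
    ring

/-- the decomposition of `X` -/
lemma CD.decomp (X : Module.End ℂ V) (hX : X ∈ G) : ∃ Y Z : Module.End ℂ V, X = Y + Z ∧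
    (∃ ξ, Y = clY m B ξ) ∧ (∀ k < m, Z * B k = B k * Z) ∧ S.IsSkew Z := by
  obtain ⟨ξ, hξ, hc⟩ := D.exp X hX
  refine ⟨clY m B ξ, X - clY m B ξ, by abel, ⟨ξ, rfl⟩, ?_, ?_⟩
  · intro k hk
    have h1 := D.cl.Y_comm ξ hξ k hk
    have h2 := hc k hk
    rw [← h1] at h2
    rw [sub_mul, mul_sub, sub_eq_sub_iff_add_eq_add]
    rw [sub_eq_sub_iff_add_eq_add] at h2
    rw [h2]; abel
  · intro u v
    have h3 : S.ω (clY m B ξ u) v = - S.ω u (clY m B ξ v) := by
      have h4 : ∀ w, clY m B ξ w = (1 / 4 : ℂ) • ∑ a ∈ Finset.range m, ∑ b ∈ Finset.range m,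
          ξ a b • (B a (B b w)) := by
        intro w
        rw [clY, LinearMap.smul_apply, LinearMap.sum_apply]
        congr 1
        refine Finset.sum_congr rfl fun a _ => ?_
        rw [LinearMap.sum_apply]
        rfl
      rw [h4, h4, map_smul, map_smul, LinearMap.smul_apply, map_sum, map_sum, LinearMap.sum_apply,
        ← smul_neg]
      congr 1
      have h5 : ∀ a, (S.ω (∑ b ∈ Finset.range m, ξ a b • (B a (B b u)))) v =
          ∑ b ∈ Finset.range m, ξ a b * S.ω (B a (B b u)) v := by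
        intro a
        rw [map_sum, LinearMap.sum_apply]
        refine Finset.sum_congr rfl fun b _ => ?_
        rw [map_smul, LinearMap.smul_apply, smul_eq_mul]
      have h6 : ∀ a, (S.ω u (∑ b ∈ Finset.range m, ξ a b • (B a (B b v)))) =
          ∑ b ∈ Finset.range m, ξ a b * S.ω u (B a (B b v)) := by
        intro a
        rw [map_sum]
        refine Finset.sum_congr rfl fun b _ => ?_
        rw [map_smul, smul_eq_mul]
      rw [Finset.sum_congr rfl fun a _ => h5 a, Finset.sum_congr rfl fun a _ => h6 a,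
        Finset.sum_comm, ← Finset.sum_neg_distrib]
      refine Finset.sum_congr rfl fun b hb => ?_
      rw [← Finset.sum_neg_distrib]
      refine Finset.sum_congr rfl fun a ha => ?_
      rw [Finset.mem_range] at ha hb
      rw [D.sym a ha, D.sym b hb, hξ b hb a ha]
      ring
    rw [LinearMap.sub_apply, LinearMap.sub_apply, map_sub, map_sub, LinearMap.sub_apply,
      D.skew X hX, h3]
    ring

/-- the volume element commutes with `G` -/
lemma CD.P_comm (X : Module.End ℂ V) (hX : X ∈ G) : X * clP B m = clP B m * X := by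
  obtain ⟨Y, Z, rfl, ⟨ξ, rfl⟩, hZ, _⟩ := D.decomp X hX
  rw [add_mul, mul_add, D.cl.Y_P, commute_P Z m hZ]

/-- stability under `G` follows from stability under the `B k` and the `Z` parts -/
lemma CD.stable (W : Submodule ℂ V) (hB : ∀ k < m, ∀ v ∈ W, B k v ∈ W)
    (hZ : ∀ Z : Module.End ℂ V, (∀ k < m, Z * B k = B k * Z) → S.IsSkew Z → ∀ v ∈ W, Z v ∈ W)
    (X : Module.End ℂ V) (hX : X ∈ G) : ∀ v ∈ W, X v ∈ W := by
  obtain ⟨Y, Z, rfl, ⟨ξ, rfl⟩, hZ1, hZ2⟩ := D.decomp X hX
  intro v hv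
  rw [LinearMap.add_apply]
  refine W.add_mem ?_ (hZ Z hZ1 hZ2 v hv)
  rw [clY, LinearMap.smul_apply, LinearMap.sum_apply]
  refine W.smul_mem _ (W.sum_mem fun a ha => ?_)
  rw [LinearMap.sum_apply]
  refine W.sum_mem fun b hb => ?_
  rw [Finset.mem_range] at ha hb
  exact W.smul_mem _ (hB a ha _ (hB b hb v hv))

end SympB

end Pool.Agent.Helper7
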