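import Pool.Agent.Helper7.Clif2

/-!
Impossibility of Clifford structures on an eight-dimensional symplectic space.
-/

namespace Pool.Agent.Helper7

open Module

namespace SympB

variable {V : Type} [AddCommGroup V] [Module ℂ V] {ι : Type} [Fintype ι] [DecidableEq ι]
  {S : SympB V ι} {m : ℕ} {B : ℕ → Module.End ℂ V} {G : Set (Module.End ℂ V)} (D : S.CD m B G)

include S in
lemma finrank_card : finrank ℂ V = Fintype.card ι := finrank_eq_card_basis S.e

include D

/-- the even case -/
lemma CD.even_false (hcard : Fintype.card ι = 8) (hm : Even m) (hm0 : 0 < m)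
    (h4 : ∀ W : Submodule ℂ V, (∀ X ∈ G, ∀ v ∈ W, X v ∈ W) → finrank ℂ W ≠ 4) : False := by
  have := S.finite_dim
  set ε := clP B m with hε
  have hsq : ε * ε = sg m • (1 : Module.End ℂ V) := D.cl.P_sq m le_rfl
  obtain ⟨c, hc⟩ := IsAlgClosed.exists_pow_nat_eq (sg m) (show 0 < 2 by norm_num)
  have hc2 : (c * c) * sg m = 1 := by
    have h1 := sg_sq m
    rw [← hc] at h1 ⊢
    linear_combination h1
  set e' : Module.End ℂ V := (1 / 2 : ℂ) • (1 + c • ε) with he'
  have hJ : (c • ε) * (c • ε) = 1 := by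
    rw [smul_mul_assoc, mul_smul_comm, smul_smul, hsq, smul_smul, hc2, one_smul]
  have hid : e' * e' = e' := by
    rw [he', smul_mul_assoc, mul_smul_comm, smul_smul, mul_add, add_mul, add_mul, hJ, one_mul,
      mul_one, one_mul]
    have h1 : (1 : Module.End ℂ V) + c • ε + (c • ε + 1) = (2 : ℂ) • (1 + c • ε) := by
      rw [two_smul]; abel
    rw [h1, smul_smul]
    norm_num
  have hanti : B 0 * ε = - (ε * B 0) := by
    have h1 := D.cl.P_lt m le_rfl 0 hm0
    rw [pow_succ, hm.neg_one_pow, one_mul, neg_one_smul] at h1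
    exact h1
  have htrε : LinearMap.trace ℂ V ε = 0 := by
    have h2 : LinearMap.trace ℂ V ε = - LinearMap.trace ℂ V ε := by
      calc LinearMap.trace ℂ V ε = LinearMap.trace ℂ V ((ε * B 0) * B 0) := by
            rw [mul_assoc, D.cl.sq 0 hm0, mul_one]
        _ = LinearMap.trace ℂ V (B 0 * (ε * B 0)) := by rw [LinearMap.trace_mul_comm]
        _ = LinearMap.trace ℂ V (- ε) := by
            congr 1
            rw [← mul_assoc, hanti, neg_mul, mul_assoc, D.cl.sq 0 hm0, mul_one]
        _ = _ := by rw [map_neg]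
    have h3 : (2 : ℂ) * LinearMap.trace ℂ V ε = 0 := by linear_combination h2
    simpa using h3
  have hrank : finrank ℂ (LinearMap.range e') = 4 := by
    have h1 : IsIdempotentElem e' := hid
    have h2 := (LinearMap.IsIdempotentElem.isProj_range _ h1).trace
    rw [he', map_smul, map_add, map_smul, htrε, smul_zero, add_zero, LinearMap.trace_one,
      S.finrank_card, hcard] at h2
    have h3 : ((finrank ℂ (LinearMap.range e') : ℕ) : ℂ) = ((4 : ℕ) : ℂ) := by
      rw [he', ← h2]; norm_num
    exact_mod_cast h3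
  refine h4 (LinearMap.range e') ?_ hrank
  rintro X hX _ ⟨v, rfl⟩
  refine ⟨X v, ?_⟩
  have h1 : e' * X = X * e' := by
    rw [he', smul_mul_assoc, mul_smul_comm, add_mul, mul_add, smul_mul_assoc, mul_smul_comm,
      one_mul, mul_one, D.P_comm X hX]
  rw [← Module.End.mul_apply, h1, Module.End.mul_apply]

/-- the odd case: the volume element is a scalar -/
lemma CD.odd_scalar (hcard : Fintype.card ι = 8) (hm : Odd m)
    (hirr : ∀ W : Submodule ℂ V, (∀ X ∈ G, ∀ v ∈ W, X v ∈ W) → (∀ k < m, ∀ v ∈ W, B k v ∈ W) →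
      W = ⊥ ∨ W = ⊤) : ∃ c : ℂ, clP B m = c • 1 ∧ c ≠ 0 := by
  have := S.finite_dim
  have hnt : Nontrivial V := by
    apply Module.nontrivial_of_finrank_pos (R := ℂ)
    rw [S.finrank_card, hcard]; norm_num
  set ε := clP B m with hε
  have hsq : ε * ε = sg m • (1 : Module.End ℂ V) := D.cl.P_sq m le_rfl
  obtain ⟨c, hc⟩ := Module.End.exists_eigenvalue ε
  have hcomm : ∀ k < m, B k * ε = ε * B k := by
    intro k hk
    have h1 := D.cl.P_lt m le_rfl k hk
    rw [pow_succ, hm.neg_one_pow, neg_mul_neg, mul_one, one_smul] at h1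
    exact h1
  have htop : ε.eigenspace c = ⊤ := by
    refine (hirr (ε.eigenspace c) ?_ ?_).resolve_left hc
    · intro X hX v hv
      rw [Module.End.mem_eigenspace_iff] at hv ⊢
      rw [← Module.End.mul_apply, ← D.P_comm X hX, Module.End.mul_apply, hv, map_smul]
    · intro k hk v hv
      rw [Module.End.mem_eigenspace_iff] at hv ⊢
      rw [← Module.End.mul_apply, ← hcomm k hk, Module.End.mul_apply, hv, map_smul]
  have h1 : ε = c • 1 := by
    ext v
    have h2 : v ∈ ε.eigenspace c := htop ▸ Submodule.mem_top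
    rw [Module.End.mem_eigenspace_iff] at h2
    rw [h2]; rfl
  refine ⟨c, h1, ?_⟩
  rintro rfl
  rw [h1, zero_smul, mul_zero] at hsq
  have h3 : sg m = 0 := by
    obtain ⟨v, hv⟩ := exists_ne (0 : V)
    have h4 := congrArg (fun f => f v) hsq
    simp only [LinearMap.zero_apply, LinearMap.smul_apply, Module.End.one_apply] at h4
    exact (smul_eq_zero.mp h4.symm).resolve_right hv
  have h5 := sg_sq m
  rw [h3, mul_zero] at h5
  exact zero_ne_one h5

lemma CD.sg_one (hcard : Fintype.card ι = 8) (c : ℂ) (hc : clP B m = c • 1) (hc0 : c ≠ 0) :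
    sg m = 1 := by
  have hne : Nonempty ι := Fintype.card_pos_iff.mp (by omega)
  obtain ⟨a⟩ := hne
  have h1 := D.sym_P m le_rfl (S.e a) (S.e' a)
  rw [hc, LinearMap.smul_apply, LinearMap.smul_apply, Module.End.one_apply, Module.End.one_apply,
    map_smul, map_smul, LinearMap.smul_apply, S.dual, if_pos rfl, smul_eq_mul, mul_one] at h1
  have h2 : c * (1 - sg m) = 0 := by linear_combination h1
  have h3 := (mul_eq_zero.mp h2).resolve_left hc0
  linear_combination -h3

omit D in
lemma sg_val : sg 3 = -1 ∧ sg 7 = -1 := by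
  constructor <;> norm_num [sg]

end SympB

end Pool.Agent.Helper7
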