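import Pool.Agent.Helper7.Clif3

/-!
The case of five anticommuting involutions.
-/

namespace Pool.Agent.Helper7

open Module

/-- a symmetric form nondegenerate on a plane has an isotropic vector whose orthogonal is the line
it spans -/
lemma plane_isotropic {V : Type} [AddCommGroup V] [Module ℂ V] [FiniteDimensional ℂ V]
    (β : V →ₗ[ℂ] V →ₗ[ℂ] ℂ) (hs : ∀ u v, β u v = β v u) (M : Submodule ℂ V)
    (hM : finrank ℂ M = 2) (hnd : ∀ u ∈ M, (∀ w ∈ M, β u w = 0) → u = 0) :
    ∃ m0 ∈ M, m0 ≠ 0 ∧ β m0 m0 = 0 ∧ ∀ z ∈ M, β m0 z = 0 → ∃ t : ℂ, z = t • m0 := by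
  have hiso : ∃ m0 ∈ M, m0 ≠ 0 ∧ β m0 m0 = 0 := by
    let b := Module.finBasisOfFinrankEq ℂ M hM
    by_cases h0 : β (b 0) (b 0) = 0
    · exact ⟨b 0, (b 0).2, fun h => b.ne_zero 0 (Subtype.ext h), h0⟩
    · obtain ⟨t, ht⟩ := IsAlgClosed.exists_eq_mul_self
        ((β (b 0) (b 1)) ^ 2 - β (b 0) (b 0) * β (b 1) (b 1))
      refine ⟨((-β (b 0) (b 1) + t) / β (b 0) (b 0)) • (b 0 : V) + b 1,
        M.add_mem (M.smul_mem _ (b 0).2) (b 1).2, ?_, ?_⟩
      · intro hz
        have h1 : ((-β (b 0) (b 1) + t) / β (b 0) (b 0)) • b 0 + b 1 = 0 := Subtype.ext hz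
        have h2 := congrArg (fun z => b.repr z 1) h1
        simp at h2
      · simp only [map_add, map_smul, LinearMap.add_apply, LinearMap.smul_apply, smul_eq_mul]
        rw [hs (b 1) (b 0)]
        field_simp
        linear_combination -ht
  obtain ⟨m0, hm0, hne, h00⟩ := hiso
  refine ⟨m0, hm0, hne, h00, ?_⟩
  obtain ⟨w, hw, hw0⟩ : ∃ w ∈ M, β m0 w ≠ 0 := by
    by_contra hcon
    push Not at hcon
    exact hne (hnd m0 hm0 hcon)
  have hli : LinearIndependent ℂ ![(⟨m0, hm0⟩ : M), ⟨w, hw⟩] := by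
    rw [LinearIndependent.pair_iff]
    intro s t hst
    have h1 : s • m0 + t • w = 0 := congrArg Subtype.val hst
    have h2 : β m0 (s • m0 + t • w) = 0 := by rw [h1, map_zero]
    rw [map_add, map_smul, map_smul, h00, smul_zero, zero_add, smul_eq_mul] at h2
    have h3 : t = 0 := (mul_eq_zero.mp h2).resolve_right hw0
    rw [h3, zero_smul, add_zero] at h1
    exact ⟨(smul_eq_zero.mp h1).resolve_right hne, h3⟩
  have hspan := hli.span_eq_top_of_card_eq_finrank (by rw [hM]; rfl)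
  intro z hz hz0
  have h1 : (⟨z, hz⟩ : M) ∈ Submodule.span ℂ (Set.range ![(⟨m0, hm0⟩ : M), ⟨w, hw⟩]) := by
    rw [hspan]; exact Submodule.mem_top
  rw [Matrix.range_cons, Matrix.range_cons, Matrix.range_empty, Set.union_empty,
    Set.singleton_union, Submodule.mem_span_pair] at h1
  obtain ⟨a, b, hab⟩ := h1
  have h2 : a • m0 + b • w = z := congrArg Subtype.val hab
  rw [← h2, map_add, map_smul, map_smul, h00, smul_zero, zero_add, smul_eq_mul] at hz0
  have h3 : b = 0 := (mul_eq_zero.mp hz0).resolve_right hw0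
  rw [h3, zero_smul, add_zero] at h2
  exact ⟨a, h2.symm⟩

namespace SympB

variable {V : Type} [AddCommGroup V] [Module ℂ V] {ι : Type} [Fintype ι] [DecidableEq ι]
  {S : SympB V ι} {B : ℕ → Module.End ℂ V} {G : Set (Module.End ℂ V)} (D : S.CD 5 B G)
include D

lemma CD.J_skew (k : ℕ) (hk : 2 * k + 1 < 5) (u v : V) :
    S.ω (clJ B k u) v = - S.ω u (clJ B k v) := by
  rw [clJ, LinearMap.smul_apply, LinearMap.smul_apply, Module.End.mul_apply, map_smul, map_smul,
    LinearMap.smul_apply, D.sym _ (by omega), D.sym _ hk, ← Module.End.mul_apply,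
    D.cl.anti _ hk _ (by omega) (by omega), LinearMap.neg_apply, map_neg, smul_neg]

omit D in
/-- vectors fixed by both involutions -/
lemma E_two (h : IsCl 5 B) (v : V) : v ∈ LinearMap.range (clE B 2) ↔
    clJ B 0 v = v ∧ clJ B 1 v = v := by
  have hE : clE B 2 = (1 / 4 : ℂ) • ((1 + clJ B 0) * (1 + clJ B 1)) := by
    rw [clE, clE, clE, one_mul, smul_mul_assoc, mul_smul_comm, smul_smul]
    norm_num
  have h1 : clJ B 1 * clJ B 0 = clJ B 0 * clJ B 1 := by
    have h2 := h.E_J 1 (by norm_num) 1 le_rfl (by norm_num)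
    rw [clE, clE, one_mul, mul_smul_comm, smul_mul_assoc, mul_add, add_mul, mul_one,
      one_mul] at h2
    have h3 := smul_right_injective _ (show (1 / 2 : ℂ) ≠ 0 by norm_num) h2
    exact add_left_cancel h3
  have j0 : clJ B 0 * (1 + clJ B 0) = 1 + clJ B 0 := by
    rw [mul_add, h.J_sq 0 (by norm_num), mul_one, add_comm]
  have j1 : clJ B 1 * (1 + clJ B 1) = 1 + clJ B 1 := by
    rw [mul_add, h.J_sq 1 (by norm_num), mul_one, add_comm]
  have j2 : clJ B 1 * (1 + clJ B 0) = (1 + clJ B 0) * clJ B 1 := by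
    rw [mul_add, add_mul, mul_one, one_mul, h1]
  constructor
  · rintro ⟨w, rfl⟩
    constructor
    · rw [← Module.End.mul_apply]
      congr 1
      rw [hE, mul_smul_comm, ← mul_assoc, j0]
    · rw [← Module.End.mul_apply]
      congr 1
      rw [hE, mul_smul_comm, ← mul_assoc, j2, mul_assoc, j1]
  · rintro ⟨h0, h1⟩
    refine ⟨v, ?_⟩
    have e1 : (1 + clJ B 1) v = v + clJ B 1 v := rfl
    have e2 : (1 + clJ B 0) (v + v) = (v + v) + clJ B 0 (v + v) := rfl
    rw [hE, LinearMap.smul_apply, Module.End.mul_apply, e1, h1, e2, map_add, h0]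
    module

lemma CD.five_false (hcard : Fintype.card ι = 8) (c : ℂ) (hc : clP B 5 = c • 1)
    (hirr : ∀ W : Submodule ℂ V, (∀ X ∈ G, ∀ v ∈ W, X v ∈ W) → (∀ k < 5, ∀ v ∈ W, B k v ∈ W) →
      W = ⊥ ∨ W = ⊤) : False := by
  have := S.finite_dim
  -- vector level relations
  have sqv : ∀ k, k < 5 → ∀ v, B k (B k v) = v := by
    intro k hk v
    rw [← Module.End.mul_apply, D.cl.sq k hk]; rfl
  have antiv : ∀ j k, j < 5 → k < 5 → j ≠ k → ∀ v, B j (B k v) = - B k (B j v) := by
    intro j k hj hk hjk v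
    rw [← Module.End.mul_apply, D.cl.anti j hj k hk hjk]; rfl
  have Jv : ∀ k v, clJ B k v = Complex.I • B (2 * k) (B (2 * k + 1) v) := fun k v => rfl
  let β : V →ₗ[ℂ] V →ₗ[ℂ] ℂ := S.ω.compl₂ (B 0 * B 2)
  have hβ : ∀ u v, β u v = S.ω u (B 0 (B 2 v)) := fun u v => rfl
  have hβs : ∀ u v, β u v = β v u := by
    intro u v
    rw [hβ, hβ, S.alt v, D.sym 0 (by norm_num), D.sym 2 (by norm_num),
      antiv 2 0 (by norm_num) (by norm_num) (by norm_num), map_neg, neg_neg]
  have hJβ : ∀ k, k < 2 → ∀ u v, β (clJ B k u) v = β u (clJ B k v) := by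
    intro k hk u v
    rw [hβ, hβ, D.J_skew k (by omega)]
    have h1 : clJ B k (B 0 (B 2 v)) = - B 0 (B 2 (clJ B k v)) := by
      have h2 : ∀ j, j < 5 → j ≠ 2 * k → j ≠ 2 * k + 1 → ∀ w, clJ B k (B j w) = B j (clJ B k w) := by
        intro j hj hj1 hj2 w
        rw [← Module.End.mul_apply, ← Module.End.mul_apply,
          D.cl.J_comm k j (by omega) hj hj1 hj2]
      have h3 : ∀ w, clJ B k (B (2 * k) w) = - B (2 * k) (clJ B k w) := by
        intro w
        rw [← Module.End.mul_apply, ← Module.End.mul_apply, D.cl.J_anti k (by omega),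
          LinearMap.neg_apply, neg_neg]
      interval_cases k
      · rw [show (0 : ℕ) = 2 * 0 by norm_num]
        rw [h3, h2 2 (by norm_num) (by norm_num) (by norm_num)]
      · rw [h2 0 (by norm_num) (by norm_num) (by norm_num)]
        have h4 := h3 v
        rw [show 2 * 1 = 2 by norm_num] at h4
        rw [h4, map_neg]
    rw [h1, map_neg, neg_neg]
  set M := LinearMap.range (clE B 2) with hMdef
  have hM : ∀ v, v ∈ M ↔ clJ B 0 v = v ∧ clJ B 1 v = v := E_two D.cl
  have hMrank : finrank ℂ M = 2 := by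
    have h1 : finrank ℂ M * 2 ^ 2 = finrank ℂ V := D.cl.finrank_E 2 (by norm_num)
    have h2 : (2 : ℕ) ^ 2 = 4 := by norm_num
    rw [S.finrank_card, hcard, h2] at h1
    omega
  have hJJ : ∀ v, clJ B 0 (clJ B 0 v) = v := by
    intro v
    rw [← Module.End.mul_apply, D.cl.J_sq 0 (by norm_num)]; rfl
  have hnd : ∀ u ∈ M, (∀ w ∈ M, β u w = 0) → u = 0 := by
    intro u hu h
    obtain ⟨hu0, hu1⟩ := (hM u).mp hu
    have h1 : ∀ w, β u w = 0 := by
      intro w
      have h2 : β u w = β u (clE B 2 w) := by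
        have h3 : clE B 2 w = (1 / 4 : ℂ) • ((1 + clJ B 0) * (1 + clJ B 1)) w := by
          rw [clE, clE, clE, one_mul, smul_mul_assoc, mul_smul_comm, smul_smul]
          norm_num
        have h4 : ((1 + clJ B 0) * (1 + clJ B 1)) w =
            w + clJ B 1 w + clJ B 0 (w + clJ B 1 w) := rfl
        have e0 := fun w => hJβ 0 (by norm_num) u w
        have e1 := fun w => hJβ 1 (by norm_num) u w
        rw [hu0] at e0
        rw [hu1] at e1
        rw [h3, h4, map_smul, map_add, ← e0, map_add, ← e1, smul_eq_mul]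
        ring
      rw [h2]
      exact h _ ⟨w, rfl⟩
    apply S.nondeg
    intro a
    have h5 := h1 (B 2 (B 0 (S.e' a)))
    rw [hβ, sqv 2 (by norm_num), sqv 0 (by norm_num)] at h5
    exact h5
  obtain ⟨m0, hm0, hne, h00, hline⟩ := plane_isotropic β hβs M hMrank hnd
  obtain ⟨hJ0, hJ1⟩ := (hM m0).mp hm0
  rw [Jv] at hJ0 hJ1
  simp only [mul_zero, zero_add, mul_one] at hJ0 hJ1
  -- B 1 and B 3 on m0
  have hB1 : B 1 m0 = (-Complex.I) • B 0 m0 := by
    have h1 := congrArg (B 0) hJ0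
    rw [map_smul, sqv 0 (by norm_num)] at h1
    rw [← h1, smul_smul]
    simp
  have hB3 : B 3 m0 = (-Complex.I) • B 2 m0 := by
    have h1 := congrArg (B 2) hJ1
    rw [map_smul, sqv 2 (by norm_num)] at h1
    rw [← h1, smul_smul]
    simp
  let g : Fin 4 → V := ![m0, B 0 m0, B 2 m0, B 0 (B 2 m0)]
  let W : Submodule ℂ V := Submodule.span ℂ (Set.range g)
  have g0 : m0 ∈ W := Submodule.subset_span ⟨0, rfl⟩
  have g1 : B 0 m0 ∈ W := Submodule.subset_span ⟨1, rfl⟩
  have g2 : B 2 m0 ∈ W := Submodule.subset_span ⟨2, rfl⟩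
  have g3 : B 0 (B 2 m0) ∈ W := Submodule.subset_span ⟨3, rfl⟩
  have hstab : ∀ f : Module.End ℂ V, f m0 ∈ W → f (B 0 m0) ∈ W → f (B 2 m0) ∈ W →
      f (B 0 (B 2 m0)) ∈ W → ∀ v ∈ W, f v ∈ W := by
    intro f f0 f1 f2 f3 v hv
    have h1 : W.map f ≤ W := by
      show (Submodule.span ℂ (Set.range g)).map f ≤ W
      rw [Submodule.map_span_le]
      rintro _ ⟨i, rfl⟩
      fin_cases i
      · exact f0
      · exact f1
      · exact f2
      · exact f3
    exact h1 ⟨v, hv, rfl⟩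
  have h0 : ∀ v ∈ W, B 0 v ∈ W := by
    apply hstab
    · exact g1
    · rw [sqv 0 (by norm_num)]; exact g0
    · exact g3
    · rw [sqv 0 (by norm_num)]; exact g2
  have h2 : ∀ v ∈ W, B 2 v ∈ W := by
    apply hstab
    · exact g2
    · rw [antiv 2 0 (by norm_num) (by norm_num) (by norm_num)]; exact W.neg_mem g3
    · rw [sqv 2 (by norm_num)]; exact g0
    · rw [antiv 2 0 (by norm_num) (by norm_num) (by norm_num), sqv 2 (by norm_num)]
      exact W.neg_mem g1
  have h1 : ∀ v ∈ W, B 1 v ∈ W := by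
    apply hstab
    · rw [hB1]; exact W.smul_mem _ g1
    · rw [antiv 1 0 (by norm_num) (by norm_num) (by norm_num), hB1]
      exact W.neg_mem (h0 _ (W.smul_mem _ g1))
    · rw [antiv 1 2 (by norm_num) (by norm_num) (by norm_num), hB1]
      exact W.neg_mem (h2 _ (W.smul_mem _ g1))
    · rw [antiv 1 0 (by norm_num) (by norm_num) (by norm_num),
        antiv 1 2 (by norm_num) (by norm_num) (by norm_num), hB1]
      exact W.neg_mem (h0 _ (W.neg_mem (h2 _ (W.smul_mem _ g1))))
  have h3 : ∀ v ∈ W, B 3 v ∈ W := by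
    apply hstab
    · rw [hB3]; exact W.smul_mem _ g2
    · rw [antiv 3 0 (by norm_num) (by norm_num) (by norm_num), hB3]
      exact W.neg_mem (h0 _ (W.smul_mem _ g2))
    · rw [antiv 3 2 (by norm_num) (by norm_num) (by norm_num), hB3]
      exact W.neg_mem (h2 _ (W.smul_mem _ g2))
    · rw [antiv 3 0 (by norm_num) (by norm_num) (by norm_num),
        antiv 3 2 (by norm_num) (by norm_num) (by norm_num), hB3]
      exact W.neg_mem (h0 _ (W.neg_mem (h2 _ (W.smul_mem _ g2))))
  have h4 : ∀ v ∈ W, B 4 v ∈ W := by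
    intro v hv
    have e1 : clP B 4 * clP B 4 = sg 4 • 1 := D.cl.P_sq 4 (by norm_num)
    have e2 : sg 4 = 1 := by norm_num [sg]
    rw [e2, one_smul] at e1
    have e3 : clP B 4 * B 4 = c • 1 := hc
    have e4 : B 4 = c • clP B 4 := by
      calc B 4 = (clP B 4 * clP B 4) * B 4 := by rw [e1, one_mul]
        _ = clP B 4 * (clP B 4 * B 4) := by rw [mul_assoc]
        _ = c • clP B 4 := by rw [e3, mul_smul_comm, mul_one]
    have e5 : clP B 4 v = B 0 (B 1 (B 2 (B 3 v))) := rfl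
    rw [e4, LinearMap.smul_apply, e5]
    exact W.smul_mem _ (h0 _ (h1 _ (h2 _ (h3 _ hv))))
  have hBk : ∀ k < 5, ∀ v ∈ W, B k v ∈ W := by
    intro k hk
    interval_cases k
    · exact h0
    · exact h1
    · exact h2
    · exact h3
    · exact h4
  have hG : ∀ X ∈ G, ∀ v ∈ W, X v ∈ W := by
    apply D.stable W hBk
    intro Z hZ hZs
    have hZv : ∀ k < 5, ∀ v, Z (B k v) = B k (Z v) := by
      intro k hk v
      rw [← Module.End.mul_apply, hZ k hk]; rfl
    have hZm : ∃ t : ℂ, Z m0 = t • m0 := by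
      apply hline
      · rw [hM]
        constructor
        · rw [Jv, ← hZv 1 (by norm_num), ← hZv 0 (by norm_num), ← map_smul]
          exact congrArg Z hJ0
        · rw [Jv, ← hZv 3 (by norm_num), ← hZv 2 (by norm_num), ← map_smul]
          exact congrArg Z hJ1
      · have e1 : β m0 (Z m0) = - β (Z m0) m0 := by
          rw [hβ, hβ, hZs, neg_neg, ← hZv 2 (by norm_num), ← hZv 0 (by norm_num)]
        rw [hβs (Z m0)] at e1
        have e2 : (2 : ℂ) * β m0 (Z m0) = 0 := by linear_combination e1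
        simpa using e2
    obtain ⟨t, ht⟩ := hZm
    apply hstab
    · rw [ht]; exact W.smul_mem _ g0
    · rw [hZv 0 (by norm_num), ht]; exact h0 _ (W.smul_mem _ g0)
    · rw [hZv 2 (by norm_num), ht]; exact h2 _ (W.smul_mem _ g0)
    · rw [hZv 0 (by norm_num), hZv 2 (by norm_num), ht]
      exact h0 _ (h2 _ (W.smul_mem _ g0))
  rcases hirr W hG hBk with hW | hW
  · rw [hW, Submodule.mem_bot] at g0
    exact hne g0
  · have h5 : (Set.range g).finrank ℂ ≤ Fintype.card (Fin 4) := finrank_range_le_card g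
    have h6 : finrank ℂ W ≤ 4 := h5
    rw [hW, finrank_top, S.finrank_card, hcard] at h6
    omega

omit D in
/-- no Clifford structure without a four-dimensional stable subspace or a proper subspace stable
under everything -/
theorem cliff_false (S : SympB V ι) (hcard : Fintype.card ι = 8) (G : Set (Module.End ℂ V))
    (hG : ∀ X ∈ G, S.IsSkew X) (U : Submodule ℂ (Module.End ℂ V)) (hU : U ≠ ⊥)
    (hsym : ∀ A ∈ U, S.IsSym A) (htr : ∀ A ∈ U, S.tr A = 0)
    (hcl : ∀ A ∈ U, ∀ B ∈ U, A * B + B * A = (S.tr (A * B) / 4) • 1)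
    (hnd : ∀ A ∈ U, (∀ B ∈ U, S.tr (A * B) = 0) → A = 0)
    (hst : ∀ X ∈ G, ∀ A ∈ U, X * A - A * X ∈ U)
    (h4 : ∀ W : Submodule ℂ V, (∀ X ∈ G, ∀ v ∈ W, X v ∈ W) → finrank ℂ W ≠ 4)
    (hirr : ∀ W : Submodule ℂ V, (∀ X ∈ G, ∀ v ∈ W, X v ∈ W) → (∀ A ∈ U, ∀ v ∈ W, A v ∈ W) →
      W = ⊥ ∨ W = ⊤) : False := by
  have := S.finite_dim
  obtain ⟨m, B, h, hB, hexp⟩ := S.exists_orthonormal U hcl hnd
  have D : S.CD m B G := mkCD U G hsym hG hst h hB hexp
  have hm0 : 0 < m := by
    by_contra hcon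
    have hm : m = 0 := by omega
    apply hU
    rw [Submodule.eq_bot_iff]
    intro A hA
    rw [hexp A hA, hm]
    simp
  have hm7 : m ≤ 7 := h.le_seven (by rw [S.finrank_card, hcard])
  rcases Nat.even_or_odd m with hm | hm
  · exact D.even_false hcard hm hm0 h4
  · have hirr' : ∀ W : Submodule ℂ V, (∀ X ∈ G, ∀ v ∈ W, X v ∈ W) →
        (∀ k < m, ∀ v ∈ W, B k v ∈ W) → W = ⊥ ∨ W = ⊤ := by
      intro W h1 h2
      apply hirr W h1
      intro A hA v hv
      rw [hexp A hA, LinearMap.sum_apply]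
      exact W.sum_mem fun k hk => W.smul_mem _ (h2 k (Finset.mem_range.mp hk) v hv)
    obtain ⟨c, hc, hc0⟩ := D.odd_scalar hcard hm hirr'
    have hsg := D.sg_one hcard c hc hc0
    obtain ⟨s3, s7⟩ := sg_val
    have hcases : m = 1 ∨ m = 3 ∨ m = 5 ∨ m = 7 := by
      obtain ⟨k, hk⟩ := hm
      omega
    rcases hcases with rfl | rfl | rfl | rfl
    · have h1 := htr _ (hB 0 (by norm_num))
      have h2 : clP B 1 = B 0 := by
        rw [clP, clP, one_mul]
      rw [h2] at hc
      rw [hc, S.tr_smul, S.tr_one, hcard] at h1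
      exact hc0 (by simpa using h1)
    · rw [s3] at hsg; norm_num at hsg
    · exact D.five_false hcard c hc hirr'
    · rw [s7] at hsg; norm_num at hsg

end SympB

end Pool.Agent.Helper7
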