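import Pool.Agent.Helper7.CAR

/-!
The cubic identity for primitive four-forms on an eight-dimensional symplectic space.
-/

namespace Pool.Agent.Helper7

open Module

section rep

variable {V : Type} [AddCommGroup V] [Module ℂ V]

/-- creation operators -/
noncomputable def crE : V →ₗ[ℂ] Module.End ℂ (ExteriorAlgebra ℂ V) :=
  (LinearMap.mul ℂ (ExteriorAlgebra ℂ V)) ∘ₗ (ExteriorAlgebra.ι ℂ)

lemma crE_apply (v : V) (x : ExteriorAlgebra ℂ V) : crE v x = ExteriorAlgebra.ι ℂ v * x := rfl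

/-- annihilation operators -/
noncomputable def anE : Module.Dual ℂ V →ₗ[ℂ] Module.End ℂ (ExteriorAlgebra ℂ V) :=
  CliffordAlgebra.contractLeft (Q := (0 : QuadraticForm ℂ V))

lemma isCAR : SympB.IsCAR (crE (V := V)) (anE (V := V)) where
  an_cr φ v := by
    apply LinearMap.ext
    intro x
    exact CliffordAlgebra.contractLeft_ι_mul φ v x
  cr_cr u v := by
    apply LinearMap.ext
    intro x
    have h := ExteriorAlgebra.ι_add_mul_swap (R := ℂ) u v
    have h2 : ExteriorAlgebra.ι ℂ u * ExteriorAlgebra.ι ℂ v =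
      - (ExteriorAlgebra.ι ℂ v * ExteriorAlgebra.ι ℂ u) := eq_neg_of_add_eq_zero_left h
    rw [Module.End.mul_apply, crE_apply, crE_apply, LinearMap.neg_apply, Module.End.mul_apply,
      crE_apply, crE_apply, ← mul_assoc, h2, neg_mul, mul_assoc]
  an_an φ φ' := by
    apply LinearMap.ext
    intro x
    exact CliffordAlgebra.contractLeft_comm _ _ x

lemma anE_one (φ : Module.Dual ℂ V) : anE φ (1 : ExteriorAlgebra ℂ V) = 0 :=
  CliffordAlgebra.contractLeft_one 0 φ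

/-- vanishing in high degree -/
lemma deg_vanish [FiniteDimensional ℂ V] (k : ℕ) (hk : finrank ℂ V < k)
    (x : ExteriorAlgebra ℂ V) (hx : x ∈ (LinearMap.range (ExteriorAlgebra.ι ℂ (M := V))) ^ k) :
    x = 0 := by
  have h1 : x ∈ Submodule.span ℂ (Set.range (ExteriorAlgebra.ιMulti ℂ k (M := V))) := by
    rw [ExteriorAlgebra.ιMulti_span_fixedDegree]
    exact hx
  have h2 : Set.range (ExteriorAlgebra.ιMulti ℂ k (M := V)) ⊆ {0} := by
    rintro _ ⟨v, rfl⟩
    rw [Set.mem_singleton_iff]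
    apply AlternatingMap.map_linearDependent
    intro hli
    have h3 := hli.fintype_card_le_finrank
    rw [Fintype.card_fin] at h3
    omega
  have h3 := Submodule.span_mono h2 h1
  rw [Submodule.span_singleton_eq_bot.mpr rfl] at h3
  exact (Submodule.mem_bot ℂ).mp h3

end rep

section sl2

variable {E : Type} [AddCommGroup E] [Module ℂ E] (Λ L N : Module.End ℂ E)
  (r1 : Λ * L = L * Λ + (16 : ℂ) • 1 - (4 : ℂ) • N)
  (r2 : N * L = L * N + (2 : ℂ) • L)
  (r3 : N * Λ = Λ * N - (2 : ℂ) • Λ)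

include r1 in
lemma sl2_r1 (d : ℂ) (x : E) (hx : N x = d • x) :
    Λ (L x) = L (Λ x) + (16 - 4 * d) • x := by
  have h := congrArg (fun g => g x) r1
  simp only [Module.End.mul_apply, LinearMap.add_apply, LinearMap.sub_apply, LinearMap.smul_apply,
    Module.End.one_apply, hx] at h
  rw [h, smul_smul, sub_smul]
  abel

include r2 in
lemma sl2_r2 (d : ℂ) (x : E) (hx : N x = d • x) : N (L x) = (d + 2) • L x := by
  have h := congrArg (fun g => g x) r2
  simp only [Module.End.mul_apply, LinearMap.add_apply, LinearMap.smul_apply, hx, map_smul] at h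
  rw [h, add_smul]

include r3 in
lemma sl2_r3 (d : ℂ) (x : E) (hx : N x = d • x) : N (Λ x) = (d - 2) • Λ x := by
  have h := congrArg (fun g => g x) r3
  simp only [Module.End.mul_apply, LinearMap.sub_apply, LinearMap.smul_apply, hx, map_smul] at h
  rw [h, sub_smul]

include r1 r2 r3 in
lemma sl2_main (F : E →ₗ[ℂ] ℂ) (hF : ∀ x, F (L x) = 0) (ζ : E) (hζ : N ζ = (6 : ℂ) • ζ)
    (h0 : L (L ζ) = 0) : F (Λ ζ) = 0 := by
  obtain ⟨η, hη⟩ : ∃ η, η = Λ ζ := ⟨_, rfl⟩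
  have hNη : N η = (4 : ℂ) • η := by
    rw [hη, sl2_r3 Λ N r3 6 ζ hζ]; norm_num
  have hNLζ : N (L ζ) = (8 : ℂ) • L ζ := by
    rw [sl2_r2 L N r2 6 ζ hζ]; norm_num
  have e1 : Λ (L ζ) = L η - (8 : ℂ) • ζ := by
    have h8 : (16 - 4 * 6 : ℂ) = -8 := by norm_num
    rw [sl2_r1 Λ L N r1 6 ζ hζ, ← hη, h8, neg_smul, ← sub_eq_add_neg]
  have e2 : L (L η) = (24 : ℂ) • L ζ := by
    have h := sl2_r1 Λ L N r1 8 (L ζ) hNLζ
    rw [h0, map_zero, e1, map_sub, map_smul] at h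
    have h2 : L (L η) = ((8 : ℂ) • L ζ - (16 - 4 * 8 : ℂ) • L ζ) := by
      rw [eq_sub_iff_add_eq]
      have h3 := h.symm
      rw [sub_add_eq_add_sub, sub_eq_zero] at h3
      exact h3
    rw [h2, ← sub_smul]; norm_num
  have hNLη : N (L η) = (6 : ℂ) • L η := by
    rw [sl2_r2 L N r2 4 η hNη]; norm_num
  have e3 : Λ (L η) = L (Λ η) := by
    rw [sl2_r1 Λ L N r1 4 η hNη]; norm_num
  have e4 : Λ (L (L η)) = L (L (Λ η)) - (8 : ℂ) • L η := by
    have h8 : (16 - 4 * 6 : ℂ) = -8 := by norm_num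
    rw [sl2_r1 Λ L N r1 6 (L η) hNLη, e3, h8, neg_smul, ← sub_eq_add_neg]
  have e5 : (192 : ℂ) • ζ = (32 : ℂ) • L η - L (L (Λ η)) := by
    rw [e2, map_smul, e1, smul_sub, smul_smul] at e4
    have h1 : (24 * 8 : ℂ) • ζ = (24 : ℂ) • L η - (L (L (Λ η)) - (8 : ℂ) • L η) := by
      rw [← e4]; abel
    have h2 : (192 : ℂ) = 24 * 8 := by norm_num
    have h3 : (32 : ℂ) = 24 + 8 := by norm_num
    rw [h2, h1, h3, add_smul]
    abel
  obtain ⟨κ, hκ⟩ : ∃ κ, κ = (32 : ℂ) • η - L (Λ η) := ⟨_, rfl⟩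
  have e6 : L κ = (192 : ℂ) • ζ := by
    rw [e5, hκ, map_sub, map_smul]
  have hNκ : N κ = (4 : ℂ) • κ := by
    have h1 : N (Λ η) = (2 : ℂ) • Λ η := by
      rw [sl2_r3 Λ N r3 4 η hNη]; norm_num
    have h2 : N (L (Λ η)) = (4 : ℂ) • L (Λ η) := by
      rw [sl2_r2 L N r2 2 (Λ η) h1]; norm_num
    rw [hκ, map_sub, map_smul, hNη, h2, smul_sub, smul_comm]
  have e7 : F (Λ (L κ)) = 0 := by
    rw [sl2_r1 Λ L N r1 4 κ hNκ, map_add, hF]; norm_num
  rw [e6, map_smul, map_smul, smul_eq_mul] at e7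
  have h192 : (192 : ℂ) ≠ 0 := by norm_num
  exact (mul_eq_zero.mp e7).resolve_left h192

end sl2

namespace SympB

variable {V : Type} [AddCommGroup V] [Module ℂ V] {ι : Type} [Fintype ι] [DecidableEq ι]
  (S : SympB V ι)

/-- the bivector operators on the exterior algebra -/
noncomputable abbrev LE (A : Module.End ℂ V) : Module.End ℂ (ExteriorAlgebra ℂ V) := S.LA crE A

lemma LE_add (A B : Module.End ℂ V) : S.LE (A + B) = S.LE A + S.LE B := by
  simp only [LE, LA, ← Finset.sum_add_distrib]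
  refine Finset.sum_congr rfl fun a _ => ?_
  rw [LinearMap.add_apply, map_add, add_mul]

lemma LE_smul (c : ℂ) (A : Module.End ℂ V) : S.LE (c • A) = c • S.LE A := by
  simp only [LE, LA, Finset.smul_sum]
  refine Finset.sum_congr rfl fun a _ => ?_
  rw [LinearMap.smul_apply, map_smul, smul_mul_assoc]

lemma tr_one : S.tr 1 = Fintype.card ι := by
  simp [tr, S.dual]

lemma LE_mem (A : Module.End ℂ V) (k : ℕ) (x : ExteriorAlgebra ℂ V)
    (hx : x ∈ (LinearMap.range (ExteriorAlgebra.ι ℂ (M := V))) ^ k) :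
    S.LE A x ∈ (LinearMap.range (ExteriorAlgebra.ι ℂ (M := V))) ^ (k + 2) := by
  rw [LE, LA, LinearMap.sum_apply]
  refine Submodule.sum_mem _ fun a _ => ?_
  rw [Module.End.mul_apply, crE_apply, crE_apply]
  have h : k + 2 = 1 + (1 + k) := by ring
  rw [h, pow_add, pow_add, pow_one]
  exact Submodule.mul_mem_mul ⟨_, rfl⟩ (Submodule.mul_mem_mul ⟨_, rfl⟩ hx)

/-- the cubic identity -/
theorem cubic (hdim : Fintype.card ι = 8) (F : ExteriorAlgebra ℂ V →ₗ[ℂ] ℂ)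
    (hF : ∀ x, F (S.LE 1 x) = 0) (A B C : Module.End ℂ V) (hA : S.IsSym A) (hB : S.IsSym B)
    (hC : S.IsSym C) (tA : S.tr A = 0) (tB : S.tr B = 0) (tC : S.tr C = 0) :
    F (S.LE (A * B + B * A) (S.LE C 1)) + F (S.LE B (S.LE (A * C + C * A) 1)) +
      F (S.LE A (S.LE (B * C + C * B) 1)) = 0 := by
  have hone : S.IsSym 1 := fun u v => rfl
  obtain ⟨Λ, hΛ⟩ : ∃ Λ, Λ = S.Lam (anE (V := V)) := ⟨_, rfl⟩
  obtain ⟨N, hN⟩ : ∃ N, N = S.DA crE anE 1 := ⟨_, rfl⟩
  have r1 : Λ * S.LE 1 = S.LE 1 * Λ + (16 : ℂ) • 1 - (4 : ℂ) • N := by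
    rw [hΛ, hN, S.Lam_LA isCAR 1 hone, S.tr_one, hdim]
    norm_num
  have hNL : ∀ B, N * S.LE B = S.LE B * N + (2 : ℂ) • S.LE B := by
    intro B
    rw [hN, S.DA_LA isCAR 1 B hone, one_mul, mul_one, two_smul]
    congr 1
    exact S.LE_add B B
  have r3 : N * Λ = Λ * N - (2 : ℂ) • Λ := by
    rw [hΛ, hN, S.N_Lam isCAR]
  have hΛ1 : Λ 1 = 0 := by
    rw [hΛ, Lam, LinearMap.sum_apply]
    exact Finset.sum_eq_zero fun a _ => by rw [Module.End.mul_apply, anE_one, map_zero]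
  have hD1 : ∀ A, S.DA crE anE A (1 : ExteriorAlgebra ℂ V) = 0 := by
    intro A
    rw [DA, LinearMap.sum_apply]
    exact Finset.sum_eq_zero fun a _ => by rw [Module.End.mul_apply, anE_one, map_zero]
  have hN1 : N 1 = (0 : ℂ) • 1 := by rw [hN, hD1, zero_smul]
  -- the vector
  obtain ⟨ζ, hζ⟩ : ∃ ζ, ζ = S.LE A (S.LE B (S.LE C 1)) := ⟨_, rfl⟩
  have hd1 : N (S.LE C 1) = (0 + 2 : ℂ) • S.LE C 1 := sl2_r2 _ N (hNL C) 0 1 hN1
  have hd2 : N (S.LE B (S.LE C 1)) = (0 + 2 + 2 : ℂ) • S.LE B (S.LE C 1) :=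
    sl2_r2 _ N (hNL B) _ _ hd1
  have hd3 : N ζ = (6 : ℂ) • ζ := by
    rw [hζ, sl2_r2 _ N (hNL A) _ _ hd2]; norm_num
  have : FiniteDimensional ℂ V := S.e.finiteDimensional_of_finite
  have h0 : S.LE 1 (S.LE 1 ζ) = 0 := by
    apply deg_vanish 10
    · rw [Module.finrank_eq_card_basis S.e, hdim]; norm_num
    · rw [hζ]
      have h1 : (1 : ExteriorAlgebra ℂ V) ∈
          (LinearMap.range (ExteriorAlgebra.ι ℂ (M := V))) ^ 0 := by
        rw [pow_zero]; exact Submodule.one_le.mp le_rfl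
      exact S.LE_mem _ 8 _ (S.LE_mem _ 6 _ (S.LE_mem _ 4 _ (S.LE_mem _ 2 _ (S.LE_mem _ 0 _ h1))))
  have hmain := sl2_main Λ (S.LE 1) N r1 (hNL 1) r3 F hF ζ hd3 h0
  -- expansion
  have hΛA : ∀ A, S.IsSym A → S.tr A = 0 → ∀ x, Λ (S.LE A x) =
      S.LE A (Λ x) - (4 : ℂ) • S.DA crE anE A x := by
    intro A hA tA x
    have h := congrArg (fun g => g x) (S.Lam_LA (isCAR (V := V)) A hA)
    rw [tA, mul_zero, zero_smul, add_zero] at h
    simp only [Module.End.mul_apply, LinearMap.sub_apply, LinearMap.smul_apply] at h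
    rw [hΛ]
    exact h
  have hDA : ∀ A B, S.IsSym A → ∀ x, S.DA crE anE A (S.LE B x) =
      S.LE B (S.DA crE anE A x) + S.LE (A * B + B * A) x := by
    intro A B hA x
    have h := congrArg (fun g => g x) (S.DA_LA (isCAR (V := V)) A B hA)
    simp only [Module.End.mul_apply, LinearMap.add_apply] at h
    exact h
  rw [hζ, hΛA A hA tA, hΛA B hB tB, hΛA C hC tC, hΛ1, map_zero, hD1, smul_zero, sub_zero,
    map_zero, hDA B C hB, hD1, map_zero, zero_add, hDA A B hA, hDA A C hA, hD1, map_zero,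
    zero_add, zero_sub, map_neg, map_sub, map_neg, map_smul, map_smul, map_smul, map_add] at hmain
  simp only [smul_eq_mul] at hmain
  linear_combination (-1 / 4 : ℂ) * hmain

end SympB

end Pool.Agent.Helper7
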