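import Pool.Agent.Helper7.GQ

/-!
Infinitesimal symmetries are complex combinations of rational ones.
-/

namespace Pool.Agent.Helper7

open Module

variable {I : Type*} [Fintype I] [DecidableEq I] (n : I → ℕ)
  {κ : I → Type*} [∀ i, Fintype (κ i)] [∀ i, DecidableEq (κ i)] {ϖ : ℂ}
  (P : ∀ i, PData (κ i) ϖ)
  {k : ℕ} (α : MultilinearMap ℂ (fun _ : Fin (2 * k) => HW κ n) ℂ)

/-- rational elements -/
def IsRatl (X : GG κ) : Prop := (∀ i, ∀ v ∈ (P i).Q, X.1 i v ∈ (P i).Q) ∧ ∃ q : ℚ, X.2 = q

/-- index set for the matrix entries -/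
abbrev EntryIdx : Type _ := (Σ i, (P i).ι × (P i).ι) ⊕ Unit

/-- the element with given rational matrix entries -/
noncomputable def fromEntries (y : EntryIdx P → ℚ) : GG κ :=
  (fun i => (P i).bB.constr ℂ (fun q => ∑ p, (y (.inl ⟨i, p, q⟩) : ℂ) • (P i).bB p),
    (y (.inr ()) : ℂ))

omit [Fintype I] [DecidableEq I] in
lemma fromEntries_basis (y : EntryIdx P → ℚ) (i : I) (q : (P i).ι) :
    (fromEntries P y).1 i ((P i).bB q) = ∑ p, (y (.inl ⟨i, p, q⟩) : ℂ) • (P i).bB p := by
  rw [fromEntries]
  exact Basis.constr_basis _ _ _ _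

omit [Fintype I] [DecidableEq I] in
lemma fromEntries_isRatl (y : EntryIdx P → ℚ) : IsRatl P (fromEntries P y) := by
  refine ⟨fun i v hv => ?_, _, rfl⟩
  unfold PData.Q at hv
  induction hv using Submodule.span_induction with
  | mem x hx =>
    obtain ⟨q, rfl⟩ := hx
    rw [fromEntries_basis]
    exact Submodule.sum_mem _ fun p _ => (P i).rat_smul_mem _ _ ((P i).basis_mem p)
  | zero => rw [map_zero]; exact Submodule.zero_mem _
  | add x y _ _ hx hy => rw [map_add]; exact Submodule.add_mem _ hx hy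
  | smul a x _ hx =>
    have h1 : a • x = (a : ℂ) • x := by
      rw [← algebraMap_smul ℂ a x]; rfl
    rw [h1, map_smul]
    exact (P i).rat_smul_mem _ _ hx

omit [DecidableEq I] in
lemma exists_decomp (X : GG κ) : ∃ (m : ℕ) (c : Fin m → ℂ) (Y : Fin m → GG κ),
    LinearIndependent ℚ c ∧ (∀ l, IsRatl P (Y l)) ∧ X = ∑ l, c l • Y l := by
  obtain ⟨m, c, y, hc, hx⟩ := exists_rat_decomp (X := EntryIdx P)
    (Sum.elim (fun t => (P t.1).bB.repr (X.1 t.1 ((P t.1).bB t.2.2)) t.2.1) (fun _ => X.2))
  refine ⟨m, c, fun l => fromEntries P (y l), hc, fun l => fromEntries_isRatl P _, ?_⟩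
  apply Prod.ext
  · funext i
    apply (P i).bB.ext
    intro q
    have h1 : (∑ l, c l • fromEntries P (y l)).1 i ((P i).bB q) =
        ∑ l, c l • (fromEntries P (y l)).1 i ((P i).bB q) := by
      rw [Prod.fst_sum, Finset.sum_apply, LinearMap.sum_apply]
      rfl
    rw [h1]
    simp only [fromEntries_basis, Finset.smul_sum, smul_smul]
    rw [Finset.sum_comm]
    conv_lhs => rw [← (P i).bB.sum_repr (X.1 i ((P i).bB q))]
    refine Finset.sum_congr rfl fun p _ => ?_
    rw [← Finset.sum_smul]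
    congr 1
    exact hx (.inl ⟨i, p, q⟩)
  · rw [Prod.snd_sum]
    exact hx (.inr ())

omit [Fintype I] [DecidableEq I] in
lemma form_value_rat
    (hB : ∀ v : Fin (2 * k) → HW κ n, (∀ r, IsRatP n P (v r)) → ∃ q : ℚ, α v = ϖ ^ k * q)
    (Y : GG κ) (hY : IsRatl P Y) (v : Fin (2 * k) → HW κ n) (hv : ∀ r, IsRatP n P (v r)) :
    ∃ q : ℚ, actForm (lift n Y.1) α v - (k * Y.2) * α v = ϖ ^ k * q := by
  have h1 : ∀ r, ∃ q : ℚ, α (Function.update v r (lift n Y.1 (v r))) = ϖ ^ k * q := by
    intro r
    apply hB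
    intro r' i m
    by_cases h : r' = r
    · subst h
      rw [Function.update_self, lift_apply]
      exact hY.1 i _ (hv r' i m)
    · rw [Function.update_of_ne h]; exact hv r' i m
  choose q hq using h1
  obtain ⟨a, ha⟩ := hY.2
  obtain ⟨b, hb⟩ := hB v hv
  refine ⟨(∑ r, q r) - k * a * b, ?_⟩
  rw [actForm_apply, Finset.sum_congr rfl (fun r _ => hq r), ha, hb]
  push_cast
  rw [mul_sub, Finset.mul_sum]
  ring

/-- rational components of an infinitesimal symmetry are infinitesimal symmetries -/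
theorem isInv_component (hϖ : ϖ ≠ 0)
    (hB : ∀ v : Fin (2 * k) → HW κ n, (∀ r, IsRatP n P (v r)) → ∃ q : ℚ, α v = ϖ ^ k * q)
    (X : GG κ) (hX : IsInv n P α X) {m : ℕ} (c : Fin m → ℂ) (Y : Fin m → GG κ)
    (hc : LinearIndependent ℚ c) (hY : ∀ l, IsRatl P (Y l)) (hsum : X = ∑ l, c l • Y l)
    (l : Fin m) : IsInv n P α (Y l) := by
  have hX1 : ∀ i v, X.1 i v = ∑ l, c l • (Y l).1 i v := by
    intro i v
    rw [hsum, Prod.fst_sum, Finset.sum_apply, LinearMap.sum_apply]
    rfl
  have hX2 : X.2 = ∑ l, c l * (Y l).2 := by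
    rw [hsum, Prod.snd_sum]
    rfl
  refine ⟨?_, ?_, ?_⟩
  · intro i j f hf v
    have h1 : ((Y l).1 j) ∘ₗ f = f ∘ₗ ((Y l).1 i) := by
      apply (P i).bB.ext
      intro q
      have h2 := vec_eq_zero_of_indep (P j).bB c hc
        (fun l => (Y l).1 j (f ((P i).bB q)) - f ((Y l).1 i ((P i).bB q))) (fun l =>
          Submodule.sub_mem _ ((hY l).1 j _ (hf.rat _ ((P i).basis_mem q)))
            (hf.rat _ ((hY l).1 i _ ((P i).basis_mem q)))) (by
          have h3 := hX.comm i j f hf ((P i).bB q)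
          rw [hX1, hX1, map_sum] at h3
          simp only [map_smul] at h3
          simp only [smul_sub, Finset.sum_sub_distrib]
          rw [h3, sub_self]) l
      exact sub_eq_zero.mp h2
    exact congrArg (fun g => g v) h1
  · intro i u v
    have h1 : (P i).ψ.comp ((Y l).1 i) + (P i).ψ.compl₂ ((Y l).1 i) = (Y l).2 • (P i).ψ := by
      apply (P i).bB.ext
      intro p
      apply (P i).bB.ext
      intro q
      have h2 := eq_zero_of_indep c hc ϖ hϖ
        (fun l => (P i).ψ ((Y l).1 i ((P i).bB p)) ((P i).bB q) +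
          (P i).ψ ((P i).bB p) ((Y l).1 i ((P i).bB q)) -
          (Y l).2 * (P i).ψ ((P i).bB p) ((P i).bB q)) (fun l => by
          obtain ⟨a, ha⟩ := (P i).hψQ _ ((hY l).1 i _ ((P i).basis_mem p)) _ ((P i).basis_mem q)
          obtain ⟨b, hb⟩ := (P i).hψQ _ ((P i).basis_mem p) _ ((hY l).1 i _ ((P i).basis_mem q))
          obtain ⟨d, hd⟩ := (P i).hψQ _ ((P i).basis_mem p) _ ((P i).basis_mem q)
          obtain ⟨e, he⟩ := (hY l).2
          refine ⟨a + b - e * d, ?_⟩
          rw [ha, hb, hd, he]; push_cast; ring) (by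
          have h3 := hX.pol i ((P i).bB p) ((P i).bB q)
          rw [hX1, hX1, hX2, map_sum, LinearMap.sum_apply, map_sum] at h3
          simp only [map_smul, LinearMap.smul_apply, smul_eq_mul] at h3
          simp only [mul_sub, mul_add, Finset.sum_sub_distrib, Finset.sum_add_distrib]
          rw [h3, Finset.sum_mul, sub_eq_zero]
          exact Finset.sum_congr rfl fun l _ => by ring) l
      show (P i).ψ ((Y l).1 i ((P i).bB p)) ((P i).bB q) +
          (P i).ψ ((P i).bB p) ((Y l).1 i ((P i).bB q)) =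
          (Y l).2 * (P i).ψ ((P i).bB p) ((P i).bB q)
      linear_combination h2
    exact congrArg (fun g => g u v) h1
  · apply Basis.ext_multilinear (fun _ => FBP n P)
    intro s
    have hs : ∀ r, IsRatP n P (FBP n P (s r)) := fun r => FBP_isRatP n P _
    have h2 := eq_zero_of_indep c hc (ϖ ^ k) (pow_ne_zero k hϖ)
      (fun l => actForm (lift n (Y l).1) α (fun r => FBP n P (s r)) -
        (k * (Y l).2) * α (fun r => FBP n P (s r)))
      (fun l => form_value_rat n P α hB _ (hY l) _ hs) (by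
        have h3 := congrArg (fun g => g (fun r => FBP n P (s r))) hX.form
        simp only [actForm_apply, _root_.smul_apply, smul_eq_mul] at h3
        have h4 : ∀ r, α (Function.update (fun r => FBP n P (s r)) r
            (lift n X.1 (FBP n P (s r)))) =
            ∑ l, c l * α (Function.update (fun r => FBP n P (s r)) r
            (lift n (Y l).1 (FBP n P (s r)))) := by
          intro r
          have h5 : lift n X.1 (FBP n P (s r)) = ∑ l, c l • lift n (Y l).1 (FBP n P (s r)) := by
            funext i m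
            rw [lift_apply, hX1, Finset.sum_apply, Finset.sum_apply]
            rfl
          rw [h5]
          rw [MultilinearMap.map_update_sum]
          exact Finset.sum_congr rfl fun l _ => by
            rw [MultilinearMap.map_update_smul, smul_eq_mul]
        rw [Finset.sum_congr rfl (fun r _ => h4 r), Finset.sum_comm, hX2] at h3
        simp only [actForm_apply, mul_sub, Finset.sum_sub_distrib, Finset.mul_sum]
        rw [h3, Finset.mul_sum, Finset.sum_mul, sub_eq_zero]
        exact Finset.sum_congr rfl fun l _ => by ring) l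
    rw [_root_.smul_apply, smul_eq_mul]
    exact sub_eq_zero.mp h2

/-- infinitesimal symmetries are combinations of rational ones -/
theorem mem_span_of_isInv (hϖ : ϖ ≠ 0)
    (hB : ∀ v : Fin (2 * k) → HW κ n, (∀ r, IsRatP n P (v r)) → ∃ q : ℚ, α v = ϖ ^ k * q)
    (X : GG κ) (hX : IsInv n P α X) :
    X ∈ Submodule.span ℂ {Y | IsInv n P α Y ∧ IsRatl P Y} := by
  obtain ⟨m, c, Y, hc, hY, hsum⟩ := exists_decomp P X
  rw [hsum]
  exact Submodule.sum_mem _ fun l _ => Submodule.smul_mem _ _ (Submodule.subset_span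
    ⟨isInv_component n P α hϖ hB X hX c Y hc hY hsum l, hY l⟩)

end Pool.Agent.Helper7
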