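import Pool.Agent.Helper7.TX4

/-!
An eigenvalue of maximal absolute value gives a Clifford structure.
-/

namespace Pool.Agent.Helper7

open Module

section abs

variable {E : Type} [AddCommGroup E] [Module ℂ E]

/-- multilinear forms infinitesimally invariant under `T` vanish on generalised eigenvectors when
the eigenvalues do not add up to zero -/
lemma tri_vanish (T : Module.End ℂ E) (N : E →ₗ[ℂ] E →ₗ[ℂ] E →ₗ[ℂ] ℂ)
    (hN : ∀ A B C, N (T A) B C + N A (T B) C + N A B (T C) = 0) (l1 l2 l3 : ℂ)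
    (hl : l1 + l2 + l3 ≠ 0) : ∀ (n k1 k2 k3 : ℕ), k1 + k2 + k3 ≤ n → ∀ A B C,
    ((T - algebraMap ℂ _ l1) ^ k1) A = 0 → ((T - algebraMap ℂ _ l2) ^ k2) B = 0 →
    ((T - algebraMap ℂ _ l3) ^ k3) C = 0 → N A B C = 0 := by
  intro n
  induction n with
  | zero =>
    intro k1 k2 k3 hk A B C hA _ _
    have h1 : k1 = 0 := by omega
    rw [h1, pow_zero, Module.End.one_apply] at hA
    rw [hA, map_zero, LinearMap.zero_apply, LinearMap.zero_apply]
  | succ n ih =>
    intro k1 k2 k3 hk A B C hA hB hC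
    rcases Nat.eq_zero_or_pos k1 with h1 | h1
    · rw [h1, pow_zero, Module.End.one_apply] at hA
      rw [hA, map_zero, LinearMap.zero_apply, LinearMap.zero_apply]
    rcases Nat.eq_zero_or_pos k2 with h2 | h2
    · rw [h2, pow_zero, Module.End.one_apply] at hB
      rw [hB, map_zero, LinearMap.zero_apply]
    rcases Nat.eq_zero_or_pos k3 with h3 | h3
    · rw [h3, pow_zero, Module.End.one_apply] at hC
      rw [hC, map_zero]
    have hstep : ∀ (l : ℂ) (k : ℕ) (Z : E), 0 < k → ((T - algebraMap ℂ _ l) ^ k) Z = 0 →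
        ((T - algebraMap ℂ _ l) ^ (k - 1)) ((T - algebraMap ℂ _ l) Z) = 0 := by
      intro l k Z hk hZ
      rw [← Module.End.mul_apply, ← pow_succ, Nat.sub_add_cancel hk]
      exact hZ
    have e1 := ih (k1 - 1) k2 k3 (by omega) ((T - algebraMap ℂ _ l1) A) B C
      (hstep l1 k1 A h1 hA) hB hC
    have e2 := ih k1 (k2 - 1) k3 (by omega) A ((T - algebraMap ℂ _ l2) B) C hA
      (hstep l2 k2 B h2 hB) hC
    have e3 := ih k1 k2 (k3 - 1) (by omega) A B ((T - algebraMap ℂ _ l3) C) hA hB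
      (hstep l3 k3 C h3 hC)
    simp only [LinearMap.sub_apply, Module.algebraMap_end_apply, map_sub, map_smul,
      LinearMap.smul_apply, smul_eq_mul] at e1 e2 e3
    have h := hN A B C
    have h5 : (l1 + l2 + l3) * N A B C = 0 := by linear_combination h - e1 - e2 - e3
    exact (mul_eq_zero.mp h5).resolve_left hl

/-- self-adjoint operators have orthogonal generalised eigenspaces -/
lemma bi_vanish (T : Module.End ℂ E) (Q : E →ₗ[ℂ] E →ₗ[ℂ] ℂ)
    (hQ : ∀ A B, Q (T A) B = Q A (T B)) (l1 l2 : ℂ)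
    (hl : l1 ≠ l2) : ∀ (n k1 k2 : ℕ), k1 + k2 ≤ n → ∀ A B,
    ((T - algebraMap ℂ _ l1) ^ k1) A = 0 → ((T - algebraMap ℂ _ l2) ^ k2) B = 0 →
    Q A B = 0 := by
  intro n
  induction n with
  | zero =>
    intro k1 k2 hk A B hA _
    have h1 : k1 = 0 := by omega
    rw [h1, pow_zero, Module.End.one_apply] at hA
    rw [hA, map_zero, LinearMap.zero_apply]
  | succ n ih =>
    intro k1 k2 hk A B hA hB
    rcases Nat.eq_zero_or_pos k1 with h1 | h1
    · rw [h1, pow_zero, Module.End.one_apply] at hA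
      rw [hA, map_zero, LinearMap.zero_apply]
    rcases Nat.eq_zero_or_pos k2 with h2 | h2
    · rw [h2, pow_zero, Module.End.one_apply] at hB
      rw [hB, map_zero]
    have hstep : ∀ (l : ℂ) (k : ℕ) (Z : E), 0 < k → ((T - algebraMap ℂ _ l) ^ k) Z = 0 →
        ((T - algebraMap ℂ _ l) ^ (k - 1)) ((T - algebraMap ℂ _ l) Z) = 0 := by
      intro l k Z hk hZ
      rw [← Module.End.mul_apply, ← pow_succ, Nat.sub_add_cancel hk]
      exact hZ
    have e1 := ih (k1 - 1) k2 (by omega) ((T - algebraMap ℂ _ l1) A) B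
      (hstep l1 k1 A h1 hA) hB
    have e2 := ih k1 (k2 - 1) (by omega) A ((T - algebraMap ℂ _ l2) B) hA
      (hstep l2 k2 B h2 hB)
    simp only [LinearMap.sub_apply, Module.algebraMap_end_apply, map_sub, map_smul,
      LinearMap.smul_apply, smul_eq_mul] at e1 e2
    have h := hQ A B
    have h5 : (l1 - l2) * Q A B = 0 := by linear_combination h - e1 + e2
    exact (mul_eq_zero.mp h5).resolve_left (sub_ne_zero.mpr hl)

variable [FiniteDimensional ℂ E]

/-- a non-nilpotent operator has an eigenvalue `μ ≠ 0` of maximal absolute value -/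
lemma exists_max_eigen (T : Module.End ℂ E) (hT : ¬ IsNilpotent T) :
    ∃ μ : ℂ, μ ≠ 0 ∧ T.maxGenEigenspace μ ≠ ⊥ ∧ T.maxGenEigenspace (-2 * μ) = ⊥ := by
  classical
  have hfin := Module.End.finite_hasEigenvalue T
  have hbot : ∀ μ, T.maxGenEigenspace μ ≠ ⊥ ↔ T.HasEigenvalue μ := by
    intro μ
    exact Module.End.hasUnifEigenvalue_iff_hasUnifEigenvalue_one (by simp)
  have hnz : ∃ μ, T.HasEigenvalue μ ∧ μ ≠ 0 := by
    by_contra hcon
    push Not at hcon
    apply hT
    have htop : T.maxGenEigenspace 0 = ⊤ := by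
      rw [← Module.End.iSup_maxGenEigenspace_eq_top T]
      apply le_antisymm (le_iSup _ _)
      refine iSup_le fun μ => ?_
      by_cases hμ : μ = 0
      · rw [hμ]
      · have h1 : ¬ T.HasEigenvalue μ := fun h => hμ (hcon μ h)
        rw [← hbot, not_not] at h1
        rw [h1]; exact bot_le
    rw [Module.End.maxGenEigenspace_eq_genEigenspace_finrank] at htop
    refine ⟨finrank ℂ E, ?_⟩
    ext v
    have h1 : v ∈ T.genEigenspace 0 (finrank ℂ E) := htop ▸ Submodule.mem_top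
    rw [Module.End.mem_genEigenspace_nat] at h1
    simpa using h1
  obtain ⟨μ0, hμ0, hμ00⟩ := hnz
  obtain ⟨μ, hμ, hmax⟩ := Set.exists_max_image {μ | T.HasEigenvalue μ} (fun μ => ‖μ‖) hfin
    ⟨μ0, hμ0⟩
  have hμne : μ ≠ 0 := by
    intro h
    have h1 := hmax μ0 hμ0
    rw [h, norm_zero] at h1
    exact hμ00 (norm_le_zero_iff.mp h1)
  refine ⟨μ, hμne, (hbot μ).mpr hμ, ?_⟩
  by_contra hcon
  have h1 := hmax _ ((hbot _).mp hcon)
  simp only [norm_mul, norm_neg, Complex.norm_ofNat] at h1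
  have h2 : 0 < ‖μ‖ := norm_pos_iff.mpr hμne
  linarith

end abs

namespace SympB

variable {V : Type} [AddCommGroup V] [Module ℂ V] {ι : Type} [Fintype ι] [DecidableEq ι]
  (S : SympB V ι)

/-- rank-two symmetric operators -/
noncomputable def rk (v w : V) : Module.End ℂ V :=
  (S.ω.flip v).smulRight w - (S.ω.flip w).smulRight v

lemma rk_apply (v w u : V) : S.rk v w u = S.ω u v • w - S.ω u w • v := rfl

lemma rk_sym (v w : V) : S.IsSym (S.rk v w) := by
  intro a b
  rw [S.rk_apply, S.rk_apply, map_sub, map_sub, LinearMap.sub_apply, map_smul, map_smul, map_smul,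
    map_smul, LinearMap.smul_apply, LinearMap.smul_apply, smul_eq_mul, smul_eq_mul, smul_eq_mul,
    smul_eq_mul, S.alt w b, S.alt v b]
  ring

include S in
lemma finite_dim : FiniteDimensional ℂ V := Module.Finite.of_basis S.e

lemma tr_smulRight (A : Module.End ℂ V) (v w : V) :
    S.tr (A * (S.ω.flip v).smulRight w) = S.ω (A w) v := by
  rw [tr]
  have h1 : ∀ a, S.ω ((A * (S.ω.flip v).smulRight w) (S.e a)) (S.e' a) =
      S.ω (S.e a) v * S.ω (A w) (S.e' a) := by
    intro a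
    rw [Module.End.mul_apply]
    show S.ω (A (S.ω (S.e a) v • w)) (S.e' a) = _
    rw [map_smul, map_smul, LinearMap.smul_apply, smul_eq_mul]
  rw [Finset.sum_congr rfl fun a _ => h1 a]
  conv_rhs => rw [S.exp_e' v, map_sum]
  exact Finset.sum_congr rfl fun a _ => by rw [map_smul, smul_eq_mul]

lemma tr_rk (A : Module.End ℂ V) (hA : S.IsSym A) (v w : V) :
    S.tr (A * S.rk v w) = 2 * S.ω (A w) v := by
  rw [rk, mul_sub, S.tr_eq, map_sub, ← S.tr_eq, ← S.tr_eq, S.tr_smulRight, S.tr_smulRight, hA v w,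
    S.alt v]
  ring

/-- symmetric traceless endomorphisms -/
def E0 : Submodule ℂ (Module.End ℂ V) where
  carrier := {A | S.IsSym A ∧ S.tr A = 0}
  add_mem' := by
    intro A B hA hB
    refine ⟨fun u v => ?_, ?_⟩
    · rw [LinearMap.add_apply, LinearMap.add_apply, map_add, map_add, LinearMap.add_apply, hA.1,
        hB.1]
    · rw [S.tr_eq, map_add, ← S.tr_eq, ← S.tr_eq, hA.2, hB.2, add_zero]
  zero_mem' := by
    refine ⟨fun u v => ?_, ?_⟩
    · simp
    · rw [S.tr_eq, map_zero]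
  smul_mem' := by
    intro c A hA
    refine ⟨fun u v => ?_, ?_⟩
    · rw [LinearMap.smul_apply, LinearMap.smul_apply, map_smul, map_smul, LinearMap.smul_apply,
        hA.1]
    · rw [S.tr_eq, map_smul, ← S.tr_eq, hA.2, smul_zero]

lemma mem_E0 (A : Module.End ℂ V) : A ∈ S.E0 ↔ S.IsSym A ∧ S.tr A = 0 := Iff.rfl

lemma isSym_one : S.IsSym 1 := fun _ _ => rfl

lemma isSym_smul (c : ℂ) (A : Module.End ℂ V) (hA : S.IsSym A) : S.IsSym (c • A) := fun u v => by
  rw [LinearMap.smul_apply, LinearMap.smul_apply, map_smul, map_smul, LinearMap.smul_apply, hA]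

lemma isSym_sub (A B : Module.End ℂ V) (hA : S.IsSym A) (hB : S.IsSym B) : S.IsSym (A - B) :=
  fun u v => by
    rw [LinearMap.sub_apply, LinearMap.sub_apply, map_sub, map_sub, LinearMap.sub_apply, hA, hB]

lemma tr_sub (A B : Module.End ℂ V) : S.tr (A - B) = S.tr A - S.tr B := by
  rw [S.tr_eq, map_sub, ← S.tr_eq, ← S.tr_eq]

lemma tr_add (A B : Module.End ℂ V) : S.tr (A + B) = S.tr A + S.tr B := by
  rw [S.tr_eq, map_add, ← S.tr_eq, ← S.tr_eq]

lemma tr_smul (c : ℂ) (A : Module.End ℂ V) : S.tr (c • A) = c * S.tr A := by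
  rw [S.tr_eq, map_smul, ← S.tr_eq, smul_eq_mul]

section nondegen

variable [Nonempty ι]

omit [DecidableEq ι] in
lemma card_ne : (Fintype.card ι : ℂ) ≠ 0 := by
  rw [Nat.cast_ne_zero]; exact Fintype.card_ne_zero

/-- removing the trace -/
lemma sub_mem_E0 (A : Module.End ℂ V) (hA : S.IsSym A) :
    A - (S.tr A / Fintype.card ι) • 1 ∈ S.E0 := by
  refine ⟨S.isSym_sub _ _ hA (S.isSym_smul _ _ S.isSym_one), ?_⟩
  rw [S.tr_sub, S.tr_smul, S.tr_one, div_mul_cancel₀ _ (card_ne (ι := ι)), sub_self]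

/-- the trace form is nondegenerate on symmetric traceless operators -/
lemma nondeg_E0 (A : Module.End ℂ V) (hA : A ∈ S.E0) (h : ∀ C ∈ S.E0, S.tr (A * C) = 0) :
    A = 0 := by
  apply S.ext_ωE
  intro w v
  have h1 := h _ (S.sub_mem_E0 (S.rk v w) (S.rk_sym v w))
  rw [mul_sub, S.tr_sub, S.tr_rk A hA.1, mul_smul_comm, mul_one, S.tr_smul, hA.2, mul_zero,
    sub_zero] at h1
  rw [LinearMap.zero_apply, map_zero, LinearMap.zero_apply]
  simpa using h1

lemma scalar_of_orth (A : Module.End ℂ V) (hA : S.IsSym A) (h : ∀ C ∈ S.E0, S.tr (A * C) = 0) :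
    A = (S.tr A / Fintype.card ι) • 1 := by
  rw [← sub_eq_zero]
  apply S.nondeg_E0 _ (S.sub_mem_E0 A hA)
  intro C hC
  rw [sub_mul, S.tr_sub, h C hC, smul_mul_assoc, one_mul, S.tr_smul, hC.2, mul_zero, sub_zero]

end nondegen

/-- the cubic form as a trilinear map -/
noncomputable def triN : S.E0 →ₗ[ℂ] S.E0 →ₗ[ℂ] S.E0 →ₗ[ℂ] ℂ :=
  LinearMap.mk₂ ℂ (fun A B =>
    (LinearMap.trace ℂ V) ∘ₗ (LinearMap.mulLeft ℂ (A : Module.End ℂ V)) ∘ₗ
      (LinearMap.mulLeft ℂ (B : Module.End ℂ V) + LinearMap.mulRight ℂ (B : Module.End ℂ V)) ∘ₗ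
      S.E0.subtype)
    (fun A A' B => by
      apply LinearMap.ext; intro C
      simp [add_mul])
    (fun c A B => by
      apply LinearMap.ext; intro C
      simp)
    (fun A B B' => by
      apply LinearMap.ext; intro C
      simp [add_mul, mul_add]
      ring)
    (fun c A B => by
      apply LinearMap.ext; intro C
      simp [mul_add])

lemma triN_apply (A B C : S.E0) : S.triN A B C =
    S.tr ((A : Module.End ℂ V) * ((B : Module.End ℂ V) * C + C * B)) := by
  rw [S.tr_eq]; rfl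

/-- the trace form -/
noncomputable def biQ : S.E0 →ₗ[ℂ] S.E0 →ₗ[ℂ] ℂ :=
  LinearMap.mk₂ ℂ (fun A B => LinearMap.trace ℂ V ((A : Module.End ℂ V) * B))
    (fun A A' B => by simp [add_mul])
    (fun c A B => by simp)
    (fun A B B' => by simp [mul_add])
    (fun c A B => by simp)

lemma biQ_apply (A B : S.E0) : S.biQ A B = S.tr ((A : Module.End ℂ V) * B) := by
  rw [S.tr_eq]; rfl

section main

variable (x : V [⋀^Fin 4]→ₗ[ℂ] ℂ)

lemma T_mem_E0 (h : S.IsPrim x) (A : Module.End ℂ V) : S.T (q4 x) A ∈ S.E0 :=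
  ⟨S.T_sym x A, h.tr_T S A⟩

/-- the restricted operator -/
noncomputable def T0 (h : S.IsPrim x) : Module.End ℂ S.E0 :=
  (S.T (q4 x)).restrict (fun A _ => S.T_mem_E0 x h A)

lemma T0_coe (h : S.IsPrim x) (A : S.E0) : ((S.T0 x h A : S.E0) : Module.End ℂ V) =
    S.T (q4 x) A := rfl

lemma tr_cyc (A B C : Module.End ℂ V) : S.tr (A * B * C) = S.tr (B * C * A) := by
  rw [mul_assoc, S.tr_mul_comm]

lemma triN_inv (hdim : Fintype.card ι = 8) (h : S.IsPrim x) (A B C : S.E0) :
    S.triN (S.T0 x h A) B C + S.triN A (S.T0 x h B) C + S.triN A B (S.T0 x h C) = 0 := by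
  have h1 := S.T_cubic x hdim h A B C A.2.1 B.2.1 C.2.1 A.2.2 B.2.2 C.2.2
  rw [S.triN_apply, S.triN_apply, S.triN_apply, S.T0_coe, S.T0_coe, S.T0_coe]
  simp only [mul_add, S.tr_add] at h1 ⊢
  have e1 := S.tr_cyc (A : Module.End ℂ V) (S.T (q4 x) B) C
  have e2 := S.tr_cyc (C : Module.End ℂ V) A (S.T (q4 x) B)
  have e3 := S.tr_cyc (A : Module.End ℂ V) (S.T (q4 x) C) B
  have e4 := S.tr_cyc (B : Module.End ℂ V) A (S.T (q4 x) C)
  have e5 := S.tr_cyc (A : Module.End ℂ V) B (S.T (q4 x) C)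
  have e6 := S.tr_cyc (B : Module.End ℂ V) (S.T (q4 x) C) A
  have e7 := S.tr_cyc (A : Module.End ℂ V) C (S.T (q4 x) B)
  have e8 := S.tr_cyc (C : Module.End ℂ V) (S.T (q4 x) B) A
  simp only [← mul_assoc] at h1 ⊢ e1 e2 e3 e4 e5 e6 e7 e8
  linear_combination h1 + e1 + e7 + e8 + e5 + e6 + e3

lemma biQ_adj (h : S.IsPrim x) (A B : S.E0) :
    S.biQ (S.T0 x h A) B = S.biQ A (S.T0 x h B) := by
  rw [S.biQ_apply, S.biQ_apply, S.T0_coe, S.T0_coe, S.T_selfadj]

/-- commutation with an infinitesimal symmetry -/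
lemma ad_mem_E0 (X : Module.End ℂ V) (hX : S.IsSkew X) (A : Module.End ℂ V) (hA : A ∈ S.E0) :
    X * A - A * X ∈ S.E0 := by
  refine ⟨fun u v => ?_, ?_⟩
  · rw [LinearMap.sub_apply, LinearMap.sub_apply, map_sub, map_sub, LinearMap.sub_apply,
      Module.End.mul_apply, Module.End.mul_apply, Module.End.mul_apply, Module.End.mul_apply,
      hX, hA.1, hA.1, hX]
    ring
  · rw [S.tr_sub, S.tr_mul_comm, sub_self]

/-- the adjoint operator on symmetric traceless endomorphisms -/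
noncomputable def ad0 (X : Module.End ℂ V) (hX : S.IsSkew X) : Module.End ℂ S.E0 :=
  (LinearMap.mulLeft ℂ X - LinearMap.mulRight ℂ X).restrict
    (fun A hA => S.ad_mem_E0 X hX A hA)

lemma ad0_coe (X : Module.End ℂ V) (hX : S.IsSkew X) (A : S.E0) :
    ((S.ad0 X hX A : S.E0) : Module.End ℂ V) = X * A - A * X := rfl

theorem exists_cliff (hdim : Fintype.card ι = 8) (h : S.IsPrim x)
    (htr : LinearMap.trace ℂ (Module.End ℂ V) (S.T (q4 x) * S.T (q4 x)) ≠ 0) :
    ∃ U : Submodule ℂ (Module.End ℂ V), U ≠ ⊥ ∧ (∀ A ∈ U, S.IsSym A) ∧ (∀ A ∈ U, S.tr A = 0) ∧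
      (∀ A ∈ U, ∀ B ∈ U, A * B + B * A = (S.tr (A * B) / 4) • 1) ∧
      (∀ A ∈ U, (∀ B ∈ U, S.tr (A * B) = 0) → A = 0) ∧
      (∀ X, S.IsSkew X → (∀ a b c d, act4 X (q4 x) a b c d = 0) →
        ∀ A ∈ U, X * A - A * X ∈ U) ∧
      ∃ μ : ℂ, μ ≠ 0 ∧ ∀ A ∈ U, ∃ k : ℕ, ((S.T (q4 x) - μ • 1) ^ k) A = 0 := by
  have := S.finite_dim
  have : Nonempty ι := Fintype.card_pos_iff.mp (by omega)
  set T := S.T (q4 x) with hTdef
  set T0 := S.T0 x h with hT0
  have hnil : ¬ IsNilpotent T0 := by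
    rintro ⟨n, hn⟩
    have h1 : ∀ (k : ℕ) (A : S.E0), (((T0 ^ k) A : S.E0) : Module.End ℂ V) = (T ^ k) A := by
      intro k
      induction k with
      | zero => intro A; rfl
      | succ k ih =>
        intro A
        rw [pow_succ, pow_succ, Module.End.mul_apply, Module.End.mul_apply, ih]
        rfl
    have h2 : T ^ (n + 1) = 0 := by
      apply LinearMap.ext
      intro A
      have h3 := h1 n ⟨T A, S.T_mem_E0 x h A⟩
      rw [hn, LinearMap.zero_apply] at h3
      rw [pow_succ, Module.End.mul_apply, LinearMap.zero_apply]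
      exact h3.symm
    have h4 : IsNilpotent (T * T) := by
      refine ⟨n + 1, ?_⟩
      rw [Commute.mul_pow (Commute.refl T), h2, mul_zero]
    exact htr (LinearMap.isNilpotent_trace_of_isNilpotent h4).eq_zero
  obtain ⟨μ, hμ, hne, hmax⟩ := exists_max_eigen T0 hnil
  set U0 := T0.maxGenEigenspace μ with hU0
  -- all of `E0` is the span of generalised eigenspaces
  have hall : ∀ (f : S.E0 →ₗ[ℂ] ℂ), (∀ l, ∀ C ∈ T0.maxGenEigenspace l, f C = 0) → f = 0 := by
    intro f hf
    have h1 : (⊤ : Submodule ℂ S.E0) ≤ LinearMap.ker f := by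
      rw [← Module.End.iSup_maxGenEigenspace_eq_top T0]
      exact iSup_le fun l => fun C hC => LinearMap.mem_ker.mpr (hf l C hC)
    exact LinearMap.ker_eq_top.mp (top_le_iff.mp h1)
  have hmem : ∀ l, ∀ C ∈ T0.maxGenEigenspace l, ∃ k : ℕ, ((T0 - algebraMap ℂ _ l) ^ k) C = 0 := by
    intro l C hC
    rw [Module.End.mem_maxGenEigenspace] at hC
    simpa only [Algebra.algebraMap_eq_smul_one] using hC
  have hcub : ∀ A ∈ U0, ∀ B ∈ U0, ∀ C, S.triN A B C = 0 := by
    intro A hA B hB C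
    have h1 : S.triN A B = 0 := by
      apply hall
      intro l C hC
      obtain ⟨k1, hk1⟩ := hmem _ _ hA
      obtain ⟨k2, hk2⟩ := hmem _ _ hB
      obtain ⟨k3, hk3⟩ := hmem _ _ hC
      by_cases hl : μ + μ + l = 0
      · have hl2 : l = -2 * μ := by linear_combination hl
        rw [hl2, hmax, Submodule.mem_bot] at hC
        rw [hC, map_zero]
      · exact tri_vanish T0 S.triN (S.triN_inv x hdim h) μ μ l hl _ k1 k2 k3 le_rfl A B C
          hk1 hk2 hk3
    rw [h1, LinearMap.zero_apply]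
  have hbi : ∀ A ∈ U0, (∀ B ∈ U0, S.biQ A B = 0) → A = 0 := by
    intro A hA hAB
    have h1 : S.biQ A = 0 := by
      apply hall
      intro l C hC
      by_cases hl : μ = l
      · subst hl
        exact hAB C hC
      · obtain ⟨k1, hk1⟩ := hmem _ _ hA
        obtain ⟨k3, hk3⟩ := hmem _ _ hC
        exact bi_vanish T0 S.biQ (S.biQ_adj x h) μ l hl _ k1 k3 le_rfl A C hk1 hk3
    apply Subtype.ext
    apply S.nondeg_E0 _ A.2
    intro C hC
    have h2 := congrArg (fun f => f ⟨C, hC⟩) h1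
    simp only [S.biQ_apply, LinearMap.zero_apply] at h2
    exact h2
  refine ⟨U0.map S.E0.subtype, ?_, ?_, ?_, ?_, ?_, ?_, μ, hμ, ?_⟩
  · intro hbot
    apply hne
    rw [Submodule.eq_bot_iff]
    intro A hA
    have h1 : (A : Module.End ℂ V) ∈ U0.map S.E0.subtype := ⟨A, hA, rfl⟩
    rw [hbot, Submodule.mem_bot] at h1
    exact Subtype.ext h1
  · rintro _ ⟨A, _, rfl⟩
    exact A.2.1
  · rintro _ ⟨A, _, rfl⟩
    exact A.2.2
  · rintro _ ⟨A, hA, rfl⟩ _ ⟨B, hB, rfl⟩
    show (A : Module.End ℂ V) * B + B * A = _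
    have hsym : S.IsSym ((A : Module.End ℂ V) * B + B * A) := by
      intro u v
      rw [LinearMap.add_apply, LinearMap.add_apply, map_add, map_add, LinearMap.add_apply,
        Module.End.mul_apply, Module.End.mul_apply, Module.End.mul_apply, Module.End.mul_apply,
        A.2.1, B.2.1, B.2.1, A.2.1, add_comm]
    have h1 := S.scalar_of_orth _ hsym (fun C hC => by
      have h2 := hcub A hA B hB ⟨C, hC⟩
      rw [S.triN_apply] at h2
      have e1 := S.tr_cyc (B : Module.End ℂ V) A C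
      simp only [mul_add, add_mul, S.tr_add, ← mul_assoc] at h2 e1 ⊢
      rw [e1]
      exact h2)
    rw [h1, S.tr_add, S.tr_mul_comm (B : Module.End ℂ V) A, hdim]
    congr 1
    push_cast
    show _ = S.tr ((A : Module.End ℂ V) * B) / 4
    ring
  · rintro _ ⟨A, hA, rfl⟩ hAB
    rw [hbi A hA, map_zero]
    intro B hB
    rw [S.biQ_apply]
    exact hAB _ ⟨B, hB, rfl⟩
  · rintro X hX hact _ ⟨A, hA, rfl⟩
    refine ⟨S.ad0 X hX A, ?_, rfl⟩
    apply Module.End.mapsTo_maxGenEigenspace_of_comm (f := T0) (g := S.ad0 X hX) ?_ μ hA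
    apply LinearMap.ext
    intro B
    apply Subtype.ext
    rw [Module.End.mul_apply, Module.End.mul_apply, S.T0_coe, S.ad0_coe, S.ad0_coe, S.T0_coe,
      S.T_equiv X hX _ hact]
  · rintro _ ⟨A, hA, rfl⟩
    obtain ⟨k, hk⟩ := (Module.End.mem_maxGenEigenspace _ _ _).mp hA
    refine ⟨k, ?_⟩
    have h1 : ∀ (k : ℕ) (A : S.E0), (((T0 - μ • 1) ^ k) A : Module.End ℂ V) =
        ((T - μ • 1) ^ k) A := by
      intro k
      induction k with
      | zero => intro A; rfl
      | succ k ih =>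
        intro A
        rw [pow_succ, pow_succ, Module.End.mul_apply, Module.End.mul_apply, ih]
        rfl
    show ((T - μ • 1) ^ k) (A : Module.End ℂ V) = 0
    rw [← h1, hk]
    rfl

end main

end SympB

end Pool.Agent.Helper7
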