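import Mathlib

/-!
The first fundamental theorem for products of groups `SL_2`, on the level of coefficients.
-/

namespace Pool.Agent.Helper7

/-- the standard alternating form -/
noncomputable def om (j j' : Fin 2) : ℂ :=
  if j = 0 ∧ j' = 1 then 1 else if j = 1 ∧ j' = 0 then -1 else 0

lemma om00 : om 0 0 = 0 := by simp [om]
lemma om01 : om 0 1 = 1 := by simp [om]
lemma om10 : om 1 0 = -1 := by simp [om]
lemma om11 : om 1 1 = 0 := by simp [om]

section

variable {R C : Type*} [DecidableEq R] [DecidableEq C] (cls : R → C)

/-- products of alternating forms over a perfect matching within the classes -/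
inductive GM : Finset R → ((R → Fin 2) → ℂ) → Prop
  | nil : GM ∅ (fun _ => 1)
  | cons {T : Finset R} {g : (R → Fin 2) → ℂ} (r r' : R) : GM T g → r ∉ T → r' ∉ T → r ≠ r' →
      cls r = cls r' → GM (insert r (insert r' T)) (fun s => om (s r) (s r') * g s)

/-- invariance under a copy of `sl_2` for every class -/
structure SInv (T : Finset R) (f : (R → Fin 2) → ℂ) : Prop where
  dep : ∀ s s', (∀ r ∈ T, s r = s' r) → f s = f s'
  lower : ∀ c s, ∑ r ∈ T, (if cls r = c ∧ s r = 1 then f (Function.update s r 0) else 0) = 0
  raise : ∀ c s, ∑ r ∈ T, (if cls r = c ∧ s r = 0 then f (Function.update s r 1) else 0) = 0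
  weight : ∀ c s, (∑ r ∈ T, (if cls r = c then (if s r = 0 then (1 : ℂ) else -1) else 0)) *
    f s = 0

/-- contraction -/
noncomputable def contr (r₀ r : R) (f : (R → Fin 2) → ℂ) (s : R → Fin 2) : ℂ :=
  f (Function.update (Function.update s r₀ 0) r 1) -
    f (Function.update (Function.update s r₀ 1) r 0)

lemma sum_erase2 {T : Finset R} {r₀ r : R} (h0 : r₀ ∈ T) (h1 : r ∈ T) (hne : r ≠ r₀)
    (φ : R → ℂ) : ∑ x ∈ T, φ x = φ r₀ + (φ r + ∑ x ∈ (T.erase r₀).erase r, φ x) := by
  rw [Finset.add_sum_erase _ _ (Finset.mem_erase.mpr ⟨hne, h1⟩), Finset.add_sum_erase _ _ h0]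

lemma contr_inv {T : Finset R} {f : (R → Fin 2) → ℂ} (hf : SInv cls T f) {r₀ r : R}
    (h0 : r₀ ∈ T) (h1 : r ∈ T) (hne : r ≠ r₀) (hc : cls r = cls r₀) :
    SInv cls ((T.erase r₀).erase r) (contr r₀ r f) where
  dep := by
    intro s s' hs
    unfold contr
    congr 1
    · apply hf.dep
      intro x hx
      by_cases hxr : x = r
      · subst hxr; rw [Function.update_self, Function.update_self]
      · rw [Function.update_of_ne hxr, Function.update_of_ne hxr]
        by_cases hx0 : x = r₀
        · subst hx0; rw [Function.update_self, Function.update_self]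
        · rw [Function.update_of_ne hx0, Function.update_of_ne hx0]
          exact hs x (Finset.mem_erase.mpr ⟨hxr, Finset.mem_erase.mpr ⟨hx0, hx⟩⟩)
    · apply hf.dep
      intro x hx
      by_cases hxr : x = r
      · subst hxr; rw [Function.update_self, Function.update_self]
      · rw [Function.update_of_ne hxr, Function.update_of_ne hxr]
        by_cases hx0 : x = r₀
        · subst hx0; rw [Function.update_self, Function.update_self]
        · rw [Function.update_of_ne hx0, Function.update_of_ne hx0]
          exact hs x (Finset.mem_erase.mpr ⟨hxr, Finset.mem_erase.mpr ⟨hx0, hx⟩⟩)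
  lower := by
    intro c s
    have e1 := hf.lower c (Function.update (Function.update s r₀ 0) r 1)
    have e2 := hf.lower c (Function.update (Function.update s r₀ 1) r 0)
    rw [sum_erase2 h0 h1 hne] at e1 e2
    simp only [Function.update_self, Function.update_idem, Function.update_of_ne (Ne.symm hne),
      zero_ne_one, and_false, if_false, and_true, zero_add, hc] at e1 e2
    have hcomm : Function.update (Function.update (Function.update s r₀ 1) r 0) r₀ 0 =
        Function.update (Function.update s r₀ 0) r (0 : Fin 2) := by
      rw [Function.update_comm hne, Function.update_idem]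
    rw [hcomm] at e2
    have hsum : ∑ x ∈ (T.erase r₀).erase r,
        (if cls x = c ∧ s x = 1 then contr r₀ r f (Function.update s x 0) else 0) =
        ∑ x ∈ (T.erase r₀).erase r,
        (if cls x = c ∧ Function.update (Function.update s r₀ 0) r 1 x = 1 then
          f (Function.update (Function.update (Function.update s r₀ 0) r 1) x 0) else 0) -
        ∑ x ∈ (T.erase r₀).erase r,
        (if cls x = c ∧ Function.update (Function.update s r₀ 1) r 0 x = 1 then
          f (Function.update (Function.update (Function.update s r₀ 1) r 0) x 0) else 0) := by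
      rw [← Finset.sum_sub_distrib]
      refine Finset.sum_congr rfl fun x hx => ?_
      have hxr : x ≠ r := Finset.ne_of_mem_erase hx
      have hx0 : x ≠ r₀ := Finset.ne_of_mem_erase (Finset.mem_of_mem_erase hx)
      simp only [Function.update_of_ne hxr, Function.update_of_ne hx0]
      by_cases h : cls x = c ∧ s x = 1
      · rw [if_pos h, if_pos h, if_pos h, contr, Function.update_comm hx0,
          Function.update_comm hxr, Function.update_comm hx0, Function.update_comm hxr]
      · rw [if_neg h, if_neg h, if_neg h, sub_zero]
    rw [hsum]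
    linear_combination e1 - e2
  raise := by
    intro c s
    have e1 := hf.raise c (Function.update (Function.update s r₀ 0) r 1)
    have e2 := hf.raise c (Function.update (Function.update s r₀ 1) r 0)
    rw [sum_erase2 h0 h1 hne] at e1 e2
    simp only [Function.update_self, Function.update_idem, Function.update_of_ne (Ne.symm hne),
      one_ne_zero, and_false, if_false, and_true, zero_add, hc] at e1 e2
    have hcomm : Function.update (Function.update (Function.update s r₀ 0) r 1) r₀ 1 =
        Function.update (Function.update s r₀ 1) r (1 : Fin 2) := by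
      rw [Function.update_comm hne, Function.update_idem]
    rw [hcomm] at e1
    have hsum : ∑ x ∈ (T.erase r₀).erase r,
        (if cls x = c ∧ s x = 0 then contr r₀ r f (Function.update s x 1) else 0) =
        ∑ x ∈ (T.erase r₀).erase r,
        (if cls x = c ∧ Function.update (Function.update s r₀ 0) r 1 x = 0 then
          f (Function.update (Function.update (Function.update s r₀ 0) r 1) x 1) else 0) -
        ∑ x ∈ (T.erase r₀).erase r,
        (if cls x = c ∧ Function.update (Function.update s r₀ 1) r 0 x = 0 then
          f (Function.update (Function.update (Function.update s r₀ 1) r 0) x 1) else 0) := by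
      rw [← Finset.sum_sub_distrib]
      refine Finset.sum_congr rfl fun x hx => ?_
      have hxr : x ≠ r := Finset.ne_of_mem_erase hx
      have hx0 : x ≠ r₀ := Finset.ne_of_mem_erase (Finset.mem_of_mem_erase hx)
      simp only [Function.update_of_ne hxr, Function.update_of_ne hx0]
      by_cases h : cls x = c ∧ s x = 0
      · rw [if_pos h, if_pos h, if_pos h, contr, Function.update_comm hx0,
          Function.update_comm hxr, Function.update_comm hx0, Function.update_comm hxr]
      · rw [if_neg h, if_neg h, if_neg h, sub_zero]
    rw [hsum]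
    linear_combination e1 - e2
  weight := by
    intro c s
    have e1 := hf.weight c (Function.update (Function.update s r₀ 0) r 1)
    have e2 := hf.weight c (Function.update (Function.update s r₀ 1) r 0)
    rw [sum_erase2 h0 h1 hne] at e1 e2
    simp only [Function.update_self, Function.update_of_ne (Ne.symm hne), if_true, one_ne_zero,
      if_false, hc] at e1 e2
    have hs1 : ∑ x ∈ (T.erase r₀).erase r, (if cls x = c then
        (if Function.update (Function.update s r₀ 0) r 1 x = 0 then (1 : ℂ) else -1) else 0) =
        ∑ x ∈ (T.erase r₀).erase r, (if cls x = c then (if s x = 0 then (1 : ℂ) else -1) else 0) :=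
      Finset.sum_congr rfl fun x hx => by
        rw [Function.update_of_ne (Finset.ne_of_mem_erase hx),
          Function.update_of_ne (Finset.ne_of_mem_erase (Finset.mem_of_mem_erase hx))]
    have hs2 : ∑ x ∈ (T.erase r₀).erase r, (if cls x = c then
        (if Function.update (Function.update s r₀ 1) r 0 x = 0 then (1 : ℂ) else -1) else 0) =
        ∑ x ∈ (T.erase r₀).erase r, (if cls x = c then (if s x = 0 then (1 : ℂ) else -1) else 0) :=
      Finset.sum_congr rfl fun x hx => by
        rw [Function.update_of_ne (Finset.ne_of_mem_erase hx),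
          Function.update_of_ne (Finset.ne_of_mem_erase (Finset.mem_of_mem_erase hx))]
    rw [hs1] at e1
    rw [hs2] at e2
    rw [contr, mul_sub]
    by_cases h : cls r₀ = c
    · simp only [if_pos h] at e1 e2
      linear_combination e1 - e2
    · simp only [if_neg h] at e1 e2
      linear_combination e1 - e2

/-- expansion along a slot -/
lemma expand_slot {T : Finset R} {f : (R → Fin 2) → ℂ} (hf : SInv cls T f) {r₀ : R}
    (h0 : r₀ ∈ T) (s : R → Fin 2) :
    (((T.filter (fun x => cls x = cls r₀)).card : ℂ) + 2) * f s =
      2 * ∑ r ∈ (T.erase r₀).filter (fun x => cls x = cls r₀),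
        om (s r₀) (s r) * contr r₀ r f s := by
  obtain ⟨S, hS⟩ : ∃ S, S = (T.erase r₀).filter (fun x => cls x = cls r₀) := ⟨_, rfl⟩
  have hcard : (T.filter (fun x => cls x = cls r₀)).card = S.card + 1 := by
    have h1 : T.filter (fun x => cls x = cls r₀) = insert r₀ S := by
      ext x
      simp only [hS, Finset.mem_filter, Finset.mem_insert, Finset.mem_erase]
      constructor
      · rintro ⟨h1, h2⟩
        by_cases h : x = r₀
        · exact Or.inl h
        · exact Or.inr ⟨⟨h, h1⟩, h2⟩
      · rintro (h | h)
        · subst h; exact ⟨h0, rfl⟩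
        · exact ⟨h.1.2, h.2⟩
    rw [h1, Finset.card_insert_of_notMem]
    simp [hS]
  rw [hcard, ← hS]
  have hSne : ∀ x ∈ S, x ≠ r₀ := by
    intro x hx
    rw [hS] at hx
    exact Finset.ne_of_mem_erase (Finset.mem_of_mem_filter x hx)
  -- sums over `T` restricted to the class
  have hT : ∀ φ : R → ℂ, ∑ x ∈ T, (if cls x = cls r₀ then φ x else 0) = φ r₀ + ∑ x ∈ S, φ x := by
    intro φ
    rw [← Finset.add_sum_erase _ _ h0, if_pos rfl, hS, Finset.sum_filter]
  have hT' : ∀ (p : R → Prop) [DecidablePred p] (φ : R → ℂ),
      ∑ x ∈ T, (if cls x = cls r₀ ∧ p x then φ x else 0) =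
      (if p r₀ then φ r₀ else 0) + ∑ x ∈ S, (if p x then φ x else 0) := by
    intro p _ φ
    rw [← hT (fun x => if p x then φ x else 0)]
    exact Finset.sum_congr rfl fun x _ => by rw [ite_and]
  have hw := hf.weight (cls r₀) s
  rw [hT] at hw
  have hfin : ∀ j : Fin 2, j = 0 ∨ j = 1 := by
    intro j; fin_cases j <;> simp
  rcases hfin (s r₀) with hs | hs
  · -- `s r₀ = 0`
    have he := hf.lower (cls r₀) (Function.update s r₀ 1)
    rw [hT' (fun x => Function.update s r₀ 1 x = 1)
      (fun x => f (Function.update (Function.update s r₀ 1) x 0)), Function.update_self,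
      if_pos rfl, Function.update_idem] at he
    have h2 : Function.update s r₀ 0 = s := by rw [← hs, Function.update_eq_self]
    rw [h2] at he
    have h3 : ∑ r ∈ S, om (s r₀) (s r) * contr r₀ r f s =
        ∑ r ∈ S, (if s r = 1 then f s else 0) -
        ∑ r ∈ S, (if Function.update s r₀ 1 r = 1 then
          f (Function.update (Function.update s r₀ 1) r 0) else 0) := by
      rw [← Finset.sum_sub_distrib]
      refine Finset.sum_congr rfl fun r hr => ?_
      rw [Function.update_of_ne (hSne r hr), hs]
      rcases hfin (s r) with h | h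
      · rw [h, om00]; simp
      · rw [h, om01, if_pos rfl, if_pos rfl, contr, h2, one_mul]
        congr 2
        rw [← h, Function.update_eq_self]
    have h4 : (∑ r ∈ S, (if s r = 0 then (1 : ℂ) else -1)) =
        S.card - 2 * ∑ r ∈ S, (if s r = 1 then (1 : ℂ) else 0) := by
      rw [Finset.mul_sum, ← nsmul_one, ← Finset.sum_const, ← Finset.sum_sub_distrib]
      refine Finset.sum_congr rfl fun r _ => ?_
      rcases hfin (s r) with h | h
      · simp [h]
      · simp [h]; norm_num
    have h5 : ∑ r ∈ S, (if s r = 1 then f s else 0) =
        (∑ r ∈ S, (if s r = 1 then (1 : ℂ) else 0)) * f s := by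
      rw [Finset.sum_mul]
      exact Finset.sum_congr rfl fun r _ => by split_ifs <;> simp
    rw [h3, h5]
    rw [h4, hs, if_pos rfl] at hw
    push_cast
    linear_combination hw + 2 * he
  · -- `s r₀ = 1`
    have he := hf.raise (cls r₀) (Function.update s r₀ 0)
    rw [hT' (fun x => Function.update s r₀ 0 x = 0)
      (fun x => f (Function.update (Function.update s r₀ 0) x 1)), Function.update_self,
      if_pos rfl, Function.update_idem] at he
    have h2 : Function.update s r₀ 1 = s := by rw [← hs, Function.update_eq_self]
    rw [h2] at he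
    have h3 : ∑ r ∈ S, om (s r₀) (s r) * contr r₀ r f s =
        ∑ r ∈ S, (if s r = 0 then f s else 0) -
        ∑ r ∈ S, (if Function.update s r₀ 0 r = 0 then
          f (Function.update (Function.update s r₀ 0) r 1) else 0) := by
      rw [← Finset.sum_sub_distrib]
      refine Finset.sum_congr rfl fun r hr => ?_
      rw [Function.update_of_ne (hSne r hr), hs]
      rcases hfin (s r) with h | h
      · rw [h, om10, if_pos rfl, if_pos rfl, contr, h2]
        have h6 : Function.update s r 0 = s := by rw [← h, Function.update_eq_self]
        rw [h6]; ring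
      · rw [h, om11]; simp
    have h4 : (∑ r ∈ S, (if s r = 0 then (1 : ℂ) else -1)) =
        2 * ∑ r ∈ S, (if s r = 0 then (1 : ℂ) else 0) - S.card := by
      rw [Finset.mul_sum, ← nsmul_one, ← Finset.sum_const, ← Finset.sum_sub_distrib]
      refine Finset.sum_congr rfl fun r _ => ?_
      rcases hfin (s r) with h | h
      · simp [h]; norm_num
      · simp [h]
    have h5 : ∑ r ∈ S, (if s r = 0 then f s else 0) =
        (∑ r ∈ S, (if s r = 0 then (1 : ℂ) else 0)) * f s := by
      rw [Finset.sum_mul]
      exact Finset.sum_congr rfl fun r _ => by split_ifs <;> simp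
    rw [h3, h5]
    rw [h4, hs, if_neg (by simp)] at hw
    push_cast
    linear_combination -hw + 2 * he

/-- **First fundamental theorem** for a product of copies of `SL_2`. -/
theorem gl_fft : ∀ (N : ℕ) (T : Finset R), T.card = N → ∀ f : (R → Fin 2) → ℂ, SInv cls T f →
    f ∈ Submodule.span ℂ {g | GM cls T g} := by
  intro N
  induction N using Nat.strong_induction_on with
  | _ N ih =>
    intro T hTN f hf
    by_cases hT : T = ∅
    · subst hT
      have h1 : f = f (fun _ => 0) • (fun _ => (1 : ℂ)) := by
        funext s
        rw [Pi.smul_apply, smul_eq_mul, mul_one]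
        exact hf.dep _ _ (fun r hr => absurd hr (Finset.notMem_empty r))
      rw [h1]
      exact Submodule.smul_mem _ _ (Submodule.subset_span GM.nil)
    · obtain ⟨r₀, h0⟩ := Finset.nonempty_iff_ne_empty.mpr hT
      obtain ⟨S, hS⟩ : ∃ S, S = (T.erase r₀).filter (fun x => cls x = cls r₀) := ⟨_, rfl⟩
      obtain ⟨m, hm⟩ : ∃ m, m = (T.filter (fun x => cls x = cls r₀)).card := ⟨_, rfl⟩
      have hm2 : ((m : ℂ) + 2) ≠ 0 := by exact_mod_cast (Nat.succ_ne_zero (m + 1))
      have h1 : f = ((m : ℂ) + 2)⁻¹ • (2 : ℂ) • ∑ r ∈ S, (fun s => om (s r₀) (s r) *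
          contr r₀ r f s) := by
        funext s
        have h2 := expand_slot cls hf h0 s
        rw [← hm, ← hS] at h2
        rw [Pi.smul_apply, Pi.smul_apply, Finset.sum_apply, smul_eq_mul, smul_eq_mul, ← h2,
          inv_mul_cancel_left₀ hm2]
      rw [h1]
      refine Submodule.smul_mem _ _ (Submodule.smul_mem _ _ (Submodule.sum_mem _ fun r hr => ?_))
      rw [hS, Finset.mem_filter, Finset.mem_erase] at hr
      obtain ⟨⟨hne, hrT⟩, hc⟩ := hr
      have h3 := ih ((T.erase r₀).erase r).card (by
        rw [← hTN]
        exact Finset.card_lt_card (Finset.ssubset_of_subset_of_ssubset (Finset.erase_subset _ _)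
          (Finset.erase_ssubset h0))) _ rfl _ (contr_inv cls hf h0 hrT hne hc)
      have hins : insert r₀ (insert r ((T.erase r₀).erase r)) = T := by
        rw [Finset.insert_erase (Finset.mem_erase.mpr ⟨hne, hrT⟩), Finset.insert_erase h0]
      refine Submodule.span_induction (p := fun g _ => (fun s => om (s r₀) (s r) * g s) ∈
        Submodule.span ℂ {g | GM cls T g}) ?_ ?_ ?_ ?_ h3
      · intro g hg
        apply Submodule.subset_span
        have h4 := GM.cons r₀ r hg (by simp) (by simp) (Ne.symm hne) hc.symm
        rw [hins] at h4
        exact h4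
      · have h4 : (fun s : R → Fin 2 => om (s r₀) (s r) * (0 : (R → Fin 2) → ℂ) s) = 0 := by
          funext s; simp
        rw [h4]; exact Submodule.zero_mem _
      · intro g g' _ _ hg hg'
        have h4 : (fun s : R → Fin 2 => om (s r₀) (s r) * (g + g') s) =
            (fun s => om (s r₀) (s r) * g s) + (fun s => om (s r₀) (s r) * g' s) := by
          funext s; simp only [Pi.add_apply]; ring
        rw [h4]; exact Submodule.add_mem _ hg hg'
      · intro a g _ hg
        have h4 : (fun s : R → Fin 2 => om (s r₀) (s r) * (a • g) s) =
            a • (fun s => om (s r₀) (s r) * g s) := by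
          funext s; simp only [Pi.smul_apply, smul_eq_mul]; ring
        rw [h4]; exact Submodule.smul_mem _ _ hg

end

end Pool.Agent.Helper7
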