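import Pool.Agent.Helper7.Local
import Pool.Agent.Helper7.Sl2
import Pool.Agent.Helper7.PreFrames

/-!
A single factor: matrices of the symmetries in adapted coordinates.
-/

namespace Pool.Agent.Helper7

open Module NumberField

/-- abstract first homology with an action of a number field -/
structure Fac {κ : Type} [Fintype κ] [DecidableEq κ] {ϖ : ℂ} (P : PData κ ϖ) (K : Type) [Field K]
    [NumberField K] where
  ρ : K →+* Module.End ℂ (κ → ℂ)
  hρ : ∀ x, IsDRB P P (ρ x)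
  cc : K → K
  hcc : ∀ (σ : K →+* ℂ) x, σ (cc x) = starRingEnd ℂ (σ x)
  hros : ∀ x u v, P.ψ (ρ x u) v = P.ψ u (ρ (cc x) v)
  gl : Prop
  lf : LF P ρ gl
  real_of_gl : gl → ∀ σ : K →+* ℂ, ComplexEmbedding.conjugate σ = σ
  not_real : ¬ gl → ∀ σ : K →+* ℂ, ComplexEmbedding.conjugate σ ≠ σ
  hsub : gl → ∀ w ∈ P.Q, w ≠ 0 → ¬ (Submodule.span ℂ (Set.range fun x => ρ x w) ≤
    Submodule.span ℂ {v | (∀ j, IsAlgebraic ℚ (v j)) ∧
      v ∈ Submodule.span ℂ (Set.range fun x => ρ x w)})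
  hcen : gl → ∀ f, IsDRB P P f → (∀ x v, f (ρ x v) = ρ x (f v)) → ∃ x, ∀ v, f v = ρ x v
  hT : ¬ gl → ∀ v ∈ P.Q, v ≠ 0 → ¬ ∃ (w : ℂ) (u : κ → ℂ), (∀ j, IsAlgebraic ℚ (u j)) ∧ v = w • u

namespace Fac

variable {κ : Type} [Fintype κ] [DecidableEq κ] {ϖ : ℂ} {P : PData κ ϖ} {K : Type} [Field K]
    [NumberField K] (F : Fac P K)

/-- adapted vectors -/
noncomputable def e (σ : K →+* ℂ) (j : Fin 2) : κ → ℂ := proj F.ρ σ (F.lf.lam j)

lemma hsum (v : κ → ℂ) : v = ∑ σ, ∑ j, F.lf.co σ j v • F.e σ j := F.lf.hsum v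

lemma co_e (σ : K →+* ℂ) (j : Fin 2) (σ' : K →+* ℂ) (j' : Fin 2) (h : F.gl ∨ j = 0) :
    F.lf.co σ j (F.e σ' j') = open Classical in if σ = σ' ∧ j = j' then 1 else 0 :=
  F.lf.co_e σ j σ' j' h

lemma e_one (h : ¬ F.gl) (σ : K →+* ℂ) : F.e σ 1 = 0 := by
  rw [e, F.lf.lam_one h, map_zero]

lemma rho_e (x : K) (σ : K →+* ℂ) (j : Fin 2) : F.ρ x (F.e σ j) = σ x • F.e σ j := by
  rw [e, ← Module.End.mul_apply, rho_mul_proj, LinearMap.smul_apply]

lemma proj_e (σ σ' : K →+* ℂ) (j : Fin 2) :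
    proj F.ρ σ (F.e σ' j) = open Classical in if σ = σ' then F.e σ' j else 0 := by
  classical
  rw [e, ← Module.End.mul_apply, proj_mul_proj]
  split_ifs
  · rfl
  · rfl

lemma proj_eq (σ : K →+* ℂ) (v : κ → ℂ) : proj F.ρ σ v = ∑ j, F.lf.co σ j v • F.e σ j := by
  classical
  conv_lhs => rw [F.hsum v]
  rw [map_sum, Finset.sum_eq_single σ]
  · rw [map_sum]
    refine Finset.sum_congr rfl fun j _ => ?_
    rw [map_smul, F.proj_e, if_pos rfl]
  · intro τ _ hτ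
    rw [map_sum]
    refine Finset.sum_eq_zero fun j _ => ?_
    rw [map_smul, F.proj_e, if_neg (Ne.symm hτ), smul_zero]
  · intro h; exact absurd (Finset.mem_univ _) h

/-- endomorphisms commuting with the number field -/
def Comm (X : Module.End ℂ (κ → ℂ)) : Prop := ∀ x v, X (F.ρ x v) = F.ρ x (X v)

lemma Comm.proj {F : Fac P K} {X : Module.End ℂ (κ → ℂ)} (hX : F.Comm X) (σ : K →+* ℂ)
    (v : κ → ℂ) : X (proj F.ρ σ v) = Helper7.proj F.ρ σ (X v) := by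
  rw [proj_apply, proj_apply, map_sum]
  refine Finset.sum_congr rfl fun b _ => ?_
  rw [map_smul, hX]

/-- the matrix of an endomorphism on an eigenspace -/
noncomputable def mat (σ : K →+* ℂ) : Module.End ℂ (κ → ℂ) →ₗ[ℂ] Matrix (Fin 2) (Fin 2) ℂ where
  toFun X := fun a b => F.lf.co σ a (X (F.e σ b))
  map_add' X Y := by
    funext a b
    show F.lf.co σ a ((X + Y) (F.e σ b)) = F.lf.co σ a (X (F.e σ b)) + F.lf.co σ a (Y (F.e σ b))
    rw [LinearMap.add_apply, map_add]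
  map_smul' c X := by
    funext a b
    show F.lf.co σ a ((c • X) (F.e σ b)) = c * F.lf.co σ a (X (F.e σ b))
    rw [LinearMap.smul_apply, map_smul, smul_eq_mul]

lemma mat_apply (σ : K →+* ℂ) (X : Module.End ℂ (κ → ℂ)) (a b : Fin 2) :
    F.mat σ X a b = F.lf.co σ a (X (F.e σ b)) := rfl

variable {F} in
lemma Comm.act {X : Module.End ℂ (κ → ℂ)} (hX : F.Comm X) (σ : K →+* ℂ) (j : Fin 2) :
    X (F.e σ j) = ∑ a, F.mat σ X a j • F.e σ a := by
  have h1 : X (F.e σ j) = Helper7.proj F.ρ σ (X (F.e σ j)) := by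
    rw [← hX.proj, F.proj_e, if_pos rfl]
  rw [h1, F.proj_eq]
  rfl

variable {F} in
lemma Comm.co_act {X : Module.End ℂ (κ → ℂ)} (hX : F.Comm X) (σ : K →+* ℂ) (j : Fin 2)
    (v : κ → ℂ) (h : F.gl ∨ j = 0) :
    F.lf.co σ j (X v) = ∑ a, F.mat σ X j a * F.lf.co σ a v := by
  classical
  have h1 : F.lf.co σ j (X v) = F.lf.co σ j (X (Helper7.proj F.ρ σ v)) := by
    have h2 : X v = ∑ τ, Helper7.proj F.ρ τ (X v) := by
      rw [← LinearMap.sum_apply, sum_proj]; rfl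
    rw [h2, map_sum, Finset.sum_eq_single σ]
    · rw [hX.proj]
    · intro τ _ hτ
      rw [F.proj_eq, map_sum]
      refine Finset.sum_eq_zero fun a _ => ?_
      rw [map_smul, F.co_e _ _ _ _ h, if_neg (fun h => hτ h.1.symm), smul_zero]
    · intro h; exact absurd (Finset.mem_univ _) h
  rw [h1, F.proj_eq, map_sum, map_sum]
  refine Finset.sum_congr rfl fun a _ => ?_
  rw [map_smul, map_smul, smul_eq_mul, mul_comm]
  rfl

variable {F} in
lemma Comm.mat_mul {X Y : Module.End ℂ (κ → ℂ)} (hX : F.Comm X) (hY : F.Comm Y) (hgl : F.gl)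
    (σ : K →+* ℂ) : F.mat σ (X * Y) = F.mat σ X * F.mat σ Y := by
  ext a b
  rw [Matrix.mul_apply, mat_apply, Module.End.mul_apply, hX.co_act σ a _ (Or.inl hgl)]
  rfl

variable {F} in
lemma Comm.mat_mul0 {X Y : Module.End ℂ (κ → ℂ)} (hX : F.Comm X) (hY : F.Comm Y) (hgl : ¬ F.gl)
    (σ : K →+* ℂ) : F.mat σ (X * Y) 0 0 = F.mat σ X 0 0 * F.mat σ Y 0 0 := by
  rw [mat_apply, Module.End.mul_apply, hX.co_act σ 0 _ (Or.inr rfl), Fin.sum_univ_two,
    F.lf.co_one hgl, LinearMap.zero_apply, mul_zero, add_zero]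
  rfl

lemma mat_neg (hgl : ¬ F.gl) (X : Module.End ℂ (κ → ℂ)) (σ : K →+* ℂ) : F.mat σ X 0 1 = 0 := by
  rw [mat_apply, F.e_one hgl, map_zero, map_zero]

lemma sum_e (j : Fin 2) : F.lf.lam j = ∑ σ, F.e σ j := by
  simp only [e]
  rw [← LinearMap.sum_apply, sum_proj]; rfl

/-- the matrix over the number field of a rational endomorphism -/
lemma exists_matK (M : Module.End ℂ (κ → ℂ)) (hM : F.Comm M) (hr : ∀ v ∈ P.Q, M v ∈ P.Q) :
    ∃ m : Matrix (Fin 2) (Fin 2) K, ∀ b, M (F.lf.lam b) = ∑ a, F.ρ (m a b) (F.lf.lam a) := by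
  have h1 : ∀ b, ∃ x : Fin 2 → K, M (F.lf.lam b) = ∑ a, F.ρ (x a) (F.lf.lam a) :=
    fun b => F.lf.gen _ (hr _ (F.lf.lam_rat b))
  choose x hx using h1
  exact ⟨fun a b => x b a, hx⟩

lemma proj_rho (σ : K →+* ℂ) (x : K) (v : κ → ℂ) :
    proj F.ρ σ (F.ρ x v) = σ x • proj F.ρ σ v := by
  have h1 : F.Comm (F.ρ x) := fun y v => by
    rw [← Module.End.mul_apply, ← Module.End.mul_apply, ← map_mul, ← map_mul, mul_comm]
  rw [← h1.proj, ← Module.End.mul_apply, rho_mul_proj, LinearMap.smul_apply]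

lemma mat_eq (M : Module.End ℂ (κ → ℂ)) (hM : F.Comm M) (m : Matrix (Fin 2) (Fin 2) K)
    (hm : ∀ b, M (F.lf.lam b) = ∑ a, F.ρ (m a b) (F.lf.lam a)) (σ : K →+* ℂ) (a b : Fin 2)
    (h : F.gl ∨ a = 0) : F.mat σ M a b = σ (m a b) := by
  classical
  rw [mat_apply, e, hM.proj, hm, map_sum, map_sum]
  rw [Finset.sum_eq_single a]
  · rw [F.proj_rho, map_smul]
    have h1 := F.co_e σ a σ a h
    rw [if_pos ⟨rfl, rfl⟩] at h1
    rw [e] at h1
    rw [h1, smul_eq_mul, mul_one]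
  · intro a' _ ha'
    rw [F.proj_rho, map_smul]
    have h1 := F.co_e σ a σ a' h
    rw [if_neg (fun h => ha' h.2.symm)] at h1
    rw [e] at h1
    rw [h1, smul_zero]
  · intro h; exact absurd (Finset.mem_univ _) h

lemma e_ne (σ : K →+* ℂ) : F.e σ 0 ≠ 0 := by
  intro h
  have h1 := F.co_e σ 0 σ 0 (Or.inr rfl)
  rw [h, map_zero, if_pos ⟨rfl, rfl⟩] at h1
  exact zero_ne_one h1

lemma lam_ne : F.lf.lam 0 ≠ 0 := by
  intro h
  have σ : K →+* ℂ := Classical.choice (inferInstance : Nonempty (K →+* ℂ))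
  apply F.e_ne σ
  rw [e, h, map_zero]

lemma psi_e (σ τ : K →+* ℂ) (a b : Fin 2) (h : τ ≠ ComplexEmbedding.conjugate σ) :
    P.ψ (F.e σ a) (F.e τ b) = 0 := by
  by_contra h0
  apply h
  ext x
  have h1 := F.hros x (F.e σ a) (F.e τ b)
  rw [F.rho_e, F.rho_e, map_smul, map_smul, LinearMap.smul_apply, smul_eq_mul, smul_eq_mul,
    F.hcc] at h1
  have h2 := mul_right_cancel₀ h0 h1
  rw [ComplexEmbedding.conjugate_coe_eq, h2, Complex.conj_conj]

lemma psi_self (v : κ → ℂ) : P.ψ v v = 0 := by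
  have h := P.hψalt v v
  linear_combination h / 2

lemma psi_gl_ne (hgl : F.gl) (σ : K →+* ℂ) : P.ψ (F.e σ 0) (F.e σ 1) ≠ 0 := by
  intro h
  apply F.e_ne σ
  apply P.hψnd
  intro v
  rw [F.hsum v, map_sum]
  refine Finset.sum_eq_zero fun τ _ => ?_
  rw [Fin.sum_univ_two, map_add, map_smul, map_smul]
  by_cases hτ : τ = σ
  · subst hτ; rw [h, psi_self, smul_zero, smul_zero, add_zero]
  · have h1 : τ ≠ ComplexEmbedding.conjugate σ := by rwa [F.real_of_gl hgl]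
    rw [F.psi_e _ _ _ _ h1, F.psi_e _ _ _ _ h1, smul_zero, smul_zero, add_zero]

lemma psi_cm_ne (hgl : ¬ F.gl) (σ : K →+* ℂ) :
    P.ψ (F.e σ 0) (F.e (ComplexEmbedding.conjugate σ) 0) ≠ 0 := by
  intro h
  apply F.e_ne σ
  apply P.hψnd
  intro v
  rw [F.hsum v, map_sum]
  refine Finset.sum_eq_zero fun τ _ => ?_
  rw [Fin.sum_univ_two, map_add, map_smul, map_smul, F.e_one hgl, map_zero, smul_zero, add_zero]
  by_cases hτ : τ = ComplexEmbedding.conjugate σ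
  · subst hτ; rw [h, smul_zero]
  · rw [F.psi_e _ _ _ _ hτ, smul_zero]

lemma trace_eq (hgl : F.gl) (X : Module.End ℂ (κ → ℂ)) (hX : F.Comm X) (c : ℂ)
    (hpol : ∀ u v, P.ψ (X u) v + P.ψ u (X v) = c * P.ψ u v) (σ : K →+* ℂ) :
    (F.mat σ X).trace = c := by
  have h1 := hpol (F.e σ 0) (F.e σ 1)
  rw [hX.act, hX.act, Fin.sum_univ_two, Fin.sum_univ_two] at h1
  simp only [map_add, map_smul, LinearMap.add_apply, LinearMap.smul_apply, psi_self,
    smul_eq_mul] at h1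
  have h2 : ((F.mat σ X) 0 0 + (F.mat σ X) 1 1) * P.ψ (F.e σ 0) (F.e σ 1) =
      c * P.ψ (F.e σ 0) (F.e σ 1) := by
    linear_combination h1
  rw [Matrix.trace_fin_two]
  exact mul_right_cancel₀ (F.psi_gl_ne hgl σ) h2

lemma char_eq (hgl : ¬ F.gl) (X : Module.End ℂ (κ → ℂ)) (hX : F.Comm X) (c : ℂ)
    (hpol : ∀ u v, P.ψ (X u) v + P.ψ u (X v) = c * P.ψ u v) (σ : K →+* ℂ) :
    F.mat σ X 0 0 + F.mat (ComplexEmbedding.conjugate σ) X 0 0 = c := by
  have h1 := hpol (F.e σ 0) (F.e (ComplexEmbedding.conjugate σ) 0)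
  rw [hX.act, hX.act, Fin.sum_univ_two, Fin.sum_univ_two, F.e_one hgl, F.e_one hgl, smul_zero,
    smul_zero, add_zero, add_zero] at h1
  simp only [map_smul, LinearMap.smul_apply, smul_eq_mul] at h1
  have h2 : (F.mat σ X 0 0 + F.mat (ComplexEmbedding.conjugate σ) X 0 0) *
      P.ψ (F.e σ 0) (F.e (ComplexEmbedding.conjugate σ) 0) =
      c * P.ψ (F.e σ 0) (F.e (ComplexEmbedding.conjugate σ) 0) := by
    linear_combination h1
  exact mul_right_cancel₀ (F.psi_cm_ne hgl σ) h2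

end Fac

end Pool.Agent.Helper7
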