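import Pool.Agent.Helper7.Conseq
import Pool.Agent.Helper7.Fac

/-!
The family of factors: the Lie algebra of symmetries contains `sl_2` at the places of the first
kind.
-/

namespace Pool.Agent.Helper7

open Module NumberField

namespace Fac

variable {κ : Type} [Fintype κ] [DecidableEq κ] {ϖ : ℂ} {P : PData κ ϖ} {K : Type} [Field K]
    [NumberField K] (F : Fac P K)

lemma ext_e {V : Type*} [AddCommGroup V] [Module ℂ V] (f g : (κ → ℂ) →ₗ[ℂ] V)
    (h : ∀ σ j, f (F.e σ j) = g (F.e σ j)) (v : κ → ℂ) : f v = g v := by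
  rw [F.hsum v, map_sum, map_sum]
  refine Finset.sum_congr rfl fun σ _ => ?_
  rw [map_sum, map_sum]
  refine Finset.sum_congr rfl fun j _ => ?_
  rw [map_smul, map_smul, h]

lemma rho_lam (x : K) (j : Fin 2) : F.ρ x (F.lf.lam j) = ∑ σ, σ x • F.e σ j := by
  conv_lhs => rw [F.sum_e j]
  rw [map_sum]
  exact Finset.sum_congr rfl fun σ _ => F.rho_e x σ j

/-- the endomorphism with a given matrix over the number field -/
noncomputable def ofMat (t : Matrix (Fin 2) (Fin 2) K) : Module.End ℂ (κ → ℂ) :=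
  ∑ σ : K →+* ℂ, ∑ b, (F.lf.co σ b).smulRight (∑ a, σ (t a b) • F.e σ a)

lemma ofMat_e (hgl : F.gl) (t : Matrix (Fin 2) (Fin 2) K) (σ : K →+* ℂ) (b : Fin 2) :
    F.ofMat t (F.e σ b) = ∑ a, σ (t a b) • F.e σ a := by
  classical
  rw [ofMat, LinearMap.sum_apply, Finset.sum_eq_single σ]
  · rw [LinearMap.sum_apply, Finset.sum_eq_single b]
    · rw [LinearMap.smulRight_apply, F.co_e _ _ _ _ (Or.inl hgl), if_pos ⟨rfl, rfl⟩, one_smul]
    · intro b' _ hb'
      rw [LinearMap.smulRight_apply, F.co_e _ _ _ _ (Or.inl hgl), if_neg (fun h => hb' h.2),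
        zero_smul]
    · intro h; exact absurd (Finset.mem_univ _) h
  · intro τ _ hτ
    rw [LinearMap.sum_apply]
    refine Finset.sum_eq_zero fun b' _ => ?_
    rw [LinearMap.smulRight_apply, F.co_e _ _ _ _ (Or.inl hgl), if_neg (fun h => hτ h.1),
      zero_smul]
  · intro h; exact absurd (Finset.mem_univ _) h

lemma ofMat_comm (hgl : F.gl) (t : Matrix (Fin 2) (Fin 2) K) : F.Comm (F.ofMat t) := by
  intro x v
  refine F.ext_e ((F.ofMat t) ∘ₗ (F.ρ x)) ((F.ρ x) ∘ₗ (F.ofMat t)) (fun σ j => ?_) v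
  rw [LinearMap.comp_apply, LinearMap.comp_apply, F.rho_e, map_smul, F.ofMat_e hgl, map_sum,
    Finset.smul_sum]
  refine Finset.sum_congr rfl fun a _ => ?_
  rw [map_smul, F.rho_e, smul_comm]

lemma ofMat_lam (hgl : F.gl) (t : Matrix (Fin 2) (Fin 2) K) (b : Fin 2) :
    F.ofMat t (F.lf.lam b) = ∑ a, F.ρ (t a b) (F.lf.lam a) := by
  conv_lhs => rw [F.sum_e b]
  rw [map_sum]
  simp only [F.ofMat_e hgl, F.rho_lam]
  rw [Finset.sum_comm]

lemma ofMat_rat (hgl : F.gl) (t : Matrix (Fin 2) (Fin 2) K) (v : κ → ℂ) (hv : v ∈ P.Q) :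
    F.ofMat t v ∈ P.Q := by
  obtain ⟨x, rfl⟩ := F.lf.gen v hv
  rw [map_sum]
  refine Submodule.sum_mem _ fun j _ => ?_
  rw [F.ofMat_comm hgl t, F.ofMat_lam hgl]
  refine (F.hρ _).rat _ (Submodule.sum_mem _ fun a _ => (F.hρ _).rat _ (F.lf.lam_rat a))

end Fac

section family

variable {I : Type} [Fintype I] [DecidableEq I] (n : I → ℕ)
  {κ : I → Type} [∀ i, Fintype (κ i)] [∀ i, DecidableEq (κ i)] {ϖ : ℂ}
  (P : ∀ i, PData (κ i) ϖ)
  {K : I → Type} [∀ i, Field (K i)] [∀ i, NumberField (K i)]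
  (F : ∀ i, Fac (P i) (K i))
  {k : ℕ} (α : MultilinearMap ℂ (fun _ : Fin (2 * k) => HW κ n) ℂ)

/-- the Lie algebra of infinitesimal symmetries -/
def gSub : Submodule ℂ (GG κ) where
  carrier := {X | IsInv n P α X}
  zero_mem' := IsInv.zero n P α
  add_mem' := IsInv.add n P α
  smul_mem' c _ := IsInv.smul n P α c

omit [Fintype I] [DecidableEq I] in
lemma mem_gSub (X : GG κ) : X ∈ gSub n P α ↔ IsInv n P α X := Iff.rfl

omit [Fintype I] [DecidableEq I] in
include F in
lemma IsInv.Comm {X : GG κ} (hX : IsInv n P α X) (i : I) : (F i).Comm (X.1 i) :=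
  fun x v => hX.comm i i _ ((F i).hρ x) v

omit [Fintype I] [DecidableEq I] in
lemma IsRatl.bracket {X Y : GG κ} (hX : IsRatl P X) (hY : IsRatl P Y) :
    IsRatl P (X * Y - Y * X) := by
  refine ⟨fun i v hv => ?_, ?_⟩
  · show X.1 i (Y.1 i v) - Y.1 i (X.1 i v) ∈ (P i).Q
    exact Submodule.sub_mem _ (hX.1 i _ (hY.1 i _ hv)) (hY.1 i _ (hX.1 i _ hv))
  · obtain ⟨p, hp⟩ := hX.2
    obtain ⟨q, hq⟩ := hY.2
    refine ⟨0, ?_⟩
    show X.2 * Y.2 - Y.2 * X.2 = _
    rw [mul_comm, sub_self]; simp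

/-- matrices over the number field of the rational symmetries -/
def matSet (i : I) : Set (Matrix (Fin 2) (Fin 2) (K i)) :=
  {m | ∃ X, IsInv n P α X ∧ IsRatl P X ∧
    ∀ b, X.1 i ((F i).lf.lam b) = ∑ a, (F i).ρ (m a b) ((F i).lf.lam a)}

omit [Fintype I] [DecidableEq I] in
lemma matSet_bracket (i : I) (m m' : Matrix (Fin 2) (Fin 2) (K i)) (hm : m ∈ matSet n P F α i)
    (hm' : m' ∈ matSet n P F α i) : m * m' - m' * m ∈ matSet n P F α i := by
  obtain ⟨X, hX, hXr, hXm⟩ := hm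
  obtain ⟨Y, hY, hYr, hYm⟩ := hm'
  refine ⟨X * Y - Y * X, hX.bracket n P α hY, hXr.bracket P hYr, fun b => ?_⟩
  have key : ∀ (X Y : GG κ) (m m' : Matrix (Fin 2) (Fin 2) (K i)), IsInv n P α X →
      (∀ b, X.1 i ((F i).lf.lam b) = ∑ a, (F i).ρ (m a b) ((F i).lf.lam a)) →
      (∀ b, Y.1 i ((F i).lf.lam b) = ∑ a, (F i).ρ (m' a b) ((F i).lf.lam a)) →
      X.1 i (Y.1 i ((F i).lf.lam b)) = ∑ a, (F i).ρ ((m * m') a b) ((F i).lf.lam a) := by
    intro X Y m m' hX hXm hYm
    rw [hYm, map_sum]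
    have h1 : ∀ a, X.1 i ((F i).ρ (m' a b) ((F i).lf.lam a)) =
        ∑ c, (F i).ρ (m c a * m' a b) ((F i).lf.lam c) := by
      intro a
      rw [hX.Comm n P F α i, hXm, map_sum]
      refine Finset.sum_congr rfl fun c _ => ?_
      rw [← Module.End.mul_apply, ← map_mul, mul_comm]
    rw [Finset.sum_congr rfl fun a _ => h1 a, Finset.sum_comm]
    refine Finset.sum_congr rfl fun c _ => ?_
    rw [Matrix.mul_apply, map_sum, LinearMap.sum_apply]
  show X.1 i (Y.1 i _) - Y.1 i (X.1 i _) = _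
  rw [key X Y m m' hX hXm hYm, key Y X m' m hY hYm hXm, ← Finset.sum_sub_distrib]
  refine Finset.sum_congr rfl fun a _ => ?_
  rw [Matrix.sub_apply, map_sub, LinearMap.sub_apply]

lemma span_bracket {R : Type*} [Field R] (s : Set (Matrix (Fin 2) (Fin 2) R))
    (hs : ∀ m ∈ s, ∀ m' ∈ s, m * m' - m' * m ∈ s) (x y : Matrix (Fin 2) (Fin 2) R)
    (hx : x ∈ Submodule.span R s) (hy : y ∈ Submodule.span R s) :
    x * y - y * x ∈ Submodule.span R s := by
  induction hx using Submodule.span_induction with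
  | mem x hx =>
    induction hy using Submodule.span_induction with
    | mem y hy => exact Submodule.subset_span (hs x hx y hy)
    | zero => simp
    | add y z _ _ hy hz =>
      have h : x * (y + z) - (y + z) * x = (x * y - y * x) + (x * z - z * x) := by noncomm_ring
      rw [h]; exact Submodule.add_mem _ hy hz
    | smul c y _ hy =>
      have h : x * (c • y) - (c • y) * x = c • (x * y - y * x) := by
        rw [mul_smul_comm, smul_mul_assoc, smul_sub]
      rw [h]; exact Submodule.smul_mem _ _ hy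
  | zero => simp
  | add x z _ _ hx hz =>
    have h : (x + z) * y - y * (x + z) = (x * y - y * x) + (z * y - y * z) := by noncomm_ring
    rw [h]; exact Submodule.add_mem _ hx hz
  | smul c x _ hx =>
    have h : (c • x) * y - y * (c • x) = c • (x * y - y * x) := by
      rw [mul_smul_comm, smul_mul_assoc, smul_sub]
    rw [h]; exact Submodule.smul_mem _ _ hx

variable (hϖ : ϖ ≠ 0)
  (hB : ∀ v : Fin (2 * k) → HW κ n, (∀ r, IsRatP n P (v r)) → ∃ q : ℚ, α v = ϖ ^ k * q)
  (hA : ∀ v : Fin (2 * k) → HW κ n, (∀ r i m j, IsAlgebraic ℚ (v r i m j)) →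
      IsAlgebraic ℚ (α v))

include hϖ hB hA in
lemma matSet_irr (i : I) (hgl : (F i).gl) (v : Fin 2 → K i) (hv : v ≠ 0) :
    ∃ x ∈ Submodule.span (K i) (matSet n P F α i), ∀ c : K i, x.mulVec v ≠ c • v := by
  classical
  by_contra hcon
  push Not at hcon
  obtain ⟨w, hw⟩ : ∃ w, w = ∑ a, (F i).ρ (v a) ((F i).lf.lam a) := ⟨_, rfl⟩
  have hwQ : w ∈ (P i).Q := by
    rw [hw]
    exact Submodule.sum_mem _ fun a _ => ((F i).hρ _).rat _ ((F i).lf.lam_rat a)
  have hw0 : w ≠ 0 := by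
    intro h0
    apply hv
    have σ : K i →+* ℂ := Classical.choice (inferInstance : Nonempty (K i →+* ℂ))
    funext a
    have h1 : (F i).lf.co σ a (proj (F i).ρ σ w) = σ (v a) := by
      rw [hw, map_sum, map_sum, Finset.sum_eq_single a]
      · rw [(F i).proj_rho, map_smul]
        have h2 := (F i).co_e σ a σ a (Or.inl hgl)
        rw [if_pos ⟨rfl, rfl⟩] at h2
        rw [Fac.e] at h2
        rw [h2, smul_eq_mul, mul_one]
      · intro a' _ ha'
        rw [(F i).proj_rho, map_smul]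
        have h2 := (F i).co_e σ a σ a' (Or.inl hgl)
        rw [if_neg (fun h => ha' h.2.symm)] at h2
        rw [Fac.e] at h2
        rw [h2, smul_zero]
      · intro h; exact absurd (Finset.mem_univ _) h
    rw [h0, map_zero, map_zero] at h1
    rw [Pi.zero_apply]
    exact (map_eq_zero σ).mp h1.symm
  refine (F i).hsub hgl w hwQ hw0 ?_
  refine algebraic_of_stable n P α hϖ hB hA i (Set.range fun x => (F i).ρ x w) ?_ ?_
  · rintro _ ⟨x, rfl⟩
    exact ((F i).hρ x).rat _ hwQ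
  · rintro Y hY hYr _ ⟨x, rfl⟩
    obtain ⟨m, hm⟩ := (F i).exists_matK (Y.1 i) (hY.Comm n P F α i) (hYr.1 i)
    obtain ⟨c, hc⟩ := hcon m (Submodule.subset_span ⟨Y, hY, hYr, hm⟩)
    apply Submodule.subset_span
    refine ⟨x * c, ?_⟩
    have h1 : Y.1 i w = (F i).ρ c w := by
      have h2 : ∀ b, Y.1 i ((F i).ρ (v b) ((F i).lf.lam b)) =
          ∑ a, (F i).ρ (m a b * v b) ((F i).lf.lam a) := by
        intro b
        rw [hY.Comm n P F α i, hm, map_sum]
        refine Finset.sum_congr rfl fun a _ => ?_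
        rw [← Module.End.mul_apply, ← map_mul, mul_comm]
      rw [hw, map_sum, Finset.sum_congr rfl fun b _ => h2 b, Finset.sum_comm, map_sum]
      refine Finset.sum_congr rfl fun a _ => ?_
      rw [← LinearMap.sum_apply, ← map_sum, ← Module.End.mul_apply, ← map_mul]
      have h3 := congrFun hc a
      rw [Matrix.mulVec, dotProduct] at h3
      rw [h3]
      rfl
    show (F i).ρ (x * c) w = Y.1 i ((F i).ρ x w)
    rw [hY.Comm n P F α i, h1, map_mul, Module.End.mul_apply]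

include hϖ hB hA in
lemma matSet_comm (i : I) (hgl : (F i).gl) (t : Matrix (Fin 2) (Fin 2) (K i))
    (ht : ∀ x ∈ Submodule.span (K i) (matSet n P F α i), x * t = t * x) :
    ∃ c : K i, t = c • 1 := by
  classical
  have h1 : IsDRB (P i) (P i) ((F i).ofMat t) := by
    refine isDRB_of_rat_comm n P α hϖ hB hA i i _ (fun v hv => (F i).ofMat_rat hgl t v hv) ?_
    intro Y hY hYr v
    obtain ⟨m, hm⟩ := (F i).exists_matK (Y.1 i) (hY.Comm n P F α i) (hYr.1 i)
    have hmt := ht m (Submodule.subset_span ⟨Y, hY, hYr, hm⟩)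
    refine (F i).ext_e ((Y.1 i) ∘ₗ ((F i).ofMat t)) (((F i).ofMat t) ∘ₗ (Y.1 i))
      (fun σ b => ?_) v
    have h2 : ∀ b, Y.1 i ((F i).e σ b) = ∑ a, σ (m a b) • (F i).e σ a := by
      intro b
      rw [(hY.Comm n P F α i).act]
      refine Finset.sum_congr rfl fun a _ => ?_
      rw [(F i).mat_eq (Y.1 i) (hY.Comm n P F α i) m hm σ a b (Or.inl hgl)]
    rw [LinearMap.comp_apply, LinearMap.comp_apply, (F i).ofMat_e hgl, h2, map_sum, map_sum]
    simp only [map_smul, h2, (F i).ofMat_e hgl, Finset.smul_sum, smul_smul, ← map_mul]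
    rw [Finset.sum_comm, Finset.sum_comm (f := fun x y => σ (m x b * t y x) • (F i).e σ y)]
    refine Finset.sum_congr rfl fun a _ => ?_
    rw [← Finset.sum_smul, ← Finset.sum_smul, ← map_sum, ← map_sum]
    congr 2
    have h3 := congrFun (congrFun hmt a) b
    rw [Matrix.mul_apply, Matrix.mul_apply] at h3
    rw [← Finset.sum_congr rfl fun c _ => mul_comm (t a c) (m c b)] 
    rw [← h3]
    exact Finset.sum_congr rfl fun c _ => mul_comm _ _
  obtain ⟨x, hx⟩ := (F i).hcen hgl _ h1 (fun x v => (F i).ofMat_comm hgl t x v)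
  refine ⟨x, ?_⟩
  have σ : K i →+* ℂ := Classical.choice (inferInstance : Nonempty (K i →+* ℂ))
  ext a b
  have h2 := congrArg ((F i).lf.co σ a) (hx ((F i).e σ b))
  rw [(F i).ofMat_e hgl, (F i).rho_e, map_sum, map_smul, Finset.sum_eq_single a] at h2
  · rw [map_smul, (F i).co_e _ _ _ _ (Or.inl hgl), (F i).co_e _ _ _ _ (Or.inl hgl),
      if_pos ⟨rfl, rfl⟩, smul_eq_mul, mul_one, smul_eq_mul] at h2
    rw [Matrix.smul_apply, Matrix.one_apply]
    apply σ.injective
    rw [h2]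
    by_cases hab : a = b
    · simp [hab]
    · simp [hab]
  · intro a' _ ha'
    rw [map_smul, (F i).co_e _ _ _ _ (Or.inl hgl), if_neg (fun h => ha' h.2.symm), smul_zero]
  · intro h; exact absurd (Finset.mem_univ _) h

include hϖ hB hA in
/-- surjectivity onto `sl_2` -/
lemma sl_surj (i : I) (hgl : (F i).gl) (σ : K i →+* ℂ) (Z : Matrix (Fin 2) (Fin 2) ℂ)
    (hZ : Z.trace = 0) : ∃ X, IsInv n P α X ∧ (F i).mat σ (X.1 i) = Z := by
  have hall : ∀ z : Matrix (Fin 2) (Fin 2) (K i), z.trace = 0 →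
      z ∈ Submodule.span (K i) (matSet n P F α i) :=
    sl2_mem _ (fun x hx y hy => span_bracket _ (matSet_bracket n P F α i |> fun h m hm m' hm' =>
      h m m' hm hm') x y hx hy)
      (fun v hv => matSet_irr n P F α hϖ hB hA i hgl v hv)
      (fun t ht => matSet_comm n P F α hϖ hB hA i hgl t ht)
  -- the space of matrices of symmetries
  let S : Submodule ℂ (Matrix (Fin 2) (Fin 2) ℂ) :=
    (gSub n P α).map (((F i).mat σ) ∘ₗ (LinearMap.proj i) ∘ₗ
      (LinearMap.fst ℂ ((i : I) → Module.End ℂ (κ i → ℂ)) ℂ))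
  have hS : ∀ Z, Z ∈ S ↔ ∃ X, IsInv n P α X ∧ (F i).mat σ (X.1 i) = Z := by
    intro Z
    constructor
    · rintro ⟨X, hX, rfl⟩; exact ⟨X, hX, rfl⟩
    · rintro ⟨X, hX, rfl⟩; exact ⟨X, hX, rfl⟩
  have hmap : ∀ z ∈ Submodule.span (K i) (matSet n P F α i), z.map σ ∈ S := by
    intro z hz
    induction hz using Submodule.span_induction with
    | mem m hm =>
      obtain ⟨X, hX, hXr, hXm⟩ := hm
      rw [hS]
      refine ⟨X, hX, ?_⟩
      ext a b
      rw [(F i).mat_eq (X.1 i) (hX.Comm n P F α i) m hXm σ a b (Or.inl hgl)]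
      rfl
    | zero =>
      have h : (0 : Matrix (Fin 2) (Fin 2) (K i)).map σ = 0 := by
        ext a b; simp
      rw [h]; exact S.zero_mem
    | add x y _ _ hx hy =>
      have h : (x + y).map σ = x.map σ + y.map σ := by
        ext a b; simp
      rw [h]; exact S.add_mem hx hy
    | smul c x _ hx =>
      have h : (c • x).map σ = σ c • x.map σ := by
        ext a b; simp
      rw [h]; exact S.smul_mem _ hx
  rw [← hS]
  refine mem_of_EFH S ?_ ?_ ?_ Z hZ
  · have h1 := hmap _ (hall !![0, 1; 0, 0] (by simp [Matrix.trace_fin_two]))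
    convert h1 using 1
    ext a b; fin_cases a <;> fin_cases b <;> simp [mE]
  · have h1 := hmap _ (hall !![0, 0; 1, 0] (by simp [Matrix.trace_fin_two]))
    convert h1 using 1
    ext a b; fin_cases a <;> fin_cases b <;> simp [mF]
  · have h1 := hmap _ (hall !![1, 0; 0, -1] (by simp [Matrix.trace_fin_two]))
    convert h1 using 1
    ext a b; fin_cases a <;> fin_cases b <;> simp [mH]

end family

end Pool.Agent.Helper7
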