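import Pool.Agent.Helper7.Family

/-!
Balanced weights, and the frames for the family.
-/

namespace Pool.Agent.Helper7

open Module NumberField

section family

variable {I : Type} [Fintype I] [DecidableEq I] (n : I → ℕ)
  {κ : I → Type} [∀ i, Fintype (κ i)] [∀ i, DecidableEq (κ i)] {ϖ : ℂ}
  (P : ∀ i, PData (κ i) ϖ)
  {K : I → Type} [∀ i, Field (K i)] [∀ i, NumberField (K i)]
  (F : ∀ i, Fac (P i) (K i))
  {k : ℕ} (α : MultilinearMap ℂ (fun _ : Fin (2 * k) => HW κ n) ℂ)

open Classical in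
/-- normalised weights -/
noncomputable def wt (t : Σ i, (K i →+* ℂ)) (X : GG κ) : ℂ :=
  if (F t.1).gl then X.2 / 2 else (F t.1).mat t.2 (X.1 t.1) 0 0

omit [Fintype I] [DecidableEq I] in
lemma wt_conj (t : Σ i, (K i →+* ℂ)) (X : GG κ) (hX : IsInv n P α X) :
    wt P F t X + wt P F (conjT t) X = X.2 := by
  obtain ⟨i, σ⟩ := t
  by_cases h : (F i).gl
  · rw [wt, wt, if_pos h, if_pos (show (F (conjT ⟨i, σ⟩ : Σ i, (K i →+* ℂ)).1).gl from h)]
    ring
  · rw [wt, wt, if_neg h, if_neg (show ¬ (F (conjT ⟨i, σ⟩ : Σ i, (K i →+* ℂ)).1).gl from h)]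
    exact (F i).char_eq h (X.1 i) (hX.Comm n P F α i) X.2 (hX.pol i) σ

omit [Fintype I] [DecidableEq I] in
lemma wt_rat (i : I) (X : GG κ) (hX : IsInv n P α X) (hr : IsRatl P X) :
    ∃ x : K i, ∀ σ : K i →+* ℂ, wt P F ⟨i, σ⟩ X = σ x := by
  by_cases h : (F i).gl
  · obtain ⟨q, hq⟩ := hr.2
    refine ⟨(q : K i) / 2, fun σ => ?_⟩
    rw [wt, if_pos h, hq, map_div₀, map_ratCast, map_ofNat]
  · obtain ⟨m, hm⟩ := (F i).exists_matK (X.1 i) (hX.Comm n P F α i) (hr.1 i)
    refine ⟨m 0 0, fun σ => ?_⟩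
    rw [wt, if_neg h]
    exact (F i).mat_eq (X.1 i) (hX.Comm n P F α i) m hm σ 0 0 (Or.inr rfl)

/-- relations between the weights -/
def relSub : Submodule ℚ ((Σ i, (K i →+* ℂ)) → ℚ) where
  carrier := {u | (∀ t, u (conjT t) = - u t) ∧
    ∀ X, IsInv n P α X → IsRatl P X → ∑ t, (u t : ℂ) * wt P F t X = 0}
  zero_mem' := ⟨fun t => by simp, fun X _ _ => by simp⟩
  add_mem' := by
    rintro u v ⟨hu1, hu2⟩ ⟨hv1, hv2⟩
    refine ⟨fun t => by rw [Pi.add_apply, Pi.add_apply, hu1, hv1]; ring, fun X hX hr => ?_⟩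
    simp only [Pi.add_apply, Rat.cast_add, add_mul, Finset.sum_add_distrib]
    rw [hu2 X hX hr, hv2 X hX hr, add_zero]
  smul_mem' := by
    rintro c u ⟨hu1, hu2⟩
    refine ⟨fun t => by rw [Pi.smul_apply, Pi.smul_apply, hu1]; simp, fun X hX hr => ?_⟩
    simp only [Pi.smul_apply, smul_eq_mul, Rat.cast_mul, mul_assoc, ← Finset.mul_sum]
    rw [hu2 X hX hr, mul_zero]

omit [DecidableEq I] in
lemma mem_relSub (u : (Σ i, (K i →+* ℂ)) → ℚ) : u ∈ relSub n P F α ↔
    (∀ t, u (conjT t) = - u t) ∧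
    ∀ X, IsInv n P α X → IsRatl P X → ∑ t, (u t : ℂ) * wt P F t X = 0 := Iff.rfl

omit [Fintype I] [DecidableEq I] in
include F in
lemma actT_conjT' (τ : ℂ ≃+* ℂ) (t : Σ i, (K i →+* ℂ)) :
    actT τ (conjT t) = conjT (actT τ t) := by
  obtain ⟨i, σ⟩ := t
  have h : (τ : ℂ →+* ℂ).comp (ComplexEmbedding.conjugate σ) =
      ComplexEmbedding.conjugate ((τ : ℂ →+* ℂ).comp σ) := by
    refine RingHom.ext fun x => ?_
    have h1 := (F i).hcc σ x
    have h2 := (F i).hcc ((τ : ℂ →+* ℂ).comp σ) x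
    rw [ComplexEmbedding.conjugate_coe_eq, ← h2, RingHom.comp_apply, RingHom.comp_apply, h1,
      ComplexEmbedding.conjugate_coe_eq]
  show (⟨i, (τ : ℂ →+* ℂ).comp (ComplexEmbedding.conjugate σ)⟩ : Σ i, (K i →+* ℂ)) =
    ⟨i, ComplexEmbedding.conjugate ((τ : ℂ →+* ℂ).comp σ)⟩
  rw [h]

omit [DecidableEq I] in
lemma relSub_stable (τ : ℂ ≃+* ℂ) (u : (Σ i, (K i →+* ℂ)) → ℚ) (hu : u ∈ relSub n P F α) :
    (fun t => u (actT τ t)) ∈ relSub n P F α := by
  rw [mem_relSub] at hu ⊢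
  refine ⟨fun t => ?_, fun X hX hr => ?_⟩
  · show u (actT τ (conjT t)) = - u (actT τ t)
    rw [actT_conjT' P F, hu.1]
  · have h1 : ∀ t : Σ i, (K i →+* ℂ), τ (wt P F t X) = wt P F (actT τ t) X := by
      rintro ⟨i, σ⟩
      obtain ⟨x, hx⟩ := wt_rat n P F α i X hX hr
      show τ (wt P F ⟨i, σ⟩ X) = wt P F ⟨i, (τ : ℂ →+* ℂ).comp σ⟩ X
      rw [hx, hx]
      rfl
    have h2 := hu.2 X hX hr
    rw [← Fintype.sum_equiv (actT τ) (fun t => (u (actT τ t) : ℂ) * wt P F (actT τ t) X) _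
      (fun _ => rfl)] at h2
    simp only [← h1] at h2
    have h3 : τ (∑ t, (u (actT τ t) : ℂ) * wt P F t X) = 0 := by
      rw [map_sum, ← h2]
      refine Finset.sum_congr rfl fun t _ => ?_
      rw [map_mul, map_ratCast]
    exact (map_eq_zero τ).mp h3

variable (hϖ : ϖ ≠ 0)
  (hB : ∀ v : Fin (2 * k) → HW κ n, (∀ r, IsRatP n P (v r)) → ∃ q : ℚ, α v = ϖ ^ k * q)
  (hA : ∀ v : Fin (2 * k) → HW κ n, (∀ r i m j, IsAlgebraic ℚ (v r i m j)) →
      IsAlgebraic ℚ (α v))

include hϖ hB hA in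
lemma relSub_eq_zero (hMF : MF K) (u : (Σ i, (K i →+* ℂ)) → ℚ) (hu : u ∈ relSub n P F α)
    (t : Σ i, (K i →+* ℂ)) (ht : ¬ (F t.1).gl) : u t = 0 := by
  classical
  by_contra hne
  obtain ⟨i, σ₀⟩ := t
  have hall := hMF (relSub n P F α) (fun u hu => hu.1) (fun τ u hu => relSub_stable n P F α τ u hu)
    i ⟨u, hu, σ₀, hne⟩
  -- all weights at `i` are equal
  have hwt : ∀ σ : K i →+* ℂ, ∀ X, IsInv n P α X → IsRatl P X → wt P F ⟨i, σ⟩ X = X.2 / 2 := by
    intro σ X hX hr
    let w : (Σ i, (K i →+* ℂ)) → ℚ := fun t =>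
      (if t = ⟨i, σ⟩ then 1 else 0) - (if conjT t = ⟨i, σ⟩ then 1 else 0)
    have hw := hall w (fun t => by
      simp only [w, conjT_conjT]; ring) (fun t htne => by
      have h1 : t ≠ ⟨i, σ⟩ := fun h => htne (by rw [h])
      have h2 : conjT t ≠ ⟨i, σ⟩ := fun h => htne (by
        have h3 : (conjT t).1 = i := by rw [h]
        exact h3)
      simp only [w, if_neg h1, if_neg h2, sub_zero])
    have h1 := hw.2 X hX hr
    have h2 : ∑ t, ((w t : ℚ) : ℂ) * wt P F t X =
        wt P F ⟨i, σ⟩ X - wt P F (conjT ⟨i, σ⟩) X := by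
      have h3 : ∀ t, ((w t : ℚ) : ℂ) * wt P F t X = (if t = ⟨i, σ⟩ then wt P F t X else 0) -
          (if t = conjT ⟨i, σ⟩ then wt P F t X else 0) := by
        intro t
        have h4 : (conjT t = ⟨i, σ⟩) ↔ (t = conjT ⟨i, σ⟩) :=
          ⟨fun h => by rw [← h, conjT_conjT], fun h => by rw [h, conjT_conjT]⟩
        simp only [w, h4]
        split_ifs <;> simp
      simp only [h3]
      rw [Finset.sum_sub_distrib, Finset.sum_ite_eq' Finset.univ, Finset.sum_ite_eq' Finset.univ]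
      simp
    rw [h2] at h1
    have h3 := wt_conj n P F α ⟨i, σ⟩ X hX
    linear_combination h1 / 2 + h3 / 2
  -- hence all rational symmetries are scalar at `i`
  have hscal : ∀ X, IsInv n P α X → IsRatl P X → ∀ v, X.1 i v = (X.2 / 2) • v := by
    intro X hX hr v
    have h1 := (F i).ext_e (X.1 i) ((X.2 / 2) • (LinearMap.id : Module.End ℂ (κ i → ℂ)))
      (fun σ j => ?_) v
    · rw [h1]; rfl
    · have hfin : ∀ j : Fin 2, j = 0 ∨ j = 1 := by
        intro j; fin_cases j <;> simp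
      rcases hfin j with hj | hj
      · subst hj
        rw [(hX.Comm n P F α i).act, Fin.sum_univ_two, (F i).e_one ht, smul_zero, add_zero]
        have h2 := hwt σ X hX hr
        rw [wt, if_neg ht] at h2
        rw [h2]; rfl
      · subst hj
        rw [(F i).e_one ht, map_zero, map_zero]
  -- a rational line is spanned by an algebraic vector
  have h1 := algebraic_of_stable n P α hϖ hB hA i {(F i).lf.lam 0}
    (fun v hv => by rw [Set.mem_singleton_iff.mp hv]; exact (F i).lf.lam_rat 0)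
    (fun Y hY hYr v hv => by
      rw [hscal Y hY hYr]
      exact Submodule.smul_mem _ _ (Submodule.subset_span hv))
  have h2 : (F i).lf.lam 0 ∈ Submodule.span ℂ
      {v | (∀ j, IsAlgebraic ℚ (v j)) ∧ v ∈ Submodule.span ℂ {(F i).lf.lam 0}} :=
    h1 (Submodule.subset_span rfl)
  obtain ⟨v, ⟨hv1, hv2⟩, hv0⟩ : ∃ v ∈ {v | (∀ j, IsAlgebraic ℚ (v j)) ∧
      v ∈ Submodule.span ℂ {(F i).lf.lam 0}}, v ≠ 0 := by
    by_contra hcon
    push Not at hcon
    have h3 : Submodule.span ℂ {v | (∀ j, IsAlgebraic ℚ (v j)) ∧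
        v ∈ Submodule.span ℂ {(F i).lf.lam 0}} ≤ ⊥ := by
      rw [Submodule.span_le]
      intro v hv
      rw [SetLike.mem_coe, Submodule.mem_bot]
      exact hcon v hv
    exact (F i).lam_ne ((Submodule.mem_bot ℂ).mp (h3 h2))
  obtain ⟨c, hc⟩ := Submodule.mem_span_singleton.mp hv2
  have hc0 : c ≠ 0 := by
    rintro rfl
    rw [zero_smul] at hc
    exact hv0 hc.symm
  refine (F i).hT ht _ ((F i).lf.lam_rat 0) (F i).lam_ne ⟨c⁻¹, v, hv1, ?_⟩
  rw [← hc, smul_smul, inv_mul_cancel₀ hc0, one_smul]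

include hϖ hB hA in
lemma balance (hMF : MF K) (k' : ℕ) (p : Fin (2 * k') → (Σ i, (K i →+* ℂ)))
    (hp : ∀ X, IsInv n P α X → ∑ r, wt P F (p r) X = k' * X.2) (t : Σ i, (K i →+* ℂ))
    (ht : ¬ (F t.1).gl) :
    (open Classical in (Finset.univ.filter (fun r => p r = t)).card =
      (Finset.univ.filter (fun r => p r = conjT t)).card) := by
  classical
  let u : (Σ i, (K i →+* ℂ)) → ℚ := fun t =>
    ((Finset.univ.filter (fun r => p r = t)).card : ℚ) -
      (Finset.univ.filter (fun r => p r = conjT t)).card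
  have hu : u ∈ relSub n P F α := by
    rw [mem_relSub]
    refine ⟨fun t => ?_, fun X hX _ => ?_⟩
    · simp only [u, conjT_conjT]; ring
    · have h1 : ∀ (g : (Σ i, (K i →+* ℂ)) → ℂ),
          ∑ t, ((Finset.univ.filter (fun r => p r = t)).card : ℂ) * g t = ∑ r, g (p r) := by
        intro g
        have h2 : ∀ t, ((Finset.univ.filter (fun r => p r = t)).card : ℂ) * g t =
            ∑ r, (if p r = t then g t else 0) := by
          intro t
          rw [Finset.card_filter]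
          push_cast
          rw [Finset.sum_mul]
          exact Finset.sum_congr rfl fun r _ => by split_ifs <;> simp
        simp only [h2]
        rw [Finset.sum_comm]
        refine Finset.sum_congr rfl fun r _ => ?_
        rw [Finset.sum_ite_eq Finset.univ]
        simp
      let cE : (Σ i, (K i →+* ℂ)) ≃ (Σ i, (K i →+* ℂ)) :=
        ⟨conjT, conjT, conjT_conjT, conjT_conjT⟩
      have h3 : ∑ t, ((Finset.univ.filter (fun r => p r = conjT t)).card : ℂ) * wt P F t X =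
          ∑ r, wt P F (conjT (p r)) X := by
        rw [← h1 (fun t => wt P F (conjT t) X)]
        refine Fintype.sum_equiv cE _ _ fun t => ?_
        show _ = ((Finset.univ.filter (fun r => p r = conjT t)).card : ℂ) *
          wt P F (conjT (conjT t)) X
        rw [conjT_conjT]
      have h4 : ∑ r, wt P F (conjT (p r)) X = k' * X.2 := by
        have h5 : ∑ r, (wt P F (p r) X + wt P F (conjT (p r)) X) = ∑ _r : Fin (2 * k'), X.2 :=
          Finset.sum_congr rfl fun r _ => wt_conj n P F α (p r) X hX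
        rw [Finset.sum_add_distrib, hp X hX, Finset.sum_const, Finset.card_univ,
          Fintype.card_fin, nsmul_eq_mul] at h5
        push_cast at h5
        linear_combination h5
      simp only [u, Rat.cast_sub, Rat.cast_natCast, sub_mul, Finset.sum_sub_distrib]
      rw [h1 (fun t => wt P F t X), h3, h4, hp X hX, sub_self]
  have h1 := relSub_eq_zero n P F α hϖ hB hA hMF u hu t ht
  have h2 := sub_eq_zero.mp h1
  exact_mod_cast h2

end family

end Pool.Agent.Helper7
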