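import Pool.Agent.Helper7.FFT
import Pool.Agent.Helper7.Goursat
import Pool.Agent.Helper7.Generate

/-!
Invariants of a Lie algebra acting through copies of `sl_2` and characters are generated by
bilinear invariants.
-/

namespace Pool.Agent.Helper7

open Matrix

section pp

variable {R W : Type*} [DecidableEq R] [AddCommGroup W] [Module ℂ W]

/-- products of bilinear forms over a perfect matching -/
inductive PP (𝓑 : Set (W →ₗ[ℂ] W →ₗ[ℂ] ℂ)) : Finset R → ((R → W) → ℂ) → Prop
  | nil : PP 𝓑 ∅ (fun _ => 1)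
  | cons {T : Finset R} {Φ : (R → W) → ℂ} (r r' : R) (β : W →ₗ[ℂ] W →ₗ[ℂ] ℂ) : β ∈ 𝓑 →
      PP 𝓑 T Φ → r ∉ T → r' ∉ T → r ≠ r' →
      PP 𝓑 (insert r (insert r' T)) (fun v => β (v r) (v r') * Φ v)

lemma PP.exists_list {𝓑 : Set (W →ₗ[ℂ] W →ₗ[ℂ] ℂ)} {T : Finset R} {Φ : (R → W) → ℂ}
    (h : PP 𝓑 T Φ) : ∃ (m : ℕ) (a b : Fin m → R) (β : Fin m → (W →ₗ[ℂ] W →ₗ[ℂ] ℂ)),
      Function.Injective a ∧ Function.Injective b ∧ (∀ x y, a x ≠ b y) ∧
      (∀ x, a x ∈ T) ∧ (∀ x, b x ∈ T) ∧ T.card = 2 * m ∧ (∀ x, β x ∈ 𝓑) ∧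
      ∀ v, Φ v = ∏ x, β x (v (a x)) (v (b x)) := by
  induction h with
  | nil =>
    refine ⟨0, Fin.elim0, Fin.elim0, Fin.elim0, ?_, ?_, ?_, ?_, ?_, ?_, ?_, ?_⟩
    · intro x; exact x.elim0
    · intro x; exact x.elim0
    · intro x; exact x.elim0
    · intro x; exact x.elim0
    · intro x; exact x.elim0
    · simp
    · intro x; exact x.elim0
    · intro v; simp
  | cons r r' β hβ _ hr hr' hne ih =>
    obtain ⟨m, a, b, B, ha, hb, hab, haT, hbT, hcard, hB, hΦ⟩ := ih
    refine ⟨m + 1, Fin.cons r a, Fin.cons r' b, Fin.cons β B, ?_, ?_, ?_, ?_, ?_, ?_, ?_, ?_⟩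
    · rw [Fin.cons_injective_iff]
      refine ⟨?_, ha⟩
      rintro ⟨x, rfl⟩
      exact hr (haT x)
    · rw [Fin.cons_injective_iff]
      refine ⟨?_, hb⟩
      rintro ⟨x, rfl⟩
      exact hr' (hbT x)
    · intro x y
      refine Fin.cases ?_ (fun x => ?_) x <;> refine Fin.cases ?_ (fun y => ?_) y
      · simpa using hne
      · simp only [Fin.cons_zero, Fin.cons_succ]
        rintro rfl; exact hr (hbT y)
      · simp only [Fin.cons_zero, Fin.cons_succ]
        rintro rfl; exact hr' (haT x)
      · simp only [Fin.cons_succ]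
        exact hab x y
    · intro x
      refine Fin.cases ?_ (fun x => ?_) x
      · simp
      · simp only [Fin.cons_succ]
        exact Finset.mem_insert_of_mem (Finset.mem_insert_of_mem (haT x))
    · intro x
      refine Fin.cases ?_ (fun x => ?_) x
      · simp
      · simp only [Fin.cons_succ]
        exact Finset.mem_insert_of_mem (Finset.mem_insert_of_mem (hbT x))
    · rw [Finset.card_insert_of_notMem, Finset.card_insert_of_notMem hr', hcard]
      · ring
      · rw [Finset.mem_insert, not_or]; exact ⟨hne, hr⟩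
    · intro x
      refine Fin.cases ?_ (fun x => ?_) x
      · simpa using hβ
      · simpa using hB x
    · intro v
      rw [Fin.prod_univ_succ]
      simp only [Fin.cons_zero, Fin.cons_succ]
      rw [hΦ]

lemma PP.exists_perm {k : ℕ} {𝓑 : Set (W →ₗ[ℂ] W →ₗ[ℂ] ℂ)} {Φ : (Fin (2 * k) → W) → ℂ}
    (h : PP 𝓑 Finset.univ Φ) : ∃ (π : Equiv.Perm (Fin (2 * k)))
      (β : Fin k → (W →ₗ[ℂ] W →ₗ[ℂ] ℂ)), (∀ a, β a ∈ 𝓑) ∧
      Φ = ⇑((prodBilin β).domDomCongr π) := by
  obtain ⟨m, a, b, β, ha, hb, hab, -, -, hcard, hβ, hΦ⟩ := h.exists_list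
  rw [Finset.card_univ, Fintype.card_fin] at hcard
  have hmk : m = k := by omega
  subst hmk
  let F : Fin (2 * m) → Fin (2 * m) := fun r =>
    if r.1 % 2 = 0 then a ⟨r.1 / 2, by omega⟩ else b ⟨r.1 / 2, by omega⟩
  have hFlo : ∀ x, F (lo x) = a x := by
    intro x
    have h1 : (lo x).1 % 2 = 0 := by simp only [lo]; omega
    have h2 : (⟨(lo x).1 / 2, by omega⟩ : Fin m) = x := by
      apply Fin.ext; simp only [lo]; omega
    simp only [F]
    rw [if_pos h1, h2]
  have hFhi : ∀ x, F (hi x) = b x := by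
    intro x
    have h1 : ¬ (hi x).1 % 2 = 0 := by simp only [hi]; omega
    have h2 : (⟨(hi x).1 / 2, by omega⟩ : Fin m) = x := by
      apply Fin.ext; simp only [hi]; omega
    simp only [F]
    rw [if_neg h1, h2]
  have hFinj : Function.Injective F := by
    intro r r' h
    obtain ⟨x, hx | hx⟩ := eq_lo_or_hi r <;> obtain ⟨y, hy | hy⟩ := eq_lo_or_hi r' <;>
      subst hx <;> subst hy
    · rw [hFlo, hFlo] at h
      rw [ha h]
    · rw [hFlo, hFhi] at h
      exact absurd h (hab x y)
    · rw [hFhi, hFlo] at h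
      exact absurd h.symm (hab y x)
    · rw [hFhi, hFhi] at h
      rw [hb h]
  let π : Equiv.Perm (Fin (2 * m)) := Equiv.ofBijective F (Finite.injective_iff_bijective.mp hFinj)
  refine ⟨π, β, hβ, ?_⟩
  funext v
  rw [hΦ, MultilinearMap.domDomCongr_apply]
  show _ = ∏ x, β x (v (π (lo x))) (v (π (hi x)))
  refine Finset.prod_congr rfl fun x _ => ?_
  have h1 : π (lo x) = a x := hFlo x
  have h2 : π (hi x) = b x := hFhi x
  rw [h1, h2]

end pp

/-- A Lie algebra acting on a vector space through `2`-dimensional representations and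
characters, with adapted coordinates. -/
structure Frames (W : Type) [AddCommGroup W] [Module ℂ W] (Qs T C G : Type) [Fintype Qs]
    [DecidableEq Qs] [DecidableEq T] where
  pl : Qs → T
  gl : T → Prop
  cls : T → C
  cj : T → T
  cj_cj : ∀ t, cj (cj t) = t
  cj_ne : ∀ t, ¬ gl t → cj t ≠ t
  gl_cj : ∀ t, gl (cj t) ↔ gl t
  e : Qs → Fin 2 → W
  co : Qs → Fin 2 → (W →ₗ[ℂ] ℂ)
  L : G → Module.End ℂ W
  c : G → ℂ
  A : T → G → Matrix (Fin 2) (Fin 2) ℂ
  hsum : ∀ v, v = ∑ q, ∑ j, co q j v • e q j
  co_e : ∀ q j q' j', (gl (pl q) ∨ j = 0) → co q j (e q' j') = if q = q' ∧ j = j' then 1 else 0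
  e_one : ∀ q, ¬ gl (pl q) → e q 1 = 0
  act : ∀ X q j, L X (e q j) = ∑ j', A (pl q) X j' j • e q j'
  co_act : ∀ X q j v, (gl (pl q) ∨ j = 0) → co q j (L X v) = ∑ j', A (pl q) X j j' * co q j' v
  tr : ∀ t X, gl t → (A t X).trace = c X
  cm : ∀ t X, ¬ gl t → A t X 0 1 = 0 ∧ A t X 0 0 + A (cj t) X 0 0 = c X
  same : ∀ t t' X, gl t → gl t' → cls t = cls t' → A t X = A t' X
  sl : ∀ t Z, gl t → Z.trace = 0 → ∃ X, c X = 0 ∧ A t X = Z ∧
    (∀ t', gl t' → cls t' ≠ cls t → A t' X = 0) ∧ ∀ t', ¬ gl t' → A t' X 0 0 = 0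
  central : ∀ X, ∃ X', c X' = c X ∧ (∀ t, gl t → A t X' = (c X / 2) • 1) ∧
    ∀ t, ¬ gl t → A t X' 0 0 = A t X 0 0
  bal : ∀ (k : ℕ) (p : Fin (2 * k) → T), (∀ X, ∑ r, (open Classical in
      if gl (p r) then c X / 2 else A (p r) X 0 0) = k * c X) → ∀ t, ¬ gl t →
    (Finset.univ.filter (fun r => p r = t)).card =
      (Finset.univ.filter (fun r => p r = cj t)).card

namespace Frames

variable {W : Type} [AddCommGroup W] [Module ℂ W] {Qs T C G : Type} [Fintype Qs]
    [DecidableEq Qs] [DecidableEq T] (S : Frames W Qs T C G)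

/-- invariant bilinear forms -/
def inv : Set (W →ₗ[ℂ] W →ₗ[ℂ] ℂ) :=
  {β | ∀ X u v, β (S.L X u) v + β u (S.L X v) = S.c X * β u v}

/-- tensor product of two functionals -/
noncomputable def tens (a b : W →ₗ[ℂ] ℂ) : W →ₗ[ℂ] W →ₗ[ℂ] ℂ :=
  LinearMap.mk₂ ℂ (fun u v => a u * b v)
    (fun u u' v => by rw [map_add]; ring) (fun c u v => by rw [map_smul, smul_eq_mul]; ring)
    (fun u v v' => by rw [map_add]; ring) (fun c u v => by rw [map_smul, smul_eq_mul]; ring)

lemma tens_apply (a b : W →ₗ[ℂ] ℂ) (u v : W) : tens a b u v = a u * b v := rfl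

lemma ext_e {m : ℕ} (M : MultilinearMap ℂ (fun _ : Fin m => W) ℂ)
    (h : ∀ (q : Fin m → Qs) (j : Fin m → Fin 2), M (fun r => S.e (q r) (j r)) = 0) : M = 0 := by
  ext v
  have h1 : v = fun r => ∑ x : Qs × Fin 2, S.co x.1 x.2 (v r) • S.e x.1 x.2 := by
    funext r
    rw [Fintype.sum_prod_type]
    exact S.hsum (v r)
  rw [h1, MultilinearMap.map_sum]
  refine Finset.sum_eq_zero fun s _ => ?_
  rw [MultilinearMap.map_smul_univ, h, smul_zero]

variable {R : Type} [DecidableEq R]

lemma cm_part (p : R → Qs) : ∀ (N : ℕ) (T' : Finset R), T'.card = N →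
    (∀ r ∈ T', ¬ S.gl (S.pl (p r))) →
    (∀ t, (T'.filter (fun r => S.pl (p r) = t)).card =
      (T'.filter (fun r => S.pl (p r) = S.cj t)).card) →
    ∃ Φ, PP S.inv T' Φ ∧ ∀ (q : R → Qs) (j : R → Fin 2), Φ (fun r => S.e (q r) (j r)) =
      if ∀ r ∈ T', p r = q r ∧ j r = 0 then 1 else 0 := by
  classical
  intro N
  induction N using Nat.strong_induction_on with
  | _ N ih =>
    intro T' hN hgl hbal
    by_cases hT : T' = ∅
    · subst hT
      exact ⟨_, PP.nil, fun q j => by simp⟩
    · obtain ⟨r, hr⟩ := Finset.nonempty_iff_ne_empty.mpr hT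
      have h1 : 0 < (T'.filter (fun x => S.pl (p x) = S.cj (S.pl (p r)))).card := by
        rw [← hbal]
        exact Finset.card_pos.mpr ⟨r, Finset.mem_filter.mpr ⟨hr, rfl⟩⟩
      obtain ⟨r', hr'⟩ := Finset.card_pos.mp h1
      rw [Finset.mem_filter] at hr'
      obtain ⟨hr'T, hr'⟩ := hr'
      have hne : r' ≠ r := by
        rintro rfl
        exact S.cj_ne _ (hgl _ hr) hr'.symm
      have hcount : ∀ t, (T'.filter (fun x => S.pl (p x) = t)).card =
          (((T'.erase r).erase r').filter (fun x => S.pl (p x) = t)).card +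
          ((if S.pl (p r) = t then 1 else 0) + (if S.pl (p r') = t then 1 else 0)) := by
        intro t
        rw [Finset.card_filter, Finset.card_filter, ← Finset.add_sum_erase _ _ hr,
          ← Finset.add_sum_erase _ _ (Finset.mem_erase.mpr ⟨hne, hr'T⟩)]
        ring
      obtain ⟨Φ, hΦ, hΦe⟩ := ih ((T'.erase r).erase r').card (by
        rw [← hN]
        exact Finset.card_lt_card (Finset.ssubset_of_subset_of_ssubset (Finset.erase_subset _ _)
          (Finset.erase_ssubset hr))) _ rfl
        (fun x hx => hgl x (Finset.mem_of_mem_erase (Finset.mem_of_mem_erase hx)))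
        (fun t => by
          have h2 := hbal t
          rw [hcount t, hcount (S.cj t), hr'] at h2
          have h3 : (S.pl (p r) = S.cj t) ↔ (S.cj (S.pl (p r)) = t) :=
            ⟨fun h => by rw [h, S.cj_cj], fun h => by rw [← h, S.cj_cj]⟩
          have h4 : (S.cj (S.pl (p r)) = S.cj t) ↔ (S.pl (p r) = t) :=
            ⟨fun h => by rw [← S.cj_cj (S.pl (p r)), h, S.cj_cj], fun h => by rw [h]⟩
          simp only [h3, h4] at h2
          omega)
      have hβ : tens (S.co (p r) 0) (S.co (p r') 0) ∈ S.inv := by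
        intro X u v
        rw [tens_apply, tens_apply, tens_apply, S.co_act _ _ _ _ (Or.inr rfl),
          S.co_act _ _ _ _ (Or.inr rfl), Fin.sum_univ_two, Fin.sum_univ_two,
          (S.cm _ X (hgl _ hr)).1, (S.cm _ X (hgl _ hr'T)).1, ← (S.cm _ X (hgl _ hr)).2, hr']
        ring
      have hPP := PP.cons r r' _ hβ hΦ (by simp) (by simp) (Ne.symm hne)
      have hins : insert r (insert r' ((T'.erase r).erase r')) = T' := by
        rw [Finset.insert_erase (Finset.mem_erase.mpr ⟨hne, hr'T⟩), Finset.insert_erase hr]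
      rw [hins] at hPP
      refine ⟨_, hPP, ?_⟩
      · intro q j
        show tens _ _ _ _ * Φ _ = _
        rw [hΦe, tens_apply, S.co_e _ _ _ _ (Or.inr rfl), S.co_e _ _ _ _ (Or.inr rfl)]
        by_cases h5 : p r = q r ∧ 0 = j r
        · by_cases h6 : p r' = q r' ∧ 0 = j r'
          · rw [if_pos h5, if_pos h6, one_mul, one_mul]
            congr 1
            apply propext
            constructor
            · intro h x hx
              by_cases hxr : x = r
              · subst hxr; exact ⟨h5.1, h5.2.symm⟩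
              by_cases hxr' : x = r'
              · subst hxr'; exact ⟨h6.1, h6.2.symm⟩
              exact h x (Finset.mem_erase.mpr ⟨hxr', Finset.mem_erase.mpr ⟨hxr, hx⟩⟩)
            · intro h x hx
              exact h x (Finset.mem_of_mem_erase (Finset.mem_of_mem_erase hx))
          · rw [if_neg h6, mul_zero, zero_mul]
            rw [if_neg (fun h => h6 ⟨(h r' hr'T).1, (h r' hr'T).2.symm⟩)]
        · rw [if_neg h5, zero_mul, zero_mul]
          rw [if_neg (fun h => h5 ⟨(h r hr).1, (h r hr).2.symm⟩)]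

lemma gl_part [DecidableEq C] (p : R → Qs) (T₀ : Finset R) (Φ₀ : (R → W) → ℂ)
    (hΦ₀ : PP S.inv T₀ Φ₀)
    (T' : Finset R) (g : (R → Fin 2) → ℂ) (hg : GM (fun r => S.cls (S.pl (p r))) T' g) :
    (∀ r ∈ T', S.gl (S.pl (p r))) → Disjoint T' T₀ →
    ∃ Φ, PP S.inv (T' ∪ T₀) Φ ∧ ∀ (q : R → Qs) (j : R → Fin 2),
      Φ (fun r => S.e (q r) (j r)) =
      (if ∀ r ∈ T', p r = q r then g j else 0) * Φ₀ (fun r => S.e (q r) (j r)) := by
  classical
  induction hg with
  | nil =>
    intro _ _
    refine ⟨Φ₀, by rwa [Finset.empty_union], fun q j => by simp⟩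
  | @cons T' g r r' hg hr hr' hne hcls ih =>
    intro hgl hdis
    rw [Finset.disjoint_insert_left, Finset.disjoint_insert_left] at hdis
    obtain ⟨Φ, hΦ, hΦe⟩ := ih (fun x hx => hgl x (Finset.mem_insert_of_mem
      (Finset.mem_insert_of_mem hx))) hdis.2.2
    have hglr : S.gl (S.pl (p r)) := hgl r (Finset.mem_insert_self _ _)
    have hglr' : S.gl (S.pl (p r')) := hgl r' (Finset.mem_insert_of_mem
      (Finset.mem_insert_self _ _))
    let β : W →ₗ[ℂ] W →ₗ[ℂ] ℂ := tens (S.co (p r) 0) (S.co (p r') 1) -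
      tens (S.co (p r) 1) (S.co (p r') 0)
    have hβ : β ∈ S.inv := by
      intro X u v
      have hA : S.A (S.pl (p r)) X = S.A (S.pl (p r')) X := S.same _ _ X hglr hglr' hcls
      simp only [β, LinearMap.sub_apply, tens_apply]
      rw [S.co_act X _ 0 u (Or.inl hglr), S.co_act X _ 1 u (Or.inl hglr),
        S.co_act X _ 0 v (Or.inl hglr'), S.co_act X _ 1 v (Or.inl hglr'), hA,
        Fin.sum_univ_two, Fin.sum_univ_two, Fin.sum_univ_two, Fin.sum_univ_two,
        ← S.tr _ X hglr', trace_fin_two]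
      ring
    refine ⟨fun v => β (v r) (v r') * Φ v, ?_, ?_⟩
    · rw [Finset.insert_union, Finset.insert_union]
      refine PP.cons r r' β hβ hΦ ?_ ?_ hne
      · rw [Finset.mem_union, not_or]; exact ⟨hr, hdis.1⟩
      · rw [Finset.mem_union, not_or]; exact ⟨hr', hdis.2.1⟩
    · intro q j
      have h1 : β (S.e (q r) (j r)) (S.e (q r') (j r')) =
          if p r = q r ∧ p r' = q r' then om (j r) (j r') else 0 := by
        simp only [β, LinearMap.sub_apply, tens_apply]
        rw [S.co_e _ _ _ _ (Or.inl hglr), S.co_e _ _ _ _ (Or.inl hglr),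
          S.co_e _ _ _ _ (Or.inl hglr'), S.co_e _ _ _ _ (Or.inl hglr')]
        by_cases h2 : p r = q r
        · by_cases h3 : p r' = q r'
          · have hfin : ∀ j : Fin 2, j = 0 ∨ j = 1 := by
              intro j; fin_cases j <;> simp
            rcases hfin (j r) with h4 | h4 <;> rcases hfin (j r') with h5 | h5 <;>
              simp [h2, h3, h4, h5, om]
          · simp [h3]
        · simp [h2]
      show β (S.e (q r) (j r)) (S.e (q r') (j r')) * Φ _ = _
      rw [hΦe, h1, ← mul_assoc]
      congr 1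
      by_cases h2 : p r = q r ∧ p r' = q r'
      · rw [if_pos h2]
        by_cases h3 : ∀ x ∈ T', p x = q x
        · rw [if_pos h3, if_pos]
          intro x hx
          rw [Finset.mem_insert, Finset.mem_insert] at hx
          rcases hx with rfl | rfl | hx
          · exact h2.1
          · exact h2.2
          · exact h3 x hx
        · rw [if_neg h3, mul_zero]
          rw [if_neg (fun h => h3 fun x hx => h x (Finset.mem_insert_of_mem
            (Finset.mem_insert_of_mem hx)))]
      · rw [if_neg h2, zero_mul]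
        rw [if_neg (fun h => h2 ⟨h r (Finset.mem_insert_self _ _), h r'
          (Finset.mem_insert_of_mem (Finset.mem_insert_self _ _))⟩)]

section main

variable {k : ℕ} (α : MultilinearMap ℂ (fun _ : Fin (2 * k) => W) ℂ)

open Classical in
/-- restriction of the coordinates to the slots of the first kind -/
noncomputable def cut (p : Fin (2 * k) → Qs) (j : Fin (2 * k) → Fin 2) : Fin (2 * k) → Fin 2 :=
  fun r => if S.gl (S.pl (p r)) then j r else 0

/-- coefficients -/
noncomputable def cof (p : Fin (2 * k) → Qs) (j : Fin (2 * k) → Fin 2) : ℂ :=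
  α (fun r => S.e (p r) (S.cut p j r))

/-- slots of the first kind -/
noncomputable def glSlots (p : Fin (2 * k) → Qs) : Finset (Fin (2 * k)) :=
  open Classical in Finset.univ.filter (fun r => S.gl (S.pl (p r)))

lemma mem_glSlots (p : Fin (2 * k) → Qs) (r : Fin (2 * k)) :
    r ∈ S.glSlots p ↔ S.gl (S.pl (p r)) := by
  simp [glSlots]

lemma cut_update (p : Fin (2 * k) → Qs) (j : Fin (2 * k) → Fin 2) (r : Fin (2 * k)) (x : Fin 2)
    (hr : S.gl (S.pl (p r))) :
    (fun r' => S.e (p r') (S.cut p (Function.update j r x) r')) =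
      Function.update (fun r' => S.e (p r') (S.cut p j r')) r (S.e (p r) x) := by
  funext r'
  by_cases h : r' = r
  · subst h
    rw [Function.update_self, cut, if_pos hr, Function.update_self]
  · rw [Function.update_of_ne h]
    simp only [cut, Function.update_of_ne h]

variable (hα : ∀ X v, ∑ r, α (Function.update v r (S.L X (v r))) = (k * S.c X) * α v)

include hα in
lemma act_sum [DecidableEq C] (p : Fin (2 * k) → Qs) (j : Fin (2 * k) → Fin 2) (c : C)
    (Z : Matrix (Fin 2) (Fin 2) ℂ) (hZ : Z.trace = 0) :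
    ∑ r ∈ S.glSlots p, (if S.cls (S.pl (p r)) = c then
      ∑ x, Z x (j r) * S.cof α p (Function.update j r x) else 0) = 0 := by
  classical
  by_cases hc : ∃ r₁ ∈ S.glSlots p, S.cls (S.pl (p r₁)) = c
  · obtain ⟨r₁, hr₁, hc⟩ := hc
    rw [mem_glSlots] at hr₁
    obtain ⟨X, hX0, hX1, hX2, hX3⟩ := S.sl (S.pl (p r₁)) Z hr₁ hZ
    have h1 := hα X (fun r => S.e (p r) (S.cut p j r))
    rw [hX0, mul_zero, zero_mul] at h1
    refine Eq.trans ?_ h1
    rw [← Finset.sum_subset (Finset.subset_univ (S.glSlots p))]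
    · refine Finset.sum_congr rfl fun r hr => ?_
      rw [mem_glSlots] at hr
      have h2 : S.cut p j r = j r := by rw [cut, if_pos hr]
      rw [h2, S.act, MultilinearMap.map_update_sum]
      split_ifs with h
      · refine Finset.sum_congr rfl fun x _ => ?_
        rw [MultilinearMap.map_update_smul, smul_eq_mul, cof, S.cut_update p j r x hr,
          S.same (S.pl (p r)) (S.pl (p r₁)) X hr hr₁ (by rw [h, hc]), hX1]
      · symm
        refine Finset.sum_eq_zero fun x _ => ?_
        rw [hX2 _ hr (by rw [hc]; exact h), Matrix.zero_apply, zero_smul,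
          MultilinearMap.map_update_zero]
    · intro r _ hr
      rw [mem_glSlots] at hr
      have h2 : S.cut p j r = 0 := by rw [cut, if_neg hr]
      rw [h2, S.act, Fin.sum_univ_two, hX3 _ hr, S.e_one _ hr, smul_zero, zero_smul, zero_add,
        MultilinearMap.map_update_zero]
  · push Not at hc
    exact Finset.sum_eq_zero fun r hr => by rw [if_neg (hc r hr)]

include hα in
lemma cof_inv [DecidableEq C] (p : Fin (2 * k) → Qs) :
    SInv (fun r => S.cls (S.pl (p r))) (S.glSlots p) (S.cof α p) where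
  dep := by
    intro j j' h
    unfold cof
    congr 1
    funext r
    congr 1
    unfold cut
    split_ifs with hr
    · exact h r ((S.mem_glSlots p r).mpr hr)
    · rfl
  lower := by
    intro c j
    refine Eq.trans ?_ (act_sum S α hα p j c mE tr_mE)
    refine Finset.sum_congr rfl fun r _ => ?_
    have hfin : ∀ j : Fin 2, j = 0 ∨ j = 1 := by
      intro j; fin_cases j <;> simp
    by_cases h : S.cls (S.pl (p r)) = c
    · rcases hfin (j r) with h1 | h1
      · simp [h, h1, Fin.sum_univ_two, mE00, mE10]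
      · simp [h, h1, Fin.sum_univ_two, mE01, mE11]
    · simp [h]
  raise := by
    intro c j
    refine Eq.trans ?_ (act_sum S α hα p j c mF tr_mF)
    refine Finset.sum_congr rfl fun r _ => ?_
    have hfin : ∀ j : Fin 2, j = 0 ∨ j = 1 := by
      intro j; fin_cases j <;> simp
    by_cases h : S.cls (S.pl (p r)) = c
    · rcases hfin (j r) with h1 | h1
      · simp [h, h1, Fin.sum_univ_two, mF00, mF10]
      · simp [h, h1, Fin.sum_univ_two, mF01, mF11]
    · simp [h]
  weight := by
    intro c j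
    refine Eq.trans ?_ (act_sum S α hα p j c mH tr_mH)
    rw [Finset.sum_mul]
    refine Finset.sum_congr rfl fun r _ => ?_
    have hfin : ∀ j : Fin 2, j = 0 ∨ j = 1 := by
      intro j; fin_cases j <;> simp
    by_cases h : S.cls (S.pl (p r)) = c
    · rcases hfin (j r) with h1 | h1
      · have h2 : Function.update j r 0 = j := by rw [← h1, Function.update_eq_self]
        simp [h, h1, Fin.sum_univ_two, mH00, mH10, h2]
      · have h2 : Function.update j r 1 = j := by rw [← h1, Function.update_eq_self]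
        simp [h, h1, Fin.sum_univ_two, mH01, mH11, h2]
    · simp [h]

/-- products of invariant bilinear forms -/
def invProd (k : ℕ) : Set (MultilinearMap ℂ (fun _ : Fin (2 * k) => W) ℂ) :=
  {M | ∃ (π : Equiv.Perm (Fin (2 * k))) (β : Fin k → (W →ₗ[ℂ] W →ₗ[ℂ] ℂ)),
    (∀ a, β a ∈ S.inv) ∧ M = (prodBilin β).domDomCongr π}

include hα in
lemma pattern [DecidableEq C] (p : Fin (2 * k) → Qs) :
    ∃ M ∈ Submodule.span ℂ (S.invProd k), ∀ (q : Fin (2 * k) → Qs) (j : Fin (2 * k) → Fin 2),
      M (fun r => S.e (q r) (j r)) = if p = q then α (fun r => S.e (q r) (j r)) else 0 := by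
  classical
  by_cases hz : ∀ j : Fin (2 * k) → Fin 2, α (fun r => S.e (p r) (j r)) = 0
  · refine ⟨0, Submodule.zero_mem _, fun q j => ?_⟩
    split_ifs with h
    · subst h; rw [hz]; rfl
    · rfl
  · push Not at hz
    obtain ⟨j₀, hj₀⟩ := hz
    have hwt : ∀ X, (∀ t, S.gl t → S.A t X = (S.c X / 2) • 1) →
        ∑ r, S.A (S.pl (p r)) X 0 0 = k * S.c X := by
      intro X hX
      have h1 := hα X (fun r => S.e (p r) (j₀ r))
      have h2 : ∀ r, S.L X (S.e (p r) (j₀ r)) = S.A (S.pl (p r)) X 0 0 • S.e (p r) (j₀ r) := by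
        intro r
        rw [S.act]
        have hfin : ∀ j : Fin 2, j = 0 ∨ j = 1 := by
          intro j; fin_cases j <;> simp
        by_cases hr : S.gl (S.pl (p r))
        · rw [hX _ hr, Fin.sum_univ_two]
          rcases hfin (j₀ r) with h | h <;> simp [h]
        · rw [Fin.sum_univ_two]
          rcases hfin (j₀ r) with h | h
          · rw [h, S.e_one _ hr, smul_zero, add_zero]
          · rw [h, S.e_one _ hr, smul_zero, smul_zero, add_zero, (S.cm _ X hr).1, zero_smul]
      have h3 : ∑ r, α (Function.update (fun r => S.e (p r) (j₀ r)) r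
          (S.L X (S.e (p r) (j₀ r)))) =
          (∑ r, S.A (S.pl (p r)) X 0 0) * α (fun r => S.e (p r) (j₀ r)) := by
        rw [Finset.sum_mul]
        refine Finset.sum_congr rfl fun r _ => ?_
        rw [h2, MultilinearMap.map_update_smul, Function.update_eq_self, smul_eq_mul]
      rw [h3] at h1
      exact mul_right_cancel₀ hj₀ h1
    have hbal := S.bal k (fun r => S.pl (p r)) (fun X => by
      obtain ⟨X', h1, h2, h3⟩ := S.central X
      rw [← h1, ← hwt X' (fun t ht => by rw [h1]; exact h2 t ht)]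
      refine Finset.sum_congr rfl fun r _ => ?_
      split_ifs with h
      · rw [h2 _ h, h1]; simp
      · rw [h3 _ h])
    -- the slots of the second kind
    obtain ⟨T₀, hT₀⟩ : ∃ T₀, T₀ = (S.glSlots p)ᶜ := ⟨_, rfl⟩
    have hmem : ∀ r, r ∈ T₀ ↔ ¬ S.gl (S.pl (p r)) := by
      intro r; rw [hT₀, Finset.mem_compl, mem_glSlots]
    have hcnt : ∀ t, ¬ S.gl t → T₀.filter (fun r => S.pl (p r) = t) =
        Finset.univ.filter (fun r => S.pl (p r) = t) := by
      intro t ht
      ext r
      rw [Finset.mem_filter, Finset.mem_filter, hmem]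
      constructor
      · rintro ⟨-, h⟩; exact ⟨Finset.mem_univ _, h⟩
      · rintro ⟨-, h⟩; exact ⟨by rw [h]; exact ht, h⟩
    have hcnt0 : ∀ t, S.gl t → T₀.filter (fun r => S.pl (p r) = t) = ∅ := by
      intro t ht
      rw [Finset.filter_eq_empty_iff]
      intro r hr h
      rw [hmem, h] at hr
      exact hr ht
    obtain ⟨Φ₀, hΦ₀, hΦ₀e⟩ := S.cm_part p T₀.card T₀ rfl (fun r hr => (hmem r).mp hr)
      (fun t => by
        by_cases ht : S.gl t
        · rw [hcnt0 t ht, hcnt0 _ ((S.gl_cj t).mpr ht)]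
        · rw [hcnt t ht, hcnt _ (fun h => ht ((S.gl_cj t).mp h))]
          exact hbal t ht)
    have h1 := gl_fft (fun r => S.cls (S.pl (p r))) _ _ rfl _ (cof_inv S α hα p)
    have h2 : ∀ g ∈ Submodule.span ℂ {g | GM (fun r => S.cls (S.pl (p r))) (S.glSlots p) g},
        ∃ M ∈ Submodule.span ℂ (S.invProd k), ∀ (q : Fin (2 * k) → Qs)
          (j : Fin (2 * k) → Fin 2), M (fun r => S.e (q r) (j r)) =
          (if ∀ r ∈ S.glSlots p, p r = q r then g j else 0) *
            Φ₀ (fun r => S.e (q r) (j r)) := by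
      intro g hg
      induction hg using Submodule.span_induction with
      | mem g hg =>
        obtain ⟨Φ, hΦ, hΦe⟩ := S.gl_part p T₀ Φ₀ hΦ₀ _ g hg
          (fun r hr => (S.mem_glSlots p r).mp hr) (by rw [hT₀]; exact disjoint_compl_right)
        rw [hT₀, Finset.union_compl] at hΦ
        obtain ⟨π, β, hβ, hΦ⟩ := hΦ.exists_perm
        refine ⟨(prodBilin β).domDomCongr π, Submodule.subset_span ⟨π, β, hβ, rfl⟩, ?_⟩
        intro q j
        rw [← hΦ]
        convert hΦe q j
      | zero => exact ⟨0, Submodule.zero_mem _, fun q j => by simp⟩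
      | add g g' _ _ hg hg' =>
        obtain ⟨M, hM, hMe⟩ := hg
        obtain ⟨M', hM', hMe'⟩ := hg'
        refine ⟨M + M', Submodule.add_mem _ hM hM', fun q j => ?_⟩
        rw [_root_.add_apply, hMe, hMe']
        split_ifs <;> simp [add_mul]
      | smul a g _ hg =>
        obtain ⟨M, hM, hMe⟩ := hg
        refine ⟨a • M, Submodule.smul_mem _ _ hM, fun q j => ?_⟩
        rw [_root_.smul_apply, hMe]
        split_ifs <;> simp [mul_assoc]
    obtain ⟨M, hM, hMe⟩ := h2 _ h1
    refine ⟨M, hM, fun q j => ?_⟩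
    rw [hMe, hΦ₀e]
    by_cases hpq : p = q
    · subst hpq
      rw [if_pos (fun _ _ => rfl), if_pos rfl]
      by_cases hj : ∀ r ∈ T₀, j r = 0
      · rw [if_pos (fun r hr => ⟨rfl, hj r hr⟩), mul_one, cof]
        congr 1
        funext r
        congr 1
        unfold cut
        split_ifs with hr
        · rfl
        · exact (hj r ((hmem r).mpr hr)).symm
      · rw [if_neg (fun h => hj fun r hr => (h r hr).2), mul_zero]
        push Not at hj
        obtain ⟨r, hr, hjr⟩ := hj
        have hfin : ∀ j : Fin 2, j = 0 ∨ j = 1 := by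
          intro j; fin_cases j <;> simp
        have hjr1 : j r = 1 := (hfin (j r)).resolve_left hjr
        symm
        apply α.map_coord_zero r
        show S.e (p r) (j r) = 0
        rw [hjr1, S.e_one _ ((hmem r).mp hr)]
    · rw [if_neg hpq]
      obtain ⟨r, hr⟩ : ∃ r, p r ≠ q r := by
        by_contra h
        push Not at h
        exact hpq (funext h)
      by_cases hgl : S.gl (S.pl (p r))
      · rw [if_neg (fun h => hr (h r ((S.mem_glSlots p r).mpr hgl))), zero_mul]
      · rw [if_neg (c := ∀ r ∈ T₀, p r = q r ∧ j r = 0)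
          (fun h => hr (h r ((hmem r).mpr hgl)).1), mul_zero]

include hα in
/-- invariant multilinear forms are combinations of products of invariant bilinear forms -/
theorem main_fft [DecidableEq C] : α ∈ Submodule.span ℂ (S.invProd k) := by
  classical
  choose M hM hMe using S.pattern α hα
  have h1 : α = ∑ p, M p := by
    rw [← sub_eq_zero]
    apply S.ext_e
    intro q j
    rw [_root_.sub_apply, _root_.sum_apply]
    simp only [hMe]
    rw [Finset.sum_ite_eq' Finset.univ q]
    simp
  rw [h1]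
  exact Submodule.sum_mem _ fun p _ => hM p

end main

end Frames

end Pool.Agent.Helper7
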