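import Pool.Agent.Helper7.ActForm
import Pool.Agent.Helper7.Main

/-!
The Lie algebra of infinitesimal symmetries of a de Rham-Betti class.
-/

namespace Pool.Agent.Helper7

open Module

/-- abstract de Rham-Betti first homology of a polarised abelian variety -/
structure PData (κ : Type*) [Fintype κ] [DecidableEq κ] (ϖ : ℂ) where
  ι : Type
  fι : Fintype ι
  bB : Basis ι ℂ (κ → ℂ)
  ψ : (κ → ℂ) →ₗ[ℂ] (κ → ℂ) →ₗ[ℂ] ℂ
  hψalg : ∀ i j, IsAlgebraic ℚ (ψ (Pi.single i 1) (Pi.single j 1))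
  hψQ : ∀ u ∈ Submodule.span ℚ (Set.range bB), ∀ v ∈ Submodule.span ℚ (Set.range bB),
    ∃ q : ℚ, ψ u v = ϖ * q
  hψnd : ∀ u, (∀ v, ψ u v = 0) → u = 0
  hψalt : ∀ u v, ψ u v = - ψ v u

attribute [instance] PData.fι

section single

variable {κ : Type*} [Fintype κ] [DecidableEq κ] {ϖ : ℂ}

/-- the rational structure -/
noncomputable def PData.Q (P : PData κ ϖ) : Submodule ℚ (κ → ℂ) := Submodule.span ℚ (Set.range P.bB)

variable {κ' : Type*} [Fintype κ'] [DecidableEq κ']

/-- de Rham-Betti morphisms -/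
structure IsDRB (P : PData κ ϖ) (P' : PData κ' ϖ) (f : (κ → ℂ) →ₗ[ℂ] (κ' → ℂ)) : Prop where
  rat : ∀ v ∈ P.Q, f v ∈ P'.Q
  alg : ∀ i j, IsAlgebraic ℚ (f (Pi.single i 1) j)

/-- the comparison operator -/
noncomputable def PData.N (P : PData κ ϖ) (D : Derivation ℚ ℂ ℂ) : Module.End ℂ (κ → ℂ) :=
  opN P.bB (Pi.basisFun ℂ κ) D

lemma PData.basis_mem (P : PData κ ϖ) (q : P.ι) : P.bB q ∈ P.Q := Submodule.subset_span ⟨q, rfl⟩

lemma PData.repr_rat (P : PData κ ϖ) (v : κ → ℂ) (hv : v ∈ P.Q) (i : P.ι) :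
    ∃ q : ℚ, P.bB.repr v i = q := by
  classical
  unfold PData.Q at hv
  induction hv using Submodule.span_induction with
  | mem x hx =>
    obtain ⟨j, rfl⟩ := hx
    rw [Basis.repr_self]
    by_cases h : j = i
    · subst h; exact ⟨1, by simp⟩
    · rw [Finsupp.single_eq_of_ne (Ne.symm h)]; exact ⟨0, by simp⟩
  | zero => exact ⟨0, by simp⟩
  | add x y _ _ hx hy =>
    obtain ⟨p, hp⟩ := hx
    obtain ⟨q, hq⟩ := hy
    refine ⟨p + q, ?_⟩
    rw [map_add, Finsupp.add_apply, hp, hq]; push_cast; ring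
  | smul a x _ hx =>
    obtain ⟨p, hp⟩ := hx
    refine ⟨a * p, ?_⟩
    have h1 : a • x = (a : ℂ) • x := by
      rw [← algebraMap_smul ℂ a x]; rfl
    rw [h1, map_smul, Finsupp.smul_apply, hp, smul_eq_mul]; push_cast; ring

lemma PData.rat_smul_mem (P : PData κ ϖ) (q : ℚ) (v : κ → ℂ) (hv : v ∈ P.Q) :
    (q : ℂ) • v ∈ P.Q := by
  have h1 : q • v = (q : ℂ) • v := by
    rw [← algebraMap_smul ℂ q v]; rfl
  rw [← h1]
  exact P.Q.smul_mem q hv

lemma IsDRB.comm_N {P : PData κ ϖ} {P' : PData κ' ϖ} {f : (κ → ℂ) →ₗ[ℂ] (κ' → ℂ)}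
    (hf : IsDRB P P' f) (D : Derivation ℚ ℂ ℂ) (v : κ → ℂ) : P'.N D (f v) = f (P.N D v) := by
  symm
  refine comm_opN P.bB (Pi.basisFun ℂ κ) P'.bB (Pi.basisFun ℂ κ') f ?_ ?_ D v
  · intro i k
    obtain ⟨q, hq⟩ := P'.repr_rat _ (hf.rat _ (P.basis_mem i)) k
    rw [hq]; exact isAlgebraic_ratCast ℚ q
  · intro i k
    rw [Pi.basisFun_apply, Pi.basisFun_repr]
    exact hf.alg i k

lemma isDRB_of_comm (P : PData κ ϖ) (P' : PData κ' ϖ) (f : (κ → ℂ) →ₗ[ℂ] (κ' → ℂ))
    (hr : ∀ v ∈ P.Q, f v ∈ P'.Q)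
    (h : ∀ (D : Derivation ℚ ℂ ℂ) v, P'.N D (f v) = f (P.N D v)) : IsDRB P P' f where
  rat := hr
  alg i j := by
    have h1 := alg_of_comm_opN P.bB (Pi.basisFun ℂ κ) P'.bB (Pi.basisFun ℂ κ') f (fun i k => by
      obtain ⟨q, hq⟩ := P'.repr_rat _ (hr _ (P.basis_mem i)) k
      rw [hq]; exact isAlgebraic_ratCast ℚ q) (fun D v => (h D v).symm) i j
    rwa [Pi.basisFun_apply, Pi.basisFun_repr] at h1

end single

section family

variable {I : Type*} [Fintype I] [DecidableEq I] (n : I → ℕ)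
  {κ : I → Type*} [∀ i, Fintype (κ i)] [∀ i, DecidableEq (κ i)] {ϖ : ℂ}
  (P : ∀ i, PData (κ i) ϖ)

/-- pairs of a family of endomorphisms and a multiplier -/
abbrev GG (κ : I → Type*) : Type _ := ((i : I) → Module.End ℂ (κ i → ℂ)) × ℂ

/-- slotwise action of a family of endomorphisms -/
def lift (N : (i : I) → Module.End ℂ (κ i → ℂ)) : Module.End ℂ (HW κ n) where
  toFun v := fun i m => N i (v i m)
  map_add' v w := by funext i m; simp
  map_smul' c v := by funext i m; simp

omit [Fintype I] [DecidableEq I] [∀ i, Fintype (κ i)] [∀ i, DecidableEq (κ i)] in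
lemma lift_apply (N : (i : I) → Module.End ℂ (κ i → ℂ)) (v : HW κ n) (i : I) (m : Fin (n i)) :
    lift n N v i m = N i (v i m) := rfl

/-- Betti basis of the product -/
noncomputable def FBP : Basis (Σ i, Σ (_ : Fin (n i)), (P i).ι) ℂ (HW κ n) :=
  Pi.basis (fun i => Pi.basis (fun _ : Fin (n i) => (P i).bB))

/-- de Rham basis of the product -/
noncomputable def SBP (κ : I → Type*) [∀ i, Fintype (κ i)] [∀ i, DecidableEq (κ i)] :
    Basis (Σ i, Σ (_ : Fin (n i)), κ i) ℂ (HW κ n) :=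
  Pi.basis (fun i => Pi.basis (fun _ : Fin (n i) => Pi.basisFun ℂ (κ i)))

lemma FBP_apply (b : Σ i, Σ (_ : Fin (n i)), (P i).ι) :
    FBP n P b = slot n b.1 b.2.1 ((P b.1).bB b.2.2) := by
  simp [FBP, slot]

lemma SBP_apply (b : Σ i, Σ (_ : Fin (n i)), κ i) :
    SBP n κ b = slot n b.1 b.2.1 (Pi.single b.2.2 1) := by
  simp [SBP, slot, Pi.basisFun_apply]

/-- rational vectors -/
def IsRatP (v : HW κ n) : Prop := ∀ i m, v i m ∈ (P i).Q

omit [Fintype I] in
lemma slot_isRatP (i : I) (m : Fin (n i)) (v : κ i → ℂ) (hv : v ∈ (P i).Q) :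
    IsRatP n P (slot n i m v) := by
  intro i' m'
  by_cases h : i' = i
  · subst h
    simp only [slot, Pi.single_eq_same]
    by_cases h2 : m' = m
    · subst h2; simpa using hv
    · rw [Pi.single_eq_of_ne h2]; exact Submodule.zero_mem _
  · simp only [slot, Pi.single_eq_of_ne h]
    exact Submodule.zero_mem _

lemma FBP_isRatP (b : Σ i, Σ (_ : Fin (n i)), (P i).ι) : IsRatP n P (FBP n P b) := by
  rw [FBP_apply]; exact slot_isRatP n P _ _ _ ((P b.1).basis_mem _)

/-- the comparison operator of the product -/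
lemma lift_N (D : Derivation ℚ ℂ ℂ) :
    lift n (fun i => (P i).N D) = opN (FBP n P) (SBP n κ) D := by
  apply (FBP n P).ext
  intro b
  rw [opN_apply, nabla_basis, sub_zero, FBP_apply]
  have h1 : nabla (SBP n κ) D (slot n b.1 b.2.1 ((P b.1).bB b.2.2)) =
      slot n b.1 b.2.1 (nabla (Pi.basisFun ℂ (κ b.1)) D ((P b.1).bB b.2.2)) := by
    have h2 := map_nabla (Pi.basisFun ℂ (κ b.1)) (SBP n κ) (slotL n b.1 b.2.1) (by
      intro i k
      have h3 : slotL n b.1 b.2.1 (Pi.basisFun ℂ (κ b.1) i) = SBP n κ ⟨b.1, b.2.1, i⟩ := by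
        rw [SBP_apply, Pi.basisFun_apply]; rfl
      rw [h3, Basis.repr_self]
      classical
      by_cases h : (⟨b.1, b.2.1, i⟩ : Σ i, Σ (_ : Fin (n i)), κ i) = k
      · rw [h, Finsupp.single_eq_same]; exact isAlgebraic_one
      · rw [Finsupp.single_eq_of_ne (Ne.symm h)]; exact isAlgebraic_zero) D ((P b.1).bB b.2.2)
    exact h2.symm
  rw [h1]
  have h4 : nabla (Pi.basisFun ℂ (κ b.1)) D ((P b.1).bB b.2.2) = (P b.1).N D ((P b.1).bB b.2.2) := by
    rw [PData.N, opN_apply, nabla_basis, sub_zero]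
  rw [h4]
  funext i m
  rw [lift_apply]
  by_cases h : i = b.1
  · subst h
    simp only [slot, Pi.single_eq_same]
    by_cases h2 : m = b.2.1
    · subst h2; simp
    · rw [Pi.single_eq_of_ne h2, Pi.single_eq_of_ne h2, map_zero]
  · simp only [slot]
    rw [Pi.single_eq_of_ne h, Pi.single_eq_of_ne h]
    simp

variable {k : ℕ} (α : MultilinearMap ℂ (fun _ : Fin (2 * k) => HW κ n) ℂ)

/-- infinitesimal symmetries -/
structure IsInv (X : GG κ) : Prop where
  comm : ∀ i j (f : (κ i → ℂ) →ₗ[ℂ] (κ j → ℂ)), IsDRB (P i) (P j) f →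
    ∀ v, X.1 j (f v) = f (X.1 i v)
  pol : ∀ i u v, (P i).ψ (X.1 i u) v + (P i).ψ u (X.1 i v) = X.2 * (P i).ψ u v
  form : actForm (lift n X.1) α = (k * X.2) • α

omit [Fintype I] [DecidableEq I] [∀ i, Fintype (κ i)] [∀ i, DecidableEq (κ i)] in
lemma lift_add (M N : (i : I) → Module.End ℂ (κ i → ℂ)) : lift n (M + N) = lift n M + lift n N := by
  ext v : 1; funext i m; rfl

omit [Fintype I] [DecidableEq I] [∀ i, Fintype (κ i)] [∀ i, DecidableEq (κ i)] in
lemma lift_smul (c : ℂ) (M : (i : I) → Module.End ℂ (κ i → ℂ)) : lift n (c • M) = c • lift n M := by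
  ext v : 1; funext i m; rfl

omit [Fintype I] [DecidableEq I] [∀ i, Fintype (κ i)] [∀ i, DecidableEq (κ i)] in
lemma lift_zero : lift n (0 : (i : I) → Module.End ℂ (κ i → ℂ)) = 0 := by
  ext v : 1; funext i m; rfl

omit [Fintype I] [DecidableEq I] [∀ i, Fintype (κ i)] [∀ i, DecidableEq (κ i)] in
lemma lift_bracket (M N : (i : I) → Module.End ℂ (κ i → ℂ)) :
    lift n (M * N - N * M) = lift n M * lift n N - lift n N * lift n M := by
  ext v : 1; funext i m; rfl

omit [Fintype I] [DecidableEq I] in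
lemma IsInv.zero : IsInv n P α 0 where
  comm _ _ f _ v := (map_zero f).symm
  pol i u v := by simp
  form := by
    show actForm (lift n 0) α = _
    rw [lift_zero, actForm_zero]; simp

omit [Fintype I] [DecidableEq I] in
lemma IsInv.add {X Y : GG κ} (hX : IsInv n P α X) (hY : IsInv n P α Y) :
    IsInv n P α (X + Y) where
  comm i j f hf v := by
    show X.1 j (f v) + Y.1 j (f v) = f (X.1 i v + Y.1 i v)
    rw [hX.comm i j f hf, hY.comm i j f hf, map_add]
  pol i u v := by
    show (P i).ψ (X.1 i u + Y.1 i u) v + (P i).ψ u (X.1 i v + Y.1 i v) = (X.2 + Y.2) * _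
    rw [map_add, LinearMap.add_apply, map_add, add_mul, ← hX.pol, ← hY.pol]
    ring
  form := by
    show actForm (lift n (X.1 + Y.1)) α = (k * (X.2 + Y.2)) • α
    rw [lift_add, actForm_add, hX.form, hY.form, mul_add, add_smul]

omit [Fintype I] [DecidableEq I] in
lemma IsInv.smul {X : GG κ} (c : ℂ) (hX : IsInv n P α X) : IsInv n P α (c • X) where
  comm i j f hf v := by
    show c • X.1 j (f v) = f (c • X.1 i v)
    rw [hX.comm i j f hf, map_smul]
  pol i u v := by
    show (P i).ψ (c • X.1 i u) v + (P i).ψ u (c • X.1 i v) = (c * X.2) * _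
    rw [map_smul, LinearMap.smul_apply, map_smul, mul_assoc, ← hX.pol, smul_eq_mul, smul_eq_mul]
    ring
  form := by
    show actForm (lift n (c • X.1)) α = (k * (c * X.2)) • α
    rw [lift_smul, actForm_smul, hX.form, smul_smul]
    congr 1; ring

omit [Fintype I] [DecidableEq I] in
lemma IsInv.bracket {X Y : GG κ} (hX : IsInv n P α X) (hY : IsInv n P α Y) :
    IsInv n P α (X * Y - Y * X) where
  comm i j f hf v := by
    show X.1 j (Y.1 j (f v)) - Y.1 j (X.1 j (f v)) = f (X.1 i (Y.1 i v) - Y.1 i (X.1 i v))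
    rw [hX.comm i j f hf, hY.comm i j f hf, hX.comm i j f hf, hY.comm i j f hf, map_sub]
  pol i u v := by
    show (P i).ψ (X.1 i (Y.1 i u) - Y.1 i (X.1 i u)) v +
      (P i).ψ u (X.1 i (Y.1 i v) - Y.1 i (X.1 i v)) = (X.2 * Y.2 - Y.2 * X.2) * _
    rw [map_sub, LinearMap.sub_apply, map_sub]
    have e1 := hX.pol i (Y.1 i u) v
    have e2 := hY.pol i (X.1 i u) v
    have e3 := hX.pol i u (Y.1 i v)
    have e4 := hY.pol i u (X.1 i v)
    have e5 := hX.pol i u v
    have e6 := hY.pol i u v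
    linear_combination e1 - e2 + e3 - e4 - Y.2 * e5 + X.2 * e6
  form := by
    show actForm (lift n (X.1 * Y.1 - Y.1 * X.1)) α = (k * (X.2 * Y.2 - Y.2 * X.2)) • α
    rw [lift_bracket, actForm_bracket, hX.form, hY.form, actForm_smul_right, actForm_smul_right,
      hX.form, hY.form, smul_smul, smul_smul, ← sub_smul]
    congr 1; ring

/-- the comparison operators are infinitesimal symmetries -/
lemma isInv_N (hϖ : ϖ ≠ 0)
    (hB : ∀ v : Fin (2 * k) → HW κ n, (∀ r, IsRatP n P (v r)) → ∃ q : ℚ, α v = ϖ ^ k * q)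
    (hA : ∀ v : Fin (2 * k) → HW κ n, (∀ r i m j, IsAlgebraic ℚ (v r i m j)) →
      IsAlgebraic ℚ (α v)) (D : Derivation ℚ ℂ ℂ) :
    IsInv n P α (fun i => (P i).N D, D ϖ / ϖ) where
  comm i j f hf v := hf.comm_N D v
  pol i u v := by
    -- view the polarisation as multilinear form on `Fin 2`
    let β : MultilinearMap ℂ (fun _ : Fin 2 => (κ i → ℂ)) ℂ :=
      { toFun := fun w => (P i).ψ (w 0) (w 1)
        map_update_add' := by
          intro inst w r x y
          have hinst : inst = instDecidableEqFin 2 := Subsingleton.elim _ _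
          subst hinst
          fin_cases r <;> simp [Function.update]
        map_update_smul' := by
          intro inst w r c x
          have hinst : inst = instDecidableEqFin 2 := Subsingleton.elim _ _
          subst hinst
          fin_cases r <;> simp [Function.update] }
    have h := opN_invariant (P i).bB (Pi.basisFun ℂ (κ i)) D ϖ hϖ 1 β
      (fun s => by
        have h5 := (P i).hψalg (s 0) (s 1)
        rw [← Pi.basisFun_apply ℂ (κ i) (s 0), ← Pi.basisFun_apply ℂ (κ i) (s 1)] at h5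
        exact h5)
      (fun s => by
        obtain ⟨q, hq⟩ := (P i).hψQ _ ((P i).basis_mem (s 0)) _ ((P i).basis_mem (s 1))
        exact ⟨q, by rw [pow_one]; exact hq⟩) ![u, v]
    rw [Fin.sum_univ_two] at h
    have h1 : β (Function.update ![u, v] 0 (opN (P i).bB (Pi.basisFun ℂ (κ i)) D (![u, v] 0))) =
      (P i).ψ ((P i).N D u) v := by
      show (P i).ψ _ _ = _
      simp [Function.update, PData.N]
    have h2 : β (Function.update ![u, v] 1 (opN (P i).bB (Pi.basisFun ℂ (κ i)) D (![u, v] 1))) =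
      (P i).ψ u ((P i).N D v) := by
      show (P i).ψ _ _ = _
      simp [Function.update, PData.N]
    rw [h1, h2] at h
    have h3 : β ![u, v] = (P i).ψ u v := rfl
    rw [h3] at h
    rw [h]
    push_cast
    ring
  form := by
    show actForm (lift n (fun i => (P i).N D)) α = _
    rw [lift_N]
    apply MultilinearMap.ext
    intro v
    rw [actForm_apply, _root_.smul_apply, smul_eq_mul]
    exact opN_invariant (FBP n P) (SBP n κ) D ϖ hϖ k α
      (fun s => hA _ (fun r i m j => by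
        rw [SBP_apply]
        apply slot_isAlg
        intro j'
        by_cases h : j' = (s r).2.2
        · subst h; rw [Pi.single_eq_same]; exact isAlgebraic_one
        · rw [Pi.single_eq_of_ne h]; exact isAlgebraic_zero))
      (fun s => hB _ (fun r => FBP_isRatP n P _)) v

end family

end Pool.Agent.Helper7
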