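import Pool.Agent.Helper7.J4

/-!
Four slots of real type.
-/

namespace Pool.Agent.Helper7

open Module NumberField LieAlgebra

attribute [local instance 100] LieRing.ofAssociativeRing

open Pool.Agent.GPC (Emb IsOdd IsOddModule translate)
open Pool.Agent.Helper8 (ML2 ML4 Inv2 Inv4)

set_option linter.unusedSectionVars false

section family

variable {I : Type} [Fintype I] [DecidableEq I] (n : I → ℕ)
  {κ : I → Type} [∀ i, Fintype (κ i)] [∀ i, DecidableEq (κ i)] {ϖ : ℂ}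
  (P : ∀ i, PData (κ i) ϖ)
  {K : I → Type} [∀ i, Field (K i)] [∀ i, NumberField (K i)]
  (F : ∀ i, FS (P i) (K i))
  (α : (HW κ n) [⋀^Fin 4]→ₗ[ℂ] ℂ)

/-- the underlying multilinear form -/
def toM : MultilinearMap ℂ (fun _ : Fin (2 * 2) => HW κ n) ℂ :=
  (α : MultilinearMap ℂ (fun _ : Fin 4 => HW κ n) ℂ)

/-- the span of products of two invariant bilinear forms -/
def SpanG : Submodule ℂ (MultilinearMap ℂ (fun _ : Fin (2 * 2) => HW κ n) ℂ) :=
  Submodule.span ℂ {M | ∃ (π : Equiv.Perm (Fin (2 * 2)))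
    (β : Fin 2 → (HW κ n →ₗ[ℂ] HW κ n →ₗ[ℂ] ℂ)),
      (∀ a, β a ∈ invB n P (toM n α)) ∧ M = (prodBilin β).domDomCongr π}

/-- functions given by elements of the span -/
def Good (Φ : (Fin 4 → HW κ n) → ℂ) : Prop := ∃ M ∈ SpanG n P α, ∀ v : Fin 4 → HW κ n, M v = Φ v

variable {n P α}

lemma Good.congr {Φ Ψ : (Fin 4 → HW κ n) → ℂ} (h : Good n P α Φ) (e : ∀ v, Φ v = Ψ v) :
    Good n P α Ψ := by
  obtain ⟨M, hM, h1⟩ := h
  exact ⟨M, hM, fun v => (h1 v).trans (e v)⟩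

lemma Good.zero : Good n P α (fun _ => 0) := ⟨0, Submodule.zero_mem _, fun _ => rfl⟩

lemma Good.add {Φ Ψ : (Fin 4 → HW κ n) → ℂ} (h : Good n P α Φ) (h' : Good n P α Ψ) :
    Good n P α (fun v => Φ v + Ψ v) := by
  obtain ⟨M, hM, h1⟩ := h
  obtain ⟨N, hN, h2⟩ := h'
  exact ⟨M + N, Submodule.add_mem _ hM hN, fun v => by
    show M v + N v = Φ v + Ψ v
    rw [h1, h2]⟩

lemma Good.smul {Φ : (Fin 4 → HW κ n) → ℂ} (c : ℂ) (h : Good n P α Φ) :
    Good n P α (fun v => c * Φ v) := by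
  obtain ⟨M, hM, h1⟩ := h
  exact ⟨c • M, Submodule.smul_mem _ _ hM, fun v => by
    show c * M v = c * Φ v
    rw [h1]⟩

lemma Good.sum {ι : Type*} (s : Finset ι) {Φ : ι → (Fin 4 → HW κ n) → ℂ}
    (h : ∀ i ∈ s, Good n P α (Φ i)) : Good n P α (fun v => ∑ i ∈ s, Φ i v) := by
  classical
  induction s using Finset.induction_on with
  | empty => exact Good.zero.congr fun v => by simp
  | insert a s ha ih =>
    refine ((h a (Finset.mem_insert_self _ _)).add
      (ih fun i hi => h i (Finset.mem_insert_of_mem hi))).congr fun v => ?_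
    rw [Finset.sum_insert ha]

lemma Good.perm {Φ : (Fin 4 → HW κ n) → ℂ} (π : Equiv.Perm (Fin 4)) (h : Good n P α Φ) :
    Good n P α (fun v => Φ (v ∘ π)) := by
  obtain ⟨M, hM, h1⟩ := h
  refine ⟨MultilinearMap.domDomCongr (π : Equiv.Perm (Fin (2 * 2))) M, ?_, fun v => ?_⟩
  · clear h1
    unfold SpanG at hM ⊢
    induction hM using Submodule.span_induction with
    | mem M hM =>
      obtain ⟨π', β, hβ, rfl⟩ := hM
      refine Submodule.subset_span ⟨π'.trans π, β, hβ, ?_⟩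
      rfl
    | zero => exact Submodule.zero_mem _
    | add x y _ _ hx hy =>
      exact Submodule.add_mem _ hx hy
    | smul c x _ hx => exact Submodule.smul_mem _ c hx
  · show M (fun j => v (π j)) = Φ (v ∘ π)
    rw [h1]; rfl

lemma good_pair {β γ : HW κ n →ₗ[ℂ] HW κ n →ₗ[ℂ] ℂ} (hβ : β ∈ invB n P (toM n α))
    (hγ : γ ∈ invB n P (toM n α)) (π : Equiv.Perm (Fin 4)) :
    Good n P α (fun v => β (v (π 0)) (v (π 1)) * γ (v (π 2)) (v (π 3))) := by
  have h1 : Good n P α (fun v => β (v 0) (v 1) * γ (v 2) (v 3)) := by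
    refine ⟨prodBilin ![β, γ], Submodule.subset_span ⟨1, ![β, γ], ?_, ?_⟩, fun v => ?_⟩
    · intro a
      fin_cases a
      · exact hβ
      · exact hγ
    · rfl
    · show ∏ a, (![β, γ] a) (v (lo a)) (v (hi a)) = _
      rw [Fin.prod_univ_two]
      rfl
  exact h1.perm π

variable (n P α)

/-- the component of the form at four atoms -/
noncomputable def comp (t : Fin 4 → At n K) (v : Fin 4 → HW κ n) : ℂ :=
  α (fun j => EE n P F (t j) (v j))

lemma sum_comp (v : Fin 4 → HW κ n) : α v = ∑ t : Fin 4 → At n K, comp n P F α t v := by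
  classical
  have h1 : v = fun j => ∑ t, EE n P F t (v j) := by
    funext j
    rw [sum_EE]
  conv_lhs => rw [h1]
  exact (α : MultilinearMap ℂ (fun _ : Fin 4 => HW κ n) ℂ).map_sum
    (fun j t => EE n P F t (v j))

lemma comp_perm (t : Fin 4 → At n K) (π : Equiv.Perm (Fin 4))
    (h : Good n P α (comp n P F α (t ∘ π))) : Good n P α (comp n P F α t) := by
  refine ((h.perm π).smul ((Equiv.Perm.sign π : ℤ) : ℂ)).congr fun v => ?_
  have h1 := α.map_perm (fun j => EE n P F (t j) (v j)) π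
  have h2 : comp n P F α (t ∘ π) (v ∘ π) = Equiv.Perm.sign π • comp n P F α t v := h1
  rw [h2]
  rcases Int.units_eq_one_or (Equiv.Perm.sign π) with h3 | h3 <;> rw [h3] <;> simp

/-- all components are good, hence the form is in the span -/
lemma mem_of_comp (h : ∀ t : Fin 4 → At n K, Good n P α (comp n P F α t)) :
    toM n α ∈ SpanG n P α := by
  obtain ⟨M, hM, h1⟩ := (Good.sum Finset.univ (fun t _ => h t) : Good n P α _)
  have h2 : toM n α = M := by
    apply MultilinearMap.ext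
    intro v
    rw [h1 v]
    exact sum_comp n P F α v
  rw [h2]
  exact hM

/-- the form on four slots -/
noncomputable def G4 (t0 t1 t2 t3 : At n K) (x : Vs n P F (toM n α) (pl n t0))
    (y : Vs n P F (toM n α) (pl n t1)) (z : Vs n P F (toM n α) (pl n t2))
    (w : Vs n P F (toM n α) (pl n t3)) : ℂ :=
  q4 α (inS n P F _ t0 x) (inS n P F _ t1 y) (inS n P F _ t2 z) (inS n P F _ t3 w)

lemma G4_ml (t0 t1 t2 t3 : At n K) : ML4 (G4 n P F α t0 t1 t2 t3) := by
  refine ⟨fun y z w => ⟨fun a b => ?_, fun c a => ?_⟩, fun x z w => ⟨fun a b => ?_, fun c a => ?_⟩,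
    fun x y w => ⟨fun a b => ?_, fun c a => ?_⟩, fun x y z => ⟨fun a b => ?_, fun c a => ?_⟩⟩ <;>
  simp only [G4, map_add, map_smul, LinearMap.add_apply, LinearMap.smul_apply]

lemma comp_eq (t : Fin 4 → At n K) (v : Fin 4 → HW κ n) : comp n P F α t v =
    G4 n P F α (t 0) (t 1) (t 2) (t 3) (outS n P F _ (t 0) (v 0)) (outS n P F _ (t 1) (v 1))
      (outS n P F _ (t 2) (v 2)) (outS n P F _ (t 3) (v 3)) := by
  rw [G4, ← EE_eq, ← EE_eq, ← EE_eq, ← EE_eq, q4_apply, comp]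
  congr 1
  funext j
  fin_cases j <;> rfl

lemma q4_inv (X : GG κ) (hX : IsInv n P (toM n α) X) (a b c d : HW κ n) :
    q4 α (lift n X.1 a) b c d + q4 α a (lift n X.1 b) c d + q4 α a b (lift n X.1 c) d +
      q4 α a b c (lift n X.1 d) = 2 * X.2 * q4 α a b c d := by
  have h1 := congrArg (fun g => g ![a, b, c, d]) hX.form
  have h2 := act_four (lift n X.1) (α : MultilinearMap ℂ (fun _ : Fin 4 => HW κ n) ℂ) a b c d
  have h3 : actForm (lift n X.1) (toM n α) ![a, b, c, d] =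
      SympB.act4 (lift n X.1) (m4 (α : MultilinearMap ℂ (fun _ : Fin 4 => HW κ n) ℂ)) a b c d := h2
  have h4 : ((((2 : ℕ) : ℂ) * X.2) • toM n α) ![a, b, c, d] = 2 * X.2 * q4 α a b c d := by
    show (((2 : ℕ) : ℂ) * X.2) * α ![a, b, c, d] = _
    rw [q4_apply]; push_cast; ring
  simp only [h3, h4] at h1
  rw [SympB.act4, ← q4_eq_m4, ← q4_eq_m4, ← q4_eq_m4, ← q4_eq_m4] at h1
  exact h1

lemma G4_inv (t0 t1 t2 t3 : At n K) (h0 : (F t0.1).isLeft) (h1 : (F t1.1).isLeft)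
    (h2 : (F t2.1).isLeft) (h3 : (F t3.1).isLeft) :
    Inv4 (LL n P F (toM n α)) (G4 n P F α t0 t1 t2 t3) := by
  intro a x y z w
  obtain ⟨X, hX, rfl⟩ := exists_elL n P F (toM n α) a
  have e := q4_inv n P α X hX (inS n P F _ t0 x) (inS n P F _ t1 y) (inS n P F _ t2 z)
    (inS n P F _ t3 w)
  rw [lift_in n P F _ X hX t0 h0, lift_in n P F _ X hX t1 h1, lift_in n P F _ X hX t2 h2,
    lift_in n P F _ X hX t3 h3] at e
  simp only [map_add, map_smul, LinearMap.add_apply, LinearMap.smul_apply, smul_eq_mul] at e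
  show q4 α _ _ _ _ + q4 α _ _ _ _ + q4 α _ _ _ _ + q4 α _ _ _ _ = 0
  linear_combination e

variable {n P F α}

/-- products of two invariant pairings of slots -/
lemma good_prod1 {t0 t1 t2 t3 : At n K} (h0 : (F t0.1).isLeft) (h1 : (F t1.1).isLeft)
    (h2 : (F t2.1).isLeft) (h3 : (F t3.1).isLeft)
    {f : Vs n P F (toM n α) (pl n t0) → Vs n P F (toM n α) (pl n t1) → ℂ}
    {g : Vs n P F (toM n α) (pl n t2) → Vs n P F (toM n α) (pl n t3) → ℂ}
    (hf : ML2 f) (hg : ML2 g) (If : Inv2 (LL n P F (toM n α)) f)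
    (Ig : Inv2 (LL n P F (toM n α)) g) :
    Good n P α (fun v => f (outS n P F _ t0 (v 0)) (outS n P F _ t1 (v 1)) *
      g (outS n P F _ t2 (v 2)) (outS n P F _ t3 (v 3))) := by
  obtain ⟨β, hβ, hβ'⟩ := real_pair n P F _ t0 t1 h0 h1 hf If
  obtain ⟨γ, hγ, hγ'⟩ := real_pair n P F _ t2 t3 h2 h3 hg Ig
  exact (good_pair hβ hγ 1).congr fun v => by rw [hβ', hγ']; rfl

lemma good_prod2 {t0 t1 t2 t3 : At n K} (h0 : (F t0.1).isLeft) (h1 : (F t1.1).isLeft)
    (h2 : (F t2.1).isLeft) (h3 : (F t3.1).isLeft)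
    {f : Vs n P F (toM n α) (pl n t0) → Vs n P F (toM n α) (pl n t2) → ℂ}
    {g : Vs n P F (toM n α) (pl n t1) → Vs n P F (toM n α) (pl n t3) → ℂ}
    (hf : ML2 f) (hg : ML2 g) (If : Inv2 (LL n P F (toM n α)) f)
    (Ig : Inv2 (LL n P F (toM n α)) g) :
    Good n P α (fun v => f (outS n P F _ t0 (v 0)) (outS n P F _ t2 (v 2)) *
      g (outS n P F _ t1 (v 1)) (outS n P F _ t3 (v 3))) := by
  obtain ⟨β, hβ, hβ'⟩ := real_pair n P F _ t0 t2 h0 h2 hf If
  obtain ⟨γ, hγ, hγ'⟩ := real_pair n P F _ t1 t3 h1 h3 hg Ig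
  refine (good_pair hβ hγ (Equiv.swap 1 2)).congr fun v => ?_
  have e0 : Equiv.swap (1 : Fin 4) 2 0 = 0 := by decide
  have e1 : Equiv.swap (1 : Fin 4) 2 1 = 2 := by decide
  have e2 : Equiv.swap (1 : Fin 4) 2 2 = 1 := by decide
  have e3 : Equiv.swap (1 : Fin 4) 2 3 = 3 := by decide
  rw [e0, e1, e2, e3, hβ', hγ']

lemma good_prod3 {t0 t1 t2 t3 : At n K} (h0 : (F t0.1).isLeft) (h1 : (F t1.1).isLeft)
    (h2 : (F t2.1).isLeft) (h3 : (F t3.1).isLeft)
    {f : Vs n P F (toM n α) (pl n t0) → Vs n P F (toM n α) (pl n t3) → ℂ}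
    {g : Vs n P F (toM n α) (pl n t1) → Vs n P F (toM n α) (pl n t2) → ℂ}
    (hf : ML2 f) (hg : ML2 g) (If : Inv2 (LL n P F (toM n α)) f)
    (Ig : Inv2 (LL n P F (toM n α)) g) :
    Good n P α (fun v => f (outS n P F _ t0 (v 0)) (outS n P F _ t3 (v 3)) *
      g (outS n P F _ t1 (v 1)) (outS n P F _ t2 (v 2))) := by
  obtain ⟨β, hβ, hβ'⟩ := real_pair n P F _ t0 t3 h0 h3 hf If
  obtain ⟨γ, hγ, hγ'⟩ := real_pair n P F _ t1 t2 h1 h2 hg Ig
  refine (good_pair hβ hγ (Equiv.swap 1 2 * Equiv.swap 1 3)).congr fun v => ?_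
  have e0 : (Equiv.swap 1 2 * Equiv.swap 1 3 : Equiv.Perm (Fin 4)) 0 = 0 := by decide
  have e1 : (Equiv.swap 1 2 * Equiv.swap 1 3 : Equiv.Perm (Fin 4)) 1 = 3 := by decide
  have e2 : (Equiv.swap 1 2 * Equiv.swap 1 3 : Equiv.Perm (Fin 4)) 2 = 1 := by decide
  have e3 : (Equiv.swap 1 2 * Equiv.swap 1 3 : Equiv.Perm (Fin 4)) 3 = 2 := by decide
  rw [e0, e1, e2, e3, hβ', hγ']

end family

end Pool.Agent.Helper7
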