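import Pool.Agent.Helper7.J5
import Pool.Agent.Helper8.Lie.P1111
import Pool.Agent.Helper8.Lie.P22
import Pool.Agent.Helper8.Lie.PMixed2

/-!
Patterns of four slots of real type.
-/

namespace Pool.Agent.Helper7

open Module NumberField LieAlgebra

attribute [local instance 100] LieRing.ofAssociativeRing

open Pool.Agent.GPC (Emb IsOdd IsOddModule translate)
open Pool.Agent.Helper8 (Symp perfect_of_killing ML2 ML4 Inv2 Inv4 exists_linear Principal P4 sqw
  P31_two P31_four P31_six ext31 P22_plane P22_plane' P22_four wsq P211_plane P211_four P1111)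

set_option linter.unusedSectionVars false

section family

variable {I : Type} [Fintype I] [DecidableEq I] {n : I → ℕ}
  {κ : I → Type} [∀ i, Fintype (κ i)] [∀ i, DecidableEq (κ i)] {ϖ : ℂ}
  {P : ∀ i, PData (κ i) ϖ}
  {K : I → Type} [∀ i, Field (K i)] [∀ i, NumberField (K i)]
  {F : ∀ i, FS (P i) (K i)}
  {α : (HW κ n) [⋀^Fin 4]→ₗ[ℂ] ℂ}

lemma comp4 (a b c d : At n K) (v : Fin 4 → HW κ n) : comp n P F α ![a, b, c, d] v =
    G4 n P F α a b c d (outS n P F _ a (v 0)) (outS n P F _ b (v 1))
      (outS n P F _ c (v 2)) (outS n P F _ d (v 3)) := comp_eq n P F α ![a, b, c, d] v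

lemma G4_12 (a c d : At n K) (x y : Vs n P F (toM n α) (pl n a))
    (z : Vs n P F (toM n α) (pl n c)) (w : Vs n P F (toM n α) (pl n d)) :
    G4 n P F α a a c d y x z w = - G4 n P F α a a c d x y z w := q4_12 α _ _ _ _

lemma G4_23 (a b d : At n K) (x : Vs n P F (toM n α) (pl n a))
    (y z : Vs n P F (toM n α) (pl n b)) (w : Vs n P F (toM n α) (pl n d)) :
    G4 n P F α a b b d x z y w = - G4 n P F α a b b d x y z w := q4_23 α _ _ _ _

lemma G4_34 (a b c : At n K) (x : Vs n P F (toM n α) (pl n a))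
    (y : Vs n P F (toM n α) (pl n b)) (z w : Vs n P F (toM n α) (pl n c)) :
    G4 n P F α a b c c x y w z = - G4 n P F α a b c c x y z w := q4_34 α _ _ _ _

/-- the dimension of the space of an atom -/
noncomputable def dimA (α : (HW κ n) [⋀^Fin 4]→ₗ[ℂ] ℂ) (F : ∀ i, FS (P i) (K i)) (a : At n K) : ℕ :=
  finrank ℂ (Vs n P F (toM n α) (pl n a))

/-- good atoms: real type with irreducible space -/
structure GA (α : (HW κ n) [⋀^Fin 4]→ₗ[ℂ] ℂ) (F : ∀ i, FS (P i) (K i)) (a : At n K) : Prop where
  real : (F a.1).isLeft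
  irr : LieModule.IsIrreducible ℂ (LL n P F (toM n α)) (Vs n P F (toM n α) (pl n a))

variable (p : Principal (LL n P F (toM n α)))
include p

lemma pat_4 (a : At n K) (ha : GA α F a) (hd : dimA α F a = 2 ∨ dimA α F a = 4 ∨
    dimA α F a = 6 ∨ dimA α F a = 8) : Good n P α (comp n P F α ![a, a, a, a]) := by
  have := ha.irr
  have hω := omV_symp n P F (toM n α) (pl n a) ha.real
  obtain ⟨c, hc⟩ := P4 p hω hd (G4_ml n P F α a a a a)
    (G4_inv n P F α a a a a ha.real ha.real ha.real ha.real)
    (fun x y z w => G4_12 a a a x y z w) (fun x y z w => G4_23 a a a x y z w)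
    (fun x y z w => G4_34 a a a x y z w)
  have mω := ML2.of (omV n P F (toM n α) (pl n a))
  have h1 := good_prod1 ha.real ha.real ha.real ha.real mω mω hω.inv2 hω.inv2
  have h2 := good_prod2 ha.real ha.real ha.real ha.real mω mω hω.inv2 hω.inv2
  have h3 := good_prod3 ha.real ha.real ha.real ha.real mω mω hω.inv2 hω.inv2
  refine (((h1.add (h2.smul (-1))).add h3).smul c).congr fun v => ?_
  rw [comp4, hc, sqw]
  ring

lemma pat_31 (a b : At n K) (ha : GA α F a) (hb : GA α F b)
    (hd : dimA α F a = 2 ∨ dimA α F a = 4 ∨ (dimA α F a = 6 ∧ dimA α F b = 2)) :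
    Good n P α (comp n P F α ![a, a, a, b]) := by
  have := ha.irr
  have := hb.irr
  have hω := omV_symp n P F (toM n α) (pl n a) ha.real
  have hω' := omV_symp n P F (toM n α) (pl n b) hb.real
  rcases hd with hd | hd | ⟨hd, hd'⟩
  · refine Good.zero.congr fun v => ?_
    rw [comp4, P31_two p hω hd (G4_ml n P F α a a a b)
      (fun x y z w => G4_12 a a b x y z w) (fun x y z w => G4_23 a a b x y z w)]
  · obtain ⟨β, mβ, iβ, h⟩ := P31_four p hω hd (G4_ml n P F α a a a b)
      (G4_inv n P F α a a a b ha.real ha.real ha.real hb.real)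
      (fun x y z w => G4_12 a a b x y z w) (fun x y z w => G4_23 a a b x y z w)
    have mω := ML2.of (omV n P F (toM n α) (pl n a))
    have h1 := good_prod1 ha.real ha.real ha.real hb.real mω mβ hω.inv2 iβ
    have h2 := good_prod2 ha.real ha.real ha.real hb.real mω mβ hω.inv2 iβ
    have h3 := good_prod3 ha.real ha.real ha.real hb.real mβ mω iβ hω.inv2
    refine ((h1.add (h2.smul (-1))).add h3).congr fun v => ?_
    rw [comp4, h, ext31]
    ring
  · refine Good.zero.congr fun v => ?_
    rw [comp4, P31_six p hω hω' hd hd' (G4_ml n P F α a a a b)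
      (G4_inv n P F α a a a b ha.real ha.real ha.real hb.real)
      (fun x y z w => G4_12 a a b x y z w) (fun x y z w => G4_23 a a b x y z w)]

lemma pat_22 (a b : At n K) (ha : GA α F a) (hb : GA α F b)
    (hd : dimA α F a = 2 ∨ dimA α F b = 2 ∨ (dimA α F a = 4 ∧ dimA α F b = 4)) :
    Good n P α (comp n P F α ![a, a, b, b]) := by
  have := ha.irr
  have := hb.irr
  have hω := omV_symp n P F (toM n α) (pl n a) ha.real
  have hω' := omV_symp n P F (toM n α) (pl n b) hb.real
  have mω := ML2.of (omV n P F (toM n α) (pl n a))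
  have mω' := ML2.of (omV n P F (toM n α) (pl n b))
  have h1 := good_prod1 ha.real ha.real hb.real hb.real mω mω' hω.inv2 hω'.inv2
  rcases hd with hd | hd | ⟨hd, hd'⟩
  · obtain ⟨c, hc⟩ := P22_plane p hω hω' hd (G4_ml n P F α a a b b)
      (G4_inv n P F α a a b b ha.real ha.real hb.real hb.real)
      (fun x y z w => G4_12 a b b x y z w)
    refine (h1.smul c).congr fun v => ?_
    rw [comp4]
    exact (hc _ _ _ _).symm
  · obtain ⟨c, hc⟩ := P22_plane' p hω hω' hd (G4_ml n P F α a a b b)
      (G4_inv n P F α a a b b ha.real ha.real hb.real hb.real)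
      (fun x y z w => G4_34 a a b x y z w)
    refine (h1.smul c).congr fun v => ?_
    rw [comp4]
    exact (hc _ _ _ _).symm
  · obtain ⟨c, c', β, mβ, iβ, h⟩ := P22_four p hω hω' hd hd' (G4_ml n P F α a a b b)
      (G4_inv n P F α a a b b ha.real ha.real hb.real hb.real)
      (fun x y z w => G4_12 a b b x y z w) (fun x y z w => G4_34 a a b x y z w)
    have h2 := good_prod2 ha.real ha.real hb.real hb.real mβ mβ iβ iβ
    have h3 := good_prod3 ha.real ha.real hb.real hb.real mβ mβ iβ iβ
    refine ((h1.smul c).add ((h2.smul c').add (h3.smul (-c')))).congr fun v => ?_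
    rw [comp4, h, wsq]
    ring

lemma pat_211 (a b c : At n K) (ha : GA α F a) (hb : GA α F b) (hc : GA α F c)
    (hd : dimA α F a = 2 ∨ (dimA α F a = 4 ∧ dimA α F b = 2 ∧ dimA α F c = 2)) :
    Good n P α (comp n P F α ![a, a, b, c]) := by
  have := ha.irr
  have := hb.irr
  have := hc.irr
  have hω := omV_symp n P F (toM n α) (pl n a) ha.real
  have hωb := omV_symp n P F (toM n α) (pl n b) hb.real
  have hωc := omV_symp n P F (toM n α) (pl n c) hc.real
  have mω := ML2.of (omV n P F (toM n α) (pl n a))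
  rcases hd with hd | ⟨hd, hd1, hd2⟩
  · obtain ⟨γ, mγ, iγ, h⟩ := P211_plane p hω hd (G4_ml n P F α a a b c)
      (G4_inv n P F α a a b c ha.real ha.real hb.real hc.real)
      (fun x y z w => G4_12 a b c x y z w)
    refine (good_prod1 ha.real ha.real hb.real hc.real mω mγ hω.inv2 iγ).congr fun v => ?_
    rw [comp4, h]
  · obtain ⟨γ, mγ, iγ, h⟩ := P211_four p hω hωb hωc hd hd1 hd2 (G4_ml n P F α a a b c)
      (G4_inv n P F α a a b c ha.real ha.real hb.real hc.real)
      (fun x y z w => G4_12 a b c x y z w)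
    refine (good_prod1 ha.real ha.real hb.real hc.real mω mγ hω.inv2 iγ).congr fun v => ?_
    rw [comp4, h]

lemma pat_1111 (a b c d : At n K) (ha : GA α F a) (hb : GA α F b) (hc : GA α F c)
    (hd : GA α F d) (da : dimA α F a = 2) (db : dimA α F b = 2) (dc : dimA α F c = 2)
    (dd : dimA α F d = 2) : Good n P α (comp n P F α ![a, b, c, d]) := by
  have := ha.irr
  have := hb.irr
  have := hc.irr
  have := hd.irr
  obtain ⟨r, s, t, f12, f34, f13, f24, f14, f23, m12, m34, m13, m24, m14, m23, i1, i2, i3, h⟩ :=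
    P1111 p (omV_symp n P F (toM n α) (pl n a) ha.real) (omV_symp n P F (toM n α) (pl n b) hb.real)
      (omV_symp n P F (toM n α) (pl n c) hc.real) (omV_symp n P F (toM n α) (pl n d) hd.real)
      da db dc dd (G4_ml n P F α a b c d) (G4_inv n P F α a b c d ha.real hb.real hc.real hd.real)
  have h1 : Good n P α (fun v => r * (f12 (outS n P F _ a (v 0)) (outS n P F _ b (v 1)) *
      f34 (outS n P F _ c (v 2)) (outS n P F _ d (v 3)))) := by
    by_cases hr : r = 0
    · exact Good.zero.congr fun v => by rw [hr, zero_mul]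
    · exact (good_prod1 ha.real hb.real hc.real hd.real m12 m34 (i1 hr).1 (i1 hr).2).smul r
  have h2 : Good n P α (fun v => s * (f13 (outS n P F _ a (v 0)) (outS n P F _ c (v 2)) *
      f24 (outS n P F _ b (v 1)) (outS n P F _ d (v 3)))) := by
    by_cases hr : s = 0
    · exact Good.zero.congr fun v => by rw [hr, zero_mul]
    · exact (good_prod2 ha.real hb.real hc.real hd.real m13 m24 (i2 hr).1 (i2 hr).2).smul s
  have h3 : Good n P α (fun v => t * (f14 (outS n P F _ a (v 0)) (outS n P F _ d (v 3)) *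
      f23 (outS n P F _ b (v 1)) (outS n P F _ c (v 2)))) := by
    by_cases hr : t = 0
    · exact Good.zero.congr fun v => by rw [hr, zero_mul]
    · exact (good_prod3 ha.real hb.real hc.real hd.real m14 m23 (i3 hr).1 (i3 hr).2).smul t
  refine ((h1.add h2).add h3).congr fun v => ?_
  rw [comp4, h]

end family

end Pool.Agent.Helper7
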