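import Pool.Agent.Helper7.J6
import Pool.Agent.Helper84.Pieces

/-!
Slots of CM type.
-/

namespace Pool.Agent.Helper7

open Module NumberField LieAlgebra

attribute [local instance 100] LieRing.ofAssociativeRing

open Pool.Agent.GPC (Emb IsOdd IsOddModule translate)
open Pool.Agent.Helper8 (Symp perfect_of_killing ML2 ML4 Inv2 Inv4 exists_linear Principal)
open Pool.Agent.Helper84 (xi odd1 odd3)

set_option linter.unusedSectionVars false

section family

variable {I : Type} [Fintype I] [DecidableEq I] {n : I → ℕ}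
  {κ : I → Type} [∀ i, Fintype (κ i)] [∀ i, DecidableEq (κ i)] {ϖ : ℂ}
  {P : ∀ i, PData (κ i) ϖ}
  {K : I → Type} [∀ i, Field (K i)] [∀ i, NumberField (K i)]
  {F : ∀ i, FS (P i) (K i)}
  {α : (HW κ n) [⋀^Fin 4]→ₗ[ℂ] ℂ}

lemma comp4' (a b c d : At n K) (v : Fin 4 → HW κ n) : comp n P F α ![a, b, c, d] v =
    q4 α (EE n P F a (v 0)) (EE n P F b (v 1)) (EE n P F c (v 2)) (EE n P F d (v 3)) := by
  rw [q4_apply, comp]
  congr 1
  funext j
  fin_cases j <;> rfl

/-- two slots of real type and two of CM type -/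
lemma mixed_2 (hk : IsKilling ℂ (LL n P F (toM n α))) (a b c d : At n K) (ha : (F a.1).isLeft)
    (hb : (F b.1).isLeft) (hc : ¬ (F c.1).isLeft) (hd : ¬ (F d.1).isLeft) :
    Good n P α (comp n P F α ![a, b, c, d]) := by
  set f : Vs n P F (toM n α) (pl n a) → Vs n P F (toM n α) (pl n b) → ℂ := fun x y =>
    q4 α (inS n P F _ a x) (inS n P F _ b y) (evS n P F c) (evS n P F d) with hf
  have mf : ML2 f := ⟨fun y => ⟨fun u v => by simp only [hf, map_add, LinearMap.add_apply],
    fun t u => by simp only [hf, map_smul, LinearMap.smul_apply]⟩,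
    fun x => ⟨fun u v => by simp only [hf, map_add, LinearMap.add_apply],
    fun t u => by simp only [hf, map_smul, LinearMap.smul_apply]⟩⟩
  have key : ∀ X hX x y, f ⁅elL n P F (toM n α) X hX, x⁆ y + f x ⁅elL n P F (toM n α) X hX, y⁆ =
      (X.2 - chiC P F (pl n c) X - chiC P F (pl n d) X) * f x y := by
    intro X hX x y
    have e := q4_inv n P α X hX (inS n P F _ a x) (inS n P F _ b y) (evS n P F c) (evS n P F d)
    rw [lift_in n P F _ X hX a ha, lift_in n P F _ X hX b hb, lift_evS n P F _ X hX c hc,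
      lift_evS n P F _ X hX d hd] at e
    simp only [map_add, map_smul, LinearMap.add_apply, LinearMap.smul_apply, smul_eq_mul] at e
    simp only [hf]
    linear_combination e
  have hI : Inv2 (LL n P F (toM n α)) f := by
    intro l x y
    obtain ⟨X, hX, rfl, h2, h3⟩ := perfect_lift n P F _ hk l
    rw [key, h2, h3 _ hc, h3 _ hd]
    ring
  have hcomp : ∀ v, comp n P F α ![a, b, c, d] v = f (outS n P F _ a (v 0))
      (outS n P F _ b (v 1)) * (cvS n P F c (v 2) * cvS n P F d (v 3)) := by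
    intro v
    rw [comp4', EE_eq n P F (toM n α) a, EE_eq n P F (toM n α) b, EE_cm n P F c hc,
      EE_cm n P F d hd]
    simp only [map_smul, LinearMap.smul_apply, smul_eq_mul, hf]
    ring
  by_cases h0 : ∀ x y, f x y = 0
  · refine Good.zero.congr fun v => ?_
    rw [hcomp, h0, zero_mul]
  · push Not at h0
    obtain ⟨x, y, hxy⟩ := h0
    obtain ⟨β, hβ, hβ'⟩ := real_pair n P F _ a b ha hb mf hI
    obtain ⟨γ, hγ, hγ'⟩ := cm_pair n P F (toM n α) c d hc hd (fun X hX => by
      have h1 := key X hX x y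
      have h2 := hI (elL n P F (toM n α) X hX) x y
      rw [h2] at h1
      have h3 := (mul_eq_zero.mp h1.symm).resolve_right hxy
      linear_combination -h3)
    refine (good_pair hβ hγ 1).congr fun v => ?_
    rw [hcomp]
    show β (v 0) (v 1) * γ (v 2) (v 3) = _
    rw [hβ', hγ']

/-- three slots of real type and one of CM type -/
lemma mixed_3 (hk : IsKilling ℂ (LL n P F (toM n α))) (p : Principal (LL n P F (toM n α)))
    (a b c d : At n K) (ha : GA α F a) (hb : GA α F b) (hc : GA α F c) (hd : ¬ (F d.1).isLeft) :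
    Good n P α (comp n P F α ![a, b, c, d]) := by
  have := ha.irr
  have := hb.irr
  have := hc.irr
  set f : Vs n P F (toM n α) (pl n a) → Vs n P F (toM n α) (pl n b) →
    Vs n P F (toM n α) (pl n c) → ℂ := fun x y z =>
    q4 α (inS n P F _ a x) (inS n P F _ b y) (inS n P F _ c z) (evS n P F d) with hf
  have hI : ∀ (l : LL n P F (toM n α)) x y z, f ⁅l, x⁆ y z + f x ⁅l, y⁆ z + f x y ⁅l, z⁆ = 0 := by
    intro l x y z
    obtain ⟨X, hX, rfl, h2, h3⟩ := perfect_lift n P F _ hk l
    have e := q4_inv n P α X hX (inS n P F _ a x) (inS n P F _ b y) (inS n P F _ c z)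
      (evS n P F d)
    rw [lift_in n P F _ X hX a ha.real, lift_in n P F _ X hX b hb.real,
      lift_in n P F _ X hX c hc.real, lift_evS n P F _ X hX d hd, h2, h3 _ hd] at e
    simp only [map_add, map_smul, LinearMap.add_apply, LinearMap.smul_apply, smul_eq_mul] at e
    simp only [hf]
    linear_combination e
  have h0 : ∀ x y z, f x y z = 0 := fun x y z => odd3 p (omV_symp n P F _ (pl n a) ha.real)
    (omV_symp n P F _ (pl n b) hb.real) (omV_symp n P F _ (pl n c) hc.real)
    (fun y z => ⟨fun u v => by simp only [hf, map_add, LinearMap.add_apply],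
      fun t u => by simp only [hf, map_smul, LinearMap.smul_apply]⟩)
    (fun x z => ⟨fun u v => by simp only [hf, map_add, LinearMap.add_apply],
      fun t u => by simp only [hf, map_smul, LinearMap.smul_apply]⟩)
    (fun x y => ⟨fun u v => by simp only [hf, map_add, LinearMap.add_apply],
      fun t u => by simp only [hf, map_smul, LinearMap.smul_apply]⟩) hI x y z
  refine Good.zero.congr fun v => ?_
  rw [comp4', EE_eq n P F (toM n α) a, EE_eq n P F (toM n α) b, EE_eq n P F (toM n α) c,
    EE_cm n P F d hd, map_smul, smul_eq_mul]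
  have h1 := h0 (outS n P F _ a (v 0)) (outS n P F _ b (v 1)) (outS n P F _ c (v 2))
  simp only [hf] at h1
  rw [h1, mul_zero]

/-- one slot of real type and three of CM type -/
lemma mixed_1 (hk : IsKilling ℂ (LL n P F (toM n α))) (p : Principal (LL n P F (toM n α)))
    (a b c d : At n K) (ha : GA α F a) (hb : ¬ (F b.1).isLeft) (hc : ¬ (F c.1).isLeft)
    (hd : ¬ (F d.1).isLeft) :
    Good n P α (comp n P F α ![a, b, c, d]) := by
  have := ha.irr
  set f : Vs n P F (toM n α) (pl n a) → ℂ := fun x =>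
    q4 α (inS n P F _ a x) (evS n P F b) (evS n P F c) (evS n P F d) with hf
  have hI : ∀ (l : LL n P F (toM n α)) x, f ⁅l, x⁆ = 0 := by
    intro l x
    obtain ⟨X, hX, rfl, h2, h3⟩ := perfect_lift n P F _ hk l
    have e := q4_inv n P α X hX (inS n P F _ a x) (evS n P F b) (evS n P F c) (evS n P F d)
    rw [lift_in n P F _ X hX a ha.real, lift_evS n P F _ X hX b hb, lift_evS n P F _ X hX c hc,
      lift_evS n P F _ X hX d hd, h2, h3 _ hb, h3 _ hc, h3 _ hd] at e
    simp only [map_add, map_smul, LinearMap.add_apply, LinearMap.smul_apply, smul_eq_mul] at e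
    simp only [hf]
    linear_combination e
  have h0 : ∀ x, f x = 0 := fun x => odd1 p (omV_symp n P F _ (pl n a) ha.real)
    ⟨fun u v => by simp only [hf, map_add, LinearMap.add_apply],
      fun t u => by simp only [hf, map_smul, LinearMap.smul_apply]⟩ hI x
  refine Good.zero.congr fun v => ?_
  rw [comp4', EE_eq n P F (toM n α) a, EE_cm n P F b hb, EE_cm n P F c hc, EE_cm n P F d hd]
  simp only [map_smul, LinearMap.smul_apply, smul_eq_mul]
  have h1 := h0 (outS n P F _ a (v 0))
  simp only [hf] at h1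
  rw [h1]
  ring

/-- matching of weights -/
def Match (α : (HW κ n) [⋀^Fin 4]→ₗ[ℂ] ℂ) (F : ∀ i, FS (P i) (K i)) : Prop :=
  ∀ t : Fin 4 → At n K, (∀ r, ¬ (F (t r).1).isLeft) → Function.Injective t →
    (fun s => ∑ r, xi (pl n (t r)) s) ∈ relS n P F (toM n α) →
    ∃ π : Equiv.Perm (Fin 4),
      (fun s => xi (pl n (t (π 0))) s + xi (pl n (t (π 1))) s) ∈ relS n P F (toM n α) ∧
      (fun s => xi (pl n (t (π 2))) s + xi (pl n (t (π 3))) s) ∈ relS n P F (toM n α)

omit [DecidableEq I] in
lemma sum_xi (s : Emb K) (g : Emb K → ℂ) : ∑ t, ((xi s t : ℚ) : ℂ) * g t = g s - g (conjT s) := by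
  classical
  have h1 : ∀ t, ((xi s t : ℚ) : ℂ) * g t = (if s = t then g t else 0) -
      (if conjT s = t then g t else 0) := by
    intro t
    have h2 : xi s t = (if s = t then 1 else 0) - (if conjT s = t then 1 else 0) := rfl
    rw [h2]
    split_ifs <;> simp
  rw [Finset.sum_congr rfl fun t _ => h1 t, Finset.sum_sub_distrib, Finset.sum_ite_eq,
    Finset.sum_ite_eq]
  simp

lemma IsOdd_add {u v : Emb K → ℚ} (hu : IsOdd K u) (hv : IsOdd K v) : IsOdd K (fun t => u t + v t) :=
  fun i σ => by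
    show u _ + v _ = - (u _ + v _)
    rw [hu i σ, hv i σ]; ring

variable (hϖ : ϖ ≠ 0)
  (hB : ∀ v : Fin (2 * 2) → HW κ n, (∀ r, IsRatP n P (v r)) →
    ∃ q : ℚ, toM n α v = ϖ ^ 2 * q)

include hϖ hB in
/-- a relation between two weights -/
lemma pair_of_rel (s s' : Emb K) (h : (fun t => xi s t + xi s' t) ∈ relS n P F (toM n α)) (X : GG κ)
    (hX : IsInv n P (toM n α) X) : chiC P F s X + chiC P F s' X = X.2 := by
  have hr : ∀ X, IsInv n P (toM n α) X → IsRatl P X → chiC P F s X + chiC P F s' X = X.2 := by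
    intro X hX hXr
    have h1 := h.2 X hX hXr
    have h2 : ∑ t, (((xi s t + xi s' t : ℚ)) : ℂ) * chiC P F t X =
        ∑ t, ((xi s t : ℚ) : ℂ) * chiC P F t X + ∑ t, ((xi s' t : ℚ) : ℂ) * chiC P F t X := by
      rw [← Finset.sum_add_distrib]
      refine Finset.sum_congr rfl fun t _ => ?_
      push_cast; ring
    rw [h2, sum_xi, sum_xi] at h1
    have e1 := chiC_conj n P F (toM n α) s X hX
    have e2 := chiC_conj n P F (toM n α) s' X hX
    linear_combination h1 / 2 + e1 / 2 + e2 / 2
  have h3 := mem_span_of_isInv n P (toM n α) hϖ hB X hX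
  refine Submodule.span_induction (p := fun X _ => chiC P F s X + chiC P F s' X = X.2)
    ?_ ?_ ?_ ?_ h3
  · rintro Y ⟨hY, hYr⟩
    exact hr Y hY hYr
  · exact hr 0 (IsInv.zero n P _) ⟨fun i v hv => by
      show (0 : κ i → ℂ) ∈ (P i).Q
      exact Submodule.zero_mem _, 0, by simp⟩
  · intro Y Z _ _ hY hZ
    have e1 := (F s.1).chi_add s.2 (Y.1 s.1) (Z.1 s.1) Y.2 Z.2
    have e2 := (F s'.1).chi_add s'.2 (Y.1 s'.1) (Z.1 s'.1) Y.2 Z.2
    show (F s.1).chi s.2 (Y.1 s.1 + Z.1 s.1) (Y.2 + Z.2) +
      (F s'.1).chi s'.2 (Y.1 s'.1 + Z.1 s'.1) (Y.2 + Z.2) = Y.2 + Z.2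
    rw [e1, e2]
    unfold chiC at hY hZ
    linear_combination hY + hZ
  · intro c Y _ hY
    have e1 := (F s.1).chi_smul s.2 (Y.1 s.1) c Y.2
    have e2 := (F s'.1).chi_smul s'.2 (Y.1 s'.1) c Y.2
    show (F s.1).chi s.2 (c • Y.1 s.1) (c * Y.2) +
      (F s'.1).chi s'.2 (c • Y.1 s'.1) (c * Y.2) = c * Y.2
    rw [e1, e2]
    unfold chiC at hY
    linear_combination c * hY

include hϖ hB in
/-- four slots of CM type -/
lemma cm_4 (hm : Match α F) (t : Fin 4 → At n K) (ht : ∀ r, ¬ (F (t r).1).isLeft) :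
    Good n P α (comp n P F α t) := by
  have hcomp : ∀ v, comp n P F α t v = (∏ r, cvS n P F (t r) (v r)) *
      α (fun r => evS n P F (t r)) := by
    intro v
    rw [comp]
    have h1 : (fun j => EE n P F (t j) (v j)) =
        fun j => cvS n P F (t j) (v j) • evS n P F (t j) := by
      funext j
      exact EE_cm n P F (t j) (ht j) (v j)
    rw [h1]
    exact (α : MultilinearMap ℂ (fun _ : Fin 4 => HW κ n) ℂ).map_smul_univ _ _
  by_cases h0 : α (fun r => evS n P F (t r)) = 0
  · refine Good.zero.congr fun v => ?_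
    rw [hcomp, h0, mul_zero]
  have hinj : Function.Injective t := by
    intro r r' h
    by_contra hne
    exact h0 (α.map_eq_zero_of_eq _ (by rw [h]) hne)
  have hsum : ∀ X, IsInv n P (toM n α) X → ∑ r, chiC P F (pl n (t r)) X = 2 * X.2 := by
    intro X hX
    have h1 := congrArg (fun g => g (fun r => evS n P F (t r))) hX.form
    simp only [actForm_apply, _root_.smul_apply, smul_eq_mul] at h1
    have h2 : ∀ r, toM n α (Function.update (fun r => evS n P F (t r)) r
        (lift n X.1 (evS n P F (t r)))) = chiC P F (pl n (t r)) X *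
        toM n α (fun r => evS n P F (t r)) := by
      intro r
      rw [lift_evS n P F _ X hX (t r) (ht r), MultilinearMap.map_update_smul,
        Function.update_eq_self, smul_eq_mul]
    rw [Finset.sum_congr rfl fun r _ => h2 r, ← Finset.sum_mul] at h1
    have h3 : toM n α (fun r => evS n P F (t r)) ≠ 0 := h0
    have h4 := mul_right_cancel₀ h3 h1
    rw [h4]
    push_cast; ring
  obtain ⟨π, h1, h2⟩ := hm t ht hinj (by
    rw [mem_relS]
    refine ⟨fun i σ => ?_, fun X hX _ => ?_⟩
    · rw [← Finset.sum_neg_distrib]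
      exact Finset.sum_congr rfl fun r _ => Pool.Agent.Helper84.xi_odd (pl n (t r)) i σ
    · have h3 : ∑ s, (((∑ r, xi (pl n (t r)) s : ℚ)) : ℂ) * chiC P F s X =
          ∑ r, ∑ s, ((xi (pl n (t r)) s : ℚ) : ℂ) * chiC P F s X := by
        rw [Finset.sum_comm]
        refine Finset.sum_congr rfl fun s _ => ?_
        push_cast
        rw [Finset.sum_mul]
      rw [h3]
      have h4 : ∀ r, ∑ s, ((xi (pl n (t r)) s : ℚ) : ℂ) * chiC P F s X =
          2 * chiC P F (pl n (t r)) X - X.2 := by
        intro r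
        rw [sum_xi]
        have e1 := chiC_conj n P F (toM n α) (pl n (t r)) X hX
        linear_combination -e1
      rw [Finset.sum_congr rfl fun r _ => h4 r, Finset.sum_sub_distrib, ← Finset.mul_sum,
        hsum X hX, Finset.sum_const, Finset.card_univ, Fintype.card_fin]
      simp
      ring)
  obtain ⟨β, hβ, hβ'⟩ := cm_pair n P F (toM n α) (t (π 0)) (t (π 1)) (ht _) (ht _)
    (fun X hX => pair_of_rel hϖ hB _ _ h1 X hX)
  obtain ⟨γ, hγ, hγ'⟩ := cm_pair n P F (toM n α) (t (π 2)) (t (π 3)) (ht _) (ht _)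
    (fun X hX => pair_of_rel hϖ hB _ _ h2 X hX)
  refine ((good_pair hβ hγ π).smul (α (fun r => evS n P F (t r)))).congr fun v => ?_
  rw [hcomp, hβ', hγ', ← Equiv.prod_comp π (fun r => cvS n P F (t r) (v r)), Fin.prod_univ_four]
  ring

end family

end Pool.Agent.Helper7
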