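import Pool.Agent.Helper7.Cubic
import Pool.Agent.Helper8.H.Slot

/-!
Hard Lefschetz in dimensions six and eight, as identities.
-/

namespace Pool.Agent.Helper7

open Module
open Pool.Agent.Helper8 (PS)

section sl2

variable {E : Type} [AddCommGroup E] [Module ℂ E] (Λ L N : Module.End ℂ E) (c : ℂ)
  (r1 : Λ * L = L * Λ + c • 1 - (4 : ℂ) • N)
  (r3 : N * Λ = Λ * N - (2 : ℂ) • Λ)
  (r2 : N * L = L * N + (2 : ℂ) • L)

include r1 in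
lemma lef_r1 (d : ℂ) (x : E) (hx : N x = d • x) :
    Λ (L x) = L (Λ x) + (c - 4 * d) • x := by
  have h := congrArg (fun g => g x) r1
  simp only [Module.End.mul_apply, LinearMap.add_apply, LinearMap.sub_apply, LinearMap.smul_apply,
    Module.End.one_apply, hx] at h
  rw [h, smul_smul, sub_smul]
  abel

include r1 r2 r3 in
lemma lef_63 (hc : c = 12) (ξ : E) (hξ : N ξ = (6 : ℂ) • ξ) (h0 : L ξ = 0) (h1 : L (L (Λ ξ)) = 0)
    (h2 : L (L (L (Λ (Λ ξ)))) = 0) : (2304 : ℂ) • ξ = L (L (L (Λ (Λ (Λ ξ))))) := by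
  subst hc
  obtain ⟨η, hη⟩ : ∃ η, η = Λ ξ := ⟨_, rfl⟩
  obtain ⟨θ, hθ⟩ : ∃ θ, θ = Λ η := ⟨_, rfl⟩
  rw [← hη] at h1 h2
  rw [← hθ] at h2
  have nη : N η = (4 : ℂ) • η := by rw [hη, sl2_r3 Λ N r3 6 ξ hξ]; norm_num
  have nθ : N θ = (2 : ℂ) • θ := by rw [hθ, sl2_r3 Λ N r3 4 η nη]; norm_num
  have nLη : N (L η) = (6 : ℂ) • L η := by rw [sl2_r2 L N r2 4 η nη]; norm_num
  have nLθ : N (L θ) = (4 : ℂ) • L θ := by rw [sl2_r2 L N r2 2 θ nθ]; norm_num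
  have nLLθ : N (L (L θ)) = (6 : ℂ) • L (L θ) := by rw [sl2_r2 L N r2 4 _ nLθ]; norm_num
  have e1 := lef_r1 Λ L N 12 r1 6 ξ hξ
  rw [h0, map_zero, ← hη] at e1
  have e2 := lef_r1 Λ L N 12 r1 4 η nη
  rw [← hθ] at e2
  have e3 := lef_r1 Λ L N 12 r1 6 (L η) nLη
  rw [h1, map_zero, e2, map_add, map_smul] at e3
  have e4 := lef_r1 Λ L N 12 r1 2 θ nθ
  have e5 := lef_r1 Λ L N 12 r1 4 (L θ) nLθ
  rw [e4, map_add, map_smul] at e5
  have e6 := lef_r1 Λ L N 12 r1 6 (L (L θ)) nLLθ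
  rw [h2, map_zero, e5, map_add, map_add, map_smul, map_smul] at e6
  rw [← hη, ← hθ]
  have f1 : (12 : ℂ) • ξ = L η := by linear_combination (norm := module) e1
  have f2 : (16 : ℂ) • L η = L (L θ) := by linear_combination (norm := module) e3
  have f3 : (12 : ℂ) • L (L θ) = L (L (L (Λ θ))) := by linear_combination (norm := module) e6
  linear_combination (norm := module) (192 : ℂ) • f1 + (12 : ℂ) • f2 + f3

include r1 r2 r3 in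
lemma lef_84 (hc : c = 16) (ξ : E) (hξ : N ξ = (8 : ℂ) • ξ) (h0 : L ξ = 0) (h1 : L (L (Λ ξ)) = 0)
    (h2 : L (L (L (Λ (Λ ξ)))) = 0) (h3 : L (L (L (L (Λ (Λ (Λ ξ)))))) = 0) :
    (147456 : ℂ) • ξ = L (L (L (L (Λ (Λ (Λ (Λ ξ))))))) := by
  subst hc
  obtain ⟨η, hη⟩ : ∃ η, η = Λ ξ := ⟨_, rfl⟩
  obtain ⟨θ, hθ⟩ : ∃ θ, θ = Λ η := ⟨_, rfl⟩
  obtain ⟨ζ, hζ⟩ : ∃ ζ, ζ = Λ θ := ⟨_, rfl⟩
  rw [← hη] at h1 h2 h3
  rw [← hθ] at h2 h3
  rw [← hζ] at h3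
  have nη : N η = (6 : ℂ) • η := by rw [hη, sl2_r3 Λ N r3 8 ξ hξ]; norm_num
  have nθ : N θ = (4 : ℂ) • θ := by rw [hθ, sl2_r3 Λ N r3 6 η nη]; norm_num
  have nζ : N ζ = (2 : ℂ) • ζ := by rw [hζ, sl2_r3 Λ N r3 4 θ nθ]; norm_num
  have nLη : N (L η) = (8 : ℂ) • L η := by rw [sl2_r2 L N r2 6 η nη]; norm_num
  have nLθ : N (L θ) = (6 : ℂ) • L θ := by rw [sl2_r2 L N r2 4 θ nθ]; norm_num
  have nLLθ : N (L (L θ)) = (8 : ℂ) • L (L θ) := by rw [sl2_r2 L N r2 6 _ nLθ]; norm_num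
  have nLζ : N (L ζ) = (4 : ℂ) • L ζ := by rw [sl2_r2 L N r2 2 ζ nζ]; norm_num
  have nLLζ : N (L (L ζ)) = (6 : ℂ) • L (L ζ) := by rw [sl2_r2 L N r2 4 _ nLζ]; norm_num
  have nLLLζ : N (L (L (L ζ))) = (8 : ℂ) • L (L (L ζ)) := by
    rw [sl2_r2 L N r2 6 _ nLLζ]; norm_num
  have e1 := lef_r1 Λ L N 16 r1 8 ξ hξ
  rw [h0, map_zero, ← hη] at e1
  have e2 := lef_r1 Λ L N 16 r1 6 η nη
  rw [← hθ] at e2
  have e3 := lef_r1 Λ L N 16 r1 8 (L η) nLη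
  rw [h1, map_zero, e2, map_add, map_smul] at e3
  have e4 := lef_r1 Λ L N 16 r1 4 θ nθ
  rw [← hζ] at e4
  have e5 := lef_r1 Λ L N 16 r1 6 (L θ) nLθ
  rw [e4, map_add, map_smul] at e5
  have e6 := lef_r1 Λ L N 16 r1 8 (L (L θ)) nLLθ
  rw [h2, map_zero, e5, map_add, map_add, map_smul, map_smul] at e6
  have e7 := lef_r1 Λ L N 16 r1 2 ζ nζ
  have e8 := lef_r1 Λ L N 16 r1 4 (L ζ) nLζ
  rw [e7, map_add, map_smul] at e8
  have e9 := lef_r1 Λ L N 16 r1 6 (L (L ζ)) nLLζ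
  rw [e8, map_add, map_add, map_smul, map_smul] at e9
  have e10 := lef_r1 Λ L N 16 r1 8 (L (L (L ζ))) nLLLζ
  rw [h3, map_zero, e9, map_add, map_add, map_add, map_smul, map_smul, map_smul] at e10
  rw [← hη, ← hθ, ← hζ]
  have f1 : (16 : ℂ) • ξ = L η := by linear_combination (norm := module) e1
  have f2 : (24 : ℂ) • L η = L (L θ) := by linear_combination (norm := module) e3
  have f3 : (24 : ℂ) • L (L θ) = L (L (L ζ)) := by linear_combination (norm := module) e6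
  have f4 : (16 : ℂ) • L (L (L ζ)) = L (L (L (L (Λ ζ)))) := by
    linear_combination (norm := module) e10
  linear_combination (norm := module) (9216 : ℂ) • f1 + (384 : ℂ) • f2 + (16 : ℂ) • f3 + f4

include r1 r2 r3 in
lemma lef_64 (hc : c = 16) (ξ : E) (hξ : N ξ = (6 : ℂ) • ξ) (h0 : L (L ξ) = 0)
    (h1 : L (L (L (Λ ξ))) = 0) :
    (1152 : ℂ) • ξ = (18 : ℂ) • L (L (Λ (Λ ξ))) - L (L (L (Λ (Λ (Λ ξ))))) := by
  subst hc
  obtain ⟨η, hη⟩ : ∃ η, η = Λ ξ := ⟨_, rfl⟩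
  obtain ⟨θ, hθ⟩ : ∃ θ, θ = Λ η := ⟨_, rfl⟩
  rw [← hη] at h1
  have nη : N η = (4 : ℂ) • η := by rw [hη, sl2_r3 Λ N r3 6 ξ hξ]; norm_num
  have nθ : N θ = (2 : ℂ) • θ := by rw [hθ, sl2_r3 Λ N r3 4 η nη]; norm_num
  have nLξ : N (L ξ) = (8 : ℂ) • L ξ := by rw [sl2_r2 L N r2 6 ξ hξ]; norm_num
  have nLη : N (L η) = (6 : ℂ) • L η := by rw [sl2_r2 L N r2 4 η nη]; norm_num
  have nLLη : N (L (L η)) = (8 : ℂ) • L (L η) := by rw [sl2_r2 L N r2 6 _ nLη]; norm_num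
  have nLθ : N (L θ) = (4 : ℂ) • L θ := by rw [sl2_r2 L N r2 2 θ nθ]; norm_num
  have nLLθ : N (L (L θ)) = (6 : ℂ) • L (L θ) := by rw [sl2_r2 L N r2 4 _ nLθ]; norm_num
  have e1 := lef_r1 Λ L N 16 r1 6 ξ hξ
  rw [← hη] at e1
  have e2 := lef_r1 Λ L N 16 r1 8 (L ξ) nLξ
  rw [h0, map_zero, e1, map_add, map_smul] at e2
  have e3 := lef_r1 Λ L N 16 r1 4 η nη
  rw [← hθ] at e3
  have e4 := lef_r1 Λ L N 16 r1 6 (L η) nLη
  rw [e3, map_add, map_smul] at e4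
  have e5 := lef_r1 Λ L N 16 r1 8 (L (L η)) nLLη
  rw [h1, map_zero, e4, map_add, map_add, map_smul, map_smul] at e5
  have e6 := lef_r1 Λ L N 16 r1 2 θ nθ
  have e7 := lef_r1 Λ L N 16 r1 4 (L θ) nLθ
  rw [e6, map_add, map_smul] at e7
  have e8 := lef_r1 Λ L N 16 r1 6 (L (L θ)) nLLθ
  rw [e7, map_add, map_add, map_smul, map_smul] at e8
  -- consequences
  have f1 : L (L η) = (24 : ℂ) • L ξ := by linear_combination (norm := module) -e2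
  have f2 : L (L (L θ)) = (24 : ℂ) • L (L η) := by linear_combination (norm := module) -e5
  have f3 := congrArg Λ f1
  rw [e4, map_smul, e1] at f3
  have f4 := congrArg Λ f2
  rw [e8, map_smul, e4] at f4
  rw [← hη, ← hθ]
  linear_combination (norm := module) (6 : ℂ) • f3 + f4
end sl2

end Pool.Agent.Helper7
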