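import Pool.Agent.Helper7.L1

/-!
Contraction and wedge operators on products of vectors, and products of bilinear forms.
-/

set_option linter.unusedSectionVars false

namespace Pool.Agent.Helper7

open Module
open Pool.Agent.Helper8 (PS)

section degree

variable {V : Type} [AddCommGroup V] [Module ℂ V]

/-- the degree filtration by powers of the space of vectors -/
abbrev MI (V : Type) [AddCommGroup V] [Module ℂ V] : Submodule ℂ (ExteriorAlgebra ℂ V) :=
  LinearMap.range (ExteriorAlgebra.ι ℂ (M := V))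

lemma an_mem (φ : Module.Dual ℂ V) (k : ℕ) (x : ExteriorAlgebra ℂ V)
    (hx : x ∈ (MI V) ^ (k + 1)) : anE φ x ∈ (MI V) ^ k := by
  induction k generalizing x with
  | zero =>
    rw [zero_add, pow_one] at hx
    obtain ⟨u, rfl⟩ := hx
    have h1 := congrArg (fun g => g (1 : ExteriorAlgebra ℂ V)) ((isCAR (V := V)).an_cr φ u)
    simp only [Module.End.mul_apply, LinearMap.sub_apply, LinearMap.smul_apply,
      Module.End.one_apply, crE_apply, mul_one, anE_one, map_zero, sub_zero] at h1
    rw [h1, pow_zero]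
    exact Submodule.smul_mem _ _ (Submodule.one_le.mp le_rfl)
  | succ k ih =>
    rw [pow_succ'] at hx
    refine Submodule.mul_induction_on hx ?_ ?_
    · rintro _ ⟨u, rfl⟩ y hy
      have h1 := congrArg (fun g => g y) ((isCAR (V := V)).an_cr φ u)
      simp only [Module.End.mul_apply, LinearMap.sub_apply, LinearMap.smul_apply,
        Module.End.one_apply, crE_apply] at h1
      rw [h1]
      refine Submodule.sub_mem _ (Submodule.smul_mem _ _ hy) ?_
      rw [pow_succ']
      exact Submodule.mul_mem_mul ⟨u, rfl⟩ (ih y hy)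
    · intro y z hy hz
      rw [map_add]
      exact Submodule.add_mem _ hy hz

variable {ι : Type} [Fintype ι] [DecidableEq ι] (S : SympB V ι)

lemma Lam_mem (k : ℕ) (x : ExteriorAlgebra ℂ V) (hx : x ∈ (MI V) ^ (k + 2)) :
    S.Lam anE x ∈ (MI V) ^ k := by
  rw [SympB.Lam, LinearMap.sum_apply]
  refine Submodule.sum_mem _ fun a _ => ?_
  rw [Module.End.mul_apply]
  exact an_mem _ k _ (an_mem _ (k + 1) _ hx)

lemma Lam_one : S.Lam anE (1 : ExteriorAlgebra ℂ V) = 0 := by
  rw [SympB.Lam, LinearMap.sum_apply]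
  exact Finset.sum_eq_zero fun a _ => by rw [Module.End.mul_apply, anE_one, map_zero]

lemma DA_one (A : Module.End ℂ V) : S.DA crE anE A (1 : ExteriorAlgebra ℂ V) = 0 := by
  rw [SympB.DA, LinearMap.sum_apply]
  exact Finset.sum_eq_zero fun a _ => by rw [Module.End.mul_apply, anE_one, map_zero]

/-- the product of the vectors of a list -/
noncomputable def XL {R : Type*} (v : R → V) (l : List R) : ExteriorAlgebra ℂ V :=
  (l.map fun r => ExteriorAlgebra.ι ℂ (v r)).prod

variable {R : Type*}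

lemma XL_nil (v : R → V) : XL v [] = 1 := rfl

lemma XL_cons (v : R → V) (r : R) (l : List R) : XL v (r :: l) = ExteriorAlgebra.ι ℂ (v r) * XL v l := by
  rw [XL, List.map_cons, List.prod_cons]; rfl

lemma XL_append (v : R → V) (l l' : List R) : XL v (l ++ l') = XL v l * XL v l' := by
  rw [XL, List.map_append, List.prod_append]; rfl

lemma XL_snoc (v : R → V) (l : List R) (r : R) (x : ExteriorAlgebra ℂ V) :
    XL v (l ++ [r]) * x = XL v l * (ExteriorAlgebra.ι ℂ (v r) * x) := by
  rw [XL_append, XL_cons, XL_nil, mul_one, mul_assoc]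

lemma XL_mem (v : R → V) (l : List R) : XL v l ∈ (MI V) ^ l.length := by
  induction l with
  | nil =>
    rw [XL_nil, List.length_nil, pow_zero]
    exact Submodule.one_le.mp le_rfl
  | cons r l ih =>
    rw [XL_cons, List.length_cons, pow_succ']
    exact Submodule.mul_mem_mul ⟨_, rfl⟩ ih

lemma DA_cons (A : Module.End ℂ V) (u : V) (x : ExteriorAlgebra ℂ V) :
    S.DA crE anE A (ExteriorAlgebra.ι ℂ u * x) =
      ExteriorAlgebra.ι ℂ u * S.DA crE anE A x + ExteriorAlgebra.ι ℂ (A u) * x := by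
  have h := congrArg (fun g => g x) (S.DA_cr (isCAR (V := V)) A u)
  simp only [Module.End.mul_apply, LinearMap.add_apply, crE_apply] at h
  exact h

lemma N_XL (v : R → V) (l : List R) : S.DA crE anE 1 (XL v l) = (l.length : ℂ) • XL v l := by
  induction l with
  | nil => rw [XL_nil, DA_one, List.length_nil, Nat.cast_zero, zero_smul]
  | cons r l ih =>
    rw [XL_cons, DA_cons, ih, Module.End.one_apply, List.length_cons, mul_smul_comm]
    push_cast
    module

lemma Lam_cons (u : V) (x : ExteriorAlgebra ℂ V) :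
    S.Lam anE (ExteriorAlgebra.ι ℂ u * x) =
      ExteriorAlgebra.ι ℂ u * S.Lam anE x + (2 : ℂ) • anE (S.ω u) x := by
  have h := congrArg (fun g => g x) (S.Lam_cr (isCAR (V := V)) u)
  simp only [Module.End.mul_apply, LinearMap.add_apply, LinearMap.smul_apply, crE_apply] at h
  exact h

lemma an_cons (φ : Module.Dual ℂ V) (u : V) (x : ExteriorAlgebra ℂ V) :
    anE φ (ExteriorAlgebra.ι ℂ u * x) = φ u • x - ExteriorAlgebra.ι ℂ u * anE φ x := by
  have h := congrArg (fun g => g x) ((isCAR (V := V)).an_cr φ u)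
  simp only [Module.End.mul_apply, LinearMap.sub_apply, LinearMap.smul_apply,
    Module.End.one_apply, crE_apply] at h
  exact h

/-- derivations given by skew operators commute with the bivector -/
lemma DA_L (A : Module.End ℂ V) (hA : ∀ u v, S.ω (A u) v = - S.ω u (A v)) :
    S.DA crE anE A * S.LE 1 = S.LE 1 * S.DA crE anE A := by
  have h := isCAR (V := V)
  have h1 : ∀ b, S.DA crE anE A * (crE (S.e b) * crE (S.e' b)) =
      (crE (S.e b) * crE (S.e' b)) * S.DA crE anE A + (crE (A (S.e b)) * crE (S.e' b) +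
      crE (S.e b) * crE (A (S.e' b))) := by
    intro b
    rw [← mul_assoc, S.DA_cr h, add_mul, mul_assoc, S.DA_cr h, mul_add, mul_assoc]
    abel
  have h2 : ∑ b, crE (V := V) (S.e b) * crE (A (S.e' b)) =
      - ∑ b, crE (A (S.e b)) * crE (S.e' b) := by
    have h3 : ∀ b, crE (V := V) (A (S.e' b)) = ∑ a, (- S.ω (A (S.e a)) (S.e' b)) • crE (S.e' a) := by
      intro b
      conv_lhs => rw [S.exp_e' (A (S.e' b)), map_sum]
      refine Finset.sum_congr rfl fun a _ => ?_
      rw [map_smul, hA, neg_neg]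
    simp only [h3, Finset.mul_sum, mul_smul_comm]
    rw [Finset.sum_comm, ← Finset.sum_neg_distrib]
    refine Finset.sum_congr rfl fun a _ => ?_
    have h4 : crE (V := V) (A (S.e a)) = ∑ b, S.ω (A (S.e a)) (S.e' b) • crE (S.e b) := by
      conv_lhs => rw [S.exp_e (A (S.e a)), map_sum]
      simp only [map_smul]
    rw [h4, Finset.sum_mul, ← Finset.sum_neg_distrib]
    refine Finset.sum_congr rfl fun b _ => ?_
    rw [smul_mul_assoc]
    exact neg_smul (S.ω (A (S.e a)) (S.e' b)) (crE (S.e b) * crE (S.e' a))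
  rw [SympB.LE, SympB.LA, Finset.mul_sum, Finset.sum_mul]
  simp only [Module.End.one_apply]
  rw [Finset.sum_congr rfl fun b _ => h1 b, Finset.sum_add_distrib, Finset.sum_add_distrib, h2,
    add_neg_cancel, add_zero]

end degree

section ps

variable {V : Type} [AddCommGroup V] [Module ℂ V] {R : Type*} [DecidableEq R]
  {𝓑 : Set (V →ₗ[ℂ] V →ₗ[ℂ] ℂ)}

lemma PS_cons {T : Finset R} {Φ : (R → V) → ℂ} (hΦ : Φ ∈ PS 𝓑 T) (r r' : R)
    (β : V →ₗ[ℂ] V →ₗ[ℂ] ℂ) (hβ : β ∈ 𝓑) (hr : r ∉ T) (hr' : r' ∉ T) (hne : r ≠ r') :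
    (fun v => β (v r) (v r') * Φ v) ∈ PS 𝓑 (insert r (insert r' T)) := by
  refine Submodule.span_induction
    (p := fun Φ _ => (fun v : R → V => β (v r) (v r') * Φ v) ∈ PS 𝓑 (insert r (insert r' T)))
    ?_ ?_ ?_ ?_ hΦ
  · intro Φ hΦ
    exact Submodule.subset_span (PP.cons r r' β hβ hΦ hr hr' hne)
  · have h : (fun v : R → V => β (v r) (v r') * (0 : (R → V) → ℂ) v) = 0 := by funext v; simp
    rw [h]; exact Submodule.zero_mem _
  · intro x y _ _ hx hy
    have h : (fun v : R → V => β (v r) (v r') * (x + y) v) =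
        (fun v => β (v r) (v r') * x v) + (fun v => β (v r) (v r') * y v) := by
      funext v; simp only [Pi.add_apply]; ring
    rw [h]; exact Submodule.add_mem _ hx hy
  · intro c x _ hx
    have h : (fun v : R → V => β (v r) (v r') * (c • x) v) =
        c • (fun v => β (v r) (v r') * x v) := by
      funext v; simp only [Pi.smul_apply, smul_eq_mul]; ring
    rw [h]; exact Submodule.smul_mem _ _ hx

/-- the functional is a combination of products of forms on all products of `m` vectors -/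
def QQ (R : Type*) [DecidableEq R] (𝓑 : Set (V →ₗ[ℂ] V →ₗ[ℂ] ℂ))
    (G : ExteriorAlgebra ℂ V →ₗ[ℂ] ℂ) (m : ℕ) : Prop :=
  ∀ l : List R, l.Nodup → l.length = m → (fun v : R → V => G (XL v l)) ∈ PS 𝓑 l.toFinset

lemma QQ_zero (G : ExteriorAlgebra ℂ V →ₗ[ℂ] ℂ) : QQ R 𝓑 G 0 := by
  intro l _ hl
  rw [List.length_eq_zero_iff] at hl
  subst hl
  have h1 : (fun v : R → V => G (XL v [])) = G 1 • (fun _ => 1) := by
    funext v
    rw [XL_nil, Pi.smul_apply, smul_eq_mul, mul_one]
  rw [h1]
  exact Submodule.smul_mem _ _ (Submodule.subset_span PP.nil)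

lemma QQ.smul {G : ExteriorAlgebra ℂ V →ₗ[ℂ] ℂ} {m : ℕ} (h : QQ R 𝓑 G m) (c : ℂ) :
    QQ R 𝓑 (c • G) m := fun l h1 h2 => Submodule.smul_mem _ c (h l h1 h2)

lemma QQ.add {G G' : ExteriorAlgebra ℂ V →ₗ[ℂ] ℂ} {m : ℕ} (h : QQ R 𝓑 G m)
    (h' : QQ R 𝓑 G' m) : QQ R 𝓑 (G + G') m :=
  fun l h1 h2 => Submodule.add_mem _ (h l h1 h2) (h' l h1 h2)

variable {ι : Type} [Fintype ι] [DecidableEq ι] (S : SympB V ι)

lemma an_step (hω : S.ω ∈ 𝓑) {G : ExteriorAlgebra ℂ V →ₗ[ℂ] ℂ} {m : ℕ} (hG : QQ R 𝓑 G m)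
    (s : R) (l : List R) : ∀ p : List R, (s :: (p ++ l)).Nodup → (p ++ l).length = m + 1 →
    (fun v : R → V => G (XL v p * anE (S.ω (v s)) (XL v l))) ∈
      PS 𝓑 (insert s (p ++ l).toFinset) := by
  induction l with
  | nil =>
    intro p _ _
    have h1 : (fun v : R → V => G (XL v p * anE (S.ω (v s)) (XL v []))) = 0 := by
      funext v
      rw [XL_nil, anE_one, mul_zero, map_zero]; rfl
    rw [h1]
    exact Submodule.zero_mem _
  | cons r l ih =>
    intro p hnd hlen
    have h1 : (fun v : R → V => G (XL v p * anE (S.ω (v s)) (XL v (r :: l)))) =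
        (fun v => S.ω (v s) (v r) * G (XL v (p ++ l))) -
        (fun v => G (XL v (p ++ [r]) * anE (S.ω (v s)) (XL v l))) := by
      funext v
      rw [Pi.sub_apply, XL_cons, an_cons, mul_sub, map_sub, XL_snoc, mul_smul_comm, map_smul,
        smul_eq_mul, XL_append]
    rw [h1]
    have hperm : (p ++ r :: l).Perm (r :: (p ++ l)) := List.perm_middle
    have hnd2 : (s :: r :: (p ++ l)).Nodup := (List.Perm.nodup_iff (hperm.cons s)).mp hnd
    have hset : (p ++ r :: l).toFinset = insert r (p ++ l).toFinset := by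
      rw [List.toFinset_eq_of_perm _ _ hperm, List.toFinset_cons]
    have hlen2 : (p ++ l).length = m := by
      rw [hperm.length_eq, List.length_cons] at hlen
      omega
    rw [List.nodup_cons, List.mem_cons, not_or, List.nodup_cons] at hnd2
    refine Submodule.sub_mem _ ?_ ?_
    · rw [hset]
      exact PS_cons (hG (p ++ l) hnd2.2.2 hlen2) s r _ hω
        (fun h => hnd2.1.2 (List.mem_toFinset.mp h)) (fun h => hnd2.2.1 (List.mem_toFinset.mp h))
        hnd2.1.1
    · have h2 : p ++ r :: l = (p ++ [r]) ++ l := by simp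
      rw [h2] at hnd hlen ⊢
      exact ih (p ++ [r]) hnd hlen

lemma Lam_step' (hω : S.ω ∈ 𝓑) {G : ExteriorAlgebra ℂ V →ₗ[ℂ] ℂ} {m : ℕ} (hG : QQ R 𝓑 G m)
    (l : List R) : ∀ p : List R, (p ++ l).Nodup → (p ++ l).length = m + 2 →
    (fun v : R → V => G (XL v p * S.Lam anE (XL v l))) ∈ PS 𝓑 (p ++ l).toFinset := by
  induction l with
  | nil =>
    intro p _ _
    have h1 : (fun v : R → V => G (XL v p * S.Lam anE (XL v []))) = 0 := by
      funext v
      rw [XL_nil, Lam_one, mul_zero, map_zero]; rfl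
    rw [h1]
    exact Submodule.zero_mem _
  | cons r l ih =>
    intro p hnd hlen
    have h1 : (fun v : R → V => G (XL v p * S.Lam anE (XL v (r :: l)))) =
        (fun v => G (XL v (p ++ [r]) * S.Lam anE (XL v l))) +
        (2 : ℂ) • (fun v => G (XL v p * anE (S.ω (v r)) (XL v l))) := by
      funext v
      rw [Pi.add_apply, Pi.smul_apply, XL_cons, Lam_cons, mul_add, map_add, XL_snoc,
        mul_smul_comm, map_smul]
    rw [h1]
    have hperm : (p ++ r :: l).Perm (r :: (p ++ l)) := List.perm_middle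
    refine Submodule.add_mem _ ?_ (Submodule.smul_mem _ _ ?_)
    · have h2 : p ++ r :: l = (p ++ [r]) ++ l := by simp
      rw [h2] at hnd hlen ⊢
      exact ih (p ++ [r]) hnd hlen
    · have hset : (p ++ r :: l).toFinset = insert r (p ++ l).toFinset := by
        rw [List.toFinset_eq_of_perm _ _ hperm, List.toFinset_cons]
      rw [hset]
      refine an_step S hω hG r l p (hperm.nodup_iff.mp hnd) ?_
      rw [hperm.length_eq, List.length_cons] at hlen
      omega

/-- contraction raises the degree -/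
lemma Lam_step (hω : S.ω ∈ 𝓑) {G : ExteriorAlgebra ℂ V →ₗ[ℂ] ℂ} {m : ℕ} (hG : QQ R 𝓑 G m) :
    QQ R 𝓑 (G ∘ₗ S.Lam anE) (m + 2) := by
  intro l hnd hlen
  have h := Lam_step' S hω hG l [] hnd hlen
  simp only [XL_nil, one_mul, List.nil_append] at h
  exact h

end ps

end Pool.Agent.Helper7
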