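import Pool.Agent.Helper7.J6
import Pool.Agent.Helper7.J8
import Pool.Agent.Helper7.L3

/-!
Four slots of real type, for four-forms invariant under the symmetries of a form of any degree.
-/

namespace Pool.Agent.Helper7.R4

open Module NumberField LieAlgebra

attribute [local instance 100] LieRing.ofAssociativeRing

open Pool.Agent.GPC (Emb IsOdd IsOddModule translate)
open Pool.Agent.Helper8 (Symp perfect_of_killing ML2 ML4 Inv2 Inv4 exists_linear Principal P4 sqw
  P31_two P31_four P31_six ext31 P22_plane P22_plane' P22_four wsq P211_plane P211_four P1111 PS)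
open Pool.Agent.Helper84 (symp_even pattern4 vec4_eq)

set_option linter.unusedSectionVars false

lemma upd4_0 {V : Type*} (a b c d x : V) : Function.update ![a, b, c, d] 0 x = ![x, b, c, d] := by
  funext j; fin_cases j <;> rfl

lemma upd4_1 {V : Type*} (a b c d x : V) : Function.update ![a, b, c, d] 1 x = ![a, x, c, d] := by
  funext j; fin_cases j <;> rfl

lemma upd4_2 {V : Type*} (a b c d x : V) : Function.update ![a, b, c, d] 2 x = ![a, b, x, d] := by
  funext j; fin_cases j <;> rfl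

lemma upd4_3 {V : Type*} (a b c d x : V) : Function.update ![a, b, c, d] 3 x = ![a, b, c, x] := by
  funext j; fin_cases j <;> rfl

section ps

variable {V : Type} [AddCommGroup V] [Module ℂ V] {R R' : Type*} [DecidableEq R] [DecidableEq R']
  {𝓑 : Set (V →ₗ[ℂ] V →ₗ[ℂ] ℂ)}

lemma PP_map {T : Finset R'} {Φ : (R' → V) → ℂ} (h : PP 𝓑 T Φ) (x : R' → R)
    (hx : Function.Injective x) : PP 𝓑 (T.image x) (fun v => Φ (fun r => v (x r))) := by
  induction h with
  | nil => rw [Finset.image_empty]; exact PP.nil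
  | cons r r' β hβ _ hr hr' hne ih =>
    rw [Finset.image_insert, Finset.image_insert]
    refine PP.cons (x r) (x r') β hβ ih ?_ ?_ (hx.ne hne)
    · rw [Finset.mem_image]
      rintro ⟨s, hs, h⟩
      exact hr (by rw [← hx h]; exact hs)
    · rw [Finset.mem_image]
      rintro ⟨s, hs, h⟩
      exact hr' (by rw [← hx h]; exact hs)

lemma PS_map {T : Finset R'} {Φ : (R' → V) → ℂ} (h : Φ ∈ PS 𝓑 T) (x : R' → R)
    (hx : Function.Injective x) : (fun v => Φ (fun r => v (x r))) ∈ PS 𝓑 (T.image x) := by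
  refine Submodule.span_induction
    (p := fun Φ _ => (fun v : R → V => Φ (fun r => v (x r))) ∈ PS 𝓑 (T.image x)) ?_ ?_ ?_ ?_ h
  · intro Φ hΦ
    exact Submodule.subset_span (PP_map hΦ x hx)
  · exact Submodule.zero_mem _
  · intro a b _ _ ha hb
    exact Submodule.add_mem _ ha hb
  · intro c a _ ha
    exact Submodule.smul_mem _ c ha

/-- change of the space and of the forms -/
lemma PS_sub {W : Type} [AddCommGroup W] [Module ℂ W] {𝓒 : Set (W →ₗ[ℂ] W →ₗ[ℂ] ℂ)}
    {T : Finset R} {Φ : (R → V) → ℂ} (h : Φ ∈ PS 𝓑 T) (g : R → (W →ₗ[ℂ] V))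
    (hg : ∀ β ∈ 𝓑, ∀ r ∈ T, ∀ s ∈ T, β.compl₁₂ (g r) (g s) ∈ 𝓒) :
    (fun v => Φ (fun r => g r (v r))) ∈ PS 𝓒 T := by
  have hPP : ∀ (T' : Finset R) (Φ : (R → V) → ℂ), PP 𝓑 T' Φ → T' ⊆ T →
      PP 𝓒 T' (fun v => Φ (fun r => g r (v r))) := by
    intro T' Φ h
    induction h with
    | nil => exact fun _ => PP.nil
    | cons r r' β hβ _ hr hr' hne ih =>
      intro hT
      exact PP.cons r r' (β.compl₁₂ (g r) (g r')) (hg β hβ r (hT (Finset.mem_insert_self _ _)) r'
        (hT (Finset.mem_insert_of_mem (Finset.mem_insert_self _ _))))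
        (ih ((Finset.subset_insert _ _).trans ((Finset.subset_insert _ _).trans hT))) hr hr' hne
  refine Submodule.span_induction
    (p := fun Φ _ => (fun v : R → W => Φ (fun r => g r (v r))) ∈ PS 𝓒 T) ?_ ?_ ?_ ?_ h
  · intro Φ hΦ
    exact Submodule.subset_span (hPP T Φ hΦ (Finset.Subset.refl _))
  · exact Submodule.zero_mem _
  · intro a b _ _ ha hb
    exact Submodule.add_mem _ ha hb
  · intro c a _ ha
    exact Submodule.smul_mem _ c ha

end ps

section family

variable {I : Type} [Fintype I] [DecidableEq I] (n : I → ℕ)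
  {κ : I → Type} [∀ i, Fintype (κ i)] [∀ i, DecidableEq (κ i)] {ϖ : ℂ}
  (P : ∀ i, PData (κ i) ϖ)
  {K : I → Type} [∀ i, Field (K i)] [∀ i, NumberField (K i)]
  (F : ∀ i, FS (P i) (K i))
  {k : ℕ} (α' : MultilinearMap ℂ (fun _ : Fin (2 * k) => HW κ n) ℂ)
  (α : (HW κ n) [⋀^Fin 4]→ₗ[ℂ] ℂ)

/-- functions given by elements of the span -/
def Good (Φ : (Fin 4 → HW κ n) → ℂ) : Prop :=
  Φ ∈ PS (invB n P α') (Finset.univ : Finset (Fin 4))

/-- invariance under the symmetries without multiplier and weights -/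
def Inv0 {m : ℕ} (α : (HW κ n) [⋀^Fin m]→ₗ[ℂ] ℂ) : Prop :=
  ∀ X, IsInv n P α' X → X.2 = 0 → (∀ s, ¬ (F s.1).isLeft → chiC P F s X = 0) →
    ∀ v, ∑ t, α (Function.update v t (lift n X.1 (v t))) = 0

variable {n P α'}

lemma Good.congr {Φ Ψ : (Fin 4 → HW κ n) → ℂ} (h : Good n P α' Φ) (e : ∀ v, Φ v = Ψ v) :
    Good n P α' Ψ := by
  have h1 : Φ = Ψ := funext e
  rw [← h1]
  exact h

lemma Good.zero : Good n P α' (fun _ => 0) := Submodule.zero_mem _

lemma Good.add {Φ Ψ : (Fin 4 → HW κ n) → ℂ} (h : Good n P α' Φ) (h' : Good n P α' Ψ) :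
    Good n P α' (fun v => Φ v + Ψ v) := Submodule.add_mem _ h h'

lemma Good.smul {Φ : (Fin 4 → HW κ n) → ℂ} (c : ℂ) (h : Good n P α' Φ) :
    Good n P α' (fun v => c * Φ v) := Submodule.smul_mem _ c h

lemma Good.sum {ι : Type*} (s : Finset ι) {Φ : ι → (Fin 4 → HW κ n) → ℂ}
    (h : ∀ i ∈ s, Good n P α' (Φ i)) : Good n P α' (fun v => ∑ i ∈ s, Φ i v) := by
  classical
  induction s using Finset.induction_on with
  | empty => exact Good.zero.congr fun v => by simp
  | insert a s ha ih =>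
    refine ((h a (Finset.mem_insert_self _ _)).add
      (ih fun i hi => h i (Finset.mem_insert_of_mem hi))).congr fun v => ?_
    rw [Finset.sum_insert ha]

lemma Good.perm {Φ : (Fin 4 → HW κ n) → ℂ} (π : Equiv.Perm (Fin 4)) (h : Good n P α' Φ) :
    Good n P α' (fun v => Φ (v ∘ π)) := by
  have h1 := PS_map h π π.injective
  have h2 : Finset.univ.image (π : Fin 4 → Fin 4) = Finset.univ :=
    Finset.image_univ_of_surjective π.surjective
  rw [h2] at h1
  exact h1

lemma good_pair {β γ : HW κ n →ₗ[ℂ] HW κ n →ₗ[ℂ] ℂ} (hβ : β ∈ invB n P α')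
    (hγ : γ ∈ invB n P α') (π : Equiv.Perm (Fin 4)) :
    Good n P α' (fun v => β (v (π 0)) (v (π 1)) * γ (v (π 2)) (v (π 3))) := by
  have h1 : Good n P α' (fun v => β (v 0) (v 1) * γ (v 2) (v 3)) := by
    have h2 := PP.cons (𝓑 := invB n P α') (0 : Fin 4) 1 β hβ
      (PP.cons (2 : Fin 4) 3 γ hγ PP.nil (by simp) (by simp) (by decide)) (by decide) (by decide)
      (by decide)
    have h3 : insert (0 : Fin 4) (insert 1 (insert 2 (insert 3 ∅))) = (Finset.univ : Finset (Fin 4)) := by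
      decide
    rw [h3] at h2
    have h4 := Submodule.subset_span (R := ℂ) (s := {Φ | PP (invB n P α') Finset.univ Φ}) h2
    simp only [mul_one] at h4
    exact h4
  exact h1.perm π

variable (n P α')

/-- the component of the form at four atoms -/
noncomputable def comp (t : Fin 4 → At n K) (v : Fin 4 → HW κ n) : ℂ :=
  α (fun j => EE n P F (t j) (v j))

lemma sum_comp (v : Fin 4 → HW κ n) : α v = ∑ t : Fin 4 → At n K, comp n P F α t v := by
  classical
  have h1 : v = fun j => ∑ t, EE n P F t (v j) := by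
    funext j
    rw [sum_EE]
  conv_lhs => rw [h1]
  exact (α : MultilinearMap ℂ (fun _ : Fin 4 => HW κ n) ℂ).map_sum
    (fun j t => EE n P F t (v j))

lemma comp_perm (t : Fin 4 → At n K) (π : Equiv.Perm (Fin 4))
    (h : Good n P α' (comp n P F α (t ∘ π))) : Good n P α' (comp n P F α t) := by
  refine ((h.perm π).smul ((Equiv.Perm.sign π : ℤ) : ℂ)).congr fun v => ?_
  have h1 := α.map_perm (fun j => EE n P F (t j) (v j)) π
  have h2 : comp n P F α (t ∘ π) (v ∘ π) = Equiv.Perm.sign π • comp n P F α t v := h1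
  rw [h2]
  rcases Int.units_eq_one_or (Equiv.Perm.sign π) with h3 | h3 <;> rw [h3] <;> simp

/-- the form on four slots -/
noncomputable def G4 (t0 t1 t2 t3 : At n K) (x : Vs n P F α' (pl n t0))
    (y : Vs n P F α' (pl n t1)) (z : Vs n P F α' (pl n t2))
    (w : Vs n P F α' (pl n t3)) : ℂ :=
  q4 α (inS n P F α' t0 x) (inS n P F α' t1 y) (inS n P F α' t2 z) (inS n P F α' t3 w)

lemma G4_ml (t0 t1 t2 t3 : At n K) : ML4 (G4 n P F α' α t0 t1 t2 t3) := by
  refine ⟨fun y z w => ⟨fun a b => ?_, fun c a => ?_⟩, fun x z w => ⟨fun a b => ?_, fun c a => ?_⟩,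
    fun x y w => ⟨fun a b => ?_, fun c a => ?_⟩, fun x y z => ⟨fun a b => ?_, fun c a => ?_⟩⟩ <;>
  simp only [G4, map_add, map_smul, LinearMap.add_apply, LinearMap.smul_apply]

lemma comp_eq (t : Fin 4 → At n K) (v : Fin 4 → HW κ n) : comp n P F α t v =
    G4 n P F α' α (t 0) (t 1) (t 2) (t 3) (outS n P F α' (t 0) (v 0)) (outS n P F α' (t 1) (v 1))
      (outS n P F α' (t 2) (v 2)) (outS n P F α' (t 3) (v 3)) := by
  rw [G4, ← EE_eq, ← EE_eq, ← EE_eq, ← EE_eq, q4_apply, comp]
  congr 1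
  funext j
  fin_cases j <;> rfl

lemma G4_inv (hk : IsKilling ℂ (LL n P F α')) (hα : Inv0 n P F α' α) (t0 t1 t2 t3 : At n K)
    (h0 : (F t0.1).isLeft) (h1 : (F t1.1).isLeft)
    (h2 : (F t2.1).isLeft) (h3 : (F t3.1).isLeft) :
    Inv4 (LL n P F α') (G4 n P F α' α t0 t1 t2 t3) := by
  intro a x y z w
  obtain ⟨X, hX, rfl, hX2, hX3⟩ := perfect_lift n P F α' hk a
  have e := hα X hX hX2 hX3 ![inS n P F α' t0 x, inS n P F α' t1 y, inS n P F α' t2 z,
    inS n P F α' t3 w]
  rw [Fin.sum_univ_four, upd4_0, upd4_1, upd4_2, upd4_3] at e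
  have e' : q4 α (lift n X.1 (inS n P F α' t0 x)) (inS n P F α' t1 y) (inS n P F α' t2 z)
      (inS n P F α' t3 w) + q4 α (inS n P F α' t0 x) (lift n X.1 (inS n P F α' t1 y))
      (inS n P F α' t2 z) (inS n P F α' t3 w) + q4 α (inS n P F α' t0 x) (inS n P F α' t1 y)
      (lift n X.1 (inS n P F α' t2 z)) (inS n P F α' t3 w) + q4 α (inS n P F α' t0 x)
      (inS n P F α' t1 y) (inS n P F α' t2 z) (lift n X.1 (inS n P F α' t3 w)) = 0 := e
  rw [lift_in n P F _ X hX t0 h0, lift_in n P F _ X hX t1 h1, lift_in n P F _ X hX t2 h2,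
    lift_in n P F _ X hX t3 h3, hX2, zero_div, zero_smul, zero_smul, zero_smul, zero_smul,
    add_zero, add_zero, add_zero, add_zero] at e'
  exact e'

variable {n P F α' α}

/-- products of two invariant pairings of slots -/
lemma good_prod1 {t0 t1 t2 t3 : At n K} (h0 : (F t0.1).isLeft) (h1 : (F t1.1).isLeft)
    (h2 : (F t2.1).isLeft) (h3 : (F t3.1).isLeft)
    {f : Vs n P F α' (pl n t0) → Vs n P F α' (pl n t1) → ℂ}
    {g : Vs n P F α' (pl n t2) → Vs n P F α' (pl n t3) → ℂ}
    (hf : ML2 f) (hg : ML2 g) (If : Inv2 (LL n P F α') f)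
    (Ig : Inv2 (LL n P F α') g) :
    Good n P α' (fun v => f (outS n P F α' t0 (v 0)) (outS n P F α' t1 (v 1)) *
      g (outS n P F α' t2 (v 2)) (outS n P F α' t3 (v 3))) := by
  obtain ⟨β, hβ, hβ'⟩ := real_pair n P F _ t0 t1 h0 h1 hf If
  obtain ⟨γ, hγ, hγ'⟩ := real_pair n P F _ t2 t3 h2 h3 hg Ig
  exact (good_pair hβ hγ 1).congr fun v => by rw [hβ', hγ']; rfl

lemma good_prod2 {t0 t1 t2 t3 : At n K} (h0 : (F t0.1).isLeft) (h1 : (F t1.1).isLeft)
    (h2 : (F t2.1).isLeft) (h3 : (F t3.1).isLeft)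
    {f : Vs n P F α' (pl n t0) → Vs n P F α' (pl n t2) → ℂ}
    {g : Vs n P F α' (pl n t1) → Vs n P F α' (pl n t3) → ℂ}
    (hf : ML2 f) (hg : ML2 g) (If : Inv2 (LL n P F α') f)
    (Ig : Inv2 (LL n P F α') g) :
    Good n P α' (fun v => f (outS n P F α' t0 (v 0)) (outS n P F α' t2 (v 2)) *
      g (outS n P F α' t1 (v 1)) (outS n P F α' t3 (v 3))) := by
  obtain ⟨β, hβ, hβ'⟩ := real_pair n P F _ t0 t2 h0 h2 hf If
  obtain ⟨γ, hγ, hγ'⟩ := real_pair n P F _ t1 t3 h1 h3 hg Ig
  refine (good_pair hβ hγ (Equiv.swap 1 2)).congr fun v => ?_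
  have e0 : Equiv.swap (1 : Fin 4) 2 0 = 0 := by decide
  have e1 : Equiv.swap (1 : Fin 4) 2 1 = 2 := by decide
  have e2 : Equiv.swap (1 : Fin 4) 2 2 = 1 := by decide
  have e3 : Equiv.swap (1 : Fin 4) 2 3 = 3 := by decide
  rw [e0, e1, e2, e3, hβ', hγ']

lemma good_prod3 {t0 t1 t2 t3 : At n K} (h0 : (F t0.1).isLeft) (h1 : (F t1.1).isLeft)
    (h2 : (F t2.1).isLeft) (h3 : (F t3.1).isLeft)
    {f : Vs n P F α' (pl n t0) → Vs n P F α' (pl n t3) → ℂ}
    {g : Vs n P F α' (pl n t1) → Vs n P F α' (pl n t2) → ℂ}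
    (hf : ML2 f) (hg : ML2 g) (If : Inv2 (LL n P F α') f)
    (Ig : Inv2 (LL n P F α') g) :
    Good n P α' (fun v => f (outS n P F α' t0 (v 0)) (outS n P F α' t3 (v 3)) *
      g (outS n P F α' t1 (v 1)) (outS n P F α' t2 (v 2))) := by
  obtain ⟨β, hβ, hβ'⟩ := real_pair n P F _ t0 t3 h0 h3 hf If
  obtain ⟨γ, hγ, hγ'⟩ := real_pair n P F _ t1 t2 h1 h2 hg Ig
  refine (good_pair hβ hγ (Equiv.swap 1 2 * Equiv.swap 1 3)).congr fun v => ?_
  have e0 : (Equiv.swap 1 2 * Equiv.swap 1 3 : Equiv.Perm (Fin 4)) 0 = 0 := by decide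
  have e1 : (Equiv.swap 1 2 * Equiv.swap 1 3 : Equiv.Perm (Fin 4)) 1 = 3 := by decide
  have e2 : (Equiv.swap 1 2 * Equiv.swap 1 3 : Equiv.Perm (Fin 4)) 2 = 1 := by decide
  have e3 : (Equiv.swap 1 2 * Equiv.swap 1 3 : Equiv.Perm (Fin 4)) 3 = 2 := by decide
  rw [e0, e1, e2, e3, hβ', hγ']

lemma comp4 (a b c d : At n K) (v : Fin 4 → HW κ n) : comp n P F α ![a, b, c, d] v =
    G4 n P F α' α a b c d (outS n P F α' a (v 0)) (outS n P F α' b (v 1))
      (outS n P F α' c (v 2)) (outS n P F α' d (v 3)) := comp_eq n P F α' α ![a, b, c, d] v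

lemma G4_12 (a c d : At n K) (x y : Vs n P F α' (pl n a))
    (z : Vs n P F α' (pl n c)) (w : Vs n P F α' (pl n d)) :
    G4 n P F α' α a a c d y x z w = - G4 n P F α' α a a c d x y z w := q4_12 α _ _ _ _

lemma G4_23 (a b d : At n K) (x : Vs n P F α' (pl n a))
    (y z : Vs n P F α' (pl n b)) (w : Vs n P F α' (pl n d)) :
    G4 n P F α' α a b b d x z y w = - G4 n P F α' α a b b d x y z w := q4_23 α _ _ _ _

lemma G4_34 (a b c : At n K) (x : Vs n P F α' (pl n a))
    (y : Vs n P F α' (pl n b)) (z w : Vs n P F α' (pl n c)) :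
    G4 n P F α' α a b c c x y w z = - G4 n P F α' α a b c c x y z w := q4_34 α _ _ _ _

/-- the dimension of the space of an atom -/
noncomputable def dimA (α' : MultilinearMap ℂ (fun _ : Fin (2 * k) => HW κ n) ℂ)
    (F : ∀ i, FS (P i) (K i)) (a : At n K) : ℕ :=
  finrank ℂ (Vs n P F α' (pl n a))

/-- good atoms: real type with irreducible space -/
structure GA (α' : MultilinearMap ℂ (fun _ : Fin (2 * k) => HW κ n) ℂ)
    (F : ∀ i, FS (P i) (K i)) (a : At n K) : Prop where
  real : (F a.1).isLeft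
  irr : LieModule.IsIrreducible ℂ (LL n P F α') (Vs n P F α' (pl n a))

variable (hk : IsKilling ℂ (LL n P F α')) (hα : Inv0 n P F α' α) (p : Principal (LL n P F α'))
include hk hα p

lemma pat_4 (a : At n K) (ha : GA α' F a) (hd : dimA α' F a = 2 ∨ dimA α' F a = 4 ∨
    dimA α' F a = 6 ∨ dimA α' F a = 8) : Good n P α' (comp n P F α ![a, a, a, a]) := by
  have := ha.irr
  have hω := omV_symp n P F α' (pl n a) ha.real
  obtain ⟨c, hc⟩ := P4 p hω hd (G4_ml n P F α' α a a a a)
    (G4_inv n P F α' α hk hα a a a a ha.real ha.real ha.real ha.real)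
    (fun x y z w => G4_12 a a a x y z w) (fun x y z w => G4_23 a a a x y z w)
    (fun x y z w => G4_34 a a a x y z w)
  have mω := ML2.of (omV n P F α' (pl n a))
  have h1 := good_prod1 ha.real ha.real ha.real ha.real mω mω hω.inv2 hω.inv2
  have h2 := good_prod2 ha.real ha.real ha.real ha.real mω mω hω.inv2 hω.inv2
  have h3 := good_prod3 ha.real ha.real ha.real ha.real mω mω hω.inv2 hω.inv2
  refine (((h1.add (h2.smul (-1))).add h3).smul c).congr fun v => ?_
  rw [comp4, hc, sqw]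
  ring

lemma pat_31 (a b : At n K) (ha : GA α' F a) (hb : GA α' F b)
    (hd : dimA α' F a = 2 ∨ dimA α' F a = 4 ∨ (dimA α' F a = 6 ∧ dimA α' F b = 2)) :
    Good n P α' (comp n P F α ![a, a, a, b]) := by
  have := ha.irr
  have := hb.irr
  have hω := omV_symp n P F α' (pl n a) ha.real
  have hω' := omV_symp n P F α' (pl n b) hb.real
  rcases hd with hd | hd | ⟨hd, hd'⟩
  · refine Good.zero.congr fun v => ?_
    rw [comp4, P31_two p hω hd (G4_ml n P F α' α a a a b)
      (fun x y z w => G4_12 a a b x y z w) (fun x y z w => G4_23 a a b x y z w)]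
  · obtain ⟨β, mβ, iβ, h⟩ := P31_four p hω hd (G4_ml n P F α' α a a a b)
      (G4_inv n P F α' α hk hα a a a b ha.real ha.real ha.real hb.real)
      (fun x y z w => G4_12 a a b x y z w) (fun x y z w => G4_23 a a b x y z w)
    have mω := ML2.of (omV n P F α' (pl n a))
    have h1 := good_prod1 ha.real ha.real ha.real hb.real mω mβ hω.inv2 iβ
    have h2 := good_prod2 ha.real ha.real ha.real hb.real mω mβ hω.inv2 iβ
    have h3 := good_prod3 ha.real ha.real ha.real hb.real mβ mω iβ hω.inv2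
    refine ((h1.add (h2.smul (-1))).add h3).congr fun v => ?_
    rw [comp4, h, ext31]
    ring
  · refine Good.zero.congr fun v => ?_
    rw [comp4, P31_six p hω hω' hd hd' (G4_ml n P F α' α a a a b)
      (G4_inv n P F α' α hk hα a a a b ha.real ha.real ha.real hb.real)
      (fun x y z w => G4_12 a a b x y z w) (fun x y z w => G4_23 a a b x y z w)]

lemma pat_22 (a b : At n K) (ha : GA α' F a) (hb : GA α' F b)
    (hd : dimA α' F a = 2 ∨ dimA α' F b = 2 ∨ (dimA α' F a = 4 ∧ dimA α' F b = 4)) :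
    Good n P α' (comp n P F α ![a, a, b, b]) := by
  have := ha.irr
  have := hb.irr
  have hω := omV_symp n P F α' (pl n a) ha.real
  have hω' := omV_symp n P F α' (pl n b) hb.real
  have mω := ML2.of (omV n P F α' (pl n a))
  have mω' := ML2.of (omV n P F α' (pl n b))
  have h1 := good_prod1 ha.real ha.real hb.real hb.real mω mω' hω.inv2 hω'.inv2
  rcases hd with hd | hd | ⟨hd, hd'⟩
  · obtain ⟨c, hc⟩ := P22_plane p hω hω' hd (G4_ml n P F α' α a a b b)
      (G4_inv n P F α' α hk hα a a b b ha.real ha.real hb.real hb.real)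
      (fun x y z w => G4_12 a b b x y z w)
    refine (h1.smul c).congr fun v => ?_
    rw [comp4]
    exact (hc _ _ _ _).symm
  · obtain ⟨c, hc⟩ := P22_plane' p hω hω' hd (G4_ml n P F α' α a a b b)
      (G4_inv n P F α' α hk hα a a b b ha.real ha.real hb.real hb.real)
      (fun x y z w => G4_34 a a b x y z w)
    refine (h1.smul c).congr fun v => ?_
    rw [comp4]
    exact (hc _ _ _ _).symm
  · obtain ⟨c, c', β, mβ, iβ, h⟩ := P22_four p hω hω' hd hd' (G4_ml n P F α' α a a b b)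
      (G4_inv n P F α' α hk hα a a b b ha.real ha.real hb.real hb.real)
      (fun x y z w => G4_12 a b b x y z w) (fun x y z w => G4_34 a a b x y z w)
    have h2 := good_prod2 ha.real ha.real hb.real hb.real mβ mβ iβ iβ
    have h3 := good_prod3 ha.real ha.real hb.real hb.real mβ mβ iβ iβ
    refine ((h1.smul c).add ((h2.smul c').add (h3.smul (-c')))).congr fun v => ?_
    rw [comp4, h, wsq]
    ring

lemma pat_211 (a b c : At n K) (ha : GA α' F a) (hb : GA α' F b) (hc : GA α' F c)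
    (hd : dimA α' F a = 2 ∨ (dimA α' F a = 4 ∧ dimA α' F b = 2 ∧ dimA α' F c = 2)) :
    Good n P α' (comp n P F α ![a, a, b, c]) := by
  have := ha.irr
  have := hb.irr
  have := hc.irr
  have hω := omV_symp n P F α' (pl n a) ha.real
  have hωb := omV_symp n P F α' (pl n b) hb.real
  have hωc := omV_symp n P F α' (pl n c) hc.real
  have mω := ML2.of (omV n P F α' (pl n a))
  rcases hd with hd | ⟨hd, hd1, hd2⟩
  · obtain ⟨γ, mγ, iγ, h⟩ := P211_plane p hω hd (G4_ml n P F α' α a a b c)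
      (G4_inv n P F α' α hk hα a a b c ha.real ha.real hb.real hc.real)
      (fun x y z w => G4_12 a b c x y z w)
    refine (good_prod1 ha.real ha.real hb.real hc.real mω mγ hω.inv2 iγ).congr fun v => ?_
    rw [comp4, h]
  · obtain ⟨γ, mγ, iγ, h⟩ := P211_four p hω hωb hωc hd hd1 hd2 (G4_ml n P F α' α a a b c)
      (G4_inv n P F α' α hk hα a a b c ha.real ha.real hb.real hc.real)
      (fun x y z w => G4_12 a b c x y z w)
    refine (good_prod1 ha.real ha.real hb.real hc.real mω mγ hω.inv2 iγ).congr fun v => ?_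
    rw [comp4, h]

lemma pat_1111 (a b c d : At n K) (ha : GA α' F a) (hb : GA α' F b) (hc : GA α' F c)
    (hd : GA α' F d) (da : dimA α' F a = 2) (db : dimA α' F b = 2) (dc : dimA α' F c = 2)
    (dd : dimA α' F d = 2) : Good n P α' (comp n P F α ![a, b, c, d]) := by
  have := ha.irr
  have := hb.irr
  have := hc.irr
  have := hd.irr
  obtain ⟨r, s, t, f12, f34, f13, f24, f14, f23, m12, m34, m13, m24, m14, m23, i1, i2, i3, h⟩ :=
    P1111 p (omV_symp n P F α' (pl n a) ha.real) (omV_symp n P F α' (pl n b) hb.real)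
      (omV_symp n P F α' (pl n c) hc.real) (omV_symp n P F α' (pl n d) hd.real)
      da db dc dd (G4_ml n P F α' α a b c d) (G4_inv n P F α' α hk hα a b c d ha.real hb.real hc.real hd.real)
  have h1 : Good n P α' (fun v => r * (f12 (outS n P F α' a (v 0)) (outS n P F α' b (v 1)) *
      f34 (outS n P F α' c (v 2)) (outS n P F α' d (v 3)))) := by
    by_cases hr : r = 0
    · exact Good.zero.congr fun v => by rw [hr, zero_mul]
    · exact (good_prod1 ha.real hb.real hc.real hd.real m12 m34 (i1 hr).1 (i1 hr).2).smul r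
  have h2 : Good n P α' (fun v => s * (f13 (outS n P F α' a (v 0)) (outS n P F α' c (v 2)) *
      f24 (outS n P F α' b (v 1)) (outS n P F α' d (v 3)))) := by
    by_cases hr : s = 0
    · exact Good.zero.congr fun v => by rw [hr, zero_mul]
    · exact (good_prod2 ha.real hb.real hc.real hd.real m13 m24 (i2 hr).1 (i2 hr).2).smul s
  have h3 : Good n P α' (fun v => t * (f14 (outS n P F α' a (v 0)) (outS n P F α' d (v 3)) *
      f23 (outS n P F α' b (v 1)) (outS n P F α' c (v 2)))) := by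
    by_cases hr : t = 0
    · exact Good.zero.congr fun v => by rw [hr, zero_mul]
    · exact (good_prod3 ha.real hb.real hc.real hd.real m14 m23 (i3 hr).1 (i3 hr).2).smul t
  refine ((h1.add h2).add h3).congr fun v => ?_
  rw [comp4, h]

end family

end Pool.Agent.Helper7.R4
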