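import Pool.Agent.Helper7.SmallA
import Pool.Agent.Helper7.FamilyB

/-!
The part of the product belonging to the labels with spaces of dimension at most two, as a
pre-frame.
-/

namespace Pool.Agent.Helper7

open Module NumberField LieAlgebra

attribute [local instance 100] LieRing.ofAssociativeRing

open Pool.Agent.GPC (Emb)
open Pool.Agent.Helper8 (Symp Principal)

set_option linter.unusedSectionVars false

section family

variable {I : Type} [Fintype I] [DecidableEq I] (n : I → ℕ)
  {κ : I → Type} [∀ i, Fintype (κ i)] [∀ i, DecidableEq (κ i)] {ϖ : ℂ}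
  (P : ∀ i, PData (κ i) ϖ)
  {K : I → Type} [∀ i, Field (K i)] [∀ i, NumberField (K i)]
  (F : ∀ i, FS (P i) (K i))
  {k : ℕ} (α : MultilinearMap ℂ (fun _ : Fin (2 * k) => HW κ n) ℂ)
  (ok : I → Prop)

/-- the space of the labels in question -/
def W2 : Submodule ℂ (HW κ n) where
  carrier := {u | ∀ t : At n K, ¬ ok t.1 → EE n P F t u = 0}
  zero_mem' := fun t _ => map_zero _
  add_mem' := fun hu hv t ht => by rw [map_add, hu t ht, hv t ht, add_zero]
  smul_mem' := fun c u hu t ht => by rw [map_smul, hu t ht, smul_zero]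

lemma mem_W2 (u : HW κ n) : u ∈ W2 n P F ok ↔ ∀ t : At n K, ¬ ok t.1 → EE n P F t u = 0 := Iff.rfl

lemma EE_mem_W2 (t : At n K) (ht : ok t.1) (u : HW κ n) : EE n P F t u ∈ W2 n P F ok := by
  classical
  intro t' ht'
  rw [EE_EE, if_neg]
  rintro rfl
  exact ht' ht

lemma lift_mem_W2 (X : GG κ) (hX : IsInv n P α X) (u : HW κ n) (hu : u ∈ W2 n P F ok) :
    lift n X.1 u ∈ W2 n P F ok := by
  intro t ht
  rw [EE_lift n P F α X hX, hu t ht, map_zero]

open Classical in
/-- projection to the space of the labels in question -/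
noncomputable def P2 : Module.End ℂ (HW κ n) := ∑ t : At n K, if ok t.1 then EE n P F t else 0

open Classical in
lemma P2_apply (u : HW κ n) :
    P2 n P F ok u = ∑ t : At n K, if ok t.1 then EE n P F t u else 0 := by
  rw [P2, LinearMap.sum_apply]
  refine Finset.sum_congr rfl fun t _ => ?_
  split_ifs <;> rfl

lemma P2_mem (u : HW κ n) : P2 n P F ok u ∈ W2 n P F ok := by
  classical
  rw [P2_apply]
  refine Submodule.sum_mem _ fun t _ => ?_
  split_ifs with h
  · exact EE_mem_W2 n P F ok t h u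
  · exact Submodule.zero_mem _

lemma P2_of_mem (u : HW κ n) (hu : u ∈ W2 n P F ok) : P2 n P F ok u = u := by
  classical
  rw [P2_apply]
  conv_rhs => rw [← sum_EE n P F u]
  refine Finset.sum_congr rfl fun t _ => ?_
  split_ifs with h
  · rfl
  · exact (hu t h).symm

lemma P2_lift (X : GG κ) (hX : IsInv n P α X) (u : HW κ n) :
    P2 n P F ok (lift n X.1 u) = lift n X.1 (P2 n P F ok u) := by
  classical
  rw [P2_apply, P2_apply, map_sum]
  refine Finset.sum_congr rfl fun t _ => ?_
  split_ifs with h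
  · exact EE_lift n P F α X hX t u
  · rw [map_zero]

lemma EE_P2 (t : At n K) (ht : ok t.1) (u : HW κ n) :
    EE n P F t (P2 n P F ok u) = EE n P F t u := by
  classical
  rw [P2_apply, map_sum, Finset.sum_eq_single t]
  · rw [if_pos ht, EE_EE, if_pos rfl]
  · intro t' _ hne
    split_ifs with h
    · rw [EE_EE, if_neg (Ne.symm hne)]
    · rw [map_zero]
  · intro h; exact absurd (Finset.mem_univ _) h

lemma sum_ok (u : HW κ n) (hu : u ∈ W2 n P F ok) [Fintype {t : At n K // ok t.1}] :
    u = ∑ t : {t : At n K // ok t.1}, EE n P F t.1 u := by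
  classical
  conv_lhs => rw [← P2_of_mem n P F ok u hu, P2_apply, ← Finset.sum_filter]
  rw [← Finset.sum_subtype (Finset.univ.filter (fun t : At n K => ok t.1)) (p := fun t => ok t.1)
    (fun t => by simp) (fun t => EE n P F t u)]

lemma outS_inS (t : At n K) (x : Vs n P F α (pl n t)) :
    outS n P F α t (inS n P F α t x) = x := by
  apply Vs_ext n P F α (pl n t)
  show ((outS n P F α t (inS n P F α t x) : Vs n P F α (pl n t)) : MM κ) t.1 = _
  rw [outS_apply, inS_apply]
  have h1 := prL_slotL n t.1 t.2.1 ((x : MM κ) t.1)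
  have h2 : slotL n t.1 t.2.1 ((x : MM κ) t.1) t.1 t.2.1 = (x : MM κ) t.1 := h1
  rw [h2]
  exact Vs_proj n P F α (pl n t) x

lemma outS_EE (t : At n K) (u : HW κ n) :
    outS n P F α t (EE n P F t u) = outS n P F α t u := by
  rw [EE_eq n P F α, outS_inS]

lemma EE_inS (t : At n K) (x : Vs n P F α (pl n t)) :
    EE n P F t (inS n P F α t x) = inS n P F α t x := by
  rw [EE_eq n P F α, outS_inS]

lemma FS.cv_ev' {κ : Type} [Fintype κ] [DecidableEq κ] {ϖ : ℂ} {P : PData κ ϖ} {K : Type}
    [Field K] [NumberField K] (F : FS P K) (hF : ¬ F.isLeft) (σ : K →+* ℂ) :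
    F.cv σ (F.ev σ) = 1 := by
  cases F with
  | inl F => exact absurd rfl hF
  | inr F =>
    show F.1.lf.co σ 0 (F.1.e σ 0) = 1
    rw [F.1.co_e _ _ _ _ (Or.inr rfl), if_pos ⟨rfl, rfl⟩]

lemma cvS_evS (t : At n K) (ht : ¬ (F t.1).isLeft) : cvS n P F t (evS n P F t) = 1 := by
  show (F t.1).cv t.2.2 (prL n t.1 t.2.1 (slotL n t.1 t.2.1 ((F t.1).ev t.2.2))) = 1
  rw [prL_slotL, (F t.1).cv_ev' ht]

lemma cvS_EE (t : At n K) (ht : ¬ (F t.1).isLeft) (u : HW κ n) :
    cvS n P F t (EE n P F t u) = cvS n P F t u := by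
  rw [EE_cm n P F t ht, map_smul, cvS_evS n P F t ht, smul_eq_mul, mul_one]

lemma EE_evS (t : At n K) (ht : ¬ (F t.1).isLeft) :
    EE n P F t (evS n P F t) = evS n P F t := by
  rw [EE_cm n P F t ht, cvS_evS n P F t ht, one_smul]

/-- the weight at a place as linear map to matrices -/
noncomputable def chiM (s : Emb K) : GG κ →ₗ[ℂ] Matrix (Fin 2) (Fin 2) ℂ where
  toFun X := Matrix.of fun a c => if a = 0 ∧ c = 0 then chiC P F s X else 0
  map_add' X Y := by
    ext a c
    simp only [Matrix.of_apply, Matrix.add_apply]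
    split_ifs
    · exact (F s.1).chi_add s.2 (X.1 s.1) (Y.1 s.1) X.2 Y.2
    · rw [add_zero]
  map_smul' r X := by
    ext a c
    simp only [Matrix.of_apply, Matrix.smul_apply, smul_eq_mul, RingHom.id_apply]
    split_ifs
    · exact (F s.1).chi_smul s.2 (X.1 s.1) r X.2
    · rw [mul_zero]

lemma chiM_apply (s : Emb K) (X : GG κ) (a c : Fin 2) :
    chiM P F s X a c = if a = 0 ∧ c = 0 then chiC P F s X else 0 := rfl

variable (b : ∀ s : Emb K, ok s.1 → (F s.1).isLeft → Basis (Fin 2) ℂ (Vs n P F α s))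

open Classical in
/-- vectors -/
noncomputable def smE (q : At n K) (hq : ok q.1) (j : Fin 2) : HW κ n :=
  if h : (F q.1).isLeft then inS n P F α q (b (pl n q) hq h j)
  else if j = 0 then evS n P F q else 0

open Classical in
/-- coordinates -/
noncomputable def smCo (q : At n K) (hq : ok q.1) (j : Fin 2) : HW κ n →ₗ[ℂ] ℂ :=
  if h : (F q.1).isLeft then ((b (pl n q) hq h).coord j) ∘ₗ outS n P F α q
  else cvS n P F q

open Classical in
/-- matrices -/
noncomputable def smA (s : Emb K) (hs : ok s.1) : GG κ →ₗ[ℂ] Matrix (Fin 2) (Fin 2) ℂ :=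
  if h : (F s.1).isLeft then
    (LinearMap.toMatrix (b s hs h) (b s hs h)).toLinearMap ∘ₗ (actV n P F α s) ∘ₗ
      (LinearMap.proj s.1) ∘ₗ
      (LinearMap.fst ℂ ((i : I) → Module.End ℂ (κ i → ℂ)) ℂ)
  else chiM P F s

lemma smE_real (q : At n K) (hq : ok q.1) (h : (F q.1).isLeft) (j : Fin 2) :
    smE n P F α ok b q hq j = inS n P F α q (b (pl n q) hq h j) := by
  rw [smE, dif_pos h]

lemma smE_cm (q : At n K) (hq : ok q.1) (h : ¬ (F q.1).isLeft) (j : Fin 2) :
    smE n P F α ok b q hq j = if j = 0 then evS n P F q else 0 := by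
  rw [smE, dif_neg h]

lemma smCo_real (q : At n K) (hq : ok q.1) (h : (F q.1).isLeft) (j : Fin 2) (u : HW κ n) :
    smCo n P F α ok b q hq j u = (b (pl n q) hq h).coord j (outS n P F α q u) := by
  rw [smCo, dif_pos h]; rfl

lemma smCo_cm (q : At n K) (hq : ok q.1) (h : ¬ (F q.1).isLeft) (j : Fin 2) (u : HW κ n) :
    smCo n P F α ok b q hq j u = cvS n P F q u := by
  rw [smCo, dif_neg h]

lemma smA_real (s : Emb K) (hs : ok s.1) (h : (F s.1).isLeft) (X : GG κ) :
    smA n P F α ok b s hs X =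
      LinearMap.toMatrix (b s hs h) (b s hs h) (actV n P F α s (X.1 s.1)) := by
  rw [smA, dif_pos h]; rfl

lemma smA_cm (s : Emb K) (hs : ok s.1) (h : ¬ (F s.1).isLeft) (X : GG κ) (a c : Fin 2) :
    smA n P F α ok b s hs X a c = if a = 0 ∧ c = 0 then chiC P F s X else 0 := by
  rw [smA, dif_neg h]; rfl

lemma EE_smE (q : At n K) (hq : ok q.1) (j : Fin 2) :
    EE n P F q (smE n P F α ok b q hq j) = smE n P F α ok b q hq j := by
  by_cases h : (F q.1).isLeft
  · rw [smE_real n P F α ok b q hq h, EE_inS]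
  · rw [smE_cm n P F α ok b q hq h]
    split_ifs
    · exact EE_evS n P F q h
    · exact map_zero _

lemma smCo_EE (q : At n K) (hq : ok q.1) (j : Fin 2) (u : HW κ n) :
    smCo n P F α ok b q hq j (EE n P F q u) = smCo n P F α ok b q hq j u := by
  by_cases h : (F q.1).isLeft
  · rw [smCo_real n P F α ok b q hq h, smCo_real n P F α ok b q hq h, outS_EE]
  · rw [smCo_cm n P F α ok b q hq h, smCo_cm n P F α ok b q hq h, cvS_EE n P F q h]

lemma smCo_smE (q : At n K) (hq : ok q.1) (j : Fin 2) (q' : At n K) (hq' : ok q'.1) (j' : Fin 2)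
    [Decidable (q = q' ∧ j = j')]
    (h : (F q.1).isLeft ∨ j = 0) : smCo n P F α ok b q hq j (smE n P F α ok b q' hq' j') =
      if q = q' ∧ j = j' then 1 else 0 := by
  classical
  by_cases hqq : q = q'
  · subst hqq
    by_cases hl : (F q.1).isLeft
    · rw [smCo_real n P F α ok b q hq hl, smE_real n P F α ok b q hq hl, outS_inS,
        Basis.coord_apply, Basis.repr_self, Finsupp.single_apply]
      simp only [true_and]
      by_cases hj : j = j'
      · rw [if_pos hj.symm, if_pos hj]
      · rw [if_neg (Ne.symm hj), if_neg hj]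
    · have hj : j = 0 := h.resolve_left hl
      subst hj
      rw [smCo_cm n P F α ok b q hq hl, smE_cm n P F α ok b q hq hl]
      by_cases hj' : j' = 0
      · subst hj'
        rw [if_pos rfl, if_pos ⟨rfl, rfl⟩, cvS_evS n P F q hl]
      · rw [if_neg hj', if_neg (fun h => hj' h.2.symm), map_zero]
  · rw [if_neg (fun h => hqq h.1), ← smCo_EE, ← EE_smE n P F α ok b q' hq' j', EE_EE, if_neg hqq,
      map_zero]

lemma sum_sm (q : At n K) (hq : ok q.1) (u : HW κ n) :
    EE n P F q u = ∑ j, smCo n P F α ok b q hq j u • smE n P F α ok b q hq j := by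
  by_cases h : (F q.1).isLeft
  · simp only [smCo_real n P F α ok b q hq h, smE_real n P F α ok b q hq h]
    rw [EE_eq n P F α]
    conv_lhs => rw [← (b (pl n q) hq h).sum_repr (outS n P F α q u)]
    rw [map_sum]
    refine Finset.sum_congr rfl fun j _ => ?_
    rw [map_smul]
    rfl
  · simp only [smCo_cm n P F α ok b q hq h, smE_cm n P F α ok b q hq h]
    rw [Fin.sum_univ_two, if_pos rfl, if_neg (by decide), smul_zero, add_zero,
      EE_cm n P F q h]

lemma sm_act (X : GG κ) (hX : IsInv n P α X) (q : At n K) (hq : ok q.1) (j : Fin 2) :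
    lift n X.1 (smE n P F α ok b q hq j) =
      ∑ j', smA n P F α ok b (pl n q) hq X j' j • smE n P F α ok b q hq j' := by
  by_cases h : (F q.1).isLeft
  · simp only [smE_real n P F α ok b q hq h, smA_real n P F α ok b (pl n q) hq h]
    rw [lift_in n P F α X hX q h, ← map_smul, ← map_add, ← actV_real n P F α (pl n q) h X hX]
    conv_lhs => rw [← (b (pl n q) hq h).sum_repr
      (actV n P F α (pl n q) (X.1 (pl n q).1) (b (pl n q) hq h j)), map_sum]
    refine Finset.sum_congr rfl fun j' _ => ?_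
    rw [map_smul, LinearMap.toMatrix_apply]
  · have hfin : j = 0 ∨ j = 1 := by fin_cases j <;> simp
    simp only [smE_cm n P F α ok b q hq h, smA_cm n P F α ok b (pl n q) hq h]
    rw [Fin.sum_univ_two]
    rcases hfin with rfl | rfl
    · simp [lift_evS n P F α X hX q h]
    · simp

lemma sm_coact (X : GG κ) (hX : IsInv n P α X) (q : At n K) (hq : ok q.1) (j : Fin 2)
    (u : HW κ n) (h0 : (F q.1).isLeft ∨ j = 0) :
    smCo n P F α ok b q hq j (lift n X.1 u) =
      ∑ j', smA n P F α ok b (pl n q) hq X j j' * smCo n P F α ok b q hq j' u := by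
  by_cases h : (F q.1).isLeft
  · simp only [smCo_real n P F α ok b q hq h, smA_real n P F α ok b (pl n q) hq h]
    rw [out_lift n P F α X hX q h, ← actV_real n P F α (pl n q) h X hX]
    conv_lhs => rw [← (b (pl n q) hq h).sum_repr (outS n P F α q u), map_sum, map_sum]
    refine Finset.sum_congr rfl fun j' _ => ?_
    rw [map_smul, map_smul, LinearMap.toMatrix_apply, smul_eq_mul, mul_comm]
    rfl
  · have hj : j = 0 := h0.resolve_left h
    subst hj
    simp only [smCo_cm n P F α ok b q hq h, smA_cm n P F α ok b (pl n q) hq h]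
    rw [Fin.sum_univ_two, cvS_lift n P F α X hX q h]
    simp

end family

end Pool.Agent.Helper7
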