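import Pool.Agent.Helper7.L4
import Pool.Agent.Helper7.SmallB

/-!
Invariant four-forms on the real part.
-/

namespace Pool.Agent.Helper7.R4

open Module NumberField LieAlgebra

attribute [local instance 100] LieRing.ofAssociativeRing

open Pool.Agent.GPC (Emb IsOdd IsOddModule translate)
open Pool.Agent.Helper8 (Symp perfect_of_killing ML2 ML4 Inv2 Inv4 exists_linear Principal PS)
open Pool.Agent.Helper84 (symp_even pattern4 vec4_eq)

set_option linter.unusedSectionVars false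

section family

variable {I : Type} [Fintype I] [DecidableEq I] {n : I → ℕ}
  {κ : I → Type} [∀ i, Fintype (κ i)] [∀ i, DecidableEq (κ i)] {ϖ : ℂ}
  {P : ∀ i, PData (κ i) ϖ}
  {K : I → Type} [∀ i, Field (K i)] [∀ i, NumberField (K i)]
  {F : ∀ i, FS (P i) (K i)}
  {k : ℕ} {α' : MultilinearMap ℂ (fun _ : Fin (2 * k) => HW κ n) ℂ}
  {α : (HW κ n) [⋀^Fin 4]→ₗ[ℂ] ℂ}

lemma GA.dims {a : At n K} (ha : GA α' F a) : Even (dimA α' F a) ∧ 0 < dimA α' F a := by
  have := ha.irr
  have h1 : Nontrivial (Vs n P F α' (pl n a)) :=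
    LieModule.nontrivial_of_isIrreducible ℂ (LL n P F α') _
  exact ⟨symp_even (omV_symp n P F α' (pl n a) ha.real), finrank_pos⟩

/-- four slots of real type -/
lemma real_4 (hk : IsKilling ℂ (LL n P F α')) (hα : Inv0 n P F α' α)
    (p : Principal (LL n P F α'))
    (hdim : ∀ S : Finset (At n K), (∀ a ∈ S, (F a.1).isLeft) → ∑ a ∈ S, dimA α' F a ≤ 8)
    (t : Fin 4 → At n K) (ht : ∀ r, GA α' F (t r)) : Good n P α' (comp n P F α t) := by
  classical
  obtain ⟨π, h⟩ := pattern4 t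
  apply comp_perm n P F α' α t π
  have ht' : ∀ r, GA α' F ((t ∘ π) r) := fun r => ht _
  have h' : ((t ∘ π) 0 = (t ∘ π) 1 ∧ (t ∘ π) 1 = (t ∘ π) 2 ∧ (t ∘ π) 2 = (t ∘ π) 3) ∨
      ((t ∘ π) 0 = (t ∘ π) 1 ∧ (t ∘ π) 1 = (t ∘ π) 2 ∧ (t ∘ π) 3 ≠ (t ∘ π) 0) ∨
      ((t ∘ π) 0 = (t ∘ π) 1 ∧ (t ∘ π) 2 = (t ∘ π) 3 ∧ (t ∘ π) 2 ≠ (t ∘ π) 0) ∨
      ((t ∘ π) 0 = (t ∘ π) 1 ∧ (t ∘ π) 2 ≠ (t ∘ π) 0 ∧ (t ∘ π) 3 ≠ (t ∘ π) 0 ∧
        (t ∘ π) 2 ≠ (t ∘ π) 3) ∨
      Function.Injective (t ∘ π) := h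
  clear h
  generalize t ∘ π = s at ht' h'
  have d : ∀ r, Even (dimA α' F (s r)) ∧ 0 < dimA α' F (s r) := fun r => (ht' r).dims
  rw [← vec4_eq s]
  have a0 := ht' 0
  have a1 := ht' 1
  have a2 := ht' 2
  have a3 := ht' 3
  have d0 := d 0
  have d1 := d 1
  have d2 := d 2
  have d3 := d 3
  clear d ht'
  rcases h' with ⟨e1, e2, e3⟩ | ⟨e1, e2, e3⟩ | ⟨e1, e2, e3⟩ | ⟨e1, e2, e3, e4⟩ | hinj
  · rw [← e3, ← e2, ← e1]
    apply pat_4 hk hα p _ a0
    have h1 := hdim {s 0} (fun a ha => by rw [Finset.mem_singleton.mp ha]; exact a0.real)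
    rw [Finset.sum_singleton] at h1
    obtain ⟨⟨c, hc⟩, h2⟩ := d0
    omega
  · rw [← e2, ← e1]
    apply pat_31 hk hα p _ _ a0 a3
    have h1 := hdim {s 0, s 3} (fun a ha => by
      rw [Finset.mem_insert, Finset.mem_singleton] at ha
      rcases ha with rfl | rfl
      · exact a0.real
      · exact a3.real)
    rw [Finset.sum_pair (Ne.symm e3)] at h1
    obtain ⟨⟨c, hc⟩, h2⟩ := d0
    obtain ⟨⟨c', hc'⟩, h2'⟩ := d3
    omega
  · rw [← e2, ← e1]
    apply pat_22 hk hα p _ _ a0 a2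
    have h1 := hdim {s 0, s 2} (fun a ha => by
      rw [Finset.mem_insert, Finset.mem_singleton] at ha
      rcases ha with rfl | rfl
      · exact a0.real
      · exact a2.real)
    rw [Finset.sum_pair (Ne.symm e3)] at h1
    obtain ⟨⟨c, hc⟩, h2⟩ := d0
    obtain ⟨⟨c', hc'⟩, h2'⟩ := d2
    omega
  · rw [← e1]
    apply pat_211 hk hα p _ _ _ a0 a2 a3
    have h1 := hdim {s 0, s 2, s 3} (fun a ha => by
      rw [Finset.mem_insert, Finset.mem_insert, Finset.mem_singleton] at ha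
      rcases ha with rfl | rfl | rfl
      · exact a0.real
      · exact a2.real
      · exact a3.real)
    rw [Finset.sum_insert (by
      rw [Finset.mem_insert, Finset.mem_singleton, not_or]
      exact ⟨Ne.symm e2, Ne.symm e3⟩), Finset.sum_pair e4] at h1
    obtain ⟨⟨c, hc⟩, h2⟩ := d0
    obtain ⟨⟨c', hc'⟩, h2'⟩ := d2
    obtain ⟨⟨c'', hc''⟩, h2''⟩ := d3
    omega
  · have h1 := hdim {s 0, s 1, s 2, s 3} (fun a ha => by
      rw [Finset.mem_insert, Finset.mem_insert, Finset.mem_insert, Finset.mem_singleton] at ha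
      rcases ha with rfl | rfl | rfl | rfl
      · exact a0.real
      · exact a1.real
      · exact a2.real
      · exact a3.real)
    have n01 : s 0 ≠ s 1 := fun h => absurd (hinj h) (by decide)
    have n02 : s 0 ≠ s 2 := fun h => absurd (hinj h) (by decide)
    have n03 : s 0 ≠ s 3 := fun h => absurd (hinj h) (by decide)
    have n12 : s 1 ≠ s 2 := fun h => absurd (hinj h) (by decide)
    have n13 : s 1 ≠ s 3 := fun h => absurd (hinj h) (by decide)
    have n23 : s 2 ≠ s 3 := fun h => absurd (hinj h) (by decide)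
    rw [Finset.sum_insert (by
      rw [Finset.mem_insert, Finset.mem_insert, Finset.mem_singleton, not_or, not_or]
      exact ⟨n01, n02, n03⟩), Finset.sum_insert (by
      rw [Finset.mem_insert, Finset.mem_singleton, not_or]
      exact ⟨n12, n13⟩), Finset.sum_pair n23] at h1
    obtain ⟨⟨c, hc⟩, h2⟩ := d0
    obtain ⟨⟨c1, hc1⟩, h21⟩ := d1
    obtain ⟨⟨c', hc'⟩, h2'⟩ := d2
    obtain ⟨⟨c'', hc''⟩, h2''⟩ := d3
    exact pat_1111 hk hα p _ _ _ _ a0 a1 a2 a3 (by omega) (by omega) (by omega) (by omega)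


variable (hϖ : ϖ ≠ 0)
  (hB : ∀ v : Fin (2 * k) → HW κ n, (∀ r, IsRatP n P (v r)) → ∃ q : ℚ, α' v = ϖ ^ k * q)
  (hA : ∀ v : Fin (2 * k) → HW κ n, (∀ r i m j, IsAlgebraic ℚ (v r i m j)) →
      IsAlgebraic ℚ (α' v))

include hϖ hB hA in
/-- invariant four-forms on the real part -/
theorem real4_all (hk : IsKilling ℂ (LL n P F α')) (hα : Inv0 n P F α' α)
    (p : Principal (LL n P F α'))
    (hdim : ∀ S : Finset (At n K), (∀ a ∈ S, (F a.1).isLeft) → ∑ a ∈ S, dimA α' F a ≤ 8) :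
    Good n P α' (fun v => α (fun j => P2 n P F (fun i => (F i).isLeft) (v j))) := by
  classical
  have h1 : ∀ v : Fin 4 → HW κ n, α (fun j => P2 n P F (fun i => (F i).isLeft) (v j)) =
      ∑ t : Fin 4 → At n K, α (fun j => if (F (t j).1).isLeft then EE n P F (t j) (v j) else 0) := by
    intro v
    have h2 : (fun j => P2 n P F (fun i => (F i).isLeft) (v j)) =
        fun j => ∑ t : At n K, if (F t.1).isLeft then EE n P F t (v j) else 0 := by
      funext j
      rw [P2_apply]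
      exact Finset.sum_congr rfl fun t _ => by split_ifs <;> rfl
    rw [h2]
    exact (α : MultilinearMap ℂ (fun _ : Fin 4 => HW κ n) ℂ).map_sum
      (fun j t => if (F t.1).isLeft then EE n P F t (v j) else 0)
  refine (Good.sum Finset.univ (fun t _ => ?_)).congr (fun v => (h1 v).symm)
  by_cases ht : ∀ j, (F (t j).1).isLeft
  · by_cases hn : ∀ j, Nontrivial (Vs n P F α' (pl n (t j)))
    · refine (real_4 hk hα p hdim t fun r =>
        ⟨ht r, Vs_irr n P F α' hϖ hB hA (pl n (t r)) (ht r) (hn r)⟩).congr fun v => ?_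
      rw [comp]
      congr 1
      funext j
      rw [if_pos (ht j)]
    · push Not at hn
      obtain ⟨r, hr⟩ := hn
      refine Good.zero.congr fun v => ?_
      symm
      refine (α : MultilinearMap ℂ (fun _ : Fin 4 => HW κ n) ℂ).map_coord_zero r ?_
      rw [if_pos (ht r), EE_eq n P F α']
      have h1 : outS n P F α' (t r) (v r) = 0 := by
        have := hr
        exact Subsingleton.elim _ _
      rw [h1, map_zero]
  · push Not at ht
    obtain ⟨r, hr⟩ := ht
    refine Good.zero.congr fun v => ?_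
    symm
    refine (α : MultilinearMap ℂ (fun _ : Fin 4 => HW κ n) ℂ).map_coord_zero r ?_
    rw [if_neg hr]

end family

end Pool.Agent.Helper7.R4
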