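import Pool.Agent.Helper7.L5

/-!
The symplectic space of the real part.
-/

set_option linter.unusedSectionVars false

namespace Pool.Agent.Helper7

open Module NumberField LieAlgebra

attribute [local instance 100] LieRing.ofAssociativeRing

open Pool.Agent.GPC (Emb)
open Pool.Agent.Helper8 (Symp Principal PS)
open Pool.Agent.Helper84 (weight_ext)

section symp

variable {V : Type} [AddCommGroup V] [Module ℂ V] [FiniteDimensional ℂ V]

lemma exists_sympB (ω : V →ₗ[ℂ] V →ₗ[ℂ] ℂ) (alt : ∀ u v, ω u v = - ω v u)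
    (nd : ∀ u, (∀ v, ω u v = 0) → u = 0) :
    ∃ S : SympB V (Fin (finrank ℂ V)), S.ω = ω := by
  classical
  have hinj : Function.Injective ω.flip := by
    rw [← LinearMap.ker_eq_bot, Submodule.eq_bot_iff]
    intro x hx
    refine nd x fun y => ?_
    have h1 := congrArg (fun g => g y) (LinearMap.mem_ker.mp hx)
    rw [alt]
    have h2 : ω y x = 0 := h1
    rw [h2, neg_zero]
  let Φ : V ≃ₗ[ℂ] Module.Dual ℂ V :=
    LinearEquiv.ofInjectiveOfFinrankEq ω.flip hinj (Subspace.dual_finrank_eq).symm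
  refine ⟨{ ω := ω, alt := alt, e := finBasis ℂ V,
            e' := fun b => Φ.symm ((finBasis ℂ V).coord b), dual := fun a b => ?_ }, rfl⟩
  have h1 : ω.flip (Φ.symm ((finBasis ℂ V).coord b)) = (finBasis ℂ V).coord b :=
    Φ.apply_symm_apply _
  have h2 := congrArg (fun g => g (finBasis ℂ V a)) h1
  have h3 : ω (finBasis ℂ V a) (Φ.symm ((finBasis ℂ V).coord b)) =
      (finBasis ℂ V).coord b (finBasis ℂ V a) := h2
  rw [h3, Basis.coord_apply, Basis.repr_self, Finsupp.single_apply]

/-- the dimension of a symplectic space is even -/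
lemma even_of_form (ω : V →ₗ[ℂ] V →ₗ[ℂ] ℂ) (alt : ∀ u v, ω u v = - ω v u)
    (nd : ∀ u, (∀ v, ω u v = 0) → u = 0) : Even (finrank ℂ V) := by
  classical
  set b := Module.finBasis ℂ V
  set M : Matrix (Fin (Module.finrank ℂ V)) (Fin (Module.finrank ℂ V)) ℂ :=
    Matrix.of fun i j => ω (b i) (b j) with hM
  have hT : M.transpose = -M := by
    ext i j
    rw [Matrix.transpose_apply, Matrix.neg_apply, hM, Matrix.of_apply, Matrix.of_apply]
    exact alt _ _
  have hdet : M.det ≠ 0 := by
    intro h0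
    obtain ⟨v, hv0, hv⟩ := Matrix.exists_vecMul_eq_zero_iff.mpr h0
    apply hv0
    have h1 : ∑ i, v i • b i = 0 := by
      apply nd
      intro y
      rw [← b.sum_repr y, map_sum]
      refine Finset.sum_eq_zero fun j _ => ?_
      rw [map_smul, map_sum, LinearMap.sum_apply]
      have h2 : ∑ i, (ω (v i • b i)) (b j) = 0 := by
        have h3 := congrFun hv j
        rw [Matrix.vecMul, dotProduct, Pi.zero_apply] at h3
        rw [← h3]
        refine Finset.sum_congr rfl fun i _ => ?_
        rw [map_smul, LinearMap.smul_apply, smul_eq_mul, hM, Matrix.of_apply]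
      rw [h2, smul_zero]
    funext i
    exact Fintype.linearIndependent_iff.mp b.linearIndependent v h1 i
  have h1 : M.det = (-1) ^ (Module.finrank ℂ V) * M.det := by
    conv_lhs => rw [← Matrix.det_transpose, hT, Matrix.det_neg, Fintype.card_fin]
  by_contra hodd
  rw [Nat.not_even_iff_odd] at hodd
  rw [hodd.neg_one_pow] at h1
  apply hdet
  have h2 : (2 : ℂ) * M.det = 0 := by linear_combination h1
  exact (mul_eq_zero.mp h2).resolve_left two_ne_zero

/-- invariant multilinear forms of odd degree vanish if the space is spanned by vectors of odd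
weight -/
lemma odd_vanish (H : Module.End ℂ V)
    (hH : ∀ g : V →ₗ[ℂ] ℂ, (∀ (k : ℤ) (v : V), H v = (2 * k + 1 : ℂ) • v → g v = 0) → g = 0)
    {m : ℕ} (hm : Odd m) (B : MultilinearMap ℂ (fun _ : Fin m => V) ℂ)
    (hB : ∀ v : Fin m → V, ∑ t, B (Function.update v t (H (v t))) = 0) (v : Fin m → V) :
    B v = 0 := by
  classical
  have key : ∀ (s : Finset (Fin m)) (v : Fin m → V),
      (∀ r, r ∉ s → ∃ k : ℤ, H (v r) = (2 * k + 1 : ℂ) • v r) → B v = 0 := by
    intro s
    induction s using Finset.induction_on with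
    | empty =>
      intro v hv
      choose k hk using fun r => hv r (Finset.notMem_empty r)
      have h1 := hB v
      have h2 : ∀ t, B (Function.update v t (H (v t))) = (2 * k t + 1 : ℂ) * B v := by
        intro t
        rw [hk t, MultilinearMap.map_update_smul, Function.update_eq_self, smul_eq_mul]
      rw [Finset.sum_congr rfl fun t _ => h2 t, ← Finset.sum_mul] at h1
      refine (mul_eq_zero.mp h1).resolve_left ?_
      intro h3
      rw [Finset.sum_add_distrib, ← Finset.mul_sum, Finset.sum_const, Finset.card_univ,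
        Fintype.card_fin, nsmul_eq_mul, mul_one] at h3
      have h4 : ((2 * ∑ t, k t + m : ℤ) : ℂ) = 0 := by
        push_cast
        exact h3
      have h5 : (2 * ∑ t, k t + m : ℤ) = 0 := by exact_mod_cast h4
      obtain ⟨c, hc⟩ := hm
      omega
    | insert r s hr ih =>
      intro v hv
      let g : V →ₗ[ℂ] ℂ := B.toLinearMap v r
      have hg : g = 0 := by
        apply hH
        intro k w hw
        show B (Function.update v r w) = 0
        apply ih
        intro t ht
        by_cases htr : t = r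
        · subst htr
          rw [Function.update_self]
          exact ⟨k, hw⟩
        · rw [Function.update_of_ne htr]
          exact hv t (by rw [Finset.mem_insert, not_or]; exact ⟨htr, ht⟩)
      have h1 : g (v r) = 0 := by rw [hg]; rfl
      have h2 : g (v r) = B v := by
        show B (Function.update v r (v r)) = B v
        rw [Function.update_eq_self]
      rw [← h2, h1]
  exact key Finset.univ v fun r hr => absurd (Finset.mem_univ r) hr

end symp

section family

variable {I : Type} [Fintype I] [DecidableEq I] (n : I → ℕ)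
  {κ : I → Type} [∀ i, Fintype (κ i)] [∀ i, DecidableEq (κ i)] {ϖ : ℂ}
  (P : ∀ i, PData (κ i) ϖ)
  {K : I → Type} [∀ i, Field (K i)] [∀ i, NumberField (K i)]
  (F : ∀ i, FS (P i) (K i))
  {k : ℕ} (α' : MultilinearMap ℂ (fun _ : Fin (2 * k) => HW κ n) ℂ)

/-- the real part -/
abbrev VR : Submodule ℂ (HW κ n) := W2 n P F (fun i => (F i).isLeft)

/-- projection to the real part -/
noncomputable def PR : HW κ n →ₗ[ℂ] VR n P F :=
  (P2 n P F (fun i => (F i).isLeft)).codRestrict _ (P2_mem n P F _)

lemma PR_coe (u : HW κ n) :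
    ((PR n P F u : VR n P F) : HW κ n) = P2 n P F (fun i => (F i).isLeft) u := rfl

lemma PR_of_mem (u : VR n P F) : PR n P F (u : HW κ n) = u :=
  Subtype.ext (P2_of_mem n P F _ u.1 u.2)

/-- the sum of the polarisation forms -/
noncomputable def psiW : HW κ n →ₗ[ℂ] HW κ n →ₗ[ℂ] ℂ :=
  ∑ i, ∑ m, (P i).ψ.compl₁₂ (prL n i m) (prL n i m)

lemma psiW_apply (u v : HW κ n) : psiW n P u v = ∑ i, ∑ m, (P i).ψ (u i m) (v i m) := by
  rw [psiW, LinearMap.sum_apply, LinearMap.sum_apply]
  refine Finset.sum_congr rfl fun i _ => ?_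
  rw [LinearMap.sum_apply, LinearMap.sum_apply]
  rfl

lemma psiW_alt (u v : HW κ n) : psiW n P u v = - psiW n P v u := by
  rw [psiW_apply, psiW_apply, ← Finset.sum_neg_distrib]
  refine Finset.sum_congr rfl fun i _ => ?_
  rw [← Finset.sum_neg_distrib]
  exact Finset.sum_congr rfl fun m _ => (P i).hψalt _ _

lemma psiW_slot (u : HW κ n) (i : I) (m : Fin (n i)) (w : κ i → ℂ) :
    psiW n P u (slotL n i m w) = (P i).ψ (u i m) w := by
  rw [psiW_apply, Finset.sum_eq_single i, Finset.sum_eq_single m]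
  · have h : slotL n i m w i m = w := prL_slotL n i m w
    rw [h]
  · intro m' _ hm
    have h : slotL n i m w i m' = 0 := prL_slotL_ne n i m m' hm w
    rw [h, map_zero]
  · intro h; exact absurd (Finset.mem_univ _) h
  · intro i' _ hi
    refine Finset.sum_eq_zero fun m' _ => ?_
    have h : slotL n i m w i' m' = 0 := prL_slotL_ne' n i i' m m' hi w
    rw [h, map_zero]
  · intro h; exact absurd (Finset.mem_univ _) h

lemma slot_mem_VR (i : I) (hi : (F i).isLeft) (m : Fin (n i)) (w : κ i → ℂ) :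
    slotL n i m w ∈ VR n P F := by
  intro t ht
  rw [EE_apply]
  have hne : t.1 ≠ i := by
    rintro rfl
    exact ht hi
  have h : slotL n i m w t.1 t.2.1 = 0 := prL_slotL_ne' n i t.1 m t.2.1 hne w
  rw [h, map_zero, map_zero]

lemma VR_zero (u : VR n P F) (i : I) (hi : ¬ (F i).isLeft) (m : Fin (n i)) :
    (u : HW κ n) i m = 0 := by
  have h1 : (u : HW κ n) i m = ∑ σ, proj (F i).ρ σ ((u : HW κ n) i m) := by
    rw [← LinearMap.sum_apply, sum_proj]; rfl
  rw [h1]
  refine Finset.sum_eq_zero fun σ _ => ?_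
  have h2 := u.2 ⟨i, m, σ⟩ hi
  rw [EE_apply] at h2
  have h3 := congrArg (prL n i m) h2
  rw [prL_slotL, map_zero] at h3
  exact h3

/-- the form on the real part -/
noncomputable def psiR : VR n P F →ₗ[ℂ] VR n P F →ₗ[ℂ] ℂ :=
  (psiW n P).compl₁₂ (VR n P F).subtype (VR n P F).subtype

lemma psiR_apply (u v : VR n P F) : psiR n P F u v = psiW n P u v := rfl

lemma psiR_alt (u v : VR n P F) : psiR n P F u v = - psiR n P F v u := psiW_alt n P _ _

lemma psiR_nd (u : VR n P F) (h : ∀ v, psiR n P F u v = 0) : u = 0 := by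
  apply Subtype.ext
  funext i m
  by_cases hi : (F i).isLeft
  · apply (P i).hψnd
    intro w
    have h1 := h ⟨slotL n i m w, slot_mem_VR n P F i hi m w⟩
    rw [psiR_apply] at h1
    have h2 := psiW_slot n P (u : HW κ n) i m w
    rw [← h2]
    exact h1
  · exact VR_zero n P F u i hi m

/-- the symmetries without multiplier and weights, on the real part -/
def GR : Set (Module.End ℂ (VR n P F)) :=
  {Y | ∃ X, IsInv n P α' X ∧ X.2 = 0 ∧ (∀ s, ¬ (F s.1).isLeft → chiC P F s X = 0) ∧
    ∀ u : VR n P F, ((Y u : VR n P F) : HW κ n) = lift n X.1 u}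

/-- the invariant forms on the real part -/
def BR : Set (VR n P F →ₗ[ℂ] VR n P F →ₗ[ℂ] ℂ) :=
  {β | ∀ Y ∈ GR n P F α', ∀ u v, β (Y u) v + β u (Y v) = 0}

/-- the restriction of a symmetry to the real part -/
noncomputable def resR (X : GG κ) (hX : IsInv n P α' X) : Module.End ℂ (VR n P F) :=
  (lift n X.1).restrict (fun u hu => lift_mem_W2 n P F α' _ X hX u hu)

lemma resR_coe (X : GG κ) (hX : IsInv n P α' X) (u : VR n P F) :
    ((resR n P F α' X hX u : VR n P F) : HW κ n) = lift n X.1 u := rfl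

lemma resR_mem (X : GG κ) (hX : IsInv n P α' X) (h2 : X.2 = 0)
    (h3 : ∀ s, ¬ (F s.1).isLeft → chiC P F s X = 0) : resR n P F α' X hX ∈ GR n P F α' :=
  ⟨X, hX, h2, h3, fun _ => rfl⟩

lemma GR_skew (Y : Module.End ℂ (VR n P F)) (hY : Y ∈ GR n P F α') (u v : VR n P F) :
    psiR n P F (Y u) v = - psiR n P F u (Y v) := by
  obtain ⟨X, hX, h2, -, h4⟩ := hY
  rw [psiR_apply, psiR_apply, h4, h4, eq_neg_iff_add_eq_zero, psiW_apply, psiW_apply,
    ← Finset.sum_add_distrib]
  refine Finset.sum_eq_zero fun i _ => ?_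
  rw [← Finset.sum_add_distrib]
  refine Finset.sum_eq_zero fun m _ => ?_
  rw [lift_apply, lift_apply, hX.pol i, h2, zero_mul]

lemma psiR_mem : psiR n P F ∈ BR n P F α' := by
  intro Y hY u v
  rw [GR_skew n P F α' Y hY]
  ring

lemma lift_eq_of_elL (X X0 : GG κ) (hX : IsInv n P α' X) (hX0 : IsInv n P α' X0)
    (h : elL n P F α' X hX = elL n P F α' X0 hX0) (h2 : X0.2 = 0) (u : VR n P F) :
    lift n X.1 u = lift n X0.1 u + (X.2 / 2) • (u : HW κ n) := by
  have h1 : phi P F X = phi P F X0 := congrArg Subtype.val h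
  funext i m
  show X.1 i ((u : HW κ n) i m) = X0.1 i ((u : HW κ n) i m) + (X.2 / 2) • (u : HW κ n) i m
  by_cases hi : (F i).isLeft
  · have h3 := congrArg (fun g => g (Pi.single i ((u : HW κ n) i m)) i) h1
    rw [phi_real P F X _ i hi, phi_real P F X0 _ i hi, Pi.single_eq_same, h2, zero_div, zero_smul,
      sub_zero] at h3
    rw [← h3, sub_add_cancel]
  · rw [VR_zero n P F u i hi m]
    simp

/-- from forms on the real part to forms on the whole space -/
lemma inv_of_BR (hk : IsKilling ℂ (LL n P F α')) (β : VR n P F →ₗ[ℂ] VR n P F →ₗ[ℂ] ℂ)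
    (hβ : β ∈ BR n P F α') : β.compl₁₂ (PR n P F) (PR n P F) ∈ invB n P α' := by
  intro X hX u v
  obtain ⟨X0, hX0, h1, h2, h3⟩ := perfect_lift n P F α' hk (elL n P F α' X hX)
  have h4 : ∀ u, PR n P F (lift n X.1 u) =
      resR n P F α' X0 hX0 (PR n P F u) + (X.2 / 2) • PR n P F u := by
    intro u
    apply Subtype.ext
    show P2 n P F _ (lift n X.1 u) = lift n X0.1 (PR n P F u) + (X.2 / 2) • ((PR n P F u :
      VR n P F) : HW κ n)
    rw [P2_lift n P F α' _ X hX]
    exact lift_eq_of_elL n P F α' X X0 hX hX0 h1 h2 (PR n P F u)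
  rw [LinearMap.compl₁₂_apply, LinearMap.compl₁₂_apply, LinearMap.compl₁₂_apply, h4, h4]
  have h5 := hβ _ (resR_mem n P F α' X0 hX0 h2 h3) (PR n P F u) (PR n P F v)
  simp only [map_add, map_smul, LinearMap.add_apply, LinearMap.smul_apply, smul_eq_mul]
  linear_combination h5

/-- dimension of the real part -/
lemma finrank_VR [Fintype {t : At n K // (F t.1).isLeft}] :
    finrank ℂ (VR n P F) ≤ ∑ t : {t : At n K // (F t.1).isLeft},
      finrank ℂ (Vs n P F α' (pl n t.1)) := by
  have h0 := Module.finrank_pi_fintype ℂ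
    (M := fun t : {t : At n K // (F t.1).isLeft} => Vs n P F α' (pl n t.1))
  rw [← h0]
  let g : VR n P F →ₗ[ℂ] ((t : {t : At n K // (F t.1).isLeft}) → Vs n P F α' (pl n t.1)) :=
    LinearMap.pi fun t => (outS n P F α' t.1) ∘ₗ (VR n P F).subtype
  refine LinearMap.finrank_le_finrank_of_injective (f := g) ?_
  rw [← LinearMap.ker_eq_bot, Submodule.eq_bot_iff]
  intro u hu
  apply Subtype.ext
  rw [← sum_EE n P F (u : HW κ n)]
  refine Finset.sum_eq_zero fun t _ => ?_
  by_cases ht : (F t.1).isLeft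
  · have h1 := congrFun (LinearMap.mem_ker.mp hu) ⟨t, ht⟩
    have h2 : outS n P F α' t (u : HW κ n) = 0 := h1
    rw [EE_eq n P F α', h2, map_zero]
  · exact u.2 t ht

/-- inclusion of a slot in the real part -/
noncomputable def inV (t : At n K) (ht : (F t.1).isLeft) :
    Vs n P F α' (pl n t) →ₗ[ℂ] VR n P F :=
  (inS n P F α' t).codRestrict _ (fun x => by
    intro t' ht'
    classical
    rw [← EE_inS, EE_EE, if_neg]
    rintro rfl
    exact ht' ht)

/-- linear functions vanishing on the vectors of odd weight vanish -/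
lemma weight_ext_VR (hϖ : ϖ ≠ 0)
    (hB : ∀ v : Fin (2 * k) → HW κ n, (∀ r, IsRatP n P (v r)) → ∃ q : ℚ, α' v = ϖ ^ k * q)
    (hA : ∀ v : Fin (2 * k) → HW κ n, (∀ r i m j, IsAlgebraic ℚ (v r i m j)) →
      IsAlgebraic ℚ (α' v))
    (p : Principal (LL n P F α')) (X : GG κ) (hX : IsInv n P α' X)
    (hp : p.h = elL n P F α' X hX) (h2 : X.2 = 0) (g : VR n P F →ₗ[ℂ] ℂ)
    (hg : ∀ (k : ℤ) (v : VR n P F), resR n P F α' X hX v = (2 * k + 1 : ℂ) • v → g v = 0) :
    g = 0 := by
  apply LinearMap.ext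
  intro u
  have h1 : u = ∑ t : At n K, if ht : (F t.1).isLeft then
      inV n P F α' t ht (outS n P F α' t (u : HW κ n)) else 0 := by
    apply Subtype.ext
    rw [AddSubmonoidClass.coe_finsetSum]
    conv_lhs => rw [← sum_EE n P F (u : HW κ n)]
    refine Finset.sum_congr rfl fun t _ => ?_
    by_cases ht : (F t.1).isLeft
    · rw [dif_pos ht, EE_eq n P F α']; rfl
    · rw [dif_neg ht]
      exact u.2 t ht
  rw [h1, map_sum, LinearMap.zero_apply]
  refine Finset.sum_eq_zero fun t _ => ?_
  by_cases ht : (F t.1).isLeft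
  · rw [dif_pos ht]
    rcases subsingleton_or_nontrivial (Vs n P F α' (pl n t)) with hn | hn
    · have h3 : outS n P F α' t (u : HW κ n) = 0 := Subsingleton.elim _ _
      rw [h3, map_zero, map_zero]
    · have := Vs_irr n P F α' hϖ hB hA (pl n t) ht hn
      refine weight_ext p (omV_symp n P F α' (pl n t) ht) (g := fun x => g (inV n P F α' t ht x))
        ⟨fun x y => by rw [map_add, map_add], fun c x => by rw [map_smul, map_smul]⟩ ?_ _
      intro k x hx
      refine hg k _ ?_
      apply Subtype.ext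
      show lift n X.1 (inS n P F α' t x) = (2 * k + 1 : ℂ) • inS n P F α' t x
      rw [lift_in n P F α' X hX t ht, h2, zero_div, zero_smul, add_zero, ← hp, hx, map_smul]
  · rw [dif_neg ht, map_zero]

end family

end Pool.Agent.Helper7
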