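import Pool.Agent.Helper7.L6

/-!
Invariant alternating forms on the real part, when its dimension is at most eight.
-/

set_option linter.unusedSectionVars false

namespace Pool.Agent.Helper7

open Module NumberField LieAlgebra

attribute [local instance 100] LieRing.ofAssociativeRing

open Pool.Agent.GPC (Emb)
open Pool.Agent.Helper8 (Symp Principal PS)

section two

variable {V : Type} [AddCommGroup V] [Module ℂ V] {R : Type*} [DecidableEq R]
  {𝓑 : Set (V →ₗ[ℂ] V →ₗ[ℂ] ℂ)} {ι : Type} [Fintype ι] [DecidableEq ι] (S : SympB V ι)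

/-- the bilinear form given by a functional -/
noncomputable def gam0 (F : ExteriorAlgebra ℂ V →ₗ[ℂ] ℂ) : V →ₗ[ℂ] V →ₗ[ℂ] ℂ :=
  LinearMap.mk₂ ℂ (fun x y => F (ExteriorAlgebra.ι ℂ x * (ExteriorAlgebra.ι ℂ y * 1)))
    (fun x x' y => by simp only [map_add, add_mul])
    (fun c x y => by simp only [map_smul, smul_mul_assoc])
    (fun x y y' => by simp only [map_add, add_mul, mul_add])
    (fun c x y => by simp only [map_smul, smul_mul_assoc, mul_smul_comm])

lemma gam0_apply (F : ExteriorAlgebra ℂ V →ₗ[ℂ] ℂ) (x y : V) :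
    gam0 F x y = F (ExteriorAlgebra.ι ℂ x * (ExteriorAlgebra.ι ℂ y * 1)) := rfl

include S in
lemma gam0_inv (B : V [⋀^Fin 2]→ₗ[ℂ] ℂ) (A : Module.End ℂ V)
    (hB : ∀ v : Fin 2 → V, ∑ t, B (Function.update v t (A (v t))) = 0) (x y : V) :
    gam0 (fnB B) (A x) y + gam0 (fnB B) x (A y) = 0 := by
  rw [gam0_apply, gam0_apply, ← map_add]
  have h1 : ExteriorAlgebra.ι ℂ (A x) * (ExteriorAlgebra.ι ℂ y * 1) +
      ExteriorAlgebra.ι ℂ x * (ExteriorAlgebra.ι ℂ (A y) * 1) =
      S.DA crE anE A (ExteriorAlgebra.ι ℂ x * (ExteriorAlgebra.ι ℂ y * 1)) := by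
    rw [DA_cons, DA_cons, DA_one, mul_zero, zero_add, add_comm]
  rw [h1]
  refine fnB_DA S B A hB _ ?_
  have h1 : (1 : ExteriorAlgebra ℂ V) ∈ (MI V) ^ 0 := by
    rw [pow_zero]; exact Submodule.one_le.mp le_rfl
  have h2 : (MI V) ^ 2 = (MI V) * ((MI V) * (MI V) ^ 0) := by
    rw [pow_zero, mul_one, pow_two]
  rw [h2]
  exact Submodule.mul_mem_mul ⟨_, rfl⟩ (Submodule.mul_mem_mul ⟨_, rfl⟩ h1)

lemma QQ_gam0 (F : ExteriorAlgebra ℂ V →ₗ[ℂ] ℂ) (h : gam0 F ∈ 𝓑) : QQ R 𝓑 F 2 := by
  intro l hnd hlen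
  obtain ⟨r, s, rfl⟩ := List.length_eq_two.mp hlen
  have hne : r ≠ s := by
    rintro rfl
    simp at hnd
  have h1 := PS_pair (𝓑 := 𝓑) _ h r s hne
  have h2 : [r, s].toFinset = {r, s} := by ext; simp
  rw [h2]
  exact h1

end two

section family

variable {I : Type} [Fintype I] [DecidableEq I] (n : I → ℕ)
  {κ : I → Type} [∀ i, Fintype (κ i)] [∀ i, DecidableEq (κ i)] {ϖ : ℂ}
  (P : ∀ i, PData (κ i) ϖ)
  {K : I → Type} [∀ i, Field (K i)] [∀ i, NumberField (K i)]
  (F : ∀ i, FS (P i) (K i))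
  {k : ℕ} (α' : MultilinearMap ℂ (fun _ : Fin (2 * k) => HW κ n) ℂ)

/-- invariance of alternating forms on the real part -/
def InvR {m : ℕ} (B : (VR n P F) [⋀^Fin m]→ₗ[ℂ] ℂ) : Prop :=
  ∀ Y ∈ GR n P F α', ∀ v : Fin m → VR n P F, ∑ t, B (Function.update v t (Y (v t))) = 0

variable (hϖ : ϖ ≠ 0)
  (hB : ∀ v : Fin (2 * k) → HW κ n, (∀ r, IsRatP n P (v r)) → ∃ q : ℚ, α' v = ϖ ^ k * q)
  (hA : ∀ v : Fin (2 * k) → HW κ n, (∀ r i m j, IsAlgebraic ℚ (v r i m j)) →
      IsAlgebraic ℚ (α' v))

include hϖ hB hA in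
lemma real_odd (hk : IsKilling ℂ (LL n P F α')) (p : Principal (LL n P F α'))
    {m : ℕ} (hm : Odd m) (B : (VR n P F) [⋀^Fin m]→ₗ[ℂ] ℂ) (hBi : InvR n P F α' B)
    (v : Fin m → VR n P F) : B v = 0 := by
  obtain ⟨X, hX, h1, h2, h3⟩ := perfect_lift n P F α' hk p.h
  exact odd_vanish (resR n P F α' X hX)
    (fun g hg => weight_ext_VR n P F α' hϖ hB hA p X hX h1 h2 g hg) hm
    (B : MultilinearMap ℂ (fun _ : Fin m => VR n P F) ℂ)
    (fun v => hBi _ (resR_mem n P F α' X hX h2 h3) v) v

include hϖ hB hA in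
theorem real_all (hk : IsKilling ℂ (LL n P F α')) (p : Principal (LL n P F α'))
    (hdim : ∀ S : Finset (At n K), (∀ a ∈ S, (F a.1).isLeft) → ∑ a ∈ S, R4.dimA α' F a ≤ 8)
    {m : ℕ} (B : (VR n P F) [⋀^Fin m]→ₗ[ℂ] ℂ) (hBi : InvR n P F α' B)
    {R : Type*} [DecidableEq R] (x : Fin m → R) (hx : Function.Injective x) :
    (fun v : R → HW κ n => B (fun j => PR n P F (v (x j)))) ∈
      PS (invB n P α') (Finset.univ.image x) := by
  classical
  have hzero : (∀ v, B v = 0) → (fun v : R → HW κ n => B (fun j => PR n P F (v (x j)))) ∈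
      PS (invB n P α') (Finset.univ.image x) := by
    intro h0
    have h1 : (fun v : R → HW κ n => B (fun j => PR n P F (v (x j)))) = 0 :=
      funext fun v => h0 _
    rw [h1]
    exact Submodule.zero_mem _
  rcases Nat.even_or_odd m with hev | hodd
  swap
  · exact hzero (real_odd n P F α' hϖ hB hA hk p hodd B hBi)
  have hfin : finrank ℂ (VR n P F) ≤ 8 := by
    refine (finrank_VR n P F α').trans ?_
    have h1 := hdim (Finset.univ.filter (fun a => (F a.1).isLeft)) (fun a ha =>
      (Finset.mem_filter.mp ha).2)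
    rw [Finset.sum_subtype (Finset.univ.filter (fun a : At n K => (F a.1).isLeft))
      (p := fun t => (F t.1).isLeft) (fun t => by simp) (fun a => R4.dimA α' F a)] at h1
    exact h1
  obtain ⟨S, hS⟩ := exists_sympB (psiR n P F) (psiR_alt n P F) (psiR_nd n P F)
  have heven := even_of_form (psiR n P F) (psiR_alt n P F) (psiR_nd n P F)
  by_cases hm : finrank ℂ (VR n P F) < m
  · refine hzero fun v => AlternatingMap.map_linearDependent B v ?_
    intro hli
    have h3 := hli.fintype_card_le_finrank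
    rw [Fintype.card_fin] at h3
    omega
  have hωm : S.ω ∈ BR n P F α' := by rw [hS]; exact psiR_mem n P F α'
  have hskew : ∀ Y ∈ GR n P F α', ∀ u v, S.ω (Y u) v = - S.ω u (Y v) := by
    intro Y hY u v
    rw [hS]
    exact GR_skew n P F α' Y hY u v
  have hback : QQ R (BR n P F α') (fnB B) m →
      (fun v : R → HW κ n => B (fun j => PR n P F (v (x j)))) ∈
      PS (invB n P α') (Finset.univ.image x) := by
    intro hQ
    exact R4.PS_sub (PS_of_QQ B hQ x hx) (fun _ => PR n P F)
      (fun β hβ _ _ _ _ => inv_of_BR n P F α' hk β hβ)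
  obtain ⟨c, hc⟩ := hev
  have hc4 : c ≤ 4 := by omega
  interval_cases c
  · -- degree zero
    obtain rfl : m = 0 := by omega
    have h1 : (Finset.univ : Finset (Fin 0)).image x = ∅ := by simp
    rw [h1]
    have h2 : (fun v : R → HW κ n => B (fun j => PR n P F (v (x j)))) =
        B 0 • (fun _ => 1) := by
      funext v
      rw [Pi.smul_apply, smul_eq_mul, mul_one]
      congr 1
      exact Subsingleton.elim _ _
    rw [h2]
    exact Submodule.smul_mem _ _ (Submodule.subset_span PP.nil)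
  · -- degree two
    obtain rfl : m = 2 := by omega
    exact hback (QQ_gam0 _ (fun Y hY u v => gam0_inv S B Y (hBi Y hY) u v))
  · -- degree four
    obtain rfl : m = 4 := by omega
    have h1 := R4.real4_all (α := B.compLinearMap (PR n P F)) hϖ hB hA hk (fun X hX h2 h3 v => by
      have h4 := hBi _ (resR_mem n P F α' X hX h2 h3) (fun j => PR n P F (v j))
      rw [← h4]
      refine Finset.sum_congr rfl fun t _ => ?_
      rw [AlternatingMap.compLinearMap_apply]
      congr 1
      funext j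
      by_cases hj : j = t
      · subst hj
        rw [Function.update_self, Function.update_self]
        apply Subtype.ext
        exact P2_lift n P F α' _ X hX (v j)
      · rw [Function.update_of_ne hj, Function.update_of_ne hj]) p hdim
    have h2 := R4.PS_map h1 x hx
    convert h2 using 1
    funext v
    show B (fun j => PR n P F (v (x j))) = B (fun j => PR n P F (P2 n P F _ (v (x j))))
    congr 1
    funext j
    exact (PR_of_mem n P F (PR n P F (v (x j)))).symm
  · -- degree six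
    obtain rfl : m = 6 := by omega
    obtain ⟨d, hd⟩ := heven
    rcases (show finrank ℂ (VR n P F) = 6 ∨ finrank ℂ (VR n P F) = 8 by omega) with h6 | h8
    · exact hback (QQ_63 S (by rw [Fintype.card_fin, h6]) hωm _)
    · exact hback (QQ_64 S (by rw [Fintype.card_fin, h8]) hωm _
        (fun Y hY u v => gam_inv S B Y (hskew Y hY) (hBi Y hY) u v))
  · -- degree eight
    obtain rfl : m = 8 := by omega
    exact hback (QQ_84 S (by rw [Fintype.card_fin]; omega) hωm _)

end family

end Pool.Agent.Helper7
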