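import Pool.Agent.Helper7.FamilyB
import Pool.Agent.Helper7.PrimeZero
import Pool.Agent.Helper7.J11

/-!
The theorem in all degrees for products of factors of `GL_2`-type and simple factors of CM type.
-/

namespace Pool.Agent.Helper7

open Module NumberField

open Pool.Agent.GPC
open Pool.Agent.Helper84 (xi)

set_option linter.unusedSectionVars false

section family

variable {I : Type} [Fintype I] [DecidableEq I] (n : I → ℕ)
  {κ : I → Type} [∀ i, Fintype (κ i)] [∀ i, DecidableEq (κ i)] {ϖ : ℂ}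
  (P : ∀ i, PData (κ i) ϖ)
  {K : I → Type} [∀ i, Field (K i)] [∀ i, NumberField (K i)]
  (F : ∀ i, Fac (P i) (K i))
  {k : ℕ} (α : MultilinearMap ℂ (fun _ : Fin (2 * k) => HW κ n) ℂ)

lemma wt_add (t : Σ i, (K i →+* ℂ)) (X Y : GG κ) :
    wt P F t (X + Y) = wt P F t X + wt P F t Y := by
  unfold wt
  split_ifs
  · show (X.2 + Y.2) / 2 = X.2 / 2 + Y.2 / 2
    ring
  · show (F t.1).mat t.2 (X.1 t.1 + Y.1 t.1) 0 0 = _
    rw [map_add]; rfl

lemma wt_smul (t : Σ i, (K i →+* ℂ)) (c : ℂ) (X : GG κ) :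
    wt P F t (c • X) = c * wt P F t X := by
  unfold wt
  split_ifs
  · show (c * X.2) / 2 = c * (X.2 / 2)
    ring
  · show (F t.1).mat t.2 (c • X.1 t.1) 0 0 = _
    rw [map_smul]; rfl

variable (hϖ : ϖ ≠ 0)
  (hB : ∀ v : Fin (2 * k) → HW κ n, (∀ r, IsRatP n P (v r)) → ∃ q : ℚ, α v = ϖ ^ k * q)
  (hA : ∀ v : Fin (2 * k) → HW κ n, (∀ r i m j, IsAlgebraic ℚ (v r i m j)) →
      IsAlgebraic ℚ (α v))

include hϖ hB in
/-- a relation between two weights -/
lemma pair_of_relSub (s s' : Emb K) (h : (fun t => xi s t + xi s' t) ∈ relSub n P F α) (X : GG κ)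
    (hX : IsInv n P α X) : wt P F s X + wt P F s' X = X.2 := by
  have hr : ∀ X, IsInv n P α X → IsRatl P X → wt P F s X + wt P F s' X = X.2 := by
    intro X hX hXr
    have h1 := h.2 X hX hXr
    have h2 : ∑ t, (((xi s t + xi s' t : ℚ)) : ℂ) * wt P F t X =
        ∑ t, ((xi s t : ℚ) : ℂ) * wt P F t X + ∑ t, ((xi s' t : ℚ) : ℂ) * wt P F t X := by
      rw [← Finset.sum_add_distrib]
      refine Finset.sum_congr rfl fun t _ => ?_
      push_cast; ring
    rw [h2, sum_xi, sum_xi] at h1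
    have e1 := wt_conj n P F α s X hX
    have e2 := wt_conj n P F α s' X hX
    linear_combination h1 / 2 + e1 / 2 + e2 / 2
  have h3 := mem_span_of_isInv n P α hϖ hB X hX
  refine Submodule.span_induction (p := fun X _ => wt P F s X + wt P F s' X = X.2)
    ?_ ?_ ?_ ?_ h3
  · rintro Y ⟨hY, hYr⟩
    exact hr Y hY hYr
  · exact hr 0 (IsInv.zero n P _) ⟨fun i v hv => by
      show (0 : κ i → ℂ) ∈ (P i).Q
      exact Submodule.zero_mem _, 0, by simp⟩
  · intro Y Z _ _ hY hZ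
    rw [wt_add, wt_add]
    show _ = Y.2 + Z.2
    linear_combination hY + hZ
  · intro c Y _ hY
    rw [wt_smul, wt_smul]
    show _ = c * Y.2
    linear_combination c * hY

include hϖ hB hA in
/-- two places with the same weight are equal -/
lemma eq_of_relSub (s s' : Emb K) (hs : ¬ (F s.1).gl) (hs' : ¬ (F s'.1).gl)
    (hsimple : ∀ f, IsDRB (P s.1) (P s.1) f → ∃ x, ∀ v, f v = (F s.1).ρ x v)
    (hiso : s.1 ≠ s'.1 → ∀ f, IsDRB (P s.1) (P s'.1) f → ∀ v, f v = 0)
    (h : (fun t => xi s t + xi s' t) ∈ relSub n P F α) : s' = conjT s := by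
  have hχ := pair_of_relSub n P F α hϖ hB s s' h
  obtain ⟨i, σ⟩ := s
  obtain ⟨j, τ⟩ := s'
  simp only at hs hs' hsimple hiso
  have hact : ∀ (i : I) (hi : ¬ (F i).gl) (σ : K i →+* ℂ) (X : GG κ), IsInv n P α X → ∀ v,
      (F i).lf.co σ 0 (X.1 i v) = wt P F ⟨i, σ⟩ X * (F i).lf.co σ 0 v := by
    intro i hi σ X hX v
    have h1 := (hX.Comm n P F α i).co_act σ 0 v (Or.inr rfl)
    rw [h1, Fin.sum_univ_two, (F i).mat_neg hi, zero_mul, add_zero, wt, if_neg hi]
  obtain ⟨m, c, f, hf, hβ⟩ := bilin_of_inv n P α hϖ hB hA i j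
    ((LinearMap.mul ℂ ℂ).compl₁₂ ((F i).lf.co σ 0) ((F j).lf.co τ 0)) (by
      intro X hX u v
      simp only [LinearMap.compl₁₂_apply, LinearMap.mul_apply']
      rw [hact i hs σ X hX, hact j hs' τ X hX]
      have e := hχ X hX
      linear_combination (F i).lf.co σ 0 u * (F j).lf.co τ 0 v * e)
  simp only [LinearMap.compl₁₂_apply, LinearMap.mul_apply'] at hβ
  have hself : ∀ (i : I) (σ : K i →+* ℂ), (F i).lf.co σ 0 ((F i).e σ 0) = 1 := by
    intro i σ
    have h1 := (F i).co_e σ 0 σ 0 (Or.inr rfl)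
    rwa [if_pos ⟨rfl, rfl⟩] at h1
  have h1 := hβ ((F i).e σ 0) ((F j).e τ 0)
  rw [hself, hself, mul_one] at h1
  by_cases hij : i = j
  · subst hij
    choose x hx using fun l => hsimple (f l) (hf l)
    have hcomm : ∀ l y v, f l ((F i).ρ y v) = (F i).ρ y (f l v) := by
      intro l y v
      rw [hx, hx, ← Module.End.mul_apply, ← Module.End.mul_apply, ← map_mul, ← map_mul, mul_comm]
    have h2 : ∀ y, (F i).lf.co σ 0 ((F i).ρ y ((F i).e σ 0)) * (F i).lf.co τ 0 ((F i).e τ 0) =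
        (F i).lf.co σ 0 ((F i).e σ 0) *
          (F i).lf.co τ 0 ((F i).ρ ((F i).cc y) ((F i).e τ 0)) := by
      intro y
      rw [hβ, hβ]
      refine Finset.sum_congr rfl fun l _ => ?_
      rw [hcomm, (F i).hros]
    have h3 : τ = ComplexEmbedding.conjugate σ := by
      refine RingHom.ext fun y => ?_
      have h4 := h2 y
      rw [(F i).rho_e, (F i).rho_e, map_smul, map_smul, hself, hself,
        smul_eq_mul, smul_eq_mul, (F i).hcc] at h4
      simp only [mul_one, one_mul] at h4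
      rw [ComplexEmbedding.conjugate_coe_eq, h4, Complex.conj_conj]
    rw [h3]
    rfl
  · exfalso
    have h2 : ∀ l v, f l v = 0 := fun l v => hiso hij (f l) (hf l) v
    rw [Finset.sum_eq_zero (fun l _ => by rw [h2, map_zero, LinearMap.zero_apply, mul_zero])] at h1
    exact one_ne_zero h1

lemma Fac.simple_rho {κ : Type} [Fintype κ] [DecidableEq κ] {ϖ : ℂ} {P : PData κ ϖ} {K : Type}
    [Field K] [NumberField K] (F : Fac P K) (hF : ¬ F.gl)
    (hs : ∀ f, IsDRB P P f → (∃ v, f v ≠ 0) → Function.Injective f) (f : Module.End ℂ (κ → ℂ))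
    (hf : IsDRB P P f) : ∃ x, ∀ v, f v = F.ρ x v :=
  FS.simple_rho (.inr ⟨F, hF⟩ : FS P K) (fun h => by simp at h) hs f hf

end family

section arith

variable {I : Type} [Fintype I] (n : I → ℕ) (K : I → Type) [∀ i, Field (K i)]
  [∀ i, NumberField (K i)] (T : Finset I)

/-- no exceptional relations between the weights over `T` -/
def NoExotic : Prop := ∀ U : Submodule ℚ (Emb K → ℚ), IsOddModule K U →
  (∀ s t : Emb K, s.1 ∈ T → t.1 ∈ T → (fun u => xi s u + xi t u) ∈ U → t = conjT s) →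
  ∀ z : Emb K → ℤ, (fun s => (z s : ℚ)) ∈ U → (∀ s, |z s| ≤ n s.1) →
    (∃ m : ℤ, ∑ s, |z s| = 4 * m) → ∀ s, s.1 ∈ T → z s = 0

variable {n K T}

/-- relations vanish at real places -/
lemma real_zero {U : Submodule ℚ (Emb K → ℚ)} (hU : IsOddModule K U) (z : Emb K → ℤ)
    (hzU : (fun s => (z s : ℚ)) ∈ U) (s : Emb K) (hs : IsTotallyReal (K s.1)) : z s = 0 := by
  have h1 := (hU _ hzU).1 s.1 s.2
  have h2 : ComplexEmbedding.conjugate s.2 = s.2 :=
    ComplexEmbedding.isReal_iff.mp (IsTotallyReal.complexEmbedding_isReal s.2)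
  rw [h2] at h1
  simp only at h1
  have h3 : z s = - z s := by exact_mod_cast h1
  omega

lemma noExotic_low (hR : ∀ i, i ∉ T → IsTotallyReal (K i)) (hC : ∀ i ∈ T, IsCMField (K i))
    (hdim : ∑ i ∈ T, n i * finrank ℚ (K i) ≤ 8)
    (hW : ∑ i ∈ T, n i * finrank ℚ (K i) = 8 →
      ¬ ∃ q : ℚ, q < 0 ∧ ∀ i ∈ T, n i ≠ 0 → ∃ x : K i, x ^ 2 = (q : K i)) :
    NoExotic n K T := by
  classical
  intro U hU h2 z hzU hzn h4 s _
  have hn' : ∀ i, (if i ∈ T then n i else 0) ≠ 0 → i ∈ T := by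
    intro i h1
    by_contra h2
    rw [if_neg h2] at h1
    exact h1 rfl
  have hdimT : ∑ i, (if i ∈ T then n i else 0) * finrank ℚ (K i) =
      ∑ i ∈ T, n i * finrank ℚ (K i) := by
    rw [← Finset.sum_subset (Finset.subset_univ T) (fun i _ hi => by rw [if_neg hi, zero_mul])]
    exact Finset.sum_congr rfl fun i hi => by rw [if_pos hi]
  refine WM.low_zero (fun i => if i ∈ T then n i else 0) (fun i hi => hC i (hn' i hi))
    (by rw [hdimT]; exact hdim) hU (fun s t hs ht h => h2 s t (hn' _ hs) (hn' _ ht) h) ?_ z hzU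
    (fun s => ?_) h4 s
  · rw [hdimT]
    by_cases h8 : ∑ i ∈ T, n i * finrank ℚ (K i) = 8
    · right
      rintro ⟨q, hq, hq'⟩
      refine hW h8 ⟨q, hq, fun i hi hni => hq' i ?_⟩
      rw [if_pos hi]
      exact hni
    · left; omega
  · by_cases hs : s.1 ∈ T
    · rw [if_pos hs]; exact hzn s
    · rw [real_zero hU z hzU s (hR _ hs), if_neg hs]; simp

lemma noExotic_prime (i₀ : I) (hR : ∀ i, i ≠ i₀ → IsTotallyReal (K i)) [IsCMField (K i₀)] (p : ℕ)
    (hp : p.Prime) (hp2 : p ≠ 2) (hdeg : finrank ℚ (K i₀) = 2 * p) (hn : n i₀ = 1) :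
    NoExotic n K {i₀} := by
  classical
  intro U hU h2 z hzU hzn h4 s _
  have hsupp : ∀ s : Emb K, s.1 ≠ i₀ → z s = 0 := fun s hs => real_zero hU z hzU s (hR _ hs)
  refine WM.prime_zero i₀ p hp hp2 hdeg hU (fun s t hs ht h => h2 s t
    (Finset.mem_singleton.mpr hs) (Finset.mem_singleton.mpr ht) h) z hzU hsupp (fun s => ?_) h4 s
  by_cases hs : s.1 = i₀
  · have h1 := hzn s
    rw [hs, hn] at h1
    exact_mod_cast h1
  · rw [hsupp s hs]; simp

end arith

section final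

variable {I : Type} [Fintype I] (A : I → AbVar) (n : I → ℕ) (K : I → Type)
  [∀ i, Field (K i)] [∀ i, NumberField (K i)]

theorem main_B (hT : ∀ i, NotProportional (A i))
    (hNS : ∀ i, IsTotallyReal (K i) → NoStableLine (A i) (K i)) (S T : Finset I)
    (hST : ∀ i, i ∈ S ∨ i ∈ T) (hS : ∀ i ∈ S, IsRMType (A i) (K i))
    (hC : ∀ i ∈ T, IsCMType (A i) (K i))
    (h : OddMultiplicityFree K ∨ ((∀ i ∈ T, (A i).IsSimple) ∧
      (∀ i ∈ T, ∀ j ∈ T, i ≠ j → ∀ f, (A i).IsMor (A j) f → ∀ v, f v = 0) ∧ NoExotic n K T))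
    (k : ℕ) (α : Form A n (2 * k)) : IsGrothendieck A n k α ↔ IsDivisorial A n k α := by
  classical
  refine ⟨?_, isGrothendieck_of_isDivisorial A n k α⟩
  rintro ⟨hα1, hα2⟩
  have hNT : ∀ i, i ∉ S → i ∈ T := fun i hi => (hST i).resolve_left hi
  have hF : ∀ i, ∃ F : Fac (pData (A i)) (K i), (F.gl ↔ i ∈ S) := by
    intro i
    by_cases hi : i ∈ S
    · obtain ⟨h1, ⟨C⟩⟩ := hS i hi
      exact ⟨rmFac (A i) (K i) C (hNS i h1), ⟨fun _ => hi, fun _ => trivial⟩⟩
    · obtain ⟨h1, ⟨C⟩⟩ := hC i (hNT i hi)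
      exact ⟨cmFac (A i) (K i) C (hT i), ⟨fun h => h.elim, fun h => absurd h hi⟩⟩
  choose F hF using hF
  have hB : ∀ v : Fin (2 * k) → HW (fun i => Fin (A i).g ⊕ Fin (A i).g) n,
      (∀ r, IsRatP n (fun i => pData (A i)) (v r)) →
      ∃ q : ℚ, α v = (2 * Real.pi * Complex.I) ^ k * q := by
    intro v hv
    apply hα2
    intro r i m
    exact (mem_pData_Q _ _).mp (hv r i m)
  have hodd : IsOddModule K (relSub n (fun i => pData (A i)) F α.toMultilinearMap) := by
    intro u hu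
    refine ⟨fun i σ => hu.1 ⟨i, σ⟩, fun τ => relSub_stable n _ F _ τ u hu⟩
  have hNE : ∀ z : (Σ i, (K i →+* ℂ)) → ℤ,
      (fun t => (z t : ℚ)) ∈ relSub n (fun i => pData (A i)) F α.toMultilinearMap →
      (∀ t, |z t| ≤ n t.1) → (∃ m : ℤ, ∑ t, |z t| = 4 * m) → ∀ t, ¬ (F t.1).gl → z t = 0 := by
    intro z hzU hzn h4 t ht
    rcases h with hfree | ⟨hsimple, hiso, hne⟩
    · have h1 := relSub_eq_zero n (fun i => pData (A i)) F
        α.toMultilinearMap Complex.two_pi_I_ne_zero hB hα1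
        (mf_of_oddMultiplicityFree K hfree) _ hzU t ht
      exact_mod_cast h1
    · have htT : ∀ t : Emb K, t.1 ∈ T → t.1 ∉ S := by
        intro t h1 h2
        have h3 := (hS _ h2).1
        have h5 := (hC _ h1).choose
        have σ : K t.1 →+* ℂ := Classical.choice inferInstance
        exact IsTotallyComplex.complexEmbedding_not_isReal σ
          (IsTotallyReal.complexEmbedding_isReal σ)
      refine hne _ hodd ?_ z hzU hzn h4 t (hNT _ fun h => ht ((hF _).mpr h))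
      intro s s' hs hs' hrel
      have hsg : ¬ (F s.1).gl := fun h => htT s hs ((hF _).mp h)
      have hsg' : ¬ (F s'.1).gl := fun h => htT s' hs' ((hF _).mp h)
      refine eq_of_relSub n (fun i => pData (A i)) F _ Complex.two_pi_I_ne_zero hB hα1 s s' hsg hsg'
        ?_ ?_ hrel
      · intro f hf
        refine (F s.1).simple_rho hsg ?_ f hf
        intro g hg hg0
        exact hsimple s.1 hs g (isEnd_of_isDRB (A s.1) g hg) hg0
      · intro hne f hf v
        have h1 := (isDRB_iff (A s.1) (A s'.1) f).mp hf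
        exact hiso s.1 hs s'.1 hs' hne f
          ⟨f.isLinear, h1.1, h1.2, hom_fil (A s.1) (A s'.1) f f.isLinear h1.1 h1.2⟩ v
  have h1 := abstract_of_span n (fun i => pData (A i)) Complex.two_pi_I_ne_zero α hB hα1
    (family_fft_B n (fun i => pData (A i)) F α Complex.two_pi_I_ne_zero hB hα1 hNE)
  exact isDivisorial_of_span A n k α h1

end final

end Pool.Agent.Helper7
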