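import Pool.Agent.Helper7.MainB

/-!
The theorem in all degrees: CM part of dimension at most four, or simple of prime dimension.
-/

namespace Pool.Agent.Helper7

open Module NumberField

open Pool.Agent.GPC

section final

variable {I : Type} [Fintype I] (A : I → AbVar) (n : I → ℕ) (K : I → Type)
  [∀ i, Field (K i)] [∀ i, NumberField (K i)]

/-- products of factors of `GL_2`-type and of a CM part of small dimension -/
theorem main_low (hT : ∀ i, NotProportional (A i))
    (hNS : ∀ i, IsTotallyReal (K i) → NoStableLine (A i) (K i)) (S T : Finset I)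
    (hST : ∀ i, i ∈ S ∨ i ∈ T) (hS : ∀ i ∈ S, IsRMType (A i) (K i))
    (hC : ∀ i ∈ T, IsCMType (A i) (K i)) (h : OddMultiplicityFree K ∨ LowDimCM A n K T)
    (k : ℕ) (α : Form A n (2 * k)) : IsGrothendieck A n k α ↔ IsDivisorial A n k α := by
  refine main_B A n K hT hNS S T hST hS hC ?_ k α
  rcases h with h | h
  · exact Or.inl h
  · refine Or.inr ⟨h.simple, h.hom_zero, ?_⟩
    have hd : ∑ i ∈ T, n i * finrank ℚ (K i) = 2 * ∑ i ∈ T, n i * (A i).g := by
      rw [Finset.mul_sum]
      refine Finset.sum_congr rfl fun i hi => ?_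
      obtain ⟨h1, ⟨C⟩⟩ := hC i hi
      rw [C.degree]; ring
    refine noExotic_low (fun i hi => (hS i ((hST i).resolve_right hi)).1)
      (fun i hi => (hC i hi).choose) ?_ (fun h8 => ?_)
    · rw [hd]
      have := h.dim_le
      omega
    · rw [hd] at h8
      exact h.not_weil (by omega)

/-- products of factors of `GL_2`-type and a simple CM abelian variety of prime dimension -/
theorem main_prime (hT : ∀ i, NotProportional (A i))
    (hNS : ∀ i, IsTotallyReal (K i) → NoStableLine (A i) (K i)) (i₀ : I)
    (hS : ∀ i, i ≠ i₀ → IsRMType (A i) (K i)) (hC : IsCMType (A i₀) (K i₀))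
    (hs : (A i₀).IsSimple) (hp : (A i₀).g.Prime) (hn : n i₀ = 1)
    (k : ℕ) (α : Form A n (2 * k)) : IsGrothendieck A n k α ↔ IsDivisorial A n k α := by
  classical
  obtain ⟨hcm, ⟨C⟩⟩ := hC
  have hdeg := C.degree
  refine main_B A n K hT hNS (Finset.univ.erase i₀) {i₀} (fun i => ?_) (fun i hi => ?_)
    (fun i hi => ?_) (Or.inr ⟨fun i hi => ?_, fun i hi j hj hij => ?_, ?_⟩) k α
  · by_cases h : i = i₀
    · exact Or.inr (Finset.mem_singleton.mpr h)
    · exact Or.inl (Finset.mem_erase.mpr ⟨h, Finset.mem_univ i⟩)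
  · exact hS i (Finset.mem_erase.mp hi).1
  · rw [Finset.mem_singleton] at hi
    subst hi
    exact ⟨hcm, ⟨C⟩⟩
  · rw [Finset.mem_singleton] at hi
    subst hi
    exact hs
  · rw [Finset.mem_singleton] at hi hj
    exact absurd (hi.trans hj.symm) hij
  · by_cases h2 : (A i₀).g = 2
    · refine noExotic_low (fun i hi => (hS i (fun h => hi (Finset.mem_singleton.mpr h))).1)
        (fun i hi => ?_) ?_ (fun h8 => ?_)
      · rw [Finset.mem_singleton] at hi
        subst hi
        exact hcm
      · rw [Finset.sum_singleton, hn, hdeg, h2]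
        norm_num
      · rw [Finset.sum_singleton, hn, hdeg, h2] at h8
        norm_num at h8
    · exact noExotic_prime i₀ (fun i hi => (hS i hi).1) (A i₀).g hp h2 hdeg hn

end final

end Pool.Agent.Helper7
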