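import Pool.Agent.Helper7.Deriv
import Pool.Agent.Helper7.Eigen

/-!
Derivations acting on coordinates, and the operators comparing two bases.
-/

namespace Pool.Agent.Helper7

open Module

section nabla

variable {W : Type*} [AddCommGroup W] [Module ℂ W] {κ ι : Type*} [Fintype κ] [Fintype ι]

/-- coordinatewise derivation -/
noncomputable def nabla (e : Basis κ ℂ W) (D : Derivation ℚ ℂ ℂ) (v : W) : W :=
  ∑ k, D (e.repr v k) • e k

lemma nabla_add (e : Basis κ ℂ W) (D : Derivation ℚ ℂ ℂ) (v w : W) :
    nabla e D (v + w) = nabla e D v + nabla e D w := by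
  simp only [nabla, ← Finset.sum_add_distrib, ← add_smul]
  refine Finset.sum_congr rfl fun k _ => ?_
  rw [map_add, Finsupp.add_apply, map_add]

lemma nabla_smul (e : Basis κ ℂ W) (D : Derivation ℚ ℂ ℂ) (c : ℂ) (v : W) :
    nabla e D (c • v) = D c • v + c • nabla e D v := by
  have h1 : D c • v = ∑ k, (D c * e.repr v k) • e k := by
    conv_lhs => rw [← e.sum_repr v, Finset.smul_sum]
    exact Finset.sum_congr rfl fun k _ => by rw [smul_smul]
  rw [h1, nabla, nabla, Finset.smul_sum, ← Finset.sum_add_distrib]
  refine Finset.sum_congr rfl fun k _ => ?_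
  rw [map_smul, Finsupp.smul_apply, smul_eq_mul, Derivation.leibniz, smul_smul, ← add_smul]
  congr 1
  simp only [smul_eq_mul]
  ring

lemma nabla_zero (e : Basis κ ℂ W) (D : Derivation ℚ ℂ ℂ) : nabla e D 0 = 0 := by
  simp [nabla]

lemma nabla_sum (e : Basis κ ℂ W) (D : Derivation ℚ ℂ ℂ) {X : Type*} (s : Finset X) (f : X → W) :
    nabla e D (∑ x ∈ s, f x) = ∑ x ∈ s, nabla e D (f x) := by
  classical
  induction s using Finset.induction_on with
  | empty => simp [nabla_zero]
  | insert a s ha ih => rw [Finset.sum_insert ha, Finset.sum_insert ha, nabla_add, ih]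

lemma nabla_eq_zero (e : Basis κ ℂ W) (D : Derivation ℚ ℂ ℂ) (v : W)
    (hv : ∀ k, IsAlgebraic ℚ (e.repr v k)) : nabla e D v = 0 := by
  rw [nabla]
  refine Finset.sum_eq_zero fun k _ => ?_
  rw [derivation_eq_zero D _ (hv k), zero_smul]

lemma nabla_basis (e : Basis κ ℂ W) (D : Derivation ℚ ℂ ℂ) (k : κ) : nabla e D (e k) = 0 := by
  classical
  apply nabla_eq_zero
  intro j
  rw [Basis.repr_self]
  by_cases h : k = j
  · subst h; rw [Finsupp.single_eq_same]; exact isAlgebraic_one
  · rw [Finsupp.single_eq_of_ne (Ne.symm h)]; exact isAlgebraic_zero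

lemma isAlgebraic_of_nabla (e : Basis κ ℂ W) (v : W)
    (h : ∀ D : Derivation ℚ ℂ ℂ, nabla e D v = 0) (k : κ) : IsAlgebraic ℚ (e.repr v k) := by
  classical
  apply isAlgebraic_of_derivation
  intro D
  have h1 := h D
  have h2 : e.repr (nabla e D v) k = D (e.repr v k) := by
    rw [nabla, map_sum, Finsupp.finsetSum_apply, Finset.sum_eq_single k]
    · rw [map_smul, Basis.repr_self, Finsupp.smul_single, Finsupp.single_eq_same, smul_eq_mul,
        mul_one]
    · intro j _ hj
      rw [map_smul, Basis.repr_self, Finsupp.smul_single, Finsupp.single_eq_of_ne (Ne.symm hj)]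
    · intro hk; exact absurd (Finset.mem_univ _) hk
  rw [← h2, h1, map_zero, Finsupp.zero_apply]

/-- the operator comparing two bases -/
noncomputable def opN (b : Basis ι ℂ W) (e : Basis κ ℂ W) (D : Derivation ℚ ℂ ℂ) :
    W →ₗ[ℂ] W where
  toFun v := nabla e D v - nabla b D v
  map_add' v w := by rw [nabla_add, nabla_add]; abel
  map_smul' c v := by rw [nabla_smul, nabla_smul, RingHom.id_apply, smul_sub]; abel

lemma opN_apply (b : Basis ι ℂ W) (e : Basis κ ℂ W) (D : Derivation ℚ ℂ ℂ) (v : W) :
    opN b e D v = nabla e D v - nabla b D v := rfl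

end nabla

section multilinear

variable {W : Type*} [AddCommGroup W] [Module ℂ W] {κ ι : Type*} [Fintype κ] [Fintype ι]
  {m : Type*} [Fintype m] [hm : DecidableEq m]

/-- derivative of a multilinear form -/
noncomputable def derivForm (e : Basis κ ℂ W) (D : Derivation ℚ ℂ ℂ)
    (α : MultilinearMap ℂ (fun _ : m => W) ℂ) : MultilinearMap ℂ (fun _ : m => W) ℂ where
  toFun v := D (α v) - ∑ r, α (Function.update v r (nabla e D (v r)))
  map_update_add' := by
    intro inst v i x y
    have hinst : inst = hm := Subsingleton.elim _ _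
    subst hinst
    have h1 : ∀ r, α (Function.update (Function.update v i (x + y)) r
        (nabla e D (Function.update v i (x + y) r))) =
        α (Function.update (Function.update v i x) r
        (nabla e D (Function.update v i x r))) +
        α (Function.update (Function.update v i y) r
        (nabla e D (Function.update v i y r))) := by
      intro r
      by_cases h : r = i
      · subst h
        simp only [Function.update_self, Function.update_idem, nabla_add,
          MultilinearMap.map_update_add]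
      · simp only [Function.update_of_ne h]
        rw [Function.update_comm (Ne.symm h), Function.update_comm (Ne.symm h),
          Function.update_comm (Ne.symm h), MultilinearMap.map_update_add]
    rw [MultilinearMap.map_update_add, map_add, Finset.sum_congr rfl (fun r _ => h1 r),
      Finset.sum_add_distrib]
    ring
  map_update_smul' := by
    intro inst v i c x
    have hinst : inst = hm := Subsingleton.elim _ _
    subst hinst
    have h1 : ∀ r, α (Function.update (Function.update v i (c • x)) r
        (nabla e D (Function.update v i (c • x) r))) =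
        c * α (Function.update (Function.update v i x) r
        (nabla e D (Function.update v i x r))) +
        if r = i then D c * α (Function.update v i x) else 0 := by
      intro r
      by_cases h : r = i
      · subst h
        simp only [Function.update_self, Function.update_idem, nabla_smul,
          MultilinearMap.map_update_add, MultilinearMap.map_update_smul, smul_eq_mul, if_true]
        ring
      · simp only [Function.update_of_ne h, if_neg h, add_zero]
        rw [Function.update_comm (Ne.symm h), Function.update_comm (Ne.symm h),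
          MultilinearMap.map_update_smul, smul_eq_mul]
    rw [MultilinearMap.map_update_smul, smul_eq_mul, Derivation.leibniz,
      Finset.sum_congr rfl (fun r _ => h1 r), Finset.sum_add_distrib, Finset.sum_ite_eq',
      if_pos (Finset.mem_univ i), ← Finset.mul_sum]
    simp only [smul_eq_mul]
    ring

lemma derivForm_apply (e : Basis κ ℂ W) (D : Derivation ℚ ℂ ℂ)
    (α : MultilinearMap ℂ (fun _ : m => W) ℂ) (v : m → W) :
    derivForm e D α v = D (α v) - ∑ r, α (Function.update v r (nabla e D (v r))) := rfl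

lemma derivForm_basis (e : Basis κ ℂ W) (D : Derivation ℚ ℂ ℂ)
    (α : MultilinearMap ℂ (fun _ : m => W) ℂ) (s : m → κ) :
    derivForm e D α (fun r => e (s r)) = D (α (fun r => e (s r))) := by
  rw [derivForm_apply, Finset.sum_eq_zero, sub_zero]
  intro r _
  rw [nabla_basis]
  exact α.map_coord_zero r (by rw [Function.update_self])

/-- a form with algebraic coordinates -/
lemma derivForm_of_alg (e : Basis κ ℂ W) (D : Derivation ℚ ℂ ℂ)
    (α : MultilinearMap ℂ (fun _ : m => W) ℂ)
    (hα : ∀ s : m → κ, IsAlgebraic ℚ (α (fun r => e (s r)))) (v : m → W) :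
    D (α v) = ∑ r, α (Function.update v r (nabla e D (v r))) := by
  have h : derivForm e D α = 0 := by
    apply Basis.ext_multilinear (fun _ => e)
    intro s
    rw [derivForm_basis, derivation_eq_zero D _ (hα s)]
    rfl
  have h2 := congrArg (fun f => f v) h
  simp only [derivForm_apply, zero_apply] at h2
  exact sub_eq_zero.mp h2

/-- a form with rational coordinates up to `ϖ^k` -/
lemma derivForm_of_rat (e : Basis κ ℂ W) (D : Derivation ℚ ℂ ℂ) (ϖ : ℂ) (hϖ : ϖ ≠ 0) (k : ℕ)
    (α : MultilinearMap ℂ (fun _ : m => W) ℂ)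
    (hα : ∀ s : m → κ, ∃ q : ℚ, α (fun r => e (s r)) = ϖ ^ k * q) (v : m → W) :
    D (α v) = (∑ r, α (Function.update v r (nabla e D (v r)))) + k * (D ϖ / ϖ) * α v := by
  have h : derivForm e D α = (k * (D ϖ / ϖ)) • α := by
    apply Basis.ext_multilinear (fun _ => e)
    intro s
    rw [derivForm_basis, smul_apply, smul_eq_mul]
    obtain ⟨q, hq⟩ := hα s
    rw [hq, Derivation.leibniz, Derivation.leibniz_pow]
    have h1 : D (q : ℂ) = 0 := derivation_eq_zero D _ (isAlgebraic_ratCast ℚ _)
    rw [h1, smul_zero, zero_add]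
    rcases k with _ | k
    · simp
    · have h3 : (k + 1 : ℕ) • ϖ ^ (k + 1 - 1) • D ϖ = ((k + 1 : ℕ) : ℂ) * (ϖ ^ k * D ϖ) := by
        rw [Nat.add_sub_cancel, nsmul_eq_mul, smul_eq_mul]
      rw [h3, smul_eq_mul, pow_succ]
      field_simp
  have h2 := congrArg (fun f => f v) h
  simp only [derivForm_apply, smul_apply, smul_eq_mul] at h2
  linear_combination h2

/-- infinitesimal invariance of de Rham-Betti classes -/
lemma opN_invariant (b : Basis ι ℂ W) (e : Basis κ ℂ W) (D : Derivation ℚ ℂ ℂ) (ϖ : ℂ)
    (hϖ : ϖ ≠ 0) (k : ℕ) (α : MultilinearMap ℂ (fun _ : m => W) ℂ)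
    (hA : ∀ s : m → κ, IsAlgebraic ℚ (α (fun r => e (s r))))
    (hB : ∀ s : m → ι, ∃ q : ℚ, α (fun r => b (s r)) = ϖ ^ k * q) (v : m → W) :
    ∑ r, α (Function.update v r (opN b e D (v r))) = k * (D ϖ / ϖ) * α v := by
  have h1 := derivForm_of_alg e D α hA v
  have h2 := derivForm_of_rat b D ϖ hϖ k α hB v
  simp only [opN_apply, MultilinearMap.map_update_sub, Finset.sum_sub_distrib]
  rw [← h1, h2]
  ring

end multilinear

section maps

variable {W W' : Type*} [AddCommGroup W] [Module ℂ W] [AddCommGroup W'] [Module ℂ W']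
  {κ ι κ' ι' : Type*} [Fintype κ] [Fintype ι] [Fintype κ'] [Fintype ι']

lemma repr_nabla (e : Basis κ ℂ W) (D : Derivation ℚ ℂ ℂ) (v : W) (k : κ) :
    e.repr (nabla e D v) k = D (e.repr v k) := by
  classical
  rw [nabla, map_sum, Finsupp.finsetSum_apply, Finset.sum_eq_single k]
  · rw [map_smul, Basis.repr_self, Finsupp.smul_single, Finsupp.single_eq_same, smul_eq_mul,
      mul_one]
  · intro j _ hj
    rw [map_smul, Basis.repr_self, Finsupp.smul_single, Finsupp.single_eq_of_ne (Ne.symm hj)]
  · intro hk; exact absurd (Finset.mem_univ _) hk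

lemma map_nabla (e : Basis κ ℂ W) (e' : Basis κ' ℂ W') (f : W →ₗ[ℂ] W')
    (hf : ∀ i k, IsAlgebraic ℚ (e'.repr (f (e i)) k)) (D : Derivation ℚ ℂ ℂ) (v : W) :
    f (nabla e D v) = nabla e' D (f v) := by
  have h1 : f v = ∑ i, e.repr v i • f (e i) := by
    conv_lhs => rw [← e.sum_repr v, map_sum]
    exact Finset.sum_congr rfl fun i _ => map_smul _ _ _
  rw [h1, nabla_sum, nabla, map_sum]
  refine Finset.sum_congr rfl fun i _ => ?_
  rw [map_smul, nabla_smul, nabla_eq_zero e' D _ (hf i), smul_zero, add_zero]

lemma alg_of_map_nabla (e : Basis κ ℂ W) (e' : Basis κ' ℂ W') (f : W →ₗ[ℂ] W')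
    (h : ∀ (D : Derivation ℚ ℂ ℂ) v, f (nabla e D v) = nabla e' D (f v)) (i : κ) (k : κ') :
    IsAlgebraic ℚ (e'.repr (f (e i)) k) := by
  apply isAlgebraic_of_nabla
  intro D
  rw [← h D, nabla_basis, map_zero]

/-- de Rham-Betti morphisms commute with the operators -/
lemma comm_opN (b : Basis ι ℂ W) (e : Basis κ ℂ W) (b' : Basis ι' ℂ W') (e' : Basis κ' ℂ W')
    (f : W →ₗ[ℂ] W') (hb : ∀ i k, IsAlgebraic ℚ (b'.repr (f (b i)) k))
    (he : ∀ i k, IsAlgebraic ℚ (e'.repr (f (e i)) k)) (D : Derivation ℚ ℂ ℂ) (v : W) :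
    f (opN b e D v) = opN b' e' D (f v) := by
  rw [opN_apply, opN_apply, map_sub, map_nabla e e' f he, map_nabla b b' f hb]

lemma alg_of_comm_opN (b : Basis ι ℂ W) (e : Basis κ ℂ W) (b' : Basis ι' ℂ W')
    (e' : Basis κ' ℂ W') (f : W →ₗ[ℂ] W') (hb : ∀ i k, IsAlgebraic ℚ (b'.repr (f (b i)) k))
    (h : ∀ (D : Derivation ℚ ℂ ℂ) v, f (opN b e D v) = opN b' e' D (f v)) (i : κ) (k : κ') :
    IsAlgebraic ℚ (e'.repr (f (e i)) k) := by
  apply alg_of_map_nabla
  intro D v
  have h1 := h D v
  rw [opN_apply, opN_apply, map_sub, map_nabla b b' f hb] at h1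
  have h2 := congrArg (fun w => w + nabla b' D (f v)) h1
  simpa using h2

/-- a subspace stable under all coordinatewise derivations is spanned by algebraic vectors -/
lemma le_span_algebraic (e : Basis κ ℂ W) (U : Submodule ℂ W)
    (hU : ∀ (D : Derivation ℚ ℂ ℂ), ∀ v ∈ U, nabla e D v ∈ U) :
    U ≤ Submodule.span ℂ {v | (∀ k, IsAlgebraic ℚ (e.repr v k)) ∧ v ∈ U} := by
  classical
  suffices H : ∀ n : ℕ, ∀ v ∈ U, (e.repr v).support.card ≤ n →
      v ∈ Submodule.span ℂ {v | (∀ k, IsAlgebraic ℚ (e.repr v k)) ∧ v ∈ U} from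
    fun v hv => H _ v hv le_rfl
  intro n
  induction n with
  | zero =>
    intro v _ hc
    have h1 : e.repr v = 0 := by
      rw [← Finsupp.support_eq_empty]
      exact Finset.card_eq_zero.mp (Nat.le_zero.mp hc)
    have h2 : v = 0 := by
      rw [← e.repr.map_eq_zero_iff]; exact h1
    rw [h2]; exact Submodule.zero_mem _
  | succ n ih =>
    intro v hv hc
    by_cases hv0 : e.repr v = 0
    · have h2 : v = 0 := by
        rw [← e.repr.map_eq_zero_iff]; exact hv0
      rw [h2]; exact Submodule.zero_mem _
    obtain ⟨k₀, hk₀⟩ := Finsupp.ne_iff.mp hv0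
    rw [Finsupp.zero_apply] at hk₀
    -- scale
    obtain ⟨w, hw⟩ : ∃ w : W, w = (e.repr v k₀)⁻¹ • v := ⟨_, rfl⟩
    have hwU : w ∈ U := by rw [hw]; exact U.smul_mem _ hv
    have hwk : e.repr w k₀ = 1 := by
      rw [hw, map_smul, Finsupp.smul_apply, smul_eq_mul, inv_mul_cancel₀ hk₀]
    have hwsupp : (e.repr w).support = (e.repr v).support := by
      rw [hw, map_smul, Finsupp.support_smul_eq (inv_ne_zero hk₀)]
    have hvw : v = e.repr v k₀ • w := by
      rw [hw, smul_smul, mul_inv_cancel₀ hk₀, one_smul]
    rw [hvw]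
    apply Submodule.smul_mem
    by_cases hall : ∀ D : Derivation ℚ ℂ ℂ, nabla e D w = 0
    · exact Submodule.subset_span ⟨fun k => isAlgebraic_of_nabla e w hall k, hwU⟩
    push Not at hall
    obtain ⟨D, hD⟩ := hall
    have hDU : nabla e D w ∈ U := hU D w hwU
    have hsub : (e.repr (nabla e D w)).support ⊆ (e.repr w).support.erase k₀ := by
      intro k hk
      rw [Finsupp.mem_support_iff, repr_nabla] at hk
      rw [Finset.mem_erase, Finsupp.mem_support_iff]
      constructor
      · rintro rfl
        rw [hwk] at hk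
        exact hk (derivation_eq_zero D 1 isAlgebraic_one)
      · intro h0
        rw [h0, map_zero] at hk
        exact hk rfl
    have hk₀mem : k₀ ∈ (e.repr w).support := by
      rw [Finsupp.mem_support_iff, hwk]; exact one_ne_zero
    have hcard : (e.repr (nabla e D w)).support.card ≤ n := by
      have h1 := Finset.card_le_card hsub
      rw [Finset.card_erase_of_mem hk₀mem, hwsupp] at h1
      omega
    have h3 := ih _ hDU hcard
    have hne : e.repr (nabla e D w) ≠ 0 := fun h => hD (by
      rw [← e.repr.map_eq_zero_iff]; exact h)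
    obtain ⟨j, hj⟩ := Finsupp.ne_iff.mp hne
    rw [Finsupp.zero_apply] at hj
    obtain ⟨u, hu⟩ : ∃ u : W, u = w - (e.repr w j / e.repr (nabla e D w) j) • nabla e D w :=
      ⟨_, rfl⟩
    have huU : u ∈ U := by rw [hu]; exact U.sub_mem hwU (U.smul_mem _ hDU)
    have hju : e.repr u j = 0 := by
      rw [hu, map_sub, map_smul, Finsupp.sub_apply, Finsupp.smul_apply, smul_eq_mul,
        div_mul_cancel₀ _ hj, sub_self]
    have hjw : j ∈ (e.repr w).support := by
      have : j ∈ (e.repr (nabla e D w)).support := Finsupp.mem_support_iff.mpr hj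
      exact Finset.mem_of_mem_erase (hsub this)
    have husub : (e.repr u).support ⊆ (e.repr w).support.erase j := by
      intro k hk
      rw [Finsupp.mem_support_iff] at hk
      rw [Finset.mem_erase, Finsupp.mem_support_iff]
      constructor
      · rintro rfl; exact hk hju
      · intro h0
        apply hk
        have h5 : e.repr (nabla e D w) k = 0 := by
          rw [repr_nabla, h0, map_zero]
        rw [hu, map_sub, map_smul, Finsupp.sub_apply, Finsupp.smul_apply, smul_eq_mul, h0, h5,
          mul_zero, sub_zero]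
    have hucard : (e.repr u).support.card ≤ n := by
      have h1 := Finset.card_le_card husub
      rw [Finset.card_erase_of_mem hjw, hwsupp] at h1
      omega
    have h4 := ih _ huU hucard
    have h5 : w = u + (e.repr w j / e.repr (nabla e D w) j) • nabla e D w := by
      rw [hu]; abel
    rw [h5]
    exact Submodule.add_mem _ h4 (Submodule.smul_mem _ _ h3)

end maps

end Pool.Agent.Helper7
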