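import Mathlib

/-!
Multiplicative relations between periods.
-/

namespace Pool.Agent.Helper7

open Module

section alg

lemma isAlg_prod {X : Type*} (t : Finset X) (f : X → ℂ) (h : ∀ x ∈ t, IsAlgebraic ℚ (f x)) :
    IsAlgebraic ℚ (∏ x ∈ t, f x) := by
  classical
  induction t using Finset.induction_on with
  | empty => rw [Finset.prod_empty]; exact isAlgebraic_one
  | insert a s ha ih =>
    rw [Finset.prod_insert ha]
    exact (h a (Finset.mem_insert_self a s)).mul
      (ih (fun x hx => h x (Finset.mem_insert_of_mem hx)))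

lemma isAlg_sum {X : Type*} (t : Finset X) (f : X → ℂ) (h : ∀ x ∈ t, IsAlgebraic ℚ (f x)) :
    IsAlgebraic ℚ (∑ x ∈ t, f x) := by
  classical
  induction t using Finset.induction_on with
  | empty => rw [Finset.sum_empty]; exact isAlgebraic_zero
  | insert a s ha ih =>
    rw [Finset.sum_insert ha]
    exact (h a (Finset.mem_insert_self a s)).add
      (ih (fun x hx => h x (Finset.mem_insert_of_mem hx)))

lemma isAlg_zpow {x : ℂ} (h : IsAlgebraic ℚ x) (n : ℤ) : IsAlgebraic ℚ (x ^ n) := by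
  cases n with
  | ofNat n => rw [Int.ofNat_eq_natCast, zpow_natCast]; exact h.pow n
  | negSucc n => rw [zpow_negSucc]; exact (h.pow _).inv

end alg

section weights

variable {T : Type*} [Fintype T]
variable {G : Type*} (act : G → T ≃ T) (c : T → T) (Ω : T → ℂ)

/-- the space of odd weights which are relations together with all their conjugates -/
def relSpace (hΩ : ∀ t, Ω t ≠ 0) : Submodule ℚ (T → ℚ) where
  carrier := {u | (∀ t, u (c t) = - u t) ∧ ∃ N : ℕ, N ≠ 0 ∧ ∃ m : T → ℤ,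
    (∀ t, (m t : ℚ) = N * u t) ∧ ∀ τ, IsAlgebraic ℚ (∏ t, Ω t ^ (m (act τ t)))}
  add_mem' := by
    rintro u v ⟨hu, N₁, hN₁, m₁, hm₁, ha₁⟩ ⟨hv, N₂, hN₂, m₂, hm₂, ha₂⟩
    refine ⟨fun t => ?_, N₁ * N₂, mul_ne_zero hN₁ hN₂, fun t => N₂ * m₁ t + N₁ * m₂ t, ?_, ?_⟩
    · simp only [Pi.add_apply, hu t, hv t]; ring
    · intro t
      push_cast
      rw [hm₁, hm₂, Pi.add_apply]; ring
    · intro τ
      have h : ∏ t, Ω t ^ ((N₂ : ℤ) * m₁ (act τ t) + N₁ * m₂ (act τ t)) =
          (∏ t, Ω t ^ (m₁ (act τ t))) ^ N₂ * (∏ t, Ω t ^ (m₂ (act τ t))) ^ N₁ := by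
        rw [← Finset.prod_pow, ← Finset.prod_pow, ← Finset.prod_mul_distrib]
        refine Finset.prod_congr rfl (fun t _ => ?_)
        rw [zpow_add₀ (hΩ t), mul_comm (N₂ : ℤ), mul_comm (N₁ : ℤ), zpow_mul, zpow_mul,
          zpow_natCast, zpow_natCast]
      rw [h]
      exact ((ha₁ τ).pow _).mul ((ha₂ τ).pow _)
  zero_mem' := by
    refine ⟨fun t => by simp, 1, one_ne_zero, fun _ => 0, fun t => by simp, fun τ => ?_⟩
    simp only [zpow_zero, Finset.prod_const_one]
    exact isAlgebraic_one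
  smul_mem' := by
    rintro q u ⟨hu, N, hN, m, hm, ha⟩
    refine ⟨fun t => by simp only [Pi.smul_apply, hu t, smul_eq_mul]; ring, N * q.den,
      mul_ne_zero hN q.den_nz, fun t => q.num * m t, ?_, ?_⟩
    · intro t
      push_cast
      rw [hm, Pi.smul_apply, smul_eq_mul]
      have : (q.num : ℚ) = q * q.den := (Rat.mul_den_eq_num q).symm
      rw [this]; ring
    · intro τ
      have h : ∏ t, Ω t ^ (q.num * m (act τ t)) = (∏ t, Ω t ^ (m (act τ t))) ^ q.num := by
        rw [← Finset.prod_zpow]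
        refine Finset.prod_congr rfl (fun t _ => ?_)
        rw [mul_comm, zpow_mul]
      rw [h]
      exact isAlg_zpow (ha τ) _

lemma relSpace_stable (hΩ : ∀ t, Ω t ≠ 0) (mul : G → G → G)
    (hmul : ∀ τ τ' t, act (mul τ τ') t = act τ (act τ' t))
    (hc : ∀ τ t, act τ (c t) = c (act τ t)) (τ : G) (u : T → ℚ)
    (hu : u ∈ relSpace act c Ω hΩ) : (fun t => u (act τ t)) ∈ relSpace act c Ω hΩ := by
  obtain ⟨h1, N, hN, m, hm, ha⟩ := hu
  refine ⟨fun t => ?_, N, hN, fun t => m (act τ t), fun t => hm _, fun τ' => ?_⟩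
  · show u (act τ (c t)) = - u (act τ t)
    rw [hc, h1]
  · have := ha (mul τ τ')
    simpa only [hmul] using this

lemma prod_count [DecidableEq T] {m : ℕ} (s : Fin m → T) (f : T → ℂ) :
    ∏ t, f t ^ (Fintype.card {r // s r = t}) = ∏ r, f (s r) := by
  rw [← Finset.prod_fiberwise (s := Finset.univ) (g := s) (f := fun r => f (s r))]
  refine Finset.prod_congr rfl (fun t _ => ?_)
  rw [Finset.prod_congr rfl (g := fun _ => f t) (fun r hr => by
    rw [(Finset.mem_filter.mp hr).2])]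
  rw [Finset.prod_const, Fintype.card_subtype]

lemma mem_relSpace [DecidableEq T] (hΩ : ∀ t, Ω t ≠ 0) (inv : G → G)
    (hinv : ∀ τ t, act τ (act (inv τ) t) = t)
    (hcc : ∀ t, c (c t) = t)
    (hc : ∀ τ t, act τ (c t) = c (act τ t)) (ϖ : ℂ) (hϖ : ϖ ≠ 0)
    (hLeg : ∀ t, ∃ a : ℂ, IsAlgebraic ℚ a ∧ a ≠ 0 ∧ Ω t * Ω (c t) = ϖ * a)
    {k : ℕ} (s : Fin (2 * k) → T)
    (hs : ∀ τ, ∃ a : ℂ, IsAlgebraic ℚ a ∧ a ≠ 0 ∧ ∏ r, Ω (act τ (s r)) = ϖ ^ k * a) :
    (fun t => ((Fintype.card {r // s r = t} : ℚ) - Fintype.card {r // s r = c t})) ∈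
      relSpace act c Ω hΩ := by
  refine ⟨fun t => ?_, 1, one_ne_zero,
    fun t => (Fintype.card {r // s r = t} : ℤ) - Fintype.card {r // s r = c t}, ?_, ?_⟩
  · simp only [hcc]; ring
  · intro t; push_cast; ring
  · intro τ
    obtain ⟨a, ha, ha0, hprod⟩ := hs (inv τ)
    choose b hb hb0 hbeq using hLeg
    -- reindex
    have h1 : ∏ t, Ω t ^ ((Fintype.card {r // s r = act τ t} : ℤ) -
        Fintype.card {r // s r = c (act τ t)}) =
        ∏ t, Ω (act (inv τ) t) ^ ((Fintype.card {r // s r = t} : ℤ) -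
        Fintype.card {r // s r = c t}) := by
      refine Fintype.prod_equiv (act τ) _ _ (fun t => ?_)
      have : act (inv τ) (act τ t) = t := by
        apply (act τ).injective
        rw [hinv]
      rw [this]
    rw [h1]
    have h2 : ∏ t, Ω (act (inv τ) t) ^ ((Fintype.card {r // s r = t} : ℤ) -
        Fintype.card {r // s r = c t}) =
        (∏ r, Ω (act (inv τ) (s r))) / (∏ r, Ω (c (act (inv τ) (s r)))) := by
      rw [← prod_count s (fun t => Ω (act (inv τ) t)),
        ← prod_count s (fun t => Ω (c (act (inv τ) t)))]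
      have h3 : ∏ t, Ω (c (act (inv τ) t)) ^ (Fintype.card {r // s r = t}) =
          ∏ t, Ω (act (inv τ) t) ^ (Fintype.card {r // s r = c t}) := by
        let ce : T ≃ T := ⟨c, c, hcc, hcc⟩
        refine Fintype.prod_equiv ce _ _ (fun t => ?_)
        show _ = Ω (act (inv τ) (c t)) ^ (Fintype.card {r // s r = c (c t)})
        rw [hc]
        simp only [hcc]
      rw [h3, ← Finset.prod_div_distrib]
      refine Finset.prod_congr rfl (fun t _ => ?_)
      rw [zpow_sub₀ (hΩ _), zpow_natCast, zpow_natCast]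
    rw [h2]
    have h4 : (∏ r, Ω (act (inv τ) (s r))) * (∏ r, Ω (c (act (inv τ) (s r)))) =
        ϖ ^ (2 * k) * ∏ r, b (act (inv τ) (s r)) := by
      rw [← Finset.prod_mul_distrib]
      simp only [hbeq]
      rw [Finset.prod_mul_distrib, Finset.prod_const, Finset.card_univ, Fintype.card_fin]
    have h5 : (∏ r, Ω (act (inv τ) (s r))) / (∏ r, Ω (c (act (inv τ) (s r)))) =
        a ^ 2 / ∏ r, b (act (inv τ) (s r)) := by
      have hy : (∏ r, Ω (c (act (inv τ) (s r)))) ≠ 0 :=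
        Finset.prod_ne_zero_iff.mpr (fun r _ => hΩ _)
      have hbb : (∏ r, b (act (inv τ) (s r))) ≠ 0 :=
        Finset.prod_ne_zero_iff.mpr (fun r _ => hb0 _)
      rw [div_eq_div_iff hy hbb]
      rw [hprod] at h4 ⊢
      have hϖk : ϖ ^ k ≠ 0 := pow_ne_zero _ hϖ
      apply mul_left_cancel₀ hϖk
      have : ϖ ^ (2 * k) = ϖ ^ k * ϖ ^ k := by rw [two_mul, pow_add]
      rw [this] at h4
      linear_combination (-a) * h4
    rw [h5]
    exact (ha.pow 2).mul (isAlg_prod _ _ (fun r _ => hb _)).inv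

end weights

end Pool.Agent.Helper7
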