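import Pool.Agent.Helper7.Eigen
import Pool.Agent.Helper7.Weights

/-!
Eigenbasis of the first homology of a CM abelian variety.
-/

namespace Pool.Agent.Helper7

open Module

section single

variable {L : Type*} [Field L] [NumberField L]
variable {κ : Type*} [Fintype κ] [DecidableEq κ]
variable {ι : Type*} [Fintype ι]

lemma isAlg_emb (σ : L →+* ℂ) (x : L) : IsAlgebraic ℚ (σ x) := by
  have h : IsAlgebraic ℚ x := Algebra.IsAlgebraic.isAlgebraic x
  have := h.algHom σ.toRatAlgHom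
  simpa using this

omit [Fintype κ] [DecidableEq κ] in
lemma proj_apply (ρ : L →+* Module.End ℂ (κ → ℂ)) (σ : L →+* ℂ) (v : κ → ℂ) :
    proj ρ σ v = ∑ b, σ (dbas L b) • ρ (bas L b) v := by
  simp [proj]

variable (bB : Basis ι ℂ (κ → ℂ)) (ρ : L →+* Module.End ℂ (κ → ℂ))
  (hρQ : ∀ x, ∀ v ∈ Submodule.span ℚ (Set.range bB), ρ x v ∈ Submodule.span ℚ (Set.range bB))
  (hdeg : finrank ℚ L = Fintype.card κ)

include hρQ hdeg in
lemma span_orbit (lam : κ → ℂ) (hlam : lam ∈ Submodule.span ℚ (Set.range bB)) (h0 : lam ≠ 0) :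
    ⊤ ≤ Submodule.span ℂ (Set.range (fun b => ρ (bas L b) lam)) := by
  classical
  set Q := Submodule.span ℚ (Set.range bB) with hQ
  have hcardι : Fintype.card ι = Fintype.card κ := by
    have h1 := Module.finrank_eq_card_basis bB
    rw [Module.finrank_fintype_fun_eq_card] at h1
    exact h1.symm
  have hfin : finrank ℚ Q = Fintype.card ι := by
    apply finrank_span_eq_card
    exact bB.linearIndependent.restrict_scalars (by
      intro a b h
      simpa using h)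
  have hQfin : Module.Finite ℚ Q := Module.Finite.span_of_finite ℚ (Set.finite_range bB)
  let w : Fin (finrank ℚ L) → Q := fun b => ⟨ρ (bas L b) lam, hρQ _ _ hlam⟩
  have hw : LinearIndependent ℚ w := by
    rw [Fintype.linearIndependent_iff]
    intro q hq
    have h1 : ρ (∑ b, q b • bas L b) lam = 0 := by
      have h2 := congrArg Subtype.val hq
      rw [map_sum, LinearMap.sum_apply]
      simp only [rho_ratsmul, LinearMap.smul_apply]
      simp only [w, AddSubmonoidClass.coe_finset_sum, SetLike.val_smul, ZeroMemClass.coe_zero] at h2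
      rw [← h2]
      refine Finset.sum_congr rfl (fun b _ => ?_)
      ext j
      simp [Algebra.smul_def]
    have h2 : (∑ b, q b • bas L b) = 0 := by
      by_contra h3
      apply h0
      have h4 : ρ ((∑ b, q b • bas L b)⁻¹ * (∑ b, q b • bas L b)) lam = 0 := by
        rw [map_mul, Module.End.mul_apply, h1, map_zero]
      rw [inv_mul_cancel₀ h3, map_one] at h4
      exact h4
    exact fun b => (Fintype.linearIndependent_iff.mp (bas L).linearIndependent) q h2 b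
  have hspan : Submodule.span ℚ (Set.range w) = ⊤ := by
    have : Nonempty (Fin (finrank ℚ L)) := ⟨⟨0, Module.finrank_pos⟩⟩
    apply hw.span_eq_top_of_card_eq_finrank
    rw [Fintype.card_fin, hfin, hcardι, hdeg]
  have hsub : ∀ v ∈ Q, v ∈ Submodule.span ℂ (Set.range (fun b => ρ (bas L b) lam)) := by
    intro v hv
    have h1 : (⟨v, hv⟩ : Q) ∈ Submodule.span ℚ (Set.range w) := by rw [hspan]; trivial
    obtain ⟨q, hq⟩ := (Submodule.mem_span_range_iff_exists_fun ℚ).mp h1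
    have h2 := congrArg Subtype.val hq
    simp only [w, AddSubmonoidClass.coe_finset_sum, SetLike.val_smul] at h2
    rw [← h2]
    apply Submodule.sum_mem
    intro b _
    have : (q b • ρ (bas L b) lam) = ((q b : ℚ) : ℂ) • ρ (bas L b) lam := by
      ext j; simp [Algebra.smul_def]
    rw [this]
    exact Submodule.smul_mem _ _ (Submodule.subset_span ⟨b, rfl⟩)
  rw [← bB.span_eq, Submodule.span_le]
  rintro _ ⟨i, rfl⟩
  exact hsub _ (Submodule.subset_span ⟨i, rfl⟩)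

include hρQ hdeg in
lemma exists_eigenbasis (lam : κ → ℂ) (hlam : lam ∈ Submodule.span ℚ (Set.range bB))
    (h0 : lam ≠ 0) :
    ∃ eb : Basis (L →+* ℂ) ℂ (κ → ℂ), ∀ σ, eb σ = proj ρ σ lam := by
  have h1 : ⊤ ≤ Submodule.span ℂ (Set.range (fun σ : L →+* ℂ => proj ρ σ lam)) := by
    refine le_trans (span_orbit bB ρ hρQ hdeg lam hlam h0) ?_
    rw [Submodule.span_le]
    rintro _ ⟨b, rfl⟩
    show ρ (bas L b) lam ∈ Submodule.span ℂ (Set.range (fun σ : L →+* ℂ => proj ρ σ lam))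
    rw [rho_eq_sum, LinearMap.sum_apply]
    apply Submodule.sum_mem
    intro σ _
    rw [LinearMap.smul_apply]
    exact Submodule.smul_mem _ _ (Submodule.subset_span ⟨σ, rfl⟩)
  have h2 : Fintype.card (L →+* ℂ) = finrank ℂ (κ → ℂ) := by
    rw [card_emb, hdeg, Module.finrank_fintype_fun_eq_card]
  refine ⟨basisOfTopLeSpanOfCardEqFinrank _ h1 h2, fun σ => ?_⟩
  rw [coe_basisOfTopLeSpanOfCardEqFinrank]

omit [Fintype κ] [DecidableEq κ] in
lemma proj_apply_eb (eb : Basis (L →+* ℂ) ℂ (κ → ℂ)) (lam : κ → ℂ)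
    (heb : ∀ σ, eb σ = proj ρ σ lam) (σ : L →+* ℂ) (v : κ → ℂ) :
    proj ρ σ v = eb.repr v σ • eb σ := by
  classical
  conv_lhs => rw [← eb.sum_repr v]
  rw [map_sum, Finset.sum_eq_single σ]
  · rw [map_smul, heb, ← Module.End.mul_apply, proj_mul_proj, if_pos rfl]
  · intro τ _ hτ
    rw [map_smul, heb, ← Module.End.mul_apply, proj_mul_proj, if_neg hτ.symm]
    simp
  · intro h; exact absurd (Finset.mem_univ _) h

omit [Fintype κ] [DecidableEq κ] in
lemma rho_apply_eb (eb : Basis (L →+* ℂ) ℂ (κ → ℂ)) (lam : κ → ℂ)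
    (heb : ∀ σ, eb σ = proj ρ σ lam) (σ : L →+* ℂ) (x : L) :
    ρ x (eb σ) = σ x • eb σ := by
  rw [heb, ← Module.End.mul_apply, rho_mul_proj, LinearMap.smul_apply]

variable (hρalg : ∀ x i j, IsAlgebraic ℚ (ρ x (Pi.single i 1) j))

include hρalg in
lemma exists_periods (eb : Basis (L →+* ℂ) ℂ (κ → ℂ)) (lam : κ → ℂ)
    (heb : ∀ σ, eb σ = proj ρ σ lam) :
    ∃ (Ω : (L →+* ℂ) → ℂ) (ε : (L →+* ℂ) → (κ → ℂ)), (∀ σ, Ω σ ≠ 0) ∧
      (∀ σ j, IsAlgebraic ℚ (ε σ j)) ∧ ∀ σ, eb σ = Ω σ • ε σ := by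
  have h : ∀ σ : L →+* ℂ, ∃ (Ω : ℂ) (ε : κ → ℂ), Ω ≠ 0 ∧ (∀ j, IsAlgebraic ℚ (ε j)) ∧
      eb σ = Ω • ε := by
    intro σ
    obtain ⟨i, hi⟩ : ∃ i : κ, proj ρ σ (Pi.single i 1) ≠ 0 := by
      by_contra hcon
      push Not at hcon
      have h1 : proj ρ σ = 0 := by
        apply LinearMap.pi_ext'
        intro i
        apply LinearMap.ext_ring
        simpa using hcon i
      have h2 := heb σ
      rw [h1, LinearMap.zero_apply] at h2
      exact eb.ne_zero σ h2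
    have h1 := proj_apply_eb ρ eb lam heb σ (Pi.single i 1)
    have hc : eb.repr (Pi.single i 1) σ ≠ 0 := by
      intro h2
      rw [h2, zero_smul] at h1
      exact hi h1
    refine ⟨(eb.repr (Pi.single i 1) σ)⁻¹, proj ρ σ (Pi.single i 1), inv_ne_zero hc, ?_, ?_⟩
    · intro j
      rw [proj_apply, Finset.sum_apply]
      apply isAlg_sum
      intro b _
      rw [Pi.smul_apply, smul_eq_mul]
      exact (isAlg_emb _ _).mul (hρalg _ _ _)
    · rw [h1, smul_smul, inv_mul_cancel₀ hc, one_smul]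
  choose Ω ε h1 h2 h3 using h
  exact ⟨Ω, ε, h1, h2, h3⟩

lemma bilin_expand (ψ : (κ → ℂ) →ₗ[ℂ] (κ → ℂ) →ₗ[ℂ] ℂ) (u v : κ → ℂ) :
    ψ u v = ∑ i, ∑ j, u i * v j * ψ (Pi.single i 1) (Pi.single j 1) := by
  have hu : u = ∑ i, u i • (Pi.single i (1 : ℂ) : κ → ℂ) := by
    ext j; simp [Finset.sum_apply, Pi.single_apply]
  have hv : v = ∑ i, v i • (Pi.single i (1 : ℂ) : κ → ℂ) := by
    ext j; simp [Finset.sum_apply, Pi.single_apply]
  conv_lhs => rw [hu, hv]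
  rw [LinearMap.map_sum₂]
  refine Finset.sum_congr rfl (fun i _ => ?_)
  rw [map_sum]
  refine Finset.sum_congr rfl (fun j _ => ?_)
  rw [map_smul, map_smul, LinearMap.smul_apply, smul_eq_mul, smul_eq_mul]
  ring

lemma psi_alg (ψ : (κ → ℂ) →ₗ[ℂ] (κ → ℂ) →ₗ[ℂ] ℂ)
    (hψalg : ∀ i j, IsAlgebraic ℚ (ψ (Pi.single i 1) (Pi.single j 1))) (u v : κ → ℂ)
    (hu : ∀ i, IsAlgebraic ℚ (u i)) (hv : ∀ i, IsAlgebraic ℚ (v i)) :
    IsAlgebraic ℚ (ψ u v) := by
  rw [bilin_expand]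
  exact isAlg_sum _ _ (fun i _ => isAlg_sum _ _ (fun j _ =>
    ((hu i).mul (hv j)).mul (hψalg i j)))

variable (ψ : (κ → ℂ) →ₗ[ℂ] (κ → ℂ) →ₗ[ℂ] ℂ)
  (hψalg : ∀ i j, IsAlgebraic ℚ (ψ (Pi.single i 1) (Pi.single j 1)))
  (ϖ : ℂ)
  (hψQ : ∀ u ∈ Submodule.span ℚ (Set.range bB), ∀ v ∈ Submodule.span ℚ (Set.range bB),
    ∃ q : ℚ, ψ u v = ϖ * q)
  (hψnd : ∀ u, (∀ v, ψ u v = 0) → u = 0)
  (cc : L → L) (hcc : ∀ (σ : L →+* ℂ) x, σ (cc x) = starRingEnd ℂ (σ x))
  (hros : ∀ x u v, ψ (ρ x u) v = ψ u (ρ (cc x) v))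

include hcc hros in
lemma psi_eb_eq_zero (eb : Basis (L →+* ℂ) ℂ (κ → ℂ)) (lam : κ → ℂ)
    (heb : ∀ σ, eb σ = proj ρ σ lam) (σ τ : L →+* ℂ)
    (h : τ ≠ NumberField.ComplexEmbedding.conjugate σ) : ψ (eb σ) (eb τ) = 0 := by
  by_contra h0
  apply h
  ext x
  have h1 := hros x (eb σ) (eb τ)
  rw [rho_apply_eb ρ eb lam heb, rho_apply_eb ρ eb lam heb, map_smul, map_smul,
    LinearMap.smul_apply, smul_eq_mul, smul_eq_mul, hcc] at h1
  have h2 := mul_right_cancel₀ h0 h1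
  rw [NumberField.ComplexEmbedding.conjugate_coe_eq, h2, Complex.conj_conj]

include hcc hros hψnd in
lemma psi_eb_ne_zero (eb : Basis (L →+* ℂ) ℂ (κ → ℂ)) (lam : κ → ℂ)
    (heb : ∀ σ, eb σ = proj ρ σ lam) (σ : L →+* ℂ) :
    ψ (eb σ) (eb (NumberField.ComplexEmbedding.conjugate σ)) ≠ 0 := by
  intro h
  apply eb.ne_zero σ
  apply hψnd
  intro v
  rw [← eb.sum_repr v, map_sum]
  apply Finset.sum_eq_zero
  intro τ _
  rw [map_smul]
  by_cases hτ : τ = NumberField.ComplexEmbedding.conjugate σ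
  · subst hτ; rw [h, smul_zero]
  · rw [psi_eb_eq_zero ρ ψ cc hcc hros eb lam heb σ τ hτ, smul_zero]

include hρQ hψQ in
lemma psi_eb_alg (eb : Basis (L →+* ℂ) ℂ (κ → ℂ)) (lam : κ → ℂ)
    (hlam : lam ∈ Submodule.span ℚ (Set.range bB))
    (heb : ∀ σ, eb σ = proj ρ σ lam) (σ τ : L →+* ℂ) :
    ∃ a : ℂ, IsAlgebraic ℚ a ∧ ψ (eb σ) (eb τ) = ϖ * a := by
  have h : ∀ b c, ∃ q : ℚ, ψ (ρ (bas L b) lam) (ρ (bas L c) lam) = ϖ * q := fun b c =>
    hψQ _ (hρQ _ _ hlam) _ (hρQ _ _ hlam)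
  choose q hq using h
  refine ⟨∑ b, ∑ c, σ (dbas L b) * τ (dbas L c) * (q b c : ℂ), ?_, ?_⟩
  · exact isAlg_sum _ _ (fun b _ => isAlg_sum _ _ (fun c _ =>
      ((isAlg_emb _ _).mul (isAlg_emb _ _)).mul (isAlgebraic_rat ℚ _)))
  · rw [heb, heb, proj_apply, proj_apply, LinearMap.map_sum₂, Finset.mul_sum]
    refine Finset.sum_congr rfl (fun b _ => ?_)
    rw [map_smul, LinearMap.smul_apply, map_sum, Finset.smul_sum, Finset.mul_sum]
    refine Finset.sum_congr rfl (fun c _ => ?_)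
    rw [map_smul, hq, smul_eq_mul, smul_eq_mul]
    ring

include hρQ hψalg hψQ hψnd hcc hros in
lemma legendre (eb : Basis (L →+* ℂ) ℂ (κ → ℂ)) (lam : κ → ℂ)
    (hlam : lam ∈ Submodule.span ℚ (Set.range bB))
    (heb : ∀ σ, eb σ = proj ρ σ lam) (Ω : (L →+* ℂ) → ℂ) (ε : (L →+* ℂ) → (κ → ℂ))
    (hε : ∀ σ j, IsAlgebraic ℚ (ε σ j)) (hΩε : ∀ σ, eb σ = Ω σ • ε σ)
    (σ : L →+* ℂ) :
    ∃ a : ℂ, IsAlgebraic ℚ a ∧ a ≠ 0 ∧
      Ω σ * Ω (NumberField.ComplexEmbedding.conjugate σ) = ϖ * a := by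
  obtain ⟨a, ha, hae⟩ := psi_eb_alg bB ρ hρQ ψ ϖ hψQ eb lam hlam heb σ
    (NumberField.ComplexEmbedding.conjugate σ)
  have hne := psi_eb_ne_zero ρ ψ hψnd cc hcc hros eb lam heb σ
  have h1 : ψ (eb σ) (eb (NumberField.ComplexEmbedding.conjugate σ)) =
      (Ω σ * Ω (NumberField.ComplexEmbedding.conjugate σ)) *
        ψ (ε σ) (ε (NumberField.ComplexEmbedding.conjugate σ)) := by
    rw [hΩε, hΩε (NumberField.ComplexEmbedding.conjugate σ), map_smul, map_smul,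
      LinearMap.smul_apply, smul_eq_mul, smul_eq_mul]
    ring
  have h2 : ψ (ε σ) (ε (NumberField.ComplexEmbedding.conjugate σ)) ≠ 0 := by
    intro h; rw [h, mul_zero] at h1; exact hne h1
  have h3 : a ≠ 0 := by
    intro h; rw [h, mul_zero] at hae; exact hne hae
  refine ⟨a / ψ (ε σ) (ε (NumberField.ComplexEmbedding.conjugate σ)), ?_, div_ne_zero h3 h2, ?_⟩
  · exact ha.mul (psi_alg ψ hψalg _ _ (hε _) (hε _)).inv
  · rw [h1] at hae
    field_simp
    linear_combination hae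

end single

end Pool.Agent.Helper7
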