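import Pool.Agent.Helper7.Wedge

/-!
Pairing up a balanced sequence.
-/

namespace Pool.Agent.Helper7

open Module Equiv

lemma exists_pairing {T : Type*} [Fintype T] [DecidableEq T] (c : T → T) (hc : ∀ t, c (c t) = t)
    (hc' : ∀ t, c t ≠ t) {k : ℕ} (g : Fin (2 * k) → T)
    (hbal : ∀ t, Fintype.card {r // g r = t} = Fintype.card {r // g r = c t}) :
    ∃ π : Perm (Fin (2 * k)), ∀ a, g (π (hi a)) = c (g (π (lo a))) := by
  classical
  -- a bijection which conjugates the types
  have hcard : ∀ t, Fintype.card {r // c (g r) = t} = Fintype.card {r // g r = t} := by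
    intro t
    rw [hbal t]
    apply Fintype.card_congr
    apply Equiv.subtypeEquivRight
    intro r
    constructor
    · intro h; rw [← h, hc]
    · intro h; rw [h, hc]
  let Φ : Fin (2 * k) ≃ Fin (2 * k) :=
    Equiv.ofFiberEquiv (f := fun r => c (g r)) (g := g) (fun t => Fintype.equivOfCardEq (hcard t))
  have hΦ : ∀ r, g (Φ r) = c (g r) := fun r => Equiv.ofFiberEquiv_map _ r
  -- a choice of representatives
  let e : T ≃ Fin (Fintype.card T) := Fintype.equivFin T
  let P : T → Prop := fun t => e t < e (c t)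
  have hP : ∀ t, P (c t) ↔ ¬ P t := by
    intro t
    simp only [P, hc]
    have : e t ≠ e (c t) := fun h => hc' t (e.injective h).symm
    constructor
    · intro h; exact not_lt.mpr h.le
    · intro h; exact lt_of_le_of_ne (not_lt.mp h) this.symm
  have hcardP : Fintype.card {r // P (g r)} = k := by
    have h1 : Fintype.card {r // P (g r)} + Fintype.card {r // ¬ P (g r)} = 2 * k := by
      have := Fintype.card_subtype_compl (fun r => P (g r))
      rw [this]
      have h2 : Fintype.card {r // P (g r)} ≤ Fintype.card (Fin (2 * k)) :=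
        Fintype.card_subtype_le _
      rw [Nat.add_sub_cancel' h2, Fintype.card_fin]
    have h2 : Fintype.card {r // P (g r)} = Fintype.card {r // ¬ P (g r)} := by
      apply Fintype.card_congr
      refine ⟨fun r => ⟨Φ r.1, ?_⟩, fun r => ⟨Φ.symm r.1, ?_⟩, ?_, ?_⟩
      · rw [hΦ, hP]; exact not_not.mpr r.2
      · have h3 := hΦ (Φ.symm r.1)
        rw [Equiv.apply_symm_apply] at h3
        have h4 : ¬ P (g r.1) := r.2
        rw [h3, hP, not_not] at h4
        exact h4
      · intro r; simp
      · intro r; simp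
    omega
  let ε : Fin k ≃ {r // P (g r)} := (Fintype.equivFinOfCardEq hcardP).symm
  let F : Fin (2 * k) → Fin (2 * k) := fun r =>
    if r.1 % 2 = 0 then (ε ⟨r.1 / 2, by omega⟩).1 else Φ (ε ⟨r.1 / 2, by omega⟩).1
  have hFlo : ∀ a, F (lo a) = (ε a).1 := by
    intro a
    have h1 : (lo a).1 % 2 = 0 := by simp only [lo]; omega
    have h2 : (⟨(lo a).1 / 2, by omega⟩ : Fin k) = a := by
      apply Fin.ext; simp only [lo]; omega
    simp only [F]
    rw [if_pos h1, h2]
  have hFhi : ∀ a, F (hi a) = Φ (ε a).1 := by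
    intro a
    have h1 : ¬ (hi a).1 % 2 = 0 := by simp only [hi]; omega
    have h2 : (⟨(hi a).1 / 2, by omega⟩ : Fin k) = a := by
      apply Fin.ext; simp only [hi]; omega
    simp only [F]
    rw [if_neg h1, h2]
  have hFinj : Function.Injective F := by
    intro r r' h
    obtain ⟨a, ha | ha⟩ := eq_lo_or_hi r <;> obtain ⟨b, hb | hb⟩ := eq_lo_or_hi r' <;>
      subst ha <;> subst hb
    · rw [hFlo, hFlo] at h
      rw [ε.injective (Subtype.ext h)]
    · rw [hFlo, hFhi] at h
      exfalso
      have h1 : P (g (ε a).1) := (ε a).2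
      rw [h, hΦ, hP] at h1
      exact h1 (ε b).2
    · rw [hFlo, hFhi] at h
      exfalso
      have h1 : P (g (ε b).1) := (ε b).2
      rw [← h, hΦ, hP] at h1
      exact h1 (ε a).2
    · rw [hFhi, hFhi] at h
      rw [ε.injective (Subtype.ext (Φ.injective h))]
  let π : Perm (Fin (2 * k)) := Equiv.ofBijective F (Finite.injective_iff_bijective.mp hFinj)
  refine ⟨π, fun a => ?_⟩
  show g (F (hi a)) = c (g (F (lo a)))
  rw [hFlo, hFhi, hΦ]

end Pool.Agent.Helper7
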