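import Pool.Agent.Helper7.J4
import Pool.Agent.Helper8.Lie.Classify

/-!
Preparations for the labels with spaces of dimension at most two.
-/

namespace Pool.Agent.Helper7

open Module NumberField LieAlgebra

attribute [local instance 100] LieRing.ofAssociativeRing

open Pool.Agent.GPC (Emb)
open Pool.Agent.Helper8 (Symp Principal)

set_option linter.unusedSectionVars false

section lie

variable {L : Type*} [LieRing L] [LieAlgebra ℂ L] (p : Principal L) {V : Type*} [AddCommGroup V]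
  [Module ℂ V] [LieRingModule L V] [LieModule ℂ L V] [FiniteDimensional ℂ V]
  [LieModule.IsIrreducible ℂ L V] {ω : V →ₗ[ℂ] V →ₗ[ℂ] ℂ} (hω : Symp L ω)

include p hω in
/-- on an irreducible symplectic module of dimension two every operator of trace zero is in the
image -/
theorem surj_dim2 (hd : finrank ℂ V = 2) (Y : Module.End ℂ V) (hY : LinearMap.trace ℂ V Y = 0) :
    ∃ a : L, ∀ v, ⁅a, v⁆ = Y v := by
  obtain ⟨Fr⟩ := p.frame_dim2 hω hd
  have he0 : ⁅p.e, Fr.b 0⁆ = 0 := by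
    have h := Fr.e_b 0
    rw [Principal.rep_e] at h
    rw [h]
    simp [Pool.Agent.Helper8.up2]
  have he1 : ⁅p.e, Fr.b 1⁆ = Fr.b 0 := by
    have h := Fr.e_b 1
    rw [Principal.rep_e] at h
    rw [h]
    simp [Pool.Agent.Helper8.up2]
  have hh0 : ⁅p.h, Fr.b 0⁆ = Fr.b 0 := by
    have h := Fr.h_b 0
    rw [Principal.rep_h] at h
    rw [h]
    simp [Pool.Agent.Helper8.wt2]
  have hh1 : ⁅p.h, Fr.b 1⁆ = - Fr.b 1 := by
    have h := Fr.h_b 1
    rw [Principal.rep_h] at h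
    rw [h]
    simp [Pool.Agent.Helper8.wt2]
  have hexp : ∀ v : V, v = Fr.b.repr v 0 • Fr.b 0 + Fr.b.repr v 1 • Fr.b 1 := by
    intro v
    conv_lhs => rw [← Fr.b.sum_repr v]
    rw [Fin.sum_univ_two]
  have hlin : ∀ a b c d : ℂ, a • Fr.b 0 + b • Fr.b 1 = c • Fr.b 0 + d • Fr.b 1 → a = c ∧ b = d := by
    intro a b c d h
    have h0 := congrArg (fun v => Fr.b.repr v 0) h
    have h1 := congrArg (fun v => Fr.b.repr v 1) h
    simp at h0 h1
    exact ⟨h0, h1⟩
  -- the lowering operator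
  have hf0 : ⁅p.f, Fr.b 0⁆ = Fr.b 1 := by
    obtain ⟨c, d, hcd⟩ : ∃ c d : ℂ, ⁅p.f, Fr.b 0⁆ = c • Fr.b 0 + d • Fr.b 1 := ⟨_, _, hexp _⟩
    have h1 : ⁅p.h, ⁅p.f, Fr.b 0⁆⁆ = - ⁅p.f, Fr.b 0⁆ := by
      rw [leibniz_lie, p.hf, hh0, smul_lie]
      module
    rw [hcd, lie_add, lie_smul, lie_smul, hh0, hh1] at h1
    obtain ⟨h2, -⟩ := hlin c (-d) (-c) (-d) (by
      rw [neg_smul, neg_smul, ← smul_neg, h1]; module)
    have hc : c = 0 := by linear_combination h2 / 2
    have h3 : ⁅p.e, ⁅p.f, Fr.b 0⁆⁆ = Fr.b 0 := by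
      rw [leibniz_lie, p.ef, hh0, he0, lie_zero, add_zero]
    rw [hcd, lie_add, lie_smul, lie_smul, he0, he1, hc] at h3
    obtain ⟨h4, -⟩ := hlin d 0 1 0 (by simpa using h3)
    rw [hcd, hc, h4]; module
  have hf1 : ⁅p.f, Fr.b 1⁆ = 0 := by
    obtain ⟨c, d, hcd⟩ : ∃ c d : ℂ, ⁅p.f, Fr.b 1⁆ = c • Fr.b 0 + d • Fr.b 1 := ⟨_, _, hexp _⟩
    have h1 : ⁅p.h, ⁅p.f, Fr.b 1⁆⁆ = (-3 : ℂ) • ⁅p.f, Fr.b 1⁆ := by
      rw [leibniz_lie, p.hf, hh1, smul_lie, lie_neg]
      module
    rw [hcd, lie_add, lie_smul, lie_smul, hh0, hh1] at h1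
    obtain ⟨h2, h3⟩ := hlin c (-d) (-3 * c) (-3 * d) (by
      rw [neg_smul, ← smul_neg, h1]; module)
    have hc : c = 0 := by linear_combination h2 / 4
    have hd : d = 0 := by linear_combination h3 / 2
    rw [hcd, hc, hd]; module
  -- the operator
  obtain ⟨a, c, hac⟩ : ∃ a c : ℂ, Y (Fr.b 0) = a • Fr.b 0 + c • Fr.b 1 := ⟨_, _, hexp _⟩
  obtain ⟨b, d, hbd⟩ : ∃ b d : ℂ, Y (Fr.b 1) = b • Fr.b 0 + d • Fr.b 1 := ⟨_, _, hexp _⟩
  have htr : a + d = 0 := by
    rw [LinearMap.trace_eq_matrix_trace ℂ Fr.b, Matrix.trace, Fin.sum_univ_two,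
      Matrix.diag_apply, Matrix.diag_apply, LinearMap.toMatrix_apply, LinearMap.toMatrix_apply,
      hac, hbd] at hY
    simpa using hY
  refine ⟨a • p.h + b • p.e + c • p.f, fun v => ?_⟩
  have hv : ∀ j, ⁅a • p.h + b • p.e + c • p.f, Fr.b j⁆ = Y (Fr.b j) := by
    intro j
    have hfin : j = 0 ∨ j = 1 := by fin_cases j <;> simp
    rcases hfin with rfl | rfl
    · rw [add_lie, add_lie, smul_lie, smul_lie, smul_lie, hh0, he0, hf0, hac]
      module
    · rw [add_lie, add_lie, smul_lie, smul_lie, smul_lie, hh1, he1, hf1, hbd]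
      have h5 : d = -a := by linear_combination htr
      rw [h5]
      module
  rw [hexp v, lie_add, lie_smul, lie_smul, map_add, map_smul, map_smul, hv, hv]

end lie

section family

variable {I : Type} [Fintype I] [DecidableEq I] (n : I → ℕ)
  {κ : I → Type} [∀ i, Fintype (κ i)] [∀ i, DecidableEq (κ i)] {ϖ : ℂ}
  (P : ∀ i, PData (κ i) ϖ)
  {K : I → Type} [∀ i, Field (K i)] [∀ i, NumberField (K i)]
  (F : ∀ i, FS (P i) (K i))
  {k : ℕ} (α : MultilinearMap ℂ (fun _ : Fin (2 * k) => HW κ n) ℂ)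

/-- the projectors to the atoms -/
lemma EE_EE [DecidableEq (At n K)] (t t' : At n K) (u : HW κ n) :
    EE n P F t (EE n P F t' u) = if t = t' then EE n P F t u else 0 := by
  classical
  obtain ⟨i, m, σ⟩ := t
  obtain ⟨i', m', σ'⟩ := t'
  show slotL n i m (proj (F i).ρ σ (prL n i m (slotL n i' m'
    (proj (F i').ρ σ' (prL n i' m' u))))) = _
  by_cases hi : i = i'
  · subst hi
    by_cases hm : m = m'
    · subst hm
      rw [prL_slotL, ← Module.End.mul_apply, proj_mul_proj]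
      by_cases hσ : σ = σ'
      · subst hσ
        rw [if_pos rfl, if_pos rfl]
        rfl
      · rw [if_neg hσ, if_neg, LinearMap.zero_apply, map_zero]
        intro h
        have h3 := sigma_mk_injective (β := fun i => Fin (n i) × (K i →+* ℂ)) h
        exact hσ (Prod.mk.inj h3).2
    · rw [prL_slotL_ne n i m' m hm, map_zero, map_zero, if_neg]
      intro h
      have h3 := sigma_mk_injective (β := fun i => Fin (n i) × (K i →+* ℂ)) h
      exact hm (Prod.mk.inj h3).1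
  · rw [prL_slotL_ne' n i' i m' m hi, map_zero, map_zero, if_neg]
    intro h
    exact hi (congrArg Sigma.fst h)

lemma EE_lift (X : GG κ) (hX : IsInv n P α X) (t : At n K) (u : HW κ n) :
    EE n P F t (lift n X.1 u) = lift n X.1 (EE n P F t u) := by
  rw [EE_apply, EE_apply, lift_slot, lift_apply, IsInv.commP n P F α hX]

/-- the action on an eigenspace -/
noncomputable def actV (s : Emb K) :
    Module.End ℂ (κ s.1 → ℂ) →ₗ[ℂ] Module.End ℂ (Vs n P F α s) where
  toFun Y := (toVs n P F α s) ∘ₗ Y ∘ₗ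
    ((LinearMap.proj s.1 : MM κ →ₗ[ℂ] (κ s.1 → ℂ)) ∘ₗ (Vs n P F α s).toSubmodule.subtype)
  map_add' Y Z := by
    apply LinearMap.ext
    intro x
    show toVs n P F α s ((Y + Z) ((x : MM κ) s.1)) = _
    rw [LinearMap.add_apply, map_add]
    rfl
  map_smul' c Y := by
    apply LinearMap.ext
    intro x
    show toVs n P F α s ((c • Y) ((x : MM κ) s.1)) = _
    rw [LinearMap.smul_apply, map_smul]
    rfl

lemma actV_apply (s : Emb K) (Y : Module.End ℂ (κ s.1 → ℂ)) (x : Vs n P F α s) :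
    ((actV n P F α s Y x : Vs n P F α s) : MM κ) s.1 = proj (F s.1).ρ s.2 (Y ((x : MM κ) s.1)) :=
  toVs_apply n P F α s _

lemma actV_real (s : Emb K) (hs : (F s.1).isLeft) (X : GG κ) (hX : IsInv n P α X)
    (x : Vs n P F α s) :
    actV n P F α s (X.1 s.1) x = ⁅elL n P F α X hX, x⁆ + (X.2 / 2) • x := by
  apply Vs_ext n P F α s
  have h1 : ((⁅elL n P F α X hX, x⁆ + (X.2 / 2) • x : Vs n P F α s) : MM κ) s.1 =
      ((⁅elL n P F α X hX, x⁆ : Vs n P F α s) : MM κ) s.1 +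
      (X.2 / 2) • ((x : Vs n P F α s) : MM κ) s.1 := rfl
  rw [h1, elL_real n P F α X hX s hs, sub_add_cancel, actV_apply, ← IsInv.commP n P F α hX,
    Vs_proj]

lemma actV_comp (s : Emb K) (X Y : GG κ) (hX : IsInv n P α X) (hY : IsInv n P α Y) :
    actV n P F α s (X.1 s.1 * Y.1 s.1) = actV n P F α s (X.1 s.1) * actV n P F α s (Y.1 s.1) := by
  apply LinearMap.ext
  intro x
  apply Vs_ext n P F α s
  classical
  rw [actV_apply, Module.End.mul_apply, Module.End.mul_apply, actV_apply, actV_apply,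
    IsInv.commP n P F α hX,
    ← Module.End.mul_apply (proj _ _) (proj _ _), proj_mul_proj, if_pos rfl]

end family

end Pool.Agent.Helper7
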