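import Pool.Agent.Helper7.SmallB

/-!
The pre-frame of the labels with spaces of dimension at most two.
-/

namespace Pool.Agent.Helper7

open Module NumberField LieAlgebra

attribute [local instance 100] LieRing.ofAssociativeRing

open Pool.Agent.GPC (Emb)
open Pool.Agent.Helper8 (Symp Principal)

set_option linter.unusedSectionVars false

section family

variable {I : Type} [Fintype I] [DecidableEq I] (n : I → ℕ)
  {κ : I → Type} [∀ i, Fintype (κ i)] [∀ i, DecidableEq (κ i)] {ϖ : ℂ}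
  (P : ∀ i, PData (κ i) ϖ)
  {K : I → Type} [∀ i, Field (K i)] [∀ i, NumberField (K i)]
  (F : ∀ i, FS (P i) (K i))
  {k : ℕ} (α : MultilinearMap ℂ (fun _ : Fin (2 * k) => HW κ n) ℂ)
  (ok : I → Prop)
  (b : ∀ s : Emb K, ok s.1 → (F s.1).isLeft → Basis (Fin 2) ℂ (Vs n P F α s))
  (hsj : ∀ s : Emb K, ok s.1 → (F s.1).isLeft → ∀ Y : Module.End ℂ (Vs n P F α s),
    LinearMap.trace ℂ _ Y = 0 → ∃ X, IsInv n P α X ∧ actV n P F α s (X.1 s.1) = Y)
  (htr : ∀ s : Emb K, ok s.1 → (F s.1).isLeft → ∀ X, IsInv n P α X →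
    LinearMap.trace ℂ _ (actV n P F α s (X.1 s.1)) = X.2)

lemma FS.conj_ne {κ : Type} [Fintype κ] [DecidableEq κ] {ϖ : ℂ} {P : PData κ ϖ} {K : Type}
    [Field K] [NumberField K] (F : FS P K) (hF : ¬ F.isLeft) (σ : K →+* ℂ) :
    ComplexEmbedding.conjugate σ ≠ σ := by
  cases F with
  | inl F => exact absurd rfl hF
  | inr F => exact F.1.not_real F.2 σ

open Classical in
/-- the pre-frame -/
noncomputable def preSmall : PreFramesB (W2 n P F ok) {t : At n K // ok t.1}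
    {s : Emb K // ok s.1} (gSub n P α) where
  pl q := ⟨pl n q.1, q.2⟩
  gl t := (F t.1.1).isLeft
  cj t := ⟨conjT t.1, t.2⟩
  cj_cj t := Subtype.ext (conjT_conjT t.1)
  cj_ne := by
    rintro ⟨⟨i, σ⟩, hi⟩ h h'
    have h1 : conjT (⟨i, σ⟩ : Emb K) = ⟨i, σ⟩ := congrArg Subtype.val h'
    exact (F i).conj_ne h σ (sigma_mk_injective (β := fun i => (K i →+* ℂ)) h1)
  gl_cj t := Iff.rfl
  e q j := ⟨smE n P F α ok b q.1 q.2 j, by
    rw [← EE_smE]; exact EE_mem_W2 n P F ok q.1 q.2 _⟩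
  co q j := (smCo n P F α ok b q.1 q.2 j) ∘ₗ (W2 n P F ok).subtype
  L X := (lift n X.1.1).restrict (fun u hu => lift_mem_W2 n P F α ok X.1 X.2 u hu)
  c := (LinearMap.snd ℂ ((i : I) → Module.End ℂ (κ i → ℂ)) ℂ) ∘ₗ (gSub n P α).subtype
  A t := (smA n P F α ok b t.1 t.2) ∘ₗ (gSub n P α).subtype
  br X Y := ⟨X.1 * Y.1 - Y.1 * X.1, IsInv.bracket n P α X.2 Y.2⟩
  hsum v := by
    apply Subtype.ext
    rw [AddSubmonoidClass.coe_finsetSum]
    conv_lhs => rw [sum_ok n P F ok v.1 v.2]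
    refine Finset.sum_congr rfl fun q _ => ?_
    rw [sum_sm n P F α ok b q.1 q.2, AddSubmonoidClass.coe_finsetSum]
    rfl
  co_e := by
    intro q j q' j' h
    show smCo n P F α ok b q.1 q.2 j (smE n P F α ok b q'.1 q'.2 j') = _
    rw [smCo_smE n P F α ok b q.1 q.2 j q'.1 q'.2 j' h]
    have h1 : (q.1 = q'.1 ∧ j = j') ↔ (q = q' ∧ j = j') := by
      rw [Subtype.ext_iff]
    simp only [h1]
  e_one := by
    intro q h
    apply Subtype.ext
    show smE n P F α ok b q.1 q.2 1 = 0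
    rw [smE_cm n P F α ok b q.1 q.2 h, if_neg (by decide)]
  act := by
    intro X q j
    apply Subtype.ext
    rw [AddSubmonoidClass.coe_finsetSum]
    exact sm_act n P F α ok b X.1 X.2 q.1 q.2 j
  co_act := by
    intro X q j v h
    exact sm_coact n P F α ok b X.1 X.2 q.1 q.2 j v.1 h
  tr := by
    intro t X h
    show Matrix.trace (smA n P F α ok b t.1 t.2 X.1) = X.1.2
    rw [smA_real n P F α ok b t.1 t.2 h, ← LinearMap.trace_eq_matrix_trace]
    exact htr t.1 t.2 h X.1 X.2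
  cm := by
    intro t X h
    constructor
    · show smA n P F α ok b t.1 t.2 X.1 0 1 = 0
      rw [smA_cm n P F α ok b t.1 t.2 h, if_neg (by decide)]
    · show smA n P F α ok b t.1 t.2 X.1 0 0 + smA n P F α ok b (conjT t.1) t.2 X.1 0 0 = X.1.2
      rw [smA_cm n P F α ok b t.1 t.2 h, smA_cm n P F α ok b (conjT t.1) t.2 h, if_pos ⟨rfl, rfl⟩,
        if_pos ⟨rfl, rfl⟩]
      exact chiC_conj n P F α t.1 X.1 X.2
  hbr := by
    intro t h X Y
    show smA n P F α ok b t.1 t.2 (X.1 * Y.1 - Y.1 * X.1) =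
      smA n P F α ok b t.1 t.2 X.1 * smA n P F α ok b t.1 t.2 Y.1 -
      smA n P F α ok b t.1 t.2 Y.1 * smA n P F α ok b t.1 t.2 X.1
    rw [smA_real n P F α ok b t.1 t.2 h, smA_real n P F α ok b t.1 t.2 h,
      smA_real n P F α ok b t.1 t.2 h, ← LinearMap.toMatrix_mul, ← LinearMap.toMatrix_mul,
      ← map_sub, ← actV_comp n P F α t.1 X.1 Y.1 X.2 Y.2, ← actV_comp n P F α t.1 Y.1 X.1 Y.2 X.2,
      ← map_sub]
    rfl
  hlam := by
    intro t h X Y
    show smA n P F α ok b t.1 t.2 (X.1 * Y.1 - Y.1 * X.1) 0 0 = 0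
    rw [smA_cm n P F α ok b t.1 t.2 h, if_pos ⟨rfl, rfl⟩]
    exact (F t.1.1).chi_mul h t.1.2 (X.1.1 t.1.1) (Y.1.1 t.1.1) 0 0
      (fun x v => IsInv.commK n P F α X.2 t.1.1 x v)
      (fun x v => IsInv.commK n P F α Y.2 t.1.1 x v) _
  hsurj := by
    intro t h Z hZ
    have h1 : LinearMap.trace ℂ _ (Matrix.toLin (b t.1 t.2 h) (b t.1 t.2 h) Z) = 0 := by
      rw [LinearMap.trace_eq_matrix_trace ℂ (b t.1 t.2 h), LinearMap.toMatrix_toLin, hZ]
    obtain ⟨X, hX, hXY⟩ := hsj t.1 t.2 h _ h1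
    refine ⟨⟨X, hX⟩, ?_⟩
    show smA n P F α ok b t.1 t.2 X = Z
    rw [smA_real n P F α ok b t.1 t.2 h, hXY, LinearMap.toMatrix_toLin]

end family

end Pool.Agent.Helper7
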