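import Pool.Agent.Helper8.H.Slot

/-!
Slot functions all of whose labels have spaces of dimension at most two.
-/

namespace Pool.Agent.Helper7

open Module NumberField LieAlgebra

attribute [local instance 100] LieRing.ofAssociativeRing

open Pool.Agent.Helper8 (SF SF0 PS)

set_option linter.unusedSectionVars false

section generic

variable {R W : Type*} [DecidableEq R] [AddCommGroup W] [Module ℂ W]

/-- products of bilinear forms over the pairs of an enumeration -/
lemma PP_of_prod {𝓑 : Set (W →ₗ[ℂ] W →ₗ[ℂ] ℂ)} {m : ℕ} (x : Fin (2 * m) → R)
    (hx : Function.Injective x) (β : Fin m → (W →ₗ[ℂ] W →ₗ[ℂ] ℂ)) (hβ : ∀ a, β a ∈ 𝓑) :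
    PP 𝓑 (Finset.univ.image x) (fun v => ∏ a, β a (v (x (lo a))) (v (x (hi a)))) := by
  have h1 : ∀ s : Finset (Fin m), PP 𝓑 (s.biUnion fun a => {x (lo a), x (hi a)})
      (fun v => ∏ a ∈ s, β a (v (x (lo a))) (v (x (hi a)))) := by
    intro s
    induction s using Finset.induction_on with
    | empty =>
      simp only [Finset.biUnion_empty, Finset.prod_empty]
      exact PP.nil
    | insert a s ha ih =>
      have h2 : (insert a s).biUnion (fun a => {x (lo a), x (hi a)}) =
          insert (x (lo a)) (insert (x (hi a)) (s.biUnion fun a => {x (lo a), x (hi a)})) := by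
        rw [Finset.biUnion_insert]
        ext r
        simp only [Finset.mem_union, Finset.mem_insert, Finset.mem_singleton, or_assoc]
      have h3 : (fun v : R → W => ∏ a ∈ insert a s, β a (v (x (lo a))) (v (x (hi a)))) =
          fun v => β a (v (x (lo a))) (v (x (hi a))) *
            ∏ a ∈ s, β a (v (x (lo a))) (v (x (hi a))) := by
        funext v
        rw [Finset.prod_insert ha]
      rw [h2, h3]
      refine PP.cons _ _ _ (hβ a) ih ?_ ?_ ?_
      · intro h
        obtain ⟨c, hc, h4⟩ := Finset.mem_biUnion.mp h
        rw [Finset.mem_insert, Finset.mem_singleton] at h4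
        rcases h4 with h4 | h4
        · exact ha (by rw [lo_inj (hx h4)]; exact hc)
        · exact lo_ne_hi a c (hx h4)
      · intro h
        obtain ⟨c, hc, h4⟩ := Finset.mem_biUnion.mp h
        rw [Finset.mem_insert, Finset.mem_singleton] at h4
        rcases h4 with h4 | h4
        · exact lo_ne_hi c a (hx h4).symm
        · exact ha (by rw [hi_inj (hx h4)]; exact hc)
      · intro h
        exact lo_ne_hi a a (hx h)
  have h2 := h1 Finset.univ
  have h3 : (Finset.univ : Finset (Fin m)).biUnion (fun a => {x (lo a), x (hi a)}) =
      Finset.univ.image x := by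
    ext r
    simp only [Finset.mem_biUnion, Finset.mem_univ, true_and, Finset.mem_insert,
      Finset.mem_singleton, Finset.mem_image]
    constructor
    · rintro ⟨a, rfl | rfl⟩
      · exact ⟨_, rfl⟩
      · exact ⟨_, rfl⟩
    · rintro ⟨c, rfl⟩
      obtain ⟨a, rfl | rfl⟩ := eq_lo_or_hi c
      · exact ⟨a, Or.inl rfl⟩
      · exact ⟨a, Or.inr rfl⟩
  rw [h3] at h2
  exact h2

lemma extend_update {m : ℕ} (x : Fin m → R) (hx : Function.Injective x) (v : Fin m → W)
    (a : Fin m) (w : W) : Function.extend x (Function.update v a w) 0 =
      Function.update (Function.extend x v 0) (x a) w := by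
  funext r
  by_cases hr : r = x a
  · subst hr
    rw [Function.update_self, hx.extend_apply, Function.update_self]
  · rw [Function.update_of_ne hr]
    by_cases h : ∃ b, x b = r
    · obtain ⟨b, rfl⟩ := h
      rw [hx.extend_apply, hx.extend_apply, Function.update_of_ne]
      rintro rfl; exact hr rfl
    · rw [Function.extend_apply' _ _ _ h, Function.extend_apply' _ _ _ h]

variable {A : Type*} {E : A → Module.End ℂ W} {q : R → A} {T : Finset R} {Φ : (R → W) → ℂ}

/-- the multilinear map belonging to a slot function, on a subspace -/
noncomputable def slotM (h : SF0 E q T Φ) (W' : Submodule ℂ W) {m : ℕ} (x : Fin m → R)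
    (hx : Function.Injective x) (hxT : ∀ a, x a ∈ T) :
    MultilinearMap ℂ (fun _ : Fin m => W') ℂ where
  toFun v := Φ (Function.extend x (fun a => (v a : W)) 0)
  map_update_add' := by
    intro inst v a y z
    have hinst : inst = instDecidableEqFin m := Subsingleton.elim _ _
    subst hinst
    have h1 : ∀ w : W', (fun c => ((Function.update v a w c : W') : W)) =
        Function.update (fun c => (v c : W)) a (w : W) := by
      intro w
      funext c
      by_cases hc : c = a
      · subst hc; rw [Function.update_self, Function.update_self]
      · rw [Function.update_of_ne hc, Function.update_of_ne hc]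
    rw [h1, h1, h1, extend_update x hx, extend_update x hx, extend_update x hx]
    exact h.add _ _ (hxT a) _ _
  map_update_smul' := by
    intro inst v a c y
    have hinst : inst = instDecidableEqFin m := Subsingleton.elim _ _
    subst hinst
    have h1 : ∀ w : W', (fun c => ((Function.update v a w c : W') : W)) =
        Function.update (fun c => (v c : W)) a (w : W) := by
      intro w
      funext c
      by_cases hc : c = a
      · subst hc; rw [Function.update_self, Function.update_self]
      · rw [Function.update_of_ne hc, Function.update_of_ne hc]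
    rw [h1, h1, extend_update x hx, extend_update x hx]
    exact h.smul _ _ (hxT a) _ _

lemma slotM_apply (h : SF0 E q T Φ) (W' : Submodule ℂ W) {m : ℕ} (x : Fin m → R)
    (hx : Function.Injective x) (hxT : ∀ a, x a ∈ T) (v : Fin m → W') :
    slotM h W' x hx hxT v = Φ (Function.extend x (fun a => (v a : W)) 0) := rfl

/-- a projector which contains the label projectors does not change a slot function -/
lemma SF0_proj (h : SF0 E q T Φ) (Pr : Module.End ℂ W) (hPr : ∀ r ∈ T, ∀ u, E (q r) (Pr u) =
    E (q r) u) (v : R → W) : Φ (fun r => Pr (v r)) = Φ v := by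
  have h1 : ∀ S : Finset R, S ⊆ T → Φ (fun r => if r ∈ S then Pr (v r) else v r) = Φ v := by
    intro S
    induction S using Finset.induction_on with
    | empty => intro _; simp
    | insert r S hr ih =>
      intro hS
      have hrT : r ∈ T := hS (Finset.mem_insert_self _ _)
      have hST : S ⊆ T := fun s hs => hS (Finset.mem_insert_of_mem hs)
      have e1 : (fun s => if s ∈ insert r S then Pr (v s) else v s) =
          Function.update (fun s => if s ∈ S then Pr (v s) else v s) r (Pr (v r)) := by
        funext s
        by_cases hs : s = r
        · subst hs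
          rw [Function.update_self, if_pos (Finset.mem_insert_self _ _)]
        · rw [Function.update_of_ne hs]
          simp only [Finset.mem_insert, hs, false_or]
      rw [e1, ← h.lab r hrT, Function.update_self, Function.update_idem, hPr r hrT]
      have e2 := h.lab r hrT (fun s => if s ∈ S then Pr (v s) else v s)
      rw [if_neg hr] at e2
      rw [e2]
      exact ih hST
  rw [← h1 T (Finset.Subset.refl _)]
  refine h.dep _ _ fun r hr => ?_
  rw [if_pos hr]

end generic

end Pool.Agent.Helper7
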