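import Pool.Agent.Helper7.SmallD
import Pool.Agent.Helper7.SmallC

/-!
Slot functions all of whose labels have spaces of dimension at most two: the theorem.
-/

namespace Pool.Agent.Helper7

open Module NumberField LieAlgebra

attribute [local instance 100] LieRing.ofAssociativeRing

open Pool.Agent.GPC (Emb IsOdd)
open Pool.Agent.Helper8 (Symp Principal SF SF0 PS perfect_of_killing)

set_option linter.unusedSectionVars false

section family

variable {I : Type} [Fintype I] [DecidableEq I] (n : I → ℕ)
  {κ : I → Type} [∀ i, Fintype (κ i)] [∀ i, DecidableEq (κ i)] {ϖ : ℂ}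
  (P : ∀ i, PData (κ i) ϖ)
  {K : I → Type} [∀ i, Field (K i)] [∀ i, NumberField (K i)]
  (F : ∀ i, FS (P i) (K i))
  {k : ℕ} (α : MultilinearMap ℂ (fun _ : Fin (2 * k) => HW κ n) ℂ)
  (ok : I → Prop)

/-- the counting function of the slots is a relation between the weights -/
lemma count_mem_relS (m : ℕ) (p : Fin (2 * m) → Emb K)
    (hp : ∀ X, IsInv n P α X → ∑ r, chiC P F (p r) X = m * X.2) :
    (open Classical in (fun t => ((Finset.univ.filter (fun r => p r = t)).card : ℚ) -
      (Finset.univ.filter (fun r => p r = conjT t)).card) ∈ relS n P F α) := by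
  classical
  let u : Emb K → ℚ := fun t =>
    ((Finset.univ.filter (fun r => p r = t)).card : ℚ) -
      (Finset.univ.filter (fun r => p r = conjT t)).card
  have hu : u ∈ relS n P F α := by
    rw [mem_relS]
    refine ⟨fun i σ => ?_, fun X hX _ => ?_⟩
    · have h5 : (⟨i, ComplexEmbedding.conjugate σ⟩ : Emb K) = conjT (⟨i, σ⟩ : Emb K) := rfl
      rw [h5]
      simp only [u, conjT_conjT]; ring
    · have h1 : ∀ (g : Emb K → ℂ),
          ∑ t, ((Finset.univ.filter (fun r => p r = t)).card : ℂ) * g t = ∑ r, g (p r) := by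
        intro g
        have h2 : ∀ t, ((Finset.univ.filter (fun r => p r = t)).card : ℂ) * g t =
            ∑ r, (if p r = t then g t else 0) := by
          intro t
          rw [Finset.card_filter]
          push_cast
          rw [Finset.sum_mul]
          exact Finset.sum_congr rfl fun r _ => by split_ifs <;> simp
        simp only [h2]
        rw [Finset.sum_comm]
        refine Finset.sum_congr rfl fun r _ => ?_
        rw [Finset.sum_ite_eq Finset.univ]
        simp
      let cE : Emb K ≃ Emb K := ⟨conjT, conjT, conjT_conjT, conjT_conjT⟩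
      have h3 : ∑ t, ((Finset.univ.filter (fun r => p r = conjT t)).card : ℂ) * chiC P F t X =
          ∑ r, chiC P F (conjT (p r)) X := by
        rw [← h1 (fun t => chiC P F (conjT t) X)]
        refine Fintype.sum_equiv cE _ _ fun t => ?_
        show _ = ((Finset.univ.filter (fun r => p r = conjT t)).card : ℂ) *
          chiC P F (conjT (conjT t)) X
        rw [conjT_conjT]
      have h4 : ∑ r, chiC P F (conjT (p r)) X = m * X.2 := by
        have h5 : ∑ r, (chiC P F (p r) X + chiC P F (conjT (p r)) X) =
            ∑ _r : Fin (2 * m), X.2 :=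
          Finset.sum_congr rfl fun r _ => chiC_conj n P F α (p r) X hX
        rw [Finset.sum_add_distrib, hp X hX, Finset.sum_const, Finset.card_univ,
          Fintype.card_fin, nsmul_eq_mul] at h5
        push_cast at h5
        linear_combination h5
      simp only [u, Rat.cast_sub, Rat.cast_natCast, sub_mul, Finset.sum_sub_distrib]
      rw [h1 (fun t => chiC P F t X), h3, h4, hp X hX, sub_self]
  exact hu

/-- the balance of a pattern -/
lemma balance_of (hre : ∀ i, (F i).isLeft → ∀ σ : K i →+* ℂ, ComplexEmbedding.conjugate σ = σ)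
    (hNE : ∀ z : Emb K → ℤ, (fun t => (z t : ℚ)) ∈ relS n P F α → (∀ t, |z t| ≤ n t.1) →
      (∃ m : ℤ, ∑ t, |z t| = 4 * m) → ∀ t, ¬ (F t.1).isLeft → z t = 0)
    (m : ℕ) (p : Fin (2 * m) → At n K)
    (hinj : ∀ r r', ¬ (F (p r).1).isLeft → p r = p r' → r = r')
    (heven : Even (open Classical in Finset.univ.filter
      (fun r => (F (p r).1).isLeft)).card)
    (hwt : ∀ X, IsInv n P α X → ∑ r, chiC P F (pl n (p r)) X = m * X.2) (t : Emb K)
    (ht : ¬ (F t.1).isLeft) :
    (open Classical in (Finset.univ.filter (fun r => pl n (p r) = t)).card =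
      (Finset.univ.filter (fun r => pl n (p r) = conjT t)).card) := by
  classical
  obtain ⟨q, hq⟩ : ∃ q : Fin (2 * m) → Emb K, q = fun r => pl n (p r) := ⟨_, rfl⟩
  have hq' : ∀ r, pl n (p r) = q r := fun r => by rw [hq]
  obtain ⟨c, hc⟩ : ∃ c : Emb K → ℕ, ∀ t, c t =
      (Finset.univ.filter (fun r => q r = t)).card := ⟨_, fun _ => rfl⟩
  let z : Emb K → ℤ := fun t => (c t : ℤ) - c (conjT t)
  have hz0 : ∀ t : Emb K, (F t.1).isLeft → z t = 0 := by
    rintro ⟨i, σ⟩ h
    have h2 : conjT (⟨i, σ⟩ : Emb K) = ⟨i, σ⟩ := by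
      show (⟨i, ComplexEmbedding.conjugate σ⟩ : Emb K) = ⟨i, σ⟩
      rw [hre i h σ]
    simp only [z, h2, sub_self]
  have hcn : ∀ t : Emb K, ¬ (F t.1).isLeft → c t ≤ n t.1 := by
    intro t ht
    rw [hc]
    have hsub : (Finset.univ.filter (fun r => q r = t)).image p ⊆
        Finset.univ.image (fun m : Fin (n t.1) => (⟨t.1, m, t.2⟩ : At n K)) := by
      intro a ha
      obtain ⟨r, hr, rfl⟩ := Finset.mem_image.mp ha
      have h2 := (Finset.mem_filter.mp hr).2
      rw [← hq'] at h2
      generalize p r = a at h2
      obtain ⟨i, m, σ⟩ := a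
      subst h2
      exact Finset.mem_image.mpr ⟨m, Finset.mem_univ _, rfl⟩
    calc (Finset.univ.filter (fun r => q r = t)).card
        = ((Finset.univ.filter (fun r => q r = t)).image p).card := by
          refine (Finset.card_image_of_injOn ?_).symm
          intro r hr r' _ h
          have h2 := (Finset.mem_filter.mp (Finset.mem_coe.mp hr)).2
          exact hinj r r' (by
            have h3 : (F (q r).1).isLeft = (F t.1).isLeft := by rw [h2]
            rw [← hq'] at h3
            intro h4
            exact ht (h3 ▸ h4)) h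
      _ ≤ _ := Finset.card_le_card hsub
      _ ≤ _ := Finset.card_image_le
      _ = n t.1 := by rw [Finset.card_univ, Fintype.card_fin]
  have hzn : ∀ t, |z t| ≤ n t.1 := by
    intro t
    by_cases h : (F t.1).isLeft
    · rw [hz0 t h]; simp
    · have h2 := hcn t h
      have h3 : c (conjT t) ≤ n t.1 := hcn (conjT t) h
      simp only [z]
      rw [abs_le]
      constructor <;> omega
  have hzU : (fun t => (z t : ℚ)) ∈ relS n P F α := by
    have h2 := count_mem_relS n P F α m q (fun X hX => by
      rw [← hwt X hX]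
      exact Finset.sum_congr rfl fun r _ => by rw [hq'])
    have h3 : (fun t => (z t : ℚ)) = fun t => ((Finset.univ.filter (fun r => q r = t)).card : ℚ) -
        (Finset.univ.filter (fun r => q r = conjT t)).card := by
      funext t
      simp only [z, hc]
      push_cast
      rfl
    rw [h3]
    exact h2
  -- parity
  have hpar : ∃ m : ℤ, ∑ t, |z t| = 4 * m := by
    let N : Finset (Emb K) := Finset.univ.filter (fun t => ¬ (F t.1).isLeft)
    have hNc : ∀ t ∈ N, conjT t ∈ N := by
      intro t ht
      rw [Finset.mem_filter] at ht ⊢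
      exact ⟨Finset.mem_univ _, ht.2⟩
    have hNne : ∀ t ∈ N, conjT t ≠ t := by
      rintro ⟨i, σ⟩ ht h
      exact (F i).conj_ne (Finset.mem_filter.mp ht).2 σ
        (sigma_mk_injective (β := fun i => (K i →+* ℂ)) h)
    have e1 : ∑ t, |z t| = ∑ t ∈ N, |z t| := by
      symm
      refine Finset.sum_subset (Finset.subset_univ _) fun t _ ht => ?_
      rw [Finset.mem_filter, not_and, not_not] at ht
      rw [hz0 t (ht (Finset.mem_univ _)), abs_zero]
    have e2 : ∀ t, |z t| = (c t : ℤ) + c (conjT t) - 2 * ((min (c t) (c (conjT t)) : ℕ) : ℤ) := by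
      intro t
      simp only [z]
      rcases le_total (c t) (c (conjT t)) with h | h
      · rw [min_eq_left h, abs_of_nonpos (by omega)]; ring
      · rw [min_eq_right h, abs_of_nonneg (by omega)]; ring
    obtain ⟨m1, hm1⟩ := even_sum_of_symm N conjT conjT_conjT hNc hNne
      (fun t => ((min (c t) (c (conjT t)) : ℕ) : ℤ)) (fun t _ => by
        show ((min (c (conjT t)) (c (conjT (conjT t))) : ℕ) : ℤ) = _
        rw [conjT_conjT, min_comm])
    -- the number of slots of the second kind
    have e3 : ∑ t ∈ N, (c (conjT t) : ℤ) = ∑ t ∈ N, (c t : ℤ) := by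
      refine Finset.sum_nbij' conjT conjT hNc hNc (fun t _ => conjT_conjT t)
        (fun t _ => conjT_conjT t) (fun t _ => rfl)
    have e4 : ∑ t ∈ N, (c t : ℤ) = 2 * m -
        (Finset.univ.filter (fun r => (F (p r).1).isLeft)).card := by
      have h2 : ∑ t ∈ N, c t = (Finset.univ.filter (fun r => ¬ (F (q r).1).isLeft)).card := by
        rw [Finset.card_eq_sum_card_fiberwise (f := q) (t := N) (fun r hr => by
          rw [Finset.mem_coe, Finset.mem_filter] at hr ⊢
          exact ⟨Finset.mem_univ _, hr.2⟩)]
        refine Finset.sum_congr rfl fun t ht => ?_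
        rw [hc]
        congr 1
        ext r
        simp only [Finset.mem_filter, Finset.mem_univ, true_and]
        constructor
        · intro h
          exact ⟨by rw [h]; exact (Finset.mem_filter.mp ht).2, h⟩
        · intro h; exact h.2
      have h3 : (Finset.univ.filter (fun r => (F (p r).1).isLeft)).card +
          (Finset.univ.filter (fun r => ¬ (F (q r).1).isLeft)).card = 2 * m := by
        have h4 : (Finset.univ.filter (fun r => ¬ (F (q r).1).isLeft)) =
            (Finset.univ.filter (fun r => ¬ (F (p r).1).isLeft)) := by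
          rw [hq]
        rw [h4, Finset.card_filter_add_card_filter_not, Finset.card_univ, Fintype.card_fin]
      have h5 : ((∑ t ∈ N, c t : ℕ) : ℤ) = ∑ t ∈ N, (c t : ℤ) := by push_cast; rfl
      rw [← h5, h2]
      omega
    obtain ⟨m2, hm2⟩ := heven
    refine ⟨m - m2 - m1, ?_⟩
    rw [e1, Finset.sum_congr rfl fun t _ => e2 t, Finset.sum_sub_distrib,
      Finset.sum_add_distrib, ← Finset.mul_sum, e3, e4, hm1]
    have hm2' : (((Finset.univ.filter (fun r => (F (p r).1).isLeft)).card : ℕ) : ℤ) = m2 + m2 := by
      rw [← Nat.cast_add, ← hm2]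
    rw [hm2']
    ring
  have h2 := hNE z hzU hzn hpar t ht
  have h3 : c t = c (conjT t) := by
    simp only [z] at h2
    omega
  rw [hc, hc] at h3
  simp only [hq']
  exact h3

end family

end Pool.Agent.Helper7
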