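import Pool.Agent.Helper7.SmallE
import Pool.Agent.Helper8.H.Family

/-!
Slot functions all of whose labels have spaces of dimension at most two: the theorem.
-/

namespace Pool.Agent.Helper7

open Module NumberField LieAlgebra

attribute [local instance 100] LieRing.ofAssociativeRing

open Pool.Agent.GPC (Emb IsOdd)
open Pool.Agent.Helper8 (Symp Principal SF SF0 PS symG perfect_of_killing)

set_option linter.unusedSectionVars false

section family

variable {I : Type} [Fintype I] [DecidableEq I] (n : I → ℕ)
  {κ : I → Type} [∀ i, Fintype (κ i)] [∀ i, DecidableEq (κ i)] {ϖ : ℂ}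
  (P : ∀ i, PData (κ i) ϖ)
  {K : I → Type} [∀ i, Field (K i)] [∀ i, NumberField (K i)]
  (F : ∀ i, FS (P i) (K i))
  {k : ℕ} (α : MultilinearMap ℂ (fun _ : Fin (2 * k) => HW κ n) ℂ)
  (ok : I → Prop)
  (b : ∀ s : Emb K, ok s.1 → (F s.1).isLeft → Basis (Fin 2) ℂ (Vs n P F α s))
  (hsj : ∀ s : Emb K, ok s.1 → (F s.1).isLeft → ∀ Y : Module.End ℂ (Vs n P F α s),
    LinearMap.trace ℂ _ Y = 0 → ∃ X, IsInv n P α X ∧ actV n P F α s (X.1 s.1) = Y)
  (htr : ∀ s : Emb K, ok s.1 → (F s.1).isLeft → ∀ X, IsInv n P α X →
    LinearMap.trace ℂ _ (actV n P F α s (X.1 s.1)) = X.2)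

lemma chiC_real (s : Emb K) (hs : (F s.1).isLeft) (X : GG κ) : chiC P F s X = X.2 / 2 := by
  unfold chiC
  obtain ⟨F', hF'⟩ := Sum.isLeft_iff.mp hs
  rw [hF']
  rfl

open Classical in
lemma EE_frame (Q : {t : At n K // ok t.1}) (j : Fin 2) :
    EE n P F Q.1 (((preSmall n P F α ok b hsj htr).e' Q j : W2 n P F ok) : HW κ n) =
      (((preSmall n P F α ok b hsj htr).e' Q j : W2 n P F ok) : HW κ n) := by
  rw [PreFramesB.e', AddSubmonoidClass.coe_finsetSum, map_sum]
  refine Finset.sum_congr rfl fun a _ => ?_
  rw [Submodule.coe_smul, map_smul]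
  congr 1
  exact EE_smE n P F α ok b Q.1 Q.2 a

lemma coe_update {V : Type*} [AddCommGroup V] [Module ℂ V] (W' : Submodule ℂ V) {m : ℕ}
    (v : Fin m → W') (a : Fin m) (w : W') :
    (fun c => ((Function.update v a w c : W') : V)) =
      Function.update (fun c => (v c : V)) a (w : V) := by
  funext c
  by_cases hc : c = a
  · subst hc; rw [Function.update_self, Function.update_self]
  · rw [Function.update_of_ne hc, Function.update_of_ne hc]

include b hsj htr in
theorem small_core (hre : ∀ i, (F i).isLeft → ∀ σ : K i →+* ℂ, ComplexEmbedding.conjugate σ = σ)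
    (hNE : ∀ z : Emb K → ℤ, (fun t => (z t : ℚ)) ∈ relS n P F α → (∀ t, |z t| ≤ n t.1) →
      (∃ m : ℤ, ∑ t, |z t| = 4 * m) → ∀ t, ¬ (F t.1).isLeft → z t = 0)
    {R : Type*} [DecidableEq R] {T : Finset R} {q : R → At n K} {Φ : (R → HW κ n) → ℂ}
    (hev : Even T.card) (hΦ : SF (symG n P α) (EE n P F) q T Φ) (hq : ∀ r ∈ T, ok (q r).1) :
    Φ ∈ PS (invB n P α) T := by
  classical
  obtain ⟨m, hm⟩ := hev
  have hcard : T.card = 2 * m := by omega
  obtain ⟨x, hx, hxT, himg⟩ : ∃ x : Fin (2 * m) → R, Function.Injective x ∧ (∀ a, x a ∈ T) ∧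
      Finset.univ.image x = T := by
    let e := (Finset.equivFinOfCardEq hcard).symm
    refine ⟨fun a => (e a : R), fun a c h => e.injective (Subtype.ext h), fun a => (e a).2, ?_⟩
    ext r
    rw [Finset.mem_image]
    constructor
    · rintro ⟨a, -, rfl⟩; exact (e a).2
    · intro hr
      exact ⟨e.symm ⟨r, hr⟩, Finset.mem_univ _, by rw [Equiv.apply_symm_apply]⟩
  have h0 : SF0 (EE n P F) q T Φ := hΦ.toSF0
  obtain ⟨M, hM⟩ : ∃ M, M = slotM h0 (W2 n P F ok) x hx hxT := ⟨_, rfl⟩
  have hMa : ∀ v, M v = Φ (Function.extend x (fun a => (v a : HW κ n)) 0) := by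
    intro v; rw [hM]; rfl
  set S' := preSmall n P F α ok b hsj htr with hS'
  set S := S'.toFrames with hS
  have hspan : M ∈ Submodule.span ℂ (S.invProd m) := by
    refine S.main_fft M ?_ ?_
    · intro X v
      have h1 := hΦ.inv (lift n X.1.1, X.1.2) ⟨X.1, X.2, rfl⟩
        (Function.extend x (fun a => (v a : HW κ n)) 0)
      have h2 : ∑ t ∈ T, Φ (Function.update (Function.extend x (fun a => (v a : HW κ n)) 0) t
          (lift n X.1.1 (Function.extend x (fun a => (v a : HW κ n)) 0 t))) =
          ∑ r, M (Function.update v r (S.L X (v r))) := by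
        rw [← himg, Finset.sum_image (fun a _ c _ h => hx h)]
        refine Finset.sum_congr rfl fun r _ => ?_
        rw [hMa, coe_update, extend_update x hx, hx.extend_apply]
        rfl
      have h3 : S.c X = X.1.2 := rfl
      beta_reduce at h1
      rw [h2, hcard] at h1
      rw [h3, hMa]
      push_cast at h1
      linear_combination h1 / 2
    · rintro p ⟨j, hj⟩ heven hw t ht
      have hfin : ∀ j : Fin 2, j = 0 ∨ j = 1 := by
        intro j; fin_cases j <;> simp
      obtain ⟨w, hw0⟩ : ∃ w, w = Function.extend x (fun a => ((S.e (p a) (j a) : W2 n P F ok) :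
        HW κ n)) 0 := ⟨_, rfl⟩
      have hwx : ∀ a, w (x a) = ((S.e (p a) (j a) : W2 n P F ok) : HW κ n) := by
        intro a; rw [hw0, hx.extend_apply]
      have hΦw : Φ w ≠ 0 := by
        intro h; apply hj; rw [hMa, ← hw0]; exact h
      have hEe : ∀ (Q : {t : At n K // ok t.1}) (j : Fin 2),
          EE n P F Q.1 ((S.e Q j : W2 n P F ok) : HW κ n) = ((S.e Q j : W2 n P F ok) : HW κ n) :=
        fun Q j => EE_frame n P F α ok b hsj htr Q j
      -- the labels
      have hlab : ∀ a, (p a).1 = q (x a) := by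
        intro a
        by_contra hne
        apply hΦw
        rw [← h0.lab (x a) (hxT a) w, hwx, ← hEe, EE_EE, if_neg (Ne.symm hne)]
        exact h0.zero _ (x a) (hxT a) (Function.update_self _ _ _)
      have hj0 : ∀ a, ¬ (F (p a).1.1).isLeft → j a = 0 := by
        intro a ha
        rcases hfin (j a) with h | h
        · exact h
        · exfalso
          apply hj
          apply M.map_coord_zero a
          show S.e (p a) (j a) = 0
          rw [h]
          exact S.e_one _ ha
      have hinj : ∀ a a', ¬ (F (p a).1.1).isLeft → (p a).1 = (p a').1 → a = a' := by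
        intro a a' ha h
        by_contra hne
        have hp : p a = p a' := Subtype.ext h
        have ha' : ¬ (F (p a').1.1).isLeft := by rw [← hp]; exact ha
        apply hΦw
        refine h0.eq_zero_of_eq w (x a) (x a') (hxT a) (hxT a') (hx.ne hne) ?_ ?_
        · rw [← hlab, ← hlab, h]
        · rw [hwx, hwx, hj0 a ha, hj0 a' ha', hp]
      have heven' : Even (Finset.univ.filter (fun r => (F (p r).1.1).isLeft)).card := by
        have h4 : S.glSlots p = Finset.univ.filter (fun r => (F (p r).1.1).isLeft) := by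
          ext r
          rw [S.mem_glSlots, Finset.mem_filter]
          exact ⟨fun h => ⟨Finset.mem_univ _, h⟩, fun h => h.2⟩
        rw [← h4]
        exact heven
      have hwt : ∀ X, IsInv n P α X → ∑ r, chiC P F (pl n (p r).1) X = m * X.2 := by
        intro X hX
        have h2 := hw ⟨X, hX⟩
        have h3 : S.c ⟨X, hX⟩ = X.2 := rfl
        rw [h3] at h2
        rw [← h2]
        refine Finset.sum_congr rfl fun r _ => ?_
        by_cases h4 : (F (p r).1.1).isLeft
        · have h5 : S.gl (S.pl (p r)) := h4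
          rw [if_pos h5]
          exact chiC_real P F (pl n (p r).1) h4 X
        · have h5 : ¬ S.gl (S.pl (p r)) := h4
          rw [if_neg h5]
          have h6 : S.A (S.pl (p r)) ⟨X, hX⟩ = S'.A (S.pl (p r)) ⟨X, hX⟩ := S'.A'_neg _ h5 _
          rw [h6]
          show _ = smA n P F α ok b (pl n (p r).1) (p r).2 X 0 0
          rw [smA_cm n P F α ok b (pl n (p r).1) (p r).2 h4, if_pos ⟨rfl, rfl⟩]
      have h7 := balance_of n P F α hre hNE m (fun r => (p r).1) hinj heven' hwt t.1 ht
      have h8 : ∀ s : {s : Emb K // ok s.1}, Finset.univ.filter (fun r => S.pl (p r) = s) =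
          Finset.univ.filter (fun r => pl n (p r).1 = s.1) := by
        intro s
        ext r
        simp only [Finset.mem_filter, Finset.mem_univ, true_and]
        exact Subtype.ext_iff
      rw [h8, h8]
      exact h7
  -- back to slot functions
  let P2' : HW κ n →ₗ[ℂ] W2 n P F ok := (P2 n P F ok).codRestrict _ (P2_mem n P F ok)
  have hP2' : ∀ u, ((P2' u : W2 n P F ok) : HW κ n) = P2 n P F ok u := fun u => rfl
  have hback : ∀ v, Φ v = M (fun a => P2' (v (x a))) := by
    intro v
    rw [hMa, ← SF0_proj h0 (P2 n P F ok) (fun r hr u => EE_P2 n P F ok (q r) (hq r hr) u) v]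
    refine h0.dep _ _ fun r hr => ?_
    rw [← himg, Finset.mem_image] at hr
    obtain ⟨a, -, rfl⟩ := hr
    rw [hx.extend_apply]
    rfl
  have hgen : ∀ N ∈ Submodule.span ℂ (S.invProd m),
      (fun v : R → HW κ n => N (fun a => P2' (v (x a)))) ∈ PS (invB n P α) T := by
    intro N hN
    refine Submodule.span_induction (p := fun N _ =>
      (fun v : R → HW κ n => N (fun a => P2' (v (x a)))) ∈ PS (invB n P α) T) ?_ ?_ ?_ ?_ hN
    · rintro _ ⟨π, β, hβ, rfl⟩
      apply Submodule.subset_span
      have h1 := PP_of_prod (𝓑 := invB n P α) (fun a => x (π a))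
        (fun a c h => π.injective (hx h)) (fun a => (β a).compl₁₂ P2' P2') (fun a => by
          intro X hX u v
          have h2 := hβ a ⟨X, hX⟩ (P2' u) (P2' v)
          have h3 : ∀ u, P2' (lift n X.1 u) = S.L ⟨X, hX⟩ (P2' u) := by
            intro u
            apply Subtype.ext
            exact P2_lift n P F α ok X hX u
          rw [LinearMap.compl₁₂_apply, LinearMap.compl₁₂_apply, LinearMap.compl₁₂_apply, h3, h3]
          exact h2)
      have h4 : Finset.univ.image (fun a => x (π a)) = T := by
        rw [← himg]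
        ext r
        simp only [Finset.mem_image, Finset.mem_univ, true_and]
        constructor
        · rintro ⟨a, rfl⟩; exact ⟨_, rfl⟩
        · rintro ⟨a, rfl⟩; exact ⟨π.symm a, by rw [Equiv.apply_symm_apply]⟩
      rw [h4] at h1
      exact h1
    · exact Submodule.zero_mem _
    · intro N N' _ _ h1 h2
      exact Submodule.add_mem _ h1 h2
    · intro c N _ h1
      exact Submodule.smul_mem _ c h1
  have h1 : Φ = fun v => M (fun a => P2' (v (x a))) := funext hback
  rw [h1]
  exact hgen M hspan

end family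

end Pool.Agent.Helper7
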