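import Pool.Agent.Helper7.Cubic
import Pool.Agent.Helper7.ActForm

/-!
The operator on endomorphisms attached to an alternating four-form on a symplectic space.
-/

namespace Pool.Agent.Helper7

open Module

section quad

variable {V : Type} [AddCommGroup V] [Module ℂ V]

/-- one-forms as linear maps -/
def q1 (x : V [⋀^Fin 1]→ₗ[ℂ] ℂ) : V →ₗ[ℂ] ℂ where
  toFun a := x ![a]
  map_add' a b := x.map_vecCons_add ![] a b
  map_smul' c a := x.map_vecCons_smul ![] c a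

/-- two-forms as bilinear maps -/
def q2 (x : V [⋀^Fin 2]→ₗ[ℂ] ℂ) : V →ₗ[ℂ] V →ₗ[ℂ] ℂ where
  toFun a := q1 (x.curryLeft a)
  map_add' a b := by rw [map_add]; rfl
  map_smul' c a := by rw [map_smul]; rfl

/-- three-forms as trilinear maps -/
def q3 (x : V [⋀^Fin 3]→ₗ[ℂ] ℂ) : V →ₗ[ℂ] V →ₗ[ℂ] V →ₗ[ℂ] ℂ where
  toFun a := q2 (x.curryLeft a)
  map_add' a b := by rw [map_add]; rfl
  map_smul' c a := by rw [map_smul]; rfl

/-- four-forms as quadrilinear maps -/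
def q4 (x : V [⋀^Fin 4]→ₗ[ℂ] ℂ) : V →ₗ[ℂ] V →ₗ[ℂ] V →ₗ[ℂ] V →ₗ[ℂ] ℂ where
  toFun a := q3 (x.curryLeft a)
  map_add' a b := by rw [map_add]; rfl
  map_smul' c a := by rw [map_smul]; rfl

lemma q4_apply (x : V [⋀^Fin 4]→ₗ[ℂ] ℂ) (a b c d : V) : q4 x a b c d = x ![a, b, c, d] := rfl

lemma q4_add (x y : V [⋀^Fin 4]→ₗ[ℂ] ℂ) : q4 (x + y) = q4 x + q4 y := rfl

lemma q4_smul (t : ℂ) (x : V [⋀^Fin 4]→ₗ[ℂ] ℂ) : q4 (t • x) = t • q4 x := rfl

variable (x : V [⋀^Fin 4]→ₗ[ℂ] ℂ)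

lemma q4_12 (a b c d : V) : q4 x a b c d = - q4 x b a c d := by
  have h := x.map_swap ![b, a, c, d] (show (0 : Fin 4) ≠ 1 by decide)
  rw [q4_apply, q4_apply, ← h]
  congr 1
  funext i
  fin_cases i <;> rfl

lemma q4_23 (a b c d : V) : q4 x a b c d = - q4 x a c b d := by
  have h := x.map_swap ![a, c, b, d] (show (1 : Fin 4) ≠ 2 by decide)
  rw [q4_apply, q4_apply, ← h]
  congr 1
  funext i
  fin_cases i <;> rfl

lemma q4_34 (a b c d : V) : q4 x a b c d = - q4 x a b d c := by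
  have h := x.map_swap ![a, b, d, c] (show (2 : Fin 4) ≠ 3 by decide)
  rw [q4_apply, q4_apply, ← h]
  congr 1
  funext i
  fin_cases i <;> rfl

lemma q4_pair (a b c d : V) : q4 x a b c d = q4 x c d a b := by
  rw [q4_23, q4_12, q4_34, q4_23]
  ring

end quad

namespace SympB

variable {V : Type} [AddCommGroup V] [Module ℂ V] {ι : Type} [Fintype ι] [DecidableEq ι]
  (S : SympB V ι)

/-- the trace -/
lemma tr_eq (A : Module.End ℂ V) : S.tr A = LinearMap.trace ℂ V A := by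
  rw [LinearMap.trace_eq_matrix_trace ℂ S.e, Matrix.trace, tr]
  refine Finset.sum_congr rfl fun a _ => ?_
  rw [Matrix.diag_apply, LinearMap.toMatrix_apply]
  conv_rhs => rw [S.exp_e (A (S.e a)), map_sum]
  simp [Finsupp.single_apply]

lemma sum_swap {W : Type*} [AddCommGroup W] [Module ℂ W] (g : V →ₗ[ℂ] V →ₗ[ℂ] W) :
    ∑ b, g (S.e' b) (S.e b) = - ∑ b, g (S.e b) (S.e' b) := by
  have h1 : ∀ b, g (S.e' b) (S.e b) = ∑ a, S.ω (S.e' b) (S.e' a) • g (S.e a) (S.e b) := by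
    intro b
    conv_lhs => rw [S.exp_e (S.e' b), map_sum, LinearMap.sum_apply]
    simp only [map_smul, LinearMap.smul_apply]
  have h2 : ∀ a, g (S.e a) (S.e' a) = ∑ b, S.ω (S.e' a) (S.e' b) • g (S.e a) (S.e b) := by
    intro a
    conv_lhs => rw [S.exp_e (S.e' a), map_sum]
    simp only [map_smul]
  simp only [h1, h2]
  rw [Finset.sum_comm, ← Finset.sum_neg_distrib]
  refine Finset.sum_congr rfl fun a _ => ?_
  rw [← Finset.sum_neg_distrib]
  refine Finset.sum_congr rfl fun b _ => ?_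
  rw [S.alt (S.e' b) (S.e' a), neg_smul]

/-- moving an endomorphism with adjoint -/
lemma sum_adj {W : Type*} [AddCommGroup W] [Module ℂ W] (g : V →ₗ[ℂ] V →ₗ[ℂ] W)
    (A A' : Module.End ℂ V) (h : ∀ u v, S.ω (A u) v = S.ω u (A' v)) :
    ∑ b, g (A (S.e b)) (S.e' b) = ∑ b, g (S.e b) (A' (S.e' b)) := by
  have h1 : ∀ b, g (A (S.e b)) (S.e' b) = ∑ a, S.ω (S.e b) (A' (S.e' a)) • g (S.e a) (S.e' b) := by
    intro b
    conv_lhs => rw [S.exp_e (A (S.e b)), map_sum, LinearMap.sum_apply]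
    simp only [map_smul, LinearMap.smul_apply, h]
  have h2 : ∀ a, g (S.e a) (A' (S.e' a)) = ∑ b, S.ω (S.e b) (A' (S.e' a)) • g (S.e a) (S.e' b) := by
    intro a
    conv_lhs => rw [S.exp_e' (A' (S.e' a)), map_sum]
    simp only [map_smul]
  simp only [h1, h2]
  rw [Finset.sum_comm]

/-- the endomorphism of a bilinear form -/
noncomputable def ofForm : (V →ₗ[ℂ] V →ₗ[ℂ] ℂ) →ₗ[ℂ] Module.End ℂ V where
  toFun b := ∑ c, (b.flip (S.e' c)).smulRight (S.e c)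
  map_add' b b' := by
    rw [← Finset.sum_add_distrib]
    refine Finset.sum_congr rfl fun c _ => ?_
    ext v
    simp [add_smul]
  map_smul' t b := by
    rw [Finset.smul_sum]
    refine Finset.sum_congr rfl fun c _ => ?_
    ext v
    simp [mul_smul]

lemma ofForm_spec (b : V →ₗ[ℂ] V →ₗ[ℂ] ℂ) (u v : V) : S.ω (S.ofForm b u) v = b u v := by
  have h : S.ofForm b u = ∑ c, b u (S.e' c) • S.e c := by
    show (∑ c, (b.flip (S.e' c)).smulRight (S.e c)) u = _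
    rw [LinearMap.sum_apply]
    rfl
  rw [h, map_sum, LinearMap.sum_apply]
  conv_rhs => rw [S.exp_e' v, map_sum]
  refine Finset.sum_congr rfl fun c _ => ?_
  rw [map_smul, LinearMap.smul_apply, map_smul, smul_eq_mul, smul_eq_mul, mul_comm]

lemma ext_ω (u v : V) (h : ∀ w, S.ω u w = S.ω v w) : u = v := by
  rw [← sub_eq_zero]
  apply S.nondeg
  intro a
  rw [map_sub, LinearMap.sub_apply, h, sub_self]

lemma ext_ωE (A B : Module.End ℂ V) (h : ∀ u w, S.ω (A u) w = S.ω (B u) w) : A = B :=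
  LinearMap.ext fun u => S.ext_ω _ _ (h u)

/-- contraction of a four-form with an endomorphism -/
noncomputable def ctr (q : V →ₗ[ℂ] V →ₗ[ℂ] V →ₗ[ℂ] V →ₗ[ℂ] ℂ) :
    Module.End ℂ V →ₗ[ℂ] (V →ₗ[ℂ] V →ₗ[ℂ] ℂ) where
  toFun B := LinearMap.mk₂ ℂ (fun u v => ∑ a, q u v (B (S.e a)) (S.e' a))
    (fun u u' v => by simp [Finset.sum_add_distrib])
    (fun c u v => by simp [Finset.mul_sum])
    (fun u v v' => by simp [Finset.sum_add_distrib])
    (fun c u v => by simp [Finset.mul_sum])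
  map_add' B B' := by
    ext u v
    simp [Finset.sum_add_distrib]
  map_smul' c B := by
    ext u v
    simp [Finset.mul_sum]

lemma ctr_apply (q : V →ₗ[ℂ] V →ₗ[ℂ] V →ₗ[ℂ] V →ₗ[ℂ] ℂ) (B : Module.End ℂ V) (u v : V) :
    S.ctr q B u v = ∑ a, q u v (B (S.e a)) (S.e' a) := rfl

/-- the operator on endomorphisms -/
noncomputable def T (q : V →ₗ[ℂ] V →ₗ[ℂ] V →ₗ[ℂ] V →ₗ[ℂ] ℂ) :
    Module.End ℂ (Module.End ℂ V) := S.ofForm ∘ₗ S.ctr q

lemma T_spec (q : V →ₗ[ℂ] V →ₗ[ℂ] V →ₗ[ℂ] V →ₗ[ℂ] ℂ) (B : Module.End ℂ V) (u v : V) :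
    S.ω (S.T q B u) v = ∑ a, q u v (B (S.e a)) (S.e' a) := by
  rw [T, LinearMap.comp_apply, S.ofForm_spec, S.ctr_apply]

lemma T_add (q q' : V →ₗ[ℂ] V →ₗ[ℂ] V →ₗ[ℂ] V →ₗ[ℂ] ℂ) : S.T (q + q') = S.T q + S.T q' := by
  apply LinearMap.ext
  intro B
  apply S.ext_ωE
  intro u w
  rw [LinearMap.add_apply, LinearMap.add_apply, map_add, LinearMap.add_apply, S.T_spec, S.T_spec,
    S.T_spec, ← Finset.sum_add_distrib]
  rfl

lemma T_smul (c : ℂ) (q : V →ₗ[ℂ] V →ₗ[ℂ] V →ₗ[ℂ] V →ₗ[ℂ] ℂ) : S.T (c • q) = c • S.T q := by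
  apply LinearMap.ext
  intro B
  apply S.ext_ωE
  intro u w
  rw [LinearMap.smul_apply, LinearMap.smul_apply, map_smul, LinearMap.smul_apply, S.T_spec,
    S.T_spec, Finset.smul_sum]
  rfl

lemma tr_T_mul (q : V →ₗ[ℂ] V →ₗ[ℂ] V →ₗ[ℂ] V →ₗ[ℂ] ℂ) (B C : Module.End ℂ V) :
    S.tr (S.T q B * C) = ∑ b, ∑ a, q (C (S.e b)) (S.e' b) (B (S.e a)) (S.e' a) := by
  rw [tr]
  refine Finset.sum_congr rfl fun b _ => ?_
  rw [Module.End.mul_apply, S.T_spec]

section alternating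

variable (x : V [⋀^Fin 4]→ₗ[ℂ] ℂ)

lemma T_sym (B : Module.End ℂ V) : S.IsSym (S.T (q4 x) B) := by
  intro u v
  rw [S.T_spec, S.alt u, S.T_spec, ← Finset.sum_neg_distrib]
  exact Finset.sum_congr rfl fun a _ => q4_12 x _ _ _ _

lemma tr_mul_comm (A B : Module.End ℂ V) : S.tr (A * B) = S.tr (B * A) := by
  rw [S.tr_eq, S.tr_eq, LinearMap.trace_mul_comm]

/-- self-adjointness for the trace form -/
lemma T_selfadj (B C : Module.End ℂ V) :
    S.tr (S.T (q4 x) B * C) = S.tr (B * S.T (q4 x) C) := by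
  rw [S.tr_mul_comm B, S.tr_T_mul, S.tr_T_mul, Finset.sum_comm]
  exact Finset.sum_congr rfl fun a _ => Finset.sum_congr rfl fun b _ => q4_pair x _ _ _ _

/-- primitive forms -/
def IsPrim : Prop := ∀ u v, ∑ a, q4 x u v (S.e a) (S.e' a) = 0

variable {x} in
lemma IsPrim.T_one (h : S.IsPrim x) : S.T (q4 x) 1 = 0 := by
  apply S.ext_ωE
  intro u w
  rw [S.T_spec, LinearMap.zero_apply, map_zero, LinearMap.zero_apply]
  exact h u w

variable {x} in
lemma IsPrim.tr_T (h : S.IsPrim x) (B : Module.End ℂ V) : S.tr (S.T (q4 x) B) = 0 := by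
  have h1 := S.T_selfadj x B 1
  rw [mul_one, h.T_one, mul_zero] at h1
  rw [h1, S.tr_eq, map_zero]

end alternating

/-- endomorphisms skew for the form -/
def IsSkew (X : Module.End ℂ V) : Prop := ∀ u v, S.ω (X u) v = - S.ω u (X v)

/-- the derived action on quadrilinear forms -/
def act4 (X : Module.End ℂ V) (q : V →ₗ[ℂ] V →ₗ[ℂ] V →ₗ[ℂ] V →ₗ[ℂ] ℂ) (a b c d : V) : ℂ :=
  q (X a) b c d + q a (X b) c d + q a b (X c) d + q a b c (X d)

/-- equivariance -/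
lemma T_equiv (X : Module.End ℂ V) (hX : S.IsSkew X)
    (q : V →ₗ[ℂ] V →ₗ[ℂ] V →ₗ[ℂ] V →ₗ[ℂ] ℂ) (h : ∀ a b c d, act4 X q a b c d = 0)
    (B : Module.End ℂ V) : S.T q (X * B - B * X) = X * S.T q B - S.T q B * X := by
  apply S.ext_ωE
  intro u v
  have h1 : ∑ a, q u v (B (X (S.e a))) (S.e' a) = - ∑ a, q u v (B (S.e a)) (X (S.e' a)) := by
    have h2 := S.sum_adj ((q u v).comp B) X (-X) (fun u v => by
      rw [hX, LinearMap.neg_apply, map_neg])
    simp only [LinearMap.comp_apply, LinearMap.neg_apply, map_neg, Finset.sum_neg_distrib] at h2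
    exact h2
  rw [S.T_spec, LinearMap.sub_apply, map_sub, LinearMap.sub_apply, Module.End.mul_apply,
    Module.End.mul_apply, hX, S.T_spec, S.T_spec]
  have h3 : ∑ a, q u v ((X * B - B * X) (S.e a)) (S.e' a) =
      ∑ a, q u v (X (B (S.e a))) (S.e' a) - ∑ a, q u v (B (X (S.e a))) (S.e' a) := by
    rw [← Finset.sum_sub_distrib]
    refine Finset.sum_congr rfl fun a _ => ?_
    rw [LinearMap.sub_apply, map_sub, LinearMap.sub_apply]
    rfl
  have h4 : ∑ a, act4 X q u v (B (S.e a)) (S.e' a) = 0 :=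
    Finset.sum_eq_zero fun a _ => h _ _ _ _
  simp only [act4, Finset.sum_add_distrib] at h4
  rw [h3, h1]
  linear_combination h4

end SympB

end Pool.Agent.Helper7
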