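import Pool.Agent.Helper7.TX

/-!
The cubic identity for the operator of a primitive four-form; the trace formula.
-/

namespace Pool.Agent.Helper7

open Module

section lift4

variable {V : Type} [AddCommGroup V] [Module ℂ V] (x : V [⋀^Fin 4]→ₗ[ℂ] ℂ)

lemma fam4_same : (Pi.single 4 x : ∀ i, V [⋀^Fin i]→ₗ[ℂ] ℂ) 4 = x :=
  Pi.single_eq_same (M := fun i => V [⋀^Fin i]→ₗ[ℂ] ℂ) 4 x

lemma fam4_ne (i : ℕ) (hi : i ≠ 4) : (Pi.single 4 x : ∀ i, V [⋀^Fin i]→ₗ[ℂ] ℂ) i = 0 :=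
  Pi.single_eq_of_ne (M := fun i => V [⋀^Fin i]→ₗ[ℂ] ℂ) hi x

/-- the linear form on the exterior algebra -/
noncomputable def lift4 : ExteriorAlgebra ℂ V →ₗ[ℂ] ℂ :=
  ExteriorAlgebra.liftAlternating (R := ℂ) (M := V) (N := ℂ) (Pi.single 4 x)

lemma lift4_two (a b : V) (i : ℕ) (v : Fin i → V) :
    lift4 x (ExteriorAlgebra.ι ℂ a * (ExteriorAlgebra.ι ℂ b * ExteriorAlgebra.ιMulti ℂ i v)) =
      (Pi.single 4 x : ∀ i, V [⋀^Fin i]→ₗ[ℂ] ℂ) (i + 2) (Matrix.vecCons a (Matrix.vecCons b v)) := by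
  rw [lift4, ExteriorAlgebra.liftAlternating_ι_mul, ExteriorAlgebra.liftAlternating_ι_mul,
    ExteriorAlgebra.liftAlternating_apply_ιMulti]
  rfl

lemma lift4_four (a b c d : V) :
    lift4 x (ExteriorAlgebra.ι ℂ a * (ExteriorAlgebra.ι ℂ b * (ExteriorAlgebra.ι ℂ c *
      (ExteriorAlgebra.ι ℂ d * 1)))) = q4 x a b c d := by
  rw [lift4, ExteriorAlgebra.liftAlternating_ι_mul, ExteriorAlgebra.liftAlternating_ι_mul,
    ExteriorAlgebra.liftAlternating_ι_mul, ExteriorAlgebra.liftAlternating_ι_mul,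
    ExteriorAlgebra.liftAlternating_one]
  have h : (Pi.single 4 x : ∀ i, V [⋀^Fin i]→ₗ[ℂ] ℂ) (0 + 1 + 1 + 1 + 1) = x :=
    fam4_same x
  show ((Pi.single 4 x : ∀ i, V [⋀^Fin i]→ₗ[ℂ] ℂ) (0 + 1 + 1 + 1 + 1))
    (Matrix.vecCons a (Matrix.vecCons b (Matrix.vecCons c (Matrix.vecCons d 0)))) = _
  rw [h, q4_apply]
  congr 1
  funext i
  fin_cases i <;> rfl

end lift4

namespace SympB

variable {V : Type} [AddCommGroup V] [Module ℂ V] {ι : Type} [Fintype ι] [DecidableEq ι]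
  (S : SympB V ι) (x : V [⋀^Fin 4]→ₗ[ℂ] ℂ)

lemma lift4_LE (A B : Module.End ℂ V) :
    lift4 x (S.LE A (S.LE B 1)) =
      ∑ a, ∑ b, q4 x (A (S.e a)) (S.e' a) (B (S.e b)) (S.e' b) := by
  rw [LE, LA, LinearMap.sum_apply, map_sum]
  refine Finset.sum_congr rfl fun a _ => ?_
  rw [Module.End.mul_apply, LE, LA, LinearMap.sum_apply, map_sum, map_sum, map_sum]
  refine Finset.sum_congr rfl fun b _ => ?_
  rw [Module.End.mul_apply, crE_apply, crE_apply, crE_apply, crE_apply, lift4_four]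

lemma lift4_LE' (A B : Module.End ℂ V) :
    lift4 x (S.LE A (S.LE B 1)) = S.tr (S.T (q4 x) B * A) := by
  rw [S.lift4_LE, S.tr_T_mul]

lemma lift4_prim (h : S.IsPrim x) (ξ : ExteriorAlgebra ℂ V) : lift4 x (S.LE 1 ξ) = 0 := by
  have h1 : (lift4 x) ∘ₗ (S.LE 1) = 0 := by
    apply ExteriorAlgebra.lhom_ext
    intro i
    ext v
    show lift4 x (S.LE 1 (ExteriorAlgebra.ιMulti ℂ i v)) = 0
    rw [LE, LA, LinearMap.sum_apply, map_sum]
    have h2 : ∀ a, lift4 x ((crE ((1 : Module.End ℂ V) (S.e a)) * crE (S.e' a))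
        (ExteriorAlgebra.ιMulti ℂ i v)) = (Pi.single 4 x : ∀ i, V [⋀^Fin i]→ₗ[ℂ] ℂ) (i + 2)
          (Matrix.vecCons (S.e a) (Matrix.vecCons (S.e' a) v)) := by
      intro a
      rw [Module.End.mul_apply, crE_apply, crE_apply, lift4_two]
      rfl
    rw [Finset.sum_congr rfl fun a _ => h2 a]
    by_cases hi : i = 2
    · subst hi
      have h3 : (Pi.single 4 x : ∀ i, V [⋀^Fin i]→ₗ[ℂ] ℂ) (2 + 2) = x := fam4_same x
      rw [h3]
      have h4 : ∀ a, x (Matrix.vecCons (S.e a) (Matrix.vecCons (S.e' a) v)) =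
          q4 x (v 0) (v 1) (S.e a) (S.e' a) := by
        intro a
        rw [← q4_pair, q4_apply]
        congr 1
        funext i
        fin_cases i <;> rfl
      rw [Finset.sum_congr rfl fun a _ => h4 a]
      exact h _ _
    · have h3 : (Pi.single 4 x : ∀ i, V [⋀^Fin i]→ₗ[ℂ] ℂ) (i + 2) = 0 :=
        fam4_ne x _ (by omega)
      rw [h3]
      exact Finset.sum_eq_zero fun a _ => rfl
  exact congrArg (fun g => g ξ) h1

/-- the cubic identity -/
theorem T_cubic (hdim : Fintype.card ι = 8) (h : S.IsPrim x) (A B C : Module.End ℂ V)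
    (hA : S.IsSym A) (hB : S.IsSym B) (hC : S.IsSym C) (tA : S.tr A = 0) (tB : S.tr B = 0)
    (tC : S.tr C = 0) :
    S.tr (S.T (q4 x) A * (B * C + C * B)) + S.tr (S.T (q4 x) B * (A * C + C * A)) +
      S.tr (S.T (q4 x) C * (A * B + B * A)) = 0 := by
  have h1 := S.cubic hdim (lift4 x) (S.lift4_prim x h) A B C hA hB hC tA tB tC
  rw [S.lift4_LE', S.lift4_LE', S.lift4_LE'] at h1
  have h2 := S.T_selfadj x (A * C + C * A) B
  have h3 := S.T_selfadj x (B * C + C * B) A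
  rw [h2, h3, S.tr_mul_comm _ (S.T (q4 x) B), S.tr_mul_comm _ (S.T (q4 x) A)] at h1
  linear_combination h1

lemma repr_end (A : Module.End ℂ V) (b c : ι) :
    S.e.end.repr A (b, c) = S.ω (A (S.e c)) (S.e' b) := by
  have h1 : S.e.repr (A (S.e c)) b = S.ω (A (S.e c)) (S.e' b) := by
    conv_lhs => rw [S.exp_e (A (S.e c)), map_sum]
    simp [Finsupp.single_apply]
  rw [← h1]
  conv_rhs => rw [← S.e.end.sum_repr A]
  rw [LinearMap.sum_apply, map_sum, Finsupp.finsetSum_apply, Fintype.sum_prod_type,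
    Finset.sum_eq_single b, Finset.sum_eq_single c]
  · rw [LinearMap.smul_apply, Basis.end_apply_apply, if_pos rfl]
    simp
  · intro c' _ hc'
    rw [LinearMap.smul_apply, Basis.end_apply_apply, if_neg hc']
    simp
  · intro h; exact absurd (Finset.mem_univ _) h
  · intro b' _ hb'
    refine Finset.sum_eq_zero fun c' _ => ?_
    rw [LinearMap.smul_apply, Basis.end_apply_apply]
    split_ifs
    · simp [hb']
    · simp
  · intro h; exact absurd (Finset.mem_univ _) h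

/-- the trace formula -/
lemma trace_T (q q' : V →ₗ[ℂ] V →ₗ[ℂ] V →ₗ[ℂ] V →ₗ[ℂ] ℂ) :
    LinearMap.trace ℂ (Module.End ℂ V) (S.T q * S.T q') =
      ∑ b, ∑ c, ∑ a, ∑ d, q (S.e c) (S.e' b) (S.e d) (S.e' a) *
        q' (S.e a) (S.e' d) (S.e b) (S.e' c) := by
  rw [LinearMap.trace_eq_matrix_trace ℂ S.e.end, Matrix.trace, Fintype.sum_prod_type]
  refine Finset.sum_congr rfl fun b _ => Finset.sum_congr rfl fun c _ => ?_
  rw [Matrix.diag_apply, LinearMap.toMatrix_apply, S.repr_end, Module.End.mul_apply, S.T_spec]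
  refine Finset.sum_congr rfl fun a _ => ?_
  have h1 : S.T q' (S.e.end (b, c)) (S.e a) = ∑ d, q' (S.e a) (S.e' d) (S.e b) (S.e' c) • S.e d := by
    rw [S.exp_e (S.T q' (S.e.end (b, c)) (S.e a))]
    refine Finset.sum_congr rfl fun d _ => ?_
    rw [S.T_spec, Finset.sum_eq_single c]
    · rw [Basis.end_apply_apply, if_pos rfl]
    · intro c' _ hc'
      rw [Basis.end_apply_apply, if_neg (fun h => hc' h.symm), map_zero, LinearMap.zero_apply]
    · intro h; exact absurd (Finset.mem_univ _) h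
  rw [h1, map_sum, LinearMap.sum_apply]
  refine Finset.sum_congr rfl fun d _ => ?_
  rw [map_smul, LinearMap.smul_apply, smul_eq_mul, mul_comm]

end SympB

end Pool.Agent.Helper7
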